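import Mathlib

/-!
# The polynomial of cross ratios of the roots of a polynomial
-/

open Polynomial

namespace Pool.Agent.Lib.MP_ca2859_nt

section
variable {n : ℕ}

/-- numerator of a cross ratio -/
def crn {R : Type*} [CommRing R] (p : Fin 4 → Fin n) (α : Fin n → R) (σ : Equiv.Perm (Fin n)) : R :=
  (α (σ (p 0)) - α (σ (p 1))) * (α (σ (p 2)) - α (σ (p 3)))

/-- denominator of a cross ratio -/
def crd {R : Type*} [CommRing R] (p : Fin 4 → Fin n) (α : Fin n → R) (σ : Equiv.Perm (Fin n)) : R :=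
  (α (σ (p 0)) - α (σ (p 2))) * (α (σ (p 1)) - α (σ (p 3)))

/-- the polynomial of cross ratios -/
noncomputable def CR {R : Type*} [CommRing R] (p : Fin 4 → Fin n) (α : Fin n → R) : R[X] :=
  ∏ σ : Equiv.Perm (Fin n), (C (crd p α σ) * X - C (crn p α σ))

theorem CR_map {R S : Type*} [CommRing R] [CommRing S] (p : Fin 4 → Fin n) (α : Fin n → R)
    (φ : R →+* S) : (CR p α).map φ = CR p (fun i => φ (α i)) := by
  rw [CR, CR, Polynomial.map_prod]
  apply Finset.prod_congr rfl
  intro σ _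
  simp [crd, crn]

theorem CR_perm {R : Type*} [CommRing R] (p : Fin 4 → Fin n) (α : Fin n → R)
    (τ : Equiv.Perm (Fin n)) : CR p (fun i => α (τ i)) = CR p α := by
  rw [CR, CR]
  apply Fintype.prod_equiv (Equiv.mulLeft τ)
  intro σ
  rfl

theorem CR_coeff_symm (p : Fin 4 → Fin n) (k : ℕ) :
    ((CR p (fun i => (MvPolynomial.X i : MvPolynomial (Fin n) ℤ))).coeff k).IsSymmetric := by
  intro τ
  have h1 := CR_map p (fun i => (MvPolynomial.X i : MvPolynomial (Fin n) ℤ))
    (MvPolynomial.rename τ : MvPolynomial (Fin n) ℤ →ₐ[ℤ] MvPolynomial (Fin n) ℤ).toRingHom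
  have h2 := congrArg (fun q => q.coeff k) h1
  simp only [coeff_map] at h2
  have h3 : (fun i => (MvPolynomial.rename τ : MvPolynomial (Fin n) ℤ →ₐ[ℤ] MvPolynomial (Fin n) ℤ).toRingHom
      (MvPolynomial.X i : MvPolynomial (Fin n) ℤ)) = fun i => MvPolynomial.X (τ i) := by
    funext i
    simp
  rw [h3, CR_perm p (fun i => (MvPolynomial.X i : MvPolynomial (Fin n) ℤ)) τ] at h2
  exact h2

/-- symmetric functions of the roots in terms of the coefficients -/
theorem exists_T_of_symm (S : MvPolynomial (Fin n) ℤ) (hS : S.IsSymmetric) :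
    ∃ N₀ : ℕ, ∀ N, N₀ ≤ N → ∃ T : MvPolynomial ℕ ℤ, ∀ (R : Type) [CommRing R] (a : R)
      (α : Fin n → R), MvPolynomial.aeval (fun i => (C a * ∏ j, (X - C (α j))).coeff i) T =
        a ^ N * MvPolynomial.aeval α S := by
  classical
  obtain ⟨Q, hQ⟩ := (MvPolynomial.esymmAlgEquiv (Fin n) ℤ (Fintype.card_fin n)).surjective ⟨S, hS⟩
  have hQ' : MvPolynomial.aeval (fun i : Fin n => MvPolynomial.esymm (Fin n) ℤ (i + 1)) Q = S := by
    have h0 : MvPolynomial.esymmAlgHom (Fin n) ℤ n Q = ⟨S, hS⟩ := hQ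
    rw [← MvPolynomial.esymmAlgHom_apply, h0]
  refine ⟨Q.totalDegree, ?_⟩
  intro N hN
  refine ⟨∑ m ∈ Q.support, MvPolynomial.C (Q.coeff m) * MvPolynomial.X n ^ (N - (m.sum fun _ e => e)) *
    ∏ i : Fin n, (MvPolynomial.C ((-1) ^ ((i : ℕ) + 1)) * MvPolynomial.X (n - 1 - i)) ^ (m i), ?_⟩
  intro R _ a α
  set f : R[X] := C a * ∏ j, (X - C (α j)) with hf
  have hmonic : (∏ j, (X - C (α j)) : R[X]).Monic := monic_prod_of_monic _ _ fun j _ => monic_X_sub_C _
  have hcoef : ∀ k ≤ n, f.coeff (n - k) = a * ((-1) ^ k * MvPolynomial.aeval α (MvPolynomial.esymm (Fin n) ℤ k)) := by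
    intro k hk
    have h1 := MvPolynomial.aeval_esymm_eq_multiset_esymm (Fin n) ℤ α (n := k)
    have h2 := Multiset.prod_X_sub_X_eq_sum_esymm (R := R) (Finset.univ.val.map α)
    have h3 : (∏ j, (X - C (α j)) : R[X]) = (Multiset.map (fun t => X - C t) (Finset.univ.val.map α)).prod := by
      rw [Multiset.map_map]; rfl
    have h4 := Multiset.prod_X_sub_C_coeff (R := R) (Finset.univ.val.map α) (k := n - k) (by simp)
    rw [hf, coeff_C_mul, h3, h4]
    simp only [Multiset.card_map, Finset.card_val, Finset.card_univ, Fintype.card_fin]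
    rw [show n - (n - k) = k by omega, ← h1]
  have ha : f.coeff n = a := by
    have := hcoef 0 (Nat.zero_le _)
    simpa using this
  rw [map_sum]
  have hrhs : MvPolynomial.aeval α S = ∑ m ∈ Q.support, ((Q.coeff m : ℤ) : R) *
      ∏ i : Fin n, (MvPolynomial.aeval α (MvPolynomial.esymm (Fin n) ℤ (i + 1))) ^ (m i) := by
    rw [← hQ', ← AlgHom.comp_apply, MvPolynomial.comp_aeval, MvPolynomial.aeval_def, MvPolynomial.eval₂_eq']
    apply Finset.sum_congr rfl
    intro m _
    simp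
  rw [hrhs, Finset.mul_sum]
  apply Finset.sum_congr rfl
  intro m hm
  have hdeg : (m.sum fun _ e => e) ≤ N := (MvPolynomial.le_totalDegree hm).trans hN
  have hsum : (m.sum fun _ e => e) = ∑ i, m i := by
    rw [Finsupp.sum_fintype]; simp
  rw [map_mul, map_mul, map_prod, map_pow, MvPolynomial.aeval_C, MvPolynomial.aeval_X,
    algebraMap_int_eq, eq_intCast]
  have haev : ∀ i : Fin n, MvPolynomial.aeval (fun i => f.coeff i)
      ((MvPolynomial.C ((-1) ^ ((i : ℕ) + 1)) * MvPolynomial.X (n - 1 - i) : MvPolynomial ℕ ℤ) ^ (m i)) =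
      ((((-1) ^ ((i : ℕ) + 1) : ℤ) : R) * f.coeff (n - 1 - i)) ^ (m i) := by
    intro i
    rw [map_pow, map_mul, MvPolynomial.aeval_C, MvPolynomial.aeval_X, algebraMap_int_eq, eq_intCast]
  rw [Finset.prod_congr rfl fun i _ => haev i]
  rw [ha]
  have hprod : ∏ i : Fin n, ((((-1) ^ ((i : ℕ) + 1) : ℤ) : R) * f.coeff (n - 1 - i)) ^ (m i) =
      a ^ (∑ i, m i) * ∏ i : Fin n, (MvPolynomial.aeval α (MvPolynomial.esymm (Fin n) ℤ (i + 1))) ^ (m i) := by
    rw [← Finset.prod_pow_eq_pow_sum, ← Finset.prod_mul_distrib]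
    apply Finset.prod_congr rfl
    intro i _
    rw [← mul_pow]
    congr 1
    have h5 := hcoef (i + 1) (by omega)
    rw [show n - 1 - (i : ℕ) = n - (i + 1) by omega, h5]
    push_cast
    have h6 : ((-1 : R) ^ ((i : ℕ) + 1)) * (-1) ^ ((i : ℕ) + 1) = 1 := by
      rw [← mul_pow]; simp
    linear_combination (a * MvPolynomial.aeval α (MvPolynomial.esymm (Fin n) ℤ (i + 1))) * h6
  rw [hprod, hsum]
  have h7 : a ^ N = a ^ (N - ∑ i, m i) * a ^ (∑ i, m i) := by
    rw [← pow_add]
    congr 1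
    omega
  rw [h7]
  ring

theorem exists_T (p : Fin 4 → Fin n) : ∃ (N : ℕ) (T : ℕ → MvPolynomial ℕ ℤ),
    ∀ (R : Type) [CommRing R] (a : R) (α : Fin n → R) (k : ℕ),
      MvPolynomial.aeval (fun i => (C a * ∏ j, (X - C (α j))).coeff i) (T k) =
        a ^ N * (CR p α).coeff k := by
  classical
  have h := fun k => exists_T_of_symm _ (CR_coeff_symm p k)
  choose N₀ hN₀ using h
  set D := Fintype.card (Equiv.Perm (Fin n)) with hD
  set N := ∑ k ∈ Finset.range (D + 1), N₀ k with hN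
  have hle : ∀ k ≤ D, N₀ k ≤ N := fun k hk =>
    Finset.single_le_sum (f := N₀) (fun _ _ => Nat.zero_le _) (Finset.mem_range.2 (by omega))
  have h2 : ∀ k, ∃ T : MvPolynomial ℕ ℤ, ∀ (R : Type) [CommRing R] (a : R) (α : Fin n → R),
      MvPolynomial.aeval (fun i => (C a * ∏ j, (X - C (α j))).coeff i) T =
        a ^ N * (CR p α).coeff k := by
    intro k
    have hmap : ∀ (R : Type) [CommRing R] (α : Fin n → R), (CR p α).coeff k = MvPolynomial.aeval α
        ((CR p (fun i => (MvPolynomial.X i : MvPolynomial (Fin n) ℤ))).coeff k) := by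
      intro R _ α
      have h1 := CR_map p (fun i => (MvPolynomial.X i : MvPolynomial (Fin n) ℤ))
        (MvPolynomial.aeval α : MvPolynomial (Fin n) ℤ →ₐ[ℤ] R).toRingHom
      have h2 := congrArg (fun q => q.coeff k) h1
      simp only [coeff_map] at h2
      have h3 : (fun i => (MvPolynomial.aeval α : MvPolynomial (Fin n) ℤ →ₐ[ℤ] R).toRingHom
          (MvPolynomial.X i : MvPolynomial (Fin n) ℤ)) = α := by
        funext i; simp
      rw [h3] at h2
      exact h2.symm
    by_cases hk : k ≤ D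
    · obtain ⟨T, hT⟩ := hN₀ k N (hle k hk)
      refine ⟨T, fun R _ a α => ?_⟩
      rw [hT, hmap R α]
    · refine ⟨0, fun R _ a α => ?_⟩
      have h1 : (CR p α).coeff k = 0 := by
        apply coeff_eq_zero_of_natDegree_lt
        have h2 : (CR p α).natDegree ≤ ∑ σ : Equiv.Perm (Fin n), 1 := by
          rw [CR]
          refine (natDegree_prod_le _ _).trans (Finset.sum_le_sum fun σ _ => ?_)
          refine (natDegree_sub_le _ _).trans ?_
          simp only [natDegree_C, max_le_iff]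
          refine ⟨?_, by omega⟩
          exact (natDegree_C_mul_le _ _).trans natDegree_X_le
        rw [Finset.sum_const, Finset.card_univ, smul_eq_mul, mul_one] at h2
        omega
      rw [map_zero, h1, mul_zero]
  choose T hT using h2
  exact ⟨N, T, fun R _ a α k => hT k R a α⟩

end

end Pool.Agent.Lib.MP_ca2859_nt
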