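import Mathlib

/-!
# Hyperelliptic curves over number fields: Weierstrass models, minimal discriminants

All notions of the problem file, for genus `g ≥ 2`.
-/

open Polynomial WithZero IsDedekindDomain NumberField

namespace Pool.Agent.Lib.MP_ca2859_nt

section local_defs
variable {F : Type*} [Field F]

/-- `f` is the right hand side of an equation `y ^ 2 = f(x)` of a hyperelliptic curve of genus `g`
over `F` (of characteristic `0`): `f` is separable of degree `2g+1` or `2g+2`. -/
def IsHyperelliptic (g : ℕ) (f : F[X]) : Prop :=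
  f.Separable ∧ (f.natDegree = 2 * g + 1 ∨ f.natDegree = 2 * g + 2)

/-- `y ^ 2 = h(x)` and `y ^ 2 = f(x)` define the same curve of genus `g`: `h` is obtained from `f`
by a change of variables `x ↦ (a x + b) / (c x + d)`, `y ↦ y / (e (c x + d) ^ (g+1))`. -/
def SameCurve (g : ℕ) (f h : F[X]) : Prop :=
  ∃ a b c d e : F, a * d - b * c ≠ 0 ∧ e ≠ 0 ∧ ∀ x : F, c * x + d ≠ 0 →
    h.eval x = e ^ 2 * (c * x + d) ^ (2 * g + 2) * f.eval ((a * x + b) / (c * x + d))

/-- The discriminant of the equation `y ^ 2 = h(x)`, as in the problem file. -/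
noncomputable def eqDisc (g : ℕ) (h : F[X]) : F :=
  if h.natDegree = 2 * g + 2 then 2 ^ (4 * g) * h.discr
  else 2 ^ (4 * g) * h.leadingCoeff ^ 2 * h.discr

/-- The polynomial `f₀ = P + Q² / 4` of the Weierstrass equation `y² + Q(x) y = P(x)`. -/
noncomputable def f0 (P Q : F[X]) : F[X] := P + C (1 / 4) * Q ^ 2

/-- `y² + Q(x) y = P(x)` is a Weierstrass model, over the valuation ring of `v`, of the curve
`y² = f(x)` of genus `g`. -/
structure IsWeierstrassModel (v : Valuation F ℤᵐ⁰) (g : ℕ) (f P Q : F[X]) : Prop where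
  intP : ∀ i, v (P.coeff i) ≤ 1
  intQ : ∀ i, v (Q.coeff i) ≤ 1
  degP : P.natDegree ≤ 2 * g + 2
  degQ : Q.natDegree ≤ g + 1
  deg0 : (f0 P Q).natDegree = 2 * g + 1 ∨ (f0 P Q).natDegree = 2 * g + 2
  same : SameCurve g f (f0 P Q)

/-- The exponent at `v` of the minimal discriminant of the curve `y² = f(x)` of genus `g`: the
minimum of `v(Δ)` over all its Weierstrass models over the valuation ring of `v`. (`v` is written
multiplicatively: `v(Δ) = k` reads `v Δ = exp (-k)`.) -/
noncomputable def minDiscExp (v : Valuation F ℤᵐ⁰) (g : ℕ) (f : F[X]) : ℕ :=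
  sInf {k : ℕ | ∃ P Q : F[X], IsWeierstrassModel v g f P Q ∧
    v (eqDisc g (f0 P Q)) = exp (-(k : ℤ))}

end local_defs

section global_defs
variable {K : Type} [Field K] [NumberField K]

/-- `n_v`: the exponent at the finite place `v` of the minimal discriminant of the curve
`y² = f(x)` of genus `g` over the number field `K`. -/
noncomputable def discExp (g : ℕ) (f : K[X]) (v : HeightOneSpectrum (𝓞 K)) : ℕ :=
  minDiscExp (v.valuation K) g f

/-- `Δ_C`, the product over all finite places `v` of `N_v ^ n_v`. -/
noncomputable def DeltaC (g : ℕ) (f : K[X]) : ℕ :=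
  ∏ᶠ v : HeightOneSpectrum (𝓞 K), Ideal.absNorm v.asIdeal ^ discExp g f v

/-- `M_C`, the product of the `N_v` over the finite places `v` of bad reduction, that is over
those with `n_v ≠ 0`. -/
noncomputable def MC (g : ℕ) (f : K[X]) : ℕ :=
  ∏ᶠ v : HeightOneSpectrum (𝓞 K), if discExp g f v = 0 then 1 else Ideal.absNorm v.asIdeal

/-- The stable exponent at `v`: the infimum, over all finite extensions `L` of `K` and all places
`w` of `L` above `v`, of `n_w(C_L) / e(w|v)`. It vanishes as soon as `C` acquires good reduction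
at some place above `v` of some finite extension (potentially good reduction at `v`). -/
noncomputable def stableExp (g : ℕ) (f : K[X]) (v : HeightOneSpectrum (𝓞 K)) : ℝ :=
  sInf {r : ℝ | ∃ (L : Type) (_ : Field L) (_ : NumberField L) (_ : Algebra K L)
    (w : HeightOneSpectrum (𝓞 L)), w.asIdeal.LiesOver v.asIdeal ∧
    r = (discExp g (f.map (algebraMap K L)) w : ℝ) /
      (Ideal.ramificationIdx' v.asIdeal w.asIdeal : ℝ)}

/-- The stable discriminant: the product over all finite places `v` of `N_v` raised to the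
stable exponent at `v`. -/
noncomputable def stableDelta (g : ℕ) (f : K[X]) : ℝ :=
  ∏ᶠ v : HeightOneSpectrum (𝓞 K), (Ideal.absNorm v.asIdeal : ℝ) ^ stableExp g f v

end global_defs

end Pool.Agent.Lib.MP_ca2859_nt
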