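import Mathlib

open Polynomial

namespace Pool.Agent.Lib.MP_ca2859_nt

section Res
variable {R : Type*} [CommRing R]

/-- block-wise reversal of the columns -/
def colRev (m n : ℕ) : Equiv.Perm (Fin (m + n)) :=
  finSumFinEquiv.symm.trans ((Equiv.sumCongr Fin.revPerm Fin.revPerm).trans finSumFinEquiv)

theorem sylvester_reflect (m n : ℕ) (f g : R[X]) :
    sylvester (reflect m f) (reflect n g) m n =
      (sylvester f g m n).submatrix Fin.revPerm (colRev m n) := by
  ext i j
  induction j using Fin.addCases with
  | left j =>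
    have h1 : colRev m n (Fin.castAdd n j) = Fin.castAdd n (Fin.rev j) := by
      simp [colRev]
    simp only [sylvester, Matrix.of_apply, Fin.addCases_left, Matrix.submatrix_apply, h1,
      Set.mem_Icc, Fin.revPerm_apply, Fin.val_rev, coeff_reflect]
    have hj := j.2
    have hi := i.2
    by_cases h : (j : ℕ) ≤ i ∧ (i : ℕ) ≤ j + n
    · rw [if_pos h, if_pos (by omega), revAt_le (by omega)]
      congr 1
      omega
    · rw [if_neg h, if_neg (by omega)]
  | right j =>
    have h1 : colRev m n (Fin.natAdd m j) = Fin.natAdd m (Fin.rev j) := by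
      simp [colRev]
    simp only [sylvester, Matrix.of_apply, Fin.addCases_right, Matrix.submatrix_apply, h1,
      Set.mem_Icc, Fin.revPerm_apply, Fin.val_rev, coeff_reflect]
    have hj := j.2
    have hi := i.2
    by_cases h : (j : ℕ) ≤ i ∧ (i : ℕ) ≤ j + m
    · rw [if_pos h, if_pos (by omega), revAt_le (by omega)]
      congr 1
      omega
    · rw [if_neg h, if_neg (by omega)]

theorem resultant_reflect (m n : ℕ) (f g : R[X]) :
    ∃ ε : ℤˣ, resultant (reflect m f) (reflect n g) m n = ((ε : ℤ) : R) * resultant f g m n := by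
  refine ⟨Equiv.Perm.sign (Fin.revPerm : Equiv.Perm (Fin (m+n))) *
    Equiv.Perm.sign (colRev m n), ?_⟩
  rw [resultant, sylvester_reflect]
  have : (sylvester f g m n).submatrix Fin.revPerm (colRev m n) =
      ((sylvester f g m n).submatrix Fin.revPerm id).submatrix id (colRev m n) := by
    simp
  rw [this, Matrix.det_permute', Matrix.det_permute, resultant]
  push_cast
  ring

/-- the local index of a column of the Sylvester matrix -/
def colIdx (m n : ℕ) (j : Fin (m + n)) : ℕ :=
  j.addCases (fun j₁ => (j₁ : ℕ)) (fun j₂ => (j₂ : ℕ))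

theorem sylvester_dilate (m n : ℕ) (f g : R[X]) (r : R) :
    sylvester (f.comp (C r * X)) (g.comp (C r * X)) m n *
      Matrix.diagonal (fun j => r ^ colIdx m n j) =
      Matrix.diagonal (fun i : Fin (m + n) => r ^ (i : ℕ)) * sylvester f g m n := by
  ext i j
  rw [Matrix.mul_diagonal, Matrix.diagonal_mul]
  induction j using Fin.addCases with
  | left j =>
    simp only [sylvester, Matrix.of_apply, Fin.addCases_left, Set.mem_Icc, colIdx,
      comp_C_mul_X_coeff]
    by_cases h : (j : ℕ) ≤ i ∧ (i : ℕ) ≤ j + n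
    · rw [if_pos h, if_pos h, mul_assoc, ← pow_add, Nat.sub_add_cancel h.1, mul_comm]
    · rw [if_neg h, if_neg h]; simp
  | right j =>
    simp only [sylvester, Matrix.of_apply, Fin.addCases_right, Set.mem_Icc, colIdx,
      comp_C_mul_X_coeff]
    by_cases h : (j : ℕ) ≤ i ∧ (i : ℕ) ≤ j + m
    · rw [if_pos h, if_pos h, mul_assoc, ← pow_add, Nat.sub_add_cancel h.1, mul_comm]
    · rw [if_neg h, if_neg h]; simp

/-- dilation law -/
theorem resultant_comp_C_mul_X {F : Type*} [Field F] (m n : ℕ) (f g : F[X]) (r : F) (hr : r ≠ 0) :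
    resultant (f.comp (C r * X)) (g.comp (C r * X)) m n = r ^ (m * n) * resultant f g m n := by
  have h := congrArg Matrix.det (sylvester_dilate m n f g r)
  rw [Matrix.det_mul, Matrix.det_mul, Matrix.det_diagonal, Matrix.det_diagonal,
    Fin.prod_univ_add, Fin.prod_univ_add] at h
  simp only [colIdx, Fin.addCases_left, Fin.addCases_right, Fin.val_castAdd, Fin.val_natAdd,
    pow_add, Finset.prod_mul_distrib, Finset.prod_const, Finset.card_univ, Fintype.card_fin,
    ← pow_mul] at h
  set A := ∏ i : Fin m, r ^ (i : ℕ) with hA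
  set B := ∏ i : Fin n, r ^ (i : ℕ) with hB
  have hA0 : A ≠ 0 := Finset.prod_ne_zero_iff.mpr (fun i _ => pow_ne_zero _ hr)
  have hB0 : B ≠ 0 := Finset.prod_ne_zero_iff.mpr (fun i _ => pow_ne_zero _ hr)
  rw [resultant, resultant]
  apply mul_right_cancel₀ (mul_ne_zero hA0 hB0)
  rw [h]
  ring

/-- translation law, for prescribed sizes -/
theorem resultant_taylor_sizes {F : Type*} [Field F] (m n : ℕ) (f g : F[X]) (r : F)
    (hf : f.natDegree ≤ m) (hg : g.natDegree ≤ n) :
    resultant (taylor r f) (taylor r g) m n = resultant f g m n := by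
  rcases hf.lt_or_eq with h1 | h1
  · rcases hg.lt_or_eq with h2 | h2
    · rw [resultant_eq_zero_of_lt_lt _ _ _ _ h1 h2, resultant_eq_zero_of_lt_lt _ _ _ _
        (by rwa [natDegree_taylor]) (by rwa [natDegree_taylor])]
    · obtain ⟨k, rfl⟩ := Nat.exists_eq_add_of_le hf
      subst h2
      rw [resultant_add_left_deg _ _ _ _ _ le_rfl,
        resultant_add_left_deg _ _ _ _ _ (by rw [natDegree_taylor])]
      have := resultant_taylor f g r
      rw [natDegree_taylor, natDegree_taylor] at this
      rw [this]
      congr 2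
      have h3 : (taylor r g).coeff g.natDegree = g.coeff g.natDegree := by
        have := leadingCoeff_taylor r g
        rwa [leadingCoeff, leadingCoeff, natDegree_taylor] at this
      rw [h3]
  · subst h1
    obtain ⟨k, rfl⟩ := Nat.exists_eq_add_of_le hg
    rw [resultant_add_right_deg _ _ _ _ _ le_rfl,
        resultant_add_right_deg _ _ _ _ _ (by rw [natDegree_taylor])]
    have := resultant_taylor f g r
    rw [natDegree_taylor, natDegree_taylor] at this
    rw [this]
    congr 2
    have h3 : (taylor r f).coeff f.natDegree = f.coeff f.natDegree := by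
      have := leadingCoeff_taylor r f
      rwa [leadingCoeff, leadingCoeff, natDegree_taylor] at this
    rw [h3]

/-- The resultant of the two partial derivatives of the binary form of degree `n` attached to the
polynomial `f`. -/
noncomputable def RR (n : ℕ) (f : R[X]) : R :=
  resultant (derivative f) (C (n : R) * f - X * derivative f) (n - 1) (n - 1)

theorem RR_C_mul (n : ℕ) (c : R) (f : R[X]) :
    RR n (C c * f) = c ^ (2 * (n - 1)) * RR n f := by
  have h : C (n : R) * (C c * f) - X * (C c * derivative f) =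
      C c * (C (n : R) * f - X * derivative f) := by ring
  rw [RR, derivative_C_mul, h, resultant_C_mul_left, resultant_C_mul_right, RR]
  ring

theorem RR_dilate {F : Type*} [Field F] (n : ℕ) (hn : 1 ≤ n) (r : F) (hr : r ≠ 0) (f : F[X]) :
    RR n (f.comp (C r * X)) = r ^ (n * (n - 1)) * RR n f := by
  have h1 : derivative (f.comp (C r * X)) = C r * (derivative f).comp (C r * X) := by
    rw [derivative_comp]; simp
  have h2 : C (n : F) * (f.comp (C r * X)) - X * (C r * (derivative f).comp (C r * X)) =
      (C (n : F) * f - X * derivative f).comp (C r * X) := by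
    simp only [sub_comp, mul_comp, C_comp, X_comp]; ring
  rw [RR, h1, h2, resultant_C_mul_left, resultant_comp_C_mul_X _ _ _ _ _ hr, RR]
  rw [← mul_assoc, ← pow_add]
  congr 2
  obtain ⟨k, rfl⟩ := Nat.exists_eq_add_of_le hn
  simp only [Nat.add_sub_cancel_left]
  ring

theorem natDegree_deriv_le (n : ℕ) (f : R[X]) (hf : f.natDegree ≤ n) :
    (derivative f).natDegree ≤ n - 1 :=
  (natDegree_derivative_le f).trans (Nat.sub_le_sub_right hf 1)

theorem natDegree_second_le (n : ℕ) (hn : 1 ≤ n) (f : R[X]) (hf : f.natDegree ≤ n) :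
    (C (n : R) * f - X * derivative f).natDegree ≤ n - 1 := by
  rw [natDegree_le_iff_coeff_eq_zero]
  intro k hk
  obtain ⟨j, rfl⟩ : ∃ j, k = j + 1 := ⟨k - 1, by omega⟩
  rw [coeff_sub, coeff_C_mul, coeff_X_mul, coeff_derivative]
  rcases (show n ≤ j + 1 by omega).lt_or_eq with h | h
  · rw [coeff_eq_zero_of_natDegree_lt (lt_of_le_of_lt hf h)]; ring
  · subst h; push_cast; ring

theorem RR_taylor {F : Type*} [Field F] (n : ℕ) (hn : 1 ≤ n) (r : F) (f : F[X])
    (hf : f.natDegree ≤ n) : RR n (taylor r f) = RR n f := by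
  have h1 : derivative (taylor r f) = taylor r (derivative f) := by
    simp [taylor_apply, derivative_comp]
  have h2 : C (n : F) * taylor r f - X * taylor r (derivative f) =
      taylor r (C (n : F) * f - X * derivative f) + taylor r (derivative f) * C r := by
    simp only [taylor_apply, sub_comp, mul_comp, C_comp, X_comp]; ring
  rw [RR, h1, h2, resultant_add_mul_right _ _ _ _ _ (by simp)
    (by rw [natDegree_taylor]; exact natDegree_deriv_le n f hf),
    resultant_taylor_sizes _ _ _ _ _ (natDegree_deriv_le n f hf) (natDegree_second_le n hn f hf),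
    RR]

theorem deriv_reflect (n : ℕ) (hn : 1 ≤ n) (f : R[X]) (hf : f.natDegree ≤ n) :
    derivative (reflect n f) = reflect (n - 1) (C (n : R) * f - X * derivative f) := by
  ext i
  rw [coeff_derivative, coeff_reflect, coeff_reflect]
  by_cases hi : i ≤ n - 1
  · rw [revAt_le (by omega), revAt_le hi, coeff_sub, coeff_C_mul]
    rcases Nat.eq_zero_or_pos (n - 1 - i) with h | h
    · rw [h]
      simp only [mul_coeff_zero, coeff_X_zero, zero_mul, sub_zero]
      rw [show n - (i + 1) = 0 by omega, show n = i + 1 by omega]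
      push_cast; ring
    · obtain ⟨j, hj⟩ : ∃ j, n - 1 - i = j + 1 := ⟨n - 1 - i - 1, by omega⟩
      rw [hj, coeff_X_mul, coeff_derivative, show n - (i + 1) = j + 1 by omega,
        show n = i + 1 + (j + 1) by omega]
      push_cast; ring
  · push Not at hi
    rw [revAt_eq_self_of_lt (by omega), revAt_eq_self_of_lt hi]
    rw [coeff_eq_zero_of_natDegree_lt (show f.natDegree < i + 1 by omega),
      coeff_eq_zero_of_natDegree_lt (lt_of_le_of_lt (natDegree_second_le n hn f hf) hi)]
    ring

theorem second_reflect (n : ℕ) (hn : 1 ≤ n) (f : R[X]) (hf : f.natDegree ≤ n) :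
    C (n : R) * reflect n f - X * derivative (reflect n f) = reflect (n - 1) (derivative f) := by
  ext i
  rw [coeff_sub, coeff_C_mul, coeff_reflect, coeff_reflect, coeff_derivative]
  by_cases hi : i ≤ n - 1
  · rw [revAt_le (by omega), revAt_le hi]
    rcases Nat.eq_zero_or_pos i with h | h
    · subst h
      simp only [mul_coeff_zero, coeff_X_zero, zero_mul, sub_zero, Nat.sub_zero]
      have : ((n - 1 : ℕ) : R) + 1 = n := by
        have h := (Nat.cast_add (R := R) (n - 1) 1).symm
        rwa [Nat.cast_one, show n - 1 + 1 = n by omega] at h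
      rw [show n - 1 + 1 = n by omega, this, mul_comm]
    · obtain ⟨j, rfl⟩ : ∃ j, i = j + 1 := ⟨i - 1, by omega⟩
      rw [coeff_X_mul, coeff_derivative, coeff_reflect, revAt_le (by omega),
        show n - 1 - (j + 1) + 1 = n - (j + 1) by omega]
      have h3 : (n : R) = ((n - 1 - (j + 1) : ℕ) : R) + 1 + (j + 1) := by
        have : n = (n - 1 - (j + 1)) + 1 + (j + 1) := by omega
        conv_lhs => rw [this]
        push_cast; ring
      rw [h3]; ring
  · push Not at hi
    obtain ⟨j, rfl⟩ : ∃ j, i = j + 1 := ⟨i - 1, by omega⟩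
    rw [coeff_X_mul, coeff_derivative, coeff_reflect, revAt_eq_self_of_lt hi]
    rw [coeff_eq_zero_of_natDegree_lt (show f.natDegree < j + 1 + 1 by omega)]
    rcases (show n ≤ j + 1 by omega).lt_or_eq with h | h
    · rw [revAt_eq_self_of_lt h, coeff_eq_zero_of_natDegree_lt (show f.natDegree < j + 1 by omega)]
      ring
    · subst h; push_cast; ring

theorem RR_reflect (n : ℕ) (hn : 1 ≤ n) (f : R[X]) (hf : f.natDegree ≤ n) :
    ∃ ε : ℤˣ, RR n (reflect n f) = ((ε : ℤ) : R) * RR n f := by
  rw [RR, second_reflect n hn f hf, deriv_reflect n hn f hf]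
  obtain ⟨ε, hε⟩ := resultant_reflect (n - 1) (n - 1) (C (n : R) * f - X * derivative f)
    (derivative f)
  rw [hε, resultant_comm, RR]
  refine ⟨ε * (-1) ^ ((n - 1) * (n - 1)), ?_⟩
  push_cast
  ring

theorem RR_mem (n : ℕ) (hn : 2 ≤ n) (f : R[X]) (hf : f.natDegree ≤ n) :
    ∃ p q : R, RR n f = p * f.coeff (n - 1) + q * (n * f.coeff n) := by
  obtain ⟨ε, hε⟩ := RR_reflect n (by omega) f hf
  have hrf : (reflect n f).natDegree ≤ n := by
    rw [natDegree_le_iff_coeff_eq_zero]
    intro k hk
    rw [coeff_reflect, revAt_eq_self_of_lt hk, coeff_eq_zero_of_natDegree_lt (by omega)]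
  obtain ⟨p, q, -, -, h⟩ := exists_mul_add_mul_eq_C_resultant
    (m := n - 1) (n := n - 1) (derivative (reflect n f))
    (C (n : R) * reflect n f - X * derivative (reflect n f))
    (natDegree_deriv_le n _ hrf) (natDegree_second_le n (by omega) _ hrf) (by omega)
  have h2 := congrArg (coeff · 0) h
  simp only [coeff_add, mul_coeff_zero, coeff_sub, coeff_X_zero, zero_mul, sub_zero, coeff_C_zero,
    coeff_derivative, coeff_reflect, zero_add, Nat.cast_zero, mul_one] at h2
  rw [revAt_le (by omega), revAt_le (by omega), Nat.sub_zero] at h2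
  have h3 : (((ε : ℤ) : R)) * (((ε : ℤ) : R)) = 1 := by
    rcases Int.units_eq_one_or ε with h | h <;> simp [h]
  have h4 : RR n f = ((ε : ℤ) : R) * RR n (reflect n f) := by
    rw [hε, ← mul_assoc, h3, one_mul]
  refine ⟨((ε : ℤ) : R) * p.coeff 0, ((ε : ℤ) : R) * q.coeff 0, ?_⟩
  rw [h4, RR, ← h2]
  ring

theorem coeff_mul_top1 (p q : R[X]) (P Q : ℕ) (hp : p.natDegree ≤ P + 1) (hq : q.natDegree ≤ Q + 1) :
    (p * q).coeff (P + Q + 1) = p.coeff (P + 1) * q.coeff Q + p.coeff P * q.coeff (Q + 1) := by
  have h := congrArg (coeff · 1) (reflect_mul p q hp hq)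
  simp only [coeff_reflect, mul_coeff_one] at h
  rw [revAt_le (by omega), revAt_le (by omega), revAt_le (by omega), revAt_le (by omega),
    revAt_le (by omega)] at h
  rw [show P + Q + 1 = P + 1 + (Q + 1) - 1 by omega, h]
  simp

theorem coeff_mul_top2 (p q : R[X]) (P Q : ℕ) (hp : p.natDegree ≤ P + 2) (hq : q.natDegree ≤ Q + 2) :
    (p * q).coeff (P + Q + 2) = p.coeff (P + 2) * q.coeff Q + p.coeff (P + 1) * q.coeff (Q + 1) +
      p.coeff P * q.coeff (Q + 2) := by
  have h := congrArg (coeff · 2) (reflect_mul p q hp hq)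
  simp only [coeff_mul] at h
  rw [coeff_reflect, revAt_le (by omega)] at h
  have ha : Finset.HasAntidiagonal.antidiagonal (2 : ℕ) = {((0 : ℕ), (2 : ℕ)), (1, 1), (2, 0)} := by
    decide
  rw [show P + Q + 2 = P + 2 + (Q + 2) - 2 by omega, h, ha]
  rw [Finset.sum_insert (by decide), Finset.sum_insert (by decide), Finset.sum_singleton]
  simp only [coeff_reflect]
  rw [revAt_le (by omega), revAt_le (by omega), revAt_le (by omega), revAt_le (by omega),
    revAt_le (by omega), revAt_le (by omega)]
  simp
  ring

/-- the Hessian of the form of degree `n` attached to `f` (up to a constant factor) -/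
noncomputable def Hess (n : ℕ) (f : R[X]) : R[X] :=
  C (n : R) * (f * derivative (derivative f)) -
    C ((n - 1 : ℕ) : R) * (derivative f * derivative f)

theorem coeff_deriv2 (f : R[X]) (j : ℕ) :
    (derivative (derivative f)).coeff j = f.coeff (j + 2) * (j + 2) * (j + 1) := by
  rw [coeff_derivative, coeff_derivative]
  push_cast; ring

theorem Hess_natDegree (n : ℕ) (hn : 4 ≤ n) (f : R[X]) (hf : f.natDegree ≤ n) :
    (Hess n f).natDegree ≤ 2 * n - 4 := by
  have h1 := natDegree_deriv_le n f hf
  have h2 := natDegree_deriv_le (n - 1) _ h1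
  obtain ⟨k, rfl⟩ := Nat.exists_eq_add_of_le' hn
  rw [natDegree_le_iff_coeff_eq_zero]
  intro j hj
  have hA : (f * derivative (derivative f)).natDegree ≤ 2 * k + 6 :=
    natDegree_mul_le.trans (by omega)
  have hB : (derivative f * derivative f).natDegree ≤ 2 * k + 6 :=
    natDegree_mul_le.trans (by omega)
  rw [Hess, coeff_sub, coeff_C_mul, coeff_C_mul, show k + 4 - 1 = k + 3 by omega]
  rcases Nat.lt_or_ge (2 * k + 6) j with hj2 | hj2
  · rw [coeff_eq_zero_of_natDegree_lt (lt_of_le_of_lt hA hj2),
      coeff_eq_zero_of_natDegree_lt (lt_of_le_of_lt hB hj2)]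
    ring
  · obtain rfl | rfl : j = 2 * k + 6 ∨ j = 2 * k + 5 := by omega
    · have e1 : (f * derivative (derivative f)).coeff (2 * k + 6) =
          f.coeff (k + 4) * (derivative (derivative f)).coeff (k + 2) := by
        rw [show 2 * k + 6 = (k + 4) + (k + 2) by omega]
        exact coeff_mul_add_eq_of_natDegree_le hf (by omega)
      have e2 : (derivative f * derivative f).coeff (2 * k + 6) =
          (derivative f).coeff (k + 3) * (derivative f).coeff (k + 3) := by
        rw [show 2 * k + 6 = (k + 3) + (k + 3) by omega]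
        exact coeff_mul_add_eq_of_natDegree_le (by omega) (by omega)
      rw [e1, e2, coeff_deriv2, coeff_derivative]
      push_cast
      ring
    · have e1 : (f * derivative (derivative f)).coeff (2 * k + 5) =
          f.coeff (k + 4) * (derivative (derivative f)).coeff (k + 1) +
          f.coeff (k + 3) * (derivative (derivative f)).coeff (k + 2) := by
        rw [show 2 * k + 5 = (k + 3) + (k + 1) + 1 by omega]
        exact coeff_mul_top1 f (derivative (derivative f)) (k + 3) (k + 1) hf (by omega)
      have e2 : (derivative f * derivative f).coeff (2 * k + 5) =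
          (derivative f).coeff (k + 3) * (derivative f).coeff (k + 2) +
          (derivative f).coeff (k + 2) * (derivative f).coeff (k + 3) := by
        rw [show 2 * k + 5 = (k + 2) + (k + 2) + 1 by omega]
        exact coeff_mul_top1 _ _ (k + 2) (k + 2) (by omega) (by omega)
      rw [e1, e2]
      simp only [coeff_derivative]
      push_cast
      ring

theorem Hess_coeff (n : ℕ) (hn : 4 ≤ n) (f : R[X]) (hf : f.natDegree ≤ n) :
    (Hess n f).coeff (2 * n - 4) = 2 * n * f.coeff n * f.coeff (n - 2) -
      ((n - 1 : ℕ) : R) * f.coeff (n - 1) ^ 2 := by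
  have h1 := natDegree_deriv_le n f hf
  have h2 := natDegree_deriv_le (n - 1) _ h1
  obtain ⟨k, rfl⟩ := Nat.exists_eq_add_of_le' hn
  rw [Hess, coeff_sub, coeff_C_mul, coeff_C_mul, show 2 * (k + 4) - 4 = 2 * k + 4 by omega,
    show k + 4 - 2 = k + 2 by omega, show k + 4 - 1 = k + 3 by omega]
  have e1 : (f * derivative (derivative f)).coeff (2 * k + 4) =
      f.coeff (k + 4) * (derivative (derivative f)).coeff k +
      f.coeff (k + 3) * (derivative (derivative f)).coeff (k + 1) +
      f.coeff (k + 2) * (derivative (derivative f)).coeff (k + 2) := by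
    rw [show 2 * k + 4 = (k + 2) + k + 2 by omega]
    exact coeff_mul_top2 f (derivative (derivative f)) (k + 2) k hf (by omega)
  have e2 : (derivative f * derivative f).coeff (2 * k + 4) =
      (derivative f).coeff (k + 3) * (derivative f).coeff (k + 1) +
      (derivative f).coeff (k + 2) * (derivative f).coeff (k + 2) +
      (derivative f).coeff (k + 1) * (derivative f).coeff (k + 3) := by
    rw [show 2 * k + 4 = (k + 1) + (k + 1) + 2 by omega]
    exact coeff_mul_top2 _ _ (k + 1) (k + 1) (by omega) (by omega)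
  rw [e1, e2]
  simp only [coeff_derivative]
  push_cast
  ring

theorem Hess_affine (n : ℕ) (c ρ α : R) (φ : R[X]) :
    Hess n (C c * φ.comp (C ρ * X + C α)) =
      C (c ^ 2 * ρ ^ 2) * (Hess n φ).comp (C ρ * X + C α) := by
  have h1 : derivative (C c * φ.comp (C ρ * X + C α)) =
      C c * C ρ * (derivative φ).comp (C ρ * X + C α) := by
    rw [derivative_C_mul, derivative_comp]; simp; ring
  have h2 : derivative (C c * C ρ * (derivative φ).comp (C ρ * X + C α)) =
      C c * C ρ * C ρ * (derivative (derivative φ)).comp (C ρ * X + C α) := by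
    rw [← C_mul, derivative_C_mul, derivative_comp]; simp; ring
  simp only [Hess, h1, h2, sub_comp, mul_comp, C_comp, C_mul, C_pow]
  ring

end Res

section discr
variable {F : Type*} [Field F] [CharZero F]

theorem RR_eq_discr_of_natDegree_eq (n : ℕ) (hn : 2 ≤ n) (f : F[X]) (hf : f.natDegree = n) :
    ∃ ε : ℤˣ, RR n f = ((ε : ℤ) : F) * ((n : F) ^ (n - 2) * f.discr) := by
  have hlc : f.leadingCoeff ≠ 0 := by
    rw [leadingCoeff_ne_zero]; rintro rfl; simp at hf; omega
  have hn0 : (n : F) ≠ 0 := by exact_mod_cast (show n ≠ 0 by omega)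
  have h1 := resultant_deriv (f := f) (by
    rw [← natDegree_pos_iff_degree_pos]; omega)
  rw [hf] at h1
  -- Res_{n-1,n}(f', n f)
  have h2 : resultant (derivative f) (C (n : F) * f) (n - 1) n =
      (n : F) ^ (n - 1) * resultant (derivative f) f (n - 1) n := resultant_C_mul_right _ _ _ _ _
  have h3 : resultant (derivative f) (C (n : F) * f - X * derivative f) (n - 1) n =
      resultant (derivative f) (C (n : F) * f) (n - 1) n := by
    have := resultant_add_mul_right (derivative f) (C (n : F) * f) (-X) (n - 1) n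
      (by rw [natDegree_neg, natDegree_X]; omega) (natDegree_deriv_le n f hf.le)
    rw [← this]; congr 1; ring
  have h4 : resultant (derivative f) (C (n : F) * f - X * derivative f) (n - 1) ((n - 1) + 1) =
      (derivative f).coeff (n - 1) ^ 1 *
        resultant (derivative f) (C (n : F) * f - X * derivative f) (n - 1) (n - 1) :=
    resultant_add_right_deg _ _ _ _ _ (natDegree_second_le n (by omega) f hf.le)
  rw [show (n - 1) + 1 = n by omega, h3, h2, resultant_comm, h1, coeff_derivative,
    show (n - 1) + 1 = n by omega] at h4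
  have h5 : ((n - 1 : ℕ) : F) + 1 = n := by
    have h := (Nat.cast_add (R := F) (n - 1) 1).symm
    rwa [Nat.cast_one, show n - 1 + 1 = n by omega] at h
  rw [h5, pow_one, ← RR] at h4
  have h6 : f.coeff n = f.leadingCoeff := by rw [leadingCoeff, hf]
  rw [h6] at h4
  refine ⟨(-1) ^ ((n - 1) * n) * (-1) ^ (n * (n - 1) / 2), ?_⟩
  apply mul_left_cancel₀ (mul_ne_zero hlc hn0)
  rw [← h4]
  obtain ⟨k, rfl⟩ := Nat.exists_eq_add_of_le hn
  simp only [Nat.add_sub_cancel_left, show 2 + k - 1 = k + 1 by omega]
  push_cast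
  ring

omit [CharZero F] in
theorem RR_eq_discr_of_natDegree_eq_pred (n : ℕ) (hn : 3 ≤ n) (f : F[X])
    (hf : f.natDegree = n - 1) :
    ∃ ε : ℤˣ, RR n f = ((ε : ℤ) : F) * ((n : F) ^ (n - 2) * (f.leadingCoeff ^ 2 * f.discr)) := by
  have h1 := resultant_deriv (f := f) (by
    rw [← natDegree_pos_iff_degree_pos]; omega)
  rw [hf] at h1
  have hd : (derivative f).natDegree ≤ n - 2 := by
    have := natDegree_deriv_le (n - 1) f hf.le
    omega
  have hs := natDegree_second_le n (by omega) f (by omega)
  have h4 : resultant (derivative f) (C (n : F) * f - X * derivative f) ((n - 2) + 1) (n - 1) =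
      (-1) ^ ((n - 1) * 1) * (C (n : F) * f - X * derivative f).coeff (n - 1) ^ 1 *
        resultant (derivative f) (C (n : F) * f - X * derivative f) (n - 2) (n - 1) :=
    resultant_add_left_deg _ _ _ _ _ hd
  have h3 : resultant (derivative f) (C (n : F) * f - X * derivative f) (n - 2) (n - 1) =
      resultant (derivative f) (C (n : F) * f) (n - 2) (n - 1) := by
    have := resultant_add_mul_right (derivative f) (C (n : F) * f) (-X) (n - 2) (n - 1)
      (by rw [natDegree_neg, natDegree_X]; omega) hd
    rw [← this]; congr 1; ring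
  have h2 : resultant (derivative f) (C (n : F) * f) (n - 2) (n - 1) =
      (n : F) ^ (n - 2) * resultant (derivative f) f (n - 2) (n - 1) :=
    resultant_C_mul_right _ _ _ _ _
  have h6 : f.coeff (n - 1) = f.leadingCoeff := by rw [leadingCoeff, hf]
  have h7 : (C (n : F) * f - X * derivative f).coeff (n - 1) = f.leadingCoeff := by
    rw [coeff_sub, coeff_C_mul, show n - 1 = (n - 2) + 1 by omega, coeff_X_mul, coeff_derivative,
      show (n - 2) + 1 = n - 1 by omega, h6]
    have : (n : F) = ((n - 2 : ℕ) : F) + 1 + 1 := by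
      have : n = (n - 2) + 1 + 1 := by omega
      conv_lhs => rw [this]
      push_cast; ring
    rw [this]; ring
  rw [show (n - 2) + 1 = n - 1 by omega, h7, h3, h2, resultant_comm (derivative f) f,
    show n - 2 = n - 1 - 1 by omega, h1, ← RR] at h4
  refine ⟨(-1) ^ ((n - 1) * 1) * (-1) ^ ((n - 1 - 1) * (n - 1)) *
    (-1) ^ ((n - 1) * (n - 1 - 1) / 2), ?_⟩
  rw [h4, show n - 2 = n - 1 - 1 by omega]
  push_cast
  ring

end discr

end Pool.Agent.Lib.MP_ca2859_nt
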