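import Mathlib
import Pool.Agent.Lib.MP_ca2859_nt.Defs
import Pool.Agent.Lib.MP_ca2859_nt.Res

open Polynomial WithZero

namespace Pool.Agent.Lib.MP_ca2859_nt

section basics
variable {L : Type*} [Field L] (w : Valuation L ℤᵐ⁰)

/-- all coefficients of `p` have valuation at most `B` -/
def CB (B : ℤᵐ⁰) (p : L[X]) : Prop := ∀ i, w (p.coeff i) ≤ B

variable {w}

theorem CB.mul {B B' : ℤᵐ⁰} {p q : L[X]} (hp : CB w B p) (hq : CB w B' q) :
    CB w (B * B') (p * q) := by
  intro i
  rw [coeff_mul]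
  apply Valuation.map_sum_le
  intro x _
  rw [map_mul]
  exact mul_le_mul' (hp _) (hq _)

theorem CB.add {B : ℤᵐ⁰} {p q : L[X]} (hp : CB w B p) (hq : CB w B q) :
    CB w B (p + q) := by
  intro i
  rw [coeff_add]
  exact Valuation.map_add_le _ (hp _) (hq _)

theorem CB.sub {B : ℤᵐ⁰} {p q : L[X]} (hp : CB w B p) (hq : CB w B q) :
    CB w B (p - q) := by
  intro i
  rw [coeff_sub]
  exact Valuation.map_sub_le _ (hp _) (hq _)

theorem CB.mono {B B' : ℤᵐ⁰} (h : B ≤ B') {p : L[X]} (hp : CB w B p) : CB w B' p :=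
  fun i => (hp i).trans h

theorem CB_one : CB w 1 (1 : L[X]) := by
  intro i
  rw [coeff_one]
  split_ifs <;> simp

theorem CB.pow {B : ℤᵐ⁰} {p : L[X]} (hp : CB w B p) (k : ℕ) : CB w (B ^ k) (p ^ k) := by
  induction k with
  | zero => simpa using CB_one
  | succ k ih => rw [pow_succ, pow_succ]; exact ih.mul hp

theorem CB_C {B : ℤᵐ⁰} {c : L} (hc : w c ≤ B) : CB w B (C c) := by
  intro i
  rw [coeff_C]
  split_ifs
  · exact hc
  · simp

theorem CB_X : CB w 1 (X : L[X]) := by
  intro i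
  rw [coeff_X]
  split_ifs <;> simp

theorem CB.sum {ι : Type*} {B : ℤᵐ⁰} (s : Finset ι) (p : ι → L[X])
    (hp : ∀ i ∈ s, CB w B (p i)) : CB w B (∑ i ∈ s, p i) := by
  intro i
  rw [finsetSum_coeff]
  apply Valuation.map_sum_le
  intro j hj
  exact hp j hj i

theorem CB.reflect {B : ℤᵐ⁰} {p : L[X]} (hp : CB w B p) (n : ℕ) : CB w B (p.reflect n) := by
  intro i
  rw [coeff_reflect]
  exact hp _

theorem CB_linear {B : ℤᵐ⁰} {u t : L} (hu : w u ≤ B) (ht : w t ≤ B) :
    CB w B (C u * X + C t) := by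
  have := (CB_C hu).mul (CB_X (w := w))
  rw [mul_one] at this
  exact this.add (CB_C ht)

theorem CB.comp {M : ℤᵐ⁰} (hM : 1 ≤ M) {p q : L[X]} (hp : CB w 1 p) (hq : CB w M q) (n : ℕ)
    (hn : p.natDegree ≤ n) : CB w (M ^ n) (p.comp q) := by
  rw [comp_eq_sum_left, Polynomial.sum_over_range' _ (by simp) (n + 1) (by omega)]
  apply CB.sum
  intro i hi
  have h1 := (CB_C (hp i)).mul (hq.pow i)
  rw [one_mul] at h1
  exact h1.mono (pow_le_pow_right₀ hM (by simpa [Nat.lt_succ_iff] using hi))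

theorem CB.taylor {p : L[X]} (hp : CB w 1 p) {r : L} (hr : w r ≤ 1) : CB w 1 (taylor r p) := by
  rw [taylor_apply]
  have h := CB.comp (w := w) le_rfl hp (q := X + C r) (CB_X.add (CB_C hr)) p.natDegree le_rfl
  rwa [one_pow] at h

theorem natCast_le_one (w : Valuation L ℤᵐ⁰) (n : ℕ) : w (n : L) ≤ 1 := by
  induction n with
  | zero => simp
  | succ n ih => push_cast; exact Valuation.map_add_le _ ih (by simp)

theorem CB.derivative {p : L[X]} (hp : CB w 1 p) : CB w 1 (derivative p) := by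
  intro i
  rw [coeff_derivative, map_mul]
  refine mul_le_one' (hp _) ?_
  have : ((i : L) + 1) = ((i + 1 : ℕ) : L) := by push_cast; ring
  rw [this]
  exact natCast_le_one w _

theorem RR_map {R S : Type*} [CommRing R] [CommRing S] (φ : R →+* S) (n : ℕ) (f : R[X]) :
    RR n (f.map φ) = φ (RR n f) := by
  have h : C ((n : ℕ) : S) * f.map φ - X * (derivative f).map φ =
      (C (n : R) * f - X * derivative f).map φ := by simp
  rw [RR, RR, derivative_map, h, resultant_map_map]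

theorem RR_le_max {n : ℕ} (hn : 2 ≤ n) {H : L[X]} (hH : CB w 1 H) (hd : H.natDegree ≤ n) :
    w (RR n H) ≤ w (H.coeff (n - 1)) ∨ w (RR n H) ≤ w ((n : L) * H.coeff n) := by
  have hsub : (↑H.coeffs : Set L) ⊆ w.integer := by
    intro x hx
    simp only [SetLike.mem_coe, Polynomial.mem_coeffs_iff] at hx
    obtain ⟨i, -, rfl⟩ := hx
    exact hH i
  obtain ⟨p, q, hpq⟩ := RR_mem n hn (H.toSubring w.integer hsub)
    (by rw [natDegree_toSubring]; exact hd)
  have h1 : RR n H = (p : L) * H.coeff (n - 1) + (q : L) * ((n : L) * H.coeff n) := by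
    have h2 := congrArg (Subring.subtype w.integer) hpq
    rw [← RR_map, map_toSubring] at h2
    simpa using h2
  have hp : w (p : L) ≤ 1 := p.2
  have hq : w (q : L) ≤ 1 := q.2
  rw [h1]
  rcases le_total (w (H.coeff (n - 1))) (w ((n : L) * H.coeff n)) with h | h
  · right
    refine Valuation.map_add_le _ ?_ ?_
    · rw [map_mul]
      exact (mul_le_of_le_one_left' hp).trans h
    · rw [map_mul]
      exact mul_le_of_le_one_left' hq
  · left
    refine Valuation.map_add_le _ ?_ ?_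
    · rw [map_mul]
      exact mul_le_of_le_one_left' hp
    · rw [map_mul]
      exact (mul_le_of_le_one_left' hq).trans h

theorem coeff_taylor_top (φ : L[X]) (m : ℕ) (hφ : φ.natDegree ≤ m) (α : L) :
    (Polynomial.taylor α φ).coeff m = φ.coeff m := by
  rw [taylor_coeff]
  have hd : (hasseDeriv m φ).natDegree < 1 := by
    have := natDegree_hasseDeriv_le φ m
    omega
  rw [eval_eq_sum_range' hd, Finset.sum_range_one, hasseDeriv_coeff]
  simp

theorem coeff_taylor_pred (φ : L[X]) (m : ℕ) (hm : 1 ≤ m) (hφ : φ.natDegree ≤ m) (α : L) :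
    (Polynomial.taylor α φ).coeff (m - 1) = φ.coeff (m - 1) + m * α * φ.coeff m := by
  rw [taylor_coeff]
  have hd : (hasseDeriv (m - 1) φ).natDegree < 2 := by
    have := natDegree_hasseDeriv_le φ (m - 1)
    omega
  rw [eval_eq_sum_range' hd, Finset.sum_range_succ, Finset.sum_range_one, hasseDeriv_coeff,
    hasseDeriv_coeff]
  have h1 : 1 + (m - 1) = m := by omega
  have h2 : m.choose (m - 1) = m := by
    rw [← Nat.choose_symm_of_eq_add (show m = 1 + (m - 1) by omega), Nat.choose_one_right]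
  rw [h1, h2]
  simp
  ring

theorem comp_affine (φ : L[X]) (ρ α : L) :
    φ.comp (C ρ * X + C α) = (Polynomial.taylor α φ).comp (C ρ * X) := by
  rw [taylor_apply, comp_assoc]
  simp

end basics

section iwasawa
variable {L : Type*} [Field L] {w : Valuation L ℤᵐ⁰}

theorem eval_reflect (N : ℕ) (f : L[X]) (hf : f.natDegree ≤ N) (x : L) (hx : x ≠ 0) :
    (reflect N f).eval x = x ^ N * f.eval x⁻¹ := by
  let : Invertible x⁻¹ := invertibleOfNonzero (inv_ne_zero hx)
  have h := eval₂_reflect_mul_pow (RingHom.id L) x⁻¹ N f hf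
  rw [← eval, ← eval, invOf_eq_inv, inv_inv] at h
  rw [← h, mul_comm, mul_assoc, ← mul_pow, inv_mul_cancel₀ hx, one_pow, mul_one]

theorem natDegree_reflect_le' (n : ℕ) (f : L[X]) (hf : f.natDegree ≤ n) :
    (reflect n f).natDegree ≤ n := by
  rw [natDegree_le_iff_coeff_eq_zero]
  intro k hk
  rw [coeff_reflect, revAt_eq_self_of_lt hk, coeff_eq_zero_of_natDegree_lt (by omega)]

theorem exists_affine_sq [CharZero L] (g : ℕ) (f h : L[X]) (hh : h.natDegree ≤ 2 * g + 2)
    (hsame : SameCurve g f h) (hint : CB w 1 (C 4 * h)) :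
    ∃ (c α ρ : L) (H : L[X]), c ≠ 0 ∧ ρ ≠ 0 ∧ H = C c * f.comp (C ρ * X + C α) ∧ CB w 1 H ∧
      (∃ ε : ℤˣ, RR (2 * g + 2) H = ((ε : ℤ) : L) * RR (2 * g + 2) (C 4 * h)) ∧
      ∃ c₁ : L, c = c₁ ^ 2 := by
  obtain ⟨a, b, c₀, d₀, e, hdet, he, hev⟩ := hsame
  set n := 2 * g + 2 with hn
  set H₀ := C 4 * h with hH₀
  have hH₀d : H₀.natDegree ≤ n := (natDegree_C_mul_le _ _).trans hh
  have h40 : (4 : L) ≠ 0 := by norm_num
  rcases le_or_gt (w c₀) (w d₀) with hcd | hcd
  · have hd0 : d₀ ≠ 0 := by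
      rintro rfl
      rw [map_zero] at hcd
      have : c₀ = 0 := (map_eq_zero w).mp (le_antisymm hcd zero_le)
      rw [this] at hdet
      simp at hdet
    set τ := c₀ / d₀ with hτ
    have hτ1 : w τ ≤ 1 := by
      rw [hτ, map_div₀]
      exact div_le_one_of_le₀ hcd zero_le
    have hτ1' : w (-τ) ≤ 1 := by rwa [Valuation.map_neg]
    have hr1 := natDegree_reflect_le' n H₀ hH₀d
    have hr2 : (Polynomial.taylor (-τ) (reflect n H₀)).natDegree ≤ n := by
      rwa [natDegree_taylor]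
    refine ⟨4 * e ^ 2 * d₀ ^ n, b / d₀, (a - b * τ) / d₀,
      reflect n (Polynomial.taylor (-τ) (reflect n H₀)), ?_, ?_, ?_, ?_, ?_,
      ⟨2 * e * d₀ ^ (g + 1), by rw [hn]; ring⟩⟩
    · exact mul_ne_zero (mul_ne_zero h40 (pow_ne_zero _ he)) (pow_ne_zero _ hd0)
    · refine div_ne_zero ?_ hd0
      rw [hτ]
      intro h0
      apply hdet
      field_simp at h0
      linear_combination h0
    · apply eq_of_infinite_eval_eq
      have hfin : ({0} ∪ {x : L | 1 - τ * x = 0} : Set L).Finite := by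
        refine (Set.finite_singleton _).union ?_
        rcases eq_or_ne τ 0 with h0 | h0
        · simp [h0]
        · refine (Set.finite_singleton (τ⁻¹)).subset ?_
          intro x hx
          simp only [Set.mem_ofPred_eq] at hx
          rw [Set.mem_singleton_iff]
          field_simp
          linear_combination -hx
      refine (Set.Finite.infinite_compl hfin).mono ?_
      intro x hx
      simp only [Set.mem_compl_iff, Set.mem_union, Set.mem_singleton_iff, Set.mem_ofPred_eq,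
        not_or] at hx
      obtain ⟨hx0, hx1⟩ := hx
      simp only [Set.mem_ofPred_eq]
      obtain ⟨z, hz⟩ : ∃ z, z = 1 - τ * x := ⟨_, rfl⟩
      rw [← hz] at hx1
      have hc₀ : c₀ = τ * d₀ := by rw [hτ]; field_simp
      have h0 : x⁻¹ + -τ = z / x := by
        rw [hz]; field_simp; ring
      have hy : x⁻¹ + -τ ≠ 0 := by rw [h0]; exact div_ne_zero hx1 hx0
      have h1 : c₀ * (x / z) + d₀ = d₀ / z := by
        field_simp
        rw [hz, hc₀]; ring
      have hc : c₀ * (x / z) + d₀ ≠ 0 := by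
        rw [h1]
        exact div_ne_zero hd0 hx1
      rw [eval_reflect n _ hr2 x hx0, taylor_eval, eval_reflect n _ hH₀d _ (by
        simpa [add_comm] using hy)]
      have hyy : (x⁻¹ + -τ)⁻¹ = x / z := by
        rw [h0, inv_div]
      rw [hyy, hH₀, eval_mul, eval_C, hev _ hc, eval_mul, eval_C, eval_comp]
      simp only [eval_add, eval_mul, eval_C, eval_X]
      have h2 : (a * (x / z) + b) / (d₀ / z) =
          (a - b * τ) / d₀ * x + b / d₀ := by
        field_simp
        rw [hz]; ring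
      rw [h1, h2]
      have h3 : x ^ n * (x⁻¹ + -τ) ^ n * (d₀ / z) ^ n = d₀ ^ n := by
        rw [← mul_pow, ← mul_pow, h0]
        congr 1
        field_simp
      calc x ^ n * ((x⁻¹ + -τ) ^ n * (4 * (e ^ 2 * (d₀ / z) ^ n *
            eval ((a - b * τ) / d₀ * x + b / d₀) f)))
          = 4 * e ^ 2 * (x ^ n * (x⁻¹ + -τ) ^ n * (d₀ / z) ^ n) *
            eval ((a - b * τ) / d₀ * x + b / d₀) f := by ring
        _ = _ := by rw [h3]
    · exact ((hint.reflect n).taylor hτ1').reflect n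
    · obtain ⟨ε₁, h₁⟩ := RR_reflect n (by omega) H₀ hH₀d
      obtain ⟨ε₂, h₂⟩ := RR_reflect n (by omega) _ hr2
      refine ⟨ε₂ * ε₁, ?_⟩
      rw [h₂, RR_taylor n (by omega) _ _ hr1, h₁]
      push_cast
      ring
  · have hc0 : c₀ ≠ 0 := by
      rintro rfl
      rw [map_zero] at hcd
      exact absurd hcd (not_lt.mpr zero_le)
    have hτ1 : w (-(d₀ / c₀)) ≤ 1 := by
      rw [Valuation.map_neg, map_div₀]
      exact div_le_one_of_le₀ hcd.le zero_le
    have hr2 : (Polynomial.taylor (-(d₀ / c₀)) H₀).natDegree ≤ n := by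
      rwa [natDegree_taylor]
    refine ⟨4 * e ^ 2 * c₀ ^ n, a / c₀, (b - a * (d₀ / c₀)) / c₀,
      reflect n (Polynomial.taylor (-(d₀ / c₀)) H₀), ?_, ?_, ?_, ?_, ?_,
      ⟨2 * e * c₀ ^ (g + 1), by rw [hn]; ring⟩⟩
    · exact mul_ne_zero (mul_ne_zero h40 (pow_ne_zero _ he)) (pow_ne_zero _ hc0)
    · refine div_ne_zero ?_ hc0
      intro h0
      apply hdet
      field_simp at h0
      linear_combination -h0
    · apply eq_of_infinite_eval_eq
      refine (Set.Finite.infinite_compl (Set.finite_singleton (0 : L))).mono ?_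
      intro x hx
      simp only [Set.mem_compl_iff, Set.mem_singleton_iff] at hx
      simp only [Set.mem_ofPred_eq]
      have h1 : c₀ * (x⁻¹ + -(d₀ / c₀)) + d₀ = c₀ / x := by
        field_simp
        ring
      have hc : c₀ * (x⁻¹ + -(d₀ / c₀)) + d₀ ≠ 0 := by
        rw [h1]; exact div_ne_zero hc0 hx
      rw [eval_reflect n _ hr2 x hx, taylor_eval, hH₀, eval_mul, eval_C, hev _ hc, eval_mul,
        eval_C, eval_comp, h1]
      simp only [eval_add, eval_mul, eval_C, eval_X]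
      have h2 : (a * (x⁻¹ + -(d₀ / c₀)) + b) / (c₀ / x) =
          (b - a * (d₀ / c₀)) / c₀ * x + a / c₀ := by
        field_simp
        ring
      rw [h2]
      have h3 : x ^ n * (c₀ / x) ^ n = c₀ ^ n := by
        rw [← mul_pow]
        congr 1
        field_simp
      calc x ^ n * (4 * (e ^ 2 * (c₀ / x) ^ n *
            eval ((b - a * (d₀ / c₀)) / c₀ * x + a / c₀) f))
          = 4 * e ^ 2 * (x ^ n * (c₀ / x) ^ n) *
            eval ((b - a * (d₀ / c₀)) / c₀ * x + a / c₀) f := by ring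
        _ = _ := by rw [h3]
    · exact (hint.taylor hτ1).reflect n
    · obtain ⟨ε₂, h₂⟩ := RR_reflect n (by omega) _ hr2
      refine ⟨ε₂, ?_⟩
      rw [h₂, RR_taylor n (by omega) _ _ hH₀d]

theorem exists_affine [CharZero L] (g : ℕ) (f h : L[X]) (hh : h.natDegree ≤ 2 * g + 2)
    (hsame : SameCurve g f h) (hint : CB w 1 (C 4 * h)) :
    ∃ (c α ρ : L) (H : L[X]), c ≠ 0 ∧ ρ ≠ 0 ∧ H = C c * f.comp (C ρ * X + C α) ∧ CB w 1 H ∧
      ∃ ε : ℤˣ, RR (2 * g + 2) H = ((ε : ℤ) : L) * RR (2 * g + 2) (C 4 * h) := by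
  obtain ⟨c, α, ρ, H, h1, h2, h3, h4, h5, -⟩ := exists_affine_sq g f h hh hsame hint
  exact ⟨c, α, ρ, H, h1, h2, h3, h4, h5⟩

end iwasawa

section ext
variable {K L : Type*} [Field K] [Field L] [Algebra K L] {w : Valuation L ℤᵐ⁰}

theorem mean_root (φ : K[X]) (m : ℕ) (hm : 1 ≤ m) (hφ : φ.natDegree ≤ m) (c α ρ : L) (hρ : ρ ≠ 0)
    (Φ : L[X]) (hΦ : Φ = C c * (φ.map (algebraMap K L)).comp (C ρ * X + C α))
    (hint : w (Φ.coeff (m - 1)) ≤ 1) (hne : (m : L) * Φ.coeff m ≠ 0) :
    ∃ a : K, w ((algebraMap K L a - α) / ρ) * w ((m : L) * Φ.coeff m) ≤ 1 := by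
  have hdeg : (φ.map (algebraMap K L)).natDegree ≤ m := by rwa [natDegree_map]
  have h1 : Φ.coeff m = c * ρ ^ m * algebraMap K L (φ.coeff m) := by
    rw [hΦ, coeff_C_mul, comp_affine, comp_C_mul_X_coeff, coeff_taylor_top _ _ hdeg, coeff_map]
    ring
  have h2 : Φ.coeff (m - 1) = c * ρ ^ (m - 1) *
      (algebraMap K L (φ.coeff (m - 1)) + m * α * algebraMap K L (φ.coeff m)) := by
    rw [hΦ, coeff_C_mul, comp_affine, comp_C_mul_X_coeff, coeff_taylor_pred _ _ hm hdeg,
      coeff_map, coeff_map]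
    ring
  have hm0 : (m : L) ≠ 0 := left_ne_zero_of_mul hne
  have hΦ0 : Φ.coeff m ≠ 0 := right_ne_zero_of_mul hne
  have hφ0 : algebraMap K L (φ.coeff m) ≠ 0 := by
    intro h; rw [h1, h] at hΦ0; simp at hΦ0
  have hmK : (algebraMap K L (m : K)) = (m : L) := map_natCast _ _
  refine ⟨-(φ.coeff (m - 1)) / (m * φ.coeff m), ?_⟩
  rw [← map_mul]
  have h3 : (algebraMap K L (-(φ.coeff (m - 1)) / (m * φ.coeff m)) - α) / ρ *
      ((m : L) * Φ.coeff m) = - Φ.coeff (m - 1) := by
    rw [h1, h2, map_div₀, map_mul, map_neg, hmK]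
    obtain ⟨k, rfl⟩ := Nat.exists_eq_add_of_le' hm
    rw [Nat.add_sub_cancel, pow_succ]
    field_simp
    ring
  rw [h3, Valuation.map_neg]
  exact hint

theorem Hess_map {R S : Type*} [CommRing R] [CommRing S] (φ : R →+* S) (n : ℕ) (f : R[X]) :
    (Hess n f).map φ = Hess n (f.map φ) := by
  simp [Hess, derivative_map]

theorem CB_Hess (n : ℕ) {H : L[X]} (hint : CB w 1 H) : CB w 1 (Hess n H) := by
  have h1 := hint.derivative
  have h2 := h1.derivative
  have h3 := (CB_C (natCast_le_one w n)).mul (hint.mul h2)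
  have h4 := (CB_C (natCast_le_one w (n - 1))).mul (h1.mul h1)
  rw [mul_one, mul_one] at h3 h4
  exact h3.sub h4

theorem exists_center [CharZero L] (n : ℕ) (hn : 4 ≤ n) (f : K[X]) (hf : f.natDegree ≤ n) (c α ρ : L)
    (hρ : ρ ≠ 0) (H : L[X]) (hH : H = C c * (f.map (algebraMap K L)).comp (C ρ * X + C α))
    (hint : CB w 1 H) (hRR : RR n H ≠ 0) :
    ∃ a : K, w ((algebraMap K L a - α) / ρ) *
      (w (RR n H) ^ 2 * w (((4 * (n - 1) * (n - 2) : ℕ) : L))) ≤ 1 := by
  have hHd : H.natDegree ≤ n := by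
    rw [hH]
    refine (natDegree_C_mul_le _ _).trans (natDegree_comp_le.trans ?_)
    rw [natDegree_map]
    calc f.natDegree * (C ρ * X + C α).natDegree ≤ n * 1 :=
          Nat.mul_le_mul hf (natDegree_linear_le)
      _ = n := mul_one n
  set η := w (RR n H) with hη
  have hη0 : 0 < η := by
    rw [hη]; exact (Valuation.pos_iff w).mpr hRR
  have hmax := RR_le_max (by omega : 2 ≤ n) hint hHd
  rw [← hη] at hmax
  have hη1 : η ≤ 1 := by
    rcases hmax with h | h
    · exact h.trans (hint _)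
    · refine h.trans ?_
      rw [map_mul]; exact mul_le_one' (natCast_le_one w n) (hint _)
  have hη2 : η ^ 2 ≤ η := by
    rw [pow_two]; exact mul_le_of_le_one_left' hη1
  have hw4 : w (((4 * (n - 1) * (n - 2) : ℕ) : L)) =
      w ((2 : ℕ) : L) * w ((2 : ℕ) : L) * w ((n - 1 : ℕ) : L) * w ((n - 2 : ℕ) : L) := by
    rw [← map_mul, ← map_mul, ← map_mul]
    congr 1
    push_cast
    ring
  have l2 := natCast_le_one w 2
  have ln1 := natCast_le_one w (n - 1)
  have ln2 := natCast_le_one w (n - 2)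
  have hβ0 : 0 < η ^ 2 * w (((4 * (n - 1) * (n - 2) : ℕ) : L)) := by
    refine mul_pos (pow_pos hη0 2) ((Valuation.pos_iff w).mpr ?_)
    rw [Nat.cast_ne_zero]
    have h1 : n - 1 ≠ 0 := by omega
    have h2 : n - 2 ≠ 0 := by omega
    positivity
  by_cases hcase : w (((n - 1 : ℕ) : L) * H.coeff (n - 1) ^ 2) ≤ w (2 * (n : L) * H.coeff n)
  · -- case (i)
    have hkey : η ^ 2 * w (((4 * (n - 1) * (n - 2) : ℕ) : L)) ≤ w ((n : L) * H.coeff n) := by
      rw [hw4]
      rcases hmax with h | h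
      · have h1 : w ((n - 1 : ℕ) : L) * η ^ 2 ≤ w ((n : L) * H.coeff n) := by
          calc w ((n - 1 : ℕ) : L) * η ^ 2 ≤ w ((n - 1 : ℕ) : L) * w (H.coeff (n - 1)) ^ 2 :=
                mul_le_mul_right (pow_le_pow_left' h 2) _
            _ = w (((n - 1 : ℕ) : L) * H.coeff (n - 1) ^ 2) := by rw [map_mul, map_pow]
            _ ≤ w (2 * (n : L) * H.coeff n) := hcase
            _ = w ((2 : ℕ) : L) * w ((n : L) * H.coeff n) := by
                rw [← map_mul]; congr 1; push_cast; ring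
            _ ≤ w ((n : L) * H.coeff n) := mul_le_of_le_one_left' l2
        refine le_trans ?_ h1
        calc η ^ 2 * (w ((2 : ℕ) : L) * w ((2 : ℕ) : L) * w ((n - 1 : ℕ) : L) * w ((n - 2 : ℕ) : L))
            = (w ((2 : ℕ) : L) * w ((2 : ℕ) : L) * w ((n - 2 : ℕ) : L)) *
              (w ((n - 1 : ℕ) : L) * η ^ 2) := by
              simp only [mul_comm, mul_left_comm, mul_assoc]
          _ ≤ w ((n - 1 : ℕ) : L) * η ^ 2 :=
              mul_le_of_le_one_left' (mul_le_one' (mul_le_one' l2 l2) ln2)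
      · refine le_trans (mul_le_of_le_one_right' ?_) (hη2.trans h)
        exact mul_le_one' (mul_le_one' (mul_le_one' l2 l2) ln1) ln2
    have hne : (n : L) * H.coeff n ≠ 0 := by
      intro h0
      rw [h0, map_zero] at hkey
      exact absurd hβ0 (not_lt.mpr hkey)
    obtain ⟨a, ha⟩ := mean_root (w := w) f n (by omega) hf c α ρ hρ H hH (hint _) hne
    exact ⟨a, (mul_le_mul_right hkey _).trans ha⟩
  · -- case (ii)
    push Not at hcase
    have hΘ : Hess n H = C (c ^ 2 * ρ ^ 2) *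
        ((Hess n f).map (algebraMap K L)).comp (C ρ * X + C α) := by
      rw [Hess_map, hH, Hess_affine]
    have hΘc := Hess_coeff n hn H hHd
    have hlt : w (2 * (n : L) * H.coeff n * H.coeff (n - 2)) <
        w (((n - 1 : ℕ) : L) * H.coeff (n - 1) ^ 2) := by
      refine lt_of_le_of_lt ?_ hcase
      rw [map_mul]
      exact mul_le_of_le_one_right' (hint _)
    have hΘw : w ((Hess n H).coeff (2 * n - 4)) =
        w (((n - 1 : ℕ) : L) * H.coeff (n - 1) ^ 2) := by
      rw [hΘc, Valuation.map_sub_eq_of_lt_right _ hlt]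
    have hmcast : w ((2 * n - 4 : ℕ) : L) = w ((2 : ℕ) : L) * w ((n - 2 : ℕ) : L) := by
      rw [← map_mul]; congr 1
      rw [← Nat.cast_mul]; congr 1; omega
    have hkey : η ^ 2 * w (((4 * (n - 1) * (n - 2) : ℕ) : L)) ≤
        w (((2 * n - 4 : ℕ) : L) * (Hess n H).coeff (2 * n - 4)) := by
      rw [map_mul, hΘw, hw4, hmcast]
      rcases hmax with h | h
      · calc η ^ 2 * (w ((2 : ℕ) : L) * w ((2 : ℕ) : L) * w ((n - 1 : ℕ) : L) * w ((n - 2 : ℕ) : L))
            = w ((2 : ℕ) : L) * ((w ((2 : ℕ) : L) * w ((n - 2 : ℕ) : L)) *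
              (w ((n - 1 : ℕ) : L) * η ^ 2)) := by
              simp only [mul_comm, mul_left_comm, mul_assoc]
          _ ≤ (w ((2 : ℕ) : L) * w ((n - 2 : ℕ) : L)) *
              (w ((n - 1 : ℕ) : L) * η ^ 2) := mul_le_of_le_one_left' l2
          _ ≤ (w ((2 : ℕ) : L) * w ((n - 2 : ℕ) : L)) *
              w (((n - 1 : ℕ) : L) * H.coeff (n - 1) ^ 2) := by
              rw [map_mul, map_pow]
              exact mul_le_mul_right (mul_le_mul_right (pow_le_pow_left' h 2) _) _
      · have h1 : w ((2 : ℕ) : L) * η ≤ w (((n - 1 : ℕ) : L) * H.coeff (n - 1) ^ 2) := by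
          refine le_trans ?_ hcase.le
          have : (2 * (n : L) * H.coeff n) = ((2 : ℕ) : L) * ((n : L) * H.coeff n) := by
            push_cast; ring
          rw [this, map_mul]
          exact mul_le_mul_right h _
        calc η ^ 2 * (w ((2 : ℕ) : L) * w ((2 : ℕ) : L) * w ((n - 1 : ℕ) : L) * w ((n - 2 : ℕ) : L))
            ≤ η * (w ((2 : ℕ) : L) * w ((2 : ℕ) : L) * w ((n - 1 : ℕ) : L) * w ((n - 2 : ℕ) : L)) :=
              mul_le_mul_left hη2 _
          _ = w ((n - 1 : ℕ) : L) * ((w ((2 : ℕ) : L) * w ((n - 2 : ℕ) : L)) *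
              (w ((2 : ℕ) : L) * η)) := by
              simp only [mul_comm, mul_left_comm, mul_assoc]
          _ ≤ (w ((2 : ℕ) : L) * w ((n - 2 : ℕ) : L)) * (w ((2 : ℕ) : L) * η) :=
              mul_le_of_le_one_left' ln1
          _ ≤ (w ((2 : ℕ) : L) * w ((n - 2 : ℕ) : L)) *
              w (((n - 1 : ℕ) : L) * H.coeff (n - 1) ^ 2) := mul_le_mul_right h1 _
    have hne : ((2 * n - 4 : ℕ) : L) * (Hess n H).coeff (2 * n - 4) ≠ 0 := by
      intro h0
      rw [h0, map_zero] at hkey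
      exact absurd hβ0 (not_lt.mpr hkey)
    obtain ⟨a, ha⟩ := mean_root (w := w) (Hess n f) (2 * n - 4) (by omega)
      (Hess_natDegree n hn f hf) (c ^ 2 * ρ ^ 2) α ρ hρ (Hess n H) hΘ (CB_Hess n hint _) hne
    exact ⟨a, (mul_le_mul_right hkey _).trans ha⟩

end ext

end Pool.Agent.Lib.MP_ca2859_nt
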