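import Mathlib
import Pool.Agent.Lib.MP_ca2859_nt.Defs
import Pool.Agent.Lib.MP_ca2859_nt.Res
import Pool.Agent.Lib.MP_ca2859_nt.Local

open Polynomial WithZero

namespace Pool.Agent.Lib.MP_ca2859_nt

section ord
variable {L : Type*} [Field L] (w : Valuation L ℤᵐ⁰)

/-- additive valuation -/
noncomputable def ord (x : L) : ℤ := - WithZero.log (w x)

variable {w}

theorem w_eq_exp {x : L} (hx : x ≠ 0) : w x = exp (-(ord w x)) := by
  rw [ord, neg_neg, exp_log ((Valuation.ne_zero_iff w).mpr hx)]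

theorem ord_mul {x y : L} (hx : x ≠ 0) (hy : y ≠ 0) : ord w (x * y) = ord w x + ord w y := by
  rw [ord, ord, ord, map_mul, log_mul ((Valuation.ne_zero_iff w).mpr hx)
    ((Valuation.ne_zero_iff w).mpr hy)]
  ring

theorem ord_pow (x : L) (k : ℕ) : ord w (x ^ k) = k * ord w x := by
  rw [ord, ord, map_pow, log_pow]
  simp

theorem ord_zpow (x : L) (k : ℤ) : ord w (x ^ k) = k * ord w x := by
  rw [ord, ord, map_zpow₀, log_zpow]
  simp

theorem ord_div {x y : L} (hx : x ≠ 0) (hy : y ≠ 0) : ord w (x / y) = ord w x - ord w y := by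
  rw [ord, ord, ord, map_div₀, log_div ((Valuation.ne_zero_iff w).mpr hx)
    ((Valuation.ne_zero_iff w).mpr hy)]
  ring

theorem ord_unit (ε : ℤˣ) (x : L) : ord w (((ε : ℤ) : L) * x) = ord w x := by
  rcases Int.units_eq_one_or ε with h | h <;> simp [h, ord, Valuation.map_neg]

theorem unit_ne_zero (ε : ℤˣ) : ((ε : ℤ) : L) ≠ 0 := by
  rcases Int.units_eq_one_or ε with h | h <;> simp [h]

theorem le_exp_iff {x : L} (hx : x ≠ 0) (m : ℤ) : w x ≤ exp m ↔ -m ≤ ord w x := by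
  rw [w_eq_exp hx, exp_le_exp]
  constructor <;> intro h <;> linarith

theorem ord_nonneg {x : L} (h : w x ≤ 1) : 0 ≤ ord w x := by
  rcases eq_or_ne x 0 with rfl | hx
  · simp [ord]
  · rw [← exp_zero, le_exp_iff hx] at h
    linarith

theorem det_le_one {ι : Type*} [Fintype ι] [DecidableEq ι] (M : Matrix ι ι L)
    (hM : ∀ i j, w (M i j) ≤ 1) : w M.det ≤ 1 := by
  rw [Matrix.det_apply]
  apply Valuation.map_sum_le
  intro σ _
  rw [Units.smul_def, zsmul_eq_mul, map_mul]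
  refine mul_le_one' ?_ ?_
  · rcases Int.units_eq_one_or (Equiv.Perm.sign σ) with h | h <;> simp [h, Valuation.map_neg]
  · rw [map_prod]
    exact Finset.prod_le_one' (fun i _ => hM _ _)

theorem discr_le_one {f : L[X]} (hf : CB w 1 f) : w f.discr ≤ 1 := by
  rw [discr, map_mul]
  refine mul_le_one' ?_ ?_
  · apply det_le_one
    intro i j
    rw [sylvesterDeriv]
    split_ifs with h
    · simp
    · rw [Matrix.updateRow_apply]
      split_ifs
      · simp
      · exact natCast_le_one w _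
      · simp
      · rw [sylvester, Matrix.of_apply]
        induction j using Fin.addCases with
        | left j =>
          rw [Fin.addCases_left]
          split_ifs
          · exact hf _
          · simp
        | right j =>
          rw [Fin.addCases_right]
          split_ifs
          · exact hf.derivative _
          · simp
  · rw [map_pow, Valuation.map_neg, map_one, one_pow]

end ord

section eqDisc
variable {F : Type*} [Field F] [CharZero F]

theorem RR_eqDisc (g : ℕ) (hg : 1 ≤ g) (h : F[X])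
    (hd : h.natDegree = 2 * g + 1 ∨ h.natDegree = 2 * g + 2) :
    ∃ ε : ℤˣ, RR (2 * g + 2) h * 2 ^ (4 * g) =
      ((ε : ℤ) : F) * (((2 * g + 2 : ℕ) : F) ^ (2 * g) * eqDisc g h) := by
  rcases hd with hd | hd
  · obtain ⟨ε, hε⟩ := RR_eq_discr_of_natDegree_eq_pred (2 * g + 2) (by omega) h (by omega)
    refine ⟨ε, ?_⟩
    rw [hε, eqDisc, if_neg (by omega), show 2 * g + 2 - 2 = 2 * g by omega]
    ring
  · obtain ⟨ε, hε⟩ := RR_eq_discr_of_natDegree_eq (2 * g + 2) (by omega) h (by omega)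
    refine ⟨ε, ?_⟩
    rw [hε, eqDisc, if_pos hd, show 2 * g + 2 - 2 = 2 * g by omega]
    ring

/-- The constant of the local bound. -/
def cst (g : ℕ) : ℕ :=
  2 ^ ((4 * g + 3) ^ 2 * (4 * g + 4) + 4 * g) * (2 * g + 2) ^ (16 * g * (g + 1) * (2 * g + 1)) *
    (8 * g * (2 * g + 1)) ^ (4 * (g + 1) * (2 * g + 1))

theorem cst_pos (g : ℕ) (hg : 1 ≤ g) : 0 < cst g := by
  unfold cst; positivity

theorem ord_RR_eqDisc {w : Valuation F ℤᵐ⁰} (g : ℕ) (hg : 1 ≤ g) (h : F[X])
    (hd : h.natDegree = 2 * g + 1 ∨ h.natDegree = 2 * g + 2) (h0 : eqDisc g h ≠ 0) :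
    RR (2 * g + 2) h ≠ 0 ∧ ord w (RR (2 * g + 2) h) + 4 * g * ord w (2 : F) =
      2 * g * ord w ((2 * g + 2 : ℕ) : F) + ord w (eqDisc g h) := by
  obtain ⟨ε, hε⟩ := RR_eqDisc g hg h hd
  have hn0 : ((2 * g + 2 : ℕ) : F) ≠ 0 := by rw [Nat.cast_ne_zero]; omega
  have h2 : (2 : F) ≠ 0 := two_ne_zero
  have hR : RR (2 * g + 2) h ≠ 0 := by
    intro hR
    rw [hR, zero_mul] at hε
    exact (mul_ne_zero (unit_ne_zero ε) (mul_ne_zero (pow_ne_zero _ hn0) h0)) hε.symm
  refine ⟨hR, ?_⟩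
  have h3 := congrArg (ord w) hε
  rw [ord_mul hR (pow_ne_zero _ h2), ord_unit, ord_mul (pow_ne_zero _ hn0) h0, ord_pow,
    ord_pow] at h3
  push_cast at h3 ⊢
  exact h3

end eqDisc

section main
variable {K L : Type*} [Field K] [Field L] [Algebra K L] [CharZero K] [CharZero L]

theorem natCast_int_le {F : Type*} [Field F] (v : Valuation F ℤᵐ⁰) (k : ℕ) :
    0 ≤ ord v ((k : ℕ) : F) := ord_nonneg (natCast_le_one v k)

theorem RR_zero {F : Type*} [Field F] (n : ℕ) (hn : 2 ≤ n) : RR n (0 : F[X]) = 0 := by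
  have h := RR_C_mul n (0 : F) 0
  rwa [C_0, zero_mul, zero_pow (by omega), zero_mul] at h

theorem final_arith (g e k k' s m₁ μ₀ μ E O2 On O4 U Cc R1 R2 Rh : ℤ)
    (hg0 : 0 ≤ g) (he0 : 0 ≤ e) (hs1 : 2 * s + m₁ ≤ 1) (hμ2 : 2 * (U + 2 * μ₀) ≤ e)
    (hμ : μ = μ₀ + (2 * E + e * O4)) (hordc : -((2 * g + 2) * μ) ≤ Cc + e * m₁)
    (hord1 : 2 * (2 * g + 1) * Cc + e * R1 = (2 * g + 2) * (2 * g + 1) * U + E)
    (hordR2 : R2 = 4 * (2 * g + 1) * s + R1)
    (hR2 : R2 + 4 * g * O2 = 2 * g * On + k')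
    (hRh : Rh + 4 * g * (e * O2) = 2 * g * (e * On) + k)
    (hordH : E = 2 * (2 * g + 1) * (2 * (e * O2)) + Rh) :
    e * k' ≤ e * ((2 * g + 1) * (g + 3)) + (4 * g + 3) ^ 2 * k +
        e * (((4 * g + 3) ^ 2 * (4 * g + 4) + 4 * g) * O2 +
        (16 * g * (g + 1) * (2 * g + 1)) * On +
        (4 * (g + 1) * (2 * g + 1)) * O4) := by
  have hE2 : E = (4 * g + 4) * (e * O2) + 2 * g * (e * On) + k := by
    linear_combination hordH + hRh
  have i1 : 2 * (2 * g + 1) * (Cc + e * m₁) ≥ -(2 * (2 * g + 1) * ((2 * g + 2) * μ)) := by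
    have := mul_le_mul_of_nonneg_left hordc (show (0 : ℤ) ≤ 2 * (2 * g + 1) by positivity)
    linarith
  have i2 : 2 * (2 * g + 1) * (e * (2 * s + m₁)) ≤ 2 * (2 * g + 1) * e := by
    have h1 : e * (2 * s + m₁) ≤ e := by nlinarith
    exact mul_le_mul_of_nonneg_left h1 (by positivity)
  have i3 : (g + 1) * (2 * g + 1) * (2 * (U + 2 * μ₀)) ≤ (g + 1) * (2 * g + 1) * e :=
    mul_le_mul_of_nonneg_left hμ2 (by positivity)
  have i4 : e * R2 = 4 * (2 * g + 1) * (e * s) + e * R1 := by rw [hordR2]; ring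
  have i5 : e * k' = e * R2 + 4 * g * (e * O2) - 2 * g * (e * On) := by
    linear_combination -e * hR2
  have h7 : e * R1 = (2 * g + 2) * (2 * g + 1) * U + E - 2 * (2 * g + 1) * Cc := by
    linear_combination hord1
  have i6 : e * R2 ≤ 2 * (2 * g + 1) * e + (g + 1) * (2 * g + 1) * e + E +
      2 * (2 * g + 2) * (2 * g + 1) * (2 * E + e * O4) := by
    rw [i4, h7]
    rw [hμ] at i1
    nlinarith [i1, i2, i3]
  rw [i5]
  rw [hE2] at i6
  nlinarith [i6]

/-- the integer closest to `r / e` -/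
theorem exists_round (r : ℤ) (e : ℕ) (he : 0 < e) :
    ∃ j : ℤ, 2 * ((e : ℤ) * j - r) ≤ e ∧ -(e : ℤ) ≤ 2 * ((e : ℤ) * j - r) := by
  refine ⟨(2 * r + e) / (2 * e), ?_⟩
  have h1 := Int.emod_add_mul_ediv (2 * r + e) (2 * e)
  have h2 := Int.emod_nonneg (2 * r + e) (show (2 * (e : ℤ)) ≠ 0 by positivity)
  have h3 := Int.emod_lt_of_pos (2 * r + e) (show 0 < (2 * (e : ℤ)) by positivity)
  constructor <;> nlinarith

theorem local_bound (v : Valuation K ℤᵐ⁰) (w : Valuation L ℤᵐ⁰) (e : ℕ) (he : 0 < e)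
    (hvw : ∀ x : K, w (algebraMap K L x) = v x ^ e) (π : K) (hπ : v π = exp (-1 : ℤ))
    (g : ℕ) (hg : 1 ≤ g) (f : K[X]) (hfd : f.natDegree = 2 * g + 1 ∨ f.natDegree = 2 * g + 2)
    (P Q : L[X]) (hm : IsWeierstrassModel w g (f.map (algebraMap K L)) P Q) (k : ℕ)
    (hk : w (eqDisc g (f0 P Q)) = exp (-(k : ℤ))) :
    ∃ k' : ℕ, (∃ P' Q' : K[X], IsWeierstrassModel v g f P' Q' ∧
      v (eqDisc g (f0 P' Q')) = exp (-(k' : ℤ))) ∧
      (e : ℤ) * k' ≤ e * ((2 * g + 1) * (g + 3)) + (4 * g + 3) ^ 2 * k +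
        e * ord v ((cst g : ℕ) : K) := by
  -- notation
  set n := 2 * g + 2 with hn
  have hinj := (algebraMap K L).injective
  have hordK : ∀ x : K, ord w (algebraMap K L x) = e * ord v x := by
    intro x
    rw [ord, hvw, log_pow, ord]
    simp
  have hπ0 : π ≠ 0 := by
    rintro rfl; rw [map_zero] at hπ; exact exp_ne_zero hπ.symm
  have hordπ : ord v π = 1 := by rw [ord, hπ, log_exp]; ring
  have h20 : (2 : L) ≠ 0 := two_ne_zero
  set h := f0 P Q with hh
  have hhd : h.natDegree ≤ n := by rcases hm.deg0 with h1 | h1 <;> rw [hh] <;> omega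
  -- `4 h` is integral
  have hint4 : CB w 1 (C 4 * h) := by
    have h1 : C (4 : L) * h = C ((4 : ℕ) : L) * P + Q ^ 2 := by
      rw [hh, f0, mul_add, ← mul_assoc, ← C_mul]
      norm_num
    rw [h1]
    have h2 := (CB_C (natCast_le_one w 4)).mul (show CB w 1 P from hm.intP)
    have h3 := CB.pow (show CB w 1 Q from hm.intQ) 2
    rw [mul_one] at h2
    rw [one_pow] at h3
    exact h2.add h3
  have hD0 : eqDisc g h ≠ 0 := by
    intro h1; rw [h1, map_zero] at hk; exact exp_ne_zero hk.symm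
  have hordD : ord w (eqDisc g h) = k := by rw [ord, hk, log_exp]; ring
  obtain ⟨hRh0, hRh⟩ := ord_RR_eqDisc (w := w) g hg h hm.deg0 hD0
  rw [← hn] at hRh0 hRh
  obtain ⟨c, α, ρ, H, hc, hρ, hH, hHint, ε, hε⟩ :=
    exists_affine (w := w) g (f.map (algebraMap K L)) h hhd hm.same hint4
  rw [← hn] at hε
  have hHd : H.natDegree ≤ n := by
    rw [hH]
    refine (natDegree_C_mul_le _ _).trans (natDegree_comp_le.trans ?_)
    rw [natDegree_map]
    calc f.natDegree * (C ρ * X + C α).natDegree ≤ n * 1 :=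
          Nat.mul_le_mul (by omega) (natDegree_linear_le)
      _ = n := mul_one n
  have hRH0 : RR n H ≠ 0 := by
    rw [hε, RR_C_mul]
    exact mul_ne_zero (unit_ne_zero ε) (mul_ne_zero (pow_ne_zero _ (by norm_num)) hRh0)
  have hordH : ord w (RR n H) = 2 * (2 * g + 1) * (2 * ord w (2 : L)) + ord w (RR n h) := by
    rw [hε, ord_unit, RR_C_mul, ord_mul (pow_ne_zero _ (by norm_num)) hRh0, ord_pow,
      show (4 : L) = 2 ^ 2 by norm_num, ord_pow, show n - 1 = 2 * g + 1 by omega]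
    push_cast
    ring
  set E := ord w (RR n H) with hE
  obtain ⟨a, ha⟩ := exists_center (w := w) n (by omega) f (by omega) c α ρ hρ H hH hHint hRH0
  set o4 := ord w (((4 * (n - 1) * (n - 2) : ℕ) : L)) with ho4
  have hc40 : (((4 * (n - 1) * (n - 2) : ℕ) : L)) ≠ 0 := by
    rw [Nat.cast_ne_zero]
    have h1 : n - 1 ≠ 0 := by omega
    have h2 : n - 2 ≠ 0 := by omega
    positivity
  have hβ : w (RR n H) ^ 2 * w (((4 * (n - 1) * (n - 2) : ℕ) : L)) = exp (-(2 * E + o4)) := by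
    rw [w_eq_exp hRH0, w_eq_exp hc40, ← hE, ← ho4, ← exp_nsmul, ← exp_add]
    congr 1
    rw [nsmul_eq_mul, Nat.cast_ofNat]
    ring
  rw [hβ] at ha
  set t := (algebraMap K L a - α) / ρ with ht
  have hE0 : 0 ≤ E := by
    rw [hE]
    apply ord_nonneg
    rcases RR_le_max (by omega : 2 ≤ n) hHint hHd with h1 | h1
    · exact h1.trans (hHint _)
    · refine h1.trans ?_
      rw [map_mul]; exact mul_le_one' (natCast_le_one w n) (hHint _)
  have ho40 : 0 ≤ o4 := natCast_int_le w _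
  have hwt : w t ≤ exp (2 * E + o4) := by
    rw [exp_neg] at ha
    rwa [mul_inv_le_iff₀ exp_pos, one_mul] at ha
  -- choice of the scaling
  obtain ⟨j, hj1, hj2⟩ := exists_round (ord w ρ) e he
  set u := algebraMap K L (π ^ j) / ρ with hu
  have hπj0 : π ^ j ≠ 0 := zpow_ne_zero _ hπ0
  have hπjL : algebraMap K L (π ^ j) ≠ 0 := by
    rw [Ne, map_eq_zero]; exact hπj0
  have hu0 : u ≠ 0 := div_ne_zero hπjL hρ
  have hordu : ord w u = e * j - ord w ρ := by
    rw [hu, ord_div hπjL hρ, hordK, ord_zpow, hordπ, mul_one]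
  rw [← hordu] at hj1 hj2
  -- the new polynomial
  set f₁ := f.comp (C (π ^ j) * X + C a) with hf₁
  set G := H.comp (C u * X + C t) with hG
  have hGf : G = C c * f₁.map (algebraMap K L) := by
    have h1 : (C ρ * X + C α : L[X]).comp (C u * X + C t) =
        C (algebraMap K L (π ^ j)) * X + C (algebraMap K L a) := by
      simp only [add_comp, mul_comp, C_comp, X_comp]
      rw [mul_add, ← mul_assoc, ← C_mul, ← C_mul, add_assoc, ← C_add]
      congr 3
      · rw [hu]; field_simp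
      · rw [ht]; field_simp; ring
    rw [hG, hH, mul_comp, C_comp, comp_assoc, h1, hf₁, Polynomial.map_comp]
    simp
  have hRG : RR n G = u ^ (n * (n - 1)) * RR n H := by
    rw [hG, comp_affine, RR_dilate n (by omega) u hu0, RR_taylor n (by omega) _ _ hHd]
  have hRG2 : RR n G = c ^ (2 * (n - 1)) * algebraMap K L (RR n f₁) := by
    rw [hGf, RR_C_mul, RR_map]
  have hRf₁ : RR n f₁ ≠ 0 := by
    intro h1
    rw [h1, map_zero, mul_zero, hRG] at hRG2
    exact mul_ne_zero (pow_ne_zero _ hu0) hRH0 hRG2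
  have hord1 : 2 * (2 * g + 1) * ord w c + e * ord v (RR n f₁) =
      (2 * g + 2) * (2 * g + 1) * ord w u + E := by
    have h1 := congrArg (ord w) (hRG.symm.trans hRG2)
    rw [ord_mul (pow_ne_zero _ hu0) hRH0, ord_mul (pow_ne_zero _ hc)
      (by rw [Ne, map_eq_zero]; exact hRf₁), ord_pow, ord_pow, hordK,
      show n - 1 = 2 * g + 1 by omega, ← hE] at h1
    push_cast [hn] at h1
    linarith
  have hf₁0 : f₁ ≠ 0 := by
    intro h1
    apply hRf₁
    rw [h1]
    exact RR_zero n (by omega)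
  have hlin : (C (π ^ j) * X + C a : K[X]).natDegree = 1 := natDegree_linear hπj0
  have hf₁d : f₁.natDegree = f.natDegree := by
    rw [hf₁, natDegree_comp, hlin, mul_one]
  -- the content of f₁
  obtain ⟨i₀, -, hi₀⟩ := Finset.exists_max_image (Finset.range (n + 1)) (fun i => v (f₁.coeff i))
    ⟨0, by simp⟩
  have hmax : ∀ i, v (f₁.coeff i) ≤ v (f₁.coeff i₀) := by
    intro i
    by_cases hi : i ∈ Finset.range (n + 1)
    · exact hi₀ i hi
    · rw [coeff_eq_zero_of_natDegree_lt (by rw [Finset.mem_range] at hi; omega)]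
      simp
  have hci₀ : f₁.coeff i₀ ≠ 0 := by
    intro h1
    apply hf₁0
    ext i
    have h2 := hmax i
    rw [h1, map_zero, le_zero_iff, map_eq_zero] at h2
    rw [h2, coeff_zero]
  set m₁ := ord v (f₁.coeff i₀) with hm₁
  -- bound on `c`
  obtain ⟨μ₀, hμ0, hμ1, hμ2⟩ : ∃ μ₀ : ℤ, 0 ≤ μ₀ ∧ -ord w u ≤ μ₀ ∧
      2 * (ord w u + 2 * μ₀) ≤ e := by
    rcases le_total 0 (ord w u) with h1 | h1
    · exact ⟨0, le_rfl, by linarith, by linarith⟩
    · exact ⟨-ord w u, by linarith, le_rfl, by linarith⟩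
  set μ := μ₀ + (2 * E + o4) with hμ
  have hμnn : 0 ≤ μ := by positivity
  have hGc : CB w (exp μ ^ n) G := by
    rw [hG]
    apply CB.comp _ hHint _ _ hHd
    · rw [← exp_zero, exp_le_exp]; exact hμnn
    · apply CB_linear
      · rw [le_exp_iff hu0]; linarith
      · exact hwt.trans (by rw [exp_le_exp]; linarith)
  have hordc : -(n * μ) ≤ ord w c + e * m₁ := by
    have h1 := hGc i₀
    rw [hGf, coeff_C_mul, coeff_map, ← exp_nsmul, le_exp_iff (mul_ne_zero hc (by
      rw [Ne, map_eq_zero]; exact hci₀)), ord_mul hc (by rw [Ne, map_eq_zero]; exact hci₀),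
      hordK] at h1
    simpa using h1
  -- the exponent `s`
  set s := -(m₁ / 2) with hs
  have hs1 : 2 * s + m₁ ≤ 1 := by omega
  have hs0 : 0 ≤ 2 * s + m₁ := by omega
  have hπs0 : π ^ s ≠ 0 := zpow_ne_zero _ hπ0
  set f₂ := C ((π ^ s) ^ 2) * f₁ with hf₂
  have hf₂d : f₂.natDegree = f.natDegree := by
    rw [hf₂, natDegree_C_mul (pow_ne_zero _ hπs0), hf₁d]
  have hint2 : CB v 1 f₂ := by
    intro i
    rw [hf₂, coeff_C_mul]
    rcases eq_or_ne (f₁.coeff i) 0 with h1 | h1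
    · simp [h1]
    · have h2 := hmax i
      rw [w_eq_exp hci₀, ← hm₁, le_exp_iff h1, neg_neg] at h2
      rw [← exp_zero, le_exp_iff (mul_ne_zero (pow_ne_zero _ hπs0) h1),
        ord_mul (pow_ne_zero _ hπs0) h1, ord_pow, ord_zpow, hordπ]
      push_cast
      linarith
  have hf02 : f0 f₂ 0 = f₂ := by simp [f0]
  have hmodel : IsWeierstrassModel v g f f₂ 0 := by
    refine ⟨hint2, fun i => by simp, by omega, by simp, ?_, ?_⟩
    · rw [hf02, hf₂d]; exact hfd
    · rw [hf02]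
      refine ⟨π ^ j, a, 0, 1, π ^ s, by simpa using hπj0, hπs0, fun x _ => ?_⟩
      simp [hf₂, hf₁, eval_comp]
  have hRf₂ : RR n f₂ = ((π ^ s) ^ 2) ^ (2 * (n - 1)) * RR n f₁ := by
    rw [hf₂, RR_C_mul]
  have hRf₂0 : RR n f₂ ≠ 0 := by
    rw [hRf₂]; exact mul_ne_zero (pow_ne_zero _ (pow_ne_zero _ hπs0)) hRf₁
  have hordR2 : ord v (RR n f₂) = 4 * (2 * g + 1) * s + ord v (RR n f₁) := by
    rw [hRf₂, ord_mul (pow_ne_zero _ (pow_ne_zero _ hπs0)) hRf₁, ord_pow, ord_pow, ord_zpow,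
      hordπ, show n - 1 = 2 * g + 1 by omega]
    push_cast
    ring
  have hf₂d' : f₂.natDegree = 2 * g + 1 ∨ f₂.natDegree = 2 * g + 2 := by rw [hf₂d]; exact hfd
  have hD2 : eqDisc g f₂ ≠ 0 := by
    obtain ⟨ε', hε'⟩ := RR_eqDisc g hg f₂ hf₂d'
    intro h1
    rw [h1, mul_zero, mul_zero] at hε'
    exact mul_ne_zero hRf₂0 (pow_ne_zero _ two_ne_zero) hε'
  obtain ⟨-, hR2⟩ := ord_RR_eqDisc (w := v) g hg f₂ hf₂d' hD2
  rw [← hn] at hR2
  have hDint : v (eqDisc g f₂) ≤ 1 := by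
    have h2 : v (2 : K) ≤ 1 := by simpa using natCast_le_one v 2
    rw [eqDisc]
    split_ifs
    · rw [map_mul, map_pow]
      exact mul_le_one' (pow_le_one' h2 _) (discr_le_one hint2)
    · rw [map_mul, map_mul, map_pow, map_pow]
      exact mul_le_one' (mul_le_one' (pow_le_one' h2 _) (pow_le_one' (hint2 _) _))
        (discr_le_one hint2)
  have hord0 : 0 ≤ ord v (eqDisc g f₂) := ord_nonneg hDint
  obtain ⟨k', hk'⟩ := Int.eq_ofNat_of_zero_le hord0
  refine ⟨k', ⟨f₂, 0, hmodel, ?_⟩, ?_⟩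
  · rw [hf02, w_eq_exp hD2, hk']
  · -- final inequality
    have ho2 : ord w (2 : L) = e * ord v (2 : K) := by
      rw [← hordK, map_ofNat]
    have hon : ord w ((n : ℕ) : L) = e * ord v ((n : ℕ) : K) := by
      rw [← hordK, map_natCast]
    have ho4' : o4 = e * ord v (((4 * (n - 1) * (n - 2) : ℕ) : K)) := by
      rw [ho4, ← hordK, map_natCast]
    have hcst : ord v ((cst g : ℕ) : K) =
        ((4 * g + 3) ^ 2 * (4 * g + 4) + 4 * g) * ord v (2 : K) +
        (16 * g * (g + 1) * (2 * g + 1)) * ord v ((n : ℕ) : K) +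
        (4 * (g + 1) * (2 * g + 1)) * ord v (((4 * (n - 1) * (n - 2) : ℕ) : K)) := by
      have hn0 : ((n : ℕ) : K) ≠ 0 := by rw [Nat.cast_ne_zero]; omega
      have hc40' : (((4 * (n - 1) * (n - 2) : ℕ) : K)) ≠ 0 := by
        rw [Nat.cast_ne_zero]
        have h1 : n - 1 ≠ 0 := by omega
        have h2 : n - 2 ≠ 0 := by omega
        positivity
      have h1 : ((cst g : ℕ) : K) = (2 : K) ^ ((4 * g + 3) ^ 2 * (4 * g + 4) + 4 * g) *
          ((n : ℕ) : K) ^ (16 * g * (g + 1) * (2 * g + 1)) *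
          (((4 * (n - 1) * (n - 2) : ℕ) : K)) ^ (4 * (g + 1) * (2 * g + 1)) := by
        rw [cst, hn, show 2 * g + 2 - 1 = 2 * g + 1 by omega, show 2 * g + 2 - 2 = 2 * g by omega,
          show 8 * g * (2 * g + 1) = 4 * (2 * g + 1) * (2 * g) by ring]
        push_cast
        ring
      rw [h1, ord_mul (mul_ne_zero (pow_ne_zero _ two_ne_zero) (pow_ne_zero _ hn0))
        (pow_ne_zero _ hc40'), ord_mul (pow_ne_zero _ two_ne_zero) (pow_ne_zero _ hn0),
        ord_pow, ord_pow, ord_pow]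
      push_cast
      ring
    rw [hcst]
    rw [hk'] at hR2
    rw [hordD] at hRh
    rw [ho4'] at hμ
    rw [ho2] at hRh hordH
    rw [hon] at hRh
    have hncast : ((n : ℕ) : ℤ) = 2 * g + 2 := by rw [hn]; push_cast; ring
    rw [hncast] at hordc
    exact final_arith g e k k' s m₁ μ₀ μ E (ord v (2 : K)) (ord v ((n : ℕ) : K))
      (ord v (((4 * (n - 1) * (n - 2) : ℕ) : K))) (ord w u) (ord w c) (ord v (RR n f₁))
      (ord v (RR n f₂)) (ord w (RR n h)) (by positivity) (by positivity) hs1 hμ2 hμ hordc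
      hord1 hordR2 hR2 hRh hordH

end main

end Pool.Agent.Lib.MP_ca2859_nt
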