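import Mathlib
import Pool.Agent.Lib.MP_ca2859_nt.Defs
import Pool.Agent.Lib.MP_ca2859_nt.Res
import Pool.Agent.Lib.MP_ca2859_nt.Local
import Pool.Agent.Lib.MP_ca2859_nt.Local2

open Polynomial WithZero IsDedekindDomain NumberField

namespace Pool.Agent.Lib.MP_ca2859_nt

section exist
variable {F : Type*} [Field F] [CharZero F]

theorem eqDisc_ne_zero (g : ℕ) (f : F[X]) (hf : IsHyperelliptic g f) : eqDisc g f ≠ 0 := by
  obtain ⟨hsep, hd⟩ := hf
  have hd0 : 0 < f.degree := by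
    rw [← natDegree_pos_iff_degree_pos]; omega
  have hf0 : f ≠ 0 := by rintro rfl; simp at hd0
  have hder : (derivative f).natDegree = f.natDegree - 1 := by
    have := degree_derivative_eq f (by omega)
    exact natDegree_eq_of_degree_eq_some this
  have h1 := resultant_deriv hd0
  have h2 := resultant_ne_zero f (derivative f) hsep
  rw [hder, h1] at h2
  have h3 : f.discr ≠ 0 := right_ne_zero_of_mul h2
  have h4 : f.leadingCoeff ≠ 0 := leadingCoeff_ne_zero.mpr hf0
  rw [eqDisc]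
  split_ifs
  · exact mul_ne_zero (pow_ne_zero _ two_ne_zero) h3
  · exact mul_ne_zero (mul_ne_zero (pow_ne_zero _ two_ne_zero) (pow_ne_zero _ h4)) h3

theorem f0_zero (f : F[X]) : f0 f 0 = f := by simp [f0]

theorem sameCurve_refl (g : ℕ) (f : F[X]) : SameCurve g f f :=
  ⟨1, 0, 0, 1, 1, by simp, by simp, fun x _ => by simp⟩

theorem eqDisc_le_one {v : Valuation F ℤᵐ⁰} (g : ℕ) {f : F[X]} (hf : CB v 1 f) :
    v (eqDisc g f) ≤ 1 := by
  have h2 : v (2 : F) ≤ 1 := by simpa using natCast_le_one v 2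
  rw [eqDisc]
  split_ifs
  · rw [map_mul, map_pow]
    exact mul_le_one' (pow_le_one' h2 _) (discr_le_one hf)
  · rw [map_mul, map_mul, map_pow, map_pow]
    exact mul_le_one' (mul_le_one' (pow_le_one' h2 _) (pow_le_one' (hf _) _))
      (discr_le_one hf)

theorem exists_model (v : Valuation F ℤᵐ⁰) (π : F) (hπ : v π = exp (-1 : ℤ)) (g : ℕ) (hg : 1 ≤ g)
    (f : F[X]) (hf : IsHyperelliptic g f) :
    ∃ (k : ℕ) (P Q : F[X]), IsWeierstrassModel v g f P Q ∧
      v (eqDisc g (f0 P Q)) = exp (-(k : ℤ)) := by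
  have hπ0 : π ≠ 0 := by
    rintro rfl; rw [map_zero] at hπ; exact exp_ne_zero hπ.symm
  have hordπ : ord v π = 1 := by rw [ord, hπ, log_exp]; ring
  have hD0 := eqDisc_ne_zero g f hf
  have hd := hf.2
  -- a large power of `π` clears the denominators
  obtain ⟨s, hs⟩ : ∃ s : ℕ, ∀ i, v ((π ^ s) ^ 2 * f.coeff i) ≤ 1 := by
    obtain ⟨S, hS⟩ : ∃ S : ℕ, ∀ i ∈ Finset.range (f.natDegree + 1),
        (ord v (f.coeff i)).natAbs ≤ S :=
      ⟨∑ i ∈ Finset.range (f.natDegree + 1), (ord v (f.coeff i)).natAbs, fun i hi =>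
        Finset.single_le_sum (f := fun i => (ord v (f.coeff i)).natAbs)
          (fun _ _ => Nat.zero_le _) hi⟩
    refine ⟨S, fun i => ?_⟩
    by_cases hi : i ∈ Finset.range (f.natDegree + 1)
    · rcases eq_or_ne (f.coeff i) 0 with h1 | h1
      · simp [h1]
      · have h2 := hS i hi
        rw [← exp_zero, le_exp_iff (mul_ne_zero (pow_ne_zero _ (pow_ne_zero _ hπ0)) h1),
          ord_mul (pow_ne_zero _ (pow_ne_zero _ hπ0)) h1, ord_pow, ord_pow, hordπ]
        push_cast
        omega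
    · rw [coeff_eq_zero_of_natDegree_lt (by rw [Finset.mem_range] at hi; omega)]
      simp
  have hπs0 : (π ^ s) ^ 2 ≠ 0 := pow_ne_zero _ (pow_ne_zero _ hπ0)
  set f₂ := C ((π ^ s) ^ 2) * f with hf₂
  have hf₂d : f₂.natDegree = f.natDegree := natDegree_C_mul hπs0
  have hint2 : CB v 1 f₂ := by
    intro i; rw [hf₂, coeff_C_mul]; exact hs i
  have hR := (ord_RR_eqDisc (w := v) g hg f hd hD0).1
  have hR2 : RR (2 * g + 2) f₂ ≠ 0 := by
    rw [hf₂, RR_C_mul]; exact mul_ne_zero (pow_ne_zero _ hπs0) hR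
  have hf₂d' : f₂.natDegree = 2 * g + 1 ∨ f₂.natDegree = 2 * g + 2 := by rw [hf₂d]; exact hd
  have hD2 : eqDisc g f₂ ≠ 0 := by
    obtain ⟨ε', hε'⟩ := RR_eqDisc g hg f₂ hf₂d'
    intro h1
    rw [h1, mul_zero, mul_zero] at hε'
    exact mul_ne_zero hR2 (pow_ne_zero _ two_ne_zero) hε'
  have hord0 : 0 ≤ ord v (eqDisc g f₂) := ord_nonneg (eqDisc_le_one g hint2)
  obtain ⟨k', hk'⟩ := Int.eq_ofNat_of_zero_le hord0
  refine ⟨k', f₂, 0, ⟨hint2, fun i => by simp, by omega, by simp, ?_, ?_⟩, ?_⟩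
  · rw [f0_zero]; exact hf₂d'
  · rw [f0_zero]
    refine ⟨1, 0, 0, 1, π ^ s, by simp, pow_ne_zero _ hπ0, fun x _ => ?_⟩
    simp [hf₂]
  · rw [f0_zero, w_eq_exp hD2, hk']

theorem minDiscExp_spec (v : Valuation F ℤᵐ⁰) (π : F) (hπ : v π = exp (-1 : ℤ)) (g : ℕ)
    (hg : 1 ≤ g) (f : F[X]) (hf : IsHyperelliptic g f) :
    ∃ (P Q : F[X]), IsWeierstrassModel v g f P Q ∧
      v (eqDisc g (f0 P Q)) = exp (-(minDiscExp v g f : ℤ)) := by
  obtain ⟨k, P, Q, h⟩ := exists_model v π hπ g hg f hf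
  exact Nat.sInf_mem (s := {k : ℕ | ∃ P Q : F[X], IsWeierstrassModel v g f P Q ∧
    v (eqDisc g (f0 P Q)) = exp (-(k : ℤ))}) ⟨k, P, Q, h⟩

theorem minDiscExp_le (v : Valuation F ℤᵐ⁰) (g : ℕ) (f : F[X]) (k : ℕ)
    (h : ∃ (P Q : F[X]), IsWeierstrassModel v g f P Q ∧
      v (eqDisc g (f0 P Q)) = exp (-(k : ℤ))) : minDiscExp v g f ≤ k :=
  Nat.sInf_le h

end exist

section glob
variable {K : Type} [Field K] [NumberField K]

theorem isHyperelliptic_map {L : Type*} [Field L] [Algebra K L] (g : ℕ) (f : K[X])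
    (hf : IsHyperelliptic g f) : IsHyperelliptic g (f.map (algebraMap K L)) :=
  ⟨hf.1.map, by rw [natDegree_map]; exact hf.2⟩

/-- local bound at a place of a number field -/
theorem discExp_bound {L : Type} [Field L] [NumberField L] [Algebra K L] (g : ℕ) (hg : 1 ≤ g)
    (f : K[X]) (hf : IsHyperelliptic g f) (v : HeightOneSpectrum (𝓞 K))
    (w : HeightOneSpectrum (𝓞 L)) [w.asIdeal.LiesOver v.asIdeal] :
    ((Ideal.ramificationIdx' v.asIdeal w.asIdeal : ℕ) : ℤ) * discExp g f v ≤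
      (Ideal.ramificationIdx' v.asIdeal w.asIdeal : ℕ) * ((2 * g + 1) * (g + 3)) +
      (4 * g + 3) ^ 2 * discExp g (f.map (algebraMap K L)) w +
      (Ideal.ramificationIdx' v.asIdeal w.asIdeal : ℕ) *
        ord (v.valuation K) ((cst g : ℕ) : K) := by
  obtain ⟨π, hπ⟩ := v.valuation_exists_uniformizer K
  obtain ⟨πL, hπL⟩ := w.valuation_exists_uniformizer L
  obtain ⟨P, Q, hm, hk⟩ := minDiscExp_spec (w.valuation L) πL hπL g hg _
    (isHyperelliptic_map (L := L) g f hf)
  have he : 0 < Ideal.ramificationIdx' v.asIdeal w.asIdeal :=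
    Nat.pos_of_ne_zero (Ideal.IsDedekindDomain.ramificationIdx'_ne_zero_of_liesOver w.asIdeal v.ne_bot)
  obtain ⟨k', hk', hle⟩ := local_bound (v.valuation K) (w.valuation L) _ he
    (fun x => (HeightOneSpectrum.valuation_liesOver L v w x).symm) π hπ g hg f hf.2 P Q hm _ hk
  refine le_trans ?_ hle
  have h1 : discExp g f v ≤ k' := minDiscExp_le _ g f k' hk'
  have h2 : (discExp g f v : ℤ) ≤ k' := by exact_mod_cast h1
  exact mul_le_mul_of_nonneg_left h2 (by positivity)

theorem finite_val_ne_one (x : K) (hx : x ≠ 0) :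
    {v : HeightOneSpectrum (𝓞 K) | v.valuation K x ≠ 1}.Finite := by
  refine ((HeightOneSpectrum.Support.finite (𝓞 K) x).union
    (HeightOneSpectrum.Support.finite (𝓞 K) x⁻¹)).subset ?_
  intro v hv
  simp only [Set.mem_ofPred_eq] at hv
  rcases lt_or_gt_of_ne hv with h | h
  · right
    simp only [HeightOneSpectrum.Support, Set.mem_ofPred_eq, map_inv₀]
    exact (one_lt_inv₀ ((Valuation.pos_iff _).mpr hx)).mpr h
  · left
    exact h

/-- almost all places are places of good reduction -/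
theorem finite_bad (g : ℕ) (f : K[X]) (hf : IsHyperelliptic g f) :
    {v : HeightOneSpectrum (𝓞 K) | discExp g f v ≠ 0}.Finite := by
  have h1 : (⋃ i ∈ Finset.range (f.natDegree + 1),
      HeightOneSpectrum.Support (𝓞 K) (f.coeff i)).Finite :=
    Set.Finite.biUnion (Finset.finite_toSet _)
      (fun i _ => HeightOneSpectrum.Support.finite (𝓞 K) (f.coeff i))
  refine (h1.union (finite_val_ne_one (eqDisc g f) (eqDisc_ne_zero g f hf))).subset ?_
  intro v hv
  by_contra hcon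
  simp only [Set.mem_union, Set.mem_iUnion, not_or, not_exists, Set.mem_ofPred_eq, not_not] at hcon
  apply hv
  apply Nat.le_zero.mp
  refine minDiscExp_le _ g f 0 ⟨f, 0, ⟨?_, fun i => by simp, by have := hf.2; omega, by simp, ?_, ?_⟩, ?_⟩
  · intro i
    by_cases hi : i ∈ Finset.range (f.natDegree + 1)
    · exact not_lt.mp (hcon.1 i hi)
    · rw [coeff_eq_zero_of_natDegree_lt (by rw [Finset.mem_range] at hi; omega)]
      simp
  · rw [f0_zero]; exact hf.2
  · rw [f0_zero]; exact sameCurve_refl g f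
  · rw [f0_zero, hcon.2]; simp

/-- the set over which the stable exponent is an infimum -/
def stableSet (g : ℕ) (f : K[X]) (v : HeightOneSpectrum (𝓞 K)) : Set ℝ :=
  {r : ℝ | ∃ (L : Type) (_ : Field L) (_ : NumberField L) (_ : Algebra K L)
    (w : HeightOneSpectrum (𝓞 L)), w.asIdeal.LiesOver v.asIdeal ∧
    r = (discExp g (f.map (algebraMap K L)) w : ℝ) /
      (Ideal.ramificationIdx' v.asIdeal w.asIdeal : ℝ)}

theorem stableSet_nonneg (g : ℕ) (f : K[X]) (v : HeightOneSpectrum (𝓞 K)) :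
    ∀ r ∈ stableSet g f v, 0 ≤ r := by
  rintro r ⟨L, _, _, _, w, _, rfl⟩
  positivity

theorem algMap_id (x : 𝓞 K) :
    @algebraMap (𝓞 K) (𝓞 K) _ _ (@NumberField.inst_ringOfIntegersAlgebra K K _ _ (Algebra.id K)) x
      = x := by
  apply RingOfIntegers.ext
  rfl

theorem self_mem_stableSet (g : ℕ) (f : K[X]) (v : HeightOneSpectrum (𝓞 K)) :
    (discExp g f v : ℝ) ∈ stableSet g f v := by
  have hid : (@algebraMap (𝓞 K) (𝓞 K) _ _
      (@NumberField.inst_ringOfIntegersAlgebra K K _ _ (Algebra.id K))) = RingHom.id _ :=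
    RingHom.ext algMap_id
  refine ⟨K, inferInstance, inferInstance, Algebra.id K, v, ⟨?_⟩, ?_⟩
  · rw [Ideal.under, hid, Ideal.comap_id]
  · have h1 : @Ideal.ramificationIdx' (𝓞 K) _ (𝓞 K) _
        (@NumberField.inst_ringOfIntegersAlgebra K K _ _ (Algebra.id K)) v.asIdeal v.asIdeal
        = 1 := by
      apply Ideal.ramificationIdx'_spec
      · rw [hid, Ideal.map_id, pow_one]
      · rw [hid, Ideal.map_id]
        have h2 : v.asIdeal ^ (1 + 1) < v.asIdeal ^ 1 :=
          (Ideal.pow_right_strictAnti v.asIdeal v.ne_bot v.isPrime.ne_top)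
            (show 1 < 1 + 1 by omega)
        rw [pow_one] at h2
        exact not_le_of_gt h2
    rw [h1]
    simp

theorem stableExp_nonneg (g : ℕ) (f : K[X]) (v : HeightOneSpectrum (𝓞 K)) :
    0 ≤ stableExp g f v :=
  le_csInf ⟨_, self_mem_stableSet g f v⟩ (stableSet_nonneg g f v)

theorem stableExp_le (g : ℕ) (f : K[X]) (v : HeightOneSpectrum (𝓞 K)) :
    stableExp g f v ≤ discExp g f v :=
  csInf_le ⟨0, stableSet_nonneg g f v⟩ (self_mem_stableSet g f v)

theorem local_real (g : ℕ) (hg : 1 ≤ g) (f : K[X]) (hf : IsHyperelliptic g f)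
    (v : HeightOneSpectrum (𝓞 K)) :
    (discExp g f v : ℝ) ≤ (2 * g + 1) * (g + 3) + (4 * g + 3) ^ 2 * stableExp g f v +
      (ord (v.valuation K) ((cst g : ℕ) : K) : ℝ) := by
  have hk : (0 : ℝ) < (4 * g + 3) ^ 2 := by positivity
  have h : ((discExp g f v : ℝ) - (2 * g + 1) * (g + 3) -
      (ord (v.valuation K) ((cst g : ℕ) : K) : ℝ)) / (4 * g + 3) ^ 2 ≤ stableExp g f v := by
    refine le_csInf ⟨_, self_mem_stableSet g f v⟩ ?_
    rintro r ⟨L, _, _, _, w, hw, rfl⟩
    have he : 0 < Ideal.ramificationIdx' v.asIdeal w.asIdeal :=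
      Nat.pos_of_ne_zero
        (Ideal.IsDedekindDomain.ramificationIdx'_ne_zero_of_liesOver w.asIdeal v.ne_bot)
    have he' : (0 : ℝ) < (Ideal.ramificationIdx' v.asIdeal w.asIdeal : ℝ) := by exact_mod_cast he
    have h1 := discExp_bound g hg f hf v w
    have h2 : ((Ideal.ramificationIdx' v.asIdeal w.asIdeal : ℕ) : ℝ) * discExp g f v ≤
      (Ideal.ramificationIdx' v.asIdeal w.asIdeal : ℕ) * ((2 * g + 1) * (g + 3)) +
      (4 * g + 3) ^ 2 * discExp g (f.map (algebraMap K L)) w +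
      (Ideal.ramificationIdx' v.asIdeal w.asIdeal : ℕ) *
        (ord (v.valuation K) ((cst g : ℕ) : K) : ℝ) := by exact_mod_cast h1
    rw [div_le_div_iff₀ hk he']
    nlinarith
  rw [div_le_iff₀ hk] at h
  linarith

/-- the exponent of `v` in the ideal generated by the natural number `c` -/
noncomputable def cnt (c : ℕ) (v : HeightOneSpectrum (𝓞 K)) : ℕ :=
  (Associates.mk v.asIdeal).count (Associates.mk (Ideal.span {(c : 𝓞 K)})).factors

theorem ord_eq_cnt (c : ℕ) (hc : 0 < c) (v : HeightOneSpectrum (𝓞 K)) :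
    ord (v.valuation K) ((c : ℕ) : K) = cnt c v := by
  have hc0 : ((c : ℕ) : 𝓞 K) ≠ 0 := by exact_mod_cast hc.ne'
  have h1 : ((c : ℕ) : K) = algebraMap (𝓞 K) K ((c : ℕ) : 𝓞 K) := by simp
  rw [ord, h1, HeightOneSpectrum.valuation_of_algebraMap,
    HeightOneSpectrum.intValuation_if_neg v hc0, log_exp, cnt]
  ring

theorem one_le_absNorm (v : HeightOneSpectrum (𝓞 K)) : 1 ≤ Ideal.absNorm v.asIdeal := by
  rw [Nat.one_le_iff_ne_zero, Ne, Ideal.absNorm_eq_zero_iff]
  exact v.ne_bot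

theorem prod_cnt_le (c : ℕ) (hc : 0 < c) (S : Finset (HeightOneSpectrum (𝓞 K))) :
    ∏ v ∈ S, Ideal.absNorm v.asIdeal ^ cnt c v ≤ c ^ Module.finrank ℚ K := by
  classical
  have hc0 : ((c : ℕ) : 𝓞 K) ≠ 0 := by exact_mod_cast hc.ne'
  have hI : Ideal.span {((c : ℕ) : 𝓞 K)} ≠ 0 := by
    rw [Ne, Ideal.zero_eq_bot, Ideal.span_singleton_eq_bot]; exact hc0
  have h1 := Ideal.finprod_heightOneSpectrum_factorization hI
  have hfin : (Function.mulSupport (fun v : HeightOneSpectrum (𝓞 K) =>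
      v.maxPowDividing (Ideal.span {((c : ℕ) : 𝓞 K)}))).Finite := Ideal.hasFiniteMulSupport hI
  set T : Finset (HeightOneSpectrum (𝓞 K)) := hfin.toFinset ∪ S with hT
  have hsub : Function.mulSupport (fun v : HeightOneSpectrum (𝓞 K) =>
      v.maxPowDividing (Ideal.span {((c : ℕ) : 𝓞 K)})) ⊆ T := by
    intro v hv
    rw [hT, Finset.coe_union]
    left
    rw [Finset.mem_coe, Set.Finite.mem_toFinset]
    exact hv
  rw [finprod_eq_prod_of_mulSupport_subset _ hsub] at h1
  have h2 := congrArg Ideal.absNorm h1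
  rw [map_prod, Ideal.absNorm_span_natCast] at h2
  have h3 : ∏ v ∈ S, Ideal.absNorm v.asIdeal ^ cnt c v ≤
      ∏ v ∈ T, Ideal.absNorm (v.maxPowDividing (Ideal.span {((c : ℕ) : 𝓞 K)})) := by
    have h4 : ∀ v : HeightOneSpectrum (𝓞 K),
        Ideal.absNorm (v.maxPowDividing (Ideal.span {((c : ℕ) : 𝓞 K)})) =
          Ideal.absNorm v.asIdeal ^ cnt c v := by
      intro v
      rw [HeightOneSpectrum.maxPowDividing, map_pow, cnt]
    simp only [h4]
    apply Finset.prod_le_prod_of_subset_of_one_le' (Finset.subset_union_right)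
    intro v _ _
    exact Nat.one_le_pow _ _ (one_le_absNorm v)
  rw [h2] at h3
  have h5 : Module.finrank ℤ (𝓞 K) = Module.finrank ℚ K := RingOfIntegers.rank K
  rwa [h5] at h3

theorem global_bound (g : ℕ) (hg : 1 ≤ g) (f : K[X]) (hf : IsHyperelliptic g f) :
    (DeltaC g f : ℝ) ≤ (cst g : ℝ) ^ Module.finrank ℚ K *
      (MC g f : ℝ) ^ ((2 * g + 1) * (g + 3)) * stableDelta g f ^ ((4 * g + 3) ^ 2) := by
  classical
  set S := (finite_bad g f hf).toFinset with hS
  have hmem : ∀ v : HeightOneSpectrum (𝓞 K), discExp g f v ≠ 0 → v ∈ S := by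
    intro v hv; rw [hS, Set.Finite.mem_toFinset]; exact hv
  have hD : (DeltaC g f : ℝ) =
      ∏ v ∈ S, (Ideal.absNorm v.asIdeal : ℝ) ^ (discExp g f v : ℝ) := by
    rw [DeltaC, finprod_eq_prod_of_mulSupport_subset (s := S)]
    · push_cast
      exact Finset.prod_congr rfl (fun v _ => (Real.rpow_natCast _ _).symm)
    · intro v hv
      apply hmem
      intro h0
      exact hv (by simp [h0])
  have hM : (MC g f : ℝ) = ∏ v ∈ S, (Ideal.absNorm v.asIdeal : ℝ) := by
    rw [MC, finprod_eq_prod_of_mulSupport_subset (s := S)]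
    · push_cast
      refine Finset.prod_congr rfl (fun v hv => ?_)
      rw [if_neg]
      rw [hS, Set.Finite.mem_toFinset] at hv
      exact hv
    · intro v hv
      apply hmem
      intro h0
      exact hv (by simp [h0])
  have hst : stableDelta g f =
      ∏ v ∈ S, (Ideal.absNorm v.asIdeal : ℝ) ^ stableExp g f v := by
    rw [stableDelta, finprod_eq_prod_of_mulSupport_subset]
    intro v hv
    apply hmem
    intro h0
    apply hv
    have h1 := stableExp_le g f v
    have h2 := stableExp_nonneg g f v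
    rw [h0, Nat.cast_zero] at h1
    have h3 : stableExp g f v = 0 := le_antisymm h1 h2
    simp [h3]
  have hc : (∏ v ∈ S, (Ideal.absNorm v.asIdeal : ℝ) ^ (cnt (cst g) v : ℝ)) ≤
      (cst g : ℝ) ^ Module.finrank ℚ K := by
    have := prod_cnt_le (K := K) (cst g) (cst_pos g hg) S
    have h2 : ((∏ v ∈ S, Ideal.absNorm v.asIdeal ^ cnt (cst g) v : ℕ) : ℝ) ≤
        ((cst g ^ Module.finrank ℚ K : ℕ) : ℝ) := by exact_mod_cast this
    push_cast at h2
    refine le_trans (le_of_eq ?_) h2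
    exact Finset.prod_congr rfl (fun v _ => Real.rpow_natCast _ _)
  have hN : ∀ v : HeightOneSpectrum (𝓞 K), (1 : ℝ) ≤ (Ideal.absNorm v.asIdeal : ℝ) :=
    fun v => by exact_mod_cast one_le_absNorm v
  calc (DeltaC g f : ℝ)
      = ∏ v ∈ S, (Ideal.absNorm v.asIdeal : ℝ) ^ (discExp g f v : ℝ) := hD
    _ ≤ ∏ v ∈ S, ((Ideal.absNorm v.asIdeal : ℝ) ^ (cnt (cst g) v : ℝ) *
          (Ideal.absNorm v.asIdeal : ℝ) ^ ((2 * g + 1) * (g + 3)) *
          ((Ideal.absNorm v.asIdeal : ℝ) ^ stableExp g f v) ^ ((4 * g + 3) ^ 2)) := by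
        apply Finset.prod_le_prod
        · intro v _; positivity
        · intro v _
          have hpos : (0 : ℝ) < (Ideal.absNorm v.asIdeal : ℝ) := lt_of_lt_of_le one_pos (hN v)
          have h1 := local_real g hg f hf v
          rw [ord_eq_cnt (cst g) (cst_pos g hg)] at h1
          refine (Real.rpow_le_rpow_of_exponent_le (hN v) h1).trans (le_of_eq ?_)
          rw [Real.rpow_add hpos, Real.rpow_add hpos]
          have e1 : (Ideal.absNorm v.asIdeal : ℝ) ^ ((2 * g + 1) * (g + 3) : ℝ) =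
              (Ideal.absNorm v.asIdeal : ℝ) ^ ((2 * g + 1) * (g + 3)) := by
            rw [← Real.rpow_natCast]; push_cast; rfl
          have e2 : (Ideal.absNorm v.asIdeal : ℝ) ^ ((4 * g + 3) ^ 2 * stableExp g f v) =
              ((Ideal.absNorm v.asIdeal : ℝ) ^ stableExp g f v) ^ ((4 * g + 3) ^ 2) := by
            rw [← Real.rpow_natCast ((Ideal.absNorm v.asIdeal : ℝ) ^ stableExp g f v),
              ← Real.rpow_mul hpos.le, mul_comm]
            push_cast; rfl
          have e3 : (((cnt (cst g) v : ℕ) : ℤ) : ℝ) = (cnt (cst g) v : ℝ) := by push_cast; rfl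
          rw [e1, e2, e3]
          ring
    _ = (∏ v ∈ S, (Ideal.absNorm v.asIdeal : ℝ) ^ (cnt (cst g) v : ℝ)) *
          (MC g f : ℝ) ^ ((2 * g + 1) * (g + 3)) * stableDelta g f ^ ((4 * g + 3) ^ 2) := by
        rw [Finset.prod_mul_distrib, Finset.prod_mul_distrib, Finset.prod_pow, Finset.prod_pow,
          hM, hst]
    _ ≤ _ := by
        apply mul_le_mul_of_nonneg_right
        · apply mul_le_mul_of_nonneg_right hc
          positivity
        · apply pow_nonneg
          rw [hst]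
          exact Finset.prod_nonneg (fun v _ => by positivity)

end glob

end Pool.Agent.Lib.MP_ca2859_nt
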