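import Mathlib
import Pool.Agent.Lib.MP_ca2859_nt.Defs
import Pool.Agent.Lib.MP_ca2859_nt.Res
import Pool.Agent.Lib.MP_ca2859_nt.Local

open Polynomial WithZero

namespace Pool.Agent.Lib.MP_ca2859_nt

section good
variable {L : Type*} [Field L] {w : Valuation L ℤᵐ⁰}

theorem RR_lt_top {m : ℕ} (hm : 2 ≤ m) {F : L[X]} (hF : CB w 1 F) (hd : F.natDegree ≤ m)
    (h1 : w (F.coeff (m - 1)) < 1) (h2 : w (F.coeff m) < 1) : w (RR m F) < 1 := by
  rcases RR_le_max hm hF hd with h | h
  · exact lt_of_le_of_lt h h1
  · refine lt_of_le_of_lt h ?_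
    rw [map_mul]
    exact lt_of_le_of_lt (mul_le_of_le_one_left' (natCast_le_one w m)) h2

theorem w_unit (ε : ℤˣ) (x : L) : w (((ε : ℤ) : L) * x) = w x := by
  rcases Int.units_eq_one_or ε with h | h <;> simp [h, Valuation.map_neg]

theorem RR_lt_bot {m : ℕ} (hm : 2 ≤ m) {F : L[X]} (hF : CB w 1 F) (hd : F.natDegree ≤ m)
    (h1 : w (F.coeff 1) < 1) (h2 : w (F.coeff 0) < 1) : w (RR m F) < 1 := by
  obtain ⟨ε, hε⟩ := RR_reflect m (by omega) F hd
  have h3 := RR_lt_top (w := w) hm (hF.reflect m) (natDegree_reflect_le' m F hd)
    (by rw [coeff_reflect, revAt_le (by omega), show m - (m - 1) = 1 by omega]; exact h1)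
    (by rw [coeff_reflect, revAt_le le_rfl, Nat.sub_self]; exact h2)
  rwa [hε, w_unit] at h3

theorem unit_top {n : ℕ} (hn : 2 ≤ n) {H : L[X]} (hH : CB w 1 H) (hd : H.natDegree ≤ n)
    (hu : w (RR n H) = 1) : w (H.coeff n) = 1 ∨ w (H.coeff (n - 1)) = 1 := by
  rcases lt_or_eq_of_le (hH n) with h1 | h1
  · rcases lt_or_eq_of_le (hH (n - 1)) with h2 | h2
    · exact absurd hu (RR_lt_top hn hH hd h2 h1).ne
    · exact Or.inr h2
  · exact Or.inl h1

theorem unit_bot {n : ℕ} (hn : 2 ≤ n) {H : L[X]} (hH : CB w 1 H) (hd : H.natDegree ≤ n)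
    (hu : w (RR n H) = 1) : w (H.coeff 0) = 1 ∨ w (H.coeff 1) = 1 := by
  rcases lt_or_eq_of_le (hH 0) with h1 | h1
  · rcases lt_or_eq_of_le (hH 1) with h2 | h2
    · exact absurd hu (RR_lt_bot hn hH hd h2 h1).ne
    · exact Or.inr h2
  · exact Or.inl h1

/-- if the coefficients of index at least two are in the maximal ideal -/
theorem deriv_lt_of_high {n : ℕ} (hn : 4 ≤ n) {f : L[X]} (hf : CB w 1 f) (hfd : f.natDegree ≤ n)
    (h : ∀ i, 2 ≤ i → w (f.coeff i) < 1) : w (RR (n - 1) (derivative f)) < 1 := by
  apply RR_lt_top (by omega) hf.derivative (natDegree_deriv_le n f hfd)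
  · rw [coeff_derivative, map_mul]
    refine lt_of_le_of_lt (mul_le_of_le_one_right' ?_) (h _ (by omega))
    have := natCast_le_one w (n - 1 - 1 + 1)
    push_cast at this
    exact this
  · rw [coeff_derivative, map_mul]
    refine lt_of_le_of_lt (mul_le_of_le_one_right' ?_) (h _ (by omega))
    have := natCast_le_one w (n - 1 + 1)
    push_cast at this
    exact this

/-- if the coefficients of index one and two are in the maximal ideal -/
theorem deriv_lt_of_low {n : ℕ} (hn : 4 ≤ n) {f : L[X]} (hf : CB w 1 f) (hfd : f.natDegree ≤ n)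
    (h1 : w (f.coeff 1) < 1) (h2 : w (f.coeff 2) < 1) : w (RR (n - 1) (derivative f)) < 1 := by
  apply RR_lt_bot (by omega) hf.derivative (natDegree_deriv_le n f hfd)
  · rw [coeff_derivative, map_mul]
    refine lt_of_le_of_lt (mul_le_of_le_one_right' ?_) h2
    have h3 := natCast_le_one w 2
    norm_num at h3 ⊢
    exact h3
  · rw [coeff_derivative, map_mul]
    refine lt_of_le_of_lt (mul_le_of_le_one_right' ?_) h1
    simp

theorem comp_affine_coeff (c r s : L) (H : L[X]) (i : ℕ) :
    (C c * H.comp (C r * X + C s)).coeff i = c * (r ^ i * (taylor s H).coeff i) := by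
  rw [coeff_C_mul, comp_affine, comp_C_mul_X_coeff, mul_comm (r ^ i)]

/-- the case of an expanding substitution centred at an integral point -/
theorem good_expand {n : ℕ} (hn : 4 ≤ n) {f h : L[X]} (hf : CB w 1 f) (hfd : f.natDegree ≤ n)
    (hh : CB w 1 h) (hhd : h.natDegree ≤ n) (hu : w (RR n h) = 1) (c r : L) (hr : 1 < w r)
    (hfh : ∀ i, f.coeff i = c * (r ^ i * h.coeff i)) : w (RR (n - 1) (derivative f)) < 1 := by
  have hr0 : w r ≠ 0 := by
    intro h0; rw [h0] at hr; exact absurd hr (not_lt.2 zero_le)
  have key : ∀ m : ℕ, w (h.coeff m) = 1 → ∀ i, i < m → w (f.coeff i) < 1 := by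
    intro m hm i him
    have h1 := hf m
    rw [hfh, map_mul, map_mul, map_pow, hm, mul_one] at h1
    rw [hfh, map_mul, map_mul, map_pow]
    have h2 : w r ^ i < w r ^ m := pow_lt_pow_right₀ hr him
    rcases eq_or_ne (w c) 0 with hc | hc
    · rw [hc, zero_mul]; exact one_pos
    · calc w c * (w r ^ i * w (h.coeff i)) ≤ w c * (w r ^ i * 1) := by
            gcongr
            exact hh i
        _ = w c * w r ^ i := by rw [mul_one]
        _ < w c * w r ^ m := by
            apply mul_lt_mul_of_pos_left h2 (zero_lt_iff.2 hc)
        _ ≤ 1 := h1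
  rcases unit_top (by omega) hh hhd hu with h1 | h1
  · exact deriv_lt_of_low hn hf hfd (key n h1 1 (by omega)) (key n h1 2 (by omega))
  · exact deriv_lt_of_low hn hf hfd (key (n - 1) h1 1 (by omega)) (key (n - 1) h1 2 (by omega))

/-- bound for Taylor coefficients at a point outside the unit disc -/
theorem taylor_bound {n : ℕ} {H : L[X]} (hH : CB w 1 H) (hHd : H.natDegree ≤ n) {s : L}
    (hs : 1 < w s) {B : ℤᵐ⁰} (hB1 : w (H.coeff n) ≤ B) (hB2 : (w s)⁻¹ ≤ B) (i : ℕ) (hi : i ≤ n) :
    w ((taylor s H).coeff i) ≤ B * w s ^ (n - i) := by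
  have hs0 : w s ≠ 0 := by
    intro h0; rw [h0] at hs; exact absurd hs (not_lt.2 zero_le)
  rw [taylor_coeff, eval_eq_sum_range' (n := n + 1 - i)]
  · apply Valuation.map_sum_le
    intro j hj
    rw [Finset.mem_range] at hj
    rw [hasseDeriv_coeff, map_mul, map_mul, map_pow]
    have h1 : w (((j + i).choose i : ℕ) : L) ≤ 1 := natCast_le_one w _
    rcases eq_or_lt_of_le (show j + i ≤ n by omega) with h2 | h2
    · have h3 : n - i = j := by omega
      rw [h3, h2]
      have h4 := hB1
      rw [h2] at h1
      calc w ((n.choose i : ℕ) : L) * w (H.coeff n) * w s ^ j ≤ 1 * B * w s ^ j := by gcongr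
        _ = B * w s ^ j := by rw [one_mul]
    · calc w (((j + i).choose i : ℕ) : L) * w (H.coeff (j + i)) * w s ^ j ≤ 1 * 1 * w s ^ j := by
            gcongr
            exact hH _
        _ = w s ^ j := by rw [one_mul, one_mul]
        _ ≤ w s ^ (n - i - 1) := by
            apply pow_le_pow_right₀ hs.le
            omega
        _ = (w s)⁻¹ * w s ^ (n - i) := by
            obtain ⟨k, hk⟩ : ∃ k, n - i = k + 1 := ⟨n - i - 1, by omega⟩
            rw [hk, Nat.add_sub_cancel, pow_succ', ← mul_assoc, inv_mul_cancel₀ hs0, one_mul]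
        _ ≤ B * w s ^ (n - i) := by gcongr
  · have := natDegree_hasseDeriv_le H i
    omega

/-- the key local statement: if `f` is integral and becomes a form with unit discriminant after an
affine substitution, but has itself non-unit discriminant, then its derivative has non-unit
discriminant -/
theorem good_local {n : ℕ} (hn : 4 ≤ n) {f H : L[X]} (hf : CB w 1 f) (hfd : f.natDegree ≤ n)
    (hH : CB w 1 H) (hHd : H.natDegree ≤ n) (hu : w (RR n H) = 1) (c r s : L) (hc : c ≠ 0)
    (hr : r ≠ 0) (hfH : f = C c * H.comp (C r * X + C s)) (hR : w (RR n f) < 1) :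
    w (RR (n - 1) (derivative f)) < 1 := by
  have hwr0 : w r ≠ 0 := (Valuation.ne_zero_iff w).2 hr
  have hwc0 : w c ≠ 0 := (Valuation.ne_zero_iff w).2 hc
  have hcoef : ∀ i, f.coeff i = c * (r ^ i * (taylor s H).coeff i) := by
    intro i
    rw [hfH, comp_affine_coeff]
  rcases le_or_gt (w s) 1 with hs | hs
  · -- integral centre
    set h := taylor s H with hh
    have hhint : CB w 1 h := hH.taylor hs
    have hhd : h.natDegree ≤ n := by rw [hh, natDegree_taylor]; exact hHd
    have hhu : w (RR n h) = 1 := by rw [hh, RR_taylor n (by omega) s H hHd]; exact hu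
    rcases lt_trichotomy (w r) 1 with hr1 | hr1 | hr1
    · apply deriv_lt_of_high hn hf hfd
      intro i hi
      have hcr : w (c * r) ≤ 1 := by
        rcases unit_bot (by omega) hhint hhd hhu with h1 | h1
        · have h2 := hf 0
          rw [hcoef, map_mul, map_mul, h1, pow_zero, map_one, one_mul, mul_one] at h2
          rw [map_mul]
          exact mul_le_one' h2 hr1.le
        · have h2 := hf 1
          rw [hcoef, map_mul, map_mul, h1, pow_one, mul_one, ← map_mul] at h2
          exact h2
      obtain ⟨k, rfl⟩ : ∃ k, i = k + 2 := ⟨i - 2, by omega⟩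
      have e1 : c * (r ^ (k + 2) * h.coeff (k + 2)) = (c * r) * r * (r ^ k * h.coeff (k + 2)) := by
        ring
      rw [hcoef, e1, map_mul, map_mul, map_mul w (r ^ k), map_pow]
      have h3 : w r ^ k * w (h.coeff (k + 2)) ≤ 1 :=
        mul_le_one' (pow_le_one' hr1.le k) (hhint _)
      calc w (c * r) * w r * (w r ^ k * w (h.coeff (k + 2))) ≤ w (c * r) * w r * 1 := by gcongr
        _ = w (c * r) * w r := mul_one _
        _ ≤ 1 * w r := by gcongr
        _ = w r := one_mul _
        _ < 1 := hr1
    · -- `r` is a unit: `c` is not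
      have h1 : RR n f = c ^ (2 * (n - 1)) * (r ^ (n * (n - 1)) * RR n h) := by
        rw [hfH, RR_C_mul, comp_affine, RR_dilate n (by omega) r hr]
      rw [h1, map_mul, map_mul, map_pow, map_pow, hr1, one_pow, one_mul, hhu, mul_one] at hR
      have hc1 : w c < 1 := by
        by_contra hcon
        exact absurd hR (not_lt.2 (one_le_pow₀ (not_lt.1 hcon)))
      apply deriv_lt_of_high hn hf hfd
      intro i _
      rw [hcoef, map_mul, map_mul, map_pow, hr1, one_pow, one_mul]
      exact lt_of_le_of_lt (mul_le_of_le_one_right' (hhint _)) hc1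
    · exact good_expand hn hf hfd hhint hhd hhu c r hr1 hcoef
  · have hws0 : w s ≠ 0 := by
      intro h0; rw [h0] at hs; exact absurd hs (not_lt.2 zero_le)
    have hs0 : s ≠ 0 := (Valuation.ne_zero_iff w).1 hws0
    rcases le_or_gt (w s) (w r) with hsr | hsr
    · -- translate
      have hr1 : 1 < w r := lt_of_lt_of_le hs hsr
      set s' := s / r with hs'
      have hs'1 : w s' ≤ 1 := by
        rw [hs', map_div₀]
        exact div_le_one_of_le₀ hsr zero_le
      have hs'1' : w (-s') ≤ 1 := by rwa [Valuation.map_neg]
      have h1 : taylor (-s') f = C c * H.comp (C r * X) := by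
        rw [hfH, taylor_apply, mul_comp, C_comp, comp_assoc]
        congr 2
        simp only [add_comp, mul_comp, C_comp, X_comp]
        rw [mul_add, ← C_mul, add_assoc, ← C_add]
        have : r * -s' + s = 0 := by rw [hs']; field_simp; ring
        rw [this, C_0, add_zero]
      have h2 : RR (n - 1) (derivative (taylor (-s') f)) = RR (n - 1) (derivative f) := by
        have h3 : derivative (taylor (-s') f) = taylor (-s') (derivative f) := by
          simp [taylor_apply, derivative_comp]
        rw [h3, RR_taylor (n - 1) (by omega) _ _ (natDegree_deriv_le n f hfd)]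
      rw [← h2]
      apply good_expand hn (hf.taylor hs'1') (by rw [natDegree_taylor]; exact hfd) hH hHd hu c r hr1
      intro i
      rw [h1, coeff_C_mul, comp_C_mul_X_coeff, mul_comm (r ^ i)]
    · -- far away centre, small radius
      set K := reflect n H with hK
      set t := s⁻¹ with ht
      have ht1 : w t < 1 := by
        rw [ht, map_inv₀]
        exact inv_lt_one_of_one_lt₀ hs
      have hKint : CB w 1 K := hH.reflect n
      have hKd : K.natDegree ≤ n := natDegree_reflect_le' n H hHd
      have hKu : w (RR n K) = 1 := by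
        obtain ⟨ε, hε⟩ := RR_reflect n (by omega) H hHd
        rw [hK, hε, w_unit, hu]
      have hk0 : K.eval t = t ^ n * H.eval s := by
        rw [hK, eval_reflect n H hHd t (inv_ne_zero hs0), ht, inv_inv]
      have hk1 : (derivative K).eval t = t ^ (n - 1) * (n * H.eval s - s * (derivative H).eval s) := by
        rw [hK, deriv_reflect n (by omega) H hHd,
          eval_reflect (n - 1) _ (natDegree_second_le n (by omega) H hHd) t (inv_ne_zero hs0), ht,
          inv_inv]
        simp
      have hT0 : (taylor s H).coeff 0 = s ^ n * K.eval t := by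
        rw [taylor_coeff_zero, hk0, ht, inv_pow, ← mul_assoc, mul_inv_cancel₀ (pow_ne_zero _ hs0),
          one_mul]
      have hT1 : (taylor s H).coeff 1 = s ^ (n - 1) * (n * K.eval t - t * (derivative K).eval t) := by
        rw [taylor_coeff_one, hk0, hk1]
        have hst : s * t = 1 := by rw [ht, mul_inv_cancel₀ hs0]
        obtain ⟨k, hk⟩ : ∃ k, n = k + 1 := ⟨n - 1, by omega⟩
        have hst' : s ^ (k + 1) * t ^ (k + 1) = 1 := by rw [← mul_pow, hst, one_pow]
        rw [hk, Nat.add_sub_cancel]
        linear_combination (-(eval s (derivative H))) * hst'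
      have hu0 := unit_bot (w := w) (n := n) (by omega) (hKint.taylor ht1.le)
        (by rw [natDegree_taylor]; exact hKd) (by rw [RR_taylor n (by omega) t K hKd]; exact hKu)
      rw [taylor_coeff_zero, taylor_coeff_one] at hu0
      set ε := w r * w t with hε
      have hε1 : ε < 1 := by
        rw [hε, ht, map_inv₀, ← div_eq_mul_inv]
        exact (div_lt_one₀ (zero_lt_iff.2 hws0)).2 hsr
      have hKt : w (K.eval t) ≤ 1 := by
        have := (hKint.taylor ht1.le) 0
        rwa [taylor_coeff_zero] at this
      -- a bound for the top coefficient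
      have htop : w (H.coeff n) ≤ max (w (K.eval t)) (w t) := by
        have h1 : H.coeff n = K.coeff 0 := by
          rw [hK, coeff_reflect, revAt_le (Nat.zero_le _), Nat.sub_zero]
        have h2 : K.coeff 0 = K.eval t - t * (divX K).eval t := by
          have h3 := congrArg (eval t) (divX_mul_X_add K)
          simp only [eval_add, eval_mul, eval_X, eval_C] at h3
          linear_combination h3
        rw [h1, h2]
        have hdx : w ((divX K).eval t) ≤ 1 := by
          rw [eval_eq_sum_range]
          apply Valuation.map_sum_le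
          intro j _
          rw [map_mul, map_pow, coeff_divX]
          exact mul_le_one' (hKint _) (pow_le_one' ht1.le _)
        refine (Valuation.map_sub _ _ _).trans ?_
        apply max_le_max le_rfl
        rw [map_mul]
        exact mul_le_of_le_one_right' hdx
      set B := max (w (K.eval t)) (w t) with hB
      have hbound : ∀ i, i ≤ n → w (f.coeff i) ≤ w c * w s ^ n * ε ^ i * B := by
        intro i hi
        have h1 := taylor_bound hH hHd hs htop (by
          rw [hB, ← map_inv₀]; exact le_max_right _ _) i hi
        rw [hcoef, map_mul, map_mul, map_pow]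
        calc w c * (w r ^ i * w ((taylor s H).coeff i)) ≤ w c * (w r ^ i * (B * w s ^ (n - i))) := by
              gcongr
          _ = w c * w s ^ n * ε ^ i * B := by
              rw [hε, ht, map_inv₀, mul_pow, inv_pow]
              have h2 : w s ^ n = w s ^ (n - i) * w s ^ i := by
                rw [← pow_add]; congr 1; omega
              rw [h2]
              have h3 : w s ^ i ≠ 0 := pow_ne_zero _ hws0
              calc w c * (w r ^ i * (B * w s ^ (n - i)))
                  = w c * (w s ^ (n - i) * (w s ^ i * (w s ^ i)⁻¹)) * w r ^ i * B := by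
                    rw [mul_inv_cancel₀ h3, mul_one]
                    simp only [mul_comm, mul_left_comm, mul_assoc]
                _ = w c * (w s ^ (n - i) * w s ^ i) * (w r ^ i * (w s ^ i)⁻¹) * B := by
                    simp only [mul_comm, mul_left_comm, mul_assoc]
      have ha0 : w c * w s ^ n * w (K.eval t) ≤ 1 := by
        have h1 := hf 0
        rw [hcoef, hT0, pow_zero, one_mul, map_mul, map_mul, map_pow, ← mul_assoc] at h1
        exact h1
      -- the key inequality
      have hkey : w c * w s ^ n * ε * B ≤ 1 := by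
        rcases hu0 with h1 | h1
        · rw [h1, mul_one] at ha0
          calc w c * w s ^ n * ε * B ≤ 1 * 1 * 1 := by
                gcongr
                rw [hB]
                exact max_le hKt ht1.le
            _ = 1 := by simp
        · rcases le_or_gt (w t) (w (K.eval t)) with h2 | h2
          · rw [hB, max_eq_left h2]
            calc w c * w s ^ n * ε * w (K.eval t) = ε * (w c * w s ^ n * w (K.eval t)) := by
                  simp only [mul_comm, mul_left_comm, mul_assoc]
              _ ≤ 1 * 1 := by gcongr
              _ = 1 := one_mul _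
          · rw [hB, max_eq_right h2.le]
            have h3 : w ((n : L) * K.eval t - t * (derivative K).eval t) = w t := by
              have h4 : w (t * (derivative K).eval t) = w t := by rw [map_mul, h1, mul_one]
              have h5 : w ((n : L) * K.eval t) < w (t * (derivative K).eval t) := by
                rw [h4, map_mul]
                exact lt_of_le_of_lt (mul_le_of_le_one_left' (natCast_le_one w n)) h2
              rw [Valuation.map_sub_eq_of_lt_right _ h5, h4]
            have h6 := hf 1
            rw [hcoef, hT1, pow_one, map_mul, map_mul, map_mul w (s ^ (n - 1)), h3, map_pow] at h6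
            refine le_trans (le_of_eq ?_) h6
            rw [hε]
            have h7 : w s ^ n * w t = w s ^ (n - 1) := by
              rw [ht, map_inv₀]
              obtain ⟨k, rfl⟩ : ∃ k, n = k + 1 := ⟨n - 1, by omega⟩
              rw [Nat.add_sub_cancel, pow_succ, mul_assoc, mul_inv_cancel₀ hws0, mul_one]
            calc w c * w s ^ n * (w r * w t) * w t = w c * (w r * ((w s ^ n * w t) * w t)) := by
                  simp only [mul_comm, mul_left_comm, mul_assoc]
              _ = _ := by rw [h7]
      apply deriv_lt_of_high hn hf hfd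
      intro i hi
      rcases le_or_gt i n with hin | hin
      · refine lt_of_le_of_lt (hbound i hin) ?_
        obtain ⟨k, rfl⟩ : ∃ k, i = k + 2 := ⟨i - 2, by omega⟩
        calc w c * w s ^ n * ε ^ (k + 2) * B = (w c * w s ^ n * ε * B) * ε ^ k * ε := by
              rw [pow_add, pow_two]
              simp only [mul_comm, mul_left_comm, mul_assoc]
          _ ≤ 1 * 1 * ε := by
              gcongr
              exact pow_le_one' hε1.le k
          _ = ε := by simp
          _ < 1 := hε1
      · rw [coeff_eq_zero_of_natDegree_lt (lt_of_le_of_lt hfd hin), map_zero]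
        exact one_pos

end good

end Pool.Agent.Lib.MP_ca2859_nt
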