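import Mathlib
import Pool.Agent.Lib.MP_ca2859_nt.Good
import Pool.Agent.Lib.MP_ca2859_nt.Global

open Polynomial WithZero IsDedekindDomain NumberField

namespace Pool.Agent.Lib.MP_ca2859_nt

section local2
variable {F : Type*} [Field F] [CharZero F]

/-- At a place not dividing `2 n`, a separable integral form with non-unit discriminant whose
derivative has unit discriminant has bad reduction. -/
theorem bad_local (v : Valuation F ℤᵐ⁰) (π : F) (hπ : v π = exp (-1 : ℤ)) (g : ℕ) (hg : 1 ≤ g)
    (f : F[X]) (hf : IsHyperelliptic g f) (hint : CB v 1 f)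
    (h2 : v (2 : F) = 1) (hn : v ((2 * g + 2 : ℕ) : F) = 1)
    (hR : v (RR (2 * g + 2) f) < 1) (hE : v (RR (2 * g + 1) (derivative f)) = 1) :
    minDiscExp v g f ≠ 0 := by
  intro h0
  obtain ⟨P, Q, hm, hk⟩ := minDiscExp_spec v π hπ g hg f hf
  rw [h0, Nat.cast_zero, neg_zero, exp_zero] at hk
  set n := 2 * g + 2 with hn'
  set h := f0 P Q with hh
  have hhd : h.natDegree ≤ n := by rcases hm.deg0 with h1 | h1 <;> rw [hh] <;> omega
  have hint4 : CB v 1 (C 4 * h) := by
    have h1 : C (4 : F) * h = C ((4 : ℕ) : F) * P + Q ^ 2 := by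
      rw [hh, f0, mul_add, ← mul_assoc, ← C_mul]
      norm_num
    rw [h1]
    have h2 := (CB_C (natCast_le_one v 4)).mul (show CB v 1 P from hm.intP)
    have h3 := CB.pow (show CB v 1 Q from hm.intQ) 2
    rw [mul_one] at h2
    rw [one_pow] at h3
    exact h2.add h3
  have hRh : v (RR n h) = 1 := by
    obtain ⟨ε, hε⟩ := RR_eqDisc g hg h hm.deg0
    have h1 := congrArg v hε
    rw [w_unit, map_mul, map_mul, map_pow, map_pow, h2, ← hn', hn, hk] at h1
    simpa using h1
  obtain ⟨c, α, ρ, H, hc, hρ, hH, hHint, ε, hε⟩ :=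
    exists_affine (w := v) g f h hhd hm.same hint4
  rw [← hn'] at hε
  have hv4 : v (4 : F) = 1 := by
    have : (4 : F) = 2 * 2 := by norm_num
    rw [this, map_mul, h2, mul_one]
  have hRH : v (RR n H) = 1 := by
    rw [hε, w_unit, RR_C_mul, map_mul, map_pow, hv4, one_pow, one_mul, hRh]
  have hfd : f.natDegree ≤ n := by rcases hf.2 with h1 | h1 <;> omega
  have hHd : H.natDegree ≤ n := by
    rw [hH]
    refine (natDegree_C_mul_le _ _).trans (natDegree_comp_le.trans ?_)
    calc f.natDegree * (C ρ * X + C α).natDegree ≤ n * 1 :=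
          Nat.mul_le_mul hfd (natDegree_linear_le)
      _ = n := mul_one n
  have hfH : f = C c⁻¹ * H.comp (C ρ⁻¹ * X + C (-α / ρ)) := by
    have h1 : (C ρ * X + C α : F[X]).comp (C ρ⁻¹ * X + C (-α / ρ)) = X := by
      simp only [add_comp, mul_comp, C_comp, X_comp]
      rw [mul_add, ← mul_assoc, ← C_mul, ← C_mul, add_assoc, ← C_add, mul_inv_cancel₀ hρ]
      have : ρ * (-α / ρ) + α = 0 := by field_simp; ring
      rw [this, C_0, add_zero, C_1, one_mul]
    rw [hH, mul_comp, C_comp, comp_assoc, h1, comp_X, ← mul_assoc, ← C_mul, inv_mul_cancel₀ hc,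
      C_1, one_mul]
  have key := good_local (w := v) (n := n) (by omega) hint hfd hHint hHd hRH c⁻¹ ρ⁻¹ (-α / ρ)
    (inv_ne_zero hc) (inv_ne_zero hρ) hfH hR
  rw [show n - 1 = 2 * g + 1 by omega, hE] at key
  exact lt_irrefl _ key

/-- separability from the discriminant -/
theorem hyper_of_RR (g : ℕ) (f : F[X]) (hfd : f.natDegree = 2 * g + 2)
    (hR : RR (2 * g + 2) f ≠ 0) : IsHyperelliptic g f := by
  refine ⟨?_, Or.inr hfd⟩
  obtain ⟨ε, hε⟩ := RR_eq_discr_of_natDegree_eq (2 * g + 2) (by omega) f hfd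
  have hd : f.discr ≠ 0 := by
    intro h0; rw [h0, mul_zero, mul_zero] at hε; exact hR hε
  have hd0 : 0 < f.degree := by
    rw [← natDegree_pos_iff_degree_pos]; omega
  have hf0 : f ≠ 0 := by rintro rfl; simp at hd0
  have hder : (derivative f).natDegree = f.natDegree - 1 := by
    have := degree_derivative (p := f) (by omega)
    exact natDegree_eq_of_degree_eq_some this
  have h1 := resultant_deriv hd0
  have h2 : resultant f (derivative f) ≠ 0 := by
    rw [hder, h1]
    exact mul_ne_zero (mul_ne_zero (pow_ne_zero _ (by norm_num)) (leadingCoeff_ne_zero.2 hf0)) hd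
  rw [Ne, resultant_eq_zero_iff] at h2
  rw [separable_def]
  by_contra hcop
  exact h2 ⟨Or.inl hf0, hcop⟩

/-- The number of constants `x` with a given discriminant of `F + x`. -/
theorem RR_shift_card (n : ℕ) (hn : 2 ≤ n) (f : F[X]) (hfd : f.natDegree ≤ n)
    (hc : f.coeff n ≠ 0) (D : F) (S : Finset F) (hS : ∀ x ∈ S, RR n (f + C x) = D) :
    S.card ≤ n - 1 := by
  classical
  let A := AlgebraicClosure F
  let φ : F →+* A := algebraMap F A
  have hφ : Function.Injective φ := φ.injective
  have : CharZero A := charZero_of_injective_algebraMap hφ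
  set f' := (derivative f).map φ with hf'
  have hn0 : (n : F) ≠ 0 := by rw [Nat.cast_ne_zero]; omega
  have hcf' : (derivative f).coeff (n - 1) = f.coeff n * n := by
    rw [coeff_derivative, show n - 1 + 1 = n by omega]
    have h5 : ((n - 1 : ℕ) : F) + 1 = n := by
      have h := (Nat.cast_add (R := F) (n - 1) 1).symm
      rwa [Nat.cast_one, show n - 1 + 1 = n by omega] at h
    rw [h5]
  have hdd : (derivative f).natDegree = n - 1 := by
    apply le_antisymm (natDegree_deriv_le n f hfd)
    apply le_natDegree_of_ne_zero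
    rw [hcf']
    exact mul_ne_zero hc hn0
  have hf'd : f'.natDegree = n - 1 := by rw [hf', natDegree_map, hdd]
  have hf'0 : f' ≠ 0 := by
    intro h0
    rw [h0, natDegree_zero] at hf'd
    omega
  have hlead : f'.leadingCoeff ≠ 0 := leadingCoeff_ne_zero.2 hf'0
  have hsplits : f'.Splits := IsAlgClosed.splits _
  have hcard : f'.roots.card = n - 1 := by rw [← hsplits.natDegree_eq_card_roots, hf'd]
  -- the polynomial
  set Φ : A[X] := C (f'.leadingCoeff ^ (n - 1)) *
    (f'.roots.map (fun ρ => C ((n : ℕ) : A) * (X + C ((f.map φ).eval ρ)))).prod with hΦ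
  have hnA : ((n : ℕ) : A) ≠ 0 := by rw [Nat.cast_ne_zero]; omega
  have hfac : ∀ ρ : A, (C ((n : ℕ) : A) * (X + C ((f.map φ).eval ρ))).natDegree = 1 := by
    intro ρ
    rw [natDegree_C_mul hnA, natDegree_X_add_C]
  have hΦd : Φ.natDegree = n - 1 := by
    rw [hΦ, natDegree_C_mul (pow_ne_zero _ hlead), natDegree_multiset_prod]
    · rw [Multiset.map_map]
      simp only [Function.comp_def, hfac]
      rw [Multiset.map_const', Multiset.sum_replicate, smul_eq_mul, mul_one, hcard]
    · intro h0
      rw [Multiset.mem_map] at h0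
      obtain ⟨ρ, -, hρ⟩ := h0
      have := hfac ρ
      rw [hρ, natDegree_zero] at this
      omega
  have hev : ∀ x : F, Φ.eval (φ x) = φ (RR n (f + C x)) := by
    intro x
    rw [← RR_map, RR]
    have h1 : derivative ((f + C x).map φ) = f' := by
      rw [hf', derivative_map, derivative_add, derivative_C, add_zero]
    rw [h1]
    have h2 : (C ((n : ℕ) : A) * (f + C x).map φ - X * f').natDegree ≤ n - 1 := by
      rw [← h1]
      apply natDegree_second_le n (by omega)
      rw [natDegree_map]
      refine (natDegree_add_le _ _).trans ?_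
      simp [hfd]
    have h3 := resultant_eq_prod_eval f' (C ((n : ℕ) : A) * (f + C x).map φ - X * f') (n - 1) h2 hsplits
    rw [hf'd] at h3
    rw [h3, hΦ, eval_mul, eval_C, eval_multiset_prod, Multiset.map_map]
    congr 2
    apply Multiset.map_congr rfl
    intro ρ hρ
    have h4 : f'.eval ρ = 0 := (mem_roots'.1 hρ).2
    simp only [Function.comp_apply, eval_sub, eval_mul, eval_C, eval_X, h4, mul_zero, sub_zero,
      Polynomial.map_add, map_C, eval_add]
    ring
  set Ψ := Φ - C (φ D) with hΨ
  have hΨd : Ψ.natDegree = n - 1 := by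
    rw [hΨ, natDegree_sub_C, hΦd]
  have hΨ0 : Ψ ≠ 0 := by
    intro h0
    rw [h0, natDegree_zero] at hΨd
    omega
  have hsub : S.image φ ⊆ Ψ.roots.toFinset := by
    intro y hy
    rw [Finset.mem_image] at hy
    obtain ⟨x, hx, rfl⟩ := hy
    rw [Multiset.mem_toFinset, mem_roots hΨ0, IsRoot, hΨ, eval_sub, hev, eval_C, hS x hx, sub_self]
  calc S.card = (S.image φ).card := (Finset.card_image_of_injective _ hφ).symm
    _ ≤ Ψ.roots.toFinset.card := Finset.card_le_card hsub
    _ ≤ Ψ.roots.card := Multiset.toFinset_card_le _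
    _ ≤ Ψ.natDegree := card_roots' _
    _ = n - 1 := hΨd

end local2

end Pool.Agent.Lib.MP_ca2859_nt
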