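import Mathlib
import Pool.Agent.Lib.MP_ca2859_nt.Global

open Polynomial WithZero IsDedekindDomain NumberField

namespace Pool.Agent.Lib.MP_ca2859_nt

section
variable {K : Type} [Field K] [NumberField K]

theorem two_le_absNorm (v : HeightOneSpectrum (𝓞 K)) : 2 ≤ Ideal.absNorm v.asIdeal := by
  have h1 := one_le_absNorm v
  have h2 : Ideal.absNorm v.asIdeal ≠ 1 := by
    intro h
    rw [Ideal.absNorm_eq_one_iff] at h
    exact v.isPrime.ne_top h
  omega

theorem one_le_cnt (c : ℕ) (hc : 0 < c) (v : HeightOneSpectrum (𝓞 K))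
    (hv : (c : 𝓞 K) ∈ v.asIdeal) : 1 ≤ cnt c v := by
  have hc0 : ((c : ℕ) : K) ≠ 0 := by exact_mod_cast hc.ne'
  have h1 := ord_eq_cnt c hc v
  have h2 : v.valuation K ((c : ℕ) : K) < 1 := by
    have h3 : ((c : ℕ) : K) = algebraMap (𝓞 K) K ((c : ℕ) : 𝓞 K) := by simp
    rw [h3, HeightOneSpectrum.valuation_lt_one_iff_mem]
    exact hv
  have h3 : 1 ≤ ord (v.valuation K) ((c : ℕ) : K) := by
    rw [w_eq_exp (w := v.valuation K) hc0, ← exp_zero, exp_lt_exp] at h2
    omega
  rw [h1] at h3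
  exact_mod_cast h3

theorem prod_primes_le (F : ℕ) (hF : 0 < F) (T : Finset (HeightOneSpectrum (𝓞 K)))
    (hT : ∀ v ∈ T, (F : 𝓞 K) ∈ v.asIdeal) :
    ∏ v ∈ T, Ideal.absNorm v.asIdeal ≤ F ^ Module.finrank ℚ K := by
  refine le_trans ?_ (prod_cnt_le F hF T)
  apply Finset.prod_le_prod'
  intro v hv
  calc Ideal.absNorm v.asIdeal = Ideal.absNorm v.asIdeal ^ 1 := (pow_one _).symm
    _ ≤ Ideal.absNorm v.asIdeal ^ cnt F v :=
        Nat.pow_le_pow_right (by have := one_le_absNorm v; omega) (one_le_cnt F hF v (hT v hv))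

theorem finite_small (B : ℕ) :
    {v : HeightOneSpectrum (𝓞 K) | Ideal.absNorm v.asIdeal ≤ B}.Finite := by
  have h1 := Ideal.finite_setOfPred_absNorm_le (S := 𝓞 K) B
  refine Set.Finite.of_finite_image (f := fun v : HeightOneSpectrum (𝓞 K) => v.asIdeal)
    (h1.subset ?_) ?_
  · rintro _ ⟨v, hv, rfl⟩
    exact hv
  · intro v _ w _ h
    exact HeightOneSpectrum.ext h

variable (K) in
/-- Counting valuation vectors supported on the divisors of `F`. -/
theorem vec_count (ε : ℝ) (hε : 0 < ε) : ∃ C : ℝ, 0 < C ∧ ∀ F : ℕ, 0 < F → ∀ X : ℝ, 1 ≤ X →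
    ∀ (T : Finset (HeightOneSpectrum (𝓞 K))), (∀ v ∈ T, (F : 𝓞 K) ∈ v.asIdeal) →
    ∀ A : Finset (HeightOneSpectrum (𝓞 K) → ℕ), (∀ k ∈ A, ∀ v, v ∉ T → k v = 0) →
    (∀ k ∈ A, ((∏ v ∈ T, Ideal.absNorm v.asIdeal ^ k v : ℕ) : ℝ) ≤ X) →
    (A.card : ℝ) ≤ C * X ^ ε * (F : ℝ) ^ ε := by
  classical
  set d := Module.finrank ℚ K with hd
  have hd1 : 1 ≤ d := Module.finrank_pos
  have hd0 : (0:ℝ) < d := by exact_mod_cast hd1
  set Λ : ℝ := 1 / (1 - (2:ℝ) ^ (-ε)) with hΛ
  have h2ε : (2:ℝ) ^ (-ε) < 1 := Real.rpow_lt_one_of_one_lt_of_neg (by norm_num) (by linarith)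
  have h2ε0 : 0 < (2:ℝ) ^ (-ε) := by positivity
  have hΛ1 : 1 ≤ Λ := by
    rw [hΛ, le_div_iff₀ (by linarith)]
    linarith
  set B₀ : ℕ := ⌈(2:ℝ) ^ ((d:ℝ) / ε)⌉₊ with hB₀
  set S₀ := (finite_small (K := K) B₀).toFinset with hS₀
  refine ⟨Λ ^ S₀.card, by positivity, ?_⟩
  intro F hF X hX T hT A hA1 hA2
  have hX0 : 0 < X := by linarith
  set N : HeightOneSpectrum (𝓞 K) → ℝ := fun v => (Ideal.absNorm v.asIdeal : ℝ) with hN
  have hN2 : ∀ v, 2 ≤ N v := fun v => by
    simp only [hN]; exact_mod_cast two_le_absNorm v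
  have hN0 : ∀ v, 0 < N v := fun v => by linarith [hN2 v]
  set a : HeightOneSpectrum (𝓞 K) → ℝ := fun v => N v ^ (-ε) with ha
  have ha0 : ∀ v, 0 < a v := fun v => Real.rpow_pos_of_pos (hN0 v) _
  have ha2 : ∀ v, a v ≤ (2:ℝ) ^ (-ε) := fun v =>
    Real.rpow_le_rpow_of_nonpos (by norm_num) (hN2 v) (by linarith)
  have ha1 : ∀ v, a v < 1 := fun v => lt_of_le_of_lt (ha2 v) h2ε
  -- each vector has weight at least `X ^ (-ε)`
  have hw : ∀ k ∈ A, X ^ (-ε) ≤ ∏ v ∈ T, a v ^ k v := by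
    intro k hk
    have h1 : ∏ v ∈ T, a v ^ k v = (∏ v ∈ T, N v ^ k v) ^ (-ε) := by
      rw [← Real.finsetProd_rpow _ _ (fun v _ => by have := hN0 v; positivity)]
      apply Finset.prod_congr rfl
      intro v _
      simp only [ha]
      rw [← Real.rpow_natCast, ← Real.rpow_natCast, ← Real.rpow_mul (hN0 v).le,
        ← Real.rpow_mul (hN0 v).le, mul_comm]
    rw [h1]
    apply Real.rpow_le_rpow_of_nonpos
    · exact Finset.prod_pos fun v _ => by have := hN0 v; positivity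
    · have := hA2 k hk
      push_cast at this
      exact this
    · linarith
  -- bound on the entries
  obtain ⟨L, hL⟩ : ∃ L : ℕ, ∀ k ∈ A, ∀ v ∈ T, k v ≤ L := by
    refine ⟨∑ k ∈ A, ∑ v ∈ T, k v, fun k hk v hv => ?_⟩
    calc k v ≤ ∑ v ∈ T, k v := Finset.single_le_sum (f := fun v => k v) (fun _ _ => Nat.zero_le _) hv
      _ ≤ ∑ k ∈ A, ∑ v ∈ T, k v :=
          Finset.single_le_sum (f := fun k => ∑ v ∈ T, k v) (fun _ _ => Nat.zero_le _) hk
  have hsum : ∑ k ∈ A, ∏ v ∈ T, a v ^ k v ≤ ∏ v ∈ T, ∑ j ∈ Finset.range (L + 1), a v ^ j := by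
    rw [Finset.prod_sum]
    set ι : (HeightOneSpectrum (𝓞 K) → ℕ) → (∀ v ∈ T, ℕ) := fun k v _ => k v with hι
    have hinj : Set.InjOn ι A := by
      intro k hk k' hk' hkk
      funext v
      by_cases hv : v ∈ T
      · exact congrFun (congrFun hkk v) hv
      · rw [hA1 k hk v hv, hA1 k' hk' v hv]
    have h1 : ∑ k ∈ A, ∏ v ∈ T, a v ^ k v =
        ∑ p ∈ A.image ι, ∏ x ∈ T.attach, a x.1 ^ p x.1 x.2 := by
      rw [Finset.sum_image hinj]
      apply Finset.sum_congr rfl
      intro k _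
      rw [← Finset.prod_attach T]
    rw [h1]
    apply Finset.sum_le_sum_of_subset_of_nonneg
    · intro p hp
      obtain ⟨k, hk, rfl⟩ := Finset.mem_image.1 hp
      rw [Finset.mem_pi]
      intro v hv
      rw [Finset.mem_range]
      have := hL k hk v hv
      simp only [hι]
      omega
    · intro p _ _
      exact Finset.prod_nonneg fun x _ => by have := ha0 x.1; positivity
  have hgeo : ∀ v, ∑ j ∈ Finset.range (L + 1), a v ^ j ≤ 1 / (1 - a v) := by
    intro v
    have h1 : (1 - a v) * ∑ j ∈ Finset.range (L + 1), a v ^ j = 1 - a v ^ (L + 1) := by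
      rw [mul_comm]
      exact geom_sum_mul_neg (a v) (L + 1)
    have h2 : 0 < 1 - a v := by linarith [ha1 v]
    rw [le_div_iff₀ h2, mul_comm, h1]
    have : 0 ≤ a v ^ (L + 1) := by have := ha0 v; positivity
    linarith
  have hfac : ∀ v, 1 / (1 - a v) ≤ (if v ∈ S₀ then Λ else 1) * N v ^ (ε / d) := by
    intro v
    have h2 : 0 < 1 - a v := by linarith [ha1 v]
    have hone : 1 ≤ N v ^ (ε / d) := Real.one_le_rpow (by linarith [hN2 v]) (by positivity)
    split_ifs with hv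
    · have h3 : 1 / (1 - a v) ≤ Λ := by
        rw [hΛ]
        apply one_div_le_one_div_of_le (by linarith)
        linarith [ha2 v]
      calc 1 / (1 - a v) ≤ Λ := h3
        _ = Λ * 1 := (mul_one _).symm
        _ ≤ Λ * N v ^ (ε / d) := by gcongr
    · have hbig : (2:ℝ) ^ ((d:ℝ) / ε) ≤ N v := by
        rw [hS₀, Set.Finite.mem_toFinset] at hv
        have h3 : B₀ < Ideal.absNorm v.asIdeal := by
          by_contra hcon
          exact hv (not_lt.1 hcon)
        have h4 : (B₀ : ℝ) ≤ N v := by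
          simp only [hN]; exact_mod_cast h3.le
        exact (Nat.le_ceil _).trans h4
      have h5 : (2:ℝ) ≤ N v ^ (ε / d) := by
        calc (2:ℝ) = ((2:ℝ) ^ ((d:ℝ) / ε)) ^ (ε / d) := by
              rw [← Real.rpow_mul (by norm_num)]
              have : (d:ℝ) / ε * (ε / d) = 1 := by field_simp
              rw [this, Real.rpow_one]
          _ ≤ N v ^ (ε / d) := by
              apply Real.rpow_le_rpow (by positivity) hbig (by positivity)
      have h6 : a v ≤ 1 / 2 := by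
        simp only [ha]
        rw [Real.rpow_neg (hN0 v).le, ← one_div]
        apply one_div_le_one_div_of_le (by norm_num)
        refine h5.trans ?_
        apply Real.rpow_le_rpow_of_exponent_le (by linarith [hN2 v])
        rw [div_le_iff₀ hd0]
        have : (1:ℝ) ≤ d := by exact_mod_cast hd1
        nlinarith
      rw [one_mul]
      refine le_trans ?_ h5
      rw [div_le_iff₀ h2]
      linarith
  have hprod : ∏ v ∈ T, ∑ j ∈ Finset.range (L + 1), a v ^ j ≤ Λ ^ S₀.card * (F : ℝ) ^ ε := by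
    calc ∏ v ∈ T, ∑ j ∈ Finset.range (L + 1), a v ^ j
        ≤ ∏ v ∈ T, ((if v ∈ S₀ then Λ else 1) * N v ^ (ε / d)) := by
          apply Finset.prod_le_prod
          · intro v _
            exact Finset.sum_nonneg fun j _ => by have := ha0 v; positivity
          · intro v _
            exact (hgeo v).trans (hfac v)
      _ = (∏ v ∈ T, (if v ∈ S₀ then Λ else 1)) * ∏ v ∈ T, N v ^ (ε / d) := Finset.prod_mul_distrib
      _ ≤ Λ ^ S₀.card * (F : ℝ) ^ ε := by
          have h1 : ∏ v ∈ T, (if v ∈ S₀ then Λ else 1) ≤ Λ ^ S₀.card := by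
            rw [Finset.prod_ite, Finset.prod_const_one, mul_one, Finset.prod_const]
            apply pow_le_pow_right₀ hΛ1
            apply Finset.card_le_card
            intro v hv
            exact (Finset.mem_filter.1 hv).2
          have h2 : ∏ v ∈ T, N v ^ (ε / d) ≤ (F : ℝ) ^ ε := by
            rw [Real.finsetProd_rpow _ _ (fun v _ => (hN0 v).le)]
            have h3 : ∏ v ∈ T, N v ≤ (F : ℝ) ^ d := by
              have := prod_primes_le F hF T hT
              have h4 : ((∏ v ∈ T, Ideal.absNorm v.asIdeal : ℕ) : ℝ) ≤ ((F ^ d : ℕ) : ℝ) := by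
                exact_mod_cast this
              push_cast at h4
              exact h4
            have h4 : 0 ≤ ∏ v ∈ T, N v := Finset.prod_nonneg fun v _ => (hN0 v).le
            calc (∏ v ∈ T, N v) ^ (ε / d) ≤ ((F : ℝ) ^ d) ^ (ε / d) :=
                  Real.rpow_le_rpow h4 h3 (by positivity)
              _ = (F : ℝ) ^ ε := by
                  rw [← Real.rpow_natCast (F : ℝ) d, ← Real.rpow_mul (Nat.cast_nonneg _)]
                  congr 1
                  field_simp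
          have h0 : 0 ≤ ∏ v ∈ T, N v ^ (ε / d) := Finset.prod_nonneg fun v _ => by
            have := hN0 v; positivity
          calc _ ≤ Λ ^ S₀.card * ∏ v ∈ T, N v ^ (ε / d) := by gcongr
            _ ≤ _ := by gcongr
  have hfinal : (A.card : ℝ) * X ^ (-ε) ≤ Λ ^ S₀.card * (F : ℝ) ^ ε := by
    refine le_trans ?_ (hsum.trans hprod)
    rw [← nsmul_eq_mul, ← Finset.sum_const]
    exact Finset.sum_le_sum hw
  have hXX : X ^ (-ε) * X ^ ε = 1 := by
    rw [← Real.rpow_add hX0, neg_add_cancel, Real.rpow_zero]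
  have hXpos : 0 < X ^ ε := Real.rpow_pos_of_pos hX0 _
  calc (A.card : ℝ) = (A.card : ℝ) * X ^ (-ε) * X ^ ε := by rw [mul_assoc, hXX, mul_one]
    _ ≤ Λ ^ S₀.card * (F : ℝ) ^ ε * X ^ ε := by gcongr
    _ = _ := by ring

end

end Pool.Agent.Lib.MP_ca2859_nt
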