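import Mathlib
import Pool.Agent.Lib.MP_ca2859_nt.Good2
import Pool.Agent.Lib.MP_ca2859_nt.VecCount

open Polynomial WithZero IsDedekindDomain NumberField

namespace Pool.Agent.Lib.MP_ca2859_nt

section
variable {K : Type} [Field K] [NumberField K]

/-- the exponent of `v` in the ideal generated by `x` -/
noncomputable def cntx (x : 𝓞 K) (v : HeightOneSpectrum (𝓞 K)) : ℕ :=
  (Associates.mk v.asIdeal).count (Associates.mk (Ideal.span {x})).factors

theorem ord_eq_cntx (x : 𝓞 K) (hx : x ≠ 0) (v : HeightOneSpectrum (𝓞 K)) :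
    ord (v.valuation K) (algebraMap (𝓞 K) K x) = cntx x v := by
  rw [ord, HeightOneSpectrum.valuation_of_algebraMap,
    HeightOneSpectrum.intValuation_if_neg v hx, log_exp, cntx]
  ring

theorem span_ne_zero (x : 𝓞 K) (hx : x ≠ 0) : Ideal.span {x} ≠ 0 := by
  rw [Ne, Ideal.zero_eq_bot, Ideal.span_singleton_eq_bot]; exact hx

theorem prod_cntx_eq (x : 𝓞 K) (hx : x ≠ 0) (T : Finset (HeightOneSpectrum (𝓞 K)))
    (hT : ∀ v, cntx x v ≠ 0 → v ∈ T) :
    ∏ v ∈ T, Ideal.absNorm v.asIdeal ^ cntx x v = (Algebra.norm ℤ x).natAbs := by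
  classical
  have hI := span_ne_zero x hx
  have h1 := Ideal.finprod_heightOneSpectrum_factorization hI
  have hsub : Function.mulSupport (fun v : HeightOneSpectrum (𝓞 K) =>
      v.maxPowDividing (Ideal.span {x})) ⊆ T := by
    intro v hv
    apply hT
    intro h0
    apply hv
    simp only [HeightOneSpectrum.maxPowDividing]
    rw [cntx] at h0
    rw [h0, pow_zero]
  rw [finprod_eq_prod_of_mulSupport_subset _ hsub] at h1
  have h2 := congrArg Ideal.absNorm h1
  rw [map_prod, Ideal.absNorm_span_singleton] at h2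
  rw [← h2]
  apply Finset.prod_congr rfl
  intro v _
  rw [HeightOneSpectrum.maxPowDividing, map_pow, cntx]

theorem cntx_finite (x : 𝓞 K) (hx : x ≠ 0) : {v : HeightOneSpectrum (𝓞 K) | cntx x v ≠ 0}.Finite := by
  have h1 := finite_val_ne_one (K := K) (algebraMap (𝓞 K) K x)
    (by rw [Ne, FaithfulSMul.algebraMap_eq_zero_iff]; exact hx)
  refine h1.subset ?_
  intro v hv
  simp only [Set.mem_ofPred_eq] at hv ⊢
  intro h
  apply hv
  have h2 := ord_eq_cntx x hx v
  rw [ord, h, log_one, neg_zero] at h2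
  exact_mod_cast h2.symm

theorem prod_cntx_le (x : 𝓞 K) (hx : x ≠ 0) (S : Finset (HeightOneSpectrum (𝓞 K))) :
    ∏ v ∈ S, Ideal.absNorm v.asIdeal ^ cntx x v ≤ (Algebra.norm ℤ x).natAbs := by
  classical
  rw [← prod_cntx_eq x hx ((cntx_finite x hx).toFinset ∪ S) (fun v hv => by
    rw [Finset.mem_union]; left; rw [Set.Finite.mem_toFinset]; exact hv)]
  apply Finset.prod_le_prod_of_subset_of_one_le' (Finset.subset_union_right)
  intro v _ _
  exact Nat.one_le_pow _ _ (one_le_absNorm v)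

/-- elements with the same valuations differ by a unit -/
theorem assoc_of_cntx (x y : 𝓞 K) (hx : x ≠ 0) (hy : y ≠ 0) (h : ∀ v, cntx x v = cntx y v) :
    ∃ u : (𝓞 K)ˣ, x = u * y := by
  have h1 := Ideal.finprod_heightOneSpectrum_factorization (span_ne_zero x hx)
  have h2 := Ideal.finprod_heightOneSpectrum_factorization (span_ne_zero y hy)
  have h3 : (fun v : HeightOneSpectrum (𝓞 K) => v.maxPowDividing (Ideal.span {x})) =
      fun v => v.maxPowDividing (Ideal.span {y}) := by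
    funext v
    have := h v
    rw [cntx, cntx] at this
    rw [HeightOneSpectrum.maxPowDividing, HeightOneSpectrum.maxPowDividing, this]
  rw [h3, h2] at h1
  have h4 := Ideal.span_singleton_eq_span_singleton.1 h1
  obtain ⟨u, hu⟩ := h4
  exact ⟨u, by rw [← hu, mul_comm]⟩

theorem CB_map (f : (𝓞 K)[X]) (v : HeightOneSpectrum (𝓞 K)) :
    CB (v.valuation K) 1 (f.map (algebraMap (𝓞 K) K)) := by
  intro i
  rw [coeff_map]
  exact HeightOneSpectrum.valuation_le_one v _

theorem discExp_le_cntx (g : ℕ) (hg : 1 ≤ g) (f : (𝓞 K)[X])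
    (hf : IsHyperelliptic g (f.map (algebraMap (𝓞 K) K))) (hR : RR (2 * g + 2) f ≠ 0)
    (v : HeightOneSpectrum (𝓞 K)) :
    discExp g (f.map (algebraMap (𝓞 K) K)) v ≤ cntx (2 ^ (4 * g) * RR (2 * g + 2) f) v := by
  set F := f.map (algebraMap (𝓞 K) K) with hF
  have hD0 := eqDisc_ne_zero g F hf
  have hDle : v.valuation K (eqDisc g F) ≤ 1 := eqDisc_le_one g (CB_map f v)
  have hord0 : 0 ≤ ord (v.valuation K) (eqDisc g F) := ord_nonneg hDle
  obtain ⟨k', hk'⟩ := Int.eq_ofNat_of_zero_le hord0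
  have h1 : discExp g F v ≤ k' := by
    apply minDiscExp_le
    refine ⟨F, 0, ⟨CB_map f v, fun i => by simp, by have := hf.2; omega, by simp, ?_, ?_⟩, ?_⟩
    · rw [f0_zero]; exact hf.2
    · rw [f0_zero]; exact sameCurve_refl g F
    · rw [f0_zero, w_eq_exp hD0, hk']
  obtain ⟨hR0, hord⟩ := ord_RR_eqDisc (w := v.valuation K) g hg F hf.2 hD0
  have h2 : ord (v.valuation K) (algebraMap (𝓞 K) K (2 ^ (4 * g) * RR (2 * g + 2) f)) =
      4 * g * ord (v.valuation K) (2 : K) + ord (v.valuation K) (RR (2 * g + 2) F) := by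
    rw [map_mul, map_pow, map_ofNat, ← RR_map, ord_mul (pow_ne_zero _ two_ne_zero) hR0, ord_pow]
    push_cast
    ring
  have h20 : (2 ^ (4 * g) * RR (2 * g + 2) f : 𝓞 K) ≠ 0 := mul_ne_zero (pow_ne_zero _ two_ne_zero) hR
  rw [ord_eq_cntx _ h20] at h2
  have h3 : 0 ≤ ord (v.valuation K) ((2 * g + 2 : ℕ) : K) := natCast_int_le _ _
  have h4 : (k' : ℤ) ≤ cntx (2 ^ (4 * g) * RR (2 * g + 2) f) v := by
    rw [h2]
    have h5 : (0:ℤ) ≤ 2 * g * ord (v.valuation K) ((2 * g + 2 : ℕ) : K) := by positivity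
    have h6 : ord (v.valuation K) (eqDisc g F) = (k' : ℤ) := hk'
    linarith
  exact h1.trans (by exact_mod_cast h4)

theorem DeltaC_le (g : ℕ) (hg : 1 ≤ g) (f : (𝓞 K)[X])
    (hf : IsHyperelliptic g (f.map (algebraMap (𝓞 K) K))) (hR : RR (2 * g + 2) f ≠ 0) :
    DeltaC g (f.map (algebraMap (𝓞 K) K)) ≤
      (Algebra.norm ℤ (2 ^ (4 * g) * RR (2 * g + 2) f : 𝓞 K)).natAbs := by
  classical
  set F := f.map (algebraMap (𝓞 K) K) with hF
  have h20 : (2 ^ (4 * g) * RR (2 * g + 2) f : 𝓞 K) ≠ 0 := mul_ne_zero (pow_ne_zero _ two_ne_zero) hR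
  set S := (finite_bad g F hf).toFinset with hS
  have hD : DeltaC g F = ∏ v ∈ S, Ideal.absNorm v.asIdeal ^ discExp g F v := by
    rw [DeltaC, finprod_eq_prod_of_mulSupport_subset (s := S)]
    intro v hv
    rw [hS, Finset.mem_coe, Set.Finite.mem_toFinset]
    intro h0
    exact hv (by simp [h0])
  rw [hD]
  refine le_trans ?_ (prod_cntx_le _ h20 S)
  apply Finset.prod_le_prod'
  intro v _
  exact Nat.pow_le_pow_right (by have := one_le_absNorm v; omega) (discExp_le_cntx g hg f hf hR v)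

theorem absNorm_dvd_MC (g : ℕ) (F : K[X]) (hF : IsHyperelliptic g F) (v : HeightOneSpectrum (𝓞 K))
    (hv : discExp g F v ≠ 0) : Ideal.absNorm v.asIdeal ∣ MC g F := by
  classical
  set S := (finite_bad g F hF).toFinset with hS
  have hM : MC g F = ∏ v ∈ S, (if discExp g F v = 0 then 1 else Ideal.absNorm v.asIdeal) := by
    rw [MC, finprod_eq_prod_of_mulSupport_subset (s := S)]
    intro v hv
    rw [hS, Finset.mem_coe, Set.Finite.mem_toFinset]
    intro h0
    exact hv (by simp [h0])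
  rw [hM]
  have h1 : (if discExp g F v = 0 then 1 else Ideal.absNorm v.asIdeal) = Ideal.absNorm v.asIdeal :=
    if_neg hv
  rw [← h1]
  apply Finset.dvd_prod_of_mem
  rw [hS, Set.Finite.mem_toFinset]
  exact hv

theorem MC_pos (g : ℕ) (F : K[X]) (hF : IsHyperelliptic g F) : 0 < MC g F := by
  classical
  set S := (finite_bad g F hF).toFinset with hS
  have hM : MC g F = ∏ v ∈ S, (if discExp g F v = 0 then 1 else Ideal.absNorm v.asIdeal) := by
    rw [MC, finprod_eq_prod_of_mulSupport_subset (s := S)]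
    intro v hv
    rw [hS, Finset.mem_coe, Set.Finite.mem_toFinset]
    intro h0
    exact hv (by simp [h0])
  rw [hM]
  apply Finset.prod_pos
  intro v _
  split_ifs
  · exact one_pos
  · have := one_le_absNorm v; omega

theorem norm_mem_of_mem (v : HeightOneSpectrum (𝓞 K)) (x : 𝓞 K) (hx : x ∈ v.asIdeal) :
    (((Algebra.norm ℤ x).natAbs : ℕ) : 𝓞 K) ∈ v.asIdeal := by
  rw [← Ideal.absNorm_span_singleton]
  have h1 := Ideal.absNorm_mem (Ideal.span {x})
  have h2 : Ideal.span {x} ≤ v.asIdeal := by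
    rw [Ideal.span_singleton_le_iff_mem]; exact hx
  exact h2 h1

/-- the primes dividing the discriminant divide an explicit integer -/
theorem support_disc (g : ℕ) (hg : 1 ≤ g) (f : (𝓞 K)[X])
    (hf : IsHyperelliptic g (f.map (algebraMap (𝓞 K) K))) (hR : RR (2 * g + 2) f ≠ 0)
    (v : HeightOneSpectrum (𝓞 K)) (hv : cntx (RR (2 * g + 2) f) v ≠ 0) :
    (((2 * (2 * g + 2)) * (Algebra.norm ℤ (RR (2 * g + 1) (derivative f))).natAbs *
      MC g (f.map (algebraMap (𝓞 K) K)) : ℕ) : 𝓞 K) ∈ v.asIdeal := by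
  set F := f.map (algebraMap (𝓞 K) K) with hF
  have hvR : v.valuation K (RR (2 * g + 2) F) < 1 := by
    rw [hF, RR_map]
    have h1 := ord_eq_cntx _ hR v
    have h2 : algebraMap (𝓞 K) K (RR (2 * g + 2) f) ≠ 0 := by
      rw [Ne, FaithfulSMul.algebraMap_eq_zero_iff]; exact hR
    rw [w_eq_exp h2, h1, ← exp_zero, exp_lt_exp]
    have : 0 < cntx (RR (2 * g + 2) f) v := Nat.pos_of_ne_zero hv
    omega
  push_cast
  by_cases h2 : (2 : 𝓞 K) ∈ v.asIdeal
  · apply Ideal.mul_mem_right _ _ (Ideal.mul_mem_right _ _ (Ideal.mul_mem_right _ _ h2))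
  by_cases hn : ((2 * g + 2 : ℕ) : 𝓞 K) ∈ v.asIdeal
  · apply Ideal.mul_mem_right _ _ (Ideal.mul_mem_right _ _ (Ideal.mul_mem_left _ _ ?_))
    push_cast at hn
    exact hn
  by_cases hE : RR (2 * g + 1) (derivative f) ∈ v.asIdeal
  · apply Ideal.mul_mem_right _ _ (Ideal.mul_mem_left _ _ ?_)
    have := norm_mem_of_mem v _ hE
    exact_mod_cast this
  apply Ideal.mul_mem_left
  obtain ⟨π, hπ⟩ := v.valuation_exists_uniformizer K
  have hbad : discExp g F v ≠ 0 := by
    apply bad_local (v.valuation K) π hπ g hg F hf (CB_map f v)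
    · have := (HeightOneSpectrum.valuation_eq_one_iff_notMem (K := K) v).2 h2
      rwa [map_ofNat] at this
    · have := (HeightOneSpectrum.valuation_eq_one_iff_notMem (K := K) v).2 hn
      rwa [map_natCast] at this
    · exact hvR
    · rw [hF, derivative_map, RR_map]
      exact (HeightOneSpectrum.valuation_eq_one_iff_notMem (K := K) v).2 hE
  obtain ⟨m, hm⟩ := absNorm_dvd_MC g F hf v hbad
  rw [hm]
  push_cast
  apply Ideal.mul_mem_right
  exact Ideal.absNorm_mem v.asIdeal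

end

end Pool.Agent.Lib.MP_ca2859_nt
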