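import Mathlib
import Pool.Agent.Lib.MP_ca2859_nt.CrossRatio
import Pool.Agent.Lib.MP_ca2859_nt.Global2

/-!
# Cross ratios of the roots at a place of good reduction
-/

open Polynomial WithZero IsDedekindDomain NumberField

namespace Pool.Agent.Lib.MP_ca2859_nt

section val
variable {L : Type*} [Field L] {w : Valuation L ℤᵐ⁰}

theorem gauss_linear (s : L) (G : L[X]) (B : ℤᵐ⁰) (h : ∀ i, w (((X - C s) * G).coeff i) ≤ B) :
    ∀ i, w (G.coeff i) * max 1 (w s) ≤ B := by
  have hc : ∀ i, ((X - C s) * G).coeff (i + 1) = G.coeff i - s * G.coeff (i + 1) := by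
    intro i
    rw [sub_mul, coeff_sub, coeff_X_mul, coeff_C_mul]
  have hc0 : ((X - C s) * G).coeff 0 = - (s * G.coeff 0) := by
    rw [sub_mul, coeff_sub, coeff_X_mul_zero, coeff_C_mul, zero_sub]
  rcases le_or_gt (w s) 1 with hs | hs
  · rw [max_eq_left hs]
    simp only [mul_one]
    -- downward induction
    have key : ∀ m i, G.natDegree < i + m → w (G.coeff i) ≤ B := by
      intro m
      induction m with
      | zero =>
        intro i hi
        rw [coeff_eq_zero_of_natDegree_lt (by omega), map_zero]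
        exact zero_le
      | succ m ih =>
        intro i hi
        have h1 : G.coeff i = ((X - C s) * G).coeff (i + 1) + s * G.coeff (i + 1) := by
          rw [hc]; ring
        rw [h1]
        refine Valuation.map_add_le _ (h _) ?_
        rw [map_mul]
        calc w s * w (G.coeff (i + 1)) ≤ 1 * B := mul_le_mul' hs (ih (i + 1) (by omega))
          _ = B := one_mul B
    intro i
    exact key (G.natDegree + 1) i (by omega)
  · rw [max_eq_right hs.le]
    intro i
    induction i with
    | zero =>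
      have := h 0
      rw [hc0, Valuation.map_neg, map_mul] at this
      rw [mul_comm]; exact this
    | succ i ih =>
      have h1 : s * G.coeff (i + 1) = G.coeff i - ((X - C s) * G).coeff (i + 1) := by
        rw [hc]; ring
      rw [mul_comm, ← map_mul, h1]
      refine Valuation.map_sub_le _ ?_ (h _)
      refine le_trans ?_ ih
      calc w (G.coeff i) = w (G.coeff i) * 1 := (mul_one _).symm
        _ ≤ w (G.coeff i) * w s := mul_le_mul' le_rfl hs.le

theorem gauss_prod {ι : Type*} [DecidableEq ι] (t : Finset ι) (s : ι → L) (B : ℤᵐ⁰) :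
    ∀ G : L[X], (∀ i, w (((∏ j ∈ t, (X - C (s j))) * G).coeff i) ≤ B) →
      ∀ i, w (G.coeff i) * ∏ j ∈ t, max 1 (w (s j)) ≤ B := by
  induction t using Finset.induction_on with
  | empty =>
    intro G h i
    simpa using h i
  | insert j t hj ih =>
    intro G h i
    rw [Finset.prod_insert hj, mul_comm (max 1 (w (s j))), ← mul_assoc]
    have h1 := ih ((X - C (s j)) * G) (by
      intro i
      have h0 := h i
      rwa [Finset.prod_insert hj, mul_comm (X - C (s j)), mul_assoc] at h0)
    have h2 : (∏ j ∈ t, max 1 (w (s j))) ≠ 0 := by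
      rw [Finset.prod_ne_zero_iff]
      intro k _
      exact (lt_of_lt_of_le zero_lt_one (le_max_left _ _)).ne'
    have h2' : 0 < ∏ j ∈ t, max 1 (w (s j)) := zero_lt_iff.2 h2
    have h3 := gauss_linear (w := w) (s j) G (B / ∏ j ∈ t, max 1 (w (s j))) (by
      intro i
      rw [le_div_iff₀ h2']
      exact h1 i) i
    rw [le_div_iff₀ h2'] at h3
    rw [mul_right_comm]
    exact h3

theorem gauss_full {n : ℕ} (b : L) (s : Fin n → L)
    (h : CB w 1 (C b * ∏ j, (X - C (s j)))) : w b * ∏ j, max 1 (w (s j)) ≤ 1 := by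
  classical
  have h1 := gauss_prod (w := w) Finset.univ s 1 (C b) (by
    intro i
    rw [mul_comm]
    exact h i) 0
  rwa [coeff_C_zero] at h1

theorem natDegree_split {n : ℕ} (b : L) (hb : b ≠ 0) (s : Fin n → L) :
    (C b * ∏ j, (X - C (s j))).natDegree = n := by
  rw [natDegree_C_mul hb, natDegree_prod_of_monic _ _ fun j _ => monic_X_sub_C _]
  simp

theorem deriv_split_eval {n : ℕ} (b : L) (s : Fin n → L) (i : Fin n) :
    (derivative (C b * ∏ j, (X - C (s j)))).eval (s i) =
      b * ∏ j ∈ Finset.univ.erase i, (s i - s j) := by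
  classical
  rw [derivative_C_mul, derivative_prod_finset, eval_mul, eval_C, eval_finsetSum]
  congr 1
  rw [Finset.sum_eq_single i]
  · rw [eval_mul, eval_prod]
    simp
  · intro k _ hk
    rw [eval_mul, eval_prod]
    rw [Finset.prod_eq_zero (i := i)]
    · simp
    · rw [Finset.mem_erase]; exact ⟨hk.symm, Finset.mem_univ _⟩
    · simp
  · intro h; exact absurd (Finset.mem_univ _) h

theorem discr_split {n : ℕ} (hn : 1 ≤ n) (b : L) (hb : b ≠ 0) (s : Fin n → L) :
    ∃ ε : ℤˣ, (C b * ∏ j, (X - C (s j))).discr =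
      ((ε : ℤ) : L) * (b ^ (2 * n - 2) * ∏ i, ∏ j ∈ Finset.univ.erase i, (s i - s j)) := by
  classical
  set f := C b * ∏ j, (X - C (s j)) with hf
  have hdeg : f.natDegree = n := natDegree_split b hb s
  have hmonic : (∏ j, (X - C (s j)) : L[X]).Monic := monic_prod_of_monic _ _ fun j _ => monic_X_sub_C _
  have hlc : f.leadingCoeff = b := by
    rw [hf, leadingCoeff_mul, leadingCoeff_C, hmonic.leadingCoeff, mul_one]
  have h1 := resultant_deriv (f := f) (by rw [← natDegree_pos_iff_degree_pos]; omega)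
  have hroots : f.roots = Finset.univ.val.map s := by
    rw [hf, roots_C_mul _ hb]
    have : (∏ j, (X - C (s j)) : L[X]) = (Multiset.map (fun t => X - C t) (Finset.univ.val.map s)).prod := by
      rw [Multiset.map_map]; rfl
    rw [this, roots_multiset_prod_X_sub_C]
  have hsplit : f.Splits := by
    rw [splits_iff_card_roots, hroots, hdeg]
    simp
  have h2 := resultant_eq_prod_eval f (derivative f) (f.natDegree - 1)
    (natDegree_derivative_le f) hsplit
  rw [h1, hlc, hroots, hdeg, Multiset.map_map] at h2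
  have h3 : (Multiset.map ((fun x => eval x (derivative f)) ∘ s) Finset.univ.val).prod =
      b ^ n * ∏ i, ∏ j ∈ Finset.univ.erase i, (s i - s j) := by
    change ∏ i, eval (s i) (derivative f) = _
    rw [Finset.prod_congr rfl fun i _ => deriv_split_eval b s i, Finset.prod_mul_distrib,
      Finset.prod_const, Finset.card_univ, Fintype.card_fin]
  rw [h3] at h2
  obtain ⟨ε, hε⟩ : ∃ ε : ℤˣ, ((ε : ℤ) : L) = (-1) ^ (n * (n - 1) / 2) :=
    ⟨(-1) ^ (n * (n - 1) / 2), by push_cast; rfl⟩
  refine ⟨ε, ?_⟩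
  have h4 : ((-1 : L) ^ (n * (n - 1) / 2)) * (-1) ^ (n * (n - 1) / 2) = 1 := by
    rw [← mul_pow]; simp
  have h5 : b * f.discr = (-1) ^ (n * (n - 1) / 2) * (b ^ (n - 1) *
      (b ^ n * ∏ i, ∏ j ∈ Finset.univ.erase i, (s i - s j))) := by
    rw [← h2]
    linear_combination (-(b * f.discr)) * h4
  have h6 : b ^ (n - 1) * b ^ n = b * b ^ (2 * n - 2) := by
    rw [← pow_add, ← pow_succ']
    congr 1
    omega
  apply mul_left_cancel₀ hb
  rw [h5, hε]
  linear_combination ((-1) ^ (n * (n - 1) / 2) * (∏ i, ∏ j ∈ Finset.univ.erase i, (s i - s j))) * h6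

theorem prod_erase_pair {n : ℕ} (hn : 2 ≤ n) {M : Type*} [CommMonoid M] (u : Fin n → M) :
    ∏ i, ∏ j ∈ Finset.univ.erase i, (u i * u j) = (∏ i, u i) ^ (2 * n - 2) := by
  classical
  have h1 : ∀ i, ∏ j ∈ Finset.univ.erase i, (u i * u j) = u i ^ (n - 2) * ∏ j, u j := by
    intro i
    rw [Finset.prod_mul_distrib, Finset.prod_const, Finset.card_erase_of_mem (Finset.mem_univ _),
      Finset.card_univ, Fintype.card_fin, ← Finset.mul_prod_erase Finset.univ u (Finset.mem_univ i)]
    rw [show n - 1 = (n - 2) + 1 by omega, pow_succ, mul_assoc]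
  rw [Finset.prod_congr rfl fun i _ => h1 i, Finset.prod_mul_distrib, Finset.prod_pow,
    Finset.prod_const, Finset.card_univ, Fintype.card_fin, ← pow_add]
  congr 1
  omega

/-- if the discriminant is a unit, the roots are pairwise as far as possible -/
theorem dist_of_unit_disc {n : ℕ} (hn : 2 ≤ n) (b : L) (hb : b ≠ 0) (s : Fin n → L)
    (h : CB w 1 (C b * ∏ j, (X - C (s j)))) (hD : w (C b * ∏ j, (X - C (s j))).discr = 1)
    (i j : Fin n) (hij : i ≠ j) : w (s i - s j) = max 1 (w (s i)) * max 1 (w (s j)) := by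
  classical
  set u : Fin n → ℤᵐ⁰ := fun i => max 1 (w (s i)) with hu
  have hu1 : ∀ i, 1 ≤ u i := fun i => le_max_left _ _
  have hu0 : ∀ i, u i ≠ 0 := fun i => (lt_of_lt_of_le zero_lt_one (hu1 i)).ne'
  have hA : w b * ∏ j, u j ≤ 1 := gauss_full b s h
  obtain ⟨ε, hε⟩ := discr_split (by omega : 1 ≤ n) b hb s
  have hwε : ∀ x : L, w (((ε : ℤ) : L) * x) = w x := by
    intro x
    rcases Int.units_eq_one_or ε with h | h <;> simp [h, Valuation.map_neg]
  rw [hε, hwε, map_mul, map_pow, map_prod] at hD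
  simp only [map_prod] at hD
  set ρ : Fin n → Fin n → ℤᵐ⁰ := fun i j => w (s i - s j) / (u i * u j) with hρ
  have hρ1 : ∀ i j, ρ i j ≤ 1 := by
    intro i j
    rw [hρ]
    have h0 : 0 < u i * u j := zero_lt_iff.2 (mul_ne_zero (hu0 i) (hu0 j))
    simp only
    rw [div_le_one₀ h0]
    refine (Valuation.map_sub _ _ _).trans ?_
    rw [max_le_iff]
    constructor
    · calc w (s i) ≤ u i * 1 := by rw [mul_one]; exact le_max_right _ _
        _ ≤ u i * u j := mul_le_mul' le_rfl (hu1 j)
    · calc w (s j) ≤ 1 * u j := by rw [one_mul]; exact le_max_right _ _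
        _ ≤ u i * u j := mul_le_mul' (hu1 i) le_rfl
  have hfac : ∏ i, ∏ j ∈ Finset.univ.erase i, w (s i - s j) =
      (∏ i, ∏ j ∈ Finset.univ.erase i, ρ i j) * (∏ i, u i) ^ (2 * n - 2) := by
    rw [← prod_erase_pair hn u, ← Finset.prod_mul_distrib]
    apply Finset.prod_congr rfl
    intro i _
    rw [← Finset.prod_mul_distrib]
    apply Finset.prod_congr rfl
    intro j _
    rw [hρ]
    simp only
    rw [div_mul_cancel₀ _ (mul_ne_zero (hu0 i) (hu0 j))]
  rw [hfac] at hD
  have hP1 : ∏ i, ∏ j ∈ Finset.univ.erase i, ρ i j ≤ 1 :=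
    Finset.prod_le_one' fun i _ => Finset.prod_le_one' fun j _ => hρ1 i j
  have hP : ∏ i, ∏ j ∈ Finset.univ.erase i, ρ i j = 1 := by
    apply le_antisymm hP1
    have h1 : w b ^ (2 * n - 2) * ((∏ i, ∏ j ∈ Finset.univ.erase i, ρ i j) * (∏ i, u i) ^ (2 * n - 2)) =
        (∏ i, ∏ j ∈ Finset.univ.erase i, ρ i j) * (w b * ∏ i, u i) ^ (2 * n - 2) := by
      rw [mul_pow]
      exact mul_left_comm _ _ _
    rw [h1] at hD
    calc (1 : ℤᵐ⁰) = (∏ i, ∏ j ∈ Finset.univ.erase i, ρ i j) * (w b * ∏ i, u i) ^ (2 * n - 2) := hD.symm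
      _ ≤ (∏ i, ∏ j ∈ Finset.univ.erase i, ρ i j) * 1 := mul_le_mul' le_rfl (pow_le_one' hA _)
      _ = _ := mul_one _
  have h2 := (Finset.prod_eq_one_iff_of_le_one' (fun i _ => Finset.prod_le_one' fun j _ => hρ1 i j)).1 hP
    i (Finset.mem_univ i)
  have h3 := (Finset.prod_eq_one_iff_of_le_one' (fun j _ => hρ1 i j)).1 h2 j
    (Finset.mem_erase.2 ⟨hij.symm, Finset.mem_univ j⟩)
  rw [hρ] at h3
  simp only at h3
  rw [div_eq_one_iff_eq (mul_ne_zero (hu0 i) (hu0 j))] at h3
  exact h3

theorem CR_natDegree_le {n : ℕ} (p : Fin 4 → Fin n) (s : Fin n → L) (σ : Equiv.Perm (Fin n)) :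
    (C (crd p s σ) * X - C (crn p s σ)).natDegree ≤ 1 := by
  refine (natDegree_sub_le _ _).trans ?_
  simp only [natDegree_C, max_le_iff]
  refine ⟨?_, by omega⟩
  exact (natDegree_C_mul_le _ _).trans natDegree_X_le

theorem CR_top {n : ℕ} (p : Fin 4 → Fin n) (s : Fin n → L) :
    (CR p s).coeff (Fintype.card (Equiv.Perm (Fin n))) = ∏ σ, crd p s σ := by
  have h := coeff_prod_of_natDegree_le (Finset.univ : Finset (Equiv.Perm (Fin n)))
    (fun σ => C (crd p s σ) * X - C (crn p s σ)) 1 (fun σ _ => CR_natDegree_le p s σ)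
  rw [Finset.card_univ, mul_one] at h
  rw [CR, h]
  apply Finset.prod_congr rfl
  intro σ _
  simp [coeff_C]

theorem CR_coeff_le {n : ℕ} (p : Fin 4 → Fin n) (s : Fin n → L)
    (h : ∀ σ, w (crn p s σ) ≤ w (crd p s σ)) (k : ℕ) :
    w ((CR p s).coeff k) ≤ w ((CR p s).coeff (Fintype.card (Equiv.Perm (Fin n)))) := by
  classical
  rw [CR_top, map_prod]
  have h1 : ∀ t : Finset (Equiv.Perm (Fin n)),
      CB w (∏ σ ∈ t, w (crd p s σ)) (∏ σ ∈ t, (C (crd p s σ) * X - C (crn p s σ))) := by
    intro t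
    induction t using Finset.induction_on with
    | empty => simpa using CB_one
    | insert σ t hσ ih =>
      rw [Finset.prod_insert hσ, Finset.prod_insert hσ]
      refine CB.mul ?_ ih
      have h2 := (CB_C (w := w) (le_refl (w (crd p s σ)))).mul (CB_X (w := w))
      rw [mul_one] at h2
      exact h2.sub (CB_C (h σ))
  exact h1 Finset.univ k

end val

end Pool.Agent.Lib.MP_ca2859_nt
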