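import Mathlib
import Pool.Agent.Lib.MP_ca2859_nt.CRGood

open Polynomial WithZero IsDedekindDomain NumberField

namespace Pool.Agent.Lib.MP_ca2859_nt

theorem comp_split {L : Type*} [Field L] {n : ℕ} (c a ρ α₀ : L) (hρ : ρ ≠ 0) (α : Fin n → L) :
    C c * (C a * ∏ j, (X - C (α j))).comp (C ρ * X + C α₀) =
      C (c * a * ρ ^ n) * ∏ j, (X - C ((α j - α₀) / ρ)) := by
  have h1 : ∀ j, ((X - C (α j)) : L[X]).comp (C ρ * X + C α₀) = C ρ * (X - C ((α j - α₀) / ρ)) := by
    intro j
    rw [sub_comp, X_comp, C_comp, mul_sub, ← C_mul, mul_div_cancel₀ _ hρ, C_sub]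
    ring
  rw [mul_comp, C_comp, prod_comp, Finset.prod_congr rfl fun j _ => h1 j, Finset.prod_mul_distrib,
    Finset.prod_const, Finset.card_univ, Fintype.card_fin, C_mul, C_mul, C_pow]
  ring

section nf
variable {K : Type} [Field K] [NumberField K] {L : Type} [Field L] [NumberField L] [Algebra K L]

/-- at a place of good reduction the cross ratios are units -/
theorem good_CR_unit (g : ℕ) (hg : 1 ≤ g) (f : K[X]) (hf : IsHyperelliptic g f)
    (v : HeightOneSpectrum (𝓞 K)) (w : HeightOneSpectrum (𝓞 L)) [w.asIdeal.LiesOver v.asIdeal]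
    (hgood : discExp g f v = 0) (h2 : v.valuation K (2 : K) = 1)
    (hn : v.valuation K ((2 * g + 2 : ℕ) : K) = 1) (a : L) (ha : a ≠ 0) (α : Fin (2 * g + 2) → L)
    (hfα : f.map (algebraMap K L) = C a * ∏ j, (X - C (α j))) (p : Fin 4 → Fin (2 * g + 2))
    (hp : Function.Injective p) (σ : Equiv.Perm (Fin (2 * g + 2))) :
    w.valuation L (crn p α σ) = w.valuation L (crd p α σ) := by
  obtain ⟨π, hπ⟩ := v.valuation_exists_uniformizer K
  obtain ⟨P, Q, hm, hk⟩ := minDiscExp_spec (v.valuation K) π hπ g hg f hf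
  have hgood' : minDiscExp (v.valuation K) g f = 0 := hgood
  rw [hgood'] at hk
  have hk' : v.valuation K (eqDisc g (f0 P Q)) = 1 := by simpa using hk
  set h := f0 P Q with hh
  have hD0 : eqDisc g h ≠ 0 := by
    intro h1; rw [h1, map_zero] at hk'; exact zero_ne_one hk'
  have hhd : h.natDegree ≤ 2 * g + 2 := by rcases hm.deg0 with h1 | h1 <;> rw [hh] <;> omega
  have hint4 : CB (v.valuation K) 1 (C 4 * h) := by
    have h1 : C (4 : K) * h = C ((4 : ℕ) : K) * P + Q ^ 2 := by
      rw [hh, f0, mul_add, ← mul_assoc, ← C_mul]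
      norm_num
    rw [h1]
    have h2 := (CB_C (natCast_le_one (v.valuation K) 4)).mul (show CB (v.valuation K) 1 P from hm.intP)
    have h3 := CB.pow (show CB (v.valuation K) 1 Q from hm.intQ) 2
    rw [mul_one] at h2
    rw [one_pow] at h3
    exact h2.add h3
  obtain ⟨hRh0, hRh⟩ := ord_RR_eqDisc (w := v.valuation K) g hg h hm.deg0 hD0
  obtain ⟨c, α₀, ρ, H, hc, hρ, hH, hHint, ε, hε⟩ :=
    exists_affine (w := v.valuation K) g f h hhd hm.same hint4
  have hord2 : ord (v.valuation K) (2 : K) = 0 := by rw [ord, h2]; simp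
  have hordn : ord (v.valuation K) ((2 * g + 2 : ℕ) : K) = 0 := by rw [ord, hn]; simp
  have hordD : ord (v.valuation K) (eqDisc g h) = 0 := by rw [ord, hk']; simp
  rw [hord2, hordn, hordD] at hRh
  have hRH : v.valuation K (RR (2 * g + 2) H) = 1 := by
    rw [hε, w_unit, RR_C_mul, map_mul, map_pow, show (4 : K) = 2 ^ 2 by norm_num, map_pow, h2]
    rw [one_pow, one_pow, one_mul, w_eq_exp hRh0]
    have : ord (v.valuation K) (RR (2 * g + 2) h) = 0 := by linarith
    rw [this]; simp
  set e := Ideal.ramificationIdx' v.asIdeal w.asIdeal with he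
  have hvw : ∀ x : K, w.valuation L (algebraMap K L x) = v.valuation K x ^ e := fun x =>
    (HeightOneSpectrum.valuation_liesOver L v w x).symm
  set H' := H.map (algebraMap K L) with hH'
  have hCB' : CB (w.valuation L) 1 H' := by
    intro i
    rw [hH', coeff_map, hvw]
    exact pow_le_one' (hHint i) _
  have hRH' : w.valuation L (RR (2 * g + 2) H') = 1 := by
    rw [hH', RR_map, hvw, hRH, one_pow]
  set ρ' := algebraMap K L ρ with hρ'
  set α' := algebraMap K L α₀ with hα'
  have hρ0 : ρ' ≠ 0 := by rw [hρ', Ne, map_eq_zero]; exact hρ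
  set s : Fin (2 * g + 2) → L := fun j => (α j - α') / ρ' with hs
  have hsplit : H' = C (algebraMap K L c * a * ρ' ^ (2 * g + 2)) * ∏ j, (X - C (s j)) := by
    rw [hH', hH, Polynomial.map_mul, Polynomial.map_C, Polynomial.map_comp, hfα]
    simp only [Polynomial.map_add, Polynomial.map_mul, Polynomial.map_C, Polynomial.map_X]
    exact comp_split _ _ _ _ hρ0 _
  have hb0 : algebraMap K L c * a * ρ' ^ (2 * g + 2) ≠ 0 := by
    refine mul_ne_zero (mul_ne_zero ?_ ha) (pow_ne_zero _ hρ0)
    rw [Ne, map_eq_zero]; exact hc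
  have hdisc : w.valuation L H'.discr = 1 := by
    obtain ⟨ε', hε'⟩ := RR_eq_discr_of_natDegree_eq (2 * g + 2) (by omega) H' (by
      rw [hsplit]; exact natDegree_split _ hb0 _)
    rw [hε', w_unit, map_mul, map_pow] at hRH'
    have hn' : w.valuation L ((2 * g + 2 : ℕ) : L) = 1 := by
      have h1 := hvw ((2 * g + 2 : ℕ) : K)
      rw [hn, one_pow, map_natCast] at h1
      exact h1
    rwa [hn', one_pow, one_mul] at hRH'
  rw [hsplit] at hCB' hdisc
  have hdist := dist_of_unit_disc (by omega : 2 ≤ 2 * g + 2) _ hb0 s hCB' hdisc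
  have hne : ∀ x y : Fin 4, x ≠ y → σ (p x) ≠ σ (p y) := fun x y hxy h => hxy (hp (σ.injective h))
  have hscale : ∀ i j, α i - α j = ρ' * (s i - s j) := by
    intro i j
    rw [hs]
    simp only
    field_simp
    ring
  have h1 : crn p α σ = ρ' ^ 2 * crn p s σ := by
    rw [crn, crn, hscale, hscale]; ring
  have h3 : crd p α σ = ρ' ^ 2 * crd p s σ := by
    rw [crd, crd, hscale, hscale]; ring
  rw [h1, h3, map_mul, map_mul, crn, crd, map_mul, map_mul, hdist _ _ (hne 0 1 (by decide)),
    hdist _ _ (hne 2 3 (by decide)), hdist _ _ (hne 0 2 (by decide)), hdist _ _ (hne 1 3 (by decide))]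
  congr 1
  ac_rfl

end nf

end Pool.Agent.Lib.MP_ca2859_nt
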