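import Mathlib
import Pool.Agent.Lib.MP_ca2859_nt.CRGood2

open Polynomial WithZero IsDedekindDomain NumberField

namespace Pool.Agent.Lib.MP_ca2859_nt

theorem split_enum {L : Type*} [Field L] (F : L[X]) (hs : F.Splits) (n : ℕ) (hn : F.natDegree = n) :
    ∃ α : Fin n → L, F = C F.leadingCoeff * ∏ j, (X - C (α j)) := by
  have h1 := hs.eq_prod_roots
  have hcard : Multiset.card F.roots = n := by
    rw [← hn]; exact (splits_iff_card_roots.1 hs)
  obtain ⟨l, hl⟩ := Quot.exists_rep F.roots
  have hl' : (l : Multiset L) = F.roots := hl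
  have hlen : l.length = n := by rw [← hcard, ← hl', Multiset.coe_card]
  subst hlen
  refine ⟨fun j => l.get j, ?_⟩
  conv_lhs => rw [h1]
  congr 1
  rw [← hl', Multiset.map_coe, Multiset.prod_coe, ← List.prod_ofFn]
  congr 1
  apply List.ext_get
  · simp
  · intro i h1 h2
    simp

section nf
variable {K : Type} [Field K] [NumberField K] {L : Type} [Field L] [NumberField L] [Algebra K L]

set_option linter.unusedSectionVars false

theorem exists_place_above (v : HeightOneSpectrum (𝓞 K)) :
    ∃ w : HeightOneSpectrum (𝓞 L), w.asIdeal.LiesOver v.asIdeal := by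
  have := v.isMaximal
  obtain ⟨Q, hQ1, hQ2⟩ := Ideal.exists_maximal_ideal_liesOver_of_isIntegral (S := 𝓞 L) v.asIdeal
  refine ⟨⟨Q, hQ1.isPrime, ?_⟩, hQ2⟩
  intro h
  rw [h] at hQ2
  have h2 : v.asIdeal = ⊥ := by
    have h3 := hQ2.over
    rw [h3, Ideal.under, ← RingHom.ker_eq_comap_bot]
    exact (RingHom.injective_iff_ker_eq_bot _).1 (FaithfulSMul.algebraMap_injective _ _)
  exact v.ne_bot h2

omit [NumberField L] [NumberField K] in
theorem map_aeval_coeff (F : K[X]) (T : MvPolynomial ℕ ℤ) :
    algebraMap K L (MvPolynomial.aeval (fun i => F.coeff i) T) =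
      MvPolynomial.aeval (fun i => (F.map (algebraMap K L)).coeff i) T := by
  have h := MvPolynomial.map_aeval (fun i => F.coeff i) (algebraMap K L) T
  have h2 : (algebraMap K L).comp (algebraMap ℤ K) = algebraMap ℤ L := Subsingleton.elim _ _
  rw [h, MvPolynomial.aeval_def, MvPolynomial.coe_eval₂Hom, h2]
  simp only [coeff_map]

end nf

section nf2
variable {K : Type} [Field K] [NumberField K]

/-- at a place of good reduction the invariants are bounded by the top one -/
theorem good_T (g : ℕ) (hg : 1 ≤ g) (p : Fin 4 → Fin (2 * g + 2)) (hp : Function.Injective p)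
    (N : ℕ) (T : ℕ → MvPolynomial ℕ ℤ)
    (hT : ∀ (R : Type) [CommRing R] (a : R) (α : Fin (2 * g + 2) → R) (k : ℕ),
      MvPolynomial.aeval (fun i => (C a * ∏ j, (X - C (α j))).coeff i) (T k) =
        a ^ N * (CR p α).coeff k)
    (f : K[X]) (hf : IsHyperelliptic g f) (hfd : f.natDegree = 2 * g + 2)
    (v : HeightOneSpectrum (𝓞 K))
    (hgood : discExp g f v = 0) (h2 : v.valuation K (2 : K) = 1)
    (hn : v.valuation K ((2 * g + 2 : ℕ) : K) = 1) (k : ℕ) :
    v.valuation K (MvPolynomial.aeval (fun i => f.coeff i) (T k)) ≤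
      v.valuation K (MvPolynomial.aeval (fun i => f.coeff i)
        (T (Fintype.card (Equiv.Perm (Fin (2 * g + 2)))))) := by
  let L := f.SplittingField
  have : NumberField L := NumberField.of_module_finite K L
  obtain ⟨w, hw⟩ := exists_place_above (K := K) (L := L) v
  obtain ⟨α, hα⟩ := split_enum (f.map (algebraMap K L)) (SplittingField.splits f) (2 * g + 2)
    (by rw [natDegree_map]; exact hfd)
  set a := (f.map (algebraMap K L)).leadingCoeff with ha
  have ha0 : a ≠ 0 := by
    rw [ha, leadingCoeff_ne_zero, Ne, Polynomial.map_eq_zero]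
    rintro rfl
    simp at hfd
  have hunit := good_CR_unit g hg f hf v w hgood h2 hn a ha0 α hα p hp
  have hCR := CR_coeff_le (w := w.valuation L) p α (fun σ => (hunit σ).le) k
  have he : Ideal.ramificationIdx' v.asIdeal w.asIdeal ≠ 0 :=
    Ideal.IsDedekindDomain.ramificationIdx'_ne_zero_of_liesOver w.asIdeal v.ne_bot
  rw [← pow_le_pow_iff_left₀ zero_le zero_le he, HeightOneSpectrum.valuation_liesOver L v w,
    HeightOneSpectrum.valuation_liesOver L v w, map_aeval_coeff, map_aeval_coeff, hα, hT, hT, map_mul, map_mul]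
  exact mul_le_mul' le_rfl hCR

end nf2

end Pool.Agent.Lib.MP_ca2859_nt
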