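import Mathlib

/-!
# Counting algebraic integers by their minimal polynomials, uniformly in the field
-/

open Polynomial NumberField

namespace Pool.Agent.Lib.MP_ca2859_nt

theorem poly_set (D C0 : ℕ) : ∃ P : Finset ℤ[X], P.card ≤ (2 * C0 + 1) ^ (D + 1) ∧
    ∀ p : ℤ[X], p.natDegree ≤ D → (∀ i, |p.coeff i| ≤ C0) → p ∈ P := by
  classical
  set t : Finset (Fin (D + 1) → ℤ) :=
    Fintype.piFinset (fun _ => Finset.Icc (-(C0 : ℤ)) C0) with ht
  refine ⟨t.image (fun c => ∑ i : Fin (D + 1), C (c i) * X ^ (i : ℕ)), ?_, ?_⟩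
  · refine Finset.card_image_le.trans ?_
    rw [ht, Fintype.card_piFinset]
    simp only [Int.card_Icc, Finset.prod_const, Finset.card_univ, Fintype.card_fin]
    apply Nat.pow_le_pow_left
    omega
  · intro p hp hc
    rw [Finset.mem_image]
    refine ⟨fun i => p.coeff i, ?_, ?_⟩
    · rw [ht, Fintype.mem_piFinset]
      intro i
      rw [Finset.mem_Icc, ← abs_le]
      exact hc i
    · have h1 := p.as_sum_range' (D + 1) (by omega)
      rw [Fin.sum_univ_eq_sum_range (fun i => C (p.coeff i) * X ^ i) (D + 1)]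
      conv_rhs => rw [h1]
      simp only [C_mul_X_pow_eq_monomial]

theorem card_roots_bound {A : Type*} [Field A] [CharZero A] (D : ℕ) (P : Finset ℤ[X]) (T : Finset A)
    (hT : ∀ a ∈ T, ∃ p ∈ P, p ≠ 0 ∧ p.natDegree ≤ D ∧ aeval a p = 0) : T.card ≤ D * P.card := by
  classical
  have hsub : T ⊆ (P.filter (fun p => p ≠ 0 ∧ p.natDegree ≤ D)).biUnion
      (fun p => (p.aroots A).toFinset) := by
    intro a ha
    obtain ⟨p, hp, h0, hd, hr⟩ := hT a ha
    rw [Finset.mem_biUnion]
    refine ⟨p, Finset.mem_filter.2 ⟨hp, h0, hd⟩, ?_⟩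
    rw [Multiset.mem_toFinset, mem_aroots]
    exact ⟨h0, hr⟩
  refine (Finset.card_le_card hsub).trans (Finset.card_biUnion_le.trans ?_)
  refine (Finset.sum_le_card_nsmul _ _ D ?_).trans ?_
  · intro p hp
    rw [Finset.mem_filter] at hp
    refine (Multiset.toFinset_card_le _).trans ?_
    refine (Polynomial.card_roots' _).trans ?_
    exact natDegree_map_le.trans hp.2.2
  · rw [smul_eq_mul, mul_comm]
    exact Nat.mul_le_mul_left _ (Finset.card_filter_le _ _)

/-- a common bound for the coefficients of the minimal polynomial over `ℤ` -/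
theorem minpoly_bound (D : ℕ) (B : ℝ) (hB : 1 ≤ B) (L : Type*) [Field L] [NumberField L]
    (hL : Module.finrank ℚ L ≤ D) (a : L) (ha : IsIntegral ℤ a)
    (hw : ∀ w : InfinitePlace L, w a ≤ B) :
    (minpoly ℤ a).natDegree ≤ D ∧
      ∀ i, |(minpoly ℤ a).coeff i| ≤ ((⌈B ^ D * (2 : ℝ) ^ D⌉₊ : ℕ) : ℤ) := by
  have hmap : minpoly ℚ a = (minpoly ℤ a).map (algebraMap ℤ ℚ) :=
    minpoly.isIntegrallyClosed_eq_field_fractions' ℚ ha
  constructor
  · rw [← (minpoly.monic ha).natDegree_map (algebraMap ℤ ℚ), ← hmap]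
    exact (minpoly.natDegree_le a).trans hL
  · intro i
    have hφ : ∀ φ : L →+* ℂ, ‖φ a‖ ≤ B := by
      intro φ
      have := hw (InfinitePlace.mk φ)
      rwa [InfinitePlace.apply] at this
    have h1 := Embeddings.coeff_bdd_of_norm_le (A := ℂ) hφ i
    rw [hmap, coeff_map, eq_intCast, Int.norm_cast_rat, Int.norm_eq_abs] at h1
    have h2 : max B 1 ^ Module.finrank ℚ L * ((Module.finrank ℚ L).choose (Module.finrank ℚ L / 2) : ℝ)
        ≤ B ^ D * 2 ^ D := by
      rw [max_eq_left hB]
      have h3 : ((Module.finrank ℚ L).choose (Module.finrank ℚ L / 2) : ℝ) ≤ 2 ^ D := by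
        have := (Nat.choose_le_two_pow (Module.finrank ℚ L) (Module.finrank ℚ L / 2)).trans
          (Nat.pow_le_pow_right (by norm_num) hL)
        exact_mod_cast this
      exact mul_le_mul (pow_le_pow_right₀ hB hL) h3 (by positivity) (by positivity)
    have h4 := (h1.trans h2).trans (Nat.le_ceil _)
    rw [← Int.cast_abs] at h4
    have h5 : ((|(minpoly ℤ a).coeff i| : ℤ) : ℝ) ≤ (((⌈B ^ D * (2 : ℝ) ^ D⌉₊ : ℕ) : ℤ) : ℝ) := by
      rw [Int.cast_natCast]
      exact h4
    exact_mod_cast h5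

theorem infinite_le_mulHeight {L : Type*} [Field L] [NumberField L] (x : L) (w : InfinitePlace L) :
    w x ≤ Height.mulHeight₁ x := by
  classical
  rw [NumberField.mulHeight₁_eq]
  have h1 : (1 : ℝ) ≤ ∏ᶠ v : FinitePlace L, max (v x) 1 := one_le_finprod fun _ => le_max_right _ _
  have h2 : max (w x) 1 ≤ ∏ v : InfinitePlace L, max (v x) 1 ^ v.mult := by
    rw [← Finset.mul_prod_erase Finset.univ _ (Finset.mem_univ w)]
    have h3 : (1 : ℝ) ≤ ∏ v ∈ Finset.univ.erase w, max (v x) 1 ^ v.mult := by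
      calc (1 : ℝ) = ∏ _v ∈ Finset.univ.erase w, (1 : ℝ) := by simp
        _ ≤ _ := Finset.prod_le_prod (fun _ _ => zero_le_one) fun v _ => one_le_pow₀ (le_max_right _ _)
    have h4 : max (w x) 1 ≤ max (w x) 1 ^ w.mult := by
      have := pow_le_pow_right₀ (le_max_right (w x) 1) (Nat.one_le_iff_ne_zero.2 w.mult_ne_zero)
      rwa [pow_one] at this
    calc max (w x) 1 = max (w x) 1 * 1 := (mul_one _).symm
      _ ≤ _ := mul_le_mul h4 h3 zero_le_one (pow_nonneg (le_max_of_le_right zero_le_one) _)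
  calc w x ≤ max (w x) 1 * 1 := by rw [mul_one]; exact le_max_left _ _
    _ ≤ _ := mul_le_mul h2 h1 zero_le_one (Finset.prod_nonneg fun _ _ =>
      pow_nonneg (le_max_of_le_right zero_le_one) _)

/-- a uniform Northcott theorem -/
theorem northcott_uniform (D : ℕ) (B : ℝ) (hB : 1 ≤ B) : ∃ N : ℕ, ∀ (L : Type) [Field L] [NumberField L],
    Module.finrank ℚ L ≤ D → ∀ T : Finset L, (∀ x ∈ T, Height.mulHeight₁ x ≤ B) → T.card ≤ N := by
  classical
  obtain ⟨P, hPc, hP⟩ := poly_set D ⌈(B * B) ^ D * (2 : ℝ) ^ D⌉₊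
  refine ⟨(D * P.card) * (⌊B⌋₊ + 1), ?_⟩
  intro L _ _ hL T hT
  have hBB : 1 ≤ B * B := by nlinarith
  have h := fun x : L => exists_nat_le_mulHeight₁ x
  choose n hn0 hn1 hn2 using h
  have hmaps : ∀ x ∈ T, n x ∈ Finset.range (⌊B⌋₊ + 1) := by
    intro x hx
    rw [Finset.mem_range, Nat.lt_succ_iff]
    exact Nat.le_floor ((hn1 x).trans (hT x hx))
  have hfib : ∀ k ∈ Finset.range (⌊B⌋₊ + 1), (T.filter (fun x => n x = k)).card ≤ D * P.card := by
    intro k _
    rcases Nat.eq_zero_or_pos k with hk | hk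
    · have : T.filter (fun x => n x = k) = ∅ := by
        apply Finset.filter_eq_empty_iff.2
        intro x _ h
        exact hn0 x (h.trans hk)
      rw [this]; simp
    · have hinj : Function.Injective (fun x : L => (k : L) * x) := by
        intro x y hxy
        have hk' : (k : L) ≠ 0 := by exact_mod_cast hk.ne'
        exact mul_left_cancel₀ hk' hxy
      rw [← Finset.card_image_of_injective _ hinj]
      apply card_roots_bound
      intro a ha
      rw [Finset.mem_image] at ha
      obtain ⟨x, hx, rfl⟩ := ha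
      rw [Finset.mem_filter] at hx
      have hint : IsIntegral ℤ ((k : L) * x) := by
        have := hn2 x
        rwa [hx.2] at this
      have hkB : (k : ℝ) ≤ B := by
        have := (hn1 x).trans (hT x hx.1)
        rwa [hx.2] at this
      obtain ⟨m1, m2⟩ := minpoly_bound D (B * B) hBB L hL ((k : L) * x) hint (by
        intro w
        have hwk : w (k : L) = k := by
          rw [← InfinitePlace.norm_embedding_eq, map_natCast, Complex.norm_natCast]
        rw [map_mul, hwk]
        exact mul_le_mul hkB ((infinite_le_mulHeight x w).trans (hT x hx.1)) (apply_nonneg w x)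
          (by linarith))
      exact ⟨minpoly ℤ ((k : L) * x), hP _ m1 m2, minpoly.ne_zero hint, m1, minpoly.aeval _ _⟩
  have := Finset.card_le_mul_card_image_of_maps_to hmaps (D * P.card) hfib
  rwa [Finset.card_range] at this

end Pool.Agent.Lib.MP_ca2859_nt
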