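import Mathlib

/-!
# Padé type identities for `x ^ (2 N) A + y ^ (2 N) B = (x + y) ^ (2 N) R`
-/

open Polynomial

namespace Pool.Agent.Lib.MP_ca2859_nt

/-- coefficients of the Padé polynomial -/
def rho (N i : ℕ) : ℤ := (-1) ^ i * ((2 * N - i).choose (N - i)) * ((N - 1 + i).choose i)

theorem choose_fact_term (N n i : ℕ) (hN : 1 ≤ N) (h1 : N + 1 ≤ n) (h2 : n ≤ 2 * N) (hi : i ≤ N) :
    (((2 * N - i).choose (N - i) : ℕ) : ℚ) * (((N - 1 + i).choose i : ℕ) : ℚ) *
      (((2 * N).choose (n - i) : ℕ) : ℚ) * ((N.factorial : ℚ) * N.factorial * (N - 1).factorial) =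
    (2 * N).factorial * (N.choose i : ℚ) *
      (((n - i + 1).ascFactorial (2 * N - n) : ℕ) : ℚ) *
      (((2 * N - n + i + 1).ascFactorial (n - N - 1) : ℕ) : ℚ) := by
  have e1 : (2 * N - i).choose (N - i) * (N - i).factorial * N.factorial = (2 * N - i).factorial := by
    have := Nat.choose_mul_factorial_mul_factorial (show N - i ≤ 2 * N - i by omega)
    rwa [show 2 * N - i - (N - i) = N by omega] at this
  have e2 : (N - 1 + i).choose i * i.factorial * (N - 1).factorial = (N - 1 + i).factorial := by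
    have := Nat.choose_mul_factorial_mul_factorial (show i ≤ N - 1 + i by omega)
    rwa [show N - 1 + i - i = N - 1 by omega] at this
  have e3 : (2 * N).choose (n - i) * (n - i).factorial * (2 * N - n + i).factorial =
      (2 * N).factorial := by
    have := Nat.choose_mul_factorial_mul_factorial (show n - i ≤ 2 * N by omega)
    rwa [show 2 * N - (n - i) = 2 * N - n + i by omega] at this
  have e4 : N.choose i * i.factorial * (N - i).factorial = N.factorial :=
    Nat.choose_mul_factorial_mul_factorial hi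
  have e5 : (n - i).factorial * (n - i + 1).ascFactorial (2 * N - n) = (2 * N - i).factorial := by
    rw [Nat.factorial_mul_ascFactorial, show n - i + (2 * N - n) = 2 * N - i by omega]
  have e6 : (2 * N - n + i).factorial * (2 * N - n + i + 1).ascFactorial (n - N - 1) =
      (N - 1 + i).factorial := by
    rw [Nat.factorial_mul_ascFactorial, show 2 * N - n + i + (n - N - 1) = N - 1 + i by omega]
  have f1 : ((2 * N - i).choose (N - i) : ℚ) * (N - i).factorial * N.factorial =
      (2 * N - i).factorial := by exact_mod_cast e1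
  have f2 : ((N - 1 + i).choose i : ℚ) * i.factorial * (N - 1).factorial =
      (N - 1 + i).factorial := by exact_mod_cast e2
  have f3 : ((2 * N).choose (n - i) : ℚ) * (n - i).factorial * (2 * N - n + i).factorial =
      (2 * N).factorial := by exact_mod_cast e3
  have f4 : (N.choose i : ℚ) * i.factorial * (N - i).factorial = N.factorial := by exact_mod_cast e4
  have f5 : ((n - i).factorial : ℚ) * (n - i + 1).ascFactorial (2 * N - n) =
      (2 * N - i).factorial := by exact_mod_cast e5
  have f6 : ((2 * N - n + i).factorial : ℚ) * (2 * N - n + i + 1).ascFactorial (n - N - 1) =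
      (N - 1 + i).factorial := by exact_mod_cast e6
  have p1 : ((N - i).factorial : ℚ) ≠ 0 := by exact_mod_cast (Nat.factorial_pos _).ne'
  have p2 : (i.factorial : ℚ) ≠ 0 := by exact_mod_cast (Nat.factorial_pos _).ne'
  have p3 : ((n - i).factorial : ℚ) ≠ 0 := by exact_mod_cast (Nat.factorial_pos _).ne'
  have p4 : ((2 * N - n + i).factorial : ℚ) ≠ 0 := by exact_mod_cast (Nat.factorial_pos _).ne'
  apply mul_left_cancel₀ (mul_ne_zero (mul_ne_zero p1 p2) (mul_ne_zero p3 p4))
  calc _ = (((2 * N - i).choose (N - i) : ℚ) * (N - i).factorial * N.factorial) *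
        (((N - 1 + i).choose i : ℚ) * i.factorial * (N - 1).factorial) *
        (((2 * N).choose (n - i) : ℚ) * (n - i).factorial * (2 * N - n + i).factorial) *
        N.factorial := by ring
    _ = ((n - i).factorial : ℚ) * (n - i + 1).ascFactorial (2 * N - n) *
        (((2 * N - n + i).factorial : ℚ) * (2 * N - n + i + 1).ascFactorial (n - N - 1)) *
        (2 * N).factorial * ((N.choose i : ℚ) * i.factorial * (N - i).factorial) := by
        rw [f1, f2, f3, f4, f5, f6]
    _ = _ := by ring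

theorem gap_sum (N n : ℕ) (hN : 1 ≤ N) (h1 : N + 1 ≤ n) (h2 : n ≤ 2 * N) :
    ∑ i ∈ Finset.range (N + 1), rho N i * ((2 * N).choose (n - i) : ℤ) = 0 := by
  have key : ∑ i ∈ Finset.range (N + 1), ((rho N i * ((2 * N).choose (n - i) : ℤ) : ℤ) : ℚ) = 0 := by
    set P : ℚ[X] := (ascPochhammer ℚ (2 * N - n)).comp (C ((n : ℚ) + 1) - X) *
      (ascPochhammer ℚ (n - N - 1)).comp (X + C (((2 * N - n : ℕ) : ℚ) + 1)) with hP
    have hPd : P.natDegree < N := by
      have a1 : (C ((n : ℚ) + 1) - X).natDegree ≤ 1 := by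
        refine (natDegree_sub_le _ _).trans ?_
        rw [natDegree_C, natDegree_X]
        simp
      have a2 : (X + C (((2 * N - n : ℕ) : ℚ) + 1)).natDegree ≤ 1 := by
        rw [natDegree_X_add_C]
      have b1 := natDegree_comp_le (p := ascPochhammer ℚ (2 * N - n)) (q := C ((n : ℚ) + 1) - X)
      have b2 := natDegree_comp_le (p := ascPochhammer ℚ (n - N - 1))
        (q := X + C (((2 * N - n : ℕ) : ℚ) + 1))
      rw [ascPochhammer_natDegree] at b1 b2
      have c1 : (2 * N - n) * (C ((n : ℚ) + 1) - X).natDegree ≤ (2 * N - n) * 1 :=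
        Nat.mul_le_mul_left _ a1
      have c2 : (n - N - 1) * (X + C (((2 * N - n : ℕ) : ℚ) + 1)).natDegree ≤ (n - N - 1) * 1 :=
        Nat.mul_le_mul_left _ a2
      have := natDegree_mul_le (p := (ascPochhammer ℚ (2 * N - n)).comp (C ((n : ℚ) + 1) - X))
        (q := (ascPochhammer ℚ (n - N - 1)).comp (X + C (((2 * N - n : ℕ) : ℚ) + 1)))
      rw [← hP] at this
      omega
    have hfd := fwdDiff_iter_eq_zero_of_degree_lt hPd
    have hfd0 := congrFun hfd (0 : ℚ)
    rw [fwdDiff_iter_eq_sum_shift] at hfd0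
    have hterm : ∀ i ∈ Finset.range (N + 1), ((rho N i * ((2 * N).choose (n - i) : ℤ) : ℤ) : ℚ) =
        ((2 * N).factorial / ((N.factorial : ℚ) * N.factorial * (N - 1).factorial)) * (-1) ^ N *
        (((-1 : ℤ) ^ (N - i) * (N.choose i : ℤ)) • P.eval ((0 : ℚ) + i • (1 : ℚ))) := by
      intro i hi
      rw [Finset.mem_range] at hi
      have hi' : i ≤ N := by omega
      have h3 := choose_fact_term N n i hN h1 h2 hi'
      have p0 : ((N.factorial : ℚ) * N.factorial * (N - 1).factorial) ≠ 0 := by positivity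
      have q1 : P.eval ((0 : ℚ) + i • (1 : ℚ)) =
          (((n - i + 1).ascFactorial (2 * N - n) : ℕ) : ℚ) *
            (((2 * N - n + i + 1).ascFactorial (n - N - 1) : ℕ) : ℚ) := by
        rw [hP, eval_mul, eval_comp, eval_comp, ← ascPochhammer_nat_eq_ascFactorial,
          ← ascPochhammer_nat_eq_ascFactorial, ascPochhammer_eval_cast, ascPochhammer_eval_cast]
        congr 2
        · simp only [eval_sub, eval_C, eval_X]
          rw [Nat.cast_add, Nat.cast_sub (by omega)]
          simp
          ring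
        · simp only [eval_add, eval_C, eval_X]
          push_cast
          simp
          ring
      rw [q1]
      have hsign : ((-1 : ℚ)) ^ N * (-1) ^ (N - i) = (-1) ^ i := by
        rw [← pow_add]
        have : N + (N - i) = i + 2 * (N - i) := by omega
        rw [this, pow_add, pow_mul]
        simp
      rw [rho]
      push_cast
      rw [zsmul_eq_mul]
      push_cast
      have h4 : (((2 * N - i).choose (N - i) : ℕ) : ℚ) * (((N - 1 + i).choose i : ℕ) : ℚ) *
          (((2 * N).choose (n - i) : ℕ) : ℚ) = (2 * N).factorial * (N.choose i : ℚ) *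
          (((n - i + 1).ascFactorial (2 * N - n) : ℕ) : ℚ) *
          (((2 * N - n + i + 1).ascFactorial (n - N - 1) : ℕ) : ℚ) /
          ((N.factorial : ℚ) * N.factorial * (N - 1).factorial) := by
        rw [eq_div_iff p0]; exact h3
      calc (-1 : ℚ) ^ i * (((2 * N - i).choose (N - i) : ℕ) : ℚ) * (((N - 1 + i).choose i : ℕ) : ℚ) *
          (((2 * N).choose (n - i) : ℕ) : ℚ) = (-1 : ℚ) ^ i * ((((2 * N - i).choose (N - i) : ℕ) : ℚ) *
            (((N - 1 + i).choose i : ℕ) : ℚ) * (((2 * N).choose (n - i) : ℕ) : ℚ)) := by ring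
        _ = _ := by
            rw [h4, ← hsign]
            ring
    rw [Finset.sum_congr rfl hterm, ← Finset.mul_sum, hfd0]
    simp
  exact_mod_cast key

/-- the polynomial `R` -/
noncomputable def RN (N : ℕ) : ℤ[X] := ∑ i ∈ Finset.range (N + 1), C (rho N i) * X ^ i

/-- the product `(1 + X) ^ (2 N) R` -/
noncomputable def GN (N : ℕ) : ℤ[X] := RN N * (1 + X) ^ (2 * N)

/-- the polynomial `B` -/
noncomputable def BN (N : ℕ) : ℤ[X] := ∑ i ∈ Finset.range (N + 1), C ((GN N).coeff i) * X ^ i

/-- the polynomial `A` -/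
noncomputable def AN (N : ℕ) : ℤ[X] :=
  ∑ i ∈ Finset.range (N + 1), C ((GN N).coeff (2 * N + i)) * X ^ i

theorem coeff_sum_range {R : Type*} [CommRing R] (N : ℕ) (a : ℕ → R) (k : ℕ) :
    (∑ i ∈ Finset.range (N + 1), C (a i) * X ^ i : R[X]).coeff k = if k ≤ N then a k else 0 := by
  rw [finsetSum_coeff]
  simp only [coeff_C_mul_X_pow]
  rw [Finset.sum_ite_eq]
  simp only [Finset.mem_range, Nat.lt_succ_iff]

theorem natDegree_sum_range {R : Type*} [CommRing R] (N : ℕ) (a : ℕ → R) :
    (∑ i ∈ Finset.range (N + 1), C (a i) * X ^ i : R[X]).natDegree ≤ N := by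
  rw [natDegree_le_iff_coeff_eq_zero]
  intro k hk
  rw [coeff_sum_range, if_neg (by omega)]

theorem RN_coeff (N k : ℕ) : (RN N).coeff k = if k ≤ N then rho N k else 0 := coeff_sum_range _ _ _
theorem BN_coeff (N k : ℕ) : (BN N).coeff k = if k ≤ N then (GN N).coeff k else 0 :=
  coeff_sum_range N (fun i => (GN N).coeff i) k
theorem AN_coeff (N k : ℕ) : (AN N).coeff k = if k ≤ N then (GN N).coeff (2 * N + k) else 0 :=
  coeff_sum_range N (fun i => (GN N).coeff (2 * N + i)) k
theorem RN_natDegree (N : ℕ) : (RN N).natDegree ≤ N := natDegree_sum_range _ _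
theorem BN_natDegree (N : ℕ) : (BN N).natDegree ≤ N := natDegree_sum_range _ _
theorem AN_natDegree (N : ℕ) : (AN N).natDegree ≤ N := natDegree_sum_range _ _

theorem natDegree_one_add_X_pow (m : ℕ) : ((1 + X : ℤ[X]) ^ m).natDegree = m := by
  have : (1 + X : ℤ[X]) = X + C 1 := by rw [C_1]; ring
  rw [this, natDegree_pow, natDegree_X_add_C, mul_one]

theorem GN_natDegree (N : ℕ) : (GN N).natDegree ≤ 3 * N := by
  have h1 := natDegree_mul_le (p := RN N) (q := (1 + X : ℤ[X]) ^ (2 * N))
  have h2 := RN_natDegree N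
  rw [natDegree_one_add_X_pow] at h1
  rw [GN]
  omega

theorem GN_coeff (N n : ℕ) (hn : N ≤ n) : (GN N).coeff n =
    ∑ i ∈ Finset.range (N + 1), rho N i * ((2 * N).choose (n - i) : ℤ) := by
  rw [GN, RN, Finset.sum_mul, finsetSum_coeff]
  apply Finset.sum_congr rfl
  intro i hi
  rw [Finset.mem_range] at hi
  rw [mul_assoc, coeff_C_mul, coeff_X_pow_mul', if_pos (by omega), coeff_one_add_X_pow]

theorem GN_gap (N n : ℕ) (hN : 1 ≤ N) (h1 : N + 1 ≤ n) (h2 : n ≤ 2 * N) : (GN N).coeff n = 0 := by
  rw [GN_coeff N n (by omega), gap_sum N n hN h1 h2]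

theorem GN_eq (N : ℕ) (hN : 1 ≤ N) : GN N = BN N + X ^ (2 * N) * AN N := by
  ext k
  rw [coeff_add, coeff_X_pow_mul', BN_coeff]
  rcases Nat.lt_or_ge N k with h | h
  · rw [if_neg (by omega), zero_add]
    rcases Nat.lt_or_ge k (2 * N) with h' | h'
    · rw [if_neg (by omega), GN_gap N k hN (by omega) (by omega)]
    · rw [if_pos h', AN_coeff]
      split_ifs with h3
      · congr 1; omega
      · exact coeff_eq_zero_of_natDegree_lt (lt_of_le_of_lt (GN_natDegree N) (by omega))
  · rw [if_pos h, if_neg (by omega), add_zero]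

theorem rho_abs_le (N i : ℕ) (hN : 1 ≤ N) (hi : i ≤ N) : |rho N i| ≤ 16 ^ N := by
  rw [rho, abs_mul, abs_mul, abs_pow, abs_neg, abs_one, one_pow, one_mul]
  have h1 : (2 * N - i).choose (N - i) ≤ 2 ^ (2 * N) :=
    (Nat.choose_le_two_pow _ _).trans (Nat.pow_le_pow_right (by norm_num) (by omega))
  have h2 : (N - 1 + i).choose i ≤ 2 ^ (2 * N) :=
    (Nat.choose_le_two_pow _ _).trans (Nat.pow_le_pow_right (by norm_num) (by omega))
  have h3 : (16 : ℤ) ^ N = 2 ^ (2 * N) * 2 ^ (2 * N) := by
    rw [← pow_add, show 2 * N + 2 * N = 4 * N by ring, pow_mul]; norm_num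
  rw [h3, Nat.abs_cast, Nat.abs_cast]
  have h1' : ((2 * N - i).choose (N - i) : ℤ) ≤ 2 ^ (2 * N) := by exact_mod_cast h1
  have h2' : ((N - 1 + i).choose i : ℤ) ≤ 2 ^ (2 * N) := by exact_mod_cast h2
  exact mul_le_mul h1' h2' (by positivity) (by positivity)

theorem GN_coeff_abs_le (N n : ℕ) (hN : 1 ≤ N) : |(GN N).coeff n| ≤ 128 ^ N := by
  have h0 : (GN N).coeff n = ∑ i ∈ Finset.range (N + 1), rho N i *
      (if i ≤ n then ((2 * N).choose (n - i) : ℤ) else 0) := by
    rw [GN, RN, Finset.sum_mul, finsetSum_coeff]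
    apply Finset.sum_congr rfl
    intro i hi
    rw [mul_assoc, coeff_C_mul, coeff_X_pow_mul']
    split_ifs with h
    · rw [coeff_one_add_X_pow]
    · rfl
  rw [h0]
  have h1 : ∀ i ∈ Finset.range (N + 1), |rho N i *
      (if i ≤ n then ((2 * N).choose (n - i) : ℤ) else 0)| ≤ 16 ^ N * 4 ^ N := by
    intro i hi
    rw [Finset.mem_range] at hi
    rw [abs_mul]
    have h2 := rho_abs_le N i hN (by omega)
    have h3 : |(if i ≤ n then ((2 * N).choose (n - i) : ℤ) else 0)| ≤ 4 ^ N := by
      split_ifs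
      · rw [Nat.abs_cast]
        have := Nat.choose_le_two_pow (2 * N) (n - i)
        rw [pow_mul] at this
        norm_num at this
        exact_mod_cast this
      · simp
    exact mul_le_mul h2 h3 (abs_nonneg _) (by positivity)
  refine (Finset.abs_sum_le_sum_abs _ _).trans ((Finset.sum_le_sum h1).trans ?_)
  rw [Finset.sum_const, Finset.card_range, nsmul_eq_mul]
  have h4 : ((N + 1 : ℕ) : ℤ) ≤ 2 ^ N := by exact_mod_cast Nat.succ_le_of_lt Nat.lt_two_pow_self
  calc ((N + 1 : ℕ) : ℤ) * (16 ^ N * 4 ^ N) ≤ 2 ^ N * (16 ^ N * 4 ^ N) := by gcongr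
    _ = 128 ^ N := by rw [← mul_pow, ← mul_pow]; norm_num

theorem AN_coeff_abs_le (N n : ℕ) (hN : 1 ≤ N) : |(AN N).coeff n| ≤ 128 ^ N := by
  rw [AN_coeff]
  split_ifs
  · exact GN_coeff_abs_le _ _ hN
  · simp

theorem BN_coeff_abs_le (N n : ℕ) (hN : 1 ≤ N) : |(BN N).coeff n| ≤ 128 ^ N := by
  rw [BN_coeff]
  split_ifs
  · exact GN_coeff_abs_le _ _ hN
  · simp

/-- derivative argument: `D ^ m` of `(1 + X) ^ (m + l) q` is `(1 + X) ^ l` times a polynomial of
degree at most that of `q` -/
theorem iter_deriv_form (q : ℤ[X]) (l m : ℕ) : ∃ q' : ℤ[X], q'.natDegree ≤ q.natDegree ∧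
    derivative^[m] (q * (1 + X) ^ (m + l)) = q' * (1 + X) ^ l := by
  induction m generalizing l with
  | zero => exact ⟨q, le_rfl, by simp⟩
  | succ m ih =>
    obtain ⟨q', hq', h⟩ := ih (l + 1)
    refine ⟨derivative q' * (1 + X) + C ((l + 1 : ℕ) : ℤ) * q', ?_, ?_⟩
    · refine (natDegree_add_le _ _).trans (max_le ?_ ((natDegree_C_mul_le _ _).trans hq'))
      rcases eq_or_ne q'.natDegree 0 with h0 | h0
      · rw [derivative_of_natDegree_zero h0, zero_mul]; simp
      · have h1 := natDegree_mul_le (p := derivative q') (q := (1 + X : ℤ[X]))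
        have h2 := natDegree_derivative_le q'
        have h3 : (1 + X : ℤ[X]).natDegree = 1 := by
          have := natDegree_one_add_X_pow 1
          rwa [pow_one] at this
        omega
    · rw [Function.iterate_succ_apply', show m + 1 + l = m + (l + 1) by ring, h]
      rw [derivative_mul, derivative_pow]
      simp only [derivative_add, derivative_one, derivative_X, zero_add, mul_one]
      rw [show l + 1 - 1 = l by omega]
      push_cast
      ring

theorem rho_zero (N : ℕ) : rho N 0 = ((2 * N).choose N : ℤ) := by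
  simp [rho]

theorem rho_zero_ne (N : ℕ) : rho N 0 ≠ 0 := by
  rw [rho_zero]
  exact_mod_cast (Nat.choose_pos (by omega)).ne'

theorem GN_coeff_N_ne_zero (N : ℕ) (hN : 1 ≤ N) : (GN N).coeff N ≠ 0 := by
  intro h0
  obtain ⟨q', hq', hD⟩ := iter_deriv_form (RN N) N N
  rw [← two_mul] at hD
  have hD' : derivative^[N] (GN N) = q' * (1 + X) ^ N := hD
  have h1 : X ^ (N + 1) ∣ derivative^[N] (GN N) := by
    rw [X_pow_dvd_iff]
    intro d hd
    rw [coeff_iterate_derivative]
    have : (GN N).coeff (d + N) = 0 := by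
      rcases eq_or_ne d 0 with h | h
      · rw [h, zero_add]; exact h0
      · exact GN_gap N _ hN (by omega) (by omega)
    rw [this, smul_zero]
  rw [hD'] at h1
  have hcop : IsCoprime (X ^ (N + 1) : ℤ[X]) ((1 + X) ^ N) := by
    apply IsCoprime.pow
    exact ⟨-1, 1, by ring⟩
  have h2 : X ^ (N + 1) ∣ q' := hcop.dvd_of_dvd_mul_right h1
  have h3 : q' = 0 := by
    by_contra hne
    have h4 := natDegree_le_of_dvd h2 hne
    rw [natDegree_X_pow] at h4
    have := RN_natDegree N
    omega
  rw [h3, zero_mul] at hD'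
  have h4 : GN N = 0 := by
    by_contra hne
    have h5 : (GN N).natDegree < N := by
      by_contra hge
      have e1 := congrArg (fun p => p.coeff ((GN N).natDegree - N)) hD'
      simp only [coeff_iterate_derivative, coeff_zero] at e1
      rw [show (GN N).natDegree - N + N = (GN N).natDegree by omega, coeff_natDegree,
        nsmul_eq_mul, mul_eq_zero] at e1
      rcases e1 with e1 | e1
      · have : (GN N).natDegree.descFactorial N = 0 := by exact_mod_cast e1
        rw [Nat.descFactorial_eq_zero_iff_lt] at this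
        omega
      · exact hne (leadingCoeff_eq_zero.1 e1)
    have h6 : RN N ≠ 0 := by
      intro h; apply hne; rw [GN, h, zero_mul]
    have h7 : (GN N).natDegree = (RN N).natDegree + 2 * N := by
      rw [GN, natDegree_mul h6 (pow_ne_zero _ ?_), natDegree_one_add_X_pow]
      intro h
      have := natDegree_one_add_X_pow 1
      rw [pow_one, h] at this
      simp at this
    omega
  have h5 : (GN N).coeff 0 = 0 := by rw [h4, coeff_zero]
  rw [GN, mul_coeff_zero, RN_coeff, if_pos (by omega)] at h5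
  have h6 : ((1 + X : ℤ[X]) ^ (2 * N)).coeff 0 = 1 := by
    rw [coeff_one_add_X_pow]; simp
  rw [h6, mul_one] at h5
  exact rho_zero_ne N h5

theorem reflect_one_add_pow (m : ℕ) : reflect m ((1 + X : ℤ[X]) ^ m) = (1 + X) ^ m := by
  ext k
  rw [coeff_reflect, coeff_one_add_X_pow, coeff_one_add_X_pow]
  rcases Nat.lt_or_ge m k with h | h
  · rw [revAt_eq_self_of_lt h]
  · rw [revAt_le h, Nat.choose_symm h]

theorem reflect_GN (N : ℕ) : reflect (3 * N) (GN N) = reflect N (RN N) * (1 + X) ^ (2 * N) := by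
  rw [GN, show 3 * N = N + 2 * N by ring,
    reflect_mul _ _ (RN_natDegree N) (natDegree_one_add_X_pow _).le, reflect_one_add_pow]

theorem reflect_GN' (N : ℕ) (hN : 1 ≤ N) :
    reflect (3 * N) (GN N) = reflect N (AN N) + X ^ (2 * N) * reflect N (BN N) := by
  rw [GN_eq N hN, reflect_add, add_comm]
  congr 1
  · rw [show 3 * N = 2 * N + N by ring, reflect_mul _ _ (natDegree_X_pow_le _) (AN_natDegree N)]
    rw [show reflect (2 * N) (X ^ (2 * N) : ℤ[X]) = 1 by
      rw [← one_mul (X ^ (2 * N) : ℤ[X]), ← C_1, reflect_C_mul_X_pow, revAt_le le_rfl]; simp]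
    rw [one_mul]
  · ext k
    rw [coeff_X_pow_mul', coeff_reflect]
    rcases Nat.lt_or_ge (3 * N) k with h | h
    · rw [revAt_eq_self_of_lt h, coeff_eq_zero_of_natDegree_lt (lt_of_le_of_lt (BN_natDegree N) (by omega)),
        if_pos (by omega), coeff_reflect, revAt_eq_self_of_lt (by omega),
        coeff_eq_zero_of_natDegree_lt (lt_of_le_of_lt (BN_natDegree N) (by omega))]
    · rw [revAt_le h]
      split_ifs with h1
      · rw [coeff_reflect, revAt_le (by omega)]
        congr 1; omega
      · exact coeff_eq_zero_of_natDegree_lt (lt_of_le_of_lt (BN_natDegree N) (by omega))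

/-- the determinant -/
theorem det_poly (N : ℕ) (hN : 1 ≤ N) : ∃ g : ℤ, g ≠ 0 ∧
    AN N * reflect N (AN N) - BN N * reflect N (BN N) = C g * (1 + X) ^ (2 * N) := by
  set A := AN N with hA
  set B := BN N with hB
  set A' := reflect N A with hA'
  set B' := reflect N B with hB'
  set R' := reflect N (RN N) with hR'
  have e1 : RN N * (1 + X) ^ (2 * N) = B + X ^ (2 * N) * A := GN_eq N hN
  have e2 : R' * (1 + X) ^ (2 * N) = A' + X ^ (2 * N) * B' := by
    rw [← reflect_GN, reflect_GN' N hN]
  have e3 : X ^ (2 * N) * (A * A' - B * B') = (1 + X) ^ (2 * N) * (A' * RN N - B * R') := by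
    linear_combination (-A') * e1 + B * e2
  have hcop : IsCoprime ((1 + X) ^ (2 * N) : ℤ[X]) (X ^ (2 * N)) := by
    apply IsCoprime.pow
    exact ⟨1, -1, by ring⟩
  have h1 : (1 + X) ^ (2 * N) ∣ (A * A' - B * B') := by
    apply hcop.dvd_of_dvd_mul_left
    rw [e3]
    exact dvd_mul_right _ _
  obtain ⟨q, hq⟩ := h1
  have hrefl : ∀ p : ℤ[X], p.natDegree ≤ N → (reflect N p).natDegree ≤ N := by
    intro p hp
    rw [natDegree_le_iff_coeff_eq_zero]
    intro k hk
    rw [coeff_reflect, revAt_eq_self_of_lt hk, coeff_eq_zero_of_natDegree_lt (by omega)]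
  have hdeg : (A * A' - B * B').natDegree ≤ 2 * N := by
    refine (natDegree_sub_le _ _).trans (max_le ?_ ?_)
    · refine (natDegree_mul_le).trans ?_
      have h5 : A.natDegree ≤ N := AN_natDegree N
      have h6 : A'.natDegree ≤ N := hrefl _ h5
      omega
    · refine (natDegree_mul_le).trans ?_
      have h5 : B.natDegree ≤ N := BN_natDegree N
      have h6 : B'.natDegree ≤ N := hrefl _ h5
      omega
  have hP0 : ((1 + X : ℤ[X]) ^ (2 * N)) ≠ 0 := by
    intro h
    have := natDegree_one_add_X_pow (2 * N)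
    rw [h] at this
    simp at this
    omega
  have hqd : q.natDegree = 0 := by
    by_contra hne
    have hq0 : q ≠ 0 := by rintro rfl; simp at hne
    rw [hq, natDegree_mul hP0 hq0, natDegree_one_add_X_pow] at hdeg
    omega
  rw [natDegree_eq_zero] at hqd
  obtain ⟨g, hg⟩ := hqd
  refine ⟨g, ?_, ?_⟩
  · rintro rfl
    rw [← hg, C_0, mul_zero] at hq
    have h2 := congrArg (fun p => p.coeff 0) hq
    simp only [coeff_sub, mul_coeff_zero, coeff_zero] at h2
    rw [hA, AN_coeff, if_pos (by omega), add_zero, GN_gap N (2 * N) hN (by omega) le_rfl, zero_mul,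
      zero_sub, neg_eq_zero, mul_eq_zero] at h2
    rcases h2 with h2 | h2
    · rw [hB, BN_coeff, if_pos (by omega), GN, mul_coeff_zero, RN_coeff, if_pos (by omega),
        coeff_one_add_X_pow, Nat.choose_zero_right, Nat.cast_one, mul_one] at h2
      exact rho_zero_ne N h2
    · rw [hB', coeff_reflect, revAt_le (by omega), Nat.sub_zero, hB, BN_coeff, if_pos le_rfl] at h2
      exact GN_coeff_N_ne_zero N hN h2
  · rw [hq, ← hg, mul_comm]

section eval
variable {L : Type*} [Field L]

/-- homogeneous evaluation -/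
noncomputable def hev (N : ℕ) (p : ℤ[X]) (x y : L) : L :=
  ∑ i ∈ Finset.range (N + 1), (p.coeff i : L) * (x ^ i * y ^ (N - i))

theorem hev_eq (N : ℕ) (p : ℤ[X]) (hp : p.natDegree ≤ N) (x y : L) (hy : y ≠ 0) :
    hev N p x y = y ^ N * aeval (x / y) p := by
  rw [hev, aeval_eq_sum_range' (Nat.lt_succ_of_le hp), Finset.mul_sum]
  apply Finset.sum_congr rfl
  intro i hi
  rw [Finset.mem_range] at hi
  rw [zsmul_eq_mul, div_pow, ← Nat.sub_add_cancel (show i ≤ N by omega), pow_add,
    show N - i + i - i = N - i by omega]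
  field_simp

theorem hev_swap (N : ℕ) (p : ℤ[X]) (x y : L) : hev N p y x = hev N (reflect N p) x y := by
  rw [hev, hev, ← Finset.sum_range_reflect]
  apply Finset.sum_congr rfl
  intro i hi
  rw [Finset.mem_range] at hi
  rw [coeff_reflect, revAt_le (by omega), show N + 1 - 1 - i = N - i by omega,
    show N - (N - i) = i by omega]
  ring

theorem rel_hev (N : ℕ) (hN : 1 ≤ N) (x y : L) (hy : y ≠ 0) :
    x ^ (2 * N) * hev N (AN N) x y + y ^ (2 * N) * hev N (BN N) x y =
      (x + y) ^ (2 * N) * hev N (RN N) x y := by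
  have h := congrArg (aeval (x / y)) (GN_eq N hN)
  rw [GN] at h
  simp only [map_mul, map_add, map_pow, map_one, aeval_X] at h
  rw [hev_eq N _ (AN_natDegree N) x y hy, hev_eq N _ (BN_natDegree N) x y hy,
    hev_eq N _ (RN_natDegree N) x y hy]
  have e1 : (x + y) ^ (2 * N) = y ^ (2 * N) * (1 + x / y) ^ (2 * N) := by
    rw [← mul_pow]; congr 1; field_simp; ring
  have e2 : x ^ (2 * N) = y ^ (2 * N) * (x / y) ^ (2 * N) := by
    rw [← mul_pow]; congr 1; field_simp
  rw [e1, e2]
  linear_combination (-(y ^ (2 * N) * y ^ N)) * h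

theorem det_hev [CharZero L] (N : ℕ) (hN : 1 ≤ N) (x y : L) (hy : y ≠ 0) (hxy : x + y ≠ 0) :
    hev N (AN N) x y * hev N (AN N) y x - hev N (BN N) x y * hev N (BN N) y x ≠ 0 := by
  obtain ⟨g, hg0, hg⟩ := det_poly N hN
  have hrefl : ∀ p : ℤ[X], p.natDegree ≤ N → (reflect N p).natDegree ≤ N := by
    intro p hp
    rw [natDegree_le_iff_coeff_eq_zero]
    intro k hk
    rw [coeff_reflect, revAt_eq_self_of_lt hk, coeff_eq_zero_of_natDegree_lt (by omega)]
  rw [hev_swap N (AN N) x y, hev_swap N (BN N) x y, hev_eq N _ (AN_natDegree N) x y hy,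
    hev_eq N _ (BN_natDegree N) x y hy, hev_eq N _ (hrefl _ (AN_natDegree N)) x y hy,
    hev_eq N _ (hrefl _ (BN_natDegree N)) x y hy]
  have h := congrArg (aeval (x / y)) hg
  simp only [map_mul, map_add, map_sub, map_pow, map_one, aeval_X, aeval_C] at h
  have e1 : (x + y) = y * (1 + x / y) := by field_simp; ring
  have e2 : 1 + x / y ≠ 0 := by
    intro h0; rw [e1, h0, mul_zero] at hxy; exact hxy rfl
  have e3 : y ^ N * aeval (x / y) (AN N) * (y ^ N * aeval (x / y) (reflect N (AN N))) -
      y ^ N * aeval (x / y) (BN N) * (y ^ N * aeval (x / y) (reflect N (BN N))) =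
      y ^ N * y ^ N * ((algebraMap ℤ L) g * (1 + x / y) ^ (2 * N)) := by
    rw [← h]; ring
  rw [e3]
  refine mul_ne_zero (mul_ne_zero (pow_ne_zero _ hy) (pow_ne_zero _ hy))
    (mul_ne_zero ?_ (pow_ne_zero _ e2))
  simpa using hg0

end eval

end Pool.Agent.Lib.MP_ca2859_nt
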