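import Mathlib
import Pool.Agent.Lib.MP_ca2859_nt.Pade

/-!
# Unit equation: local estimates and the two gap principles
-/

open Polynomial

set_option linter.unusedSectionVars false

namespace Pool.Agent.Lib.MP_ca2859_nt

section loc
variable {L : Type*} [Field L]

theorem av_natCast_le (v : AbsoluteValue L ℝ) (n : ℕ) : v (n : L) ≤ n := by
  induction n with
  | zero => simp
  | succ n ih =>
    push_cast
    refine (v.add_le _ _).trans ?_
    rw [map_one]
    linarith

theorem av_intCast_le (v : AbsoluteValue L ℝ) (n : ℤ) : v (n : L) ≤ |(n : ℝ)| := by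
  rcases le_total 0 n with h | h
  · lift n to ℕ using h
    rw [Int.cast_natCast, Int.cast_natCast, Nat.abs_cast]
    exact av_natCast_le v n
  · obtain ⟨k, rfl⟩ : ∃ k : ℕ, n = -(k : ℤ) := ⟨n.natAbs, by omega⟩
    rw [Int.cast_neg, Int.cast_natCast, map_neg_eq_map, Int.cast_neg, Int.cast_natCast, abs_neg,
      Nat.abs_cast]
    exact av_natCast_le v k

theorem na_natCast_le (v : AbsoluteValue L ℝ) (hv : IsNonarchimedean v) (n : ℕ) : v (n : L) ≤ 1 := by
  induction n with
  | zero => simp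
  | succ n ih =>
    push_cast
    refine (hv _ _).trans ?_
    rw [map_one]
    exact max_le ih le_rfl

theorem na_intCast_le (v : AbsoluteValue L ℝ) (hv : IsNonarchimedean v) (n : ℤ) : v (n : L) ≤ 1 := by
  rcases le_total 0 n with h | h
  · lift n to ℕ using h
    rw [Int.cast_natCast]
    exact na_natCast_le v hv n
  · obtain ⟨k, rfl⟩ : ∃ k : ℕ, n = -(k : ℤ) := ⟨n.natAbs, by omega⟩
    rw [Int.cast_neg, Int.cast_natCast, map_neg_eq_map]
    exact na_natCast_le v hv k

theorem mono_le (v : AbsoluteValue L ℝ) (x y : L) (N i : ℕ) (hi : i ≤ N) :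
    v (x ^ i * y ^ (N - i)) ≤ max (v x) (v y) ^ N := by
  rw [map_mul, map_pow, map_pow]
  calc v x ^ i * v y ^ (N - i) ≤ max (v x) (v y) ^ i * max (v x) (v y) ^ (N - i) := by
        gcongr
        · exact le_max_left _ _
        · exact le_max_right _ _
    _ = _ := by rw [← pow_add]; congr 1; omega

theorem av_hev_le (v : AbsoluteValue L ℝ) (N : ℕ) (p : ℤ[X]) (b : ℝ)
    (hp : ∀ i, |((p.coeff i : ℤ) : ℝ)| ≤ b) (x y : L) :
    v (hev N p x y) ≤ ((N + 1) * b) * max (v x) (v y) ^ N := by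
  rw [hev]
  refine (v.sum_le _ _).trans ?_
  have h1 : ∀ i ∈ Finset.range (N + 1), v ((p.coeff i : L) * (x ^ i * y ^ (N - i))) ≤
      b * max (v x) (v y) ^ N := by
    intro i hi
    rw [Finset.mem_range] at hi
    rw [map_mul]
    exact mul_le_mul ((av_intCast_le v _).trans (hp i)) (mono_le v x y N i (by omega)) (v.nonneg _)
      ((abs_nonneg _).trans (hp 0))
  refine (Finset.sum_le_sum h1).trans ?_
  rw [Finset.sum_const, Finset.card_range, nsmul_eq_mul]
  push_cast
  rw [mul_assoc]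

theorem na_hev_le (v : AbsoluteValue L ℝ) (hv : IsNonarchimedean v) (N : ℕ) (p : ℤ[X]) (x y : L) :
    v (hev N p x y) ≤ max (v x) (v y) ^ N := by
  rw [hev]
  have h0 : 0 ≤ max (v x) (v y) ^ N := pow_nonneg (le_max_of_le_left (v.nonneg _)) _
  have h1 : ∀ s : Finset ℕ, s ⊆ Finset.range (N + 1) →
      v (∑ i ∈ s, (p.coeff i : L) * (x ^ i * y ^ (N - i))) ≤ max (v x) (v y) ^ N := by
    intro s
    classical
    induction s using Finset.induction_on with
    | empty => intro _; simp [h0]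
    | insert a s has ih =>
      intro hs
      rw [Finset.sum_insert has]
      refine (hv _ _).trans (max_le ?_ (ih ((Finset.subset_insert _ _).trans hs)))
      have ha := hs (Finset.mem_insert_self a s)
      rw [Finset.mem_range] at ha
      rw [map_mul]
      calc v (p.coeff a : L) * v (x ^ a * y ^ (N - a)) ≤ 1 * max (v x) (v y) ^ N :=
            mul_le_mul (na_intCast_le v hv _) (mono_le v x y N a (by omega)) (v.nonneg _) zero_le_one
        _ = _ := one_mul _
  exact h1 _ (Finset.Subset.refl _)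

/-- local size of the pair -/
noncomputable def PP (v : AbsoluteValue L ℝ) (x y : L) : ℝ := max (v x) (max (v y) 1)

theorem one_le_PP (v : AbsoluteValue L ℝ) (x y : L) : 1 ≤ PP v x y :=
  (le_max_right _ _).trans (le_max_right _ _)

theorem PP_pos (v : AbsoluteValue L ℝ) (x y : L) : 0 < PP v x y :=
  zero_lt_one.trans_le (one_le_PP v x y)

theorem max_le_PP (v : AbsoluteValue L ℝ) (x y : L) : max (v x) (v y) ≤ PP v x y :=
  max_le (le_max_left _ _) ((le_max_left _ _).trans (le_max_right _ _))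

/-- local inequality, general form -/
theorem local_ineq (v : AbsoluteValue L ℝ) (E : ℝ) (hE : 0 ≤ E)
    (hadd : ∀ a b : L, v (a + b) ≤ E * max (v a) (v b)) (x y ξ η A B Cc : L) (m : ℕ) (M : ℝ)
    (hA : v A ≤ M) (hB : v B ≤ M) (hC : v Cc ≤ M)
    (h1 : x ^ m * A + y ^ m * B + Cc = 0) (h2 : ξ * x ^ m + η * y ^ m = 1) :
    v (ξ * B - η * A) * PP v x y ^ m ≤ E * (PP v ξ η * M) := by
  have hM : 0 ≤ M := (v.nonneg _).trans hA
  have e1 : x ^ m * (ξ * B - η * A) = η * Cc + B := by linear_combination B * h2 - η * h1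
  have e2 : y ^ m * (ξ * B - η * A) = -(A + ξ * Cc) := by linear_combination (-A) * h2 + ξ * h1
  have hξ : v ξ ≤ PP v ξ η := le_max_left _ _
  have hη : v η ≤ PP v ξ η := (le_max_left _ _).trans (le_max_right _ _)
  have h1' : (1 : ℝ) ≤ PP v ξ η := one_le_PP v ξ η
  have h0' : 0 ≤ PP v ξ η := zero_le_one.trans h1'
  have f0 : v (ξ * B - η * A) ≤ E * (PP v ξ η * M) := by
    rw [sub_eq_add_neg]
    refine (hadd _ _).trans (mul_le_mul_of_nonneg_left (max_le ?_ ?_) hE)
    · rw [map_mul]; exact mul_le_mul hξ hB (v.nonneg _) h0'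
    · rw [map_neg_eq_map, map_mul]; exact mul_le_mul hη hA (v.nonneg _) h0'
  have f1 : v (ξ * B - η * A) * v x ^ m ≤ E * (PP v ξ η * M) := by
    rw [← map_pow, ← map_mul, mul_comm, e1]
    refine (hadd _ _).trans (mul_le_mul_of_nonneg_left (max_le ?_ ?_) hE)
    · rw [map_mul]; exact mul_le_mul hη hC (v.nonneg _) h0'
    · calc v B = 1 * v B := (one_mul _).symm
        _ ≤ PP v ξ η * M := mul_le_mul h1' hB (v.nonneg _) h0'
  have f2 : v (ξ * B - η * A) * v y ^ m ≤ E * (PP v ξ η * M) := by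
    rw [← map_pow, ← map_mul, mul_comm, e2, map_neg_eq_map]
    refine (hadd _ _).trans (mul_le_mul_of_nonneg_left (max_le ?_ ?_) hE)
    · calc v A = 1 * v A := (one_mul _).symm
        _ ≤ PP v ξ η * M := mul_le_mul h1' hA (v.nonneg _) h0'
    · rw [map_mul]; exact mul_le_mul hξ hC (v.nonneg _) h0'
  rcases max_choice (v x) (max (v y) 1) with h | h
  · rw [show PP v x y = v x from h]; exact f1
  · rcases max_choice (v y) 1 with h' | h'
    · rw [show PP v x y = v y from h.trans h']; exact f2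
    · rw [show PP v x y = 1 from h.trans h', one_pow, mul_one]; exact f0

end loc

/-- product formula data -/
structure PFD (L : Type*) [Field L] (J : Type*) [Fintype J] where
  v : J → AbsoluteValue L ℝ
  m : J → ℝ
  e : J → ℝ
  O : Subring L
  D : ℝ
  m_nonneg : ∀ j, 0 ≤ m j
  e_nonneg : ∀ j, 0 ≤ e j
  type : ∀ j, m j ≤ e j ∨ IsNonarchimedean (v j)
  D_ge : ∑ j, e j ≤ D
  prod : ∀ a ∈ O, a ≠ 0 → 0 ≤ ∑ j, m j * Real.log (v j a)

namespace PFD
variable {L : Type*} [Field L] [CharZero L] {J : Type*} [Fintype J] (F : PFD L J)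

/-- height of a pair -/
noncomputable def ht (x y : L) : ℝ := ∑ j, F.m j * Real.log (PP (F.v j) x y)

theorem ht_nonneg (x y : L) : 0 ≤ F.ht x y :=
  Finset.sum_nonneg fun j _ => mul_nonneg (F.m_nonneg j) (Real.log_nonneg (one_le_PP _ _ _))

theorem D_nonneg : 0 ≤ F.D := (Finset.sum_nonneg fun j _ => F.e_nonneg j).trans F.D_ge

theorem hev_mem (N : ℕ) (p : ℤ[X]) (x y : L) (hx : x ∈ F.O) (hy : y ∈ F.O) : hev N p x y ∈ F.O := by
  rw [hev]
  refine F.O.sum_mem fun i _ => F.O.mul_mem (intCast_mem _ _) ?_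
  exact F.O.mul_mem (F.O.pow_mem hx _) (F.O.pow_mem hy _)

/-- summing the local inequalities -/
theorem global_ineq (x y ξ η A B Cc : L) (m k : ℕ) (c : ℝ) (hc : 1 ≤ c)
    (hξ : ξ ∈ F.O) (hη : η ∈ F.O) (hAO : A ∈ F.O) (hBO : B ∈ F.O)
    (hAa : ∀ j, F.v j A ≤ c * PP (F.v j) x y ^ k) (hBa : ∀ j, F.v j B ≤ c * PP (F.v j) x y ^ k)
    (hCa : ∀ j, F.v j Cc ≤ c * PP (F.v j) x y ^ k)
    (hAn : ∀ j, IsNonarchimedean (F.v j) → F.v j A ≤ PP (F.v j) x y ^ k)
    (hBn : ∀ j, IsNonarchimedean (F.v j) → F.v j B ≤ PP (F.v j) x y ^ k)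
    (hCn : ∀ j, IsNonarchimedean (F.v j) → F.v j Cc ≤ PP (F.v j) x y ^ k)
    (h1 : x ^ m * A + y ^ m * B + Cc = 0) (h2 : ξ * x ^ m + η * y ^ m = 1)
    (hne : ξ * B - η * A ≠ 0) :
    m * F.ht x y ≤ F.ht ξ η + k * F.ht x y + F.D * Real.log (2 * c) := by
  have hprod := F.prod _ (F.O.sub_mem (F.O.mul_mem hξ hBO) (F.O.mul_mem hη hAO)) hne
  have hloc : ∀ j, F.m j * Real.log (F.v j (ξ * B - η * A)) + m * (F.m j * Real.log (PP (F.v j) x y)) ≤
      F.m j * Real.log (PP (F.v j) ξ η) + k * (F.m j * Real.log (PP (F.v j) x y)) +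
        F.e j * Real.log (2 * c) := by
    intro j
    have hv0 : 0 < F.v j (ξ * B - η * A) := (F.v j).pos hne
    have hP := PP_pos (F.v j) x y
    have hP' := PP_pos (F.v j) ξ η
    have hlog2 : 0 ≤ Real.log (2 * c) := Real.log_nonneg (by linarith)
    rcases F.type j with h | h
    · have hl := local_ineq (F.v j) 2 (by norm_num) (by
        intro a b
        refine ((F.v j).add_le a b).trans ?_
        have := le_max_left (F.v j a) (F.v j b)
        have := le_max_right (F.v j a) (F.v j b)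
        linarith) x y ξ η A B Cc m _ (hAa j) (hBa j) (hCa j) h1 h2
      have hl' := Real.log_le_log (by positivity) hl
      rw [Real.log_mul hv0.ne' (by positivity), Real.log_pow,
        show (2 : ℝ) * (PP (F.v j) ξ η * (c * PP (F.v j) x y ^ k)) =
          (2 * c) * (PP (F.v j) ξ η * PP (F.v j) x y ^ k) by ring,
        Real.log_mul (show 2 * c ≠ 0 by positivity)
          (show PP (F.v j) ξ η * PP (F.v j) x y ^ k ≠ 0 by positivity),
        Real.log_mul hP'.ne' (by positivity), Real.log_pow] at hl'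
      have := mul_le_mul_of_nonneg_left hl' (F.m_nonneg j)
      have h3 : F.m j * Real.log (2 * c) ≤ F.e j * Real.log (2 * c) :=
        mul_le_mul_of_nonneg_right h hlog2
      nlinarith [this, h3]
    · have hl := local_ineq (F.v j) 1 (by norm_num) (by
        intro a b
        rw [one_mul]
        exact h a b) x y ξ η A B Cc m _ (hAn j h) (hBn j h) (hCn j h) h1 h2
      have hl' := Real.log_le_log (by positivity) hl
      rw [Real.log_mul hv0.ne' (by positivity), Real.log_pow, one_mul,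
        Real.log_mul (by positivity) (by positivity), Real.log_pow] at hl'
      have := mul_le_mul_of_nonneg_left hl' (F.m_nonneg j)
      have h3 : 0 ≤ F.e j * Real.log (2 * c) := mul_nonneg (F.e_nonneg j) hlog2
      nlinarith [this, h3]
  have hsum := Finset.sum_le_sum (fun j (_ : j ∈ Finset.univ) => hloc j)
  simp only [Finset.sum_add_distrib, ← Finset.mul_sum, ← Finset.sum_mul] at hsum
  have hlog2 : 0 ≤ Real.log (2 * c) := Real.log_nonneg (by linarith)
  have h3 : (∑ j, F.e j) * Real.log (2 * c) ≤ F.D * Real.log (2 * c) :=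
    mul_le_mul_of_nonneg_right F.D_ge hlog2
  rw [ht, ht]
  linarith

/-- first gap principle -/
theorem gap_one (x y X Y : L) (hx0 : x ≠ 0) (hy0 : y ≠ 0) (h1 : x + y = 1) (h2 : X + Y = 1)
    (hξ : X / x ∈ F.O) (hη : Y / y ∈ F.O) (hne : X ≠ x) :
    F.ht x y ≤ F.ht (X / x) (Y / y) + F.D * Real.log 2 := by
  have := F.global_ineq x y (X / x) (Y / y) 1 1 (-1) 1 0 1 le_rfl hξ hη F.O.one_mem F.O.one_mem
    (by simp) (by simp) (by simp) (by simp) (by simp) (by simp)
    (by linear_combination h1) (by field_simp; linear_combination h2) (by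
      intro h0
      apply hne
      have h3 : X / x = Y / y := by linear_combination h0
      rw [div_eq_div_iff hx0 hy0] at h3
      have h4 : Y = 1 - X := by linear_combination h2
      have h5 : y = 1 - x := by linear_combination h1
      rw [h4, h5] at h3
      linear_combination h3)
  simpa using this

/-- second gap principle -/
theorem gap_pow (N : ℕ) (hN : 1 ≤ N) (x y X Y : L) (hx0 : x ≠ 0) (hy0 : y ≠ 0) (h1 : x + y = 1)
    (h2 : X + Y = 1) (hX0 : X ≠ 0) (hxO : x ∈ F.O) (hyO : y ∈ F.O)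
    (hξ : X / x ^ (2 * N) ∈ F.O) (hη : Y / y ^ (2 * N) ∈ F.O) :
    N * F.ht x y ≤ F.ht (X / x ^ (2 * N)) (Y / y ^ (2 * N)) + F.D * (N * 7) := by
  set ξ := X / x ^ (2 * N) with hξd
  set η := Y / y ^ (2 * N) with hηd
  have hrel : ξ * x ^ (2 * N) + η * y ^ (2 * N) = 1 := by
    rw [hξd, hηd]; field_simp; exact h2
  set A := hev N (AN N) x y with hA
  set B := hev N (BN N) x y with hB
  set R := hev N (RN N) x y with hR
  set A' := hev N (AN N) y x with hA'
  set B' := hev N (BN N) y x with hB'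
  set R' := hev N (RN N) y x with hR'
  have r1 : x ^ (2 * N) * A + y ^ (2 * N) * B + (-R) = 0 := by
    have := rel_hev N hN x y hy0
    rw [h1, one_pow, one_mul] at this
    linear_combination this
  have r2 : x ^ (2 * N) * B' + y ^ (2 * N) * A' + (-R') = 0 := by
    have := rel_hev N hN y x hx0
    rw [add_comm y x, h1, one_pow, one_mul] at this
    linear_combination this
  have hdet := det_hev N hN x y hy0 (by rw [h1]; exact one_ne_zero)
  set c : ℝ := (N + 1) * 128 ^ N with hc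
  have hc1 : 1 ≤ c := by
    have h3 : (1 : ℝ) ≤ 128 ^ N := one_le_pow₀ (by norm_num)
    have h4 : (0 : ℝ) ≤ N := Nat.cast_nonneg _
    nlinarith
  have hcoef : ∀ p : ℤ[X], (∀ i, |p.coeff i| ≤ 128 ^ N) → ∀ i, |((p.coeff i : ℤ) : ℝ)| ≤ 128 ^ N := by
    intro p hp i
    have := hp i
    rw [← Int.cast_abs]
    exact_mod_cast this
  have cA := hcoef _ (fun i => AN_coeff_abs_le N i hN)
  have cB := hcoef _ (fun i => BN_coeff_abs_le N i hN)
  have cR := hcoef (RN N) (fun i => by
    rw [RN_coeff]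
    split_ifs with h
    · refine (rho_abs_le N i hN h).trans ?_
      exact pow_le_pow_left₀ (by norm_num) (by norm_num) _
    · simp)
  have hmaxpow : ∀ (v : AbsoluteValue L ℝ) (a b : L), max (v a) (v b) ^ N ≤ PP v a b ^ N := by
    intro v a b
    exact pow_le_pow_left₀ (le_max_of_le_left (v.nonneg _)) (max_le_PP v a b) _
  have hmaxpow' : ∀ (v : AbsoluteValue L ℝ) (a b : L), max (v a) (v b) ^ N ≤ PP v b a ^ N := by
    intro v a b
    rw [max_comm]; exact hmaxpow v b a
  have arch1 : ∀ p : ℤ[X], (∀ i, |((p.coeff i : ℤ) : ℝ)| ≤ 128 ^ N) → ∀ j,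
      F.v j (hev N p x y) ≤ c * PP (F.v j) x y ^ N := fun p hp j =>
    (av_hev_le _ N p _ hp x y).trans (mul_le_mul_of_nonneg_left (hmaxpow _ _ _) (by positivity))
  have arch2 : ∀ p : ℤ[X], (∀ i, |((p.coeff i : ℤ) : ℝ)| ≤ 128 ^ N) → ∀ j,
      F.v j (hev N p y x) ≤ c * PP (F.v j) x y ^ N := fun p hp j =>
    (av_hev_le _ N p _ hp y x).trans (mul_le_mul_of_nonneg_left (hmaxpow' _ _ _) (by positivity))
  have na1 : ∀ p : ℤ[X], ∀ j, IsNonarchimedean (F.v j) →
      F.v j (hev N p x y) ≤ PP (F.v j) x y ^ N := fun p j hj =>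
    (na_hev_le _ hj N p x y).trans (hmaxpow _ _ _)
  have na2 : ∀ p : ℤ[X], ∀ j, IsNonarchimedean (F.v j) →
      F.v j (hev N p y x) ≤ PP (F.v j) x y ^ N := fun p j hj =>
    (na_hev_le _ hj N p y x).trans (hmaxpow' _ _ _)
  have hfin : ((2 * N : ℕ) : ℝ) * F.ht x y ≤ F.ht ξ η + N * F.ht x y + F.D * Real.log (2 * c) := by
    by_cases hd : ξ * B - η * A ≠ 0
    · exact F.global_ineq x y ξ η A B (-R) (2 * N) N c hc1 hξ hη (F.hev_mem _ _ _ _ hxO hyO)
        (F.hev_mem _ _ _ _ hxO hyO) (arch1 _ cA) (arch1 _ cB)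
        (fun j => by rw [map_neg_eq_map]; exact arch1 _ cR j) (na1 _) (na1 _)
        (fun j hj => by rw [map_neg_eq_map]; exact na1 _ j hj) r1 hrel hd
    · have hd' : ξ * A' - η * B' ≠ 0 := by
        intro h0
        push Not at hd
        have hξ0 : ξ ≠ 0 := by
          rw [hξd]; exact div_ne_zero hX0 (pow_ne_zero _ hx0)
        have h3 : ξ * (A * A' - B * B') = 0 := by linear_combination A * h0 - B' * hd
        rcases mul_eq_zero.1 h3 with h4 | h4
        · exact hξ0 h4
        · exact hdet h4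
      exact F.global_ineq x y ξ η B' A' (-R') (2 * N) N c hc1 hξ hη (F.hev_mem _ _ _ _ hyO hxO)
        (F.hev_mem _ _ _ _ hyO hxO) (arch2 _ cB) (arch2 _ cA)
        (fun j => by rw [map_neg_eq_map]; exact arch2 _ cR j) (na2 _) (na2 _)
        (fun j hj => by rw [map_neg_eq_map]; exact na2 _ j hj) r2 hrel hd'
  have hlog : Real.log (2 * c) ≤ N * 7 := by
    have h3 : 2 * c ≤ 512 ^ N := by
      have h4 : ((N : ℝ) + 1) ≤ 2 ^ N := by exact_mod_cast Nat.succ_le_of_lt Nat.lt_two_pow_self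
      have h5 : (2 : ℝ) ≤ 2 ^ N := by
        calc (2 : ℝ) = 2 ^ 1 := by norm_num
          _ ≤ 2 ^ N := pow_le_pow_right₀ (by norm_num) hN
      calc 2 * c ≤ 2 ^ N * (2 ^ N * 128 ^ N) := by
            rw [hc]
            gcongr
        _ = 512 ^ N := by rw [← mul_pow, ← mul_pow]; norm_num
    refine (Real.log_le_log (by positivity) h3).trans ?_
    rw [Real.log_pow]
    have h6 : Real.log 512 ≤ 7 := by
      rw [show (512 : ℝ) = 2 ^ 9 by norm_num, Real.log_pow]
      have := Real.log_two_lt_d9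
      push_cast
      linarith
    exact mul_le_mul_of_nonneg_left h6 (Nat.cast_nonneg _)
  have := mul_le_mul_of_nonneg_left hlog F.D_nonneg
  push_cast at hfin
  linarith

end PFD

end Pool.Agent.Lib.MP_ca2859_nt
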