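import Mathlib
import Pool.Agent.Lib.MP_ca2859_nt.SUnitA

/-!
# Unit equation: counting large solutions
-/

open Polynomial

set_option linter.unusedSectionVars false

namespace Pool.Agent.Lib.MP_ca2859_nt

/-- number of integral points in an `ℓ¹` ball -/
theorem card_l1 {I : Type*} [Fintype I] [DecidableEq I] (M : ℕ) (S : Finset (I → Bool × ℕ))
    (hS : ∀ c ∈ S, ∑ i, (c i).2 ≤ M) : (S.card : ℝ) ≤ 2 ^ M * 4 ^ (Fintype.card I) := by
  classical
  set t : I → Finset (Bool × ℕ) := fun _ => Finset.univ ×ˢ Finset.range (M + 1) with ht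
  have hsub : S ⊆ Fintype.piFinset t := by
    intro c hc
    rw [Fintype.mem_piFinset]
    intro i
    rw [ht]
    simp only [Finset.mem_product, Finset.mem_univ, true_and, Finset.mem_range]
    have h1 : (c i).2 ≤ ∑ i, (c i).2 :=
      Finset.single_le_sum (f := fun i => (c i).2) (fun _ _ => Nat.zero_le _) (Finset.mem_univ i)
    have := hS c hc
    omega
  have h1 : (S.card : ℝ) ≤ ∑ c ∈ S, 2 ^ M * ∏ i, ((1 / 2 : ℝ)) ^ (c i).2 := by
    rw [Finset.card_eq_sum_ones]
    push_cast
    apply Finset.sum_le_sum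
    intro c hc
    rw [Finset.prod_pow_eq_pow_sum]
    have h2 : ((1 / 2 : ℝ)) ^ M ≤ (1 / 2) ^ (∑ i, (c i).2) :=
      pow_le_pow_of_le_one (by norm_num) (by norm_num) (hS c hc)
    calc (1 : ℝ) = 2 ^ M * (1 / 2) ^ M := by rw [← mul_pow]; norm_num
      _ ≤ _ := by gcongr
  have h2 : ∑ c ∈ S, 2 ^ M * ∏ i, ((1 / 2 : ℝ)) ^ (c i).2 ≤
      ∑ c ∈ Fintype.piFinset t, 2 ^ M * ∏ i, ((1 / 2 : ℝ)) ^ (c i).2 :=
    Finset.sum_le_sum_of_subset_of_nonneg hsub fun _ _ _ => by positivity
  have h3 : ∑ c ∈ Fintype.piFinset t, ∏ i, ((1 / 2 : ℝ)) ^ (c i).2 =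
      ∏ i : I, ∑ p ∈ t i, ((1 / 2 : ℝ)) ^ p.2 :=
    (Finset.prod_univ_sum t (fun _ p => ((1 / 2 : ℝ)) ^ p.2)).symm
  have h4 : ∀ i : I, ∑ p ∈ t i, ((1 / 2 : ℝ)) ^ p.2 ≤ 4 := by
    intro i
    rw [ht]
    simp only
    rw [Finset.sum_product]
    simp only [Fintype.univ_bool, Finset.sum_const]
    have h5 : ∑ m ∈ Finset.range (M + 1), ((1 / 2 : ℝ)) ^ m ≤ 2 := by
      rw [geom_sum_eq (by norm_num)]
      have : (0 : ℝ) ≤ (1 / 2) ^ (M + 1) := by positivity
      rw [div_le_iff_of_neg (by norm_num)]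
      linarith
    rw [show Finset.card {true, false} = 2 from rfl, nsmul_eq_mul]
    push_cast
    linarith
  refine h1.trans (h2.trans ?_)
  rw [← Finset.mul_sum, h3]
  refine mul_le_mul_of_nonneg_left ?_ (by positivity)
  refine (Finset.prod_le_prod (fun i _ => Finset.sum_nonneg fun _ _ => by positivity)
    (fun i _ => h4 i)).trans ?_
  rw [Finset.prod_const, Finset.card_univ]

namespace PFD
variable {L : Type*} [Field L] [CharZero L] {J : Type*} [Fintype J] (F : PFD L J)

/-- units -/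
def IsU (x : L) : Prop := x ≠ 0 ∧ x ∈ F.O ∧ x⁻¹ ∈ F.O

variable {F}

theorem IsU.div {x y : L} (hx : F.IsU x) (hy : F.IsU y) : F.IsU (x / y) := by
  refine ⟨div_ne_zero hx.1 hy.1, ?_, ?_⟩
  · rw [div_eq_mul_inv]; exact F.O.mul_mem hx.2.1 hy.2.2
  · rw [inv_div, div_eq_mul_inv]; exact F.O.mul_mem hy.2.1 hx.2.2

theorem IsU.pow {x : L} (hx : F.IsU x) (n : ℕ) : F.IsU (x ^ n) := by
  refine ⟨pow_ne_zero _ hx.1, F.O.pow_mem hx.2.1 _, ?_⟩
  rw [← inv_pow]; exact F.O.pow_mem hx.2.2 _

variable (F)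

/-- log coordinate -/
noncomputable def lg (j : J) (x : L) : ℝ := F.m j * Real.log (F.v j x)

variable {F}

theorem lg_div_pow {x y : L} (hx : F.IsU x) (hy : F.IsU y) (k : ℕ) (j : J) :
    F.lg j (y / x ^ k) = F.lg j y - k * F.lg j x := by
  rw [lg, lg, lg, map_div₀, map_pow, Real.log_div ((F.v j).ne_zero hy.1)
    (pow_ne_zero _ ((F.v j).ne_zero hx.1)), Real.log_pow]
  ring

theorem sum_lg {x : L} (hx : F.IsU x) : ∑ j, F.lg j x = 0 := by
  apply le_antisymm
  · have := F.prod _ hx.2.2 (inv_ne_zero hx.1)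
    simp only [map_inv₀, Real.log_inv, mul_neg, Finset.sum_neg_distrib] at this
    simp only [lg]
    linarith
  · exact F.prod _ hx.2.1 hx.1

theorem loc_ht {x y : L} (hx : F.IsU x) (hy : F.IsU y) (j : J) :
    F.m j * Real.log (PP (F.v j) x y) = max (F.lg j x) (max (F.lg j y) 0) := by
  have hx0 : 0 < F.v j x := (F.v j).pos hx.1
  have hy0 : 0 < F.v j y := (F.v j).pos hy.1
  have key : ∀ a b : ℝ, 0 < a → 0 < b → Real.log (max a b) = max (Real.log a) (Real.log b) := by
    intro a b ha hb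
    rcases le_total a b with h | h
    · rw [max_eq_right h, max_eq_right (Real.log_le_log ha h)]
    · rw [max_eq_left h, max_eq_left (Real.log_le_log hb h)]
  rw [PP, key _ _ hx0 (lt_max_of_lt_left hy0), key _ _ hy0 one_pos, Real.log_one, lg, lg,
    mul_max_of_nonneg _ _ (F.m_nonneg j), mul_max_of_nonneg _ _ (F.m_nonneg j), mul_zero]

theorem ht_eq {x y : L} (hx : F.IsU x) (hy : F.IsU y) :
    F.ht x y = ∑ j, max (F.lg j x) (max (F.lg j y) 0) := by
  rw [ht]
  exact Finset.sum_congr rfl fun j _ => loc_ht hx hy j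

theorem sum_abs_lg {x y : L} (hx : F.IsU x) (hy : F.IsU y) :
    ∑ j, |F.lg j x| ≤ 2 * F.ht x y ∧ ∑ j, |F.lg j y| ≤ 2 * F.ht x y := by
  have key : ∀ z : L, F.IsU z → (∀ j, max (F.lg j z) 0 ≤ max (F.lg j x) (max (F.lg j y) 0)) →
      ∑ j, |F.lg j z| ≤ 2 * F.ht x y := by
    intro z hz h
    have h1 : ∀ j, |F.lg j z| = 2 * max (F.lg j z) 0 - F.lg j z := by
      intro j
      rcases le_total 0 (F.lg j z) with h | h
      · rw [abs_of_nonneg h, max_eq_left h]; ring
      · rw [abs_of_nonpos h, max_eq_right h]; ring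
    rw [Finset.sum_congr rfl fun j _ => h1 j, Finset.sum_sub_distrib, sum_lg hz, sub_zero,
      ← Finset.mul_sum, ht_eq hx hy]
    exact mul_le_mul_of_nonneg_left (Finset.sum_le_sum fun j _ => h j) (by norm_num)
  refine ⟨key x hx fun j => ?_, key y hy fun j => ?_⟩
  · exact max_le_max le_rfl (le_max_right _ _)
  · exact le_max_right _ _

/-- height of a quotient for pairs in the same cell -/
theorem ht_quot_le {x y X Y : L} (hx : F.IsU x) (hy : F.IsU y) (hX : F.IsU X) (hY : F.IsU Y)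
    (h0 : 0 < F.ht x y) (H0 : 0 < F.ht X Y) (ε : ℝ)
    (hcx : ∀ j, F.lg j X / F.ht X Y - F.lg j x / F.ht x y ≤ ε)
    (hcy : ∀ j, F.lg j Y / F.ht X Y - F.lg j y / F.ht x y ≤ ε) (hε : 0 ≤ ε) (k : ℕ)
    (hk : k * F.ht x y ≤ F.ht X Y) :
    F.ht (X / x ^ k) (Y / y ^ k) ≤
      F.ht X Y * (Fintype.card J * ε) + (F.ht X Y - k * F.ht x y) := by
  set h := F.ht x y with hh
  set H := F.ht X Y with hH
  rw [ht_eq (hX.div (hx.pow k)) (hY.div (hy.pow k))]
  have hr : 0 ≤ H / h - k := by
    rw [sub_nonneg, le_div_iff₀ h0]; exact hk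
  have hloc : ∀ j, max (F.lg j (X / x ^ k)) (max (F.lg j (Y / y ^ k)) 0) ≤
      H * ε + (H / h - k) * max (F.lg j x) (max (F.lg j y) 0) := by
    intro j
    rw [lg_div_pow hx hX, lg_div_pow hy hY]
    have hm0 : 0 ≤ max (F.lg j x) (max (F.lg j y) 0) := le_max_of_le_right (le_max_right _ _)
    have e1 : F.lg j X - k * F.lg j x =
        H * (F.lg j X / H - F.lg j x / h) + (H / h - k) * F.lg j x := by
      field_simp; ring
    have e2 : F.lg j Y - k * F.lg j y =
        H * (F.lg j Y / H - F.lg j y / h) + (H / h - k) * F.lg j y := by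
      field_simp; ring
    refine max_le ?_ (max_le ?_ ?_)
    · rw [e1]
      exact add_le_add (mul_le_mul_of_nonneg_left (hcx j) H0.le)
        (mul_le_mul_of_nonneg_left (le_max_left _ _) hr)
    · rw [e2]
      exact add_le_add (mul_le_mul_of_nonneg_left (hcy j) H0.le)
        (mul_le_mul_of_nonneg_left ((le_max_left _ _).trans (le_max_right _ _)) hr)
    · positivity
  refine (Finset.sum_le_sum fun j _ => hloc j).trans ?_
  rw [Finset.sum_add_distrib, Finset.sum_const, ← Finset.mul_sum, ← ht_eq hx hy, Finset.card_univ,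
    nsmul_eq_mul]
  have : (H / h - k) * h = H - k * h := by field_simp
  rw [← hh, this]
  linarith

/-- two different large solutions in a cell -/
theorem cell_ratio {x y X Y : L} (hx : F.IsU x) (hy : F.IsU y) (hX : F.IsU X) (hY : F.IsU Y)
    (h1 : x + y = 1) (h2 : X + Y = 1) (hne : X ≠ x) (hle : F.ht x y ≤ F.ht X Y)
    (hbig : 38 * F.D + 1 ≤ F.ht x y) (ε : ℝ) (hε : 0 ≤ ε) (hεJ : Fintype.card J * ε ≤ 1 / 8)
    (hcx : ∀ j, F.lg j X / F.ht X Y - F.lg j x / F.ht x y ≤ ε)
    (hcy : ∀ j, F.lg j Y / F.ht X Y - F.lg j y / F.ht x y ≤ ε) :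
    3 / 2 * F.ht x y ≤ F.ht X Y ∧ F.ht X Y < 8 * F.ht x y := by
  have hD := F.D_nonneg
  have h0 : 0 < F.ht x y := by linarith
  have H0 : 0 < F.ht X Y := by linarith
  have hq := fun k hk => ht_quot_le hx hy hX hY h0 H0 ε hcx hcy hε k hk
  constructor
  · have g1 := F.gap_one x y X Y hx.1 hy.1 h1 h2 (hX.div hx).2.1 (hY.div hy).2.1 hne
    have g2 := hq 1 (by simpa using hle)
    simp only [pow_one, Nat.cast_one, one_mul] at g2
    have g3 : F.ht X Y * (Fintype.card J * ε) ≤ F.ht X Y * (1 / 8) :=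
      mul_le_mul_of_nonneg_left hεJ H0.le
    have hl2 : Real.log 2 ≤ 1 := by
      have := Real.log_two_lt_d9; linarith
    have g4 : F.D * Real.log 2 ≤ F.D := by
      calc F.D * Real.log 2 ≤ F.D * 1 := mul_le_mul_of_nonneg_left hl2 hD
        _ = F.D := mul_one _
    nlinarith
  · by_contra hcon
    push Not at hcon
    set h := F.ht x y with hh
    set H := F.ht X Y with hH
    set N := ⌊H / (2 * h)⌋₊ with hN
    have hN1 : (N : ℝ) ≤ H / (2 * h) := Nat.floor_le (by positivity)
    have hN2 : H / (2 * h) < N + 1 := Nat.lt_floor_add_one _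
    rw [le_div_iff₀ (by positivity)] at hN1
    rw [div_lt_iff₀ (by positivity)] at hN2
    have hN4 : 4 ≤ N := by
      rw [hN, Nat.le_floor_iff (by positivity), le_div_iff₀ (by positivity)]
      push_cast
      linarith
    have hN4' : (4 : ℝ) ≤ N := by exact_mod_cast hN4
    have g1 := F.gap_pow N (by omega) x y X Y hx.1 hy.1 h1 h2 hX.1 hx.2.1 hy.2.1
      (hX.div (hx.pow _)).2.1 (hY.div (hy.pow _)).2.1
    have g2 := hq (2 * N) (by push_cast; linarith)
    have g3 : H * (Fintype.card J * ε) ≤ H * (1 / 8) := mul_le_mul_of_nonneg_left hεJ H0.le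
    push_cast at g2
    rw [← hh] at g1
    -- N h ≤ H/8 + H - 2 N h + 7 D N
    have g4 : (N : ℝ) * h ≤ H * (1 / 8) + (H - 2 * N * h) + F.D * (N * 7) := by linarith
    have g5 : (3 * (N : ℝ) - 9) / 4 * h ≤ F.D * (N * 7) := by nlinarith
    have g6 : 3 * (N : ℝ) / 16 * h ≤ (3 * (N : ℝ) - 9) / 4 * h := by
      apply mul_le_mul_of_nonneg_right _ h0.le
      linarith
    have g7 : (N : ℝ) * (3 / 16 * h) ≤ N * (7 * F.D) := by nlinarith
    have g8 : 3 / 16 * h ≤ 7 * F.D := le_of_mul_le_mul_left g7 (by linarith)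
    linarith

/-- cell index -/
noncomputable def cell (F : PFD L J) (x : L) : J ⊕ J → ℤ := fun i =>
  match i with
  | Sum.inl j => ⌊8 * Fintype.card J * (F.lg j x / F.ht x (1 - x))⌋
  | Sum.inr j => ⌊8 * Fintype.card J * (F.lg j (1 - x) / F.ht x (1 - x))⌋

theorem cell_sum {x : L} (hx : F.IsU x) (hy : F.IsU (1 - x)) (h0 : 0 < F.ht x (1 - x)) :
    ∑ i, (F.cell x i).natAbs ≤ 34 * Fintype.card J := by
  have key : ∀ z : ℝ, ((⌊z⌋.natAbs : ℕ) : ℝ) ≤ |z| + 1 := by
    intro z
    rw [Nat.cast_natAbs, Int.cast_abs, abs_le]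
    have h1 := Int.floor_le z
    have h2 := Int.lt_floor_add_one z
    have h3 := neg_abs_le z
    have h4 := le_abs_self z
    constructor <;> linarith
  have hn : (0 : ℝ) ≤ Fintype.card J := Nat.cast_nonneg _
  have h1 : ((∑ i, (F.cell x i).natAbs : ℕ) : ℝ) ≤ ((34 * Fintype.card J : ℕ) : ℝ) := by
    rw [Nat.cast_sum, Fintype.sum_sum_type]
    simp only [cell]
    obtain ⟨s1, s2⟩ := sum_abs_lg hx hy
    have part : ∀ z : L, ∑ j, |F.lg j z| ≤ 2 * F.ht x (1 - x) →
        ∑ j, ((⌊8 * Fintype.card J * (F.lg j z / F.ht x (1 - x))⌋.natAbs : ℕ) : ℝ) ≤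
          17 * Fintype.card J := by
      intro z hz
      calc ∑ j, ((⌊8 * Fintype.card J * (F.lg j z / F.ht x (1 - x))⌋.natAbs : ℕ) : ℝ)
          ≤ ∑ j, (8 * Fintype.card J / F.ht x (1 - x) * |F.lg j z| + 1) := by
            apply Finset.sum_le_sum
            intro j _
            refine (key _).trans (le_of_eq ?_)
            rw [abs_mul, abs_div, abs_of_pos h0, abs_of_nonneg (by positivity)]
            ring
        _ = 8 * Fintype.card J / F.ht x (1 - x) * ∑ j, |F.lg j z| + Fintype.card J := by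
            rw [Finset.sum_add_distrib, ← Finset.mul_sum, Finset.sum_const, Finset.card_univ]
            simp
        _ ≤ 8 * Fintype.card J / F.ht x (1 - x) * (2 * F.ht x (1 - x)) + Fintype.card J := by
            gcongr
        _ = 17 * Fintype.card J := by field_simp; ring
    have p1 := part x s1
    have p2 := part (1 - x) s2
    push_cast
    linarith
  exact_mod_cast h1

/-- the number of large solutions in one cell -/
theorem card_cell (T : Finset L) (hT : ∀ x ∈ T, F.IsU x ∧ F.IsU (1 - x) ∧ 38 * F.D + 1 ≤ F.ht x (1 - x))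
    (c : J ⊕ J → ℤ) (hc : ∀ x ∈ T, F.cell x = c) : T.card ≤ 6 := by
  classical
  rcases T.eq_empty_or_nonempty with h | hne
  · rw [h]; simp
  have hD := F.D_nonneg
  obtain ⟨x₀, hx₀, hmin⟩ := T.exists_min_image (fun x => F.ht x (1 - x)) hne
  have hcard : (0 : ℝ) < Fintype.card J := by
    rcases Nat.eq_zero_or_pos (Fintype.card J) with h | h
    · exfalso
      have h1 := (hT x₀ hx₀).2.2
      have : IsEmpty J := Fintype.card_eq_zero_iff.1 h
      rw [ht, Finset.univ_eq_empty, Finset.sum_empty] at h1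
      linarith
    · exact_mod_cast h
  have hratio : ∀ x ∈ T, ∀ X ∈ T, X ≠ x → F.ht x (1 - x) ≤ F.ht X (1 - X) →
      3 / 2 * F.ht x (1 - x) ≤ F.ht X (1 - X) ∧ F.ht X (1 - X) < 8 * F.ht x (1 - x) := by
    intro x hx X hX hne hle
    obtain ⟨u1, u2, hb⟩ := hT x hx
    obtain ⟨U1, U2, hB⟩ := hT X hX
    have hce := (hc X hX).trans (hc x hx).symm
    have hfl : ∀ a b : ℝ, ⌊8 * Fintype.card J * a⌋ = ⌊8 * Fintype.card J * b⌋ →
        a - b ≤ 1 / (8 * Fintype.card J) := by
      intro a b h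
      have h1 := Int.lt_floor_add_one (8 * Fintype.card J * a)
      have h2 := Int.floor_le (8 * Fintype.card J * b)
      rw [h] at h1
      rw [le_div_iff₀ (by positivity)]
      nlinarith
    refine cell_ratio u1 u2 U1 U2 (by ring) (by ring) hne hle hb (1 / (8 * Fintype.card J))
      (by positivity) (le_of_eq (by field_simp)) ?_ ?_
    · intro j
      apply hfl
      have := congrFun hce (Sum.inl j)
      simpa only [cell] using this
    · intro j
      apply hfl
      have := congrFun hce (Sum.inr j)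
      simpa only [cell] using this
  set h₀ := F.ht x₀ (1 - x₀) with hh₀
  have h0pos : 0 < h₀ := by have := (hT x₀ hx₀).2.2; linarith
  have hlt8 : ∀ x ∈ T, F.ht x (1 - x) < 8 * h₀ := by
    intro x hx
    by_cases hxe : x = x₀
    · rw [hxe, ← hh₀]; linarith
    · exact (hratio x₀ hx₀ x hx hxe (hmin x hx)).2
  have hlog : 0 < Real.log (3 / 2) := Real.log_pos (by norm_num)
  set κ : L → ℕ := fun x => ⌊Real.log (F.ht x (1 - x) / h₀) / Real.log (3 / 2)⌋₊ with hκ
  have hpos : ∀ x ∈ T, 0 < F.ht x (1 - x) := fun x hx => lt_of_lt_of_le h0pos (hmin x hx)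
  have hmaps : ∀ x ∈ T, κ x ∈ Finset.range 6 := by
    intro x hx
    rw [Finset.mem_range, hκ]
    rw [Nat.floor_lt (by
      apply div_nonneg _ hlog.le
      apply Real.log_nonneg
      rw [le_div_iff₀ h0pos, one_mul]
      exact hmin x hx)]
    rw [div_lt_iff₀ hlog]
    push_cast
    rw [← Real.log_rpow (by norm_num)]
    apply Real.log_lt_log (div_pos (hpos x hx) h0pos)
    rw [div_lt_iff₀ h0pos]
    refine (hlt8 x hx).trans ?_
    apply mul_lt_mul_of_pos_right _ h0pos
    rw [show (6 : ℝ) = ((6 : ℕ) : ℝ) by norm_num, Real.rpow_natCast]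
    norm_num
  have hinj : Set.InjOn κ (T : Set L) := by
    have key : ∀ x ∈ T, ∀ X ∈ T, κ x = κ X → F.ht x (1 - x) ≤ F.ht X (1 - X) → x = X := by
      intro x hx X hX he hle
      by_contra hneq
      have h1 := (hratio x hx X hX (Ne.symm hneq) hle).1
      have h2 : Real.log (F.ht x (1 - x) / h₀) / Real.log (3 / 2) + 1 ≤
          Real.log (F.ht X (1 - X) / h₀) / Real.log (3 / 2) := by
        rw [div_add_one hlog.ne', div_le_div_iff_of_pos_right hlog,
          ← Real.log_mul (div_pos (hpos x hx) h0pos).ne' (by norm_num)]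
        apply Real.log_le_log (mul_pos (div_pos (hpos x hx) h0pos) (by norm_num))
        rw [div_mul_eq_mul_div, div_le_div_iff_of_pos_right h0pos]
        linarith
      have h3 := Nat.lt_floor_add_one (Real.log (F.ht x (1 - x) / h₀) / Real.log (3 / 2))
      have h4 : κ x + 1 ≤ κ X := by
        simp only [hκ]
        have h6 : 0 ≤ Real.log (F.ht x (1 - x) / h₀) / Real.log (3 / 2) := by
          apply div_nonneg _ hlog.le
          apply Real.log_nonneg
          rw [le_div_iff₀ h0pos, one_mul]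
          exact hmin x hx
        rw [Nat.le_floor_iff (by linarith)]
        push_cast
        have h7 := Nat.floor_le h6
        linarith
      omega
    intro x hx X hX he
    rcases le_total (F.ht x (1 - x)) (F.ht X (1 - X)) with h | h
    · exact key x hx X hX he h
    · exact (key X hX x hx he.symm h).symm
  have := Finset.card_le_card_of_injOn κ hmaps hinj
  simpa using this

/-- the number of large solutions of the unit equation -/
theorem card_large (T : Finset L)
    (hT : ∀ x ∈ T, F.IsU x ∧ F.IsU (1 - x) ∧ 38 * F.D + 1 ≤ F.ht x (1 - x)) :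
    (T.card : ℝ) ≤ 6 * 2 ^ (38 * Fintype.card J) := by
  classical
  have hD := F.D_nonneg
  set enc : (J ⊕ J → ℤ) → (J ⊕ J → Bool × ℕ) := fun c i => (decide (c i < 0), (c i).natAbs) with henc
  have henc_inj : Function.Injective enc := by
    intro c d h
    funext i
    have h1 := congrFun h i
    simp only [henc, Prod.mk.injEq, decide_eq_decide] at h1
    omega
  have h1 := Finset.card_le_mul_card_image (f := fun x => enc (F.cell x)) T 6 (by
    intro b hb
    rw [Finset.mem_image] at hb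
    obtain ⟨x, hx, rfl⟩ := hb
    apply card_cell (F := F) _ _ (F.cell x)
    · intro z hz
      rw [Finset.mem_filter] at hz
      exact henc_inj hz.2
    · intro z hz
      rw [Finset.mem_filter] at hz
      exact hT z hz.1)
  have h2 := card_l1 (34 * Fintype.card J) (T.image (fun x => enc (F.cell x))) (by
    intro c hc
    rw [Finset.mem_image] at hc
    obtain ⟨x, hx, rfl⟩ := hc
    obtain ⟨u1, u2, hb⟩ := hT x hx
    exact cell_sum u1 u2 (by linarith))
  rw [Fintype.card_sum] at h2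
  have h3 : (2 : ℝ) ^ (34 * Fintype.card J) * 4 ^ (Fintype.card J + Fintype.card J) =
      2 ^ (38 * Fintype.card J) := by
    rw [show (4 : ℝ) = 2 ^ 2 by norm_num, ← pow_mul, ← pow_add]
    congr 1; ring
  rw [h3] at h2
  calc (T.card : ℝ) ≤ ((6 * (T.image (fun x => enc (F.cell x))).card : ℕ) : ℝ) := by exact_mod_cast h1
    _ = 6 * ((T.image (fun x => enc (F.cell x))).card : ℝ) := by push_cast; ring
    _ ≤ _ := by gcongr

end PFD

end Pool.Agent.Lib.MP_ca2859_nt
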