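import Mathlib
import Pool.Agent.Lib.MP_ca2859_nt.SUnitB
import Pool.Agent.Lib.MP_ca2859_nt.PolyCount

/-!
# The unit equation over number fields: a bound uniform in the field
-/

open NumberField IsDedekindDomain

set_option linter.unusedSectionVars false

namespace Pool.Agent.Lib.MP_ca2859_nt

section nf
variable {L : Type} [Field L] [NumberField L] (S : Finset (HeightOneSpectrum (𝓞 L)))

/-- `S`-integers -/
def SInt : Subring L where
  carrier := {x | ∀ P : HeightOneSpectrum (𝓞 L), P ∉ S → P.valuation L x ≤ 1}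
  mul_mem' := by
    intro a b ha hb P hP
    rw [map_mul]
    exact mul_le_one' (ha P hP) (hb P hP)
  one_mem' := by
    intro P _
    rw [map_one]
  add_mem' := by
    intro a b ha hb P hP
    exact Valuation.map_add_le _ (ha P hP) (hb P hP)
  zero_mem' := by
    intro P _
    rw [map_zero]
    exact zero_le
  neg_mem' := by
    intro a ha P hP
    rw [Valuation.map_neg]
    exact ha P hP

theorem mem_SInt (x : L) : x ∈ SInt S ↔ ∀ P : HeightOneSpectrum (𝓞 L), P ∉ S → P.valuation L x ≤ 1 :=
  Iff.rfl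

theorem adicAbv_le_one {P : HeightOneSpectrum (𝓞 L)} {x : L} (h : P.valuation L x ≤ 1) :
    NumberField.HeightOneSpectrum.adicAbv L P x ≤ 1 := by
  rw [NumberField.HeightOneSpectrum.adicAbv_def]
  have := (WithZeroMulInt.toNNReal_le_one_iff
    (NumberField.HeightOneSpectrum.one_lt_absNorm_nnreal P)).2 h
  exact_mod_cast this

/-- a finite product over the places dominates the full product -/
theorem finprod_le_prod_of_le_one (f : HeightOneSpectrum (𝓞 L) → ℝ) (hf0 : ∀ P, 0 ≤ f P)
    (hfin : f.HasFiniteMulSupport) (hle : ∀ P, P ∉ S → f P ≤ 1) : ∏ᶠ P, f P ≤ ∏ P ∈ S, f P := by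
  classical
  have hs : f.mulSupport ⊆ ((S ∪ hfin.toFinset : Finset (HeightOneSpectrum (𝓞 L))) : Set _) := by
    intro P hP
    rw [Finset.coe_union]
    right
    exact Finset.mem_coe.2 ((Set.Finite.mem_toFinset hfin).2 hP)
  rw [finprod_eq_prod_of_mulSupport_subset f hs, ← Finset.prod_sdiff (Finset.subset_union_left (s₁ := S))]
  have h1 : ∏ P ∈ (S ∪ hfin.toFinset) \ S, f P ≤ 1 := by
    apply Finset.prod_le_one
    · intro P _; exact hf0 P
    · intro P hP
      rw [Finset.mem_sdiff] at hP
      exact hle P hP.2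
  calc (∏ P ∈ (S ∪ hfin.toFinset) \ S, f P) * ∏ P ∈ S, f P ≤ 1 * ∏ P ∈ S, f P :=
        mul_le_mul_of_nonneg_right h1 (Finset.prod_nonneg fun P _ => hf0 P)
    _ = _ := one_mul _

theorem finprod_places {M : Type*} [CommMonoid M] (g : FinitePlace L → M) :
    ∏ᶠ w : FinitePlace L, g w = ∏ᶠ P : HeightOneSpectrum (𝓞 L), g (FinitePlace.mk P) := by
  rw [← finprod_comp_equiv (FinitePlace.equivHeightOneSpectrum (K := L)).symm]
  rfl

theorem place_apply (P : HeightOneSpectrum (𝓞 L)) (x : L) :
    (FinitePlace.mk P) x = NumberField.HeightOneSpectrum.adicAbv L P x := by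
  rw [FinitePlace.mk_apply, FinitePlace.norm_embedding]

theorem finSupp (x : L) (hx : x ≠ 0) :
    (fun P : HeightOneSpectrum (𝓞 L) => NumberField.HeightOneSpectrum.adicAbv L P x).HasFiniteMulSupport := by
  have h := FinitePlace.hasFiniteMulSupport (K := L) hx
  have h2 := h.image (FinitePlace.equivHeightOneSpectrum (K := L))
  refine h2.subset ?_
  intro P hP
  refine ⟨FinitePlace.mk P, ?_, ?_⟩
  · rw [Function.mem_mulSupport] at hP ⊢
    rwa [place_apply]
  · exact FinitePlace.maximalIdeal_mk P

theorem prod_formula_S (a : L) (ha : a ∈ SInt S) (h0 : a ≠ 0) :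
    1 ≤ (∏ w : InfinitePlace L, w a ^ w.mult) *
      ∏ P ∈ S, NumberField.HeightOneSpectrum.adicAbv L P a := by
  have h1 := prod_abs_eq_one h0
  rw [finprod_places (fun w => w a)] at h1
  simp only [place_apply] at h1
  rw [← h1]
  refine mul_le_mul_of_nonneg_left ?_ (Finset.prod_nonneg fun w _ => pow_nonneg (apply_nonneg w a) _)
  apply finprod_le_prod_of_le_one S
  · intro P; exact AbsoluteValue.nonneg _ _
  · exact finSupp a h0
  · intro P hP; exact adicAbv_le_one (ha P hP)

/-- product formula data of a number field -/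
noncomputable def nfPFD : PFD L (InfinitePlace L ⊕ S) where
  v := Sum.elim (fun w => w.val) (fun P => NumberField.HeightOneSpectrum.adicAbv L P.1)
  m := Sum.elim (fun w => (w.mult : ℝ)) (fun _ => 1)
  e := Sum.elim (fun w => (w.mult : ℝ)) (fun _ => 0)
  O := SInt S
  D := Module.finrank ℚ L
  m_nonneg := by
    rintro (w | P)
    · exact Nat.cast_nonneg _
    · exact zero_le_one
  e_nonneg := by
    rintro (w | P)
    · exact Nat.cast_nonneg _
    · exact le_rfl
  type := by
    rintro (w | P)
    · left; exact le_rfl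
    · right; exact NumberField.HeightOneSpectrum.isNonarchimedean_adicAbv L P.1
  D_ge := by
    rw [Fintype.sum_sum_type]
    simp only [Sum.elim_inl, Sum.elim_inr, Finset.sum_const_zero, add_zero]
    have := InfinitePlace.sum_mult_eq (K := L)
    rw [← this]
    push_cast
    exact le_rfl
  prod := by
    intro a ha h0
    have h1 := prod_formula_S S a ha h0
    have h2 := Real.log_nonneg h1
    rw [Fintype.sum_sum_type]
    simp only [Sum.elim_inl, Sum.elim_inr, one_mul]
    have hw : ∀ w : InfinitePlace L, w a ≠ 0 := fun w => by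
      rw [Ne, map_eq_zero]; exact h0
    have hP : ∀ P : HeightOneSpectrum (𝓞 L), NumberField.HeightOneSpectrum.adicAbv L P a ≠ 0 :=
      fun P => (AbsoluteValue.ne_zero_iff _).2 h0
    rw [Real.log_mul (Finset.prod_ne_zero_iff.2 fun w _ => pow_ne_zero _ (hw w))
      (Finset.prod_ne_zero_iff.2 fun P _ => hP P),
      Real.log_prod (fun w _ => pow_ne_zero _ (hw w)), Real.log_prod (fun P _ => hP P)] at h2
    rw [← Finset.sum_coe_sort S] at h2
    simp only [Real.log_pow] at h2
    exact h2

theorem nf_unit (x : L) (h0 : x ≠ 0) (h : ∀ P : HeightOneSpectrum (𝓞 L), P ∉ S → P.valuation L x = 1) :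
    (nfPFD S).IsU x := by
  refine ⟨h0, ?_, ?_⟩
  · intro P hP; exact (h P hP).le
  · intro P hP
    rw [map_inv₀, h P hP, inv_one]

/-- comparison with the height -/
theorem mulHeight_le_exp (x : L) (h : ∀ P : HeightOneSpectrum (𝓞 L), P ∉ S → P.valuation L x ≤ 1) (y : L) :
    Height.mulHeight₁ x ≤ Real.exp ((nfPFD S).ht x y) := by
  classical
  rw [NumberField.mulHeight₁_eq, finprod_places (fun w => max (w x) 1)]
  simp only [place_apply]
  have h1 : (∏ᶠ P : HeightOneSpectrum (𝓞 L), max (NumberField.HeightOneSpectrum.adicAbv L P x) 1) ≤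
      ∏ P ∈ S, max (NumberField.HeightOneSpectrum.adicAbv L P x) 1 := by
    apply finprod_le_prod_of_le_one S
    · intro P; exact le_max_of_le_right zero_le_one
    · rcases eq_or_ne x 0 with rfl | hx
      · have : (fun P : HeightOneSpectrum (𝓞 L) =>
            max (NumberField.HeightOneSpectrum.adicAbv L P (0 : L)) 1) = fun _ => 1 := by
          funext P; simp
        rw [this]
        simp [Function.HasFiniteMulSupport]
      · refine (finSupp x hx).subset ?_
        intro P hP
        rw [Function.mem_mulSupport] at hP ⊢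
        intro h0
        apply hP
        rw [h0, max_self]
    · intro P hP
      exact max_le (adicAbv_le_one (h P hP)) le_rfl
  refine (mul_le_mul_of_nonneg_left h1 (Finset.prod_nonneg fun w _ =>
    pow_nonneg (le_max_of_le_right zero_le_one) _)).trans ?_
  rw [PFD.ht, Fintype.sum_sum_type, Real.exp_add, Real.exp_sum, Real.exp_sum,
    ← Finset.prod_coe_sort S]
  apply mul_le_mul
  · apply Finset.prod_le_prod
    · intro w _; exact pow_nonneg (le_max_of_le_right zero_le_one) _
    · intro w _
      have h2 : max (w x) 1 ≤ PP w.val x y := by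
        rw [PP]
        exact max_le (le_max_left _ _) ((le_max_right _ _).trans (le_max_right _ _))
      have h3 : Real.exp ((w.mult : ℝ) * Real.log (PP w.val x y)) = PP w.val x y ^ w.mult := by
        rw [← Real.log_pow, Real.exp_log (pow_pos (PP_pos _ _ _) _)]
      show _ ≤ Real.exp ((w.mult : ℝ) * Real.log (PP w.val x y))
      rw [h3]
      exact pow_le_pow_left₀ (le_max_of_le_right zero_le_one) h2 _
  · apply Finset.prod_le_prod
    · intro w _; exact le_max_of_le_right zero_le_one
    · intro P _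
      show _ ≤ Real.exp ((1 : ℝ) * Real.log (PP (NumberField.HeightOneSpectrum.adicAbv L P.1) x y))
      rw [one_mul, Real.exp_log (PP_pos _ _ _), PP]
      exact max_le (le_max_left _ _) ((le_max_right _ _).trans (le_max_right _ _))
  · exact Finset.prod_nonneg fun _ _ => le_max_of_le_right zero_le_one
  · exact Finset.prod_nonneg fun _ _ => (Real.exp_pos _).le

end nf

/-- the number of solutions of the unit equation, uniformly in the field -/
theorem unit_eq_count (D : ℕ) : ∃ C : ℝ, 1 ≤ C ∧ ∀ (L : Type) [Field L] [NumberField L],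
    Module.finrank ℚ L ≤ D → ∀ S : Finset (HeightOneSpectrum (𝓞 L)), ∀ T : Finset L,
    (∀ x ∈ T, x ≠ 0 ∧ x ≠ 1 ∧ ∀ P : HeightOneSpectrum (𝓞 L), P ∉ S →
      P.valuation L x = 1 ∧ P.valuation L (1 - x) = 1) → (T.card : ℝ) ≤ C ^ (S.card + 1) := by
  classical
  obtain ⟨N, hN⟩ := northcott_uniform D (Real.exp (38 * D + 1)) (Real.one_le_exp (by positivity))
  refine ⟨6 * 2 ^ (38 * (D + 1)) + N, ?_, ?_⟩
  · have h1 : (1 : ℝ) ≤ 2 ^ (38 * (D + 1)) := one_le_pow₀ (by norm_num)
    have h2 : (0 : ℝ) ≤ N := Nat.cast_nonneg _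
    linarith
  intro L _ _ hL S T hT
  set F := nfPFD S with hF
  have hFD : F.D = Module.finrank ℚ L := rfl
  have hL' : (Module.finrank ℚ L : ℝ) ≤ D := by exact_mod_cast hL
  set T1 := T.filter (fun x => 38 * F.D + 1 ≤ F.ht x (1 - x)) with hT1
  set T2 := T.filter (fun x => ¬ (38 * F.D + 1 ≤ F.ht x (1 - x))) with hT2
  have hcard : T.card = T1.card + T2.card := (Finset.card_filter_add_card_filter_not _).symm
  have hlarge : (T1.card : ℝ) ≤ 6 * 2 ^ (38 * Fintype.card (InfinitePlace L ⊕ S)) := by
    apply PFD.card_large (F := F)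
    intro x hx
    rw [hT1, Finset.mem_filter] at hx
    obtain ⟨h0, h1, hP⟩ := hT x hx.1
    exact ⟨nf_unit S x h0 fun P hPS => (hP P hPS).1,
      nf_unit S (1 - x) (sub_ne_zero.2 (Ne.symm h1)) fun P hPS => (hP P hPS).2, hx.2⟩
  have hsmall : T2.card ≤ N := by
    apply hN L hL
    intro x hx
    rw [hT2, Finset.mem_filter] at hx
    obtain ⟨h0, h1, hP⟩ := hT x hx.1
    refine (mulHeight_le_exp S x (fun P hPS => (hP P hPS).1.le) (1 - x)).trans ?_
    apply Real.exp_le_exp.2
    have := hx.2
    push Not at this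
    rw [hFD] at this
    linarith
  have hinf : Fintype.card (InfinitePlace L) ≤ D := by
    have h1 := InfinitePlace.sum_mult_eq (K := L)
    have h2 : Fintype.card (InfinitePlace L) ≤ ∑ w : InfinitePlace L, w.mult := by
      rw [Fintype.card_eq_sum_ones]
      exact Finset.sum_le_sum fun w _ => Nat.one_le_iff_ne_zero.2 w.mult_ne_zero
    omega
  have hJ : Fintype.card (InfinitePlace L ⊕ S) ≤ D + S.card := by
    rw [Fintype.card_sum, Fintype.card_coe]
    omega
  have h3 : (T.card : ℝ) ≤ 6 * 2 ^ (38 * (D + S.card)) + N := by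
    rw [hcard]
    push_cast
    have h4 : (2 : ℝ) ^ (38 * Fintype.card (InfinitePlace L ⊕ S)) ≤ 2 ^ (38 * (D + S.card)) :=
      pow_le_pow_right₀ (by norm_num) (Nat.mul_le_mul_left _ hJ)
    have h5 : (T2.card : ℝ) ≤ N := by exact_mod_cast hsmall
    linarith
  refine h3.trans ?_
  have hA : (1 : ℝ) ≤ 2 ^ (38 * (D + 1)) := one_le_pow₀ (by norm_num)
  have hN0 : (0 : ℝ) ≤ N := Nat.cast_nonneg _
  calc (6 : ℝ) * 2 ^ (38 * (D + S.card)) + N
      ≤ (6 * 2 ^ (38 * (D + 1)) + N) * (2 ^ 38) ^ S.card := by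
        have e1 : (2 : ℝ) ^ (38 * (D + S.card)) = 2 ^ (38 * D) * (2 ^ 38) ^ S.card := by
          rw [← pow_mul, ← pow_add]; congr 1; ring
        have e2 : (1 : ℝ) ≤ (2 ^ 38) ^ S.card := one_le_pow₀ (one_le_pow₀ (by norm_num))
        have e3 : (2 : ℝ) ^ (38 * D) ≤ 2 ^ (38 * (D + 1)) :=
          pow_le_pow_right₀ (by norm_num) (by omega)
        rw [e1, add_mul]
        apply add_le_add
        · rw [mul_assoc]
          apply mul_le_mul_of_nonneg_left _ (by norm_num)
          exact mul_le_mul_of_nonneg_right e3 (by positivity)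
        · exact le_mul_of_one_le_right hN0 e2
    _ ≤ (6 * 2 ^ (38 * (D + 1)) + N) * (6 * 2 ^ (38 * (D + 1)) + N) ^ S.card := by
        apply mul_le_mul_of_nonneg_left _ (by positivity)
        apply pow_le_pow_left₀ (by positivity)
        have : (2 : ℝ) ^ 38 ≤ 2 ^ (38 * (D + 1)) := pow_le_pow_right₀ (by norm_num) (by omega)
        linarith
    _ = _ := by rw [pow_succ]; ring

end Pool.Agent.Lib.MP_ca2859_nt
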