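import Mathlib
import Pool.Agent.Lib.MP_ca2859_nt.Global2

open Polynomial WithZero IsDedekindDomain NumberField nonZeroDivisors

namespace Pool.Agent.Lib.MP_ca2859_nt

variable {K : Type} [Field K] [NumberField K]

theorem units_mod_sq (K : Type) [Field K] [NumberField K] :
    ∃ (E : Type) (_ : Fintype E) (φ : (𝓞 K)ˣ → E), ∀ x y, φ x = φ y → ∃ z : (𝓞 K)ˣ, y = x * z ^ 2 := by
  classical
  have h := fun x : (𝓞 K)ˣ => (NumberField.Units.exist_unique_eq_mul_prod K x).exists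
  choose ζe hζe using h
  refine ⟨NumberField.Units.torsion K × (Fin (NumberField.Units.rank K) → Bool), Fintype.ofFinite _,
    fun x => ((ζe x).1, fun i => decide (Even ((ζe x).2 i))), ?_⟩
  intro x y hxy
  rw [Prod.mk.injEq] at hxy
  obtain ⟨h1, h2⟩ := hxy
  have h3 : ∀ i, ∃ k : ℤ, (ζe y).2 i = (ζe x).2 i + 2 * k := by
    intro i
    have h4 := congrFun h2 i
    simp only [decide_eq_decide] at h4
    have h5 : Even ((ζe y).2 i - (ζe x).2 i) := by
      rw [Int.even_sub]; exact h4.symm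
    obtain ⟨k, hk⟩ := h5
    exact ⟨k, by linarith⟩
  choose k hk using h3
  refine ⟨∏ i, NumberField.Units.fundSystem K i ^ k i, ?_⟩
  conv_lhs => rw [hζe y]
  conv_rhs => rw [hζe x]
  rw [← h1, mul_assoc, ← Finset.prod_pow, ← Finset.prod_mul_distrib]
  congr 1
  apply Finset.prod_congr rfl
  intro i _
  rw [hk i, zpow_add, zpow_mul, ← zpow_natCast, ← zpow_mul, ← zpow_mul]
  congr 2
  ring

theorem span_sq (r : 𝓞 K) (hr : r ≠ 0) (h : ∀ v, Even (cntx r v)) :
    ∃ I : (Ideal (𝓞 K))⁰, Ideal.span {r} = (I : Ideal (𝓞 K)) ^ 2 := by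
  classical
  have h1 := Ideal.finprod_heightOneSpectrum_factorization (span_ne_zero r hr)
  have hsub : Function.mulSupport (fun v : HeightOneSpectrum (𝓞 K) =>
      v.maxPowDividing (Ideal.span {r})) ⊆ (cntx_finite r hr).toFinset := by
    intro v hv
    rw [Set.Finite.coe_toFinset]
    intro h0
    apply hv
    simp only [HeightOneSpectrum.maxPowDividing]
    rw [cntx] at h0
    rw [h0, pow_zero]
  rw [finprod_eq_prod_of_mulSupport_subset _ hsub] at h1
  have h2 : Ideal.span {r} = (∏ v ∈ (cntx_finite r hr).toFinset, v.asIdeal ^ (cntx r v / 2)) ^ 2 := by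
    rw [← Finset.prod_pow, ← h1]
    apply Finset.prod_congr rfl
    intro v _
    rw [← pow_mul, HeightOneSpectrum.maxPowDividing]
    congr 1
    exact (Nat.div_mul_cancel (h v).two_dvd).symm
  refine ⟨⟨∏ v ∈ (cntx_finite r hr).toFinset, v.asIdeal ^ (cntx r v / 2), ?_⟩, h2⟩
  rw [mem_nonZeroDivisors_iff_ne_zero]
  intro h3
  rw [h3, zero_pow two_ne_zero] at h2
  exact span_ne_zero r hr h2

theorem int_rep (x : K) (hx : x ≠ 0) : ∃ (r : 𝓞 K) (y : K), r ≠ 0 ∧ y ≠ 0 ∧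
    x = algebraMap (𝓞 K) K r * y ^ 2 := by
  obtain ⟨a, b, hb, rfl⟩ := IsFractionRing.div_surjective (A := 𝓞 K) x
  have hb0 : b ≠ 0 := nonZeroDivisors.ne_zero hb
  have hbK : algebraMap (𝓞 K) K b ≠ 0 := by
    rw [Ne, FaithfulSMul.algebraMap_eq_zero_iff]; exact hb0
  have ha0 : a ≠ 0 := by
    rintro rfl
    simp at hx
  refine ⟨a * b, (algebraMap (𝓞 K) K b)⁻¹, mul_ne_zero ha0 hb0, inv_ne_zero hbK, ?_⟩
  rw [map_mul]
  field_simp

/-- the data attached to an element all of whose valuations are even -/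
structure SqData (x : K) (I : (Ideal (𝓞 K))⁰) (r : 𝓞 K) (y : K) : Prop where
  r0 : r ≠ 0
  y0 : y ≠ 0
  hx : x = algebraMap (𝓞 K) K r * y ^ 2
  hI : Ideal.span {r} = (I : Ideal (𝓞 K)) ^ 2

theorem exists_sqData (x : K) (hx : x ≠ 0)
    (h : ∀ v : HeightOneSpectrum (𝓞 K), Even (ord (v.valuation K) x)) : ∃ I r y, SqData x I r y := by
  obtain ⟨r, y, hr, hy, hxr⟩ := int_rep x hx
  have hrK : algebraMap (𝓞 K) K r ≠ 0 := by
    rw [Ne, FaithfulSMul.algebraMap_eq_zero_iff]; exact hr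
  have h1 : ∀ v, Even (cntx r v) := by
    intro v
    have h2 := h v
    rw [hxr, ord_mul hrK (pow_ne_zero _ hy), ord_pow, ord_eq_cntx r hr, Int.even_add] at h2
    have h3 : Even (((2 : ℕ) : ℤ) * ord (v.valuation K) y) := by simp
    have h4 := h2.2 h3
    exact_mod_cast h4
  obtain ⟨I, hI⟩ := span_sq r hr h1
  exact ⟨I, r, y, hr, hy, hxr, hI⟩

theorem SqData.eq {x x' : K} {I I' : (Ideal (𝓞 K))⁰} {r r' : 𝓞 K} {y y' : K}
    (h : SqData x I r y) (h' : SqData x' I' r' y')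
    (hc : ClassGroup.mk0 I = ClassGroup.mk0 I') : ∃ (ε : (𝓞 K)ˣ) (t : K), t ≠ 0 ∧
      x' = x * algebraMap (𝓞 K) K ε * t ^ 2 := by
  obtain ⟨a, b, ha, hb, hab⟩ := (ClassGroup.mk0_eq_mk0_iff).1 hc
  have h1 : Ideal.span {a ^ 2 * r} = Ideal.span {b ^ 2 * r'} := by
    rw [← Ideal.span_singleton_mul_span_singleton, ← Ideal.span_singleton_mul_span_singleton,
      h.hI, h'.hI, ← Ideal.span_singleton_pow, ← Ideal.span_singleton_pow, ← mul_pow, ← mul_pow, hab]
  rw [Ideal.span_singleton_eq_span_singleton] at h1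
  obtain ⟨ε, hε⟩ := h1
  have haK : algebraMap (𝓞 K) K a ≠ 0 := by
    rw [Ne, FaithfulSMul.algebraMap_eq_zero_iff]; exact ha
  have hbK : algebraMap (𝓞 K) K b ≠ 0 := by
    rw [Ne, FaithfulSMul.algebraMap_eq_zero_iff]; exact hb
  have hy := h.y0
  have hy' := h'.y0
  refine ⟨ε, algebraMap (𝓞 K) K a / algebraMap (𝓞 K) K b * (y' / y),
    mul_ne_zero (div_ne_zero haK hbK) (div_ne_zero hy' hy), ?_⟩
  have h2 := congrArg (algebraMap (𝓞 K) K) hε
  rw [map_mul, map_mul, map_mul, map_pow, map_pow] at h2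
  rw [h.hx, h'.hx]
  field_simp
  linear_combination -h2

/-- the number of square classes with even valuations outside `S` -/
theorem selmer_count (K : Type) [Field K] [NumberField K] : ∃ c : ℕ, 0 < c ∧
    ∀ (S : Finset (HeightOneSpectrum (𝓞 K))) (T : Finset K),
    (∀ u ∈ T, u ≠ 0 ∧ ∀ v, v ∉ S → Even (ord (v.valuation K) u)) →
    (∀ u ∈ T, ∀ u' ∈ T, u ≠ u' → ¬ ∃ y : K, y ≠ 0 ∧ u' = u * y ^ 2) →
    T.card ≤ c * 2 ^ S.card := by
  classical
  obtain ⟨E, hE, φ, hφ⟩ := units_mod_sq K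
  have hpos : 0 < Fintype.card E * Fintype.card (ClassGroup (𝓞 K)) := by
    apply Nat.mul_pos
    · exact Fintype.card_pos_iff.2 ⟨φ 1⟩
    · exact Fintype.card_pos
  refine ⟨_, hpos, ?_⟩
  intro S T hT hsq
  set P : K → Finset (HeightOneSpectrum (𝓞 K)) :=
    fun u => S.filter (fun v => ¬ Even (ord (v.valuation K) u)) with hP
  have hmaps : ∀ u ∈ T, P u ∈ S.powerset := fun u _ => by
    rw [Finset.mem_powerset]; exact Finset.filter_subset _ _
  rw [← Finset.card_powerset]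
  apply Finset.card_le_mul_card_image_of_maps_to hmaps
  intro A _
  set T₁ := T.filter (fun u => P u = A) with hT₁
  rcases T₁.eq_empty_or_nonempty with h0 | ⟨u₀, hu₀⟩
  · rw [h0]; simp
  have hu₀' := Finset.mem_filter.1 hu₀
  have hu₀0 : u₀ ≠ 0 := (hT u₀ hu₀'.1).1
  have heven : ∀ u ∈ T₁, ∀ v : HeightOneSpectrum (𝓞 K), Even (ord (v.valuation K) (u₀ * u)) := by
    intro u hu v
    have hu' := Finset.mem_filter.1 hu
    have hu0 : u ≠ 0 := (hT u hu'.1).1
    rw [ord_mul hu₀0 hu0, Int.even_add]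
    by_cases hv : v ∈ S
    · have h1 : P u₀ = P u := by rw [hu₀'.2, hu'.2]
      have h2 : v ∈ P u₀ ↔ v ∈ P u := by rw [h1]
      rw [hP] at h2
      simp only [Finset.mem_filter, hv, true_and] at h2
      exact not_iff_not.1 h2
    · exact iff_of_true ((hT u₀ hu₀'.1).2 v hv) ((hT u hu'.1).2 v hv)
  have hdata : ∀ u : K, ∃ (I : (Ideal (𝓞 K))⁰) (r : 𝓞 K) (y : K), u ∈ T₁ → SqData (u₀ * u) I r y := by
    intro u
    by_cases hu : u ∈ T₁
    · have hu0 : u ≠ 0 := (hT u (Finset.mem_filter.1 hu).1).1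
      obtain ⟨I, r, y, h⟩ := exists_sqData (u₀ * u) (mul_ne_zero hu₀0 hu0) (heven u hu)
      exact ⟨I, r, y, fun _ => h⟩
    · exact ⟨1, 1, 1, fun h => absurd h hu⟩
  choose I r y hIry using hdata
  have hcl : T₁.card ≤ Fintype.card E * (Finset.univ : Finset (ClassGroup (𝓞 K))).card := by
    apply Finset.card_le_mul_card_image_of_maps_to
      (f := fun u => ClassGroup.mk0 (I u)) (fun u _ => Finset.mem_univ _)
    intro c _
    set T₂ := T₁.filter (fun u => ClassGroup.mk0 (I u) = c) with hT₂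
    rcases T₂.eq_empty_or_nonempty with h0 | ⟨u₁, hu₁⟩
    · rw [h0]; simp
    have hu₁' := Finset.mem_filter.1 hu₁
    have hu₁0 : u₁ ≠ 0 := (hT u₁ (Finset.mem_filter.1 hu₁'.1).1).1
    have hε : ∀ u : K, ∃ (ε : (𝓞 K)ˣ) (t : K), u ∈ T₂ → t ≠ 0 ∧
        u = u₁ * algebraMap (𝓞 K) K ε * t ^ 2 := by
      intro u
      by_cases hu : u ∈ T₂
      · have hu' := Finset.mem_filter.1 hu
        obtain ⟨ε, t, ht, h1⟩ := (hIry u₁ hu₁'.1).eq (hIry u hu'.1) (by rw [hu₁'.2, hu'.2])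
        refine ⟨ε, t, fun _ => ⟨ht, ?_⟩⟩
        apply mul_left_cancel₀ hu₀0
        rw [h1]; ring
      · exact ⟨1, 1, fun h => absurd h hu⟩
    choose ε t hεt using hε
    rw [← Finset.card_univ (α := E)]
    apply Finset.card_le_card_of_injOn (fun u => φ (ε u)) (fun u _ => Finset.mem_univ _)
    intro u hu u' hu' heq
    by_contra hne
    have huT : u ∈ T := (Finset.mem_filter.1 (Finset.mem_filter.1 hu).1).1
    have huT' : u' ∈ T := (Finset.mem_filter.1 (Finset.mem_filter.1 hu').1).1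
    obtain ⟨ht, h1⟩ := hεt u hu
    obtain ⟨ht', h2⟩ := hεt u' hu'
    obtain ⟨z, hz⟩ := hφ _ _ heq
    apply hsq u huT u' huT' hne
    have hzK : algebraMap (𝓞 K) K z ≠ 0 := by
      rw [Ne, FaithfulSMul.algebraMap_eq_zero_iff]; exact z.ne_zero
    refine ⟨algebraMap (𝓞 K) K z * t u' / t u, div_ne_zero (mul_ne_zero hzK ht') ht, ?_⟩
    have hz' : algebraMap (𝓞 K) K (ε u') = algebraMap (𝓞 K) K (ε u) * algebraMap (𝓞 K) K z ^ 2 := by
      rw [hz, Units.val_mul, Units.val_pow_eq_pow_val, map_mul, map_pow]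
    calc u' = u₁ * algebraMap (𝓞 K) K (ε u') * t u' ^ 2 := h2
      _ = u₁ * algebraMap (𝓞 K) K (ε u) * t u ^ 2 * (algebraMap (𝓞 K) K z * t u' / t u) ^ 2 := by
        rw [hz']; field_simp
      _ = u * (algebraMap (𝓞 K) K z * t u' / t u) ^ 2 := by rw [← h1]
  rwa [Finset.card_univ] at hcl

end Pool.Agent.Lib.MP_ca2859_nt
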