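import Mathlib
import Pool.Agent.Lib.MP_ca2859_nt.CRGood2

open Polynomial WithZero IsDedekindDomain NumberField

namespace Pool.Agent.Lib.MP_ca2859_nt

section val
variable {L : Type*} [Field L] {w : Valuation L ℤᵐ⁰}

/-- if the discriminant is a unit, the polynomial is primitive -/
theorem lead_of_unit_disc {n : ℕ} (hn : 2 ≤ n) (b : L) (hb : b ≠ 0) (s : Fin n → L)
    (h : CB w 1 (C b * ∏ j, (X - C (s j)))) (hD : w (C b * ∏ j, (X - C (s j))).discr = 1) :
    w b * ∏ j, max 1 (w (s j)) = 1 := by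
  classical
  have hdist := dist_of_unit_disc hn b hb s h hD
  set u : Fin n → ℤᵐ⁰ := fun i => max 1 (w (s i)) with hu
  have hu1 : ∀ i, 1 ≤ u i := fun i => le_max_left _ _
  have hA : w b * ∏ j, u j ≤ 1 := gauss_full b s h
  obtain ⟨ε, hε⟩ := discr_split (by omega : 1 ≤ n) b hb s
  have hwε : ∀ x : L, w (((ε : ℤ) : L) * x) = w x := by
    intro x
    rcases Int.units_eq_one_or ε with h | h <;> simp [h, Valuation.map_neg]
  rw [hε, hwε, map_mul, map_pow, map_prod] at hD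
  simp only [map_prod] at hD
  have hfac : ∏ i, ∏ j ∈ Finset.univ.erase i, w (s i - s j) = (∏ i, u i) ^ (2 * n - 2) := by
    rw [← prod_erase_pair hn u]
    apply Finset.prod_congr rfl
    intro i _
    apply Finset.prod_congr rfl
    intro j hj
    exact hdist i j (Finset.ne_of_mem_erase hj).symm
  rw [hfac, ← mul_pow] at hD
  rcases lt_or_eq_of_le hA with h1 | h1
  · exfalso
    have := pow_lt_one₀ zero_le h1 (n := 2 * n - 2) (by omega)
    exact absurd hD this.ne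
  · exact h1

end val

section nf
variable {K : Type} [Field K] [NumberField K] {L : Type} [Field L] [NumberField L] [Algebra K L]

/-- at a place of good reduction, after an affine change of coordinates over `K`, the roots are
as far apart as possible and the equation is primitive -/
theorem good_dist (g : ℕ) (hg : 1 ≤ g) (f : K[X]) (hf : IsHyperelliptic g f)
    (v : HeightOneSpectrum (𝓞 K)) (w : HeightOneSpectrum (𝓞 L)) [w.asIdeal.LiesOver v.asIdeal]
    (hgood : discExp g f v = 0) (h2 : v.valuation K (2 : K) = 1)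
    (hn : v.valuation K ((2 * g + 2 : ℕ) : K) = 1) (a : L) (ha : a ≠ 0) (α : Fin (2 * g + 2) → L)
    (hfα : f.map (algebraMap K L) = C a * ∏ j, (X - C (α j))) :
    ∃ (c₁ α₀ ρ : K), c₁ ≠ 0 ∧ ρ ≠ 0 ∧
      (∀ i j, i ≠ j → w.valuation L ((α i - algebraMap K L α₀) / algebraMap K L ρ -
          (α j - algebraMap K L α₀) / algebraMap K L ρ) =
        max 1 (w.valuation L ((α i - algebraMap K L α₀) / algebraMap K L ρ)) *
        max 1 (w.valuation L ((α j - algebraMap K L α₀) / algebraMap K L ρ))) ∧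
      w.valuation L (algebraMap K L c₁ ^ 2 * a * algebraMap K L ρ ^ (2 * g + 2)) *
        ∏ j, max 1 (w.valuation L ((α j - algebraMap K L α₀) / algebraMap K L ρ)) = 1 := by
  obtain ⟨π, hπ⟩ := v.valuation_exists_uniformizer K
  obtain ⟨P, Q, hm, hk⟩ := minDiscExp_spec (v.valuation K) π hπ g hg f hf
  have hgood' : minDiscExp (v.valuation K) g f = 0 := hgood
  rw [hgood'] at hk
  have hk' : v.valuation K (eqDisc g (f0 P Q)) = 1 := by simpa using hk
  set h := f0 P Q with hh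
  have hD0 : eqDisc g h ≠ 0 := by
    intro h1; rw [h1, map_zero] at hk'; exact zero_ne_one hk'
  have hhd : h.natDegree ≤ 2 * g + 2 := by rcases hm.deg0 with h1 | h1 <;> rw [hh] <;> omega
  have hint4 : CB (v.valuation K) 1 (C 4 * h) := by
    have h1 : C (4 : K) * h = C ((4 : ℕ) : K) * P + Q ^ 2 := by
      rw [hh, f0, mul_add, ← mul_assoc, ← C_mul]
      norm_num
    rw [h1]
    have h2 := (CB_C (natCast_le_one (v.valuation K) 4)).mul (show CB (v.valuation K) 1 P from hm.intP)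
    have h3 := CB.pow (show CB (v.valuation K) 1 Q from hm.intQ) 2
    rw [mul_one] at h2
    rw [one_pow] at h3
    exact h2.add h3
  obtain ⟨hRh0, hRh⟩ := ord_RR_eqDisc (w := v.valuation K) g hg h hm.deg0 hD0
  obtain ⟨c, α₀, ρ, H, hc, hρ, hH, hHint, ⟨ε, hε⟩, c₁, hc₁⟩ :=
    exists_affine_sq (w := v.valuation K) g f h hhd hm.same hint4
  have hord2 : ord (v.valuation K) (2 : K) = 0 := by rw [ord, h2]; simp
  have hordn : ord (v.valuation K) ((2 * g + 2 : ℕ) : K) = 0 := by rw [ord, hn]; simp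
  have hordD : ord (v.valuation K) (eqDisc g h) = 0 := by rw [ord, hk']; simp
  rw [hord2, hordn, hordD] at hRh
  have hRH : v.valuation K (RR (2 * g + 2) H) = 1 := by
    rw [hε, w_unit, RR_C_mul, map_mul, map_pow, show (4 : K) = 2 ^ 2 by norm_num, map_pow, h2]
    rw [one_pow, one_pow, one_mul, w_eq_exp hRh0]
    have : ord (v.valuation K) (RR (2 * g + 2) h) = 0 := by linarith
    rw [this]; simp
  set e := Ideal.ramificationIdx' v.asIdeal w.asIdeal with he
  have hvw : ∀ x : K, w.valuation L (algebraMap K L x) = v.valuation K x ^ e := fun x =>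
    (HeightOneSpectrum.valuation_liesOver L v w x).symm
  set H' := H.map (algebraMap K L) with hH'
  have hCB' : CB (w.valuation L) 1 H' := by
    intro i
    rw [hH', coeff_map, hvw]
    exact pow_le_one' (hHint i) _
  have hRH' : w.valuation L (RR (2 * g + 2) H') = 1 := by
    rw [hH', RR_map, hvw, hRH, one_pow]
  have hc₁0 : c₁ ≠ 0 := by
    rintro rfl
    apply hc
    rw [hc₁]; ring
  refine ⟨c₁, α₀, ρ, hc₁0, hρ, ?_⟩
  set ρ' := algebraMap K L ρ with hρ'
  set α' := algebraMap K L α₀ with hα'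
  have hρ0 : ρ' ≠ 0 := by rw [hρ', Ne, map_eq_zero]; exact hρ
  set s : Fin (2 * g + 2) → L := fun j => (α j - α') / ρ' with hs
  have hcc : algebraMap K L c = algebraMap K L c₁ ^ 2 := by rw [hc₁, map_pow]
  have hsplit : H' = C (algebraMap K L c₁ ^ 2 * a * ρ' ^ (2 * g + 2)) * ∏ j, (X - C (s j)) := by
    rw [hH', hH, Polynomial.map_mul, Polynomial.map_C, Polynomial.map_comp, hfα, hcc]
    simp only [Polynomial.map_add, Polynomial.map_mul, Polynomial.map_C, Polynomial.map_X]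
    exact comp_split _ _ _ _ hρ0 _
  have hb0 : algebraMap K L c₁ ^ 2 * a * ρ' ^ (2 * g + 2) ≠ 0 := by
    refine mul_ne_zero (mul_ne_zero (pow_ne_zero _ ?_) ha) (pow_ne_zero _ hρ0)
    rw [Ne, map_eq_zero]; exact hc₁0
  have hdisc : w.valuation L H'.discr = 1 := by
    obtain ⟨ε', hε'⟩ := RR_eq_discr_of_natDegree_eq (2 * g + 2) (by omega) H' (by
      rw [hsplit]; exact natDegree_split _ hb0 _)
    rw [hε', w_unit, map_mul, map_pow] at hRH'
    have hn' : w.valuation L ((2 * g + 2 : ℕ) : L) = 1 := by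
      have h1 := hvw ((2 * g + 2 : ℕ) : K)
      rw [hn, one_pow, map_natCast] at h1
      exact h1
    rwa [hn', one_pow, one_mul] at hRH'
  rw [hsplit] at hCB' hdisc
  exact ⟨dist_of_unit_disc (by omega : 2 ≤ 2 * g + 2) _ hb0 s hCB' hdisc,
    lead_of_unit_disc (by omega : 2 ≤ 2 * g + 2) _ hb0 s hCB' hdisc⟩

end nf

section abs
/-! consequences of the distance relations -/
variable {L : Type*} [Field L] {w : Valuation L ℤᵐ⁰}

/-- the cross ratio-like coordinate -/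
noncomputable def lam {n : ℕ} (i0 i1 i2 : Fin n) (α : Fin n → L) (j : Fin n) : L :=
  ((α j - α i1) * (α i2 - α i0)) / ((α j - α i0) * (α i2 - α i1))

/-- the quantity whose square class controls the twist -/
noncomputable def dlt {n : ℕ} (i0 i1 i2 : Fin n) (a : L) (α : Fin n → L) : L :=
  a * ((α i2 - α i0) * (α i1 - α i0) / (α i2 - α i1)) * ∏ j ∈ Finset.univ.erase i0, (α j - α i0)

/-- scaled distances -/
structure Far {n : ℕ} (w : Valuation L ℤᵐ⁰) (a : L) (α : Fin n → L) (c₁ α₀ ρ : L) : Prop where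
  c0 : c₁ ≠ 0
  r0 : ρ ≠ 0
  far : ∀ i j, i ≠ j → w ((α i - α₀) / ρ - (α j - α₀) / ρ) =
    max 1 (w ((α i - α₀) / ρ)) * max 1 (w ((α j - α₀) / ρ))
  lead : w (c₁ ^ 2 * a * ρ ^ n) * ∏ j, max 1 (w ((α j - α₀) / ρ)) = 1

variable {n : ℕ} {a : L} {α : Fin n → L} {c₁ α₀ ρ : L}

theorem Far.dist (h : Far w a α c₁ α₀ ρ) (i j : Fin n) (hij : i ≠ j) :
    w (α i - α j) = w ρ * (max 1 (w ((α i - α₀) / ρ)) * max 1 (w ((α j - α₀) / ρ))) := by
  rw [← h.far i j hij, ← map_mul]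
  congr 1
  have := h.r0
  field_simp
  ring

theorem umax_ne_zero (x : L) : max 1 (w x) ≠ 0 := (lt_of_lt_of_le zero_lt_one (le_max_left _ _)).ne'

theorem Far.lam_unit (h : Far w a α c₁ α₀ ρ) (i0 i1 i2 j : Fin n) (h02 : i0 ≠ i2)
    (h12 : i1 ≠ i2) (hj0 : j ≠ i0) (hj1 : j ≠ i1) : w (lam i0 i1 i2 α j) = 1 := by
  have hr : w ρ ≠ 0 := (Valuation.ne_zero_iff _).2 h.r0
  rw [lam, map_div₀, map_mul, map_mul, h.dist j i1 hj1, h.dist i2 i0 h02.symm, h.dist j i0 hj0,
    h.dist i2 i1 h12.symm]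
  have e0 := umax_ne_zero (w := w) ((α i0 - α₀) / ρ)
  have e1 := umax_ne_zero (w := w) ((α i1 - α₀) / ρ)
  have e2 := umax_ne_zero (w := w) ((α i2 - α₀) / ρ)
  have ej := umax_ne_zero (w := w) ((α j - α₀) / ρ)
  rw [div_eq_one_iff_eq]
  · ac_rfl
  · simp only [ne_eq, mul_eq_zero, hr, e0, e1, e2, ej, or_self, not_false_eq_true]

theorem one_sub_lam (i0 i1 i2 j : Fin n) (hj0 : α j - α i0 ≠ 0) (h12 : α i2 - α i1 ≠ 0) :
    1 - lam i0 i1 i2 α j = ((α j - α i2) * (α i0 - α i1)) / ((α j - α i0) * (α i2 - α i1)) := by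
  rw [lam, eq_div_iff (mul_ne_zero hj0 h12), sub_mul, div_mul_cancel₀ _ (mul_ne_zero hj0 h12)]
  ring

theorem Far.one_sub_lam_unit (h : Far w a α c₁ α₀ ρ) (hinj : Function.Injective α)
    (i0 i1 i2 j : Fin n) (h01 : i0 ≠ i1)
    (h12 : i1 ≠ i2) (hj0 : j ≠ i0) (hj2 : j ≠ i2) : w (1 - lam i0 i1 i2 α j) = 1 := by
  have hr : w ρ ≠ 0 := (Valuation.ne_zero_iff _).2 h.r0
  rw [one_sub_lam i0 i1 i2 j (sub_ne_zero.2 fun h => hj0 (hinj h))
    (sub_ne_zero.2 fun h => h12 (hinj h).symm), map_div₀, map_mul, map_mul, h.dist j i2 hj2,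
    h.dist i0 i1 h01, h.dist j i0 hj0, h.dist i2 i1 h12.symm]
  have e0 := umax_ne_zero (w := w) ((α i0 - α₀) / ρ)
  have e1 := umax_ne_zero (w := w) ((α i1 - α₀) / ρ)
  have e2 := umax_ne_zero (w := w) ((α i2 - α₀) / ρ)
  have ej := umax_ne_zero (w := w) ((α j - α₀) / ρ)
  rw [div_eq_one_iff_eq]
  · ac_rfl
  · simp only [ne_eq, mul_eq_zero, hr, e0, e1, e2, ej, or_self, not_false_eq_true]

theorem Far.dlt_square (h : Far w a α c₁ α₀ ρ) (g : ℕ) (hn : n = 2 * g + 2)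
    (i0 i1 i2 : Fin n) (h01 : i0 ≠ i1) (h02 : i0 ≠ i2) (h12 : i1 ≠ i2) :
    ∃ z : ℤᵐ⁰, w (dlt i0 i1 i2 a α) = z ^ 2 := by
  classical
  have hr : w ρ ≠ 0 := (Valuation.ne_zero_iff _).2 h.r0
  have hc : w c₁ ≠ 0 := (Valuation.ne_zero_iff _).2 h.c0
  set u : Fin n → ℤᵐ⁰ := fun j => max 1 (w ((α j - α₀) / ρ)) with hu
  have hu0 : ∀ j, u j ≠ 0 := fun j => umax_ne_zero _
  refine ⟨u i0 ^ (g + 1) / w c₁, ?_⟩
  have hd : ∀ i j, i ≠ j → w (α i - α j) = w ρ * (u i * u j) := fun i j hij => h.dist i j hij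
  have hl : w c₁ ^ 2 * w a * w ρ ^ n * ∏ j, u j = 1 := by
    have := h.lead
    rwa [map_mul, map_mul, map_pow, map_pow] at this
  have hprod : ∏ j ∈ Finset.univ.erase i0, w (α j - α i0) =
      w ρ ^ (n - 1) * (u i0 ^ (n - 2) * ∏ j, u j) := by
    rw [Finset.prod_congr rfl fun j hj => hd j i0 (Finset.ne_of_mem_erase hj),
      Finset.prod_mul_distrib, Finset.prod_mul_distrib, Finset.prod_const, Finset.prod_const,
      Finset.card_erase_of_mem (Finset.mem_univ _), Finset.card_univ, Fintype.card_fin,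
      ← Finset.mul_prod_erase Finset.univ u (Finset.mem_univ i0)]
    have h1 : u i0 ^ (n - 1) = u i0 ^ (n - 2) * u i0 := by
      rw [← pow_succ]; congr 1; omega
    rw [h1]
    generalize u i0 ^ (n - 2) = A
    generalize w ρ ^ (n - 1) = B
    generalize ∏ x ∈ Finset.univ.erase i0, u x = E
    ac_rfl
  have hk : w ((α i2 - α i0) * (α i1 - α i0) / (α i2 - α i1)) = w ρ * u i0 ^ 2 := by
    rw [map_div₀, map_mul, hd i2 i0 h02.symm, hd i1 i0 h01.symm, hd i2 i1 h12.symm,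
      div_eq_iff (mul_ne_zero hr (mul_ne_zero (hu0 _) (hu0 _))), pow_two]
    ac_rfl
  rw [dlt, map_mul, map_mul, map_prod, hprod, hk, div_pow, eq_div_iff (pow_ne_zero _ hc)]
  have e1 : w a * (w ρ * u i0 ^ 2) * (w ρ ^ (n - 1) * (u i0 ^ (n - 2) * ∏ j, u j)) * w c₁ ^ 2 =
      (w c₁ ^ 2 * w a * (w ρ ^ (n - 1) * w ρ) * ∏ j, u j) * (u i0 ^ (n - 2) * u i0 ^ 2) := by
    ac_rfl
  rw [e1, ← pow_succ, show n - 1 + 1 = n by omega, hl, one_mul, ← pow_add, ← pow_mul]
  congr 1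
  omega

end abs

section nf2
variable {K : Type} [Field K] [NumberField K] {L : Type} [Field L] [NumberField L] [Algebra K L]

theorem good_far (g : ℕ) (hg : 1 ≤ g) (f : K[X]) (hf : IsHyperelliptic g f)
    (v : HeightOneSpectrum (𝓞 K)) (w : HeightOneSpectrum (𝓞 L)) [w.asIdeal.LiesOver v.asIdeal]
    (hgood : discExp g f v = 0) (h2 : v.valuation K (2 : K) = 1)
    (hn : v.valuation K ((2 * g + 2 : ℕ) : K) = 1) (a : L) (ha : a ≠ 0) (α : Fin (2 * g + 2) → L)
    (hfα : f.map (algebraMap K L) = C a * ∏ j, (X - C (α j))) :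
    ∃ (c₁ α₀ ρ : K), Far (w.valuation L) a α (algebraMap K L c₁) (algebraMap K L α₀)
      (algebraMap K L ρ) := by
  obtain ⟨c₁, α₀, ρ, h1, h2, h3, h4⟩ := good_dist g hg f hf v w hgood h2 hn a ha α hfα
  exact ⟨c₁, α₀, ρ, by rwa [Ne, map_eq_zero], by rwa [Ne, map_eq_zero], h3, h4⟩

end nf2

end Pool.Agent.Lib.MP_ca2859_nt
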