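import Mathlib
import Pool.Agent.Lib.MP_ca2859_nt.GoodD

open Polynomial WithZero IsDedekindDomain NumberField

set_option linter.unusedSectionVars false

namespace Pool.Agent.Lib.MP_ca2859_nt

section nf
variable {K : Type} [Field K] [NumberField K] {L : Type} [Field L] [NumberField L] [Algebra K L]
  [IsGalois K L]

/-- an automorphism in the inertia group is trivial modulo the maximal ideal of the local ring -/
theorem inertia_val (w : HeightOneSpectrum (𝓞 L)) (σ : L ≃ₐ[K] L)
    (hσ : ∀ x : 𝓞 L, galRestrict (𝓞 K) K L (𝓞 L) σ x - x ∈ w.asIdeal) (x : L)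
    (hx : w.valuation L x ≤ 1) : w.valuation L (σ x - x) < 1 := by
  obtain ⟨r, ⟨d, hd⟩, hrd⟩ := w.exists_primeCompl_mul_eq_of_integer x hx
  simp only at hrd
  have hint : ∀ y : 𝓞 L, w.valuation L (σ (algebraMap (𝓞 L) L y) - algebraMap (𝓞 L) L y) < 1 := by
    intro y
    rw [← algebraMap_galRestrict_apply (𝓞 K), ← map_sub]
    exact (w.valuation_lt_one_iff_mem _).2 (hσ y)
  have hle : ∀ y : 𝓞 L, w.valuation L (algebraMap (𝓞 L) L y) ≤ 1 := fun y => w.valuation_le_one y
  have hd1 : w.valuation L (algebraMap (𝓞 L) L d) = 1 := by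
    rw [HeightOneSpectrum.valuation_of_algebraMap]
    exact (w.intValuation_eq_one_iff_mem_primeCompl d).2 hd
  have hsd1 : w.valuation L (σ (algebraMap (𝓞 L) L d)) = 1 := by
    have h1 := Valuation.map_add_eq_of_lt_right (w.valuation L)
      (x := σ (algebraMap (𝓞 L) L d) - algebraMap (𝓞 L) L d) (y := algebraMap (𝓞 L) L d)
      (by rw [hd1]; exact hint d)
    rw [sub_add_cancel] at h1
    rw [h1, hd1]
  have h2 : (σ x - x) * (algebraMap (𝓞 L) L d * σ (algebraMap (𝓞 L) L d)) =
      algebraMap (𝓞 L) L d * (σ (algebraMap (𝓞 L) L r) - algebraMap (𝓞 L) L r) -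
      algebraMap (𝓞 L) L r * (σ (algebraMap (𝓞 L) L d) - algebraMap (𝓞 L) L d) := by
    rw [← hrd, map_mul]
    ring
  have h3 : w.valuation L (σ x - x) =
      w.valuation L ((σ x - x) * (algebraMap (𝓞 L) L d * σ (algebraMap (𝓞 L) L d))) := by
    rw [map_mul, map_mul, hd1, hsd1, mul_one, mul_one]
  rw [h3, h2]
  refine Valuation.map_sub_lt _ ?_ ?_
  · rw [map_mul]
    exact mul_lt_one_of_nonneg_of_lt_one_right (hle d) zero_le (hint r)
  · rw [map_mul]
    exact mul_lt_one_of_nonneg_of_lt_one_right (hle r) zero_le (hint d)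

theorem inertia_trivial {n : ℕ} (w : HeightOneSpectrum (𝓞 L)) (σ : L ≃ₐ[K] L)
    (hσ : ∀ x : 𝓞 L, galRestrict (𝓞 K) K L (𝓞 L) σ x - x ∈ w.asIdeal) (a : L) (α : Fin n → L)
    (c₁ α₀ ρ : K) (hfar : Far (w.valuation L) a α (algebraMap K L c₁) (algebraMap K L α₀)
      (algebraMap K L ρ)) (π : Fin n → Fin n) (hπ : ∀ j, σ (α j) = α (π j)) (j : Fin n) :
    π j = j := by
  by_contra hne
  set s : Fin n → L := fun j => (α j - algebraMap K L α₀) / algebraMap K L ρ with hs
  have hss : σ (s j) = s (π j) := by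
    rw [hs]
    simp only [map_div₀, map_sub, hπ, AlgEquiv.commutes]
  have hd := hfar.far (π j) j hne
  change w.valuation L (s (π j) - s j) = max 1 (w.valuation L (s (π j))) *
    max 1 (w.valuation L (s j)) at hd
  rcases le_or_gt (w.valuation L (s j)) 1 with h1 | h1
  · have h2 := inertia_val w σ hσ (s j) h1
    rw [hss, hd] at h2
    exact absurd h2 (not_lt.2 (one_le_mul (le_max_left _ _) (le_max_left _ _)))
  · have hsj0 : s j ≠ 0 := by
      intro h0; rw [h0, map_zero] at h1; exact absurd h1 (not_lt.2 zero_le)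
    have h3 : w.valuation L (s j)⁻¹ < 1 := by
      rw [map_inv₀]
      exact inv_lt_one_of_one_lt₀ h1
    have h2 := inertia_val w σ hσ (s j)⁻¹ h3.le
    rw [map_inv₀, hss] at h2
    have h4 : w.valuation L (s (π j))⁻¹ < 1 := by
      have h5 : (s (π j))⁻¹ = ((s (π j))⁻¹ - (s j)⁻¹) + (s j)⁻¹ := by ring
      rw [h5]
      exact Valuation.map_add_lt _ h2 h3
    have hspj0 : s (π j) ≠ 0 := by
      rw [← hss, Ne, map_eq_zero]; exact hsj0
    have h6 : 1 < w.valuation L (s (π j)) := by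
      rw [map_inv₀] at h4
      exact (inv_lt_one₀ (zero_lt_iff.2 ((Valuation.ne_zero_iff _).2 hspj0))).1 h4
    have h7 : (s (π j))⁻¹ - (s j)⁻¹ = -((s (π j) - s j) / (s (π j) * s j)) := by
      field_simp
      ring
    rw [h7, Valuation.map_neg, map_div₀, map_mul, hd, max_eq_right h6.le, max_eq_right h1.le,
      div_self (mul_ne_zero ((Valuation.ne_zero_iff _).2 hspj0)
        ((Valuation.ne_zero_iff _).2 hsj0))] at h2
    exact lt_irrefl _ h2

end nf

end Pool.Agent.Lib.MP_ca2859_nt
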