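import Mathlib
import Pool.Agent.Lib.MP_ca2859_nt.Good2
import Pool.Agent.Lib.MP_ca2859_nt.Global

/-!
# Change of the coordinate on the projective line
-/

open Polynomial WithZero IsDedekindDomain NumberField

namespace Pool.Agent.Lib.MP_ca2859_nt

section
variable {F : Type*} [Field F]

/-- the transform of a binary form by a matrix -/
noncomputable def mobP (n : ℕ) (f : F[X]) (a b c d : F) : F[X] :=
  ∑ i ∈ Finset.range (n + 1), C (f.coeff i) * (C a * X + C b) ^ i * (C c * X + C d) ^ (n - i)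

theorem mobP_eval (n : ℕ) (f : F[X]) (hf : f.natDegree ≤ n) (a b c d x : F) (hx : c * x + d ≠ 0) :
    (mobP n f a b c d).eval x = (c * x + d) ^ n * f.eval ((a * x + b) / (c * x + d)) := by
  rw [mobP, eval_finsetSum, eval_eq_sum_range' (Nat.lt_succ_of_le hf), Finset.mul_sum]
  apply Finset.sum_congr rfl
  intro i hi
  rw [Finset.mem_range] at hi
  simp only [eval_mul, eval_pow, eval_add, eval_C, eval_X]
  rw [div_pow]
  have h1 : (c * x + d) ^ n = (c * x + d) ^ (n - i) * (c * x + d) ^ i := by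
    rw [← pow_add]; congr 1; omega
  rw [h1]
  generalize c * x + d = D at hx
  have hDi : D ^ i ≠ 0 := pow_ne_zero _ hx
  rw [mul_assoc (D ^ (n - i)), mul_comm (D ^ (n - i)), mul_left_comm (D ^ i), mul_div_cancel₀ _ hDi]

theorem lin_ne_zero (c d : F) (h : ¬ (c = 0 ∧ d = 0)) : (C c * X + C d : F[X]) ≠ 0 := by
  intro h0
  apply h
  have h1 := congrArg (coeff · 1) h0
  have h2 := congrArg (coeff · 0) h0
  simp [coeff_C] at h1 h2
  exact ⟨h1, h2⟩

theorem SameCurve.trans [Infinite F] {g : ℕ} {f h k : F[X]} (hf : f.natDegree ≤ 2 * g + 2)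
    (h1 : SameCurve g f h) (h2 : SameCurve g h k) : SameCurve g f k := by
  obtain ⟨a, b, c, d, e, hdet, he, hev⟩ := h1
  obtain ⟨a', b', c', d', e', hdet', he', hev'⟩ := h2
  set A := a * a' + b * c' with hA
  set B := a * b' + b * d' with hB
  set Cc := c * a' + d * c' with hCc
  set D := c * b' + d * d' with hD
  have hdetAB : A * D - B * Cc ≠ 0 := by
    have : A * D - B * Cc = (a * d - b * c) * (a' * d' - b' * c') := by
      rw [hA, hB, hCc, hD]; ring
    rw [this]; exact mul_ne_zero hdet hdet'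
  have hpoly : k = C (e ^ 2 * e' ^ 2) * mobP (2 * g + 2) f A B Cc D := by
    have hz : (k - C (e ^ 2 * e' ^ 2) * mobP (2 * g + 2) f A B Cc D) *
        ((C c' * X + C d') * (C Cc * X + C D)) = 0 := by
      apply Polynomial.funext
      intro x
      rw [eval_zero, eval_mul, eval_mul]
      simp only [eval_add, eval_mul, eval_C, eval_X]
      by_cases hx1 : c' * x + d' = 0
      · rw [hx1]; ring
      by_cases hx2 : Cc * x + D = 0
      · rw [hx2]; ring
      have hx1' : c' * x + d' ≠ 0 := hx1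
      have hx2' : Cc * x + D ≠ 0 := hx2
      have h5 : c * ((a' * x + b') / (c' * x + d')) + d = (Cc * x + D) / (c' * x + d') := by
        rw [eq_div_iff hx1', add_mul, mul_assoc, div_mul_cancel₀ _ hx1', hCc, hD]
        ring
      have h6 : a * ((a' * x + b') / (c' * x + d')) + b = (A * x + B) / (c' * x + d') := by
        rw [eq_div_iff hx1', add_mul, mul_assoc, div_mul_cancel₀ _ hx1', hA, hB]
        ring
      have hy : c * ((a' * x + b') / (c' * x + d')) + d ≠ 0 := by
        rw [h5]; exact div_ne_zero hx2 hx1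
      have h3 : k.eval x = e ^ 2 * e' ^ 2 * (mobP (2 * g + 2) f A B Cc D).eval x := by
        rw [hev' x hx1, hev _ hy, mobP_eval _ f hf _ _ _ _ _ hx2]
        rw [h5, h6, div_div_div_cancel_right₀ hx1', div_pow]
        generalize c' * x + d' = u at hx1'
        generalize eval ((A * x + B) / (Cc * x + D)) f = y
        generalize Cc * x + D = z
        have hu : u ^ (2 * g + 2) ≠ 0 := pow_ne_zero _ hx1'
        have h7 : u ^ (2 * g + 2) * (z ^ (2 * g + 2) / u ^ (2 * g + 2)) = z ^ (2 * g + 2) :=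
          mul_div_cancel₀ _ hu
        linear_combination (e' ^ 2 * e ^ 2 * y) * h7
      rw [eval_sub, eval_mul, eval_C, h3]
      ring
    rcases mul_eq_zero.1 hz with h3 | h3
    · exact sub_eq_zero.1 h3
    · exfalso
      rcases mul_eq_zero.1 h3 with h4 | h4
      · refine lin_ne_zero c' d' ?_ h4
        rintro ⟨rfl, rfl⟩
        simp at hdet'
      · refine lin_ne_zero Cc D ?_ h4
        rintro ⟨h5, h6⟩
        apply hdetAB
        rw [h5, h6]; ring
  refine ⟨A, B, Cc, D, e * e', hdetAB, mul_ne_zero he he', ?_⟩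
  intro x hx
  conv_lhs => rw [hpoly]
  rw [eval_mul, eval_C, mobP_eval _ f hf _ _ _ _ _ hx]
  ring

/-- the transform moving the point at infinity -/
noncomputable def flip (g : ℕ) (a : F) (f : F[X]) : F[X] := reflect (2 * g + 2) (taylor a f)

theorem flip_eval (g : ℕ) (a : F) (f : F[X]) (hf : f.natDegree ≤ 2 * g + 2) (x : F) (hx : x ≠ 0) :
    (flip g a f).eval x = x ^ (2 * g + 2) * f.eval (x⁻¹ + a) := by
  rw [flip, eval_reflect _ _ (by rw [natDegree_taylor]; exact hf) x hx, taylor_eval]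

theorem sameCurve_flip (g : ℕ) (a : F) (f : F[X]) (hf : f.natDegree ≤ 2 * g + 2) :
    SameCurve g f (flip g a f) := by
  refine ⟨a, 1, 1, 0, 1, by simp, one_ne_zero, ?_⟩
  intro x hx
  have hx' : x ≠ 0 := by simpa using hx
  rw [flip_eval g a f hf x hx']
  have : (a * x + 1) / (1 * x + 0) = x⁻¹ + a := by
    rw [one_mul, add_zero, add_div, mul_div_assoc, div_self hx', mul_one, one_div, add_comm]
  rw [this]; ring

theorem sameCurve_flip' (g : ℕ) (a : F) (f : F[X]) (hf : f.natDegree ≤ 2 * g + 2) :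
    SameCurve g (flip g a f) f := by
  refine ⟨0, 1, 1, -a, 1, by simp, one_ne_zero, ?_⟩
  intro x hx
  have hx' : x - a ≠ 0 := by
    intro h; apply hx; linear_combination h
  have h1 : (0 * x + 1) / (1 * x + -a) = (x - a)⁻¹ := by
    rw [zero_mul, zero_add, one_mul, ← sub_eq_add_neg, one_div]
  rw [h1, flip_eval g a f hf _ (inv_ne_zero hx'), inv_inv, sub_add_cancel]
  rw [one_mul, ← sub_eq_add_neg, inv_pow]
  field_simp

theorem hyper_of_RR_pred [CharZero F] (g : ℕ) (hg : 1 ≤ g) (f : F[X]) (hfd : f.natDegree = 2 * g + 1)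
    (hR : RR (2 * g + 2) f ≠ 0) : IsHyperelliptic g f := by
  refine ⟨?_, Or.inl hfd⟩
  obtain ⟨ε, hε⟩ := RR_eq_discr_of_natDegree_eq_pred (2 * g + 2) (by omega) f (by omega)
  have hd : f.discr ≠ 0 := by
    intro h0; rw [h0, mul_zero, mul_zero, mul_zero] at hε; exact hR hε
  have hd0 : 0 < f.degree := by
    rw [← natDegree_pos_iff_degree_pos]; omega
  have hf0 : f ≠ 0 := by rintro rfl; simp at hd0
  have hder : (derivative f).natDegree = f.natDegree - 1 := by
    have := degree_derivative (p := f) (by omega)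
    exact natDegree_eq_of_degree_eq_some this
  have h1 := resultant_deriv hd0
  have h2 : resultant f (derivative f) ≠ 0 := by
    rw [hder, h1]
    exact mul_ne_zero (mul_ne_zero (pow_ne_zero _ (by norm_num)) (leadingCoeff_ne_zero.2 hf0)) hd
  rw [Ne, resultant_eq_zero_iff] at h2
  rw [separable_def]
  by_contra hcop
  exact h2 ⟨Or.inl hf0, hcop⟩

theorem RR_eq_zero_of_lt {R : Type*} [CommRing R] (n : ℕ) (hn : 3 ≤ n) (f : R[X]) (hf : f.natDegree < n - 1) :
    RR n f = 0 := by
  rw [RR]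
  apply resultant_eq_zero_of_lt_lt
  · have := natDegree_derivative_le f
    omega
  · refine lt_of_le_of_lt (natDegree_sub_le _ _) ?_
    rw [max_lt_iff]
    constructor
    · exact lt_of_le_of_lt (natDegree_C_mul_le _ _) hf
    · refine lt_of_le_of_lt natDegree_mul_le ?_
      have h1 := natDegree_derivative_le f
      have h2 := natDegree_X_le (R := R)
      rcases Nat.eq_zero_or_pos f.natDegree with h0 | h0
      · omega
      · omega

theorem hyper_of_RR_all [CharZero F] (g : ℕ) (hg : 1 ≤ g) (f : F[X]) (hfd : f.natDegree ≤ 2 * g + 2)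
    (hR : RR (2 * g + 2) f ≠ 0) : IsHyperelliptic g f := by
  rcases Nat.lt_or_ge f.natDegree (2 * g + 1) with h | h
  · exact absurd (RR_eq_zero_of_lt (2 * g + 2) (by omega) f (by omega)) hR
  · rcases Nat.lt_or_ge f.natDegree (2 * g + 2) with h' | h'
    · exact hyper_of_RR_pred g hg f (by omega) hR
    · exact hyper_of_RR g f (by omega) hR

theorem RR_ne_zero_of_hyper [CharZero F] (g : ℕ) (hg : 1 ≤ g) (f : F[X]) (hf : IsHyperelliptic g f) :
    RR (2 * g + 2) f ≠ 0 := by
  have hD0 := eqDisc_ne_zero g f hf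
  obtain ⟨ε, hε⟩ := RR_eqDisc g hg f hf.2
  intro h0
  rw [h0, zero_mul] at hε
  have h1 : ((ε : ℤ) : F) * (((2 * g + 2 : ℕ) : F) ^ (2 * g) * eqDisc g f) ≠ 0 := by
    refine mul_ne_zero (unit_ne_zero ε) (mul_ne_zero (pow_ne_zero _ ?_) hD0)
    rw [Nat.cast_ne_zero]; omega
  exact h1 hε.symm

end

section
variable {K : Type} [Field K] [NumberField K]

theorem model_flip (v : Valuation K ℤᵐ⁰) (g : ℕ) (a : K) (f : K[X]) (hf : f.natDegree ≤ 2 * g + 2)
    (P Q : K[X]) : IsWeierstrassModel v g f P Q ↔ IsWeierstrassModel v g (flip g a f) P Q := by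
  have hfl : (flip g a f).natDegree ≤ 2 * g + 2 := by
    rw [flip]
    exact natDegree_reflect_le' _ _ (by rw [natDegree_taylor]; exact hf)
  constructor
  · intro h
    exact ⟨h.intP, h.intQ, h.degP, h.degQ, h.deg0, SameCurve.trans hfl (sameCurve_flip' g a f hf) h.same⟩
  · intro h
    exact ⟨h.intP, h.intQ, h.degP, h.degQ, h.deg0, SameCurve.trans hf (sameCurve_flip g a f hf) h.same⟩

theorem discExp_flip (g : ℕ) (a : K) (f : K[X]) (hf : f.natDegree ≤ 2 * g + 2)
    (v : HeightOneSpectrum (𝓞 K)) : discExp g (flip g a f) v = discExp g f v := by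
  rw [discExp, discExp, minDiscExp, minDiscExp]
  congr 1
  ext k
  simp only [Set.mem_ofPred_eq]
  constructor
  · rintro ⟨P, Q, h1, h2⟩; exact ⟨P, Q, (model_flip _ g a f hf P Q).2 h1, h2⟩
  · rintro ⟨P, Q, h1, h2⟩; exact ⟨P, Q, (model_flip _ g a f hf P Q).1 h1, h2⟩

theorem DeltaC_flip (g : ℕ) (a : K) (f : K[X]) (hf : f.natDegree ≤ 2 * g + 2) :
    DeltaC g (flip g a f) = DeltaC g f := by
  rw [DeltaC, DeltaC]
  simp only [discExp_flip g a f hf]

theorem MC_flip (g : ℕ) (a : K) (f : K[X]) (hf : f.natDegree ≤ 2 * g + 2) :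
    MC g (flip g a f) = MC g f := by
  rw [MC, MC]
  simp only [discExp_flip g a f hf]

end

end Pool.Agent.Lib.MP_ca2859_nt
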