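import Mathlib
import Pool.Agent.Lib.MP_ca2859_nt.Mobius
import Pool.Agent.Lib.MP_ca2859_nt.GoodD

open Polynomial WithZero IsDedekindDomain NumberField

set_option linter.unusedSectionVars false

namespace Pool.Agent.Lib.MP_ca2859_nt

section
variable {F : Type*} [Field F]

theorem SameCurve.symm {g : ℕ} {f h : F[X]} (h1 : SameCurve g f h) : SameCurve g h f := by
  obtain ⟨a, b, c, d, e, hdet, he, hev⟩ := h1
  set Δ := a * d - b * c with hΔ
  refine ⟨d, -b, -c, a, (e * Δ ^ (g + 1))⁻¹, ?_, ?_, ?_⟩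
  · have : d * a - -b * -c = Δ := by rw [hΔ]; ring
    rw [this]; exact hdet
  · exact inv_ne_zero (mul_ne_zero he (pow_ne_zero _ hdet))
  · intro y hy
    have h1 : c * ((d * y + -b) / (-c * y + a)) + d = Δ / (-c * y + a) := by
      rw [eq_div_iff hy, add_mul, mul_assoc, div_mul_cancel₀ _ hy, hΔ]
      ring
    have h2 : a * ((d * y + -b) / (-c * y + a)) + b = (Δ * y) / (-c * y + a) := by
      rw [eq_div_iff hy, add_mul, mul_assoc, div_mul_cancel₀ _ hy, hΔ]
      ring
    have h3 := hev ((d * y + -b) / (-c * y + a)) (by rw [h1]; exact div_ne_zero hdet hy)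
    rw [h1, h2, div_div_div_cancel_right₀ hy, mul_div_cancel_left₀ _ hdet] at h3
    rw [h3]
    have h4 : (-c * y + a) ^ (2 * g + 2) ≠ 0 := pow_ne_zero _ hy
    have h5 : Δ ^ (2 * g + 2) ≠ 0 := pow_ne_zero _ hdet
    have h6 : (Δ ^ (g + 1)) ^ 2 = Δ ^ (2 * g + 2) := by rw [← pow_mul]; congr 1; ring
    rw [inv_pow, mul_pow, h6, div_pow]
    generalize -c * y + a = z at h4
    field_simp

variable {L : Type*} [Field L] {n : ℕ}

/-- the matrix sends the points `α'` to the points `α` -/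
def Rel (A B C D : L) (α α' : Fin n → L) : Prop := ∀ j, α j * (C * α' j + D) = A * α' j + B

theorem exists_mob (i0 i1 i2 : Fin n) (h01 : i0 ≠ i1) (h02 : i0 ≠ i2) (h12 : i1 ≠ i2)
    (α α' : Fin n → L) (hα : Function.Injective α) (hα' : Function.Injective α')
    (hlam : ∀ j, lam i0 i1 i2 α j = lam i0 i1 i2 α' j) :
    ∃ A B C D : L, A * D - B * C ≠ 0 ∧ Rel A B C D α α' := by
  have d01 : α i1 - α i0 ≠ 0 := sub_ne_zero.2 fun h => h01 (hα h).symm
  have d02 : α i2 - α i0 ≠ 0 := sub_ne_zero.2 fun h => h02 (hα h).symm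
  have d12 : α i2 - α i1 ≠ 0 := sub_ne_zero.2 fun h => h12 (hα h).symm
  have d01' : α' i1 - α' i0 ≠ 0 := sub_ne_zero.2 fun h => h01 (hα' h).symm
  have d02' : α' i2 - α' i0 ≠ 0 := sub_ne_zero.2 fun h => h02 (hα' h).symm
  have d12' : α' i2 - α' i1 ≠ 0 := sub_ne_zero.2 fun h => h12 (hα' h).symm
  have key : ∀ j, ((α i2 - α i1) * (α j - α i0)) * ((α' i2 - α' i0) * (α' j - α' i1)) =
      ((α i2 - α i0) * (α j - α i1)) * ((α' i2 - α' i1) * (α' j - α' i0)) := by
    intro j
    rcases eq_or_ne j i0 with rfl | hj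
    · simp
    have dj : α j - α i0 ≠ 0 := sub_ne_zero.2 fun h => hj (hα h)
    have dj' : α' j - α' i0 ≠ 0 := sub_ne_zero.2 fun h => hj (hα' h)
    have h := hlam j
    rw [lam, lam, div_eq_div_iff (mul_ne_zero dj d12) (mul_ne_zero dj' d12')] at h
    linear_combination -h
  refine ⟨-α i0 * (α i2 - α i1) * (α' i2 - α' i0) + α i1 * (α i2 - α i0) * (α' i2 - α' i1),
    -α i0 * (α i2 - α i1) * (-α' i1 * (α' i2 - α' i0)) +
      α i1 * (α i2 - α i0) * (-α' i0 * (α' i2 - α' i1)),
    -(α i2 - α i1) * (α' i2 - α' i0) + (α i2 - α i0) * (α' i2 - α' i1),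
    -(α i2 - α i1) * (-α' i1 * (α' i2 - α' i0)) + (α i2 - α i0) * (-α' i0 * (α' i2 - α' i1)),
    ?_, ?_⟩
  · have : (-α i0 * (α i2 - α i1) * (α' i2 - α' i0) + α i1 * (α i2 - α i0) * (α' i2 - α' i1)) *
      (-(α i2 - α i1) * (-α' i1 * (α' i2 - α' i0)) + (α i2 - α i0) * (-α' i0 * (α' i2 - α' i1))) -
      (-α i0 * (α i2 - α i1) * (-α' i1 * (α' i2 - α' i0)) +
      α i1 * (α i2 - α i0) * (-α' i0 * (α' i2 - α' i1))) *
      (-(α i2 - α i1) * (α' i2 - α' i0) + (α i2 - α i0) * (α' i2 - α' i1)) =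
      ((α i2 - α i0) * (α i2 - α i1) * (α i1 - α i0)) *
      ((α' i2 - α' i0) * (α' i2 - α' i1) * (α' i1 - α' i0)) := by ring
    rw [this]
    exact mul_ne_zero (mul_ne_zero (mul_ne_zero d02 d12) d01)
      (mul_ne_zero (mul_ne_zero d02' d12') d01')
  · intro j
    linear_combination -key j

theorem det_ne_zero_of_rel (i0 i1 i2 : Fin n) (h01 : i0 ≠ i1) (h02 : i0 ≠ i2) (h12 : i1 ≠ i2)
    (α α' : Fin n → L) (hα : Function.Injective α) (hα' : Function.Injective α')
    (A B C D : L) (hne : ¬ (A = 0 ∧ B = 0 ∧ C = 0 ∧ D = 0)) (hrel : Rel A B C D α α') :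
    A * D - B * C ≠ 0 := by
  intro hdet
  have e1 : ∀ j, (C * α' j + D) ≠ 0 → C * α j = A ∧ D * α j = B := by
    intro j hj
    have h := hrel j
    constructor
    · apply mul_right_cancel₀ hj
      linear_combination C * h - hdet
    · apply mul_right_cancel₀ hj
      linear_combination D * h + (α' j) * hdet
  -- two indices at which the denominator does not vanish force C = D = 0
  have e2 : ∀ j k, j ≠ k → (C * α' j + D) ≠ 0 → (C * α' k + D) ≠ 0 → False := by
    intro j k hjk hj hk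
    obtain ⟨h1, h2⟩ := e1 j hj
    obtain ⟨h3, h4⟩ := e1 k hk
    have hd : α j - α k ≠ 0 := sub_ne_zero.2 fun h => hjk (hα h)
    have hC : C = 0 := by
      have : C * (α j - α k) = 0 := by linear_combination h1 - h3
      exact (mul_eq_zero.1 this).resolve_right hd
    have hD : D = 0 := by
      have : D * (α j - α k) = 0 := by linear_combination h2 - h4
      exact (mul_eq_zero.1 this).resolve_right hd
    apply hj
    rw [hC, hD]; ring
  -- two indices at which it vanishes force C = D = 0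
  have e3 : ∀ j k, j ≠ k → (C * α' j + D) = 0 → (C * α' k + D) = 0 → False := by
    intro j k hjk hj hk
    have hd : α' j - α' k ≠ 0 := sub_ne_zero.2 fun h => hjk (hα' h)
    have hC : C = 0 := by
      have : C * (α' j - α' k) = 0 := by linear_combination hj - hk
      exact (mul_eq_zero.1 this).resolve_right hd
    have hD : D = 0 := by rw [hC] at hj; linear_combination hj
    have r1 := hrel j
    have r2 := hrel k
    rw [hj] at r1
    rw [hk] at r2
    have hA : A = 0 := by
      have : A * (α' j - α' k) = 0 := by linear_combination r2 - r1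
      exact (mul_eq_zero.1 this).resolve_right hd
    have hB : B = 0 := by rw [hA] at r1; linear_combination -r1
    exact hne ⟨hA, hB, hC, hD⟩
  by_cases c0 : C * α' i0 + D = 0
  · by_cases c1 : C * α' i1 + D = 0
    · exact e3 _ _ h01 c0 c1
    · by_cases c2 : C * α' i2 + D = 0
      · exact e3 _ _ h02 c0 c2
      · exact e2 _ _ h12 c1 c2
  · by_cases c1 : C * α' i1 + D = 0
    · by_cases c2 : C * α' i2 + D = 0
      · exact e3 _ _ h12 c1 c2
      · exact e2 _ _ h02 c0 c2
    · exact e2 _ _ h01 c0 c1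

end

section descent
variable {K L : Type*} [Field K] [Field L] [Algebra K L] [FiniteDimensional K L] [IsGalois K L]
  [CharZero K] {n : ℕ}

theorem descend (α α' : Fin n → L) (π : (L ≃ₐ[K] L) → Fin n → Fin n)
    (hs : ∀ σ, Function.Surjective (π σ)) (hπ : ∀ σ j, σ (α j) = α (π σ j))
    (hπ' : ∀ σ j, σ (α' j) = α' (π σ j)) (A B C D : L)
    (hne : ¬ (A = 0 ∧ B = 0 ∧ C = 0 ∧ D = 0)) (hrel : Rel A B C D α α') :
    ∃ A' B' C' D' : K, ¬ (A' = 0 ∧ B' = 0 ∧ C' = 0 ∧ D' = 0) ∧
      Rel (algebraMap K L A') (algebraMap K L B') (algebraMap K L C') (algebraMap K L D') α α' := by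
  have htr1 : Algebra.trace K L (1 : L) ≠ 0 := by
    have h1 := Algebra.trace_algebraMap (R := K) (S := L) (1 : K)
    rw [map_one] at h1
    rw [h1, nsmul_eq_mul, mul_one, Nat.cast_ne_zero]
    exact Module.finrank_pos.ne'
  have main : ∀ μ : L, Rel (algebraMap K L (Algebra.trace K L (μ * A)))
      (algebraMap K L (Algebra.trace K L (μ * B))) (algebraMap K L (Algebra.trace K L (μ * C)))
      (algebraMap K L (Algebra.trace K L (μ * D))) α α' := by
    intro μ j
    rw [trace_eq_sum_automorphisms, trace_eq_sum_automorphisms, trace_eq_sum_automorphisms,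
      trace_eq_sum_automorphisms, Finset.sum_mul, Finset.sum_mul, ← Finset.sum_add_distrib,
      ← Finset.sum_add_distrib, Finset.mul_sum]
    apply Finset.sum_congr rfl
    intro σ _
    obtain ⟨k, rfl⟩ := hs σ j
    rw [← hπ, ← hπ']
    have h := congrArg σ (hrel k)
    rw [map_mul, map_add, map_add, map_mul, map_mul] at h
    rw [map_mul, map_mul, map_mul, map_mul]
    linear_combination (σ μ) * h
  have hnz : ∀ y : L, y ≠ 0 → Algebra.trace K L (y⁻¹ * y) ≠ 0 := by
    intro y hy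
    rw [inv_mul_cancel₀ hy]; exact htr1
  by_cases hA : A = 0
  · by_cases hB : B = 0
    · by_cases hC : C = 0
      · have hD : D ≠ 0 := fun h => hne ⟨hA, hB, hC, h⟩
        exact ⟨_, _, _, _, fun h => hnz D hD h.2.2.2, main D⁻¹⟩
      · exact ⟨_, _, _, _, fun h => hnz C hC h.2.2.1, main C⁻¹⟩
    · exact ⟨_, _, _, _, fun h => hnz B hB h.2.1, main B⁻¹⟩
  · exact ⟨_, _, _, _, fun h => hnz A hA h.1, main A⁻¹⟩

end descent

section transform
variable {L : Type*} [Field L] {n : ℕ}

theorem rel_den (α α' : Fin n → L) (A B C D : L) (hdet : A * D - B * C ≠ 0)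
    (hrel : Rel A B C D α α') (j : Fin n) : C * α' j + D ≠ 0 := by
  intro h
  have h1 := hrel j
  rw [h] at h1
  rcases eq_or_ne C 0 with hC | hC
  · rw [hC] at h
    apply hdet
    rw [hC]
    linear_combination A * h
  · apply hdet
    have h2 : C * (A * D - B * C) = 0 := by
      linear_combination (A * C) * h + C ^ 2 * h1
    exact (mul_eq_zero.1 h2).resolve_left hC

theorem rel_diff (α α' : Fin n → L) (A B C D : L) (hrel : Rel A B C D α α') (i j : Fin n) :
    (α i - α j) * ((C * α' i + D) * (C * α' j + D)) = (A * D - B * C) * (α' i - α' j) := by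
  linear_combination (C * α' j + D) * hrel i - (C * α' i + D) * hrel j

/-- transformation of the split polynomials -/
theorem rel_eval (α α' : Fin n → L) (A B C D : L) (hrel : Rel A B C D α α') (x : L)
    (hx : C * x + D ≠ 0) :
    (∏ j, ((A * x + B) / (C * x + D) - α j)) * (C * x + D) ^ n * ∏ j, (C * α' j + D) =
      (A * D - B * C) ^ n * ∏ j, (x - α' j) := by
  have h1 : (C * x + D) ^ n = ∏ _j : Fin n, (C * x + D) := by simp
  have h2 : (A * D - B * C) ^ n = ∏ _j : Fin n, (A * D - B * C) := by simp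
  rw [h1, h2, ← Finset.prod_mul_distrib, ← Finset.prod_mul_distrib, ← Finset.prod_mul_distrib]
  apply Finset.prod_congr rfl
  intro j _
  rw [sub_mul, div_mul_cancel₀ _ hx]
  linear_combination (- (C * x + D)) * hrel j

/-- transformation of the quantity `dlt` -/
theorem rel_dlt (hn : 2 ≤ n) (i0 i1 i2 : Fin n) (h12 : i1 ≠ i2)
    (a : L) (α α' : Fin n → L) (hα' : Function.Injective α')
    (A B C D : L) (hdet : A * D - B * C ≠ 0) (hrel : Rel A B C D α α') :
    dlt i0 i1 i2 a α * ((C * α' i0 + D) ^ n * ∏ j, (C * α' j + D)) =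
      (A * D - B * C) ^ n * dlt i0 i1 i2 a α' := by
  classical
  have hden := rel_den α α' A B C D hdet hrel
  set Δ := A * D - B * C with hΔ
  set μ : Fin n → L := fun j => C * α' j + D with hμ
  have hμ0 : ∀ j, μ j ≠ 0 := hden
  have hd : ∀ i j, α i - α j = Δ * (α' i - α' j) / (μ i * μ j) := by
    intro i j
    rw [eq_div_iff (mul_ne_zero (hμ0 i) (hμ0 j))]
    exact rel_diff α α' A B C D hrel i j
  have d12 : α' i2 - α' i1 ≠ 0 := sub_ne_zero.2 fun h => h12 (hα' h).symm
  have hk : (α i2 - α i0) * (α i1 - α i0) / (α i2 - α i1) * μ i0 ^ 2 =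
      Δ * ((α' i2 - α' i0) * (α' i1 - α' i0) / (α' i2 - α' i1)) := by
    rw [hd i2 i0, hd i1 i0, hd i2 i1]
    have m0 := hμ0 i0
    have m1 := hμ0 i1
    have m2 := hμ0 i2
    have hΔ0 : Δ ≠ 0 := hdet
    field_simp
  have hp : (∏ j ∈ Finset.univ.erase i0, (α j - α i0)) * (μ i0 ^ (n - 2) * ∏ j, μ j) =
      Δ ^ (n - 1) * ∏ j ∈ Finset.univ.erase i0, (α' j - α' i0) := by
    have h1 : μ i0 ^ (n - 2) * ∏ j, μ j = ∏ j ∈ Finset.univ.erase i0, (μ j * μ i0) := by
      rw [Finset.prod_mul_distrib, Finset.prod_const, Finset.card_erase_of_mem (Finset.mem_univ _),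
        Finset.card_univ, Fintype.card_fin, ← Finset.mul_prod_erase Finset.univ μ (Finset.mem_univ i0),
        show n - 1 = (n - 2) + 1 by omega, pow_succ]
      ring
    have h2 : Δ ^ (n - 1) = ∏ j ∈ Finset.univ.erase i0, Δ := by
      rw [Finset.prod_const, Finset.card_erase_of_mem (Finset.mem_univ _),
        Finset.card_univ, Fintype.card_fin]
    rw [h1, h2, ← Finset.prod_mul_distrib, ← Finset.prod_mul_distrib]
    apply Finset.prod_congr rfl
    intro j _
    exact rel_diff α α' A B C D hrel j i0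
  have e1 : μ i0 ^ n = μ i0 ^ 2 * μ i0 ^ (n - 2) := by rw [← pow_add]; congr 1; omega
  have e2 : Δ ^ n = Δ * Δ ^ (n - 1) := by rw [← pow_succ']; congr 1; omega
  rw [dlt, dlt, show C * α' i0 + D = μ i0 from rfl, e1, e2]
  change a * ((α i2 - α i0) * (α i1 - α i0) / (α i2 - α i1)) *
    (∏ j ∈ Finset.univ.erase i0, (α j - α i0)) * (μ i0 ^ 2 * μ i0 ^ (n - 2) * ∏ j, μ j) = _
  linear_combination (a * (∏ j ∈ Finset.univ.erase i0, (α j - α i0)) * (μ i0 ^ (n - 2) * ∏ j, μ j)) * hk
    + (a * (Δ * ((α' i2 - α' i0) * (α' i1 - α' i0) / (α' i2 - α' i1)))) * hp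

end transform

end Pool.Agent.Lib.MP_ca2859_nt
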