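import Mathlib
import Pool.Agent.Lib.MP_ca2859_nt.MobD
import Pool.Agent.Lib.MP_ca2859_nt.GoodE

open Polynomial WithZero IsDedekindDomain NumberField

set_option linter.unusedSectionVars false

namespace Pool.Agent.Lib.MP_ca2859_nt

section
variable {K L : Type*} [Field K] [Infinite K] [Field L] [Algebra K L]

theorem dlt_smul {n : ℕ} (i0 i1 i2 : Fin n) (a a' : L) (ha : a ≠ 0) (α : Fin n → L) :
    dlt i0 i1 i2 a' α = a' / a * dlt i0 i1 i2 a α := by
  rw [dlt, dlt]
  field_simp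

theorem map_eval_split {n : ℕ} (f : K[X]) (a : L) (α : Fin n → L)
    (hfα : f.map (algebraMap K L) = C a * ∏ j, (X - C (α j))) (x : K) :
    algebraMap K L (f.eval x) = a * ∏ j, (algebraMap K L x - α j) := by
  rw [← eval₂_at_apply, ← eval_map, hfα]
  simp [eval_prod]

theorem twist_of_rel (g : ℕ) (f f' : K[X]) (a a' : L) (ha : a ≠ 0)
    (ha' : a' ≠ 0) (α α' : Fin (2 * g + 2) → L) (hα' : Function.Injective α')
    (hfα : f.map (algebraMap K L) = C a * ∏ j, (X - C (α j)))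
    (hfα' : f'.map (algebraMap K L) = C a' * ∏ j, (X - C (α' j)))
    (i0 i1 i2 : Fin (2 * g + 2)) (h12 : i1 ≠ i2)
    (A B Cc D : K) (hdet : A * D - B * Cc ≠ 0)
    (hrel : Rel (algebraMap K L A) (algebraMap K L B) (algebraMap K L Cc) (algebraMap K L D) α α') :
    ∃ u : K, u ≠ 0 ∧ SameCurve g (C u * f) f' ∧ ∃ m : L, m ≠ 0 ∧
      dlt i0 i1 i2 a' α' = algebraMap K L u * dlt i0 i1 i2 a α * m ^ (2 * g + 2) := by
  have hdetL : algebraMap K L A * algebraMap K L D - algebraMap K L B * algebraMap K L Cc ≠ 0 := by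
    rw [← map_mul, ← map_mul, ← map_sub, Ne, map_eq_zero]; exact hdet
  have hden := rel_den α α' _ _ _ _ hdetL hrel
  set Δ := algebraMap K L A * algebraMap K L D - algebraMap K L B * algebraMap K L Cc with hΔ
  set N := ∏ j, (algebraMap K L Cc * α' j + algebraMap K L D) with hN
  have hN0 : N ≠ 0 := Finset.prod_ne_zero_iff.2 fun j _ => hden j
  have hΔn : Δ ^ (2 * g + 2) ≠ 0 := pow_ne_zero _ hdetL
  -- the main identity
  have hmain : ∀ x : K, Cc * x + D ≠ 0 → algebraMap K L (f'.eval x) =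
      (a' * N / (a * Δ ^ (2 * g + 2))) * algebraMap K L ((Cc * x + D) ^ (2 * g + 2) *
        f.eval ((A * x + B) / (Cc * x + D))) := by
    intro x hx
    have hx' : algebraMap K L Cc * algebraMap K L x + algebraMap K L D ≠ 0 := by
      rw [← map_mul, ← map_add, Ne, map_eq_zero]; exact hx
    have h1 := rel_eval α α' _ _ _ _ hrel (algebraMap K L x) hx'
    rw [map_eval_split f' a' α' hfα', map_mul, map_eval_split f a α hfα, map_pow, map_div₀,
      map_add, map_add, map_mul, map_mul]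
    rw [← hΔ, ← hN] at h1
    rw [div_mul_eq_mul_div, eq_div_iff (mul_ne_zero ha hΔn)]
    linear_combination (-(a * a')) * h1
  obtain ⟨x, hx⟩ : ∃ x : K, (f' * (C Cc * X + C D)).eval x ≠ 0 := by
    by_contra hcon
    push Not at hcon
    have h0 : f' * (C Cc * X + C D) = 0 := Polynomial.funext fun x => by rw [hcon x, eval_zero]
    rcases mul_eq_zero.1 h0 with h1 | h1
    · have h2 : f'.map (algebraMap K L) = 0 := by rw [h1, Polynomial.map_zero]
      rw [hfα'] at h2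
      rcases mul_eq_zero.1 h2 with h3 | h3
      · exact ha' (C_eq_zero.1 h3)
      · rw [Finset.prod_eq_zero_iff] at h3
        obtain ⟨j, -, hj⟩ := h3
        exact X_sub_C_ne_zero _ hj
    · refine lin_ne_zero Cc D ?_ h1
      rintro ⟨rfl, rfl⟩
      simp at hdet
  rw [eval_mul] at hx
  simp only [eval_add, eval_mul, eval_C, eval_X] at hx
  have hx1 : f'.eval x ≠ 0 := left_ne_zero_of_mul hx
  have hx2 : Cc * x + D ≠ 0 := right_ne_zero_of_mul hx
  have hfx := hmain x hx2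
  set Fx := (Cc * x + D) ^ (2 * g + 2) * f.eval ((A * x + B) / (Cc * x + D)) with hFx
  have hFx0 : Fx ≠ 0 := by
    intro h0
    rw [h0, map_zero, mul_zero, map_eq_zero] at hfx
    exact hx1 hfx
  have hu : algebraMap K L (f'.eval x / Fx) = a' * N / (a * Δ ^ (2 * g + 2)) := by
    rw [map_div₀, div_eq_iff (by rwa [Ne, map_eq_zero]), hfx]
  refine ⟨f'.eval x / Fx, div_ne_zero hx1 hFx0, ?_, ?_⟩
  · refine ⟨A, B, Cc, D, 1, hdet, one_ne_zero, ?_⟩
    intro y hy
    have h1 := hmain y hy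
    rw [← hu, ← map_mul] at h1
    rw [(algebraMap K L).injective h1, eval_mul, eval_C]
    ring
  · refine ⟨algebraMap K L Cc * α' i0 + algebraMap K L D, hden i0, ?_⟩
    have h1 := rel_dlt (by omega : 2 ≤ 2 * g + 2) i0 i1 i2 h12 a α α' hα' _ _ _ _ hdetL hrel
    rw [← hΔ, ← hN] at h1
    rw [hu, dlt_smul i0 i1 i2 a a' ha α']
    field_simp
    linear_combination -h1

theorem same_of_square (g : ℕ) (f f' f'' : K[X]) (hf : f.natDegree ≤ 2 * g + 2)
    (hf' : f'.natDegree ≤ 2 * g + 2) (u' u'' y : K) (hy0 : y ≠ 0) (hy : u'' = u' * y ^ 2)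
    (h' : SameCurve g (C u' * f) f') (h'' : SameCurve g (C u'' * f) f'') : SameCurve g f' f'' := by
  have h1 : SameCurve g (C u' * f) (C u'' * f) := by
    refine ⟨1, 0, 0, 1, y, by simp, hy0, ?_⟩
    intro x _
    rw [eval_mul, eval_mul, eval_C, eval_C, hy]
    simp
    ring
  have hd : (C u' * f).natDegree ≤ 2 * g + 2 := (natDegree_C_mul_le _ _).trans hf
  exact h'.symm.trans hf' (h1.trans hd h'')

end

section nf
variable {K : Type} [Field K] [NumberField K] {L : Type} [Field L] [NumberField L] [Algebra K L]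

theorem twist_even (g : ℕ) (v : HeightOneSpectrum (𝓞 K)) (w : HeightOneSpectrum (𝓞 L))
    [w.asIdeal.LiesOver v.asIdeal] (he : Ideal.ramificationIdx' v.asIdeal w.asIdeal = 1)
    (i0 i1 i2 : Fin (2 * g + 2)) (h01 : i0 ≠ i1) (h02 : i0 ≠ i2) (h12 : i1 ≠ i2)
    (a a' : L) (α α' : Fin (2 * g + 2) → L) (c₁ α₀ ρ c₁' α₀' ρ' : L)
    (hfar : Far (w.valuation L) a α c₁ α₀ ρ) (hfar' : Far (w.valuation L) a' α' c₁' α₀' ρ')
    (hd0 : dlt i0 i1 i2 a α ≠ 0)
    (u : K) (m : L) (hm : m ≠ 0)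
    (hu : dlt i0 i1 i2 a' α' = algebraMap K L u * dlt i0 i1 i2 a α * m ^ (2 * g + 2)) :
    ∃ z : ℤᵐ⁰, v.valuation K u = z ^ 2 := by
  obtain ⟨z, hz⟩ := hfar.dlt_square g rfl i0 i1 i2 h01 h02 h12
  obtain ⟨z', hz'⟩ := hfar'.dlt_square g rfl i0 i1 i2 h01 h02 h12
  have h1 := HeightOneSpectrum.valuation_liesOver L v w u
  rw [he, pow_one] at h1
  have hz0 : z ≠ 0 := by
    intro h0
    rw [h0, zero_pow two_ne_zero] at hz
    exact hd0 ((map_eq_zero _).1 hz)
  have hm0 : w.valuation L m ≠ 0 := (Valuation.ne_zero_iff _).2 hm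
  have h2 := congrArg (w.valuation L) hu
  rw [map_mul, map_mul, map_pow, hz, hz', ← h1] at h2
  refine ⟨z' / (z * w.valuation L m ^ (g + 1)), ?_⟩
  rw [div_pow, eq_div_iff (pow_ne_zero _ (mul_ne_zero hz0 (pow_ne_zero _ hm0))), mul_pow, ← pow_mul,
    show (g + 1) * 2 = 2 * g + 2 by ring, h2]
  ac_rfl

end nf

end Pool.Agent.Lib.MP_ca2859_nt
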