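import Mathlib
import Pool.Agent.Lib.MP_ca2859_nt.SUnitC
import Pool.Agent.Lib.MP_ca2859_nt.TwistD
import Pool.Agent.Lib.MP_ca2859_nt.SelmerD
import Pool.Agent.Lib.MP_ca2859_nt.CRGood3

open Polynomial WithZero IsDedekindDomain NumberField

set_option linter.unusedSectionVars false
set_option linter.deprecated false

namespace Pool.Agent.Lib.MP_ca2859_nt

section nf
variable {K : Type} [Field K] [NumberField K] {L : Type} [Field L] [NumberField L] [Algebra K L]

theorem exists_place_below (w : HeightOneSpectrum (𝓞 L)) :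
    ∃ v : HeightOneSpectrum (𝓞 K), w.asIdeal.LiesOver v.asIdeal := by
  refine ⟨w.under (𝓞 K), ⟨rfl⟩⟩

theorem exists_above (S : Finset (HeightOneSpectrum (𝓞 K))) :
    ∃ S' : Finset (HeightOneSpectrum (𝓞 L)), (∀ w : HeightOneSpectrum (𝓞 L),
      (∃ v ∈ S, w.asIdeal.LiesOver v.asIdeal) → w ∈ S') ∧
      S'.card ≤ Module.finrank K L * S.card := by
  classical
  set B : Finset (Ideal (𝓞 L)) := S.biUnion fun v =>
    IsDedekindDomain.primesOverFinset v.asIdeal (𝓞 L) with hB
  have hinj : Function.Injective (fun w : HeightOneSpectrum (𝓞 L) => w.asIdeal) :=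
    fun w w' h => HeightOneSpectrum.ext h
  refine ⟨B.preimage (fun w : HeightOneSpectrum (𝓞 L) => w.asIdeal) hinj.injOn, ?_, ?_⟩
  · rintro w ⟨v, hv, hw⟩
    rw [Finset.mem_preimage, hB, Finset.mem_biUnion]
    refine ⟨v, hv, (IsDedekindDomain.mem_primesOverFinset_iff v.ne_bot _).2 ⟨w.isPrime, hw⟩⟩
  · calc (B.preimage (fun w : HeightOneSpectrum (𝓞 L) => w.asIdeal) hinj.injOn).card
        ≤ B.card := by
          apply Finset.card_le_card_of_injOn (fun w => w.asIdeal)
          · intro w hw
            exact Finset.mem_preimage.1 hw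
          · exact hinj.injOn
      _ ≤ ∑ v ∈ S, (IsDedekindDomain.primesOverFinset v.asIdeal (𝓞 L)).card := Finset.card_biUnion_le
      _ ≤ ∑ _v ∈ S, Module.finrank K L := by
          apply Finset.sum_le_sum
          intro v _
          have := v.isMaximal
          have : NoZeroSMulDivisors (𝓞 K) (𝓞 L) := ⟨fun {c x} h => by
            rw [Algebra.smul_def, mul_eq_zero, FaithfulSMul.algebraMap_eq_zero_iff] at h
            exact h⟩
          exact Ideal.card_primesOverFinset_le_finrank (𝓞 L) K L v.ne_bot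
      _ = Module.finrank K L * S.card := by
          rw [Finset.sum_const, smul_eq_mul, mul_comm]

end nf

/-- the roots of a polynomial and the Galois action on them -/
structure RootData {K L : Type} [Field K] [Field L] [Algebra K L] (n : ℕ) (f : K[X]) (a : L)
    (α : Fin n → L) (π : (L ≃ₐ[K] L) → Fin n → Fin n) : Prop where
  a0 : a ≠ 0
  inj : Function.Injective α
  split : f.map (algebraMap K L) = C a * ∏ j, (X - C (α j))
  surj : ∀ σ, Function.Surjective (π σ)
  act : ∀ σ j, σ (α j) = α (π σ j)

theorem exists_rootData {K L : Type} [Field K] [Field L] [Algebra K L] (n : ℕ) (f : K[X])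
    (hn : f.natDegree = n) (hn0 : n ≠ 0) (hs : f.Separable) (hsp : (f.map (algebraMap K L)).Splits) :
    ∃ a α π, RootData (L := L) n f a α π := by
  obtain ⟨α, hα⟩ := split_enum (f.map (algebraMap K L)) hsp n (by rw [natDegree_map]; exact hn)
  set a := (f.map (algebraMap K L)).leadingCoeff with ha
  have hf0 : f ≠ 0 := by
    rintro rfl
    rw [natDegree_zero] at hn; exact hn0 hn.symm
  have hF0 : f.map (algebraMap K L) ≠ 0 := by
    rw [Ne, Polynomial.map_eq_zero]; exact hf0
  have ha0 : a ≠ 0 := leadingCoeff_ne_zero.2 hF0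
  have hroots : (f.map (algebraMap K L)).roots = Finset.univ.val.map α := by
    conv_lhs => rw [hα]
    rw [roots_C_mul _ ha0]
    have : (∏ j, (X - C (α j)) : L[X]) =
        (Multiset.map (fun t => X - C t) (Finset.univ.val.map α)).prod := by
      rw [Multiset.map_map]; rfl
    rw [this, roots_multiset_prod_X_sub_C]
  have hinj : Function.Injective α := by
    have h1 : (f.map (algebraMap K L)).roots.Nodup := nodup_roots hs.map
    rw [hroots] at h1
    intro i j hij
    exact Multiset.inj_on_of_nodup_map h1 i (Finset.mem_univ i) j (Finset.mem_univ j) hij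
  have hact : ∀ (σ : L ≃ₐ[K] L) (j : Fin n), ∃ k, σ (α j) = α k := by
    intro σ j
    have h1 : (f.map (algebraMap K L)).eval (α j) = 0 := by
      rw [hα, eval_mul, eval_prod]
      have : ∏ k, eval (α j) (X - C (α k)) = 0 :=
        Finset.prod_eq_zero (Finset.mem_univ j) (by simp)
      rw [this, mul_zero]
    have h2 : (f.map (algebraMap K L)).eval (σ (α j)) = 0 := by
      rw [eval_map_algebraMap] at h1 ⊢
      rw [aeval_algEquiv, AlgHom.comp_apply, h1, map_zero]
    have h3 : σ (α j) ∈ (f.map (algebraMap K L)).roots := (mem_roots hF0).2 h2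
    rw [hroots, Multiset.mem_map] at h3
    obtain ⟨k, -, hk⟩ := h3
    exact ⟨k, hk.symm⟩
  choose π hπ using hact
  refine ⟨a, α, π, ha0, hinj, hα, ?_, hπ⟩
  intro σ
  apply Finite.surjective_of_injective
  intro i j hij
  apply hinj
  apply σ.injective
  rw [hπ, hπ, hij]

end Pool.Agent.Lib.MP_ca2859_nt
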