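import Mathlib

open NumberField NumberField.Units NumberField.Units.dirichletUnitTheorem Module

namespace Pool.Agent.Lib.MP_ca2859_nt

section
variable (K : Type) [Field K] [NumberField K]

theorem log_le_rpow' (x ε : ℝ) (hx : 0 ≤ x) (hε : 0 < ε) : Real.log x ≤ x ^ ε / ε :=
  Real.log_le_rpow_div hx hε

/-- polylogarithmic functions are dominated by small powers -/
theorem polylog_le (C : ℝ) (hC : 0 ≤ C) (r : ℕ) (ε : ℝ) (hε : 0 < ε) :
    ∃ D : ℝ, 0 < D ∧ ∀ B : ℝ, 1 ≤ B → (2 * (C * Real.log B) + 1) ^ r ≤ D * B ^ ε := by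
  set δ := ε / (r + 1) with hδ
  have hδ0 : 0 < δ := by positivity
  refine ⟨(2 * (C / δ) + 1) ^ r, by positivity, ?_⟩
  intro B hB
  have hB0 : 0 ≤ B := by linarith
  have h1 : Real.log B ≤ B ^ δ / δ := log_le_rpow' B δ hB0 hδ0
  have h2 : (1:ℝ) ≤ B ^ δ := Real.one_le_rpow hB hδ0.le
  have hlog : 0 ≤ Real.log B := Real.log_nonneg hB
  have h3 : 2 * (C * Real.log B) + 1 ≤ (2 * (C / δ) + 1) * B ^ δ := by
    have h4 : C * Real.log B ≤ C / δ * B ^ δ := by
      calc C * Real.log B ≤ C * (B ^ δ / δ) := by gcongr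
        _ = C / δ * B ^ δ := by ring
    nlinarith
  calc (2 * (C * Real.log B) + 1) ^ r ≤ ((2 * (C / δ) + 1) * B ^ δ) ^ r := by
        gcongr
    _ = (2 * (C / δ) + 1) ^ r * B ^ (δ * r) := by
        rw [mul_pow, ← Real.rpow_natCast (B ^ δ) r, ← Real.rpow_mul hB0]
    _ ≤ (2 * (C / δ) + 1) ^ r * B ^ ε := by
        gcongr
        rw [hδ, div_mul_eq_mul_div, div_le_iff₀ (by positivity)]
        have : (0:ℝ) ≤ r := Nat.cast_nonneg r
        nlinarith

open scoped Classical in
/-- bound for the logarithmic embedding -/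
theorem norm_logEmbedding_le (B : ℝ) (hB : 1 ≤ B) (u : (𝓞 K)ˣ)
    (hu : ∀ w : InfinitePlace K, w (u : K) ≤ B) :
    ‖logEmbedding K (Additive.ofMul u)‖ ≤ (∑ w : InfinitePlace K, (w.mult : ℝ)) * Real.log B := by
  have hlogB : 0 ≤ Real.log B := Real.log_nonneg hB
  have hup : ∀ w : InfinitePlace K, Real.log (w (u : K)) ≤ Real.log B := fun w =>
    Real.log_le_log (Units.pos_at_place _ _) (hu w)
  have hsum := sum_mult_mul_log u
  rw [pi_norm_le_iff_of_nonneg (by positivity)]
  intro w
  rw [logEmbedding_component, Real.norm_eq_abs, abs_le]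
  have hsplit := Finset.add_sum_erase Finset.univ
    (fun w : InfinitePlace K => (w.mult : ℝ) * Real.log (w (u : K))) (Finset.mem_univ w.1)
  rw [hsum] at hsplit
  have hothers : ∑ w' ∈ Finset.univ.erase w.1, (w'.mult : ℝ) * Real.log (w' (u : K)) ≤
      ∑ w' ∈ Finset.univ.erase w.1, (w'.mult : ℝ) * Real.log B := by
    apply Finset.sum_le_sum
    intro w' _
    have := hup w'
    gcongr
  have hothers2 : ∑ w' ∈ Finset.univ.erase w.1, (w'.mult : ℝ) * Real.log B ≤
      ∑ w' : InfinitePlace K, (w'.mult : ℝ) * Real.log B := by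
    apply Finset.sum_le_sum_of_subset_of_nonneg (Finset.erase_subset _ _)
    intro w' _ _
    positivity
  have htot : ∑ w' : InfinitePlace K, (w'.mult : ℝ) * Real.log B =
      (∑ w : InfinitePlace K, (w.mult : ℝ)) * Real.log B := by
    rw [Finset.sum_mul]
  have hself : (w.1.mult : ℝ) * Real.log (w.1 (u : K)) ≤
      ∑ w' : InfinitePlace K, (w'.mult : ℝ) * Real.log B := by
    have h1 : (w.1.mult : ℝ) * Real.log (w.1 (u : K)) ≤ (w.1.mult : ℝ) * Real.log B := by
      have := hup w.1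
      gcongr
    refine h1.trans ?_
    exact Finset.single_le_sum (f := fun w' : InfinitePlace K => (w'.mult : ℝ) * Real.log B)
      (fun w' _ => by positivity) (Finset.mem_univ w.1)
  constructor
  · linarith
  · linarith

/-- The number of units in a box is sub-polynomial. -/
theorem units_card (ε : ℝ) (hε : 0 < ε) : ∃ C : ℝ, 0 < C ∧ ∀ B : ℝ, 1 ≤ B →
    ∀ U : Finset (𝓞 K)ˣ, (∀ u ∈ U, ∀ w : InfinitePlace K, w (u : K) ≤ B) →
    (U.card : ℝ) ≤ C * B ^ ε := by
  classical
  set bR := (basisUnitLattice K).ofZLatticeBasis ℝ (unitLattice K) with hbR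
  set Φ := bR.equivFunL with hΦ
  set c := ‖(Φ : logSpace K →L[ℝ] (Fin (rank K) → ℝ))‖ * (∑ w : InfinitePlace K, (w.mult : ℝ)) with hc
  have hc0 : 0 ≤ c := by positivity
  obtain ⟨D, hD, hDB⟩ := polylog_le c hc0 (rank K) ε hε
  refine ⟨Nat.card (torsion K) * D, by
    have : 0 < Nat.card (torsion K) := Nat.card_pos
    positivity, ?_⟩
  intro B hB U hU
  have hlogB : 0 ≤ Real.log B := Real.log_nonneg hB
  -- coordinates
  set co : (𝓞 K)ˣ → (Fin (rank K) → ℤ) := fun u i =>
    (basisUnitLattice K).repr ⟨logEmbedding K (Additive.ofMul u), Submodule.mem_map_of_mem trivial⟩ i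
    with hco
  have hcoR : ∀ u i, ((co u i : ℤ) : ℝ) = Φ (logEmbedding K (Additive.ofMul u)) i := by
    intro u i
    have h1 := (basisUnitLattice K).ofZLatticeBasis_repr_apply ℝ (unitLattice K)
      ⟨logEmbedding K (Additive.ofMul u), Submodule.mem_map_of_mem trivial⟩ i
    rw [hco]
    simp only
    rw [hΦ, hbR]
    exact h1.symm
  have hbound : ∀ u ∈ U, ∀ i, |co u i| ≤ ⌊c * Real.log B⌋ := by
    intro u hu i
    rw [Int.le_floor, Int.cast_abs, hcoR]
    have h1 : ‖Φ (logEmbedding K (Additive.ofMul u))‖ ≤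
        ‖(Φ : logSpace K →L[ℝ] (Fin (rank K) → ℝ))‖ * ‖logEmbedding K (Additive.ofMul u)‖ :=
      (Φ : logSpace K →L[ℝ] (Fin (rank K) → ℝ)).le_opNorm _
    have h2 := norm_logEmbedding_le K B hB u (hU u hu)
    have h3 : |Φ (logEmbedding K (Additive.ofMul u)) i| ≤ ‖Φ (logEmbedding K (Additive.ofMul u))‖ := by
      rw [← Real.norm_eq_abs]
      exact norm_le_pi_norm _ i
    refine h3.trans (h1.trans ?_)
    rw [hc, mul_assoc]
    gcongr
  -- fibres
  have : Fintype (torsion K) := Fintype.ofFinite _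
  have hfib : ∀ b ∈ U.image co, (U.filter (fun u => co u = b)).card ≤ Nat.card (torsion K) := by
    intro b hb
    obtain ⟨u₀, hu₀, rfl⟩ := Finset.mem_image.1 hb
    have hinj : (U.filter (fun u => co u = co u₀)).card ≤
        (Finset.univ.image (fun ζ : torsion K => (ζ : (𝓞 K)ˣ) * u₀)).card := by
      apply Finset.card_le_card
      intro u hu
      obtain ⟨-, hu2⟩ := Finset.mem_filter.1 hu
      have h1 : logEmbedding K (Additive.ofMul u) = logEmbedding K (Additive.ofMul u₀) := by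
        have h2 : (⟨logEmbedding K (Additive.ofMul u), Submodule.mem_map_of_mem trivial⟩ :
            unitLattice K) = ⟨logEmbedding K (Additive.ofMul u₀), Submodule.mem_map_of_mem trivial⟩ := by
          apply (basisUnitLattice K).repr.injective
          ext i
          exact congrFun hu2 i
        exact congrArg Subtype.val h2
      have h3 : u * u₀⁻¹ ∈ torsion K := by
        rw [← logEmbedding_eq_zero_iff, ofMul_mul, ofMul_inv, map_add, map_neg, h1, add_neg_cancel]
      rw [Finset.mem_image]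
      exact ⟨⟨u * u₀⁻¹, h3⟩, Finset.mem_univ _, by simp⟩
    refine hinj.trans (Finset.card_image_le.trans ?_)
    rw [Finset.card_univ, Nat.card_eq_fintype_card]
  have h1 := Finset.card_le_mul_card_image U _ hfib
  have h2 : (U.image co).card ≤ (Fintype.piFinset (fun _ : Fin (rank K) =>
      Finset.Icc (-⌊c * Real.log B⌋) ⌊c * Real.log B⌋)).card := by
    apply Finset.card_le_card
    intro b hb
    obtain ⟨u, hu, rfl⟩ := Finset.mem_image.1 hb
    rw [Fintype.mem_piFinset]
    intro i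
    rw [Finset.mem_Icc, ← abs_le]
    exact hbound u hu i
  have h3 : ((Fintype.piFinset (fun _ : Fin (rank K) =>
      Finset.Icc (-⌊c * Real.log B⌋) ⌊c * Real.log B⌋)).card : ℝ) ≤
      (2 * (c * Real.log B) + 1) ^ (rank K) := by
    rw [Fintype.card_piFinset]
    simp only [Finset.prod_const, Finset.card_univ, Fintype.card_fin, Int.card_Icc]
    rw [Nat.cast_pow]
    apply pow_le_pow_left₀ (by positivity)
    have h0 : 0 ≤ ⌊c * Real.log B⌋ := Int.floor_nonneg.2 (by positivity)
    have h4 : (((⌊c * Real.log B⌋ + 1 - -⌊c * Real.log B⌋).toNat : ℕ) : ℝ) =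
        ((⌊c * Real.log B⌋ + 1 - -⌊c * Real.log B⌋ : ℤ) : ℝ) := by
      have h5 : (((⌊c * Real.log B⌋ + 1 - -⌊c * Real.log B⌋).toNat : ℕ) : ℤ) =
        (⌊c * Real.log B⌋ + 1 - -⌊c * Real.log B⌋ : ℤ) := Int.toNat_of_nonneg (by linarith)
      exact_mod_cast h5
    rw [h4]
    push_cast
    have := Int.floor_le (c * Real.log B)
    linarith
  calc (U.card : ℝ) ≤ ((Nat.card (torsion K) * (U.image co).card : ℕ) : ℝ) := by
        exact_mod_cast h1
    _ = Nat.card (torsion K) * ((U.image co).card : ℝ) := by push_cast; ring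
    _ ≤ Nat.card (torsion K) * (D * B ^ ε) := by
        have h5 : ((U.image co).card : ℝ) ≤ D * B ^ ε := by
          refine le_trans ?_ ((h3).trans (hDB B hB))
          exact_mod_cast h2
        gcongr
    _ = _ := by ring

end

end Pool.Agent.Lib.MP_ca2859_nt
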