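import Mathlib
import Pool.Agent.Lib.MP_ca2859_nt.Global2
import Pool.Agent.Lib.MP_ca2859_nt.UnitsCount

open Polynomial WithZero IsDedekindDomain NumberField

namespace Pool.Agent.Lib.MP_ca2859_nt

section
variable {K : Type} [Field K] [NumberField K]

theorem place_natCast_le (w : InfinitePlace K) (k : ℕ) : w (k : K) ≤ k := by
  induction k with
  | zero => simp
  | succ k ih =>
    push_cast
    calc w ((k : K) + 1) ≤ w (k : K) + w 1 := w.1.add_le _ _
      _ ≤ k + 1 := by
        have h1 : w (1 : K) = 1 := map_one w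
        rw [h1]
        linarith

theorem place_intCast_le (w : InfinitePlace K) (k : ℤ) : w (k : K) ≤ |(k : ℝ)| := by
  obtain ⟨m, rfl | rfl⟩ := Int.eq_nat_or_neg k
  · simp
  · have h1 : w ((-(m : ℤ) : ℤ) : K) = w (m : K) := by
      push_cast
      exact w.1.map_neg _
    rw [h1]
    simp

theorem RR_arch (w : InfinitePlace K) (n : ℕ) (F : K[X]) (hFd : F.natDegree ≤ n) (A : ℝ)
    (hA : 0 ≤ A) (hF : ∀ i, w (F.coeff i) ≤ A) :
    w (RR n F) ≤ (Nat.factorial (2 * (n - 1)) : ℝ) * (2 * n * A) ^ (2 * (n - 1)) := by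
  have hn0 : (0:ℝ) ≤ n := Nat.cast_nonneg n
  have h1 : ∀ i, w ((derivative F).coeff i) ≤ 2 * n * A := by
    intro i
    rw [coeff_derivative]
    by_cases hi : i + 1 ≤ n
    · have h2 : w ((i : K) + 1) ≤ n := by
        have := place_natCast_le w (i + 1)
        push_cast at this
        refine this.trans ?_
        exact_mod_cast hi
      calc w (F.coeff (i + 1) * ((i : K) + 1)) = w (F.coeff (i + 1)) * w ((i : K) + 1) := map_mul w _ _
        _ ≤ A * n := by
            have := hF (i + 1)
            gcongr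
        _ ≤ 2 * n * A := by nlinarith [mul_nonneg hn0 hA]
    · rw [coeff_eq_zero_of_natDegree_lt (by omega), zero_mul]
      have h0 : w (0 : K) = 0 := map_zero w
      rw [h0]
      positivity
  have h2 : ∀ i, w ((C (n : K) * F - X * derivative F).coeff i) ≤ 2 * n * A := by
    intro i
    have h3 : (C (n : K) * F - X * derivative F).coeff i = (n : K) * F.coeff i - (i : K) * F.coeff i := by
      rw [coeff_sub, coeff_C_mul]
      congr 1
      rcases i with _ | i
      · simp
      · rw [coeff_X_mul, coeff_derivative]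
        push_cast
        ring
    rw [h3]
    by_cases hi : i ≤ n
    · have hi' : (i : ℝ) ≤ n := by exact_mod_cast hi
      calc w ((n : K) * F.coeff i - (i : K) * F.coeff i)
          = w ((n : K) * F.coeff i + -((i : K) * F.coeff i)) := by rw [sub_eq_add_neg]
        _ ≤ w ((n : K) * F.coeff i) + w (-((i : K) * F.coeff i)) := w.1.add_le _ _
        _ = w (n : K) * w (F.coeff i) + w (i : K) * w (F.coeff i) := by
            have h4 : w (-((i : K) * F.coeff i)) = w ((i : K) * F.coeff i) := w.1.map_neg _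
            rw [h4]
            have h5 : w ((n : K) * F.coeff i) = w (n : K) * w (F.coeff i) := map_mul w _ _
            have h6 : w ((i : K) * F.coeff i) = w (i : K) * w (F.coeff i) := map_mul w _ _
            rw [h5, h6]
        _ ≤ n * A + n * A := by
            have h7 := hF i
            have h8 := place_natCast_le w n
            have h9 := (place_natCast_le w i).trans hi'
            gcongr
        _ = 2 * n * A := by ring
    · rw [coeff_eq_zero_of_natDegree_lt (by omega), mul_zero, mul_zero, sub_zero]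
      have h0 : w (0 : K) = 0 := map_zero w
      rw [h0]
      positivity
  have h3 := Matrix.det_le (A := sylvester (derivative F) (C (n : K) * F - X * derivative F) (n - 1) (n - 1))
    (abv := w.1) (x := 2 * n * A) (by
      intro i j
      rw [sylvester, Matrix.of_apply]
      induction j using Fin.addCases with
      | left j =>
        rw [Fin.addCases_left]
        split_ifs
        · exact h2 _
        · rw [map_zero]; positivity
      | right j =>
        rw [Fin.addCases_right]
        split_ifs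
        · exact h1 _
        · rw [map_zero]; positivity)
  rw [Fintype.card_fin, nsmul_eq_mul] at h3
  have h4 : 2 * (n - 1) = n - 1 + (n - 1) := by ring
  rw [h4]
  exact h3

/-- norm bound -/
theorem norm_le_of_places (x : 𝓞 K) (Q : ℝ) (hx : ∀ w : InfinitePlace K, w (x : K) ≤ Q) :
    (((Algebra.norm ℤ x).natAbs : ℕ) : ℝ) ≤ Q ^ Module.finrank ℚ K := by
  have h1 := InfinitePlace.prod_eq_abs_norm (K := K) (x : K)
  have h2 : ((((Algebra.norm ℤ x).natAbs : ℕ) : ℚ) : ℝ) = ((|Algebra.norm ℚ (x : K)| : ℚ) : ℝ) := by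
    rw [← Algebra.coe_norm_int x]
    congr 1
    rw [Nat.cast_natAbs, Int.cast_abs]
  have h3 : (((Algebra.norm ℤ x).natAbs : ℕ) : ℝ) = ∏ w : InfinitePlace K, w (x : K) ^ w.mult := by
    rw [h1, ← h2]
    norm_cast
  rw [h3]
  calc ∏ w : InfinitePlace K, w (x : K) ^ w.mult ≤ ∏ w : InfinitePlace K, Q ^ w.mult := by
        apply Finset.prod_le_prod
        · intro w _
          have : 0 ≤ w (x : K) := apply_nonneg w _
          positivity
        · intro w _
          exact pow_le_pow_left₀ (apply_nonneg w _) (hx w) _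
    _ = Q ^ Module.finrank ℚ K := by
        rw [Finset.prod_pow_eq_pow_sum, InfinitePlace.sum_mult_eq]

/-- lower bound for the conjugates of a nonzero integer -/
theorem place_lower (x : 𝓞 K) (hx0 : x ≠ 0) (Q : ℝ) (hQ : 1 ≤ Q)
    (hx : ∀ w : InfinitePlace K, w (x : K) ≤ Q) (w : InfinitePlace K) :
    1 ≤ w (x : K) * Q ^ Module.finrank ℚ K := by
  classical
  have hQ0 : 0 < Q := by linarith
  have h1 := InfinitePlace.prod_eq_abs_norm (K := K) (x : K)
  have hxK : (x : K) ≠ 0 := by
    rw [Ne, FaithfulSMul.algebraMap_eq_zero_iff]; exact hx0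
  have h2 : (1:ℝ) ≤ ∏ w : InfinitePlace K, w (x : K) ^ w.mult := by
    rw [h1, ← Algebra.coe_norm_int x]
    have h3 : Algebra.norm ℤ x ≠ 0 := Algebra.norm_ne_zero_iff.2 hx0
    have h4 : 1 ≤ |Algebra.norm ℤ x| := Int.one_le_abs h3
    have h5 : (1:ℝ) ≤ ((|Algebra.norm ℤ x| : ℤ) : ℝ) := by exact_mod_cast h4
    refine h5.trans (le_of_eq ?_)
    push_cast
    norm_cast
  have hpos : 0 < w (x : K) := InfinitePlace.pos_iff.2 hxK
  have hm1 : 1 ≤ w.mult := InfinitePlace.mult_pos
  rw [← Finset.mul_prod_erase Finset.univ _ (Finset.mem_univ w)] at h2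
  have h6 : ∏ w' ∈ Finset.univ.erase w, w' (x : K) ^ w'.mult ≤ Q ^ (∑ w' ∈ Finset.univ.erase w, w'.mult) := by
    rw [← Finset.prod_pow_eq_pow_sum]
    apply Finset.prod_le_prod
    · intro w' _
      have : 0 ≤ w' (x : K) := apply_nonneg w' _
      positivity
    · intro w' _
      exact pow_le_pow_left₀ (apply_nonneg w' _) (hx w') _
  have hsum : w.mult + ∑ w' ∈ Finset.univ.erase w, w'.mult = Module.finrank ℚ K := by
    rw [← InfinitePlace.sum_mult_eq (K := K)]
    exact Finset.add_sum_erase Finset.univ (fun w : InfinitePlace K => w.mult) (Finset.mem_univ w)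
  obtain ⟨k, hk⟩ : ∃ k, w.mult = k + 1 := ⟨w.mult - 1, by omega⟩
  calc (1:ℝ) ≤ w (x : K) ^ w.mult * ∏ w' ∈ Finset.univ.erase w, w' (x : K) ^ w'.mult := h2
    _ ≤ w (x : K) ^ w.mult * Q ^ (∑ w' ∈ Finset.univ.erase w, w'.mult) := by gcongr
    _ = w (x : K) * (w (x : K) ^ k * Q ^ (∑ w' ∈ Finset.univ.erase w, w'.mult)) := by
        rw [hk]; ring
    _ ≤ w (x : K) * (Q ^ k * Q ^ (∑ w' ∈ Finset.univ.erase w, w'.mult)) := by
        have := hx w
        gcongr
    _ = w (x : K) * Q ^ (k + ∑ w' ∈ Finset.univ.erase w, w'.mult) := by rw [pow_add]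
    _ ≤ w (x : K) * Q ^ Module.finrank ℚ K := by
        gcongr
        omega

end

end Pool.Agent.Lib.MP_ca2859_nt
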