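import Mathlib
import Pool.Agent.Lib.MP_ca2859_nt.PolyCount

/-!
# Polynomial bound for the number of number fields of bounded degree and discriminant
-/

open Polynomial NumberField NumberField.InfinitePlace Module
open MeasureTheory MeasureTheory.Measure ZSpan NumberField.mixedEmbedding ENNReal NNReal
open scoped Real nonZeroDivisors IntermediateField

namespace Pool.Agent.Lib.MP_ca2859_nt

theorem mink_lt (K : Type*) [Field K] [NumberField K] (D N : ℕ) (hD : finrank ℚ K ≤ D)
    (hK : |discr K| ≤ N) : minkowskiBound K ↑1 < ((sqrt N * 2 ^ D + 1 : ℝ≥0) : ℝ≥0∞) := by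
  have h0 : (sqrt N * 2 ^ D : ℝ≥0) < sqrt N * 2 ^ D + 1 := by simp
  refine lt_of_le_of_lt ?_ (ENNReal.coe_lt_coe.mpr h0)
  rw [minkowskiBound, volume_fundamentalDomain_fractionalIdealLatticeBasis,
    Units.val_one, FractionalIdeal.absNorm_one, Rat.cast_one,
    ENNReal.ofReal_one, one_mul, mixedEmbedding.finrank, volume_fundamentalDomain_latticeBasis,
    ENNReal.coe_mul, ENNReal.coe_pow, ENNReal.coe_ofNat,
    show (sqrt N : ℝ≥0∞) = (1 : ℝ≥0∞) * sqrt N by rw [one_mul]]
  gcongr
  · exact pow_le_one₀ (by positivity) (by simp)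
  · rwa [← NNReal.coe_le_coe, coe_nnnorm, Int.norm_eq_abs, ← Int.cast_abs,
      NNReal.coe_natCast, ← Int.cast_natCast, Int.cast_le]
  · exact one_le_two

/-- every number field has a small generator -/
theorem small_generator (K : Type*) [Field K] [NumberField K] (D N : ℕ) (hD : finrank ℚ K ≤ D)
    (hK : |discr K| ≤ N) : ∃ a : 𝓞 K, ℚ⟮(a : K)⟯ = ⊤ ∧
      ∀ w : InfinitePlace K, w a ≤ (Real.sqrt N * 2 ^ D + 2 : ℝ) := by
  have hm := mink_lt K D N hD hK
  set B : ℝ≥0 := sqrt N * 2 ^ D + 1 with hB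
  have hBr : (B : ℝ) = Real.sqrt N * 2 ^ D + 1 := by
    rw [hB]; push_cast; simp
  have hB0 : (0 : ℝ) ≤ B := B.2
  have hB1 : (1 : ℝ) ≤ B := by
    rw [hBr]
    have : 0 ≤ Real.sqrt N * 2 ^ D := by positivity
    linarith
  obtain ⟨w₀⟩ := (inferInstance : Nonempty (InfinitePlace K))
  by_cases hw₀ : IsReal w₀
  · have hlt : minkowskiBound K ↑1 < (convexBodyLTFactor K) * B := by
      calc minkowskiBound K 1 < B := hm
        _ = 1 * B := by rw [one_mul]
        _ ≤ convexBodyLTFactor K * B := by gcongr; exact mod_cast one_le_convexBodyLTFactor K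
    obtain ⟨a, h1, h2⟩ := exists_primitive_element_lt_of_isReal K hw₀ hlt
    refine ⟨a, h1, fun w => (h2 w).le.trans ?_⟩
    push_cast
    rw [max_eq_left hB1]
    rw [hBr]; linarith
  · have hlt : minkowskiBound K ↑1 < (convexBodyLT'Factor K) * B := by
      calc minkowskiBound K 1 < B := hm
        _ = 1 * B := by rw [one_mul]
        _ ≤ convexBodyLT'Factor K * B := by gcongr; exact mod_cast one_le_convexBodyLT'Factor K
    obtain ⟨a, h1, h2⟩ := exists_primitive_element_lt_of_isComplex K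
      (not_isReal_iff_isComplex.mp hw₀) hlt
    refine ⟨a, h1, fun w => (h2 w).le.trans ?_⟩
    have h3 : Real.sqrt (1 + (B : ℝ) ^ 2) ≤ 1 + B := by
      apply Real.sqrt_le_iff.2
      constructor
      · positivity
      · nlinarith
    rw [hBr] at h3 ⊢
    linarith

set_option backward.isDefEq.respectTransparency false in
/-- polynomial bound for the number of subfields of bounded degree and discriminant -/
theorem field_count (A : Type*) [Field A] [CharZero A] (D N : ℕ)
    (T : Finset (IntermediateField ℚ A))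
    (hT : ∀ F ∈ T, ∃ h : FiniteDimensional ℚ F, finrank ℚ F ≤ D ∧
      haveI : NumberField F := @NumberField.mk _ _ inferInstance h
      |discr F| ≤ N) :
    T.card ≤ D * (2 * ⌈(Real.sqrt N * 2 ^ D + 2 : ℝ) ^ D * (2 : ℝ) ^ D⌉₊ + 1) ^ (D + 1) := by
  classical
  set B : ℝ := Real.sqrt N * 2 ^ D + 2 with hB
  have hB1 : 1 ≤ B := by
    have : 0 ≤ Real.sqrt N * 2 ^ D := by positivity
    linarith
  obtain ⟨P, hPc, hP⟩ := poly_set D ⌈B ^ D * (2 : ℝ) ^ D⌉₊
  have hgen : ∀ F ∈ T, ∃ a : A, F = ℚ⟮a⟯ ∧ ∃ p ∈ P, p ≠ 0 ∧ p.natDegree ≤ D ∧ aeval a p = 0 := by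
    intro F hF
    obtain ⟨hfd, hdeg, hdisc⟩ := hT F hF
    have : NumberField F := @NumberField.mk _ _ inferInstance hfd
    obtain ⟨x, hx1, hx2⟩ := small_generator F D N hdeg hdisc
    have hint : IsIntegral ℤ (x : F) := x.isIntegral_coe
    obtain ⟨m1, m2⟩ := minpoly_bound D B hB1 F hdeg (x : F) hint hx2
    refine ⟨((x : F) : A), ?_, minpoly ℤ (x : F), hP _ m1 m2, minpoly.ne_zero hint, m1, ?_⟩
    · rw [← (IntermediateField.lift_injective _).eq_iff, eq_comm] at hx1
      convert! hx1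
      · simp only [IntermediateField.lift_top]
      · simp only [IntermediateField.lift_adjoin, Set.image_singleton]
    · exact (aeval_algebraMap_eq_zero_iff A (x : F) _).mpr (minpoly.aeval ℤ (x : F))
  choose! a ha1 ha2 using hgen
  have hinj : Set.InjOn a (T : Set (IntermediateField ℚ A)) := by
    intro F hF G hG h
    rw [ha1 F hF, ha1 G hG, h]
  rw [← Finset.card_image_of_injOn hinj]
  refine (card_roots_bound D P _ ?_).trans (Nat.mul_le_mul_left _ hPc)
  intro y hy
  rw [Finset.mem_image] at hy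
  obtain ⟨F, hF, rfl⟩ := hy
  exact ha2 F hF

end Pool.Agent.Lib.MP_ca2859_nt
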