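import Mathlib
import Pool.Agent.Lib.MP_ca2859_nt.Above

open Polynomial WithZero IsDedekindDomain NumberField

set_option linter.unusedSectionVars false

namespace Pool.Agent.Lib.MP_ca2859_nt

section
variable {L : Type*} [Field L] {n : ℕ}

theorem lam_i0 (i0 i1 i2 : Fin n) (α : Fin n → L) : lam i0 i1 i2 α i0 = 0 := by
  rw [lam, sub_self (α i0), zero_mul, div_zero]

theorem lam_i1 (i0 i1 i2 : Fin n) (α : Fin n → L) : lam i0 i1 i2 α i1 = 0 := by
  rw [lam, sub_self (α i1), zero_mul, zero_div]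

theorem lam_i2 (i0 i1 i2 : Fin n) (h02 : i0 ≠ i2) (h12 : i1 ≠ i2) (α : Fin n → L)
    (hα : Function.Injective α) : lam i0 i1 i2 α i2 = 1 := by
  have d02 : α i2 - α i0 ≠ 0 := sub_ne_zero.2 fun h => h02 (hα h).symm
  have d12 : α i2 - α i1 ≠ 0 := sub_ne_zero.2 fun h => h12 (hα h).symm
  rw [lam, mul_comm, div_self (mul_ne_zero d02 d12)]

theorem lam_ne (i0 i1 i2 j : Fin n) (h01 : i0 ≠ i1) (h02 : i0 ≠ i2) (h12 : i1 ≠ i2)
    (hj0 : j ≠ i0) (hj1 : j ≠ i1) (hj2 : j ≠ i2) (α : Fin n → L)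
    (hα : Function.Injective α) : lam i0 i1 i2 α j ≠ 0 ∧ lam i0 i1 i2 α j ≠ 1 := by
  have d01 : α i0 - α i1 ≠ 0 := sub_ne_zero.2 fun h => h01 (hα h)
  have d02 : α i2 - α i0 ≠ 0 := sub_ne_zero.2 fun h => h02 (hα h).symm
  have d12 : α i2 - α i1 ≠ 0 := sub_ne_zero.2 fun h => h12 (hα h).symm
  have dj0 : α j - α i0 ≠ 0 := sub_ne_zero.2 fun h => hj0 (hα h)
  have dj1 : α j - α i1 ≠ 0 := sub_ne_zero.2 fun h => hj1 (hα h)
  have dj2 : α j - α i2 ≠ 0 := sub_ne_zero.2 fun h => hj2 (hα h)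
  constructor
  · rw [lam]
    exact div_ne_zero (mul_ne_zero dj1 d02) (mul_ne_zero dj0 d12)
  · intro h
    have h1 := one_sub_lam i0 i1 i2 j dj0 d12
    rw [h, sub_self] at h1
    exact div_ne_zero (mul_ne_zero dj2 d01) (mul_ne_zero dj0 d12) h1.symm

theorem dlt_ne_zero (i0 i1 i2 : Fin n) (h01 : i0 ≠ i1) (h02 : i0 ≠ i2) (h12 : i1 ≠ i2)
    (a : L) (ha : a ≠ 0) (α : Fin n → L) (hα : Function.Injective α) : dlt i0 i1 i2 a α ≠ 0 := by
  have d01 : α i1 - α i0 ≠ 0 := sub_ne_zero.2 fun h => h01 (hα h).symm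
  have d02 : α i2 - α i0 ≠ 0 := sub_ne_zero.2 fun h => h02 (hα h).symm
  have d12 : α i2 - α i1 ≠ 0 := sub_ne_zero.2 fun h => h12 (hα h).symm
  rw [dlt]
  refine mul_ne_zero (mul_ne_zero ha (div_ne_zero (mul_ne_zero d02 d01) d12)) ?_
  rw [Finset.prod_ne_zero_iff]
  intro j hj
  exact sub_ne_zero.2 fun h => (Finset.ne_of_mem_erase hj) (hα h)

end

section nf
variable {K : Type} [Field K] [NumberField K] {L : Type} [Field L] [NumberField L] [Algebra K L]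
  [IsGalois K L]

/-- polynomials with the same Galois action and the same cross ratios are twists of one another -/
theorem twist_of_same {n : ℕ} (g : ℕ) (hn : n = 2 * g + 2) (i0 i1 i2 : Fin n) (h01 : i0 ≠ i1)
    (h02 : i0 ≠ i2) (h12 : i1 ≠ i2) (f f' : K[X]) (a a' : L) (α α' : Fin n → L)
    (π : (L ≃ₐ[K] L) → Fin n → Fin n) (h : RootData n f a α π) (h' : RootData n f' a' α' π)
    (hlam : ∀ j, lam i0 i1 i2 α j = lam i0 i1 i2 α' j) :
    ∃ u : K, u ≠ 0 ∧ SameCurve g (C u * f) f' ∧ ∃ m : L, m ≠ 0 ∧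
      dlt i0 i1 i2 a' α' = algebraMap K L u * dlt i0 i1 i2 a α * m ^ (2 * g + 2) := by
  subst hn
  obtain ⟨A, B, Cc, D, hdet, hrel⟩ := exists_mob i0 i1 i2 h01 h02 h12 α α' h.inj h'.inj hlam
  obtain ⟨A', B', C', D', hne', hrel'⟩ := descend (K := K) α α' π h.surj h.act h'.act A B Cc D (by
    rintro ⟨rfl, rfl, rfl, rfl⟩
    simp at hdet) hrel
  have hdet' := det_ne_zero_of_rel i0 i1 i2 h01 h02 h12 α α' h.inj h'.inj _ _ _ _ (by
    rintro ⟨h1, h2, h3, h4⟩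
    rw [map_eq_zero] at h1 h2 h3 h4
    exact hne' ⟨h1, h2, h3, h4⟩) hrel'
  have hdetK : A' * D' - B' * C' ≠ 0 := by
    rw [← map_mul, ← map_mul, ← map_sub, Ne, map_eq_zero] at hdet'
    exact hdet'
  exact twist_of_rel g f f' a a' h.a0 h'.a0 α α' h'.inj h.split h'.split i0 i1 i2 h12 A' B' C' D'
    hdetK hrel'

theorem even_of_sq (w : Valuation K ℤᵐ⁰) (u : K) (h : ∃ z : ℤᵐ⁰, w u = z ^ 2) : Even (ord w u) := by
  obtain ⟨z, hz⟩ := h
  rw [ord, hz, log_pow]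
  exact ⟨-log z, by ring⟩

/-- a fibre of the map to (Galois action, cross ratios) -/
theorem fibre_count {n : ℕ} (g : ℕ) (hg : 1 ≤ g) (hn : n = 2 * g + 2) (i0 i1 i2 : Fin n)
    (h01 : i0 ≠ i1) (h02 : i0 ≠ i2) (h12 : i1 ≠ i2) (c : ℕ)
    (hc : ∀ (S : Finset (HeightOneSpectrum (𝓞 K))) (T : Finset K),
      (∀ u ∈ T, u ≠ 0 ∧ ∀ v, v ∉ S → Even (ord (v.valuation K) u)) →
      (∀ u ∈ T, ∀ u' ∈ T, u ≠ u' → ¬ ∃ y : K, y ≠ 0 ∧ u' = u * y ^ 2) →
      T.card ≤ c * 2 ^ S.card)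
    (S : Finset (HeightOneSpectrum (𝓞 K)))
    (hS : ∀ v ∉ S, v.valuation K (2 : K) = 1 ∧ v.valuation K ((2 * g + 2 : ℕ) : K) = 1)
    (hram : ∀ v ∉ S, ∃ w : HeightOneSpectrum (𝓞 L), w.asIdeal.LiesOver v.asIdeal ∧
      Ideal.ramificationIdx' v.asIdeal w.asIdeal = 1)
    (T : Finset K[X]) (hT : ∀ f ∈ T, IsHyperelliptic g f ∧ f.natDegree = 2 * g + 2 ∧
      ∀ v ∉ S, discExp g f v = 0)
    (hpair : ∀ f ∈ T, ∀ f' ∈ T, f ≠ f' → ¬ SameCurve g f f')
    (π : (L ≃ₐ[K] L) → Fin n → Fin n) (a : K[X] → L) (α : K[X] → Fin n → L)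
    (hdata : ∀ f ∈ T, RootData n f (a f) (α f) π)
    (l : Fin n → L) (hl : ∀ f ∈ T, ∀ j, lam i0 i1 i2 (α f) j = l j) :
    T.card ≤ c * 2 ^ S.card := by
  classical
  rcases T.eq_empty_or_nonempty with h0 | ⟨f₁, hf₁⟩
  · rw [h0]; simp
  have hex : ∀ f : K[X], ∃ u : K, f ∈ T → u ≠ 0 ∧ SameCurve g (C u * f₁) f ∧ ∃ m : L, m ≠ 0 ∧
      dlt i0 i1 i2 (a f) (α f) = algebraMap K L u * dlt i0 i1 i2 (a f₁) (α f₁) * m ^ (2 * g + 2) := by
    intro f
    by_cases hf : f ∈ T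
    · obtain ⟨u, hu⟩ := twist_of_same g hn i0 i1 i2 h01 h02 h12 f₁ f (a f₁) (a f) (α f₁) (α f) π
        (hdata f₁ hf₁) (hdata f hf) (fun j => by rw [hl f₁ hf₁ j, hl f hf j])
      exact ⟨u, fun _ => hu⟩
    · exact ⟨1, fun h => absurd h hf⟩
  choose u hu using hex
  have hsq : ∀ f ∈ T, ∀ f' ∈ T, f ≠ f' → ¬ ∃ y : K, y ≠ 0 ∧ u f' = u f * y ^ 2 := by
    rintro f hf f' hf' hne ⟨y, hy0, hy⟩
    exact hpair f hf f' hf' hne (same_of_square g f₁ f f' (hT f₁ hf₁).2.1.le (hT f hf).2.1.le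
      (u f) (u f') y hy0 hy (hu f hf).2.1 (hu f' hf').2.1)
  have hinj : Set.InjOn u T := by
    intro f hf f' hf' heq
    by_contra hne
    exact hsq f hf f' hf' hne ⟨1, one_ne_zero, by rw [one_pow, mul_one]; exact heq.symm⟩
  rw [← Finset.card_image_of_injOn hinj]
  apply hc S
  · intro x hx
    obtain ⟨f, hf, rfl⟩ := Finset.mem_image.1 hx
    refine ⟨(hu f hf).1, ?_⟩
    intro v hv
    apply even_of_sq
    obtain ⟨w, hw, he⟩ := hram v hv
    obtain ⟨-, -, m, hm, hdl⟩ := hu f hf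
    subst hn
    obtain ⟨c₁, α₀, ρ, hfar⟩ := good_far g hg f₁ (hT f₁ hf₁).1 v w ((hT f₁ hf₁).2.2 v hv)
      (hS v hv).1 (hS v hv).2 (a f₁) (hdata f₁ hf₁).a0 (α f₁) (hdata f₁ hf₁).split
    obtain ⟨c₁', α₀', ρ', hfar'⟩ := good_far g hg f (hT f hf).1 v w ((hT f hf).2.2 v hv)
      (hS v hv).1 (hS v hv).2 (a f) (hdata f hf).a0 (α f) (hdata f hf).split
    exact twist_even g v w he i0 i1 i2 h01 h02 h12 (a f₁) (a f) (α f₁) (α f) _ _ _ _ _ _ hfar hfar'
      (dlt_ne_zero i0 i1 i2 h01 h02 h12 _ (hdata f₁ hf₁).a0 _ (hdata f₁ hf₁).inj) (u f) m hm hdl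
  · intro x hx x' hx' hne
    obtain ⟨f, hf, rfl⟩ := Finset.mem_image.1 hx
    obtain ⟨f', hf', rfl⟩ := Finset.mem_image.1 hx'
    exact hsq f hf f' hf' (fun h => hne (by rw [h]))

end nf

theorem final_calc (c Q B : ℝ) (hc : 1 ≤ c) (hQ : 1 ≤ Q) (hB : 1 ≤ B) (s : ℕ) (T G : ℝ)
    (h1 : T ≤ c * 2 ^ s * G) (h2 : G ≤ Q * B ^ (s + 1)) : T ≤ (c * 2 * Q * B) ^ (s + 1) := by
  have e2 : Q ≤ Q ^ (s + 1) := le_self_pow₀ hQ (by omega)
  have e3 : c ≤ c ^ (s + 1) := le_self_pow₀ hc (by omega)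
  have e4 : (2 : ℝ) ^ s ≤ 2 ^ (s + 1) := pow_le_pow_right₀ (by norm_num) (by omega)
  calc T ≤ c * 2 ^ s * G := h1
    _ ≤ c * 2 ^ s * (Q * B ^ (s + 1)) := mul_le_mul_of_nonneg_left h2 (by positivity)
    _ ≤ (c ^ (s + 1) * 2 ^ (s + 1)) * (Q ^ (s + 1) * B ^ (s + 1)) := by
        have hQ0 : 0 ≤ Q := by linarith
        have hB0 : 0 ≤ B := by linarith
        have hc0 : 0 ≤ c := by linarith
        apply mul_le_mul (mul_le_mul e3 e4 (by positivity) (by positivity))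
          (mul_le_mul_of_nonneg_right e2 (by positivity)) (by positivity) (by positivity)
    _ = (c * 2 * Q * B) ^ (s + 1) := by
        rw [mul_pow, mul_pow, mul_pow]; ring

/-- the number of curves with good reduction outside `S` whose Weierstrass points are defined over
a given field -/
theorem fixed_count (K : Type) [Field K] [NumberField K] (g : ℕ) (hg : 1 ≤ g) (D : ℕ) :
    ∃ C : ℝ, 1 ≤ C ∧ ∀ (L : Type) [Field L] [NumberField L] [Algebra K L] [IsGalois K L],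
    Module.finrank ℚ L ≤ D → ∀ (S : Finset (HeightOneSpectrum (𝓞 K))),
    (∀ v ∉ S, v.valuation K (2 : K) = 1 ∧ v.valuation K ((2 * g + 2 : ℕ) : K) = 1) →
    (∀ v ∉ S, ∃ w : HeightOneSpectrum (𝓞 L), w.asIdeal.LiesOver v.asIdeal ∧
      Ideal.ramificationIdx' v.asIdeal w.asIdeal = 1) →
    ∀ T : Finset K[X], (∀ f ∈ T, IsHyperelliptic g f ∧ f.natDegree = 2 * g + 2 ∧
      (f.map (algebraMap K L)).Splits ∧ ∀ v ∉ S, discExp g f v = 0) →
    (∀ f ∈ T, ∀ f' ∈ T, f ≠ f' → ¬ SameCurve g f f') → (T.card : ℝ) ≤ C ^ (S.card + 1) := by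
  classical
  obtain ⟨C₀, hC₀, hunit⟩ := unit_eq_count D
  obtain ⟨c, hc0, hc⟩ := selmer_count K
  set n := 2 * g + 2 with hn
  have hC₀' : (1 : ℝ) ≤ C₀ ^ ((D + 1) * n) := one_le_pow₀ hC₀
  have hcR : (1 : ℝ) ≤ c := by exact_mod_cast hc0
  have hnD : (1 : ℝ) ≤ ((n : ℝ) ^ n) ^ D := by
    apply one_le_pow₀
    apply one_le_pow₀
    rw [hn]; push_cast
    have : (0 : ℝ) ≤ g := Nat.cast_nonneg g
    linarith
  refine ⟨c * 2 * ((n : ℝ) ^ n) ^ D * C₀ ^ ((D + 1) * n), ?_, ?_⟩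
  · have h1 : (1 : ℝ) ≤ c * 2 := by linarith
    have h2 : (1 : ℝ) ≤ c * 2 * ((n : ℝ) ^ n) ^ D := one_le_mul_of_one_le_of_one_le h1 hnD
    exact one_le_mul_of_one_le_of_one_le h2 hC₀'
  intro L _ _ _ _ hD S hS hram T hT hpair
  obtain ⟨S', hS'1, hS'2⟩ := exists_above (K := K) (L := L) S
  have hKL : Module.finrank K L ≤ D := by
    refine le_trans ?_ hD
    rw [← Module.finrank_mul_finrank ℚ K L]
    exact Nat.le_mul_of_pos_left _ Module.finrank_pos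
  have hex : ∀ f : K[X], ∃ (a : L) (α : Fin n → L) (π : (L ≃ₐ[K] L) → Fin n → Fin n),
      f ∈ T → RootData n f a α π := by
    intro f
    by_cases hf : f ∈ T
    · obtain ⟨a, α, π, h⟩ := exists_rootData n f (hT f hf).2.1 (by omega) (hT f hf).1.1 (hT f hf).2.2.1
      exact ⟨a, α, π, fun _ => h⟩
    · exact ⟨1, fun _ => 0, fun _ j => j, fun h => absurd h hf⟩
  choose a α π hdata using hex
  let i0 : Fin n := ⟨0, by omega⟩
  let i1 : Fin n := ⟨1, by omega⟩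
  let i2 : Fin n := ⟨2, by omega⟩
  have h01 : i0 ≠ i1 := by intro h; have := congrArg Fin.val h; simp [i0, i1] at this
  have h02 : i0 ≠ i2 := by intro h; have := congrArg Fin.val h; simp [i0, i2] at this
  have h12 : i1 ≠ i2 := by intro h; have := congrArg Fin.val h; simp [i1, i2] at this
  -- the possible values of each coordinate
  have hcoord : ∀ j : Fin n, (((T.image fun f => lam i0 i1 i2 (α f) j).card : ℕ) : ℝ) ≤
      C₀ ^ (S'.card + 1) := by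
    intro j
    by_cases hj : j = i0 ∨ j = i1 ∨ j = i2
    · have h1 : (T.image fun f => lam i0 i1 i2 (α f) j).card ≤ 1 := by
        rw [Finset.card_le_one]
        intro x hx y hy
        obtain ⟨f, hf, rfl⟩ := Finset.mem_image.1 hx
        obtain ⟨f', hf', rfl⟩ := Finset.mem_image.1 hy
        rcases hj with rfl | rfl | rfl
        · rw [lam_i0, lam_i0]
        · rw [lam_i1, lam_i1]
        · rw [lam_i2 _ _ _ h02 h12 _ (hdata f hf).inj, lam_i2 _ _ _ h02 h12 _ (hdata f' hf').inj]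
      calc (((T.image fun f => lam i0 i1 i2 (α f) j).card : ℕ) : ℝ) ≤ 1 := by exact_mod_cast h1
        _ ≤ _ := one_le_pow₀ hC₀
    · push Not at hj
      obtain ⟨hj0, hj1, hj2⟩ := hj
      apply hunit L hD S'
      intro x hx
      obtain ⟨f, hf, rfl⟩ := Finset.mem_image.1 hx
      have hne := lam_ne i0 i1 i2 j h01 h02 h12 hj0 hj1 hj2 (α f) (hdata f hf).inj
      refine ⟨hne.1, hne.2, ?_⟩
      intro w hw
      obtain ⟨v, hv⟩ := exists_place_below (K := K) w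
      have hvS : v ∉ S := fun h => hw (hS'1 w ⟨v, h, hv⟩)
      obtain ⟨c₁, α₀, ρ, hfar⟩ := good_far g hg f (hT f hf).1 v w ((hT f hf).2.2.2 v hvS)
        (hS v hvS).1 (hS v hvS).2 (a f) (hdata f hf).a0 (α f) (hdata f hf).split
      exact ⟨hfar.lam_unit i0 i1 i2 j h02 h12 hj0 hj1,
        hfar.one_sub_lam_unit (hdata f hf).inj i0 i1 i2 j h01 h12 hj0 hj2⟩
  -- the classification map
  set key : K[X] → ((L ≃ₐ[K] L) → Fin n → Fin n) × (Fin n → L) :=
    fun f => (π f, fun j => lam i0 i1 i2 (α f) j) with hkey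
  set Tgt : Finset (((L ≃ₐ[K] L) → Fin n → Fin n) × (Fin n → L)) :=
    Finset.univ ×ˢ Fintype.piFinset (fun j => T.image fun f => lam i0 i1 i2 (α f) j) with hTgt
  have hmaps : ∀ f ∈ T, key f ∈ Tgt := by
    intro f hf
    rw [hTgt, Finset.mem_product]
    refine ⟨Finset.mem_univ _, ?_⟩
    rw [Fintype.mem_piFinset]
    intro j
    exact Finset.mem_image_of_mem _ hf
  have hcard1 : T.card ≤ (c * 2 ^ S.card) * Tgt.card := by
    apply Finset.card_le_mul_card_image_of_maps_to hmaps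
    rintro ⟨π₀, l⟩ _
    apply fibre_count g hg hn i0 i1 i2 h01 h02 h12 c hc S hS hram
      (T.filter fun f => key f = (π₀, l)) (fun f hf => ?_) (fun f hf f' hf' => ?_) π₀ a α
      (fun f hf => ?_) l (fun f hf j => ?_)
    · have hf' := (Finset.mem_filter.1 hf).1
      exact ⟨(hT f hf').1, (hT f hf').2.1, (hT f hf').2.2.2⟩
    · exact hpair f (Finset.mem_filter.1 hf).1 f' (Finset.mem_filter.1 hf').1
    · have hf' := Finset.mem_filter.1 hf
      have h1 := congrArg Prod.fst hf'.2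
      simp only [hkey] at h1
      rw [← h1]
      exact hdata f hf'.1
    · have hf' := Finset.mem_filter.1 hf
      have h1 := congrArg Prod.snd hf'.2
      simp only [hkey] at h1
      exact congrFun h1 j
  have hcard2 : (Tgt.card : ℝ) ≤ ((n : ℝ) ^ n) ^ D * (C₀ ^ (S'.card + 1)) ^ n := by
    have g1 : ((Fintype.card ((L ≃ₐ[K] L) → Fin n → Fin n) : ℕ) : ℝ) ≤ ((n : ℝ) ^ n) ^ D := by
      rw [Fintype.card_fun, Fintype.card_fun, Fintype.card_fin]
      have h1 : Fintype.card (L ≃ₐ[K] L) = Module.finrank K L := by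
        rw [← Nat.card_eq_fintype_card, IsGalois.card_aut_eq_finrank]
      rw [h1]
      push_cast
      apply pow_le_pow_right₀ _ hKL
      apply one_le_pow₀
      rw [hn]; push_cast
      have : (0 : ℝ) ≤ g := Nat.cast_nonneg g
      linarith
    have g2 : ((∏ j : Fin n, (T.image fun f => lam i0 i1 i2 (α f) j).card : ℕ) : ℝ) ≤
        (C₀ ^ (S'.card + 1)) ^ n := by
      rw [Nat.cast_prod]
      calc ∏ j : Fin n, (((T.image fun f => lam i0 i1 i2 (α f) j).card : ℕ) : ℝ)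
          ≤ ∏ _j : Fin n, C₀ ^ (S'.card + 1) :=
            Finset.prod_le_prod (fun _ _ => Nat.cast_nonneg _) (fun j _ => hcoord j)
        _ = (C₀ ^ (S'.card + 1)) ^ n := by
            rw [Finset.prod_const, Finset.card_univ, Fintype.card_fin]
    have g3 : Tgt.card = Fintype.card ((L ≃ₐ[K] L) → Fin n → Fin n) *
        ∏ j : Fin n, (T.image fun f => lam i0 i1 i2 (α f) j).card := by
      rw [hTgt, Finset.card_product, Finset.card_univ, Fintype.card_piFinset]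
    rw [g3, Nat.cast_mul]
    exact mul_le_mul g1 g2 (Nat.cast_nonneg _) (zero_le_one.trans hnD)
  have hS'3 : S'.card + 1 ≤ (D + 1) * (S.card + 1) := by
    have : Module.finrank K L * S.card ≤ D * S.card := Nat.mul_le_mul_right _ hKL
    nlinarith [hS'2]
  have e1 : (C₀ ^ (S'.card + 1)) ^ n ≤ (C₀ ^ ((D + 1) * n)) ^ (S.card + 1) := by
    rw [← pow_mul, ← pow_mul]
    apply pow_le_pow_right₀ hC₀
    calc (S'.card + 1) * n ≤ ((D + 1) * (S.card + 1)) * n := Nat.mul_le_mul_right _ hS'3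
      _ = (D + 1) * n * (S.card + 1) := by ring
  have hcard3 : (T.card : ℝ) ≤ c * 2 ^ S.card * (Tgt.card : ℝ) := by exact_mod_cast hcard1
  exact final_calc c (((n : ℝ) ^ n) ^ D) (C₀ ^ ((D + 1) * n)) hcR hnD hC₀' S.card _ _ hcard3
    (hcard2.trans (mul_le_mul_of_nonneg_left e1 (zero_le_one.trans hnD)))

end Pool.Agent.Lib.MP_ca2859_nt
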