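import Mathlib

/-!
# The different of a Galois extension with controlled ramification
-/

open NumberField IsDedekindDomain

set_option linter.unusedSectionVars false

namespace Pool.Agent.Lib.MP_ca2859_nt

section dd
variable {R : Type*} [CommRing R] [IsDedekindDomain R]

theorem dvd_of_prime_pow (I J : Ideal R) (hI : I ≠ ⊥) (hJ : J ≠ ⊥)
    (h : ∀ P : Ideal R, P.IsPrime → P ≠ ⊥ → ∀ m : ℕ, 1 ≤ m → P ^ m ∣ I → P ^ m ∣ J) : I ∣ J := by
  classical
  open UniqueFactorizationMonoid in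
  rw [dvd_iff_normalizedFactors_le_normalizedFactors hI hJ, Multiset.le_iff_count]
  intro P
  rcases Nat.eq_zero_or_pos ((UniqueFactorizationMonoid.normalizedFactors I).count P) with h0 | h0
  · rw [h0]; exact Nat.zero_le _
  · have hmem : P ∈ UniqueFactorizationMonoid.normalizedFactors I := Multiset.count_pos.1 h0
    have hPp := (Ideal.mem_normalizedFactors_iff hI).1 hmem
    have hP0 : P ≠ ⊥ := UniqueFactorizationMonoid.ne_zero_of_mem_normalizedFactors hmem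
    have hirr : Irreducible P := UniqueFactorizationMonoid.irreducible_of_normalized_factor P hmem
    have e1 := UniqueFactorizationMonoid.emultiplicity_eq_count_normalizedFactors hirr hI
    have e2 := UniqueFactorizationMonoid.emultiplicity_eq_count_normalizedFactors hirr hJ
    rw [normalize_eq] at e1 e2
    have d1 : P ^ ((UniqueFactorizationMonoid.normalizedFactors I).count P) ∣ I := by
      apply pow_dvd_of_le_emultiplicity
      rw [e1]
    have d2 := h P hPp.1 hP0 _ h0 d1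
    have := le_emultiplicity_of_pow_dvd d2
    rw [e2] at this
    exact_mod_cast this

end dd

section gal
variable {K L : Type} [Field K] [NumberField K] [Field L] [NumberField L] [Algebra K L]
  [IsGalois K L]

theorem mem_different_iff (x : 𝓞 L) : x ∈ differentIdeal (𝓞 K) (𝓞 L) ↔
    ∀ y : L, (∀ z : 𝓞 L, ∃ a : 𝓞 K, algebraMap (𝓞 K) K a = Algebra.trace K L (y * algebraMap (𝓞 L) L z)) →
      ∃ b : 𝓞 L, algebraMap (𝓞 L) L b = algebraMap (𝓞 L) L x * y := by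
  have h1 : x ∈ differentIdeal (𝓞 K) (𝓞 L) ↔
      algebraMap (𝓞 L) L x ∈ IsLocalization.coeSubmodule L (differentIdeal (𝓞 K) (𝓞 L)) := by
    rw [IsLocalization.mem_coeSubmodule]
    constructor
    · intro h; exact ⟨x, h, rfl⟩
    · rintro ⟨y, hy, hyx⟩
      rwa [← IsFractionRing.injective (𝓞 L) L hyx]
  rw [h1, coeSubmodule_differentIdeal (𝓞 K) K, Submodule.mem_div_iff_forall_mul_mem]
  constructor
  · intro h y hy
    have h2 := h y (by
      rw [Submodule.mem_traceDual]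
      intro a ha
      rw [Submodule.mem_one] at ha
      obtain ⟨z, rfl⟩ := ha
      obtain ⟨b, hb⟩ := hy z
      exact ⟨b, hb⟩)
    rw [Submodule.mem_one] at h2
    exact h2
  · intro h y hy
    rw [Submodule.mem_one]
    apply h y
    intro z
    rw [Submodule.mem_traceDual] at hy
    obtain ⟨a, ha⟩ := hy (algebraMap (𝓞 L) L z) (by rw [Submodule.mem_one]; exact ⟨z, rfl⟩)
    exact ⟨a, ha⟩

theorem different_stable (σ : L ≃ₐ[K] L) (x : 𝓞 L) (hx : x ∈ differentIdeal (𝓞 K) (𝓞 L)) :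
    galRestrict (𝓞 K) K L (𝓞 L) σ x ∈ differentIdeal (𝓞 K) (𝓞 L) := by
  rw [mem_different_iff] at hx ⊢
  intro y hy
  obtain ⟨b, hb⟩ := hx (σ.symm y) (by
    intro z
    obtain ⟨a, ha⟩ := hy (galRestrict (𝓞 K) K L (𝓞 L) σ z)
    refine ⟨a, ha.trans ?_⟩
    rw [algebraMap_galRestrict_apply]
    have h2 : σ (σ.symm y * algebraMap (𝓞 L) L z) = y * σ (algebraMap (𝓞 L) L z) := by
      rw [map_mul, AlgEquiv.apply_symm_apply]
    rw [← h2]
    exact Algebra.trace_eq_of_algEquiv σ _)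
  refine ⟨galRestrict (𝓞 K) K L (𝓞 L) σ b, ?_⟩
  rw [algebraMap_galRestrict_apply, algebraMap_galRestrict_apply, hb, map_mul,
    AlgEquiv.apply_symm_apply]

/-- transport of prime powers containing a stable ideal -/
theorem transport (I : Ideal (𝓞 L))
    (hI : ∀ (σ : L ≃ₐ[K] L), ∀ x ∈ I, galRestrict (𝓞 K) K L (𝓞 L) σ x ∈ I)
    (P Q : Ideal (𝓞 L)) (σ : L ≃ₐ[K] L) (hQ : P.comap (galRestrict (𝓞 K) K L (𝓞 L) σ) = Q)
    (r : ℕ) (h : I ≤ P ^ r) : I ≤ Q ^ r := by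
  intro x hx
  set s := galRestrict (𝓞 K) K L (𝓞 L) σ with hs
  have h1 : s x ∈ P ^ r := h (hI σ x hx)
  have h2 : Q = P.map (s.symm : 𝓞 L ≃ₐ[𝓞 K] 𝓞 L) := by
    rw [← hQ]
    ext z
    constructor
    · intro hz
      have := Ideal.mem_map_of_mem (s.symm : 𝓞 L ≃ₐ[𝓞 K] 𝓞 L) (Ideal.mem_comap.1 hz)
      rwa [AlgEquiv.symm_apply_apply] at this
    · intro hz
      rw [Ideal.mem_comap]
      rw [Ideal.mem_map_iff_of_surjective _ s.symm.surjective] at hz
      obtain ⟨w, hw, rfl⟩ := hz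
      rwa [AlgEquiv.apply_symm_apply]
  rw [h2, ← Ideal.map_pow]
  have := Ideal.mem_map_of_mem (s.symm : 𝓞 L ≃ₐ[𝓞 K] 𝓞 L) h1
  rwa [AlgEquiv.symm_apply_apply] at this

theorem map_stable (J : Ideal (𝓞 K)) (σ : L ≃ₐ[K] L) (x : 𝓞 L)
    (hx : x ∈ J.map (algebraMap (𝓞 K) (𝓞 L))) :
    galRestrict (𝓞 K) K L (𝓞 L) σ x ∈ J.map (algebraMap (𝓞 K) (𝓞 L)) := by
  set s := galRestrict (𝓞 K) K L (𝓞 L) σ with hs
  have h1 := Ideal.mem_map_of_mem (s : 𝓞 L →+* 𝓞 L) hx
  rw [Ideal.map_map] at h1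
  have h2 : ((s : 𝓞 L →+* 𝓞 L)).comp (algebraMap (𝓞 K) (𝓞 L)) = algebraMap (𝓞 K) (𝓞 L) := by
    ext a
    simp
  rwa [h2] at h1

/-- the trace argument -/
theorem trace_argument (J : Ideal (𝓞 K)) (hJ : J ≠ ⊥)
    (h : differentIdeal (𝓞 K) (𝓞 L) ≤ J.map (algebraMap (𝓞 K) (𝓞 L))) :
    ((Module.finrank K L : ℕ) : 𝓞 K) ∈ J := by
  have hI : J.map (algebraMap (𝓞 K) (𝓞 L)) ≠ ⊥ :=
    (Ideal.map_eq_bot_iff_of_injective (FaithfulSMul.algebraMap_injective (𝓞 K) (𝓞 L))).not.2 hJ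
  rw [differentialIdeal_le_iff (K := K) (L := L) hI] at h
  have hJ' : (J : FractionalIdeal (nonZeroDivisors (𝓞 K)) K) ≠ 0 := by
    rwa [Ne, FractionalIdeal.coeIdeal_eq_zero]
  have hI' : ((J.map (algebraMap (𝓞 K) (𝓞 L)) : Ideal (𝓞 L)) :
      FractionalIdeal (nonZeroDivisors (𝓞 L)) L) ≠ 0 := by
    rwa [Ne, FractionalIdeal.coeIdeal_eq_zero]
  have hmem : (((Module.finrank K L : ℕ) : 𝓞 K) : K) ∈
      ((J : FractionalIdeal (nonZeroDivisors (𝓞 K)) K)⁻¹)⁻¹ := by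
    rw [FractionalIdeal.mem_inv_iff (inv_ne_zero hJ')]
    intro t ht
    rw [FractionalIdeal.mem_inv_iff hJ'] at ht
    have h1 : algebraMap K L t ∈ ((J.map (algebraMap (𝓞 K) (𝓞 L)) : Ideal (𝓞 L)) :
        FractionalIdeal (nonZeroDivisors (𝓞 L)) L)⁻¹ := by
      rw [FractionalIdeal.mem_inv_iff hI']
      intro y hy
      rw [FractionalIdeal.mem_coeIdeal] at hy
      obtain ⟨y', hy', rfl⟩ := hy
      rw [Ideal.map] at hy'
      refine Submodule.span_induction (p := fun z _ => algebraMap K L t * algebraMap (𝓞 L) L z ∈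
        (1 : FractionalIdeal (nonZeroDivisors (𝓞 L)) L)) ?_ ?_ ?_ ?_ hy'
      · rintro _ ⟨a, ha, rfl⟩
        have h2 := ht (algebraMap (𝓞 K) K a) (FractionalIdeal.mem_coeIdeal_of_mem _ ha)
        rw [FractionalIdeal.mem_one_iff] at h2 ⊢
        obtain ⟨b, hb⟩ := h2
        refine ⟨algebraMap (𝓞 K) (𝓞 L) b, ?_⟩
        rw [← IsScalarTower.algebraMap_apply (𝓞 K) (𝓞 L) L, ← IsScalarTower.algebraMap_apply (𝓞 K) (𝓞 L) L,
          IsScalarTower.algebraMap_apply (𝓞 K) K L, hb, IsScalarTower.algebraMap_apply (𝓞 K) K L,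
          map_mul]
      · rw [map_zero, mul_zero]
        exact Submodule.zero_mem _
      · intro a b _ _ ha hb
        rw [map_add, mul_add]
        exact Submodule.add_mem _ ha hb
      · intro a b _ hb
        rw [smul_eq_mul, map_mul, mul_left_comm]
        exact Submodule.smul_mem _ a hb |> fun h3 => by
          rw [Algebra.smul_def] at h3
          exact h3
    have h2 : Algebra.trace K L (algebraMap K L t) ∈
        (1 : Submodule (𝓞 K) K) := by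
      apply h
      exact ⟨algebraMap K L t, h1, rfl⟩
    rw [Algebra.trace_algebraMap, Submodule.mem_one] at h2
    obtain ⟨b, hb⟩ := h2
    rw [FractionalIdeal.mem_one_iff]
    refine ⟨b, hb.trans ?_⟩
    rw [nsmul_eq_mul]
    simp
  rw [inv_inv, FractionalIdeal.mem_coeIdeal] at hmem
  obtain ⟨a, ha, hae⟩ := hmem
  have : a = ((Module.finrank K L : ℕ) : 𝓞 K) := IsFractionRing.injective (𝓞 K) K hae
  rwa [← this]

theorem different_dvd (S : Finset (HeightOneSpectrum (𝓞 K)))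
    (hS : ∀ P : Ideal (𝓞 L), P.IsPrime → P ≠ ⊥ → P ∣ differentIdeal (𝓞 K) (𝓞 L) →
      ∃ v ∈ S, P.LiesOver v.asIdeal)
    (k : HeightOneSpectrum (𝓞 K) → ℕ)
    (hk : ∀ v ∈ S, ((Module.finrank K L : ℕ) : 𝓞 K) ∉ v.asIdeal ^ (k v)) :
    differentIdeal (𝓞 K) (𝓞 L) ∣ (∏ v ∈ S, v.asIdeal ^ (k v)).map (algebraMap (𝓞 K) (𝓞 L)) := by
  classical
  have hinj := FaithfulSMul.algebraMap_injective (𝓞 K) (𝓞 L)
  apply dvd_of_prime_pow
  · exact differentIdeal_ne_bot
  · rw [Ne, Ideal.map_eq_bot_iff_of_injective hinj, ← Ideal.zero_eq_bot, Finset.prod_eq_zero_iff]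
    rintro ⟨v, -, hv⟩
    exact pow_ne_zero _ v.ne_bot hv
  intro P hP hP0 m hm hPm
  obtain ⟨v, hvS, hlo⟩ := hS P hP hP0 ((dvd_pow_self P (by omega)).trans hPm)
  set I : Ideal (𝓞 L) := (v.asIdeal ^ (k v)).map (algebraMap (𝓞 K) (𝓞 L)) with hI
  have hIdvd : I ∣ (∏ v ∈ S, v.asIdeal ^ (k v)).map (algebraMap (𝓞 K) (𝓞 L)) := by
    rw [← Finset.mul_prod_erase S _ hvS, Ideal.map_mul]
    exact dvd_mul_right _ _
  by_contra hcon
  have hnot : ¬ P ^ m ∣ I := fun h => hcon (h.trans hIdvd)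
  have hvk : v.asIdeal ^ (k v) ≠ ⊥ := pow_ne_zero _ v.ne_bot
  have hI0 : I ≠ ⊥ := by
    rw [hI, Ne, Ideal.map_eq_bot_iff_of_injective hinj]
    exact hvk
  apply hk v hvS
  apply trace_argument (L := L) _ hvk
  rw [← hI, ← Ideal.dvd_iff_le]
  apply dvd_of_prime_pow _ _ hI0 differentIdeal_ne_bot
  intro Q hQ hQ0 r hr hQr
  -- Q lies over v
  have hQlo : Q.LiesOver v.asIdeal := by
    constructor
    have h1 : v.asIdeal ^ (k v) ≤ Q.under (𝓞 K) := by
      intro a ha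
      rw [Ideal.under, Ideal.mem_comap]
      have h2 : I ≤ Q := Ideal.dvd_iff_le.1 ((dvd_pow_self Q (by omega)).trans hQr)
      exact h2 (Ideal.mem_map_of_mem _ ha)
    have hQu : (Q.under (𝓞 K)).IsPrime := hQ.under (𝓞 K)
    have h3 : v.asIdeal ≤ Q.under (𝓞 K) := hQu.le_of_pow_le h1
    exact v.isMaximal.eq_of_le hQu.ne_top h3
  obtain ⟨σ, hσ⟩ := Ideal.exists_comap_galRestrict_eq (𝓞 K) K L (𝓞 L) (p := v.asIdeal)
    (P₁ := P) (P₂ := Q) ⟨hP, hlo⟩ ⟨hQ, hQlo⟩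
  obtain ⟨τ, hτ⟩ := Ideal.exists_comap_galRestrict_eq (𝓞 K) K L (𝓞 L) (p := v.asIdeal)
    (P₁ := Q) (P₂ := P) ⟨hQ, hQlo⟩ ⟨hP, hlo⟩
  have hPr : I ≤ P ^ r := transport I (fun σ x hx => map_stable _ σ x hx) Q P τ hτ r
    (Ideal.dvd_iff_le.1 hQr)
  have hrm : r < m := by
    by_contra h
    push Not at h
    exact hnot ((pow_dvd_pow P h).trans (Ideal.dvd_iff_le.2 hPr))
  have hdP : differentIdeal (𝓞 K) (𝓞 L) ≤ P ^ r :=
    Ideal.dvd_iff_le.1 ((pow_dvd_pow P hrm.le).trans hPm)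
  exact Ideal.dvd_iff_le.2 (transport _ (fun σ x hx => different_stable σ x hx) P Q σ hσ r hdP)

theorem discr_bound (S : Finset (HeightOneSpectrum (𝓞 K)))
    (hS : ∀ P : Ideal (𝓞 L), P.IsPrime → P ≠ ⊥ → P ∣ differentIdeal (𝓞 K) (𝓞 L) →
      ∃ v ∈ S, P.LiesOver v.asIdeal) :
    (discr L).natAbs ≤ ((Module.finrank K L) ^ (Module.finrank ℚ K) *
      ∏ v ∈ S, Ideal.absNorm v.asIdeal) ^ (Module.finrank K L) *
      (discr K).natAbs ^ (Module.finrank K L) := by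
  classical
  set n := Module.finrank K L with hn
  have hn0 : n ≠ 0 := Module.finrank_pos.ne'
  have hnK : ((n : ℕ) : 𝓞 K) ≠ 0 := by exact_mod_cast hn0
  have hex : ∀ v : HeightOneSpectrum (𝓞 K), ∃ k : ℕ, (n : 𝓞 K) ∉ v.asIdeal ^ (k + 1) ∧
      (n : 𝓞 K) ∈ v.asIdeal ^ k := by
    intro v
    have h1 : ∃ k : ℕ, (n : 𝓞 K) ∉ v.asIdeal ^ k := by
      by_contra hcon
      push Not at hcon
      have h2 : (n : 𝓞 K) ∈ (⨅ i : ℕ, v.asIdeal ^ i : Ideal (𝓞 K)) := by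
        rw [Submodule.mem_iInf]; exact hcon
      rw [Ideal.iInf_pow_eq_bot_of_isDomain _ v.isPrime.ne_top] at h2
      exact hnK h2
    have h3 := Nat.find_spec h1
    have h4 : Nat.find h1 ≠ 0 := by
      intro h0
      rw [h0, pow_zero] at h3
      exact h3 (by rw [Ideal.one_eq_top]; exact Submodule.mem_top)
    refine ⟨Nat.find h1 - 1, ?_, ?_⟩
    · rwa [Nat.sub_add_cancel (Nat.one_le_iff_ne_zero.2 h4)]
    · have := Nat.find_min h1 (show Nat.find h1 - 1 < Nat.find h1 by omega)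
      push Not at this
      exact this
  choose k hk1 hk2 using hex
  have hdvd := different_dvd (L := L) S hS (fun v => k v + 1) (fun v _ => hk1 v)
  have hprod0 : (∏ v ∈ S, v.asIdeal ^ (k v + 1)) ≠ 0 := by
    rw [Finset.prod_ne_zero_iff]
    intro v _
    exact pow_ne_zero _ v.ne_bot
  have hprod : (∏ v ∈ S, v.asIdeal ^ (k v + 1)) ∣ Ideal.span {(n : 𝓞 K)} * ∏ v ∈ S, v.asIdeal := by
    simp only [pow_succ, Finset.prod_mul_distrib]
    apply mul_dvd_mul_right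
    apply Finset.prod_dvd_of_coprime
    · intro v _ w _ hvw
      apply IsCoprime.pow
      rw [Ideal.isCoprime_iff_sup_eq]
      exact (Ideal.IsMaximal.coprime_of_ne v.isMaximal w.isMaximal (fun h => hvw (HeightOneSpectrum.ext h)))
    · intro v _
      rw [Ideal.dvd_span_singleton]
      exact hk2 v
  have hnorm1 : Ideal.absNorm (∏ v ∈ S, v.asIdeal ^ (k v + 1)) ≤
      n ^ (Module.finrank ℚ K) * ∏ v ∈ S, Ideal.absNorm v.asIdeal := by
    have h1 := map_dvd Ideal.absNorm hprod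
    have h2 : Ideal.absNorm (Ideal.span {(n : 𝓞 K)} * ∏ v ∈ S, v.asIdeal) =
        n ^ (Module.finrank ℚ K) * ∏ v ∈ S, Ideal.absNorm v.asIdeal := by
      rw [map_mul, map_prod]
      congr 1
      have := Ideal.absNorm_span_natCast (S := 𝓞 K) n
      rw [this, RingOfIntegers.rank]
    rw [h2] at h1
    apply Nat.le_of_dvd _ h1
    apply Nat.mul_pos (pow_pos (Nat.pos_of_ne_zero hn0) _)
    apply Finset.prod_pos
    intro v _
    exact lt_trans zero_lt_one (NumberField.HeightOneSpectrum.one_lt_absNorm v)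
  have hrank : Module.finrank (𝓞 K) (𝓞 L) = n :=
    (IsFractionRing.finrank_eq (𝓞 K) K (𝓞 L) L).symm
  have hnorm2 : Ideal.absNorm (differentIdeal (𝓞 K) (𝓞 L)) ≤
      (n ^ (Module.finrank ℚ K) * ∏ v ∈ S, Ideal.absNorm v.asIdeal) ^ n := by
    have h1 := map_dvd Ideal.absNorm hdvd
    rw [Ideal.absNorm_algebraMap, hrank] at h1
    refine (Nat.le_of_dvd (pow_pos ?_ _) h1).trans (Nat.pow_le_pow_left hnorm1 _)
    rw [Nat.pos_iff_ne_zero, Ne, Ideal.absNorm_eq_zero_iff]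
    exact hprod0
  rw [natAbs_discr_eq_absNorm_differentIdeal_mul_natAbs_discr_pow K (𝓞 K) L (𝓞 L)]
  exact Nat.mul_le_mul_right _ hnorm2

end gal

end Pool.Agent.Lib.MP_ca2859_nt
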