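import Mathlib
import Pool.Agent.Lib.MP_ca2859_nt.Ram

open NumberField IsDedekindDomain Pointwise

set_option linter.unusedSectionVars false

namespace Pool.Agent.Lib.MP_ca2859_nt

section gal
variable {K L : Type} [Field K] [NumberField K] [Field L] [NumberField L] [Algebra K L]
  [IsGalois K L]

theorem unram_of_inertia (P : Ideal (𝓞 L)) [P.IsPrime] (hP : P ≠ ⊥)
    (h : ∀ σ : L ≃ₐ[K] L, (∀ x : 𝓞 L, galRestrict (𝓞 K) K L (𝓞 L) σ x - x ∈ P) → σ = 1) :
    P.ramificationIdx (𝓞 K) = 1 := by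
  let p := P.under (𝓞 K)
  let : MulSemiringAction Gal(L/K) (𝓞 L) := IsIntegralClosure.MulSemiringAction (𝓞 K) K L (𝓞 L)
  have : IsGaloisGroup Gal(L/K) (𝓞 K) (𝓞 L) := IsGaloisGroup.of_isFractionRing _ _ _ K L
  have hp0 : p ≠ ⊥ := by
    intro h0
    exact hP (Ideal.eq_bot_of_comap_eq_bot h0)
  have : p.IsMaximal := Ring.DimensionLEOne.maximalOfPrime hp0 inferInstance
  have : Finite (𝓞 K ⧸ p) := Ideal.finiteQuotientOfFreeOfNeBot p hp0
  have : Finite p.ResidueField := 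
    Finite.of_surjective _ (Ideal.bijective_algebraMap_quotient_residueField p).2
  have h1 := Ideal.card_inertia_eq_ramificationIdxIn (G := Gal(L/K)) p P
  rw [Ideal.ramificationIdxIn_eq_ramificationIdx p P Gal(L/K)] at h1
  rw [← h1, Nat.card_eq_one_iff_unique]
  refine ⟨⟨fun a b => ?_⟩, ⟨1⟩⟩
  have key : ∀ a : P.inertia Gal(L/K), (a : L ≃ₐ[K] L) = 1 := by
    intro a
    apply h
    intro x
    exact a.2 x
  exact Subtype.ext ((key a).trans (key b).symm)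

theorem not_dvd_of_inertia (P : Ideal (𝓞 L)) [P.IsPrime] (hP : P ≠ ⊥)
    (h : ∀ σ : L ≃ₐ[K] L, (∀ x : 𝓞 L, galRestrict (𝓞 K) K L (𝓞 L) σ x - x ∈ P) → σ = 1) :
    ¬ P ∣ differentIdeal (𝓞 K) (𝓞 L) := by
  have h0 := unram_of_inertia P hP h
  let p := P.under (𝓞 K)
  have hp0 : p ≠ ⊥ := by
    intro h0
    exact hP (Ideal.eq_bot_of_comap_eq_bot h0)
  have : p.IsMaximal := Ring.DimensionLEOne.maximalOfPrime hp0 inferInstance
  have : Finite (𝓞 K ⧸ p) := Ideal.finiteQuotientOfFreeOfNeBot p hp0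
  have : Finite p.ResidueField := 
    Finite.of_surjective _ (Ideal.bijective_algebraMap_quotient_residueField p).2
  rw [not_dvd_differentIdeal_iff, ← Ideal.ramificationIdx_eq_one_iff]
  exact h0

theorem ramIdx_one_of_inertia (v : HeightOneSpectrum (𝓞 K)) (w : HeightOneSpectrum (𝓞 L))
    [w.asIdeal.LiesOver v.asIdeal]
    (h : ∀ σ : L ≃ₐ[K] L, (∀ x : 𝓞 L, galRestrict (𝓞 K) K L (𝓞 L) σ x - x ∈ w.asIdeal) → σ = 1) :
    Ideal.ramificationIdx' v.asIdeal w.asIdeal = 1 := by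
  rw [Ideal.ramificationIdx'_eq_ramificationIdx _ _ v.ne_bot]
  exact unram_of_inertia w.asIdeal w.ne_bot h

end gal

end Pool.Agent.Lib.MP_ca2859_nt
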