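import Mathlib
import Pool.Agent.Lib.MP_ca2859_nt.FixedD
import Pool.Agent.Lib.MP_ca2859_nt.Ram2

open Polynomial WithZero IsDedekindDomain NumberField

set_option linter.unusedSectionVars false

namespace Pool.Agent.Lib.MP_ca2859_nt

section nf
variable {K : Type} [Field K] [NumberField K] {L : Type} [Field L] [NumberField L] [Algebra K L]
  [IsGalois K L]

/-- an automorphism fixing the roots is trivial -/
theorem aut_eq_of_roots {n : ℕ} (f : K[X]) [f.IsSplittingField K L] (hf0 : f ≠ 0) (a : L)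
    (α : Fin n → L) (π : (L ≃ₐ[K] L) → Fin n → Fin n) (h : RootData n f a α π)
    (σ τ : L ≃ₐ[K] L) (hστ : π σ = π τ) : σ = τ := by
  have h1 : (σ : L →ₐ[K] L) = (τ : L →ₐ[K] L) := by
    apply AlgHom.ext_of_adjoin_eq_top (IsSplittingField.adjoin_rootSet L f)
    intro x hx
    rw [mem_rootSet_of_ne hf0] at hx
    have h2 : (f.map (algebraMap K L)).eval x = 0 := by rw [eval_map_algebraMap]; exact hx
    rw [h.split, eval_mul, eval_C, eval_prod, mul_eq_zero] at h2
    have h3 := h2.resolve_left h.a0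
    rw [Finset.prod_eq_zero_iff] at h3
    obtain ⟨j, -, hj⟩ := h3
    simp only [eval_sub, eval_X, eval_C] at hj
    have hxj : x = α j := by linear_combination hj
    rw [hxj]
    change σ (α j) = τ (α j)
    rw [h.act, h.act, hστ]
  ext x
  exact congrArg (fun φ : L →ₐ[K] L => φ x) h1

theorem finrank_le_of_roots {n : ℕ} (f : K[X]) [f.IsSplittingField K L] (hf0 : f ≠ 0) (a : L)
    (α : Fin n → L) (π : (L ≃ₐ[K] L) → Fin n → Fin n) (h : RootData n f a α π) :
    Module.finrank K L ≤ n ^ n := by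
  classical
  rw [← IsGalois.card_aut_eq_finrank, Nat.card_eq_fintype_card]
  have h1 : Fintype.card (Fin n → Fin n) = n ^ n := by simp
  rw [← h1]
  apply Fintype.card_le_of_injective π
  intro σ τ hστ
  exact aut_eq_of_roots f hf0 a α π h σ τ hστ

/-- the inertia group is trivial at good places -/
theorem inertia_of_good (g : ℕ) (hg : 1 ≤ g) (f : K[X]) [f.IsSplittingField K L]
    (hf : IsHyperelliptic g f) (hf0 : f ≠ 0)
    (v : HeightOneSpectrum (𝓞 K)) (w : HeightOneSpectrum (𝓞 L)) [w.asIdeal.LiesOver v.asIdeal]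
    (hgood : discExp g f v = 0) (h2 : v.valuation K (2 : K) = 1)
    (hn : v.valuation K ((2 * g + 2 : ℕ) : K) = 1) (a : L)
    (α : Fin (2 * g + 2) → L) (π : (L ≃ₐ[K] L) → Fin (2 * g + 2) → Fin (2 * g + 2))
    (h : RootData (2 * g + 2) f a α π) (σ : L ≃ₐ[K] L)
    (hσ : ∀ x : 𝓞 L, galRestrict (𝓞 K) K L (𝓞 L) σ x - x ∈ w.asIdeal) : σ = 1 := by
  obtain ⟨c₁, α₀, ρ, hfar⟩ := good_far g hg f hf v w hgood h2 hn a h.a0 α h.split
  apply aut_eq_of_roots f hf0 a α π h
  have h3 : ∀ j, π σ j = j := fun j =>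
    inertia_trivial w σ hσ a α c₁ α₀ ρ hfar (π σ) (h.act σ) j
  have h4 : ∀ j, π 1 j = j := by
    intro j
    apply h.inj
    rw [← h.act]
    rfl
  funext j
  rw [h3, h4]

theorem finrank_tower_le (D : ℕ) (h : Module.finrank K L ≤ D) :
    Module.finrank ℚ L ≤ Module.finrank ℚ K * D := by
  rw [← Module.finrank_mul_finrank ℚ K L]
  exact Nat.mul_le_mul_left _ h

end nf

section bad
variable {K : Type} [Field K] [NumberField K]

theorem MC_eq_prod (g : ℕ) (F : K[X]) (hF : IsHyperelliptic g F) :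
    MC g F = ∏ v ∈ (finite_bad g F hF).toFinset, Ideal.absNorm v.asIdeal := by
  classical
  rw [MC, finprod_eq_prod_of_mulSupport_subset (s := (finite_bad g F hF).toFinset)]
  · apply Finset.prod_congr rfl
    intro v hv
    rw [Set.Finite.mem_toFinset] at hv
    exact if_neg hv
  · intro v hv
    rw [Finset.mem_coe, Set.Finite.mem_toFinset]
    intro h0
    exact hv (by simp [h0])

/-- the places dividing `2 (2 g + 2)` -/
theorem finite_B0 (K : Type) [Field K] [NumberField K] (g : ℕ) : {v : HeightOneSpectrum (𝓞 K) |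
    ¬ (v.valuation K (2 : K) = 1 ∧ v.valuation K ((2 * g + 2 : ℕ) : K) = 1)}.Finite := by
  have h2 : (2 : K) ≠ 0 := two_ne_zero
  have hn : ((2 * g + 2 : ℕ) : K) ≠ 0 := by
    rw [Nat.cast_ne_zero]; omega
  refine ((finite_val_ne_one (2 : K) h2).union (finite_val_ne_one _ hn)).subset ?_
  intro v hv
  simp only [Set.mem_ofPred_eq, not_and_or] at hv
  exact hv

noncomputable def B0 (K : Type) [Field K] [NumberField K] (g : ℕ) :
    Finset (HeightOneSpectrum (𝓞 K)) := (finite_B0 K g).toFinset

theorem not_mem_B0 (g : ℕ) (v : HeightOneSpectrum (𝓞 K)) (hv : v ∉ B0 K g) :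
    v.valuation K (2 : K) = 1 ∧ v.valuation K ((2 * g + 2 : ℕ) : K) = 1 := by
  rw [B0, Set.Finite.mem_toFinset] at hv
  by_contra h
  exact hv h

open Classical in
/-- the exceptional set of places of a curve -/
noncomputable def SB (g : ℕ) (F : K[X]) : Finset (HeightOneSpectrum (𝓞 K)) :=
  if hF : IsHyperelliptic g F then (finite_bad g F hF).toFinset ∪ B0 K g else ∅

theorem not_mem_SB (g : ℕ) (F : K[X]) (hF : IsHyperelliptic g F) (v : HeightOneSpectrum (𝓞 K))
    (hv : v ∉ SB g F) : v.valuation K (2 : K) = 1 ∧ v.valuation K ((2 * g + 2 : ℕ) : K) = 1 ∧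
      discExp g F v = 0 := by
  classical
  rw [SB, dif_pos hF, Finset.mem_union, not_or] at hv
  obtain ⟨h1, h2⟩ := hv
  obtain ⟨h3, h4⟩ := not_mem_B0 g v h2
  refine ⟨h3, h4, ?_⟩
  rw [Set.Finite.mem_toFinset] at h1
  by_contra h
  exact h1 h

theorem prod_SB_le (g : ℕ) (F : K[X]) (hF : IsHyperelliptic g F) :
    ∏ v ∈ SB g F, Ideal.absNorm v.asIdeal ≤ MC g F * ∏ v ∈ B0 K g, Ideal.absNorm v.asIdeal := by
  classical
  rw [SB, dif_pos hF, MC_eq_prod g F hF, ← Finset.prod_union_inter]
  apply Nat.le_mul_of_pos_right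
  apply Finset.prod_pos
  intro v _
  have := one_le_absNorm v; omega

end bad

section spl
variable {K : Type} [Field K] [NumberField K]

/-- the splitting field, as a subfield of an algebraic closure -/
noncomputable def spl (f : K[X]) : IntermediateField K (AlgebraicClosure K) :=
  IntermediateField.adjoin K (f.rootSet (AlgebraicClosure K))

instance spl_split (f : K[X]) : f.IsSplittingField K (spl f) :=
  IntermediateField.adjoin_rootSet_isSplittingField (IsAlgClosed.splits _)

instance spl_fin (f : K[X]) : FiniteDimensional K (spl f) :=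
  IsSplittingField.finiteDimensional (spl f) f

instance spl_nf (f : K[X]) : NumberField (spl f) := NumberField.of_module_finite K (spl f)

theorem spl_galois (f : K[X]) (hf : f.Separable) : IsGalois K (spl f) :=
  IsGalois.of_separable_splitting_field hf

end spl

end Pool.Agent.Lib.MP_ca2859_nt
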