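import Mathlib
import Pool.Agent.Lib.MP_ca2859_nt.SplitD
import Pool.Agent.Lib.MP_ca2859_nt.FieldCount

open Polynomial WithZero IsDedekindDomain NumberField

set_option linter.unusedSectionVars false

namespace Pool.Agent.Lib.MP_ca2859_nt

section count
variable (K : Type) [Field K] [NumberField K]

theorem ideal_finite (s : ℝ) : {I : Ideal (𝓞 K) | (Ideal.absNorm I : ℝ) ≤ s}.Finite := by
  refine (Ideal.finite_setOfPred_absNorm_le (S := 𝓞 K) ⌊s⌋₊).subset ?_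
  intro I hI
  simp only [Set.mem_ofPred_eq] at hI ⊢
  exact Nat.le_floor hI

theorem ideal_count : ∃ c : ℝ, 1 ≤ c ∧ ∀ s : ℝ, 1 ≤ s →
    (({I : Ideal (𝓞 K) | (Ideal.absNorm I : ℝ) ≤ s}.ncard : ℕ) : ℝ) ≤ c * s := by
  have h := NumberField.Ideal.tendsto_norm_le_div_atTop K
  set ℓ := (2 ^ InfinitePlace.nrRealPlaces K * (2 * Real.pi) ^ InfinitePlace.nrComplexPlaces K *
    Units.regulator K * classNumber K) / (Units.torsionOrder K * Real.sqrt |discr K|) with hℓ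
  have hℓ0 : 0 ≤ ℓ := by
    rw [hℓ]
    have := (Units.regulator_pos K).le
    positivity
  have h1 : ∀ᶠ s : ℝ in Filter.atTop,
      (Nat.card {I : Ideal (𝓞 K) // (Ideal.absNorm I : ℝ) ≤ s} : ℝ) / s < ℓ + 1 :=
    h.eventually (gt_mem_nhds (by linarith))
  obtain ⟨s₀, hs₀⟩ := Filter.eventually_atTop.1 h1
  set s₁ := max s₀ 1 with hs₁
  have hs₁1 : 1 ≤ s₁ := le_max_right _ _
  refine ⟨(ℓ + 1) * s₁, ?_, ?_⟩
  · have : (1 : ℝ) * 1 ≤ (ℓ + 1) * s₁ := mul_le_mul (by linarith) hs₁1 zero_le_one (by linarith)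
    linarith
  intro s hs
  set s' := s * s₁ with hs'
  have hs's : s ≤ s' := by nlinarith
  have hs'1 : s₁ ≤ s' := by nlinarith
  have h2 : {I : Ideal (𝓞 K) | (Ideal.absNorm I : ℝ) ≤ s}.ncard ≤
      {I : Ideal (𝓞 K) | (Ideal.absNorm I : ℝ) ≤ s'}.ncard := by
    apply Set.ncard_le_ncard _ (ideal_finite K s')
    intro I hI
    simp only [Set.mem_ofPred_eq] at hI ⊢
    exact hI.trans hs's
  have h3 := hs₀ s' ((le_max_left _ _).trans hs'1)
  rw [div_lt_iff₀ (by linarith)] at h3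
  have h4 : (Nat.card {I : Ideal (𝓞 K) // (Ideal.absNorm I : ℝ) ≤ s'} : ℝ) =
      {I : Ideal (𝓞 K) | (Ideal.absNorm I : ℝ) ≤ s'}.ncard := rfl
  rw [h4] at h3
  calc (({I : Ideal (𝓞 K) | (Ideal.absNorm I : ℝ) ≤ s}.ncard : ℕ) : ℝ)
      ≤ {I : Ideal (𝓞 K) | (Ideal.absNorm I : ℝ) ≤ s'}.ncard := by exact_mod_cast h2
    _ ≤ (ℓ + 1) * s' := h3.le
    _ = (ℓ + 1) * s₁ * s := by rw [hs']; ring

theorem sets_count : ∃ c : ℝ, 1 ≤ c ∧ ∀ R : ℕ, 1 ≤ R →
    ∀ 𝒮 : Finset (Finset (HeightOneSpectrum (𝓞 K))),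
    (∀ S ∈ 𝒮, ∏ v ∈ S, Ideal.absNorm v.asIdeal ≤ R) → (𝒮.card : ℝ) ≤ c * R := by
  classical
  obtain ⟨c, hc, h⟩ := ideal_count K
  refine ⟨c, hc, ?_⟩
  intro R hR 𝒮 h𝒮
  refine le_trans ?_ (h R (by exact_mod_cast hR))
  set φ : Finset (HeightOneSpectrum (𝓞 K)) → Ideal (𝓞 K) := fun S => ∏ v ∈ S, v.asIdeal with hφ
  have hmem : ∀ (S : Finset (HeightOneSpectrum (𝓞 K))) (v : HeightOneSpectrum (𝓞 K)),
      v ∈ S ↔ v.asIdeal ∣ φ S := by
    intro S v
    constructor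
    · intro hv; exact Finset.dvd_prod_of_mem _ hv
    · intro hv
      have hp : Prime v.asIdeal := v.prime
      obtain ⟨v', hv', hd⟩ := (Prime.dvd_finsetProd_iff hp _).1 hv
      have h1 : v'.asIdeal ≤ v.asIdeal := Ideal.dvd_iff_le.1 hd
      have h2 := v'.isMaximal.eq_of_le v.isPrime.ne_top h1
      have h3 : v' = v := HeightOneSpectrum.ext h2
      rwa [h3] at hv'
  have hinj : Function.Injective φ := by
    intro S S' hSS
    ext v
    rw [hmem, hmem, hSS]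
  rw [← Finset.card_image_of_injective 𝒮 hinj, ← Set.ncard_coe_finset]
  have : ((𝒮.image φ : Finset (Ideal (𝓞 K))) : Set (Ideal (𝓞 K))) ⊆
      {I : Ideal (𝓞 K) | (Ideal.absNorm I : ℝ) ≤ R} := by
    intro I hI
    rw [Finset.mem_coe, Finset.mem_image] at hI
    obtain ⟨S, hS, rfl⟩ := hI
    simp only [Set.mem_ofPred_eq, hφ, map_prod]
    exact_mod_cast h𝒮 S hS
  exact_mod_cast Set.ncard_le_ncard this (ideal_finite K R)

end count

section disc
variable {K : Type} [Field K] [NumberField K]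

theorem spl_discr (g : ℕ) (hg : 1 ≤ g) (f : K[X]) (hf : IsHyperelliptic g f)
    (hfd : f.natDegree = 2 * g + 2) (R : ℕ) (hR : MC g f ≤ R) :
    Module.finrank K (spl f) ≤ (2 * g + 2) ^ (2 * g + 2) ∧
    (discr (spl f)).natAbs ≤ ((((2 * g + 2) ^ (2 * g + 2)) ^ (Module.finrank ℚ K) *
      (R * ∏ v ∈ B0 K g, Ideal.absNorm v.asIdeal)) ^ ((2 * g + 2) ^ (2 * g + 2))) *
      (discr K).natAbs ^ ((2 * g + 2) ^ (2 * g + 2)) := by
  classical
  have hgal : IsGalois K (spl f) := spl_galois f hf.1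
  have hf0 : f ≠ 0 := by
    rintro rfl
    rw [natDegree_zero] at hfd; omega
  obtain ⟨a, α, π, hdata⟩ := exists_rootData (L := spl f) (2 * g + 2) f hfd (by omega) hf.1
    (IsSplittingField.splits (spl f) f)
  have hfin := finrank_le_of_roots f hf0 a α π hdata
  refine ⟨hfin, ?_⟩
  have h1 := discr_bound (K := K) (L := spl f) (SB g f) (by
    intro P hP hP0 hdvd
    by_contra hcon
    push Not at hcon
    let w : HeightOneSpectrum (𝓞 (spl f)) := ⟨P, hP, hP0⟩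
    obtain ⟨v, hv⟩ := exists_place_below (K := K) w
    have hvS : v ∉ SB g f := fun h => hcon v h hv
    obtain ⟨g1, g2, g3⟩ := not_mem_SB g f hf v hvS
    exact not_dvd_of_inertia P hP0 (fun σ hσ =>
      inertia_of_good g hg f hf hf0 v w g3 g1 g2 a α π hdata σ hσ) hdvd)
  refine h1.trans ?_
  have hd0 : 1 ≤ (discr K).natAbs := Nat.one_le_iff_ne_zero.2 (Int.natAbs_ne_zero.2 (discr_ne_zero K))
  have hN : ∏ v ∈ SB g f, Ideal.absNorm v.asIdeal ≤ R * ∏ v ∈ B0 K g, Ideal.absNorm v.asIdeal :=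
    (prod_SB_le g f hf).trans (Nat.mul_le_mul_right _ hR)
  have hN1 : 1 ≤ ∏ v ∈ SB g f, Ideal.absNorm v.asIdeal :=
    Finset.one_le_prod' fun v _ => one_le_absNorm v
  have hm1 : 1 ≤ Module.finrank K (spl f) := Module.finrank_pos
  apply Nat.mul_le_mul
  · refine (Nat.pow_le_pow_left (Nat.mul_le_mul (Nat.pow_le_pow_left hfin _) hN) _).trans
      (Nat.pow_le_pow_right ?_ hfin)
    apply Nat.mul_pos
    · positivity
    · omega
  · exact Nat.pow_le_pow_right hd0 hfin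

end disc

end Pool.Agent.Lib.MP_ca2859_nt
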