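import Mathlib
import Pool.Agent.Lib.MP_ca2859_nt.Arch

open Polynomial WithZero IsDedekindDomain NumberField

namespace Pool.Agent.Lib.MP_ca2859_nt

section
variable (K : Type) [Field K] [NumberField K]

/-- elements with a given discriminant -/
theorem shift_card_int (n : ℕ) (hn : 2 ≤ n) (f : (𝓞 K)[X]) (hfd : f.natDegree ≤ n)
    (hc : f.coeff n ≠ 0) (D : 𝓞 K) (S : Finset (𝓞 K)) (hS : ∀ x ∈ S, RR n (f + C x) = D) :
    S.card ≤ n - 1 := by
  classical
  have hinj : Function.Injective (algebraMap (𝓞 K) K) := FaithfulSMul.algebraMap_injective _ _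
  have h1 := RR_shift_card n hn (f.map (algebraMap (𝓞 K) K)) (by
    rw [natDegree_map_eq_of_injective hinj]; exact hfd) (by
    rw [coeff_map, Ne, FaithfulSMul.algebraMap_eq_zero_iff]; exact hc) (algebraMap (𝓞 K) K D)
    (S.image (algebraMap (𝓞 K) K)) (by
      intro y hy
      obtain ⟨x, hx, rfl⟩ := Finset.mem_image.1 hy
      rw [← hS x hx, ← RR_map]
      congr 1
      rw [Polynomial.map_add, map_C])
  rwa [Finset.card_image_of_injective _ hinj] at h1

theorem fiber_count (g : ℕ) (hg : 1 ≤ g) (ε : ℝ) (hε : 0 < ε) : ∃ c : ℝ, 0 < c ∧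
    ∀ (f : (𝓞 K)[X]), f.natDegree ≤ 2 * g + 2 → f.coeff (2 * g + 2) ≠ 0 →
    RR (2 * g + 1) (derivative f) ≠ 0 → ∀ Q : ℝ, 1 ≤ Q →
    (((Algebra.norm ℤ (RR (2 * g + 1) (derivative f))).natAbs : ℕ) : ℝ) ≤ Q ^ Module.finrank ℚ K →
    ∀ M : ℕ, 1 ≤ M → ∀ S : Finset (𝓞 K),
    (∀ x ∈ S, RR (2 * g + 2) (f + C x) ≠ 0 ∧
      (∀ w : InfinitePlace K, w ((RR (2 * g + 2) (f + C x) : 𝓞 K) : K) ≤ Q) ∧
      MC g ((f + C x).map (algebraMap (𝓞 K) K)) ≤ M) →
    (S.card : ℝ) ≤ c * (M : ℝ) ^ (1 + ε) * Q ^ ε := by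
  classical
  set d := Module.finrank ℚ K with hd
  have hd1 : 1 ≤ d := Module.finrank_pos
  set n := 2 * g + 2 with hn
  set ε₁ := ε / (3 * d + 1) with hε₁
  have hε₁0 : 0 < ε₁ := by positivity
  obtain ⟨C₁, hC₁, hvec⟩ := vec_count K ε₁ hε₁0
  obtain ⟨C₂, hC₂, hunits⟩ := units_card K ε₁ hε₁0
  refine ⟨C₁ * C₂ * n * ((2 * n : ℝ)) ^ ε₁, by positivity, ?_⟩
  intro f hfd hfc hE Q hQ hNE M hM S hS
  have hQ0 : 0 < Q := by linarith
  set E := (Algebra.norm ℤ (RR (2 * g + 1) (derivative f))).natAbs with hEdef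
  have hE0 : 0 < E := Int.natAbs_pos.2 (Algebra.norm_ne_zero_iff.2 hE)
  -- basic facts about the members
  have hcoefn : ∀ x : 𝓞 K, (f + C x).coeff n = f.coeff n := by
    intro x
    rw [coeff_add, coeff_C, if_neg (by omega), add_zero]
  have hdegx : ∀ x : 𝓞 K, (f + C x).natDegree = n := by
    intro x
    apply le_antisymm
    · refine (natDegree_add_le _ _).trans ?_
      simp [hfd]
    · apply le_natDegree_of_ne_zero
      rw [hcoefn]; exact hfc
  have hinj : Function.Injective (algebraMap (𝓞 K) K) := FaithfulSMul.algebraMap_injective _ _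
  have hyper : ∀ x ∈ S, IsHyperelliptic g ((f + C x).map (algebraMap (𝓞 K) K)) := by
    intro x hx
    apply hyper_of_RR
    · rw [natDegree_map_eq_of_injective hinj, hdegx]
    · rw [RR_map, Ne, FaithfulSMul.algebraMap_eq_zero_iff]
      exact (hS x hx).1
  have hder : ∀ x : 𝓞 K, derivative (f + C x) = derivative f := by
    intro x; rw [derivative_add, derivative_C, add_zero]
  -- the bound for each value of the conductor
  have hm : ∀ m ∈ Finset.Icc 1 M,
      ((S.filter (fun x => MC g ((f + C x).map (algebraMap (𝓞 K) K)) = m)).card : ℝ) ≤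
      (C₁ * (Q ^ d) ^ ε₁ * (((2 * n) * E * M : ℕ) : ℝ) ^ ε₁) * (n * (C₂ * (Q ^ (d + 1)) ^ ε₁)) := by
    intro m hm
    rw [Finset.mem_Icc] at hm
    set Sm := S.filter (fun x => MC g ((f + C x).map (algebraMap (𝓞 K) K)) = m) with hSm
    have hSmS : ∀ x ∈ Sm, x ∈ S := fun x hx => (Finset.mem_filter.1 hx).1
    set Fm : ℕ := (2 * n) * E * m with hFm
    have hm0 : 0 < m := hm.1
    have hn0 : 0 < n := by omega
    have hFm0 : 0 < Fm := by positivity
    have hFmfin : {v : HeightOneSpectrum (𝓞 K) | (Fm : 𝓞 K) ∈ v.asIdeal}.Finite := by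
      have hF0 : (Fm : 𝓞 K) ≠ 0 := by exact_mod_cast hFm0.ne'
      refine (cntx_finite (Fm : 𝓞 K) hF0).subset ?_
      intro v hv
      simp only [Set.mem_ofPred_eq] at hv ⊢
      have := one_le_cnt Fm hFm0 v hv
      rw [cnt] at this
      rw [cntx]
      omega
    set T := hFmfin.toFinset with hT
    set vec : 𝓞 K → (HeightOneSpectrum (𝓞 K) → ℕ) := fun x => cntx (RR n (f + C x)) with hvecdef
    have hA : ((Sm.image vec).card : ℝ) ≤ C₁ * (Q ^ d) ^ ε₁ * (Fm : ℝ) ^ ε₁ := by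
      apply hvec Fm hFm0 (Q ^ d) (one_le_pow₀ hQ) T
      · intro v hv
        rw [hT, Set.Finite.mem_toFinset] at hv
        exact hv
      · intro k hk v hv
        obtain ⟨x, hx, rfl⟩ := Finset.mem_image.1 hk
        by_contra hne
        apply hv
        rw [hT, Set.Finite.mem_toFinset]
        have h1 := support_disc g hg (f + C x) (hyper x (hSmS x hx)) (hS x (hSmS x hx)).1 v hne
        rw [hder, (Finset.mem_filter.1 hx).2] at h1
        exact h1
      · intro k hk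
        obtain ⟨x, hx, rfl⟩ := Finset.mem_image.1 hk
        have h1 := prod_cntx_le _ (hS x (hSmS x hx)).1 T
        have h2 := norm_le_of_places _ Q (hS x (hSmS x hx)).2.1
        refine le_trans ?_ h2
        exact_mod_cast h1
    have hfib : ∀ b ∈ Sm.image vec, ((Sm.filter (fun x => vec x = b)).card : ℝ) ≤
        n * (C₂ * (Q ^ (d + 1)) ^ ε₁) := by
      intro b hb
      obtain ⟨x₀, hx₀, rfl⟩ := Finset.mem_image.1 hb
      have hx₀S := hSmS x₀ hx₀
      set D₀ := RR n (f + C x₀) with hD₀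
      have hD₀0 : D₀ ≠ 0 := (hS x₀ hx₀S).1
      -- the units
      have hu : ∀ x ∈ Sm.filter (fun x => vec x = vec x₀), ∃ u : (𝓞 K)ˣ, RR n (f + C x) = u * D₀ := by
        intro x hx
        obtain ⟨hx1, hx2⟩ := Finset.mem_filter.1 hx
        exact assoc_of_cntx _ _ (hS x (hSmS x hx1)).1 hD₀0 (fun v => congrFun hx2 v)
      choose! u hu using hu
      set Fib := Sm.filter (fun x => vec x = vec x₀) with hFib
      have hU : ((Fib.image u).card : ℝ) ≤ C₂ * (Q ^ (d + 1)) ^ ε₁ := by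
        apply hunits _ (one_le_pow₀ hQ)
        intro u' hu' w
        obtain ⟨x, hx, rfl⟩ := Finset.mem_image.1 hu'
        have hx1 := (Finset.mem_filter.1 hx).1
        have h1 : w ((u x : 𝓞 K) : K) * w ((D₀ : 𝓞 K) : K) ≤ Q := by
          have h2 := (hS x (hSmS x hx1)).2.1 w
          rw [hu x hx] at h2
          rw [← map_mul]
          refine le_trans (le_of_eq ?_) h2
          congr 1
        have h2 := place_lower D₀ hD₀0 Q hQ (hS x₀ hx₀S).2.1 w
        have h3 : 0 ≤ w ((u x : 𝓞 K) : K) := apply_nonneg w _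
        calc w ((u x : 𝓞 K) : K) = w ((u x : 𝓞 K) : K) * 1 := (mul_one _).symm
          _ ≤ w ((u x : 𝓞 K) : K) * (w ((D₀ : 𝓞 K) : K) * Q ^ d) := by gcongr
          _ = (w ((u x : 𝓞 K) : K) * w ((D₀ : 𝓞 K) : K)) * Q ^ d := by ring
          _ ≤ Q * Q ^ d := by gcongr
          _ = Q ^ (d + 1) := by ring
      have hcard := Finset.card_le_mul_card_image (f := u) Fib (n - 1) (by
        intro b hb
        obtain ⟨x₁, hx₁, rfl⟩ := Finset.mem_image.1 hb
        apply shift_card_int K n (by omega) f hfd hfc (u x₁ * D₀)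
        intro x hx
        obtain ⟨hx1, hx2⟩ := Finset.mem_filter.1 hx
        rw [hu x hx1, hx2])
      calc (Fib.card : ℝ) ≤ (((n - 1) * (Fib.image u).card : ℕ) : ℝ) := by exact_mod_cast hcard
        _ = ((n - 1 : ℕ) : ℝ) * ((Fib.image u).card : ℝ) := by push_cast; ring
        _ ≤ n * (C₂ * (Q ^ (d + 1)) ^ ε₁) := by
            have : ((n - 1 : ℕ) : ℝ) ≤ n := by exact_mod_cast Nat.sub_le n 1
            gcongr
    have hsum := Finset.card_eq_sum_card_image vec Sm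
    calc (Sm.card : ℝ) = ∑ b ∈ Sm.image vec, ((Sm.filter (fun x => vec x = b)).card : ℝ) := by
          rw [hsum]; push_cast; rfl
      _ ≤ ∑ b ∈ Sm.image vec, n * (C₂ * (Q ^ (d + 1)) ^ ε₁) := Finset.sum_le_sum hfib
      _ = ((Sm.image vec).card : ℝ) * (n * (C₂ * (Q ^ (d + 1)) ^ ε₁)) := by
          rw [Finset.sum_const, nsmul_eq_mul]
      _ ≤ (C₁ * (Q ^ d) ^ ε₁ * (Fm : ℝ) ^ ε₁) * (n * (C₂ * (Q ^ (d + 1)) ^ ε₁)) := by gcongr
      _ ≤ _ := by
          have : (Fm : ℝ) ≤ (((2 * n) * E * M : ℕ) : ℝ) := by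
            have : Fm ≤ (2 * n) * E * M := by
              rw [hFm]
              exact Nat.mul_le_mul_left _ hm.2
            exact_mod_cast this
          gcongr
  have hmaps : ∀ x ∈ S, MC g ((f + C x).map (algebraMap (𝓞 K) K)) ∈ Finset.Icc 1 M := by
    intro x hx
    rw [Finset.mem_Icc]
    exact ⟨MC_pos g _ (hyper x hx), (hS x hx).2.2⟩
  have hsum := Finset.card_eq_sum_card_fiberwise hmaps
  have hMR : (1:ℝ) ≤ M := by exact_mod_cast hM
  calc (S.card : ℝ) = ∑ m ∈ Finset.Icc 1 M,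
        ((S.filter (fun x => MC g ((f + C x).map (algebraMap (𝓞 K) K)) = m)).card : ℝ) := by
        rw [hsum]; push_cast; rfl
    _ ≤ ∑ m ∈ Finset.Icc 1 M, (C₁ * (Q ^ d) ^ ε₁ * (((2 * n) * E * M : ℕ) : ℝ) ^ ε₁) *
        (n * (C₂ * (Q ^ (d + 1)) ^ ε₁)) := Finset.sum_le_sum hm
    _ = (M : ℝ) * ((C₁ * (Q ^ d) ^ ε₁ * (((2 * n) * E * M : ℕ) : ℝ) ^ ε₁) *
        (n * (C₂ * (Q ^ (d + 1)) ^ ε₁))) := by
        rw [Finset.sum_const, nsmul_eq_mul, Nat.card_Icc, Nat.add_sub_cancel]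
    _ ≤ (M : ℝ) * ((C₁ * (Q ^ d) ^ ε₁ * ((2 * n : ℝ) * Q ^ d * M) ^ ε₁) *
        (n * (C₂ * (Q ^ (d + 1)) ^ ε₁))) := by
        have h1 : (((2 * n) * E * M : ℕ) : ℝ) ≤ (2 * n : ℝ) * Q ^ d * M := by
          push_cast
          gcongr
        gcongr
    _ = C₁ * C₂ * n * ((2 * n : ℝ)) ^ ε₁ * ((M : ℝ) * (M : ℝ) ^ ε₁) *
        ((Q ^ d) ^ ε₁ * (Q ^ d) ^ ε₁ * (Q ^ (d + 1)) ^ ε₁) := by
        rw [Real.mul_rpow (by positivity) (by positivity), Real.mul_rpow (by positivity) (by positivity)]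
        ring
    _ ≤ C₁ * C₂ * n * ((2 * n : ℝ)) ^ ε₁ * (M : ℝ) ^ (1 + ε) * Q ^ ε := by
        have e1 : (M : ℝ) * (M : ℝ) ^ ε₁ ≤ (M : ℝ) ^ (1 + ε) := by
          have h1 : (M : ℝ) * (M : ℝ) ^ ε₁ = (M : ℝ) ^ (1 + ε₁) := by
            rw [Real.rpow_add (by linarith), Real.rpow_one]
          rw [h1]
          apply Real.rpow_le_rpow_of_exponent_le hMR
          have : ε₁ ≤ ε := by
            rw [hε₁]
            apply div_le_self hε.le
            have : (0:ℝ) ≤ d := Nat.cast_nonneg d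
            linarith
          linarith
        have e2 : (Q ^ d) ^ ε₁ * (Q ^ d) ^ ε₁ * (Q ^ (d + 1)) ^ ε₁ = Q ^ ε := by
          rw [← Real.rpow_natCast Q d, ← Real.rpow_natCast Q (d + 1), ← Real.rpow_mul hQ0.le,
            ← Real.rpow_mul hQ0.le, ← Real.rpow_add hQ0, ← Real.rpow_add hQ0]
          congr 1
          rw [hε₁]
          push_cast
          field_simp
          ring
        rw [e2]
        gcongr

end

end Pool.Agent.Lib.MP_ca2859_nt
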