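import Mathlib
import Pool.Agent.Lib.MP_ca2859_nt.Fiber

open Polynomial WithZero IsDedekindDomain NumberField

namespace Pool.Agent.Lib.MP_ca2859_nt

/-- Counting a subset of a box fibre by fibre in one coordinate. -/
theorem coord_count {m : ℕ} {B : Type} [DecidableEq B] (Bx : Finset B) (i₀ : Fin m)
    (S : Finset (Fin m → B)) (hS : S ⊆ Fintype.piFinset (fun _ => Bx)) (c : ℝ) (hc0 : 0 ≤ c)
    (hc : ∀ a ∈ Fintype.piFinset (fun _ : Fin m => Bx),
      ((Bx.filter (fun t => Function.update a i₀ t ∈ S)).card : ℝ) ≤ c) :
    (S.card : ℝ) ≤ c * (Bx.card : ℝ) ^ (m - 1) := by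
  classical
  rcases S.eq_empty_or_nonempty with rfl | ⟨a₀, ha₀⟩
  · simp only [Finset.card_empty, Nat.cast_zero]
    positivity
  · have ha₀' := hS ha₀
    set b₀ := a₀ i₀ with hb₀
    have hb₀' : b₀ ∈ Bx := (Fintype.mem_piFinset.1 ha₀') i₀
    set r : (Fin m → B) → (Fin m → B) := fun a => Function.update a i₀ b₀ with hr
    have himg : (S.image r).card ≤ Bx.card ^ (m - 1) := by
      have h1 : S.image r ⊆ Fintype.piFinset (fun i => if i = i₀ then {b₀} else Bx) := by
        intro b hb
        obtain ⟨a, ha, rfl⟩ := Finset.mem_image.1 hb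
        rw [Fintype.mem_piFinset]
        intro i
        simp only [hr]
        by_cases hi : i = i₀
        · subst hi
          simp
        · rw [if_neg hi, Function.update_of_ne hi]
          exact (Fintype.mem_piFinset.1 (hS ha)) i
      refine (Finset.card_le_card h1).trans (le_of_eq ?_)
      rw [Fintype.card_piFinset]
      have h2 : ∀ i : Fin m, (if i = i₀ then ({b₀} : Finset B) else Bx).card =
          if i = i₀ then 1 else Bx.card := by
        intro i; split_ifs <;> simp
      rw [Finset.prod_congr rfl fun i _ => h2 i, Finset.prod_ite]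
      simp only [Finset.prod_const_one, one_mul, Finset.prod_const]
      congr 1
      rw [Finset.filter_ne', Finset.card_erase_of_mem (Finset.mem_univ _), Finset.card_univ,
        Fintype.card_fin]
    have hfib : ∀ b ∈ S.image r, ((S.filter (fun a => r a = b)).card : ℝ) ≤ c := by
      intro b hb
      obtain ⟨a₁, ha₁, rfl⟩ := Finset.mem_image.1 hb
      have hb' : r a₁ ∈ Fintype.piFinset (fun _ : Fin m => Bx) := by
        rw [Fintype.mem_piFinset]
        intro i
        simp only [hr]
        by_cases hi : i = i₀
        · subst hi; rw [Function.update_self]; exact hb₀'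
        · rw [Function.update_of_ne hi]; exact (Fintype.mem_piFinset.1 (hS ha₁)) i
      refine le_trans ?_ (hc _ hb')
      have h1 : (S.filter (fun a => r a = r a₁)).card ≤
          (Bx.filter (fun t => Function.update (r a₁) i₀ t ∈ S)).card := by
        have hrec : ∀ a, r a = r a₁ → Function.update (r a₁) i₀ (a i₀) = a := by
          intro a h
          rw [← h]
          simp only [hr]
          rw [Function.update_idem, Function.update_eq_self]
        apply Finset.card_le_card_of_injOn (fun a => a i₀)
        · intro a ha
          rw [Finset.mem_coe, Finset.mem_filter] at ha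
          rw [Finset.mem_coe, Finset.mem_filter]
          refine ⟨(Fintype.mem_piFinset.1 (hS ha.1)) i₀, ?_⟩
          rw [hrec a ha.2]; exact ha.1
        · intro a ha a' ha' haa
          rw [Finset.mem_coe, Finset.mem_filter] at ha ha'
          simp only at haa
          rw [← hrec a ha.2, ← hrec a' ha'.2, haa]
      exact_mod_cast h1
    have hsum := Finset.card_eq_sum_card_image r S
    calc (S.card : ℝ) = ∑ b ∈ S.image r, ((S.filter (fun a => r a = b)).card : ℝ) := by
          rw [hsum]; push_cast; rfl
      _ ≤ ∑ b ∈ S.image r, c := Finset.sum_le_sum hfib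
      _ = ((S.image r).card : ℝ) * c := by rw [Finset.sum_const, nsmul_eq_mul]
      _ ≤ (Bx.card : ℝ) ^ (m - 1) * c := by
          have : ((S.image r).card : ℝ) ≤ (Bx.card : ℝ) ^ (m - 1) := by exact_mod_cast himg
          gcongr
      _ = _ := by ring

end Pool.Agent.Lib.MP_ca2859_nt
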