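import Mathlib
import Pool.Agent.Lib.MP_ca2859_nt.AssD

open Polynomial WithZero IsDedekindDomain NumberField

set_option linter.unusedSectionVars false

namespace Pool.Agent.Lib.MP_ca2859_nt

section
variable {K : Type} [Field K] [NumberField K]

/-- the number of splitting fields -/
theorem fields_count (D N : ℕ) (T : Finset (IntermediateField K (AlgebraicClosure K)))
    (hT : ∀ F ∈ T, ∃ f : K[X], F = spl f ∧ Module.finrank ℚ (spl f) ≤ D ∧
      (discr (spl f)).natAbs ≤ N) :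
    T.card ≤ D * (2 * ((N * 2 ^ D + 2) ^ D * 2 ^ D) + 1) ^ (D + 1) := by
  classical
  have hinj : Function.Injective (fun F : IntermediateField K (AlgebraicClosure K) =>
      F.restrictScalars ℚ) := IntermediateField.restrictScalars_injective ℚ
  rw [← Finset.card_image_of_injective T hinj]
  refine (field_count (AlgebraicClosure K) D N _ ?_).trans ?_
  · intro F' hF'
    obtain ⟨F, hF, rfl⟩ := Finset.mem_image.1 hF'
    obtain ⟨f, rfl, h1, h2⟩ := hT F hF
    have hfin : FiniteDimensional ℚ (spl f) := inferInstance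
    let e : (spl f) ≃ₐ[ℚ] ((spl f).restrictScalars ℚ) := AlgEquiv.refl
    have hfin' : FiniteDimensional ℚ ((spl f).restrictScalars ℚ) := hfin
    refine ⟨hfin', ?_, ?_⟩
    · exact h1
    · have h3 : (discr (spl f)).natAbs = |discr (spl f)| := Int.natCast_natAbs _
      have h4 : |discr (spl f)| ≤ N := by rw [← h3]; exact_mod_cast h2
      exact h4
  · apply Nat.mul_le_mul_left
    apply Nat.pow_le_pow_left
    apply Nat.succ_le_succ
    apply Nat.mul_le_mul_left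
    apply Nat.ceil_le.2
    push_cast
    have hs : Real.sqrt N ≤ N := by
      rcases Nat.eq_zero_or_pos N with h0 | h0
      · rw [h0]; simp
      · rw [Real.sqrt_le_left (by positivity)]
        have : (1 : ℝ) ≤ N := by exact_mod_cast h0
        nlinarith
    gcongr

/-- the number of curves with bounded conductor -/
theorem classes_count (K : Type) [Field K] [NumberField K] (g : ℕ) (hg : 1 ≤ g) :
    ∃ (A : ℝ) (k : ℕ), 1 ≤ A ∧ ∀ R : ℕ, 1 ≤ R → ∀ T : Finset K[X],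
    (∀ f ∈ T, IsHyperelliptic g f ∧ f.natDegree = 2 * g + 2 ∧ MC g f ≤ R) →
    (∀ f ∈ T, ∀ f' ∈ T, f ≠ f' → ¬ SameCurve g f f') → (T.card : ℝ) ≤ A * (R : ℝ) ^ k := by
  classical
  set M : ℕ := (2 * g + 2) ^ (2 * g + 2) with hM
  set d : ℕ := Module.finrank ℚ K with hd
  set D : ℕ := d * M with hD
  obtain ⟨C, hC1, hfix⟩ := fixed_count K g hg D
  obtain ⟨c, hc1, hsets⟩ := sets_count K
  set k₁ : ℕ := ⌈C⌉₊ with hk₁
  set N0 : ℕ := ∏ v ∈ B0 K g, Ideal.absNorm v.asIdeal with hN0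
  have hN0pos : 1 ≤ N0 := Finset.one_le_prod' fun v _ => one_le_absNorm v
  set δ : ℕ := (discr K).natAbs with hδ
  have hδ1 : 1 ≤ δ := Nat.one_le_iff_ne_zero.2 (Int.natAbs_ne_zero.2 (discr_ne_zero K))
  have hMpos : 1 ≤ M := Nat.one_le_iff_ne_zero.2 (by positivity)
  have hdpos : 1 ≤ d := Module.finrank_pos
  have hDpos : 1 ≤ D := Nat.mul_pos hdpos hMpos
  set N1 : ℕ := (M ^ d * N0) ^ M * δ ^ M with hN1
  set Q1 : ℕ := (N1 * 2 ^ D + 2) ^ D * 2 ^ D with hQ1
  refine ⟨((2 * N0) ^ k₁ : ℕ) * ((D * (2 * Q1 + 1) ^ (D + 1) : ℕ) : ℝ) * (c * N0),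
    k₁ + M * D * (D + 1) + 1, ?_, ?_⟩
  · have h1 : (1 : ℝ) ≤ ((2 * N0) ^ k₁ : ℕ) := by
      have : 1 ≤ (2 * N0) ^ k₁ := Nat.one_le_pow _ _ (by omega)
      exact_mod_cast this
    have h2 : (1 : ℝ) ≤ ((D * (2 * Q1 + 1) ^ (D + 1) : ℕ) : ℝ) := by
      have : 1 ≤ D * (2 * Q1 + 1) ^ (D + 1) := Nat.mul_pos hDpos (Nat.one_le_pow _ _ (by omega))
      exact_mod_cast this
    have h3 : (1 : ℝ) ≤ c * N0 := by
      have : (1 : ℝ) ≤ N0 := by exact_mod_cast hN0pos
      exact one_le_mul_of_one_le_of_one_le hc1 this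
    exact one_le_mul_of_one_le_of_one_le (one_le_mul_of_one_le_of_one_le h1 h2) h3
  intro R hR T hT hpair
  -- the fibres
  set W : ℕ := (2 * (R * N0)) ^ k₁ with hW
  have hSprod : ∀ f ∈ T, ∏ v ∈ SB g f, Ideal.absNorm v.asIdeal ≤ R * N0 := by
    intro f hf
    exact (prod_SB_le g f (hT f hf).1).trans (Nat.mul_le_mul_right _ (hT f hf).2.2)
  have hfib : T.card ≤ W * ((T.image fun f => spl f) ×ˢ (T.image fun f => SB g f)).card := by
    apply Finset.card_le_mul_card_image_of_maps_to (f := fun f => (spl f, SB g f))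
    · intro f hf
      exact Finset.mem_product.2 ⟨Finset.mem_image_of_mem _ hf, Finset.mem_image_of_mem _ hf⟩
    rintro ⟨F, S⟩ -
    rcases (T.filter fun f => (spl f, SB g f) = (F, S)).eq_empty_or_nonempty with h0 | ⟨f₁, hf₁⟩
    · rw [h0]; simp
    obtain ⟨hf₁T, hf₁e⟩ := Finset.mem_filter.1 hf₁
    rw [Prod.mk.injEq] at hf₁e
    obtain ⟨rfl, rfl⟩ := hf₁e
    have hf₁h := (hT f₁ hf₁T).1
    have hgal : IsGalois K (spl f₁) := spl_galois f₁ hf₁h.1
    have hf₁0 : f₁ ≠ 0 := by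
      rintro rfl
      have := (hT 0 hf₁T).2.1
      rw [natDegree_zero] at this; omega
    obtain ⟨a, α, π, hdata⟩ := exists_rootData (L := spl f₁) (2 * g + 2) f₁ (hT f₁ hf₁T).2.1
      (by omega) hf₁h.1 (IsSplittingField.splits (spl f₁) f₁)
    have hfin := finrank_le_of_roots f₁ hf₁0 a α π hdata
    have h1 := hfix (spl f₁) (finrank_tower_le M hfin) (SB g f₁)
      (fun v hv => ⟨(not_mem_SB g f₁ hf₁h v hv).1, (not_mem_SB g f₁ hf₁h v hv).2.1⟩)
      (by
        intro v hv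
        obtain ⟨w, hw⟩ := exists_place_above (K := K) (L := spl f₁) v
        refine ⟨w, hw, ?_⟩
        obtain ⟨g1, g2, g3⟩ := not_mem_SB g f₁ hf₁h v hv
        exact ramIdx_one_of_inertia v w (fun σ hσ =>
          inertia_of_good g hg f₁ hf₁h hf₁0 v w g3 g1 g2 a α π hdata σ hσ))
      (T.filter fun f => (spl f, SB g f) = (spl f₁, SB g f₁)) (by
        intro f hf
        obtain ⟨hfT, hfe⟩ := Finset.mem_filter.1 hf
        rw [Prod.mk.injEq] at hfe
        refine ⟨(hT f hfT).1, (hT f hfT).2.1, ?_, ?_⟩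
        · have h2 := IsSplittingField.splits (spl f) f
          rw [hfe.1] at h2
          exact h2
        · intro v hv
          rw [← hfe.2] at hv
          exact (not_mem_SB g f (hT f hfT).1 v hv).2.2)
      (fun f hf f' hf' => hpair f (Finset.mem_filter.1 hf).1 f' (Finset.mem_filter.1 hf').1)
    have h2 : C ^ ((SB g f₁).card + 1) ≤ ((2 ^ k₁) ^ ((SB g f₁).card + 1) : ℕ) := by
      push_cast
      apply pow_le_pow_left₀ (by linarith)
      have h3 : C ≤ k₁ := Nat.le_ceil C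
      have h4 : (k₁ : ℝ) ≤ 2 ^ k₁ := by exact_mod_cast Nat.lt_two_pow_self.le
      exact h3.trans h4
    have h3 : (2 ^ k₁) ^ ((SB g f₁).card + 1) ≤ W := by
      rw [← pow_mul, mul_comm, pow_mul, hW]
      apply Nat.pow_le_pow_left
      rw [pow_succ, mul_comm]
      apply Nat.mul_le_mul_left
      refine le_trans ?_ (hSprod f₁ hf₁T)
      rw [← Finset.prod_const]
      exact Finset.prod_le_prod' fun v _ => two_le_absNorm v
    have h4 : ((T.filter fun f => (spl f, SB g f) = (spl f₁, SB g f₁)).card : ℝ) ≤ (W : ℝ) :=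
      h1.trans (h2.trans (by exact_mod_cast h3))
    exact_mod_cast h4
  -- the number of fields
  set N : ℕ := ((M ^ d * (R * N0)) ^ M) * δ ^ M with hN
  have hfields : (T.image fun f => spl f).card ≤ D * (2 * ((N * 2 ^ D + 2) ^ D * 2 ^ D) + 1) ^ (D + 1) := by
    apply fields_count
    intro F hF
    obtain ⟨f, hf, rfl⟩ := Finset.mem_image.1 hF
    obtain ⟨h1, h2⟩ := spl_discr g hg f (hT f hf).1 (hT f hf).2.1 R (hT f hf).2.2
    have hgal : IsGalois K (spl f) := spl_galois f (hT f hf).1.1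
    exact ⟨f, rfl, finrank_tower_le M h1, h2⟩
  have hsetsc : (((T.image fun f => SB g f).card : ℕ) : ℝ) ≤ c * ((R * N0 : ℕ) : ℝ) := by
    apply hsets (R * N0) (Nat.mul_pos hR hN0pos)
    intro S hS
    obtain ⟨f, hf, rfl⟩ := Finset.mem_image.1 hS
    exact hSprod f hf
  -- arithmetic
  have hRM : 1 ≤ R ^ M := Nat.one_le_pow _ _ hR
  have eN : N = N1 * R ^ M := by
    rw [hN, hN1]; ring
  have e1 : N * 2 ^ D + 2 ≤ (N1 * 2 ^ D + 2) * R ^ M := by
    rw [eN]; nlinarith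
  have e2 : (N * 2 ^ D + 2) ^ D * 2 ^ D ≤ Q1 * R ^ (M * D) := by
    calc (N * 2 ^ D + 2) ^ D * 2 ^ D ≤ ((N1 * 2 ^ D + 2) * R ^ M) ^ D * 2 ^ D :=
          Nat.mul_le_mul_right _ (Nat.pow_le_pow_left e1 _)
      _ = Q1 * R ^ (M * D) := by rw [hQ1, mul_pow, ← pow_mul]; ring
  have hRMD : 1 ≤ R ^ (M * D) := Nat.one_le_pow _ _ hR
  have e3 : 2 * ((N * 2 ^ D + 2) ^ D * 2 ^ D) + 1 ≤ (2 * Q1 + 1) * R ^ (M * D) := by
    nlinarith [e2, hRMD]
  have e4 : D * (2 * ((N * 2 ^ D + 2) ^ D * 2 ^ D) + 1) ^ (D + 1) ≤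
      (D * (2 * Q1 + 1) ^ (D + 1)) * R ^ (M * D * (D + 1)) := by
    calc D * (2 * ((N * 2 ^ D + 2) ^ D * 2 ^ D) + 1) ^ (D + 1)
        ≤ D * ((2 * Q1 + 1) * R ^ (M * D)) ^ (D + 1) :=
          Nat.mul_le_mul_left _ (Nat.pow_le_pow_left e3 _)
      _ = (D * (2 * Q1 + 1) ^ (D + 1)) * R ^ (M * D * (D + 1)) := by
          rw [mul_pow, ← pow_mul]; ring
  have hfields' : (((T.image fun f => spl f).card : ℕ) : ℝ) ≤
      ((D * (2 * Q1 + 1) ^ (D + 1) : ℕ) : ℝ) * (R : ℝ) ^ (M * D * (D + 1)) := by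
    exact_mod_cast hfields.trans e4
  have hW' : (W : ℝ) = ((2 * N0) ^ k₁ : ℕ) * (R : ℝ) ^ k₁ := by
    rw [hW]; push_cast; ring
  have hc0 : 0 ≤ c := by linarith
  generalize (T.image fun f => spl f) = TF at hfib hfields'
  generalize (T.image fun f => SB g f) = TS at hfib hsetsc
  rw [Finset.card_product] at hfib
  have hfib' : (T.card : ℝ) ≤ W * ((TF.card : ℝ) * (TS.card : ℝ)) := by exact_mod_cast hfib
  rw [hW'] at hfib'
  clear_value Q1 N1
  calc (T.card : ℝ) ≤ (((2 * N0) ^ k₁ : ℕ) * (R : ℝ) ^ k₁) * ((TF.card : ℝ) * (TS.card : ℝ)) := hfib'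
    _ ≤ (((2 * N0) ^ k₁ : ℕ) * (R : ℝ) ^ k₁) * ((((D * (2 * Q1 + 1) ^ (D + 1) : ℕ) : ℝ) *
        (R : ℝ) ^ (M * D * (D + 1))) * (c * ((R * N0 : ℕ) : ℝ))) := by
        apply mul_le_mul_of_nonneg_left _ (mul_nonneg (Nat.cast_nonneg _) (pow_nonneg (Nat.cast_nonneg _) _))
        exact mul_le_mul hfields' hsetsc (Nat.cast_nonneg _)
          (mul_nonneg (Nat.cast_nonneg _) (pow_nonneg (Nat.cast_nonneg _) _))
    _ = _ := by
        rw [pow_succ, pow_add]
        push_cast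
        ring

end

end Pool.Agent.Lib.MP_ca2859_nt
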