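import Mathlib

namespace Pool.Agent.Lib.MP_ca2859_nt

/-- squarefree numbers up to `s ^ 2` prime to `M0` -/
def Qs (M0 s : ℕ) : Finset ℕ :=
  (Finset.Icc 1 (s ^ 2)).filter (fun q => Squarefree q ∧ q.Coprime M0)

theorem squarefree_count (M0 : ℕ) (hM0 : 0 < M0) (s : ℕ) (hs : 0 < s) :
    s ≤ M0.divisors.card * (Qs M0 s).card := by
  classical
  have hex : ∀ d : ℕ, ∃ b r q : ℕ, d ∈ Finset.Icc 1 (s ^ 2) → d = b ^ 2 * (r * q) ∧
      b ∈ Finset.Icc 1 s ∧ r ∈ M0.divisors ∧ q ∈ Qs M0 s := by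
    intro d
    by_cases hd : d ∈ Finset.Icc 1 (s ^ 2)
    · obtain ⟨a, b, hab, ha⟩ := Nat.sq_mul_squarefree d
      rw [Finset.mem_Icc] at hd
      have hb0 : b ≠ 0 := by
        rintro rfl
        simp at hab; omega
      have ha0 : a ≠ 0 := ha.ne_zero
      set r := Nat.gcd a M0 with hr
      have hr0 : 0 < r := Nat.gcd_pos_of_pos_right _ hM0
      obtain ⟨q, hq⟩ : r ∣ a := Nat.gcd_dvd_left a M0
      have hq0 : q ≠ 0 := by
        rintro rfl
        rw [mul_zero] at hq; exact ha0 hq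
      have hsq : Squarefree q := ha.squarefree_of_dvd ⟨r, by rw [hq, mul_comm]⟩
      have hrq : Nat.Coprime r q := by
        rw [hq] at ha
        exact Nat.coprime_of_squarefree_mul ha
      have hqM : q.Coprime M0 := by
        rw [Nat.coprime_iff_gcd_eq_one]
        have h1 : Nat.gcd q M0 ∣ r := Nat.dvd_gcd ((Nat.gcd_dvd_left q M0).trans ⟨r, by rw [hq, mul_comm]⟩)
          (Nat.gcd_dvd_right q M0)
        have h2 : Nat.gcd q M0 ∣ Nat.gcd r q := Nat.dvd_gcd h1 (Nat.gcd_dvd_left q M0)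
        rw [hrq] at h2
        exact Nat.dvd_one.1 h2
      refine ⟨b, r, q, fun _ => ⟨?_, ?_, ?_, ?_⟩⟩
      · rw [← hq, hab]
      · rw [Finset.mem_Icc]
        refine ⟨Nat.one_le_iff_ne_zero.2 hb0, ?_⟩
        have h1 : b ^ 2 ≤ s ^ 2 := by
          refine le_trans ?_ hd.2
          rw [← hab]
          exact Nat.le_mul_of_pos_right _ (Nat.pos_of_ne_zero ha0)
        exact (Nat.pow_le_pow_iff_left two_ne_zero).1 h1
      · exact Nat.mem_divisors.2 ⟨Nat.gcd_dvd_right a M0, hM0.ne'⟩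
      · rw [Qs, Finset.mem_filter, Finset.mem_Icc]
        refine ⟨⟨Nat.one_le_iff_ne_zero.2 hq0, ?_⟩, hsq, hqM⟩
        refine le_trans ?_ hd.2
        rw [← hab, hq]
        calc q ≤ r * q := Nat.le_mul_of_pos_left _ hr0
          _ ≤ b ^ 2 * (r * q) := Nat.le_mul_of_pos_left _ (by positivity)
    · exact ⟨0, 0, 0, fun h => absurd h hd⟩
  choose b r q hbrq using hex
  have h1 : (Finset.Icc 1 (s ^ 2)).card ≤ (Finset.Icc 1 s ×ˢ (M0.divisors ×ˢ Qs M0 s)).card := by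
    apply Finset.card_le_card_of_injOn (fun d => (b d, (r d, q d)))
    · intro d hd
      obtain ⟨-, h2, h3, h4⟩ := hbrq d hd
      exact Finset.mem_product.2 ⟨h2, Finset.mem_product.2 ⟨h3, h4⟩⟩
    · intro d hd d' hd' heq
      simp only [Prod.mk.injEq] at heq
      obtain ⟨e1, e2, e3⟩ := heq
      rw [(hbrq d hd).1, (hbrq d' hd').1, e1, e2, e3]
  rw [Finset.card_product, Finset.card_product, Nat.card_Icc, Nat.card_Icc, Nat.add_sub_cancel,
    Nat.add_sub_cancel, pow_two] at h1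
  exact Nat.le_of_mul_le_mul_left h1 hs

end Pool.Agent.Lib.MP_ca2859_nt
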