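import Mathlib
import Pool.Agent.Lib.MP_ca2859_nt.ClassD
import Pool.Agent.Lib.MP_ca2859_nt.SqfD

open Polynomial WithZero IsDedekindDomain NumberField

set_option linter.unusedSectionVars false

namespace Pool.Agent.Lib.MP_ca2859_nt

section
variable {K : Type} [Field K] [NumberField K]

theorem coprime_not_mem (v : HeightOneSpectrum (𝓞 K)) (a b : ℕ) (h : Nat.Coprime a b)
    (ha : (a : 𝓞 K) ∈ v.asIdeal) : (b : 𝓞 K) ∉ v.asIdeal := by
  intro hb
  apply v.isPrime.ne_top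
  rw [Ideal.eq_top_iff_one]
  have h1 : (1 : 𝓞 K) = a * (Nat.gcdA a b : ℤ) + b * (Nat.gcdB a b : ℤ) := by
    have h2 := Nat.gcd_eq_gcd_ab a b
    rw [h] at h2
    have h3 := congrArg (fun z : ℤ => (z : 𝓞 K)) h2
    push_cast at h3
    exact h3
  rw [h1]
  exact v.asIdeal.add_mem (v.asIdeal.mul_mem_right _ ha) (v.asIdeal.mul_mem_right _ hb)

theorem val_one_of_not_mem (v : HeightOneSpectrum (𝓞 K)) (x : 𝓞 K) (hx : x ∉ v.asIdeal) :
    v.valuation K (algebraMap (𝓞 K) K x) = 1 := by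
  rw [HeightOneSpectrum.valuation_of_algebraMap]
  exact (v.intValuation_eq_one_iff_mem_primeCompl x).2 hx

theorem exists_above_prime (p : ℕ) (hp : p.Prime) :
    ∃ v : HeightOneSpectrum (𝓞 K), (p : 𝓞 K) ∈ v.asIdeal := by
  have hpz : Prime (p : ℤ) := Nat.prime_iff_prime_int.1 hp
  have hmax : (Ideal.span {(p : ℤ)}).IsMaximal :=
    ((Ideal.span_singleton_prime hpz.ne_zero).2 hpz).isMaximal (by
      rw [Ne, Ideal.span_singleton_eq_bot]; exact hpz.ne_zero)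
  obtain ⟨Q, hQ1, hQ2⟩ := Ideal.exists_maximal_ideal_liesOver_of_isIntegral (S := 𝓞 K)
    (Ideal.span {(p : ℤ)})
  have hmem : (p : 𝓞 K) ∈ Q := by
    have h1 : (p : ℤ) ∈ Q.under ℤ := by
      rw [← hQ2.over]
      exact Ideal.mem_span_singleton_self _
    rw [Ideal.under, Ideal.mem_comap] at h1
    simpa using h1
  refine ⟨⟨Q, hQ1.isPrime, ?_⟩, hmem⟩
  intro h
  rw [h, Ideal.mem_bot] at hmem
  exact hp.ne_zero (by exact_mod_cast hmem)

/-- unramified primes have valuation one -/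
theorem ord_prime (p : ℕ) (hp : p.Prime) (hd : ¬ p ∣ (discr K).natAbs)
    (v : HeightOneSpectrum (𝓞 K)) (hv : (p : 𝓞 K) ∈ v.asIdeal) :
    ord (v.valuation K) (p : K) = 1 := by
  have hp0 : (p : 𝓞 K) ≠ 0 := by exact_mod_cast hp.ne_zero
  have h1 := ord_eq_cntx (K := K) (p : 𝓞 K) hp0 v
  rw [map_natCast] at h1
  rw [h1]
  have hval : ∀ k : ℕ, k ≤ cntx (p : 𝓞 K) v ↔ v.asIdeal ^ k ∣ Ideal.span {(p : 𝓞 K)} := by
    intro k
    rw [← HeightOneSpectrum.intValuation_le_pow_iff_dvd, HeightOneSpectrum.intValuation_if_neg v hp0,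
      exp_le_exp, cntx]
    omega
  have hge : 1 ≤ cntx (p : 𝓞 K) v := by
    rw [hval, pow_one, Ideal.dvd_span_singleton]
    exact hv
  have hle : ¬ 2 ≤ cntx (p : 𝓞 K) v := by
    intro h2
    rw [hval] at h2
    have hpz : Prime (p : ℤ) := Nat.prime_iff_prime_int.1 hp
    have hmax : (Ideal.span {(p : ℤ)}).IsMaximal :=
      ((Ideal.span_singleton_prime hpz.ne_zero).2 hpz).isMaximal (by
        rw [Ne, Ideal.span_singleton_eq_bot]; exact hpz.ne_zero)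
    have h3 := pow_sub_one_dvd_differentIdeal ℤ (p := Ideal.span {(p : ℤ)}) v.asIdeal 2
      (by rw [Ne, Ideal.span_singleton_eq_bot]; exact hpz.ne_zero)
      (by
        rw [Ideal.map_span, Set.image_singleton]
        simpa using h2)
    rw [show 2 - 1 = 1 by norm_num, pow_one] at h3
    have h4 : ((Ideal.absNorm (differentIdeal ℤ (𝓞 K)) : ℕ) : 𝓞 K) ∈ v.asIdeal :=
      (Ideal.dvd_iff_le.1 h3) (Ideal.absNorm_mem _)
    rw [absNorm_differentIdeal (K := K)] at h4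
    exact coprime_not_mem v p _ ((Nat.Prime.coprime_iff_not_dvd hp).2 hd) hv h4
  have : cntx (p : 𝓞 K) v = 1 := by omega
  exact_mod_cast this

theorem discExp_same (g : ℕ) (f h : K[X]) (hf : f.natDegree ≤ 2 * g + 2) (hh : h.natDegree ≤ 2 * g + 2)
    (hs : SameCurve g f h) (v : HeightOneSpectrum (𝓞 K)) : discExp g f v = discExp g h v := by
  rw [discExp, discExp, minDiscExp, minDiscExp]
  congr 1
  ext k
  simp only [Set.mem_ofPred_eq]
  constructor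
  · rintro ⟨P, Q, h1, h2⟩
    exact ⟨P, Q, ⟨h1.intP, h1.intQ, h1.degP, h1.degQ, h1.deg0, hs.symm.trans hh h1.same⟩, h2⟩
  · rintro ⟨P, Q, h1, h2⟩
    exact ⟨P, Q, ⟨h1.intP, h1.intQ, h1.degP, h1.degQ, h1.deg0, hs.trans hf h1.same⟩, h2⟩

/-- a ramified quadratic twist has bad reduction -/
theorem twist_bad (g : ℕ) (hg : 1 ≤ g) (f : K[X]) (hf : IsHyperelliptic g f)
    (hfd : f.natDegree = 2 * g + 2) (v : HeightOneSpectrum (𝓞 K)) (hgood : discExp g f v = 0)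
    (h2 : v.valuation K (2 : K) = 1) (hn : v.valuation K ((2 * g + 2 : ℕ) : K) = 1) (q : K)
    (hq0 : q ≠ 0) (hq : ¬ Even (ord (v.valuation K) q)) : discExp g (C q * f) v ≠ 0 := by
  intro hbad
  have hf0 : f ≠ 0 := by
    rintro rfl
    rw [natDegree_zero] at hfd; omega
  have hqf : IsHyperelliptic g (C q * f) := by
    refine ⟨?_, ?_⟩
    · exact hf.1.unit_mul (isUnit_C.2 (isUnit_iff_ne_zero.2 hq0))
    · rw [natDegree_C_mul hq0]; exact hf.2
  have hgal : IsGalois K (spl f) := spl_galois f hf.1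
  obtain ⟨a, α, π, hdata⟩ := exists_rootData (L := spl f) (2 * g + 2) f hfd (by omega) hf.1
    (IsSplittingField.splits (spl f) f)
  obtain ⟨w, hw⟩ := exists_place_above (K := K) (L := spl f) v
  have he := ramIdx_one_of_inertia v w (fun σ hσ =>
    inertia_of_good g hg f hf hf0 v w hgood h2 hn a α π hdata σ hσ)
  have hqL : algebraMap K (spl f) q ≠ 0 := by rwa [Ne, map_eq_zero]
  obtain ⟨c₁, α₀, ρ, hfar⟩ := good_far g hg f hf v w hgood h2 hn a hdata.a0 α hdata.split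
  obtain ⟨c₁', α₀', ρ', hfar'⟩ := good_far g hg (C q * f) hqf v w hbad h2 hn
    (algebraMap K (spl f) q * a) (mul_ne_zero hqL hdata.a0) α (by
      rw [Polynomial.map_mul, Polynomial.map_C, hdata.split, C_mul, mul_assoc])
  let i0 : Fin (2 * g + 2) := ⟨0, by omega⟩
  let i1 : Fin (2 * g + 2) := ⟨1, by omega⟩
  let i2 : Fin (2 * g + 2) := ⟨2, by omega⟩
  have h01 : i0 ≠ i1 := by intro h; have := congrArg Fin.val h; simp [i0, i1] at this
  have h02 : i0 ≠ i2 := by intro h; have := congrArg Fin.val h; simp [i0, i2] at this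
  have h12 : i1 ≠ i2 := by intro h; have := congrArg Fin.val h; simp [i1, i2] at this
  obtain ⟨z, hz⟩ := twist_even g v w he i0 i1 i2 h01 h02 h12 a (algebraMap K (spl f) q * a) α α
    _ _ _ _ _ _ hfar hfar' (dlt_ne_zero i0 i1 i2 h01 h02 h12 _ hdata.a0 _ hdata.inj) q 1 one_ne_zero
    (by rw [one_pow, mul_one, dlt, dlt]; ring)
  exact hq (even_of_sq _ q ⟨z, hz⟩)

/-- the fixed equation -/
noncomputable def F₀ (K : Type) [Field K] [NumberField K] (g : ℕ) : (𝓞 K)[X] :=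
  X ^ (2 * g + 2) - 1

theorem F₀_map (g : ℕ) : (F₀ K g).map (algebraMap (𝓞 K) K) = X ^ (2 * g + 2) - 1 := by
  rw [F₀]; simp

theorem F₀_natDegree (g : ℕ) : ((X ^ (2 * g + 2) - 1 : K[X])).natDegree = 2 * g + 2 := by
  have := natDegree_X_pow_sub_C (n := 2 * g + 2) (r := (1 : K))
  rwa [C_1] at this

theorem F₀_hyper (g : ℕ) : IsHyperelliptic g (X ^ (2 * g + 2) - 1 : K[X]) := by
  refine ⟨?_, Or.inr (F₀_natDegree g)⟩
  have h := separable_X_pow_sub_C (n := 2 * g + 2) (1 : K)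
    (by rw [Nat.cast_ne_zero]; omega) one_ne_zero
  rwa [C_1] at h

theorem F₀_RR (g : ℕ) (hg : 1 ≤ g) : RR (2 * g + 2) (F₀ K g) ≠ 0 := by
  intro h
  have h1 := RR_ne_zero_of_hyper g hg _ (F₀_hyper (K := K) g)
  rw [← F₀_map, RR_map, h, map_zero] at h1
  exact h1 rfl

/-- the constant collecting the places excluded for the twists -/
noncomputable def M0c (K : Type) [Field K] [NumberField K] (g : ℕ) : ℕ :=
  2 * (2 * g + 2) * (Algebra.norm ℤ (2 ^ (4 * g) * RR (2 * g + 2) (F₀ K g) : 𝓞 K)).natAbs *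
    (discr K).natAbs

theorem δ₀_ne_zero (g : ℕ) (hg : 1 ≤ g) : (2 ^ (4 * g) * RR (2 * g + 2) (F₀ K g) : 𝓞 K) ≠ 0 :=
  mul_ne_zero (pow_ne_zero _ two_ne_zero) (F₀_RR g hg)

theorem norm_δ₀_pos (g : ℕ) (hg : 1 ≤ g) :
    0 < (Algebra.norm ℤ (2 ^ (4 * g) * RR (2 * g + 2) (F₀ K g) : 𝓞 K)).natAbs := by
  rw [Int.natAbs_pos, Algebra.norm_ne_zero_iff]
  exact δ₀_ne_zero g hg

theorem M0c_pos (g : ℕ) (hg : 1 ≤ g) : 0 < M0c K g := by
  have h1 := norm_δ₀_pos (K := K) g hg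
  have h2 : 0 < (discr K).natAbs := Int.natAbs_pos.2 (discr_ne_zero K)
  rw [M0c]
  positivity

/-- twists by integers prime to `v` have good reduction at `v` -/
theorem twist_good (g : ℕ) (hg : 1 ≤ g) (v : HeightOneSpectrum (𝓞 K)) (q : ℕ) (hq0 : q ≠ 0)
    (hv : (M0c K g : 𝓞 K) ∉ v.asIdeal) (hq : (q : 𝓞 K) ∉ v.asIdeal) :
    discExp g (C (q : K) * (X ^ (2 * g + 2) - 1)) v = 0 := by
  have hqO : (q : 𝓞 K) ≠ 0 := by exact_mod_cast hq0
  have hmap : C (q : K) * (X ^ (2 * g + 2) - 1) = (C (q : 𝓞 K) * F₀ K g).map (algebraMap (𝓞 K) K) := by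
    rw [Polynomial.map_mul, F₀_map, map_C, map_natCast (algebraMap (𝓞 K) K)]
  have hqK : (q : K) ≠ 0 := by exact_mod_cast hq0
  have hyp : IsHyperelliptic g (C (q : K) * (X ^ (2 * g + 2) - 1)) := by
    refine ⟨?_, ?_⟩
    · exact (F₀_hyper (K := K) g).1.unit_mul (isUnit_C.2 (isUnit_iff_ne_zero.2 hqK))
    · rw [natDegree_C_mul hqK]; exact (F₀_hyper (K := K) g).2
  rw [hmap] at hyp ⊢
  have hR : RR (2 * g + 2) (C (q : 𝓞 K) * F₀ K g) ≠ 0 := by
    rw [RR_C_mul]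
    exact mul_ne_zero (pow_ne_zero _ hqO) (F₀_RR g hg)
  have h1 := discExp_le_cntx g hg _ hyp hR v
  have hδ : (2 ^ (4 * g) * RR (2 * g + 2) (F₀ K g) : 𝓞 K) ∉ v.asIdeal := by
    intro h
    apply hv
    have h2 := norm_mem_of_mem v _ h
    rw [M0c]
    push_cast
    exact v.asIdeal.mul_mem_right _ (v.asIdeal.mul_mem_left _ h2)
  have h3 : cntx (2 ^ (4 * g) * RR (2 * g + 2) (C (q : 𝓞 K) * F₀ K g)) v = 0 := by
    have h20 : (2 ^ (4 * g) * RR (2 * g + 2) (C (q : 𝓞 K) * F₀ K g) : 𝓞 K) ≠ 0 :=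
      mul_ne_zero (pow_ne_zero _ two_ne_zero) hR
    have h4 := ord_eq_cntx (K := K) _ h20 v
    have h5 : (2 ^ (4 * g) * RR (2 * g + 2) (C (q : 𝓞 K) * F₀ K g) : 𝓞 K) =
        (q : 𝓞 K) ^ (2 * (2 * g + 2 - 1)) * (2 ^ (4 * g) * RR (2 * g + 2) (F₀ K g)) := by
      rw [RR_C_mul]; ring
    have h6 : v.valuation K (algebraMap (𝓞 K) K
        (2 ^ (4 * g) * RR (2 * g + 2) (C (q : 𝓞 K) * F₀ K g))) = 1 := by
      rw [h5, map_mul, map_mul, map_pow, map_pow, val_one_of_not_mem v _ hδ,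
        val_one_of_not_mem v _ hq, one_pow, one_mul]
    rw [ord, h6, log_one, neg_zero] at h4
    exact_mod_cast h4.symm
  omega

/-- distinct squarefree twists are not isomorphic -/
theorem twists_distinct (g : ℕ) (hg : 1 ≤ g) (q q' : ℕ) (hq : Squarefree q) (hq' : Squarefree q')
    (hqM : q.Coprime (M0c K g)) (p : ℕ) (hp : p.Prime) (hpq : p ∣ q) (hpq' : ¬ p ∣ q') :
    ¬ SameCurve g (C (q : K) * (X ^ (2 * g + 2) - 1)) (C (q' : K) * (X ^ (2 * g + 2) - 1)) := by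
  intro hsame
  obtain ⟨v, hv⟩ := exists_above_prime (K := K) p hp
  have hpM : p.Coprime (M0c K g) := Nat.Coprime.coprime_dvd_left hpq hqM
  have hvM : (M0c K g : 𝓞 K) ∉ v.asIdeal := coprime_not_mem v p _ hpM hv
  have hvq' : (q' : 𝓞 K) ∉ v.asIdeal :=
    coprime_not_mem v p _ ((Nat.Prime.coprime_iff_not_dvd hp).2 hpq') hv
  have hv1 : ((1 : ℕ) : 𝓞 K) ∉ v.asIdeal := coprime_not_mem v p _ (Nat.coprime_one_right p) hv
  have g0 := twist_good g hg v 1 one_ne_zero hvM hv1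
  rw [Nat.cast_one, C_1, one_mul] at g0
  have g' := twist_good g hg v q' hq'.ne_zero hvM hvq'
  have hv2 : v.valuation K (2 : K) = 1 := by
    have h1 : ((2 : ℕ) : 𝓞 K) ∉ v.asIdeal := coprime_not_mem v p 2
      (Nat.Coprime.coprime_dvd_right ⟨(2 * g + 2) * (Algebra.norm ℤ (2 ^ (4 * g) *
        RR (2 * g + 2) (F₀ K g) : 𝓞 K)).natAbs * (discr K).natAbs, by rw [M0c]; ring⟩ hpM) hv
    have h2 := val_one_of_not_mem v _ h1
    rwa [map_natCast, Nat.cast_ofNat] at h2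
  have hvn : v.valuation K ((2 * g + 2 : ℕ) : K) = 1 := by
    have h1 : ((2 * g + 2 : ℕ) : 𝓞 K) ∉ v.asIdeal := coprime_not_mem v p (2 * g + 2)
      (Nat.Coprime.coprime_dvd_right ⟨2 * (Algebra.norm ℤ (2 ^ (4 * g) *
        RR (2 * g + 2) (F₀ K g) : 𝓞 K)).natAbs * (discr K).natAbs, by rw [M0c]; ring⟩ hpM) hv
    have h2 := val_one_of_not_mem v _ h1
    rwa [map_natCast] at h2
  have hpd : ¬ p ∣ (discr K).natAbs := by
    rw [← Nat.Prime.coprime_iff_not_dvd hp]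
    exact Nat.Coprime.coprime_dvd_right ⟨2 * (2 * g + 2) * (Algebra.norm ℤ (2 ^ (4 * g) *
        RR (2 * g + 2) (F₀ K g) : 𝓞 K)).natAbs, by rw [M0c]; ring⟩ hpM
  have hordp := ord_prime p hp hpd v hv
  obtain ⟨m, hm⟩ := hpq
  have hcop : Nat.Coprime p m := by
    rw [hm] at hq
    exact Nat.coprime_of_squarefree_mul hq
  have hm0 : m ≠ 0 := by
    rintro rfl
    rw [mul_zero] at hm
    exact hq.ne_zero hm
  have hmv : (m : 𝓞 K) ∉ v.asIdeal := coprime_not_mem v p m hcop hv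
  have hordm : ord (v.valuation K) (m : K) = 0 := by
    have h2 := val_one_of_not_mem v _ hmv
    rw [map_natCast] at h2
    rw [ord, h2, log_one, neg_zero]
  have hpK : (p : K) ≠ 0 := by exact_mod_cast hp.ne_zero
  have hmK : (m : K) ≠ 0 := by exact_mod_cast hm0
  have hordq : ord (v.valuation K) (q : K) = 1 := by
    rw [hm, Nat.cast_mul, ord_mul hpK hmK, hordp, hordm, add_zero]
  have hqK : (q : K) ≠ 0 := by exact_mod_cast hq.ne_zero
  have hbad := twist_bad g hg _ (F₀_hyper (K := K) g) (F₀_natDegree g) v g0 hv2 hvn (q : K) hqK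
    (by rw [hordq]; decide)
  apply hbad
  rw [← g']
  apply discExp_same g _ _ _ _ hsame
  · exact (natDegree_C_mul_le _ _).trans (F₀_natDegree g).le
  · exact (natDegree_C_mul_le _ _).trans (F₀_natDegree g).le

theorem twist_delta (g : ℕ) (hg : 1 ≤ g) (q : ℕ) (hq0 : q ≠ 0) :
    DeltaC g (C (q : K) * (X ^ (2 * g + 2) - 1)) ≤
      q ^ (2 * (2 * g + 1) * Module.finrank ℚ K) *
      (Algebra.norm ℤ (2 ^ (4 * g) * RR (2 * g + 2) (F₀ K g) : 𝓞 K)).natAbs := by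
  have hqO : (q : 𝓞 K) ≠ 0 := by exact_mod_cast hq0
  have hmap : C (q : K) * (X ^ (2 * g + 2) - 1) = (C (q : 𝓞 K) * F₀ K g).map (algebraMap (𝓞 K) K) := by
    rw [Polynomial.map_mul, F₀_map, map_C, map_natCast (algebraMap (𝓞 K) K)]
  have hqK : (q : K) ≠ 0 := by exact_mod_cast hq0
  have hyp : IsHyperelliptic g (C (q : K) * (X ^ (2 * g + 2) - 1)) := by
    refine ⟨?_, ?_⟩
    · exact (F₀_hyper (K := K) g).1.unit_mul (isUnit_C.2 (isUnit_iff_ne_zero.2 hqK))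
    · rw [natDegree_C_mul hqK]; exact (F₀_hyper (K := K) g).2
  rw [hmap] at hyp ⊢
  have hR : RR (2 * g + 2) (C (q : 𝓞 K) * F₀ K g) ≠ 0 := by
    rw [RR_C_mul]
    exact mul_ne_zero (pow_ne_zero _ hqO) (F₀_RR g hg)
  refine (DeltaC_le g hg _ hyp hR).trans (le_of_eq ?_)
  have h5 : (2 ^ (4 * g) * RR (2 * g + 2) (C (q : 𝓞 K) * F₀ K g) : 𝓞 K) =
      (q : 𝓞 K) ^ (2 * (2 * g + 1)) * (2 ^ (4 * g) * RR (2 * g + 2) (F₀ K g)) := by
    rw [RR_C_mul, show 2 * (2 * g + 2 - 1) = 2 * (2 * g + 1) by omega]; ring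
  rw [h5, map_mul, Int.natAbs_mul, map_pow, Int.natAbs_pow]
  congr 1
  have h6 : Algebra.norm ℤ (q : 𝓞 K) = (q : ℤ) ^ (Module.finrank ℚ K) := by
    have h7 := Algebra.norm_algebraMap (S := 𝓞 K) (q : ℤ)
    rw [RingOfIntegers.rank] at h7
    rw [← h7]
    simp
  rw [h6, Int.natAbs_pow, Int.natAbs_natCast, ← pow_mul]
  congr 1
  ring

end

end Pool.Agent.Lib.MP_ca2859_nt
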