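import Mathlib
import Pool.Agent.Lib.MP_ca2859_nt.TwLow

open Polynomial WithZero IsDedekindDomain NumberField

set_option linter.unusedSectionVars false

namespace Pool.Agent.Lib.MP_ca2859_nt

section
variable {K : Type} [Field K] [NumberField K]

theorem MC_le_DeltaC (g : ℕ) (F : K[X]) (hF : IsHyperelliptic g F) : MC g F ≤ DeltaC g F := by
  classical
  set S := (finite_bad g F hF).toFinset with hS
  have hD : DeltaC g F = ∏ v ∈ S, Ideal.absNorm v.asIdeal ^ discExp g F v := by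
    rw [DeltaC, finprod_eq_prod_of_mulSupport_subset (s := S)]
    intro v hv
    rw [hS, Finset.mem_coe, Set.Finite.mem_toFinset]
    intro h0
    exact hv (by simp [h0])
  rw [hD, MC_eq_prod g F hF]
  apply Finset.prod_le_prod'
  intro v hv
  rw [Set.Finite.mem_toFinset] at hv
  exact Nat.le_self_pow hv _

theorem flip_natDegree (g : ℕ) (a : K) (f : K[X]) (hf : f.natDegree ≤ 2 * g + 2)
    (ha : f.eval a ≠ 0) : (flip g a f).natDegree = 2 * g + 2 := by
  apply le_antisymm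
  · rw [flip]
    exact natDegree_reflect_le' _ _ (by rw [natDegree_taylor]; exact hf)
  · apply le_natDegree_of_ne_zero
    rw [flip, coeff_reflect, revAt_le le_rfl, Nat.sub_self, taylor_coeff_zero]
    exact ha

theorem flip_hyper (g : ℕ) (hg : 1 ≤ g) (a : K) (f : K[X]) (hf : IsHyperelliptic g f) :
    IsHyperelliptic g (flip g a f) := by
  have hd : f.natDegree ≤ 2 * g + 2 := by have := hf.2; omega
  have hd' : (flip g a f).natDegree ≤ 2 * g + 2 := by
    rw [flip]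
    exact natDegree_reflect_le' _ _ (by rw [natDegree_taylor]; exact hd)
  apply hyper_of_RR_all g hg _ hd'
  obtain ⟨ε, hε⟩ := RR_reflect (2 * g + 2) (by omega) (taylor a f)
      (by rw [natDegree_taylor]; exact hd)
  rw [flip, hε, RR_taylor _ (by omega) _ _ hd]
  exact mul_ne_zero (unit_ne_zero ε) (RR_ne_zero_of_hyper g hg f hf)

theorem exists_nonroot (g : ℕ) (f : K[X]) (hf : IsHyperelliptic g f) : ∃ a : K, f.eval a ≠ 0 := by
  by_contra h
  push Not at h
  have h1 : f = 0 := Polynomial.funext fun x => by rw [h x, eval_zero]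
  have := hf.2
  rw [h1, natDegree_zero] at this
  omega

theorem classes_count_all (K : Type) [Field K] [NumberField K] (g : ℕ) (hg : 1 ≤ g) :
    ∃ (A : ℝ) (k : ℕ), 1 ≤ A ∧ ∀ R : ℝ, 1 ≤ R → ∀ T : Finset K[X],
    (∀ f ∈ T, IsHyperelliptic g f ∧ (MC g f : ℝ) ≤ R) →
    (∀ f ∈ T, ∀ f' ∈ T, f ≠ f' → ¬ SameCurve g f f') → (T.card : ℝ) ≤ A * R ^ k := by
  classical
  obtain ⟨A, k, hA, hmain⟩ := classes_count K g hg
  refine ⟨A, k, hA, ?_⟩
  intro R hR T hT hpair
  have hex : ∀ f : K[X], ∃ a : K, f ∈ T → f.eval a ≠ 0 := by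
    intro f
    by_cases hf : f ∈ T
    · obtain ⟨a, ha⟩ := exists_nonroot g f (hT f hf).1
      exact ⟨a, fun _ => ha⟩
    · exact ⟨0, fun h => absurd h hf⟩
  choose a ha using hex
  have hd : ∀ f ∈ T, f.natDegree ≤ 2 * g + 2 := by
    intro f hf
    have := (hT f hf).1.2; omega
  have hd' : ∀ f ∈ T, (flip g (a f) f).natDegree = 2 * g + 2 := fun f hf =>
    flip_natDegree g (a f) f (hd f hf) (ha f hf)
  have hlift : ∀ f ∈ T, ∀ f' ∈ T, SameCurve g (flip g (a f) f) (flip g (a f') f') → SameCurve g f f' := by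
    intro f hf f' hf' h
    exact ((sameCurve_flip g (a f) f (hd f hf)).trans (hd f hf) h).trans (hd f hf)
      (sameCurve_flip' g (a f') f' (hd f' hf'))
  have hinj : Set.InjOn (fun f => flip g (a f) f) T := by
    intro f hf f' hf' heq
    by_contra hne
    apply hpair f hf f' hf' hne
    apply hlift f hf f' hf'
    rw [show flip g (a f) f = flip g (a f') f' from heq]
    exact sameCurve_refl g _
  have hR1 : 1 ≤ ⌊R⌋₊ := Nat.le_floor (by exact_mod_cast hR)
  have h1 := hmain ⌊R⌋₊ hR1 (T.image fun f => flip g (a f) f) (by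
      intro F hF
      obtain ⟨f, hf, rfl⟩ := Finset.mem_image.1 hF
      refine ⟨flip_hyper g hg _ f (hT f hf).1, hd' f hf, ?_⟩
      rw [MC_flip g _ _ (hd f hf)]
      exact Nat.le_floor (hT f hf).2) (by
      intro F hF F' hF' hne hsame
      obtain ⟨f, hf, rfl⟩ := Finset.mem_image.1 hF
      obtain ⟨f', hf', rfl⟩ := Finset.mem_image.1 hF'
      exact hpair f hf f' hf' (fun h => hne (by rw [h])) (hlift f hf f' hf' hsame))
  rw [Finset.card_image_of_injOn hinj] at h1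
  refine h1.trans ?_
  apply mul_le_mul_of_nonneg_left _ (by linarith)
  apply pow_le_pow_left₀ (Nat.cast_nonneg _)
  exact Nat.floor_le (by linarith)

/-- there are many curves of bounded minimal discriminant -/
theorem lower_count (K : Type) [Field K] [NumberField K] (g : ℕ) (hg : 1 ≤ g) :
    ∃ δ X₀ : ℝ, 0 < δ ∧ 1 ≤ X₀ ∧ ∀ X : ℝ, X₀ ≤ X → ∃ T : Finset K[X],
    (∀ f ∈ T, IsHyperelliptic g f ∧ (DeltaC g f : ℝ) ≤ X) ∧
    (∀ f ∈ T, ∀ f' ∈ T, f ≠ f' → ¬ SameCurve g f f') ∧ X ^ δ ≤ (T.card : ℝ) := by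
  classical
  set E : ℕ := 2 * (2 * g + 1) * Module.finrank ℚ K with hE
  have hEpos : 0 < E := Nat.mul_pos (by omega) Module.finrank_pos
  set c₁ : ℕ := (Algebra.norm ℤ (2 ^ (4 * g) * RR (2 * g + 2) (F₀ K g) : 𝓞 K)).natAbs with hc₁
  have hc₁pos : 0 < c₁ := norm_δ₀_pos g hg
  set τ : ℕ := (M0c K g).divisors.card with hτ
  have hτpos : 0 < τ := Finset.card_pos.2 ⟨1, Nat.one_mem_divisors.2 (M0c_pos g hg).ne'⟩
  have hER : (0 : ℝ) < E := by exact_mod_cast hEpos
  have hcR : (1 : ℝ) ≤ c₁ := by exact_mod_cast hc₁pos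
  have hτR : (1 : ℝ) ≤ τ := by exact_mod_cast hτpos
  set B : ℝ := c₁ * (2 * τ) ^ (2 * E) with hB
  have hB1 : 1 ≤ B := one_le_mul_of_one_le_of_one_le hcR (one_le_pow₀ (by linarith))
  refine ⟨1 / (4 * E), B ^ 2, by positivity, one_le_pow₀ hB1, ?_⟩
  intro X hX
  have hX1 : 1 ≤ X := (one_le_pow₀ hB1).trans hX
  have hX0 : 0 < X := by linarith
  set y : ℝ := X ^ (1 / (4 * E) : ℝ) with hy
  have hy1 : 1 ≤ y := Real.one_le_rpow hX1 (by positivity)
  set s : ℕ := ⌈τ * y⌉₊ with hs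
  have hs1 : (τ : ℝ) * y ≤ s := Nat.le_ceil _
  have hs0 : 0 < s := by
    have : (0 : ℝ) < s := lt_of_lt_of_le (by positivity) hs1
    exact_mod_cast this
  have hs2 : (s : ℝ) ≤ 2 * τ * y := by
    have h1 := Nat.ceil_lt_add_one (show (0 : ℝ) ≤ τ * y by positivity)
    have h2 : (1 : ℝ) ≤ τ * y := one_le_mul_of_one_le_of_one_le hτR hy1
    linarith
  have hyE : y ^ (2 * E) = Real.sqrt X := by
    rw [hy, ← Real.rpow_natCast, ← Real.rpow_mul hX0.le, Real.sqrt_eq_rpow]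
    congr 1
    push_cast
    field_simp
    norm_num
  have hsq : B ≤ Real.sqrt X := Real.le_sqrt_of_sq_le hX
  have hbound : (s : ℝ) ^ (2 * E) * c₁ ≤ X := by
    calc (s : ℝ) ^ (2 * E) * c₁ ≤ (2 * τ * y) ^ (2 * E) * c₁ := by
          apply mul_le_mul_of_nonneg_right _ (by linarith)
          exact pow_le_pow_left₀ (Nat.cast_nonneg _) hs2 _
      _ = B * Real.sqrt X := by rw [mul_pow, hyE, hB]; ring
      _ ≤ Real.sqrt X * Real.sqrt X := mul_le_mul_of_nonneg_right hsq (Real.sqrt_nonneg _)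
      _ = X := Real.mul_self_sqrt hX0.le
  have hF0 : (Polynomial.X ^ (2 * g + 2) - 1 : K[X]) ≠ 0 := by
    intro h
    have := F₀_natDegree (K := K) g
    rw [h, natDegree_zero] at this; omega
  have hinj : Set.InjOn (fun q : ℕ => (C (q : K) * (Polynomial.X ^ (2 * g + 2) - 1) : K[X]))
      (Qs (M0c K g) s) := by
    intro q _ q' _ heq
    have h1 := mul_right_cancel₀ hF0 heq
    exact_mod_cast C_injective h1
  refine ⟨(Qs (M0c K g) s).image
    (fun q : ℕ => (C (q : K) * (Polynomial.X ^ (2 * g + 2) - 1) : K[X])), ?_, ?_, ?_⟩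
  · intro f hf
    obtain ⟨q, hq, rfl⟩ := Finset.mem_image.1 hf
    rw [Qs, Finset.mem_filter, Finset.mem_Icc] at hq
    have hqK : (q : K) ≠ 0 := by exact_mod_cast (by omega : q ≠ 0)
    refine ⟨⟨?_, ?_⟩, ?_⟩
    · exact (F₀_hyper (K := K) g).1.unit_mul (isUnit_C.2 (isUnit_iff_ne_zero.2 hqK))
    · rw [natDegree_C_mul hqK]; exact (F₀_hyper (K := K) g).2
    · have h1 := twist_delta (K := K) g hg q (by omega)
      refine le_trans ?_ hbound
      have h2 : q ^ (2 * (2 * g + 1) * Module.finrank ℚ K) * c₁ ≤ s ^ (2 * E) * c₁ := by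
        apply Nat.mul_le_mul_right
        rw [pow_mul s 2 E]
        exact Nat.pow_le_pow_left hq.1.2 _
      exact_mod_cast h1.trans h2
  · intro f hf f' hf' hne
    obtain ⟨q, hq, rfl⟩ := Finset.mem_image.1 hf
    obtain ⟨q', hq', rfl⟩ := Finset.mem_image.1 hf'
    rw [Qs, Finset.mem_filter, Finset.mem_Icc] at hq hq'
    have hqq : q ≠ q' := fun h => hne (by rw [h])
    have h1 : ¬ ∀ p : ℕ, p.Prime → (p ∣ q ↔ p ∣ q') := by
      intro h
      exact hqq ((Nat.Squarefree.ext_iff hq.2.1 hq'.2.1).2 h)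
    push Not at h1
    obtain ⟨p, hp, h2⟩ := h1
    rcases h2 with ⟨h3, h4⟩ | ⟨h3, h4⟩
    · exact twists_distinct g hg q q' hq.2.1 hq'.2.1 hq.2.2 p hp h3 h4
    · intro hsame
      exact twists_distinct g hg q' q hq'.2.1 hq.2.1 hq'.2.2 p hp h4 h3 hsame.symm
  · rw [Finset.card_image_of_injOn hinj]
    have h1 : (s : ℝ) ≤ τ * ((Qs (M0c K g) s).card : ℝ) := by
      exact_mod_cast squarefree_count (M0c K g) (M0c_pos g hg) s hs0
    have h2 : (τ : ℝ) * y ≤ τ * ((Qs (M0c K g) s).card : ℝ) := hs1.trans h1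
    exact le_of_mul_le_mul_left h2 (by linarith)

/-- ordering all curves by minimal discriminant -/
theorem exceptional_set (K : Type) [Field K] [NumberField K] (g : ℕ) (hg : 1 ≤ g) :
    ∃ Cc δ c X₀ : ℝ, 0 < Cc ∧ 0 < δ ∧ 0 < c ∧ ∀ X : ℝ, X₀ ≤ X → ∃ T : Finset K[X],
      (∀ f ∈ T, IsHyperelliptic g f ∧ (DeltaC g f : ℝ) ≤ X) ∧
      (∀ f : K[X], IsHyperelliptic g f → (DeltaC g f : ℝ) ≤ X → ∃! h, h ∈ T ∧ SameCurve g f h) ∧
      X ^ δ ≤ (T.card : ℝ) ∧
      ∀ κ : ℝ, 0 < κ → ∀ E ⊆ T, (∀ f ∈ E, (MC g f : ℝ) ^ κ < (DeltaC g f : ℝ)) →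
        (E.card : ℝ) ≤ c * X ^ (Cc / κ) := by
  classical
  obtain ⟨A, k, hA, hup⟩ := classes_count_all K g hg
  obtain ⟨δ, X₀, hδ, hX₀, hlow⟩ := lower_count K g hg
  refine ⟨k + 1, δ, A, X₀, by positivity, hδ, by linarith, ?_⟩
  intro X hX
  have hX1 : 1 ≤ X := hX₀.trans hX
  have hX0 : 0 < X := by linarith
  set P : Finset K[X] → Prop := fun T => (∀ f ∈ T, IsHyperelliptic g f ∧ (DeltaC g f : ℝ) ≤ X) ∧
    (∀ f ∈ T, ∀ f' ∈ T, f ≠ f' → ¬ SameCurve g f f') with hP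
  have hbdd : ∀ T, P T → T.card ≤ ⌊A * X ^ k⌋₊ := by
    intro T hT
    apply Nat.le_floor
    refine hup X hX1 T ?_ hT.2
    intro f hf
    refine ⟨(hT.1 f hf).1, ?_⟩
    have h1 : (MC g f : ℝ) ≤ DeltaC g f := by exact_mod_cast MC_le_DeltaC g f (hT.1 f hf).1
    exact h1.trans (hT.1 f hf).2
  obtain ⟨T, hTP, hTmax⟩ : ∃ T, P T ∧ ∀ T', P T' → T'.card ≤ T.card := by
    set N : Set ℕ := {n | ∃ T, P T ∧ T.card = n} with hN
    have hne : N.Nonempty := ⟨0, ∅, ⟨by simp, by simp⟩, rfl⟩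
    have hbd : BddAbove N := ⟨⌊A * X ^ k⌋₊, by
      rintro n ⟨T, hT, rfl⟩
      exact hbdd T hT⟩
    obtain ⟨T, hT, hcard⟩ := Nat.sSup_mem hne hbd
    refine ⟨T, hT, ?_⟩
    intro T' hT'
    rw [hcard]
    exact le_csSup hbd ⟨T', hT', rfl⟩
  have hdeg : ∀ f : K[X], IsHyperelliptic g f → f.natDegree ≤ 2 * g + 2 := by
    intro f hf
    have := hf.2; omega
  refine ⟨T, hTP.1, ?_, ?_, ?_⟩
  · intro f hf hfX
    have hex : ∃ h ∈ T, SameCurve g f h := by
      by_contra hcon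
      push Not at hcon
      have hfT : f ∉ T := fun h => hcon f h (sameCurve_refl g f)
      have hP' : P (insert f T) := by
        refine ⟨?_, ?_⟩
        · intro f' hf'
          rcases Finset.mem_insert.1 hf' with rfl | h
          · exact ⟨hf, hfX⟩
          · exact hTP.1 f' h
        · intro f₁ hf₁ f₂ hf₂ hne
          rcases Finset.mem_insert.1 hf₁ with rfl | h₁
          · rcases Finset.mem_insert.1 hf₂ with rfl | h₂
            · exact absurd rfl hne
            · exact hcon f₂ h₂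
          · rcases Finset.mem_insert.1 hf₂ with rfl | h₂
            · exact fun h => hcon f₁ h₁ h.symm
            · exact hTP.2 f₁ h₁ f₂ h₂ hne
      have h1 := hTmax _ hP'
      rw [Finset.card_insert_of_notMem hfT] at h1
      omega
    obtain ⟨h, hh, hs⟩ := hex
    refine ⟨h, ⟨hh, hs⟩, ?_⟩
    rintro h' ⟨hh', hs'⟩
    by_contra hne
    exact hTP.2 h' hh' h hh hne (hs'.symm.trans (hdeg h' (hTP.1 h' hh').1) hs)
  · obtain ⟨T', h1, h2, h3⟩ := hlow X hX
    refine h3.trans ?_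
    exact_mod_cast hTmax T' ⟨h1, h2⟩
  · intro κ hκ E hE hEκ
    have hR1 : 1 ≤ X ^ (1 / κ) := Real.one_le_rpow hX1 (by positivity)
    have h1 := hup (X ^ (1 / κ)) hR1 E (by
      intro f hf
      refine ⟨(hTP.1 f (hE hf)).1, ?_⟩
      have h2 : (MC g f : ℝ) ^ κ ≤ X := (hEκ f hf).le.trans (hTP.1 f (hE hf)).2
      have h3 : (MC g f : ℝ) = ((MC g f : ℝ) ^ κ) ^ (1 / κ) := by
        rw [← Real.rpow_mul (Nat.cast_nonneg _), mul_one_div_cancel hκ.ne', Real.rpow_one]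
      rw [h3]
      exact Real.rpow_le_rpow (Real.rpow_nonneg (Nat.cast_nonneg _) _) h2 (by positivity))
      (fun f hf f' hf' => hTP.2 f (hE hf) f' (hE hf'))
    refine h1.trans ?_
    apply mul_le_mul_of_nonneg_left _ (by linarith)
    rw [← Real.rpow_natCast, ← Real.rpow_mul hX0.le]
    apply Real.rpow_le_rpow_of_exponent_le hX1
    rw [one_div, inv_mul_eq_div]
    gcongr
    linarith

end

end Pool.Agent.Lib.MP_ca2859_nt
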