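import Mathlib
import Pool.Agent.Lib.MP_ca2859_nt.CRGood3

/-!
# Bounded cross ratios give a bounded minimal discriminant
-/

open Polynomial WithZero IsDedekindDomain NumberField

namespace Pool.Agent.Lib.MP_ca2859_nt

section val
variable {L : Type*} [Field L] {w : Valuation L ℤᵐ⁰}

/-- roots of a polynomial whose top coefficient dominates up to the factor `μ` -/
theorem root_bound (F : L[X]) (D : ℕ) (hD : F.natDegree ≤ D) (htop : F.coeff D ≠ 0) (μ : ℤᵐ⁰)
    (hμ1 : μ ≤ 1) (h : ∀ k, μ * w (F.coeff k) ≤ w (F.coeff D)) (x : L)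
    (hx : F.eval x = 0) : μ * w x ≤ 1 := by
  by_contra hcon
  rw [not_le] at hcon
  have hx1 : 1 < w x := by
    refine hcon.trans_le ?_
    calc μ * w x ≤ 1 * w x := mul_le_mul' hμ1 le_rfl
      _ = w x := one_mul _
  have hx0 : w x ≠ 0 := (lt_trans zero_lt_one hx1).ne'
  have hμ0 : μ ≠ 0 := by rintro rfl; rw [zero_mul] at hcon; exact not_lt_of_gt zero_lt_one hcon
  rw [eval_eq_sum_range' (Nat.lt_succ_of_le hD), Finset.sum_range_succ] at hx
  have h1 : F.coeff D * x ^ D = - ∑ k ∈ Finset.range D, F.coeff k * x ^ k := by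
    linear_combination hx
  have h2 : w (∑ k ∈ Finset.range D, F.coeff k * x ^ k) < w (F.coeff D * x ^ D) := by
    apply Valuation.map_sum_lt
    · rw [Ne, Valuation.zero_iff]
      have hxne : x ≠ 0 := by rintro rfl; simp at hx0
      exact mul_ne_zero htop (pow_ne_zero _ hxne)
    · intro k hk
      rw [Finset.mem_range] at hk
      rw [map_mul, map_mul, map_pow, map_pow]
      have hpos : 0 < μ := zero_lt_iff.2 hμ0
      rw [← mul_lt_mul_iff_right₀ hpos]
      have htop' : 0 < w (F.coeff D) := zero_lt_iff.2 (by rw [Ne, Valuation.zero_iff]; exact htop)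
      calc μ * (w (F.coeff k) * w x ^ k) = (μ * w (F.coeff k)) * w x ^ k := by rw [mul_assoc]
        _ ≤ w (F.coeff D) * w x ^ k := mul_le_mul' (h k) le_rfl
        _ = (w (F.coeff D) * w x ^ k) * 1 := (mul_one _).symm
        _ < (w (F.coeff D) * w x ^ k) * (μ * w x) := by
            apply mul_lt_mul_of_pos_left hcon
            exact mul_pos htop' (pow_pos (lt_trans zero_lt_one hx1) _)
        _ = μ * (w (F.coeff D) * w x ^ (k + 1)) := by
            rw [pow_succ]; ac_rfl
        _ ≤ μ * (w (F.coeff D) * w x ^ D) := by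
            apply mul_le_mul' le_rfl
            apply mul_le_mul' le_rfl
            exact pow_le_pow_right₀ hx1.le hk
  rw [h1, Valuation.map_neg] at h2
  exact lt_irrefl _ h2

theorem cross_le {n : ℕ} (p : Fin 4 → Fin n) (hp : Function.Injective p) (α : Fin n → L)
    (hα : Function.Injective α) (μ : ℤᵐ⁰) (hμ1 : μ ≤ 1)
    (h : ∀ k, μ * w ((CR p α).coeff k) ≤ w ((CR p α).coeff (Fintype.card (Equiv.Perm (Fin n)))))
    (i j k l : Fin n) (hik : i ≠ k) (hjl : j ≠ l) :
    μ * w ((α i - α j) * (α k - α l)) ≤ w ((α i - α k) * (α j - α l)) := by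
  classical
  have hsub : ∀ a b, a ≠ b → α a - α b ≠ 0 := fun a b hab h => hab (hα (sub_eq_zero.1 h))
  by_cases hij : i = j
  · subst hij; simp
  by_cases hkl : k = l
  · subst hkl; simp
  by_cases hil : i = l
  · subst hil
    have h1 : (α i - α j) * (α k - α i) = (α i - α k) * (α j - α i) := by ring
    rw [h1]
    calc _ ≤ 1 * w ((α i - α k) * (α j - α i)) := mul_le_mul' hμ1 le_rfl
      _ = _ := one_mul _
  by_cases hjk : j = k
  · subst hjk
    calc _ ≤ 1 * w ((α i - α j) * (α j - α l)) := mul_le_mul' hμ1 le_rfl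
      _ = _ := one_mul _
  have hinj : Function.Injective ![i, j, k, l] := by
    intro x y hxy
    fin_cases x <;> fin_cases y <;> simp_all
  obtain ⟨σ, hσ⟩ := Equiv.Perm.exists_extending_pair p ![i, j, k, l] hp hinj
  have h0 : σ (p 0) = i := by simpa using hσ 0
  have h1 : σ (p 1) = j := by simpa using hσ 1
  have h2 : σ (p 2) = k := by simpa using hσ 2
  have h3 : σ (p 3) = l := by simpa using hσ 3
  have hd : crd p α σ = (α i - α k) * (α j - α l) := by rw [crd, h0, h1, h2, h3]
  have hn : crn p α σ = (α i - α j) * (α k - α l) := by rw [crn, h0, h1, h2, h3]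
  have hd0 : crd p α σ ≠ 0 := by rw [hd]; exact mul_ne_zero (hsub _ _ hik) (hsub _ _ hjl)
  have hall : ∀ τ : Equiv.Perm (Fin n), crd p α τ ≠ 0 := by
    intro τ
    exact mul_ne_zero (hsub _ _ fun h => absurd (hp (τ.injective h)) (by decide))
      (hsub _ _ fun h => absurd (hp (τ.injective h)) (by decide))
  have htop : (CR p α).coeff (Fintype.card (Equiv.Perm (Fin n))) ≠ 0 := by
    rw [CR_top, Finset.prod_ne_zero_iff]
    exact fun τ _ => hall τ
  have hdeg : (CR p α).natDegree ≤ Fintype.card (Equiv.Perm (Fin n)) := by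
    have h2 : (CR p α).natDegree ≤ ∑ σ : Equiv.Perm (Fin n), 1 := by
      rw [CR]
      exact (natDegree_prod_le _ _).trans (Finset.sum_le_sum fun σ _ => CR_natDegree_le p α σ)
    rwa [Finset.sum_const, Finset.card_univ, smul_eq_mul, mul_one] at h2
  have hroot : (CR p α).eval (crn p α σ / crd p α σ) = 0 := by
    rw [CR, eval_prod]
    apply Finset.prod_eq_zero (Finset.mem_univ σ)
    simp only [eval_sub, eval_mul, eval_C, eval_X]
    rw [mul_div_cancel₀ _ hd0, sub_self]
  have h4 := root_bound (w := w) (CR p α) _ hdeg htop μ hμ1 h _ hroot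
  rw [map_div₀, ← mul_div_assoc, div_le_one₀ (zero_lt_iff.2 (by rw [Ne, Valuation.zero_iff]; exact hd0)),
    hd, hn] at h4
  exact h4

end val

end Pool.Agent.Lib.MP_ca2859_nt
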