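import Mathlib
import Pool.Agent.Lib.MP_ca2859_nt.CRStable

open Polynomial WithZero IsDedekindDomain NumberField

namespace Pool.Agent.Lib.MP_ca2859_nt

section val
variable {L : Type*} [Field L] [CharZero L] {w : Valuation L ℤᵐ⁰}

/-- the constant of the Moebius transformation -/
noncomputable def gam (g : ℕ) (a m : L) (α : Fin (2 * g + 1 + 1) → L) (i1 i2 : Fin (2 * g + 1)) : L :=
  a * (α i1.succ - α 0) * ∏ j : Fin (2 * g + 1),
    ((α 0 - α j.succ) * ((α i2.succ - α i1.succ) / (α 0 - α i2.succ) / m ^ 2))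

theorem exists_model_of_cross (g : ℕ) (hg : 1 ≤ g) (m : L) (hm0 : m ≠ 0) (hm1 : w m ≤ 1) (a : L)
    (α : Fin (2 * g + 1 + 1) → L) (hα : Function.Injective α)
    (hcr : ∀ i j k l, i ≠ k → j ≠ l →
      w m * w ((α i - α j) * (α k - α l)) ≤ w ((α i - α k) * (α j - α l)))
    (i1 i2 : Fin (2 * g + 1)) (hi12 : i1 ≠ i2) (e : L) (he : e ^ 2 * gam g a m α i1 i2 = 1) :
    ∃ P : L[X], IsWeierstrassModel w g (C a * ∏ j, (X - C (α j))) P 0 ∧ eqDisc g (f0 P 0) ≠ 0 ∧
      w (2 ^ (4 * g) * m ^ (4 * ((2 * g + 1) * (2 * g)))) ≤ w (eqDisc g (f0 P 0)) := by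
  classical
  have hsub : ∀ a b, a ≠ b → α a - α b ≠ 0 := fun a b hab h => hab (hα (sub_eq_zero.1 h))
  have h0s : ∀ j : Fin (2 * g + 1), (0 : Fin (2 * g + 1 + 1)) ≠ j.succ := fun j => (Fin.succ_ne_zero j).symm
  have hss : i1.succ ≠ i2.succ := fun h => hi12 (Fin.succ_injective _ h)
  set α0 := α 0 with hα0
  set α1 := α i1.succ with hα1
  set α2 := α i2.succ with hα2
  have h01 : α0 - α1 ≠ 0 := hsub _ _ (h0s i1)
  have h02 : α0 - α2 ≠ 0 := hsub _ _ (h0s i2)
  have h21 : α2 - α1 ≠ 0 := hsub _ _ hss.symm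
  have h0j : ∀ j : Fin (2 * g + 1), α0 - α j.succ ≠ 0 := fun j => hsub _ _ (h0s j)
  set κ := (α2 - α1) / (α0 - α2) with hκ
  have hκ0 : κ ≠ 0 := div_ne_zero h21 h02
  set β : Fin (2 * g + 1) → L := fun j =>
    (α j.succ - α1) * (α0 - α2) / ((α2 - α1) * (α0 - α j.succ)) with hβ
  set s : Fin (2 * g + 1) → L := fun j => m ^ 2 * β j with hs
  set P : L[X] := C 1 * ∏ j, (X - C (s j)) with hP
  have hP' : P = ∏ j, (X - C (s j)) := by rw [hP, C_1, one_mul]
  have hwm0 : w m ≠ 0 := by rw [Ne, Valuation.zero_iff]; exact hm0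
  have hwmpos : 0 < w m := zero_lt_iff.2 hwm0
  -- integrality of the roots
  have hβint : ∀ j, w (s j) ≤ 1 := by
    intro j
    have h1 := hcr j.succ i1.succ 0 i2.succ (Fin.succ_ne_zero j) hss
    have h2 : w m * w (β j) ≤ 1 := by
      rw [hβ]
      simp only
      rw [map_div₀, ← mul_div_assoc, div_le_one₀ (zero_lt_iff.2 (by
        rw [Ne, Valuation.zero_iff]; exact mul_ne_zero h21 (h0j j)))]
      refine h1.trans (le_of_eq ?_)
      have h3 : (α j.succ - α 0) * (α i1.succ - α i2.succ) = (α2 - α1) * (α0 - α j.succ) := by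
        rw [hα0, hα1, hα2]; ring
      rw [h3]
    rw [hs]
    simp only
    rw [map_mul, map_pow, pow_two]
    calc w m * w m * w (β j) = w m * (w m * w (β j)) := by rw [mul_assoc]
      _ ≤ 1 * 1 := mul_le_mul' hm1 h2
      _ = 1 := one_mul 1
  -- distances between the roots
  have hdist : ∀ i j, i ≠ j → w m ^ 4 ≤ w (s i - s j) := by
    intro i j hij
    have hsij : i.succ ≠ j.succ := fun h => hij (Fin.succ_injective _ h)
    have hij0 : α i.succ - α j.succ ≠ 0 := hsub _ _ hsij
    have hβd : β i - β j = (α0 - α2) * (α0 - α1) * (α i.succ - α j.succ) /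
        ((α2 - α1) * (α0 - α i.succ) * (α0 - α j.succ)) := by
      rw [hβ]
      have := h0j i
      have := h0j j
      field_simp
      ring
    have key : w m ^ 2 * w ((α2 - α1) * (α0 - α i.succ) * (α0 - α j.succ)) ≤
        w ((α0 - α2) * (α0 - α1) * (α i.succ - α j.succ)) := by
      -- first factor
      have hA : ∀ k : Fin (2 * g + 1), k ≠ i1 → w m * w ((α2 - α1) * (α0 - α k.succ)) ≤
          w ((α0 - α2) * (α1 - α k.succ)) := by
        intro k hk
        have h1 := hcr i2.succ i1.succ 0 k.succ (Fin.succ_ne_zero _)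
          (fun h => hk (Fin.succ_injective _ h).symm)
        refine h1.trans (le_of_eq ?_)
        have : (α i2.succ - α 0) * (α i1.succ - α k.succ) = - ((α0 - α2) * (α1 - α k.succ)) := by
          rw [hα0, hα1, hα2]; ring
        rw [this, Valuation.map_neg]
      by_cases hi : i = i1
      · have h1 := hA j (by rw [← hi]; exact hij.symm)
        rw [hi, ← hα1]
        have e1 : w m ^ 2 * w ((α2 - α1) * (α0 - α1) * (α0 - α j.succ)) =
            w m * w (α0 - α1) * (w m * w ((α2 - α1) * (α0 - α j.succ))) := by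
          simp only [map_mul, pow_two]
          ac_rfl
        have e2 : w ((α0 - α2) * (α0 - α1) * (α1 - α j.succ)) =
            1 * w (α0 - α1) * w ((α0 - α2) * (α1 - α j.succ)) := by
          simp only [map_mul, one_mul]
          ac_rfl
        rw [e1, e2]
        exact mul_le_mul' (mul_le_mul' hm1 le_rfl) h1
      · have h1 := hA i hi
        have h2 := hcr i1.succ i.succ 0 j.succ (Fin.succ_ne_zero _) hsij
        have h2' : w m * w ((α1 - α i.succ) * (α0 - α j.succ)) ≤ w ((α0 - α1) * (α i.succ - α j.succ)) := by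
          refine h2.trans (le_of_eq ?_)
          have : (α i1.succ - α 0) * (α i.succ - α j.succ) = - ((α0 - α1) * (α i.succ - α j.succ)) := by
            rw [hα0, hα1]; ring
          rw [this, Valuation.map_neg]
        have h1i : α1 - α i.succ ≠ 0 := hsub _ _ (fun h => hi (Fin.succ_injective _ h).symm)
        have hpos : 0 < w (α1 - α i.succ) := zero_lt_iff.2 (by rw [Ne, Valuation.zero_iff]; exact h1i)
        have h3 := mul_le_mul' h1 h2'
        rw [← mul_le_mul_iff_right₀ hpos]
        calc w (α1 - α i.succ) * (w m ^ 2 * w ((α2 - α1) * (α0 - α i.succ) * (α0 - α j.succ)))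
            = w m * w ((α2 - α1) * (α0 - α i.succ)) * (w m * w ((α1 - α i.succ) * (α0 - α j.succ))) := by
              simp only [map_mul, pow_two]
              ac_rfl
          _ ≤ w ((α0 - α2) * (α1 - α i.succ)) * w ((α0 - α1) * (α i.succ - α j.succ)) := h3
          _ = w (α1 - α i.succ) * w ((α0 - α2) * (α0 - α1) * (α i.succ - α j.succ)) := by
              simp only [map_mul]
              ac_rfl
    have h4 : w m ^ 2 ≤ w (β i - β j) := by
      rw [hβd, map_div₀, le_div_iff₀ (zero_lt_iff.2 (by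
        rw [Ne, Valuation.zero_iff]; exact mul_ne_zero (mul_ne_zero h21 (h0j i)) (h0j j)))]
      exact key
    have h5 : s i - s j = m ^ 2 * (β i - β j) := by rw [hs]; ring
    rw [h5, map_mul, map_pow]
    calc w m ^ 4 = w m ^ 2 * w m ^ 2 := by rw [← pow_add]
      _ ≤ w m ^ 2 * w (β i - β j) := mul_le_mul' le_rfl h4
  have hmonic : P.Monic := by rw [hP']; exact monic_prod_of_monic _ _ fun j _ => monic_X_sub_C _
  have hPdeg : P.natDegree = 2 * g + 1 := natDegree_split 1 one_ne_zero s
  obtain ⟨ε, hε⟩ := discr_split (by omega : 1 ≤ 2 * g + 1) (1 : L) one_ne_zero s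
  rw [← hP, one_pow, one_mul] at hε
  have hdiscw : w m ^ (4 * ((2 * g + 1) * (2 * g))) ≤ w P.discr := by
    rw [hε, w_unit, map_prod]
    simp only [map_prod]
    have h1 : w m ^ (4 * ((2 * g + 1) * (2 * g))) =
        ∏ i : Fin (2 * g + 1), ∏ j ∈ Finset.univ.erase i, w m ^ 4 := by
      have h2 : ∀ i : Fin (2 * g + 1), ∏ j ∈ Finset.univ.erase i, w m ^ 4 = (w m ^ 4) ^ (2 * g) := by
        intro i
        rw [Finset.prod_const, Finset.card_erase_of_mem (Finset.mem_univ _), Finset.card_univ,
          Fintype.card_fin, Nat.add_sub_cancel]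
      rw [Finset.prod_congr rfl fun i _ => h2 i, Finset.prod_const, Finset.card_univ, Fintype.card_fin,
        ← pow_mul, ← pow_mul]
      congr 1
      ring
    rw [h1]
    apply Finset.prod_le_prod' (fun i _ => ?_)
    apply Finset.prod_le_prod' (fun j hj => ?_)
    exact hdist i j (Finset.ne_of_mem_erase hj).symm
  have heq : eqDisc g (f0 P 0) = 2 ^ (4 * g) * P.discr := by
    rw [f0_zero, eqDisc, if_neg (by omega), hmonic.leadingCoeff, one_pow, mul_one]
  refine ⟨P, ⟨?_, fun i => by simp, by omega, by simp, ?_, ?_⟩, ?_, ?_⟩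
  · -- integrality
    have h1 : ∀ t : Finset (Fin (2 * g + 1)), CB w 1 (∏ j ∈ t, (X - C (s j))) := by
      intro t
      induction t using Finset.induction_on with
      | empty => simpa using CB_one
      | insert j t hj ih =>
        rw [Finset.prod_insert hj]
        have := (CB_X.sub (CB_C (hβint j))).mul ih
        rwa [mul_one] at this
    rw [hP']
    exact h1 Finset.univ
  · rw [f0_zero]; left; exact hPdeg
  · rw [f0_zero]
    set κ' := κ / m ^ 2 with hκ'
    have hκ'0 : κ' ≠ 0 := div_ne_zero hκ0 (pow_ne_zero _ hm0)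
    refine ⟨α0 * κ', α1, κ', 1, e, ?_, ?_, ?_⟩
    · have : α0 * κ' * 1 - α1 * κ' = (α0 - α1) * κ' := by ring
      rw [this]
      exact mul_ne_zero h01 hκ'0
    · rintro rfl
      simp at he
    · intro x hx
      have h1 : (κ' * x + 1) ^ (2 * g + 2) * (C a * ∏ j, (X - C (α j))).eval
          ((α0 * κ' * x + α1) / (κ' * x + 1)) = gam g a m α i1 i2 * P.eval x := by
        rw [eval_mul, eval_C, eval_prod, hP', eval_prod]
        simp only [eval_sub, eval_X, eval_C]
        have h2 : (κ' * x + 1) ^ (2 * g + 2) *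
            (a * ∏ j, ((α0 * κ' * x + α1) / (κ' * x + 1) - α j)) =
            a * ∏ j : Fin (2 * g + 1 + 1), ((κ' * x + 1) * ((α0 * κ' * x + α1) / (κ' * x + 1) - α j)) := by
          rw [Finset.prod_mul_distrib, Finset.prod_const, Finset.card_univ, Fintype.card_fin]
          ring
        rw [h2]
        have h3 : ∀ j : Fin (2 * g + 1 + 1), (κ' * x + 1) * ((α0 * κ' * x + α1) / (κ' * x + 1) - α j) =
            (α0 - α j) * κ' * x + (α1 - α j) := by
          intro j
          rw [mul_sub, mul_div_cancel₀ _ hx]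
          ring
        rw [Finset.prod_congr rfl fun j _ => h3 j, Fin.prod_univ_succ, ← hα0]
        have h4 : ∀ j : Fin (2 * g + 1), (α0 - α j.succ) * κ' * x + (α1 - α j.succ) =
            ((α0 - α j.succ) * κ') * (x - s j) := by
          intro j
          have h5 : (α0 - α j.succ) * κ' * s j = α j.succ - α1 := by
            rw [hs, hκ', hκ, hβ]
            have := h0j j
            field_simp
          linear_combination h5
        rw [Finset.prod_congr rfl fun j _ => h4 j, Finset.prod_mul_distrib, gam]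
        rw [sub_self, zero_mul, zero_mul, zero_add]
        ring
      have h6 : e ^ 2 * ((κ' * x + 1) ^ (2 * g + 2) * (C a * ∏ j, (X - C (α j))).eval
          ((α0 * κ' * x + α1) / (κ' * x + 1))) = P.eval x := by
        rw [h1, ← mul_assoc, he, one_mul]
      rw [← h6]
      ring
  · rw [heq]
    refine mul_ne_zero (pow_ne_zero _ two_ne_zero) ?_
    intro h
    rw [h, map_zero] at hdiscw
    exact absurd hdiscw (not_le_of_gt (pow_pos hwmpos _))
  · rw [heq, map_mul, map_mul, map_pow w m]
    exact mul_le_mul' le_rfl hdiscw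

end val

end Pool.Agent.Lib.MP_ca2859_nt
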