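import Mathlib
import Pool.Agent.Lib.MP_ca2859_nt.CRStable2

open Polynomial WithZero IsDedekindDomain NumberField

namespace Pool.Agent.Lib.MP_ca2859_nt

section
variable {K : Type} [Field K] [NumberField K]

theorem gam_map {L L' : Type*} [Field L] [Field L'] (φ : L →+* L') (g : ℕ) (a m : L)
    (α : Fin (2 * g + 1 + 1) → L) (i1 i2 : Fin (2 * g + 1)) :
    φ (gam g a m α i1 i2) = gam g (φ a) (φ m) (fun j => φ (α j)) i1 i2 := by
  simp [gam, map_prod]

theorem gam_ne_zero {L : Type*} [Field L] (g : ℕ) (a m : L) (ha : a ≠ 0) (hm : m ≠ 0)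
    (α : Fin (2 * g + 1 + 1) → L) (hα : Function.Injective α) (i1 i2 : Fin (2 * g + 1))
    (h12 : i1 ≠ i2) : gam g a m α i1 i2 ≠ 0 := by
  have hsub : ∀ a b, a ≠ b → α a - α b ≠ 0 := fun a b hab h => hab (hα (sub_eq_zero.1 h))
  have h0s : ∀ j : Fin (2 * g + 1), (0 : Fin (2 * g + 1 + 1)) ≠ j.succ := fun j => (Fin.succ_ne_zero j).symm
  rw [gam]
  refine mul_ne_zero (mul_ne_zero ha (hsub _ _ (Fin.succ_ne_zero _))) ?_
  rw [Finset.prod_ne_zero_iff]
  intro j _
  refine mul_ne_zero (hsub _ _ (h0s j)) (div_ne_zero (div_ne_zero (hsub _ _ ?_) (hsub _ _ (h0s i2)))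
    (pow_ne_zero _ hm))
  intro h
  exact h12 (Fin.succ_injective _ h).symm

/-- a finite extension over which everything is rational -/
theorem exists_big_field (g : ℕ) (hg : 1 ≤ g) (f : K[X]) (hf : IsHyperelliptic g f)
    (hfd : f.natDegree = 2 * g + 1 + 1) (m : ℕ) (hm : 0 < m) (i1 i2 : Fin (2 * g + 1)) (h12 : i1 ≠ i2) :
    ∃ (L : Type) (_ : Field L) (_ : NumberField L) (_ : Algebra K L) (a e : L)
      (α : Fin (2 * g + 1 + 1) → L), a ≠ 0 ∧ Function.Injective α ∧
      f.map (algebraMap K L) = C a * ∏ j, (X - C (α j)) ∧ e ^ 2 * gam g a (m : L) α i1 i2 = 1 := by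
  let Om := AlgebraicClosure K
  obtain ⟨α, hα⟩ := split_enum (f.map (algebraMap K Om)) (IsAlgClosed.splits _) (2 * g + 1 + 1)
    (by rw [natDegree_map]; exact hfd)
  have hlc : (f.map (algebraMap K Om)).leadingCoeff = algebraMap K Om f.leadingCoeff :=
    leadingCoeff_map _
  rw [hlc] at hα
  set a := algebraMap K Om f.leadingCoeff with ha
  have hf0 : f ≠ 0 := by rintro rfl; simp at hfd
  have ha0 : a ≠ 0 := by
    rw [ha, Ne, map_eq_zero, leadingCoeff_eq_zero]; exact hf0
  have hinj : Function.Injective α := by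
    intro i j hij
    by_contra hne
    have hsep : (f.map (algebraMap K Om)).Separable := hf.1.map
    rw [hα] at hsep
    have h1 : (∏ j, (X - C (α j)) : Om[X]).Separable := hsep.of_mul_right
    rw [separable_prod_X_sub_C_iff] at h1
    exact hne (h1 hij)
  have hmOm : (m : Om) ≠ 0 := by exact_mod_cast hm.ne'
  have hΓ : gam g a (m : Om) α i1 i2 ≠ 0 := gam_ne_zero g a m ha0 hmOm α hinj i1 i2 h12
  obtain ⟨e, he⟩ := IsAlgClosed.exists_pow_nat_eq (gam g a (m : Om) α i1 i2)⁻¹ (n := 2) (by norm_num)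
  have he' : e ^ 2 * gam g a (m : Om) α i1 i2 = 1 := by
    rw [he, inv_mul_cancel₀ hΓ]
  set S : Set Om := Set.range α ∪ {e} with hS
  have hSfin : S.Finite := (Set.finite_range α).union (Set.finite_singleton e)
  have : Finite S := hSfin
  let L := IntermediateField.adjoin K S
  have hfin : FiniteDimensional K L := IntermediateField.finiteDimensional_adjoin
    (fun x _ => (Algebra.IsAlgebraic.isAlgebraic x).isIntegral)
  have hNF : NumberField L := NumberField.of_module_finite K L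
  have hmem : ∀ j, α j ∈ L := fun j => IntermediateField.subset_adjoin K S (Or.inl ⟨j, rfl⟩)
  have hmem' : e ∈ L := IntermediateField.subset_adjoin K S (Or.inr rfl)
  refine ⟨L, inferInstance, hNF, inferInstance, algebraMap K L f.leadingCoeff, ⟨e, hmem'⟩,
    fun j => ⟨α j, hmem j⟩, ?_, ?_, ?_, ?_⟩
  · rw [Ne, map_eq_zero, leadingCoeff_eq_zero]; exact hf0
  · intro i j hij
    exact hinj (congrArg Subtype.val hij)
  · have hinjL : Function.Injective (algebraMap L Om) := (algebraMap L Om).injective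
    apply Polynomial.map_injective (algebraMap L Om) hinjL
    rw [Polynomial.map_map, ← IsScalarTower.algebraMap_eq, hα, Polynomial.map_mul, Polynomial.map_C,
      Polynomial.map_prod]
    congr 1
    apply Finset.prod_congr rfl
    intro j _
    rw [Polynomial.map_sub, Polynomial.map_X, Polynomial.map_C]
    rfl
  · apply (algebraMap L Om).injective
    rw [map_mul, map_pow, gam_map, map_one, map_natCast (algebraMap L Om)]
    exact he'

/-- local bound when the cross ratios are bounded -/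
theorem caseA_local (g : ℕ) (hg : 1 ≤ g) (p : Fin 4 → Fin (2 * g + 1 + 1)) (hp : Function.Injective p)
    (N : ℕ) (T : ℕ → MvPolynomial ℕ ℤ)
    (hT : ∀ (R : Type) [CommRing R] (a : R) (α : Fin (2 * g + 1 + 1) → R) (k : ℕ),
      MvPolynomial.aeval (fun i => (C a * ∏ j, (X - C (α j))).coeff i) (T k) =
        a ^ N * (CR p α).coeff k)
    (f : K[X]) (hf : IsHyperelliptic g f) (hfd : f.natDegree = 2 * g + 1 + 1) (m : ℕ) (hm : 0 < m)
    (v : HeightOneSpectrum (𝓞 K))
    (hA : ∀ k ≤ Fintype.card (Equiv.Perm (Fin (2 * g + 1 + 1))),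
      v.valuation K (m : K) * v.valuation K (MvPolynomial.aeval (fun i => f.coeff i) (T k)) ≤
      v.valuation K (MvPolynomial.aeval (fun i => f.coeff i)
        (T (Fintype.card (Equiv.Perm (Fin (2 * g + 1 + 1))))))) :
    (discExp g f v : ℤ) ≤ (2 * g + 1) * (g + 3) +
      (4 * g + 3) ^ 2 * ord (v.valuation K) ((2 ^ (4 * g) * m ^ (4 * ((2 * g + 1) * (2 * g))) : ℕ) : K) +
      ord (v.valuation K) ((cst g : ℕ) : K) := by
  have h12 : (⟨0, by omega⟩ : Fin (2 * g + 1)) ≠ ⟨1, by omega⟩ := by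
    intro h; exact absurd (congrArg Fin.val h) (by norm_num)
  obtain ⟨L, _, _, _, a, e, α, ha0, hα, hfα, he⟩ := exists_big_field g hg f hf hfd m hm _ _ h12
  obtain ⟨w, hw⟩ := exists_place_above (K := K) (L := L) v
  set e' := Ideal.ramificationIdx' v.asIdeal w.asIdeal with he'
  have he0 : e' ≠ 0 := Ideal.IsDedekindDomain.ramificationIdx'_ne_zero_of_liesOver w.asIdeal v.ne_bot
  have hvw : ∀ x : K, w.valuation L (algebraMap K L x) = v.valuation K x ^ e' := fun x =>
    (HeightOneSpectrum.valuation_liesOver L v w x).symm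
  have hwm : w.valuation L (m : L) = v.valuation K (m : K) ^ e' := by
    have h1 := hvw (m : K)
    rwa [map_natCast (algebraMap K L)] at h1
  have hm1 : w.valuation L (m : L) ≤ 1 := natCast_le_one _ _
  have hmL : (m : L) ≠ 0 := by exact_mod_cast hm.ne'
  -- the coefficients of the polynomial of cross ratios
  have hcoef : ∀ k, w.valuation L (m : L) * w.valuation L ((CR p α).coeff k) ≤
      w.valuation L ((CR p α).coeff (Fintype.card (Equiv.Perm (Fin (2 * g + 1 + 1))))) := by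
    intro k
    by_cases hkD : k ≤ Fintype.card (Equiv.Perm (Fin (2 * g + 1 + 1)))
    swap
    · have h1 : (CR p α).coeff k = 0 := by
        apply coeff_eq_zero_of_natDegree_lt
        have h2 : (CR p α).natDegree ≤ ∑ σ : Equiv.Perm (Fin (2 * g + 1 + 1)), 1 := by
          rw [CR]
          exact (natDegree_prod_le _ _).trans (Finset.sum_le_sum fun σ _ => CR_natDegree_le p α σ)
        rw [Finset.sum_const, Finset.card_univ, smul_eq_mul, mul_one] at h2
        omega
      rw [h1, map_zero, mul_zero]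
      exact zero_le
    have h1 := pow_le_pow_left₀ zero_le (hA k hkD) e'
    rw [mul_pow, ← hwm, ← hvw, ← hvw, map_aeval_coeff, map_aeval_coeff, hfα, hT, hT, map_mul, map_mul,
      mul_left_comm] at h1
    have hapos : 0 < w.valuation L (a ^ N) := zero_lt_iff.2 (by
      rw [Ne, Valuation.zero_iff]; exact pow_ne_zero _ ha0)
    exact (mul_le_mul_iff_right₀ hapos).1 h1
  have hcr := cross_le (w := w.valuation L) p hp α hα _ hm1 hcoef
  obtain ⟨P, hP1, hP2, hP3⟩ := exists_model_of_cross (w := w.valuation L) g hg (m : L) hmL hm1 a α hα hcr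
    _ _ h12 e he
  rw [← hfα] at hP1
  -- the exponent upstairs
  have hordZ : ord (w.valuation L) (2 ^ (4 * g) * (m : L) ^ (4 * ((2 * g + 1) * (2 * g)))) =
      e' * ord (v.valuation K) ((2 ^ (4 * g) * m ^ (4 * ((2 * g + 1) * (2 * g))) : ℕ) : K) := by
    have h1 : (2 ^ (4 * g) * (m : L) ^ (4 * ((2 * g + 1) * (2 * g)))) =
        algebraMap K L ((2 ^ (4 * g) * m ^ (4 * ((2 * g + 1) * (2 * g))) : ℕ) : K) := by
      rw [map_natCast (algebraMap K L)]; push_cast; ring
    rw [h1, ord, hvw, log_pow, ord]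
    simp
  have hle1 : w.valuation L (eqDisc g (f0 P 0)) ≤ 1 := by
    rw [f0_zero]
    exact eqDisc_le_one g hP1.intP
  have hord0 : 0 ≤ ord (w.valuation L) (eqDisc g (f0 P 0)) := ord_nonneg hle1
  obtain ⟨k', hk'⟩ := Int.eq_ofNat_of_zero_le hord0
  have hn : discExp g (f.map (algebraMap K L)) w ≤ k' := by
    apply minDiscExp_le
    refine ⟨P, 0, hP1, ?_⟩
    rw [w_eq_exp hP2, hk']
  have hZ0 : (2 ^ (4 * g) * (m : L) ^ (4 * ((2 * g + 1) * (2 * g)))) ≠ 0 :=
    mul_ne_zero (pow_ne_zero _ two_ne_zero) (pow_ne_zero _ hmL)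
  have hkZ : (k' : ℤ) ≤ e' * ord (v.valuation K)
      ((2 ^ (4 * g) * m ^ (4 * ((2 * g + 1) * (2 * g))) : ℕ) : K) := by
    rw [← hordZ, ← hk']
    rw [w_eq_exp hZ0, w_eq_exp hP2, exp_le_exp] at hP3
    linarith
  have hb := discExp_bound g hg f hf v w
  rw [← he'] at hb
  have he'pos : (0 : ℤ) < e' := by exact_mod_cast Nat.pos_of_ne_zero he0
  have hn' : (discExp g (f.map (algebraMap K L)) w : ℤ) ≤ e' * ord (v.valuation K)
      ((2 ^ (4 * g) * m ^ (4 * ((2 * g + 1) * (2 * g))) : ℕ) : K) :=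
    le_trans (by exact_mod_cast hn) hkZ
  have h3 : (e' : ℤ) * discExp g f v ≤ e' * ((2 * g + 1) * (g + 3) +
      (4 * g + 3) ^ 2 * ord (v.valuation K) ((2 ^ (4 * g) * m ^ (4 * ((2 * g + 1) * (2 * g))) : ℕ) : K) +
      ord (v.valuation K) ((cst g : ℕ) : K)) := by
    calc (e' : ℤ) * discExp g f v ≤ _ := hb
      _ ≤ e' * ((2 * g + 1) * (g + 3)) + (4 * g + 3) ^ 2 * (e' * ord (v.valuation K)
          ((2 ^ (4 * g) * m ^ (4 * ((2 * g + 1) * (2 * g))) : ℕ) : K)) +
          e' * ord (v.valuation K) ((cst g : ℕ) : K) := by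
        have : (0:ℤ) ≤ (4 * g + 3) ^ 2 := by positivity
        have := mul_le_mul_of_nonneg_left hn' this
        linarith
      _ = _ := by ring
  exact le_of_mul_le_mul_left h3 he'pos

/-- global bound when the cross ratios are bounded -/
theorem caseA_global (g : ℕ) (hg : 1 ≤ g) (f : K[X]) (hf : IsHyperelliptic g f) (Z : ℕ) (hZ : 0 < Z)
    (h : ∀ v : HeightOneSpectrum (𝓞 K), (discExp g f v : ℤ) ≤ (2 * g + 1) * (g + 3) +
      (4 * g + 3) ^ 2 * ord (v.valuation K) ((Z : ℕ) : K) + ord (v.valuation K) ((cst g : ℕ) : K)) :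
    DeltaC g f ≤ (Z ^ ((4 * g + 3) ^ 2) * cst g) ^ Module.finrank ℚ K *
      MC g f ^ ((2 * g + 1) * (g + 3)) := by
  classical
  set S := (finite_bad g f hf).toFinset with hS
  have hD : DeltaC g f = ∏ v ∈ S, Ideal.absNorm v.asIdeal ^ discExp g f v := by
    rw [DeltaC, finprod_eq_prod_of_mulSupport_subset (s := S)]
    intro v hv
    rw [hS, Finset.mem_coe, Set.Finite.mem_toFinset]
    intro h0
    exact hv (by simp [h0])
  have hM : MC g f = ∏ v ∈ S, Ideal.absNorm v.asIdeal := by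
    rw [MC, finprod_eq_prod_of_mulSupport_subset (s := S)]
    · refine Finset.prod_congr rfl (fun v hv => ?_)
      rw [if_neg]
      rw [hS, Set.Finite.mem_toFinset] at hv
      exact hv
    · intro v hv
      rw [hS, Finset.mem_coe, Set.Finite.mem_toFinset]
      intro h0
      exact hv (by simp [h0])
  have hc0 : 0 < Z ^ ((4 * g + 3) ^ 2) * cst g := Nat.mul_pos (pow_pos hZ _) (cst_pos g hg)
  have hle : ∀ v, discExp g f v ≤ (2 * g + 1) * (g + 3) + cnt (Z ^ ((4 * g + 3) ^ 2) * cst g) v := by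
    intro v
    have h1 := h v
    have h2 := ord_eq_cnt _ hc0 v
    have hZ0 : ((Z : ℕ) : K) ≠ 0 := by exact_mod_cast hZ.ne'
    have hcst0 : ((cst g : ℕ) : K) ≠ 0 := by exact_mod_cast (cst_pos g hg).ne'
    have h3 : ord (v.valuation K) ((Z ^ ((4 * g + 3) ^ 2) * cst g : ℕ) : K) =
        (4 * g + 3) ^ 2 * ord (v.valuation K) ((Z : ℕ) : K) + ord (v.valuation K) ((cst g : ℕ) : K) := by
      rw [Nat.cast_mul, Nat.cast_pow, ord_mul (pow_ne_zero _ hZ0) hcst0, ord_pow]
      push_cast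
      ring
    have h4 : (discExp g f v : ℤ) ≤ (2 * g + 1) * (g + 3) + cnt (Z ^ ((4 * g + 3) ^ 2) * cst g) v := by
      rw [← h2, h3]
      linarith
    exact_mod_cast h4
  rw [hD, hM, ← Finset.prod_pow]
  calc ∏ v ∈ S, Ideal.absNorm v.asIdeal ^ discExp g f v
      ≤ ∏ v ∈ S, (Ideal.absNorm v.asIdeal ^ cnt (Z ^ ((4 * g + 3) ^ 2) * cst g) v *
        Ideal.absNorm v.asIdeal ^ ((2 * g + 1) * (g + 3))) := by
        apply Finset.prod_le_prod'
        intro v _
        rw [← pow_add]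
        exact Nat.pow_le_pow_right (by have := one_le_absNorm v; omega) (by have := hle v; omega)
    _ = (∏ v ∈ S, Ideal.absNorm v.asIdeal ^ cnt (Z ^ ((4 * g + 3) ^ 2) * cst g) v) *
        ∏ v ∈ S, Ideal.absNorm v.asIdeal ^ ((2 * g + 1) * (g + 3)) := Finset.prod_mul_distrib
    _ ≤ _ := Nat.mul_le_mul_right _ (prod_cnt_le _ hc0 S)

end

end Pool.Agent.Lib.MP_ca2859_nt
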