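import Mathlib

/-!
# Elimination of one variable, clearing denominators
-/

open NumberField

namespace Pool.Agent.Lib.MP_ca2859_nt

section elim
open Polynomial

theorem elim_prime {B : Type*} [CommRing B] [IsDomain B] (π s : B[X]) (hπ : Prime π)
    (hs : ¬ π ∣ s) :
    ∃ (U V : B[X]) (E : B), E ≠ 0 ∧ U * π + V * s = C E := by
  have hdom : IsDomain (AdjoinRoot π) := AdjoinRoot.isDomain_of_prime hπ
  have h1 : IsAlgebraic B (AdjoinRoot.root π) := ⟨π, hπ.ne_zero, by
    rw [AdjoinRoot.aeval_eq, AdjoinRoot.mk_self]⟩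
  have h2 : (Algebra.adjoin B ({AdjoinRoot.root π} : Set (AdjoinRoot π))).IsAlgebraic :=
    Algebra.isAlgebraic_adjoin_singleton_iff.2 h1
  rw [AdjoinRoot.adjoinRoot_eq_top] at h2
  have h3 : IsAlgebraic B (AdjoinRoot.mk π s) := h2 _ trivial
  have h4 : AdjoinRoot.mk π s ≠ 0 := by
    rw [Ne, AdjoinRoot.mk_eq_zero]; exact hs
  obtain ⟨E, hE0, c, hc⟩ := h3.exists_nonzero_dvd (mem_nonZeroDivisors_of_ne_zero h4)
  obtain ⟨V, rfl⟩ := AdjoinRoot.mk_surjective c
  have h5 : AdjoinRoot.mk π (s * V - C E) = 0 := by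
    rw [map_sub, map_mul, ← hc, AdjoinRoot.mk_C, AdjoinRoot.algebraMap_eq, sub_self]
  rw [AdjoinRoot.mk_eq_zero] at h5
  obtain ⟨W, hW⟩ := h5
  refine ⟨-W, V, E, hE0, ?_⟩
  linear_combination hW

end elim

section phi
open MvPolynomial

variable {R S : Type*} [CommRing R] [CommRing S]

/-- polynomials in `r + 1` variables as polynomials in the `i`-th variable -/
noncomputable def Phi (R : Type*) [CommRing R] (r : ℕ) (i : Fin (r + 1)) :
    MvPolynomial (Fin (r + 1)) R ≃ₐ[R] Polynomial (MvPolynomial (Fin r) R) :=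
  (renameEquiv R (Equiv.swap 0 i)).trans (finSuccEquiv R r)

theorem Phi_apply (r : ℕ) (i : Fin (r + 1)) (P : MvPolynomial (Fin (r + 1)) R) :
    Phi R r i P = finSuccEquiv R r (rename (Equiv.swap 0 i) P) := rfl

theorem eval_Phi (r : ℕ) (i : Fin (r + 1)) (P : MvPolynomial (Fin (r + 1)) R) (a : Fin (r + 1) → R) :
    eval a P = Polynomial.eval (a i)
      ((Phi R r i P).map (eval (fun j => a (Equiv.swap 0 i j.succ)))) := by
  rw [Phi_apply, ← eval_eq_eval_mv_eval', eval_rename]
  have h : (Fin.cons (a i) (fun j => a (Equiv.swap 0 i j.succ)) : Fin (r + 1) → R) ∘ (Equiv.swap 0 i) = a := by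
    funext k
    simp only [Function.comp]
    have h2 : (Fin.cons (a i) (fun j => a (Equiv.swap 0 i j.succ)) : Fin (r + 1) → R) =
        fun k => a (Equiv.swap 0 i k) := by
      funext k
      refine Fin.cases ?_ (fun j => ?_) k
      · simp
      · simp
    rw [h2]
    simp
  rw [h]

theorem Phi_natDegree (r : ℕ) (i : Fin (r + 1)) (P : MvPolynomial (Fin (r + 1)) R) :
    (Phi R r i P).natDegree = degreeOf i P := by
  rw [Phi_apply, natDegree_finSuccEquiv]
  have h := degreeOf_rename_of_injective (p := P) (Equiv.swap 0 i).injective i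
  rw [Equiv.swap_apply_right] at h
  exact h

theorem Phi_map (φ : R →+* S) (r : ℕ) (i : Fin (r + 1)) (P : MvPolynomial (Fin (r + 1)) R) :
    Phi S r i (map φ P) = (Phi R r i P).map (map φ) := by
  have h : (Phi S r i).toRingEquiv.toRingHom.comp (map φ : MvPolynomial (Fin (r + 1)) R →+* _) =
      (Polynomial.mapRingHom (map φ)).comp (Phi R r i).toRingEquiv.toRingHom := by
    apply MvPolynomial.ringHom_ext
    · intro c
      simp [Phi_apply, finSuccEquiv_apply]
    · intro j
      change Phi S r i (map φ (X j)) = Polynomial.map (map φ) (Phi R r i (X j))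
      rw [map_X, Phi_apply, Phi_apply, rename_X, rename_X]
      refine Fin.cases ?_ (fun k => ?_) (Equiv.swap 0 i j)
      · simp [finSuccEquiv_X_zero]
      · simp [finSuccEquiv_X_succ]
  exact RingHom.congr_fun h P

omit [CommRing R] in
theorem update_swap (r : ℕ) (i : Fin (r + 1)) (a : Fin (r + 1) → R) (x : R) :
    (fun j : Fin r => Function.update a i x (Equiv.swap 0 i j.succ)) =
      fun j => a (Equiv.swap 0 i j.succ) := by
  funext j
  rw [Function.update_of_ne]
  intro h
  have h2 := congrArg (Equiv.swap 0 i) h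
  rw [Equiv.swap_apply_self, Equiv.swap_apply_right] at h2
  exact Fin.succ_ne_zero j h2

/-- a polynomial not involving the `i`-th variable -/
theorem eval_update_indep (r : ℕ) (i : Fin (r + 1)) (E₀ : MvPolynomial (Fin r) R)
    (a : Fin (r + 1) → R) (x : R) :
    eval (Function.update a i x) ((Phi R r i).symm (Polynomial.C E₀)) =
      eval a ((Phi R r i).symm (Polynomial.C E₀)) := by
  rw [eval_Phi r i _ (Function.update a i x), eval_Phi r i _ a, AlgEquiv.apply_symm_apply,
    Polynomial.map_C, Polynomial.map_C, Polynomial.eval_C, Polynomial.eval_C, update_swap]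

theorem fibre_card_le [IsDomain R] [DecidableEq R] (r : ℕ) (i : Fin (r + 1)) (P : MvPolynomial (Fin (r + 1)) R)
    (hdeg : 0 < (Phi R r i P).natDegree) (a : Fin (r + 1) → R)
    (hlc : eval a ((Phi R r i).symm (Polynomial.C (Phi R r i P).leadingCoeff)) ≠ 0)
    (D : R) (S : Finset R) (hS : ∀ x ∈ S, eval (Function.update a i x) P = D) :
    S.card ≤ (Phi R r i P).natDegree := by
  set b : Fin r → R := fun j => a (Equiv.swap 0 i j.succ) with hb
  set p := (Phi R r i P).map (eval b) with hp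
  have hlc' : p.coeff (Phi R r i P).natDegree ≠ 0 := by
    rw [hp, Polynomial.coeff_map]
    rw [eval_Phi r i _ a, AlgEquiv.apply_symm_apply, Polynomial.map_C, Polynomial.eval_C] at hlc
    exact hlc
  have hpd : p.natDegree ≤ (Phi R r i P).natDegree := Polynomial.natDegree_map_le
  set q := p - Polynomial.C D with hq
  have hqc : q.coeff (Phi R r i P).natDegree ≠ 0 := by
    rw [hq, Polynomial.coeff_sub, Polynomial.coeff_C, if_neg (by omega), sub_zero]
    exact hlc'
  have hq0 : q ≠ 0 := by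
    intro h; rw [h] at hqc; simp at hqc
  have hqd : q.natDegree ≤ (Phi R r i P).natDegree := by
    rw [hq]
    refine (Polynomial.natDegree_sub_le _ _).trans ?_
    simp [hpd]
  refine (le_trans ?_ (Polynomial.card_roots' q)).trans hqd
  have hsub : S ⊆ q.roots.toFinset := by
    intro x hx
    rw [Multiset.mem_toFinset, Polynomial.mem_roots hq0, Polynomial.IsRoot, hq, Polynomial.eval_sub,
      Polynomial.eval_C, sub_eq_zero, ← hS x hx, eval_Phi r i P, Function.update_self, update_swap]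
  exact (Finset.card_le_card hsub).trans (Multiset.toFinset_card_le _)

end phi

section clear
open MvPolynomial
variable {K : Type} [Field K] [NumberField K]

theorem clear_elt (c : K) : ∃ m : ℕ, 0 < m ∧ ∃ c₀ : 𝓞 K, algebraMap (𝓞 K) K c₀ = (m : K) * c := by
  obtain ⟨a, b, hb, rfl⟩ := IsFractionRing.div_surjective (A := 𝓞 K) c
  have hb0 : b ≠ 0 := nonZeroDivisors.ne_zero hb
  have h1 := Ideal.absNorm_mem (Ideal.span {b})
  rw [Ideal.mem_span_singleton] at h1
  obtain ⟨y, hy⟩ := h1
  refine ⟨Ideal.absNorm (Ideal.span {b}), ?_, y * a, ?_⟩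
  · rw [Nat.pos_iff_ne_zero, Ne, Ideal.absNorm_eq_zero_iff, Ideal.span_singleton_eq_bot]
    exact hb0
  · have hbK : algebraMap (𝓞 K) K b ≠ 0 := by
      rw [Ne, FaithfulSMul.algebraMap_eq_zero_iff]; exact hb0
    have h2 : ((Ideal.absNorm (Ideal.span {b}) : ℕ) : K) = algebraMap (𝓞 K) K b * algebraMap (𝓞 K) K y := by
      rw [← map_mul, ← hy, map_natCast]
    rw [h2, map_mul]
    field_simp

theorem clear_poly {σ : Type*} (F : MvPolynomial σ K) : ∃ m : ℕ, 0 < m ∧
    ∃ F₀ : MvPolynomial σ (𝓞 K), map (algebraMap (𝓞 K) K) F₀ = (m : MvPolynomial σ K) * F := by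
  induction F using MvPolynomial.induction_on with
  | C c =>
    obtain ⟨m, hm, c₀, h⟩ := clear_elt c
    refine ⟨m, hm, C c₀, ?_⟩
    rw [map_C, h, C_mul, C_eq_coe_nat]
  | add p q hp hq =>
    obtain ⟨m₁, hm₁, p₀, hp₀⟩ := hp
    obtain ⟨m₂, hm₂, q₀, hq₀⟩ := hq
    refine ⟨m₁ * m₂, Nat.mul_pos hm₁ hm₂, (m₂ : MvPolynomial σ (𝓞 K)) * p₀ + (m₁ : MvPolynomial σ (𝓞 K)) * q₀, ?_⟩
    rw [map_add, map_mul, map_mul, map_natCast, map_natCast, hp₀, hq₀]
    push_cast
    ring
  | mul_X p i hp =>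
    obtain ⟨m, hm, p₀, h⟩ := hp
    refine ⟨m, hm, p₀ * X i, ?_⟩
    rw [map_mul, map_X, h]
    ring

end clear

end Pool.Agent.Lib.MP_ca2859_nt
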