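import Mathlib
import Pool.Agent.Lib.MP_ca2859_nt.Elim

/-!
# A dichotomy for fractions of polynomials over a number field
-/

open NumberField MvPolynomial

namespace Pool.Agent.Lib.MP_ca2859_nt

section
variable {K : Type} [Field K] [NumberField K]

theorem exists_var_of_irreducible {σ : Type*} (π : MvPolynomial σ K) (hπ : Irreducible π) :
    ∃ i, degreeOf i π ≠ 0 := by
  by_contra hcon
  push Not at hcon
  have h0 : π.totalDegree = 0 := by
    apply Nat.eq_zero_of_le_zero
    rw [totalDegree]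
    apply Finset.sup_le
    intro m hm
    have : ∀ i, m i = 0 := fun i => Nat.eq_zero_of_le_zero ((monomial_le_degreeOf i hm).trans (hcon i).le)
    rw [Finsupp.sum]
    exact (Finset.sum_eq_zero fun i _ => this i).le
  rw [totalDegree_eq_zero_iff_eq_C] at h0
  have hc : π.coeff 0 ≠ 0 := by
    intro h; rw [h, C_0] at h0; exact hπ.ne_zero h0
  apply hπ.not_isUnit
  rw [h0]
  exact (IsUnit.mk0 _ hc).map C

theorem dichotomy (r : ℕ) (q : MvPolynomial (Fin (r + 1)) (𝓞 K)) (hq : q ≠ 0) (D : ℕ)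
    (qk : ℕ → MvPolynomial (Fin (r + 1)) (𝓞 K)) :
    (∃ m : ℕ, 0 < m ∧ ∀ k ≤ D, ∃ s, (m : MvPolynomial (Fin (r + 1)) (𝓞 K)) * qk k = q * s) ∨
    (∃ (k : ℕ) (i : Fin (r + 1)) (P R S U V : MvPolynomial (Fin (r + 1)) (𝓞 K))
      (E₀ : MvPolynomial (Fin r) (𝓞 K)), P * R * qk k = q * S ∧ E₀ ≠ 0 ∧
      U * P + V * S = (Phi (𝓞 K) r i).symm (Polynomial.C E₀) ∧ 0 < (Phi (𝓞 K) r i P).natDegree) := by
  classical
  have hinjK : Function.Injective (algebraMap (𝓞 K) K) := FaithfulSMul.algebraMap_injective _ _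
  set ι := (map (algebraMap (𝓞 K) K) : MvPolynomial (Fin (r + 1)) (𝓞 K) →+* MvPolynomial (Fin (r + 1)) K)
    with hι
  have hinj : Function.Injective ι := map_injective _ hinjK
  by_cases h : ∀ k ≤ D, ι q ∣ ι (qk k)
  · left
    have h1 : ∀ k, ∃ m : ℕ, 0 < m ∧ (k ≤ D → ∃ s, (m : MvPolynomial (Fin (r + 1)) (𝓞 K)) * qk k = q * s) := by
      intro k
      by_cases hk : k ≤ D
      · obtain ⟨s', hs'⟩ := h k hk
        obtain ⟨m, hm, s, hs⟩ := clear_poly s'
        refine ⟨m, hm, fun _ => ⟨s, hinj ?_⟩⟩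
        rw [map_mul, map_mul, map_natCast, hs', ← hι] at *
        rw [hs]; ring
      · exact ⟨1, one_pos, fun h => absurd h hk⟩
    choose m hm hs using h1
    refine ⟨∏ k ∈ Finset.range (D + 1), m k, Finset.prod_pos fun k _ => hm k, ?_⟩
    intro k hk
    obtain ⟨s, hs'⟩ := hs k hk
    obtain ⟨c, hc⟩ := Finset.dvd_prod_of_mem m (Finset.mem_range.2 (by omega : k < D + 1))
    refine ⟨(c : MvPolynomial (Fin (r + 1)) (𝓞 K)) * s, ?_⟩
    rw [hc]
    push_cast
    linear_combination (c : MvPolynomial (Fin (r + 1)) (𝓞 K)) * hs'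
  · right
    push Not at h
    obtain ⟨k, -, hk⟩ := h
    have hq' : ι q ≠ 0 := by
      intro h0; exact hq (hinj (by rw [h0, map_zero]))
    obtain ⟨a', b', c', hrel, ha', hb'⟩ := UniqueFactorizationMonoid.exists_reduced_factors (ι q) hq' (ι (qk k))
    have ha'0 : a' ≠ 0 := by rintro rfl; rw [mul_zero] at ha'; exact hq' ha'.symm
    have ha'u : ¬ IsUnit a' := by
      intro hu
      apply hk
      rw [← ha', ← hb']
      exact mul_dvd_mul_left c' (hu.dvd)
    obtain ⟨π, hπ, a'', ha''⟩ := WfDvdMonoid.exists_irreducible_factor ha'u ha'0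
    have hπb : ¬ π ∣ b' := fun hd => hπ.not_isUnit (hrel ⟨a'', ha''⟩ hd)
    obtain ⟨i, hi⟩ := exists_var_of_irreducible π hπ
    have hprime : Prime (Phi K r i π) := by
      have h1 : Prime π := UniqueFactorizationMonoid.irreducible_iff_prime.1 hπ
      exact (MulEquiv.prime_iff (Phi K r i).toMulEquiv).2 h1
    have hnd : ¬ Phi K r i π ∣ Phi K r i b' := by
      intro hd
      apply hπb
      have := map_dvd (Phi K r i).symm hd
      rwa [AlgEquiv.symm_apply_apply, AlgEquiv.symm_apply_apply] at this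
    obtain ⟨U0, V0, E0, hE0, hUV⟩ := elim_prime _ _ hprime hnd
    have hUV' : (Phi K r i).symm U0 * π + (Phi K r i).symm V0 * b' =
        (Phi K r i).symm (Polynomial.C E0) := by
      apply (Phi K r i).injective
      rw [map_add, map_mul, map_mul, AlgEquiv.apply_symm_apply, AlgEquiv.apply_symm_apply,
        AlgEquiv.apply_symm_apply, hUV]
    obtain ⟨m1, hm1, P, hP⟩ := clear_poly π
    obtain ⟨m2, hm2, R0, hR0⟩ := clear_poly a''
    obtain ⟨m3, hm3, S0, hS0⟩ := clear_poly b'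
    obtain ⟨m4, hm4, U1, hU1⟩ := clear_poly ((Phi K r i).symm U0)
    obtain ⟨m5, hm5, V1, hV1⟩ := clear_poly ((Phi K r i).symm V0)
    obtain ⟨m6, hm6, E1, hE1⟩ := clear_poly E0
    rw [← hι] at hP hR0 hS0 hU1 hV1
    have hE1' : E1 ≠ 0 := by
      rintro rfl
      rw [map_zero] at hE1
      have : ((m6 : ℕ) : MvPolynomial (Fin r) K) ≠ 0 := by exact_mod_cast hm6.ne'
      exact mul_ne_zero this hE0 hE1.symm
    refine ⟨k, i, P, (m3 : ℕ) * R0, ((m1 * m2 : ℕ) : MvPolynomial (Fin (r + 1)) (𝓞 K)) * S0,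
      ((m2 * m3 * m5 * m6 : ℕ) : MvPolynomial (Fin (r + 1)) (𝓞 K)) * U1,
      ((m4 * m6 : ℕ) : MvPolynomial (Fin (r + 1)) (𝓞 K)) * V1,
      ((m1 * m2 * m3 * m4 * m5 : ℕ) : MvPolynomial (Fin r) (𝓞 K)) * E1, ?_, ?_, ?_, ?_⟩
    · apply hinj
      simp only [map_mul, map_natCast]
      rw [hP, hR0, hS0, ← hb', ← ha', ha'']
      push_cast
      ring
    · refine mul_ne_zero ?_ hE1'
      have : m1 * m2 * m3 * m4 * m5 ≠ 0 := by positivity
      exact_mod_cast this
    · have h1 : ι ((Phi (𝓞 K) r i).symm (Polynomial.C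
          (((m1 * m2 * m3 * m4 * m5 : ℕ) : MvPolynomial (Fin r) (𝓞 K)) * E1))) =
          (Phi K r i).symm (Polynomial.C ((((m1 * m2 * m3 * m4 * m5 * m6 : ℕ)) : MvPolynomial (Fin r) K) * E0)) := by
        apply (Phi K r i).injective
        rw [hι, Phi_map, AlgEquiv.apply_symm_apply, AlgEquiv.apply_symm_apply, Polynomial.map_C, map_mul,
          map_natCast, hE1]
        congr 1
        push_cast
        ring
      have h2 : (Phi K r i).symm (Polynomial.C ((((m1 * m2 * m3 * m4 * m5 * m6 : ℕ)) : MvPolynomial (Fin r) K) * E0)) =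
          (((m1 * m2 * m3 * m4 * m5 * m6 : ℕ)) : MvPolynomial (Fin (r + 1)) K) * (Phi K r i).symm (Polynomial.C E0) := by
        rw [Polynomial.C_mul, map_mul]
        congr 1
        rw [map_natCast, map_natCast]
      apply hinj
      rw [h1, h2, ← hUV']
      simp only [map_add, map_mul, map_natCast]
      rw [hP, hS0, hU1, hV1]
      push_cast
      ring
    · have h1 : (Phi K r i (ι P)).natDegree = (Phi (𝓞 K) r i P).natDegree := by
        rw [hι, Phi_map]
        exact Polynomial.natDegree_map_eq_of_injective (map_injective _ hinjK) _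
      rw [← h1, hP, map_mul, map_natCast]
      have h2 : ((m1 : ℕ) : Polynomial (MvPolynomial (Fin r) K)) = Polynomial.C ((m1 : ℕ) : MvPolynomial (Fin r) K) := by
        rw [map_natCast]
      have h3 : ((m1 : ℕ) : MvPolynomial (Fin r) K) ≠ 0 := by exact_mod_cast hm1.ne'
      rw [h2, Polynomial.natDegree_C_mul h3, Phi_natDegree]
      exact Nat.pos_of_ne_zero hi

end

end Pool.Agent.Lib.MP_ca2859_nt
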