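import Mathlib
import Pool.Agent.Lib.MP_ca2859_nt.Fiber

/-!
# The polynomial with a given array of integral coordinates
-/

open Polynomial WithZero IsDedekindDomain NumberField

set_option linter.unusedSectionVars false

namespace Pool.Agent.Lib.MP_ca2859_nt

section
variable {K : Type} [Field K] [NumberField K] {ι : Type} [Fintype ι]

/-- The algebraic integer with coordinates `t` in the family `ω`. -/
noncomputable def coordInt (ω : ι → 𝓞 K) (t : ι → ℤ) : 𝓞 K := ∑ j, t j • ω j

/-- The polynomial of degree at most `m - 1` whose coefficient of degree `i` has coordinates `a i`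
in the family `ω`. -/
noncomputable def coordPoly (ω : ι → 𝓞 K) {m : ℕ} (a : Fin m → ι → ℤ) : (𝓞 K)[X] :=
  ∑ i : Fin m, C (coordInt ω (a i)) * X ^ (i : ℕ)

/-- The same polynomial, over `K`. -/
noncomputable def curvePoly (ω : ι → 𝓞 K) {m : ℕ} (a : Fin m → ι → ℤ) : K[X] :=
  (coordPoly ω a).map (algebraMap (𝓞 K) K)

theorem coordInt_zero (ω : ι → 𝓞 K) : coordInt ω 0 = 0 := by simp [coordInt]

theorem coordInt_inj (ω : Module.Basis ι ℤ (𝓞 K)) : Function.Injective (coordInt (K := K) ω) := by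
  intro s t h
  unfold coordInt at h
  rw [← ω.equivFun_symm_apply, ← ω.equivFun_symm_apply] at h
  exact ω.equivFun.symm.injective h

theorem coordPoly_coeff (ω : ι → 𝓞 K) {m : ℕ} (a : Fin m → ι → ℤ) (i : Fin m) :
    (coordPoly ω a).coeff i = coordInt ω (a i) := by
  rw [coordPoly, finsetSum_coeff]
  simp only [coeff_C_mul, coeff_X_pow]
  rw [Finset.sum_eq_single i]
  · simp
  · intro j _ hj
    rw [if_neg (by intro h; exact hj (Fin.ext h.symm)), mul_zero]
  · intro h; exact absurd (Finset.mem_univ _) h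

theorem coordPoly_coeff_of_ge (ω : ι → 𝓞 K) {m : ℕ} (a : Fin m → ι → ℤ) (i : ℕ) (hi : m ≤ i) :
    (coordPoly ω a).coeff i = 0 := by
  rw [coordPoly, finsetSum_coeff]
  apply Finset.sum_eq_zero
  intro j _
  rw [coeff_C_mul, coeff_X_pow, if_neg (by have := j.2; omega), mul_zero]

theorem coordPoly_natDegree (ω : ι → 𝓞 K) {m : ℕ} (a : Fin (m + 1) → ι → ℤ) :
    (coordPoly ω a).natDegree ≤ m := by
  rw [natDegree_le_iff_coeff_eq_zero]
  intro N hN
  exact coordPoly_coeff_of_ge ω a N (by omega)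

theorem coordPoly_update (ω : ι → 𝓞 K) {m : ℕ} (a : Fin m → ι → ℤ) (i : Fin m) (t : ι → ℤ) :
    coordPoly ω (Function.update a i t) =
      coordPoly ω (Function.update a i 0) + C (coordInt ω t) * X ^ (i : ℕ) := by
  classical
  rw [coordPoly, coordPoly, ← Finset.add_sum_erase Finset.univ _ (Finset.mem_univ i),
    ← Finset.add_sum_erase Finset.univ (fun j : Fin m =>
      C (coordInt ω (Function.update a i 0 j)) * X ^ (j : ℕ)) (Finset.mem_univ i)]
  rw [Function.update_self, Function.update_self, coordInt_zero, C_0, zero_mul, zero_add, add_comm]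
  congr 1
  apply Finset.sum_congr rfl
  intro j hj
  rw [Function.update_of_ne (Finset.ne_of_mem_erase hj), Function.update_of_ne (Finset.ne_of_mem_erase hj)]

/-- A bound for the places of the elements of the family. -/
noncomputable def famW (ω : ι → 𝓞 K) : ℝ :=
  1 + ∑ w : InfinitePlace K, ∑ j, w ((ω j : 𝓞 K) : K)

theorem one_le_famW (ω : ι → 𝓞 K) : 1 ≤ famW ω := by
  rw [famW]
  have : 0 ≤ ∑ w : InfinitePlace K, ∑ j, w ((ω j : 𝓞 K) : K) :=
    Finset.sum_nonneg fun w _ => Finset.sum_nonneg fun j _ => apply_nonneg w _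
  linarith

theorem place_sum_le (w : InfinitePlace K) (s : Finset ι) (x : ι → K) :
    w (∑ j ∈ s, x j) ≤ ∑ j ∈ s, w (x j) := by
  classical
  induction s using Finset.induction_on with
  | empty =>
    have h0 : w (0 : K) = 0 := map_zero w
    simp [h0]
  | insert j s hj ih =>
    rw [Finset.sum_insert hj, Finset.sum_insert hj]
    exact (w.1.add_le _ _).trans (add_le_add le_rfl ih)

theorem coordInt_place (ω : ι → 𝓞 K) (t : ι → ℤ) (H : ℕ) (ht : ∀ j, |t j| ≤ (H : ℤ))
    (w : InfinitePlace K) : w ((coordInt ω t : 𝓞 K) : K) ≤ H * famW ω := by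
  classical
  have h1 : ((coordInt ω t : 𝓞 K) : K) = ∑ j, (t j : K) * ((ω j : 𝓞 K) : K) := by
    rw [coordInt]
    simp only [zsmul_eq_mul]
    push_cast
    rfl
  rw [h1]
  refine (place_sum_le w _ _).trans ?_
  calc ∑ j, w ((t j : K) * ((ω j : 𝓞 K) : K)) ≤ ∑ j, (H : ℝ) * w ((ω j : 𝓞 K) : K) := by
        apply Finset.sum_le_sum
        intro j _
        have h2 : w ((t j : K) * ((ω j : 𝓞 K) : K)) = w (t j : K) * w ((ω j : 𝓞 K) : K) := map_mul w _ _
        rw [h2]
        have h3 : w (t j : K) ≤ H := by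
          refine (place_intCast_le w _).trans ?_
          have := ht j
          exact_mod_cast this
        have h4 : 0 ≤ w ((ω j : 𝓞 K) : K) := apply_nonneg w _
        gcongr
    _ = H * ∑ j, w ((ω j : 𝓞 K) : K) := by rw [Finset.mul_sum]
    _ ≤ H * famW ω := by
        have h5 : ∑ j, w ((ω j : 𝓞 K) : K) ≤ ∑ w : InfinitePlace K, ∑ j, w ((ω j : 𝓞 K) : K) :=
          Finset.single_le_sum (f := fun w : InfinitePlace K => ∑ j, w ((ω j : 𝓞 K) : K))
            (fun w _ => Finset.sum_nonneg fun j _ => apply_nonneg w _) (Finset.mem_univ w)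
        rw [famW]
        gcongr
        linarith

/-- places of the resultants of the polynomials of a box -/
theorem RR_box (ω : ι → 𝓞 K) {g : ℕ} (hg : 1 ≤ g) (a : Fin (2 * g + 3) → ι → ℤ) (H : ℕ) (hH : 1 ≤ H)
    (ha : ∀ i j, |a i j| ≤ (H : ℤ)) (w : InfinitePlace K) :
    w ((RR (2 * g + 2) (coordPoly ω a) : 𝓞 K) : K) ≤
      (Nat.factorial (2 * (2 * g + 2)) : ℝ) *
        (2 * (2 * g + 2) ^ 2 * (H * famW ω)) ^ (4 * g + 2) ∧
    w ((RR (2 * g + 1) (derivative (coordPoly ω a)) : 𝓞 K) : K) ≤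
      (Nat.factorial (2 * (2 * g + 2)) : ℝ) *
        (2 * (2 * g + 2) ^ 2 * (H * famW ω)) ^ (4 * g + 2) := by
  have hW := one_le_famW ω
  have hH1 : (1:ℝ) ≤ H := by exact_mod_cast hH
  have hA1 : (1:ℝ) ≤ H * famW ω := by nlinarith
  set A : ℝ := H * famW ω with hA
  have hgR : (1:ℝ) ≤ g := by exact_mod_cast hg
  have hcoef : ∀ i, w (((coordPoly ω a).map (algebraMap (𝓞 K) K)).coeff i) ≤ A := by
    intro i
    rw [coeff_map]
    by_cases hi : i < 2 * g + 3
    · have := coordPoly_coeff ω a ⟨i, hi⟩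
      simp only at this
      rw [this]
      exact coordInt_place ω _ H (ha _) w
    · rw [coordPoly_coeff_of_ge ω a i (by omega), map_zero]
      have h0 : w (0 : K) = 0 := map_zero w
      rw [h0]; linarith
  have hinj : Function.Injective (algebraMap (𝓞 K) K) := FaithfulSMul.algebraMap_injective _ _
  have hdeg := coordPoly_natDegree (m := 2 * g + 2) ω a
  have hdeg' : ((coordPoly ω a).map (algebraMap (𝓞 K) K)).natDegree ≤ 2 * g + 2 := by
    rw [natDegree_map_eq_of_injective hinj]; exact hdeg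
  constructor
  · have h1 := RR_arch w (2 * g + 2) _ hdeg' A (by linarith) hcoef
    rw [RR_map] at h1
    refine h1.trans ?_
    have e1 : 2 * (2 * g + 2 - 1) = 4 * g + 2 := by omega
    rw [e1]
    have h2 : (Nat.factorial (4 * g + 2) : ℝ) ≤ (Nat.factorial (2 * (2 * g + 2)) : ℝ) := by
      exact_mod_cast Nat.factorial_le (by omega)
    have h3 : 2 * ((2 * g + 2 : ℕ) : ℝ) * A ≤ 2 * (2 * g + 2) ^ 2 * A := by
      push_cast
      nlinarith [mul_pos (show (0:ℝ) < 2 * g + 2 by linarith) (show (0:ℝ) < A by linarith)]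
    gcongr
  · have hcoef' : ∀ i, w (((derivative (coordPoly ω a)).map (algebraMap (𝓞 K) K)).coeff i) ≤
        (2 * g + 2) * A := by
      intro i
      rw [← derivative_map, coeff_derivative]
      by_cases hi : i + 1 ≤ 2 * g + 2
      · have h2 : w ((i : K) + 1) ≤ 2 * g + 2 := by
          have := place_natCast_le w (i + 1)
          push_cast at this
          refine this.trans ?_
          exact_mod_cast hi
        have h3 : w (((coordPoly ω a).map (algebraMap (𝓞 K) K)).coeff (i + 1) * ((i : K) + 1)) =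
          w (((coordPoly ω a).map (algebraMap (𝓞 K) K)).coeff (i + 1)) * w ((i : K) + 1) := map_mul w _ _
        rw [h3]
        have h4 := hcoef (i + 1)
        have h5 : 0 ≤ w ((i : K) + 1) := apply_nonneg w _
        calc _ ≤ A * (2 * g + 2) := by gcongr
          _ = _ := by ring
      · rw [coeff_eq_zero_of_natDegree_lt (by omega), zero_mul]
        have h0 : w (0 : K) = 0 := map_zero w
        rw [h0]
        positivity
    have hdeg2 : ((derivative (coordPoly ω a)).map (algebraMap (𝓞 K) K)).natDegree ≤ 2 * g + 1 := by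
      rw [natDegree_map_eq_of_injective hinj]
      have := natDegree_derivative_le (coordPoly ω a)
      omega
    have h1 := RR_arch w (2 * g + 1) _ hdeg2 ((2 * g + 2) * A) (by positivity) hcoef'
    rw [RR_map] at h1
    refine h1.trans ?_
    have e1 : 2 * (2 * g + 1 - 1) = 4 * g := by omega
    rw [e1]
    have h2 : (Nat.factorial (4 * g) : ℝ) ≤ (Nat.factorial (2 * (2 * g + 2)) : ℝ) := by
      exact_mod_cast Nat.factorial_le (by omega)
    have h3 : 2 * ((2 * g + 1 : ℕ) : ℝ) * ((2 * g + 2) * A) ≤ 2 * (2 * g + 2) ^ 2 * A := by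
      push_cast
      have : (0:ℝ) ≤ (2 * g + 2) * A := by positivity
      nlinarith
    have h4 : (1:ℝ) ≤ 2 * (2 * g + 2) ^ 2 * A := by nlinarith
    calc (Nat.factorial (4 * g) : ℝ) * (2 * ((2 * g + 1 : ℕ) : ℝ) * ((2 * g + 2) * A)) ^ (4 * g)
        ≤ (Nat.factorial (2 * (2 * g + 2)) : ℝ) * (2 * (2 * g + 2) ^ 2 * A) ^ (4 * g) := by
          gcongr
      _ ≤ (Nat.factorial (2 * (2 * g + 2)) : ℝ) * (2 * (2 * g + 2) ^ 2 * A) ^ (4 * g + 2) := by
          gcongr
          omega

end

end Pool.Agent.Lib.MP_ca2859_nt
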