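import Mathlib
import Pool.Agent.Lib.MP_ca2859_nt.Family
import Pool.Agent.Lib.MP_ca2859_nt.Box

/-!
# Sizes of values and zeros of polynomials in a box
-/

open NumberField MvPolynomial

set_option linter.unusedSectionVars false

namespace Pool.Agent.Lib.MP_ca2859_nt

section
variable {K : Type} [Field K] [NumberField K]

theorem place_sum_le' {ι : Type*} (w : InfinitePlace K) (s : Finset ι) (x : ι → K) :
    w (∑ j ∈ s, x j) ≤ ∑ j ∈ s, w (x j) := by
  classical
  induction s using Finset.induction_on with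
  | empty =>
    have h0 : w (0 : K) = 0 := map_zero w
    simp [h0]
  | insert j s hj ih =>
    rw [Finset.sum_insert hj, Finset.sum_insert hj]
    exact (w.1.add_le _ _).trans (add_le_add le_rfl ih)

/-- sum of the sizes of the coefficients -/
noncomputable def coefW {m : ℕ} (G : MvPolynomial (Fin m) (𝓞 K)) : ℝ :=
  1 + ∑ w : InfinitePlace K, ∑ s ∈ G.support, w ((G.coeff s : 𝓞 K) : K)

theorem one_le_coefW {m : ℕ} (G : MvPolynomial (Fin m) (𝓞 K)) : 1 ≤ coefW G := by
  rw [coefW]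
  have : 0 ≤ ∑ w : InfinitePlace K, ∑ s ∈ G.support, w ((G.coeff s : 𝓞 K) : K) :=
    Finset.sum_nonneg fun w _ => Finset.sum_nonneg fun j _ => apply_nonneg w _
  linarith

theorem place_eval {m : ℕ} (G : MvPolynomial (Fin m) (𝓞 K)) (e : ℕ) (he : G.totalDegree ≤ e) (B : ℝ)
    (hB : 1 ≤ B) (t : Fin m → 𝓞 K) (ht : ∀ j, ∀ w : InfinitePlace K, w ((t j : 𝓞 K) : K) ≤ B)
    (w : InfinitePlace K) : w ((eval t G : 𝓞 K) : K) ≤ coefW G * B ^ e := by
  classical
  have h1 : ((eval t G : 𝓞 K) : K) =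
      ∑ s ∈ G.support, ((G.coeff s : 𝓞 K) : K) * ∏ j, ((t j : 𝓞 K) : K) ^ s j := by
    rw [eval_eq']
    push_cast
    rfl
  rw [h1]
  refine (place_sum_le' w _ _).trans ?_
  have hterm : ∀ s ∈ G.support, w (((G.coeff s : 𝓞 K) : K) * ∏ j, ((t j : 𝓞 K) : K) ^ s j) ≤
      w ((G.coeff s : 𝓞 K) : K) * B ^ e := by
    intro s hs
    have h2 : w (((G.coeff s : 𝓞 K) : K) * ∏ j, ((t j : 𝓞 K) : K) ^ s j) =
        w ((G.coeff s : 𝓞 K) : K) * ∏ j, w ((t j : 𝓞 K) : K) ^ s j := by
      have h3 : w (((G.coeff s : 𝓞 K) : K) * ∏ j, ((t j : 𝓞 K) : K) ^ s j) =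
        w ((G.coeff s : 𝓞 K) : K) * w (∏ j, ((t j : 𝓞 K) : K) ^ s j) := map_mul w _ _
      rw [h3, map_prod]
      congr 1
      apply Finset.prod_congr rfl
      intro j _
      exact map_pow w _ _
    rw [h2]
    have h4 : ∏ j, w ((t j : 𝓞 K) : K) ^ s j ≤ B ^ e := by
      calc ∏ j, w ((t j : 𝓞 K) : K) ^ s j ≤ ∏ j, B ^ s j := by
            apply Finset.prod_le_prod
            · intro j _; exact pow_nonneg (apply_nonneg w _) _
            · intro j _; exact pow_le_pow_left₀ (apply_nonneg w _) (ht j w) _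
        _ = B ^ (∑ j, s j) := by rw [Finset.prod_pow_eq_pow_sum]
        _ ≤ B ^ e := by
            apply pow_le_pow_right₀ hB
            have h5 := le_totalDegree hs
            rw [Finsupp.sum_fintype _ _ (by simp)] at h5
            exact h5.trans he
    have h6 : 0 ≤ w ((G.coeff s : 𝓞 K) : K) := apply_nonneg w _
    gcongr
  calc ∑ s ∈ G.support, w (((G.coeff s : 𝓞 K) : K) * ∏ j, ((t j : 𝓞 K) : K) ^ s j)
      ≤ ∑ s ∈ G.support, w ((G.coeff s : 𝓞 K) : K) * B ^ e := Finset.sum_le_sum hterm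
    _ = (∑ s ∈ G.support, w ((G.coeff s : 𝓞 K) : K)) * B ^ e := by rw [Finset.sum_mul]
    _ ≤ coefW G * B ^ e := by
        have h7 : ∑ s ∈ G.support, w ((G.coeff s : 𝓞 K) : K) ≤
            ∑ w : InfinitePlace K, ∑ s ∈ G.support, w ((G.coeff s : 𝓞 K) : K) :=
          Finset.single_le_sum (f := fun w : InfinitePlace K => ∑ s ∈ G.support, w ((G.coeff s : 𝓞 K) : K))
            (fun w _ => Finset.sum_nonneg fun j _ => apply_nonneg w _) (Finset.mem_univ w)
        rw [coefW]
        have : (0:ℝ) ≤ B ^ e := by positivity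
        gcongr
        linarith

variable {ι : Type} [Fintype ι]

theorem zero_count (ω : Module.Basis ι ℤ (𝓞 K)) (Bx : Finset (ι → ℤ)) (hBx : Bx.Nonempty) (r : ℕ)
    (G : MvPolynomial (Fin (r + 1)) (𝓞 K)) (hG : G ≠ 0)
    (S : Finset (Fin (r + 1) → ι → ℤ)) (hS : S ⊆ Fintype.piFinset (fun _ => Bx))
    (hS0 : ∀ a ∈ S, eval (fun i => coordInt (K := K) ω (a i)) G = 0) :
    (S.card : ℝ) ≤ G.totalDegree * (Bx.card : ℝ) ^ r := by
  classical
  set B' := Bx.image (coordInt (K := K) ω) with hB'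
  have hcard : B'.card = Bx.card := Finset.card_image_of_injective _ (coordInt_inj ω)
  have h1 := schwartz_zippel_totalDegree hG B'
  set Z : Finset (Fin (r + 1) → 𝓞 K) := (Fintype.piFinset fun _ : Fin (r + 1) => B').filter
    (fun f => eval f G = 0) with hZ
  have h2 : S.card ≤ Z.card := by
    apply Finset.card_le_card_of_injOn (fun a i => coordInt (K := K) ω (a i))
    · intro a ha
      rw [Finset.mem_coe] at ha
      rw [Finset.mem_coe, hZ, Finset.mem_filter, Fintype.mem_piFinset]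
      refine ⟨fun i => ?_, hS0 a ha⟩
      rw [hB']
      exact Finset.mem_image_of_mem _ (Fintype.mem_piFinset.1 (hS ha) i)
    · intro a _ b _ hab
      funext i
      exact coordInt_inj ω (congrFun hab i)
  have hpos : (0 : ℚ≥0) < B'.card := by
    rw [hcard]
    exact_mod_cast hBx.card_pos
  have h3 : (Z.card : ℚ≥0) ≤ G.totalDegree * (B'.card : ℚ≥0) ^ r := by
    rw [div_le_div_iff₀ (pow_pos hpos _) hpos, pow_succ] at h1
    have h4 : (Z.card : ℚ≥0) * B'.card ≤ (G.totalDegree * (B'.card : ℚ≥0) ^ r) * B'.card := by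
      calc _ ≤ _ := h1
        _ = _ := by ring
    exact le_of_mul_le_mul_right h4 hpos
  have h4 : Z.card ≤ G.totalDegree * B'.card ^ r := by exact_mod_cast h3
  rw [hcard] at h4
  calc (S.card : ℝ) ≤ Z.card := by exact_mod_cast h2
    _ ≤ _ := by exact_mod_cast h4

end

end Pool.Agent.Lib.MP_ca2859_nt
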