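import Mathlib
import Pool.Agent.Lib.MP_ca2859_nt.Fiber

/-!
# Abstract version of the fibre count
-/

open Polynomial WithZero IsDedekindDomain NumberField

namespace Pool.Agent.Lib.MP_ca2859_nt

section
variable (K : Type) [Field K] [NumberField K]

theorem fiber_count_abs (ε : ℝ) (hε : 0 < ε) (D₁ : ℕ) : ∃ c : ℝ, 0 < c ∧
    ∀ (P : 𝓞 K → 𝓞 K) (Mf : 𝓞 K → ℕ) (E : ℕ) (Q : ℝ), 1 ≤ Q → 0 < E →
    (E : ℝ) ≤ Q ^ Module.finrank ℚ K → ∀ M : ℕ, 1 ≤ M → ∀ S : Finset (𝓞 K),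
    (∀ x ∈ S, P x ≠ 0) → (∀ x ∈ S, ∀ w : InfinitePlace K, w ((P x : 𝓞 K) : K) ≤ Q) →
    (∀ x ∈ S, 0 < Mf x ∧ Mf x ≤ M) →
    (∀ x ∈ S, ∀ v, cntx (P x) v ≠ 0 → ((E * Mf x : ℕ) : 𝓞 K) ∈ v.asIdeal) →
    (∀ (D : 𝓞 K) (S' : Finset (𝓞 K)), S' ⊆ S → (∀ x ∈ S', P x = D) → S'.card ≤ D₁) →
    (S.card : ℝ) ≤ c * (M : ℝ) ^ (1 + ε) * Q ^ ε := by
  classical
  set d := Module.finrank ℚ K with hd
  have hd1 : 1 ≤ d := Module.finrank_pos
  set ε₁ := ε / (3 * d + 1) with hε₁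
  have hε₁0 : 0 < ε₁ := by positivity
  obtain ⟨C₁, hC₁, hvec⟩ := vec_count K ε₁ hε₁0
  obtain ⟨C₂, hC₂, hunits⟩ := units_card K ε₁ hε₁0
  refine ⟨C₁ * C₂ * (D₁ + 1), by positivity, ?_⟩
  intro P Mf E Q hQ hE0 hEQ M hM S hP0 hPQ hMf hsupp hfibre
  have hQ0 : 0 < Q := by linarith
  -- the bound for each value of the conductor
  have hm : ∀ m ∈ Finset.Icc 1 M,
      ((S.filter (fun x => Mf x = m)).card : ℝ) ≤
      (C₁ * (Q ^ d) ^ ε₁ * ((E * M : ℕ) : ℝ) ^ ε₁) * ((D₁ + 1) * (C₂ * (Q ^ (d + 1)) ^ ε₁)) := by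
    intro m hm
    rw [Finset.mem_Icc] at hm
    set Sm := S.filter (fun x => Mf x = m) with hSm
    have hSmS : ∀ x ∈ Sm, x ∈ S := fun x hx => (Finset.mem_filter.1 hx).1
    set Fm : ℕ := E * m with hFm
    have hm0 : 0 < m := hm.1
    have hFm0 : 0 < Fm := by positivity
    have hFmfin : {v : HeightOneSpectrum (𝓞 K) | (Fm : 𝓞 K) ∈ v.asIdeal}.Finite := by
      have hF0 : (Fm : 𝓞 K) ≠ 0 := by exact_mod_cast hFm0.ne'
      refine (cntx_finite (Fm : 𝓞 K) hF0).subset ?_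
      intro v hv
      simp only [Set.mem_ofPred_eq] at hv ⊢
      have := one_le_cnt Fm hFm0 v hv
      rw [cnt] at this
      rw [cntx]
      omega
    set T := hFmfin.toFinset with hT
    set vec : 𝓞 K → (HeightOneSpectrum (𝓞 K) → ℕ) := fun x => cntx (P x) with hvecdef
    have hA : ((Sm.image vec).card : ℝ) ≤ C₁ * (Q ^ d) ^ ε₁ * (Fm : ℝ) ^ ε₁ := by
      apply hvec Fm hFm0 (Q ^ d) (one_le_pow₀ hQ) T
      · intro v hv
        rw [hT, Set.Finite.mem_toFinset] at hv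
        exact hv
      · intro k hk v hv
        obtain ⟨x, hx, rfl⟩ := Finset.mem_image.1 hk
        by_contra hne
        apply hv
        rw [hT, Set.Finite.mem_toFinset]
        have h1 := hsupp x (hSmS x hx) v hne
        rw [(Finset.mem_filter.1 hx).2] at h1
        exact h1
      · intro k hk
        obtain ⟨x, hx, rfl⟩ := Finset.mem_image.1 hk
        have h1 := prod_cntx_le _ (hP0 x (hSmS x hx)) T
        have h2 := norm_le_of_places _ Q (hPQ x (hSmS x hx))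
        refine le_trans ?_ h2
        exact_mod_cast h1
    have hfib : ∀ b ∈ Sm.image vec, ((Sm.filter (fun x => vec x = b)).card : ℝ) ≤
        (D₁ + 1) * (C₂ * (Q ^ (d + 1)) ^ ε₁) := by
      intro b hb
      obtain ⟨x₀, hx₀, rfl⟩ := Finset.mem_image.1 hb
      have hx₀S := hSmS x₀ hx₀
      set D₀ := P x₀ with hD₀
      have hD₀0 : D₀ ≠ 0 := hP0 x₀ hx₀S
      -- the units
      have hu : ∀ x ∈ Sm.filter (fun x => vec x = vec x₀), ∃ u : (𝓞 K)ˣ, P x = u * D₀ := by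
        intro x hx
        obtain ⟨hx1, hx2⟩ := Finset.mem_filter.1 hx
        exact assoc_of_cntx _ _ (hP0 x (hSmS x hx1)) hD₀0 (fun v => congrFun hx2 v)
      choose! u hu using hu
      set Fib := Sm.filter (fun x => vec x = vec x₀) with hFib
      have hU : ((Fib.image u).card : ℝ) ≤ C₂ * (Q ^ (d + 1)) ^ ε₁ := by
        apply hunits _ (one_le_pow₀ hQ)
        intro u' hu' w
        obtain ⟨x, hx, rfl⟩ := Finset.mem_image.1 hu'
        have hx1 := (Finset.mem_filter.1 hx).1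
        have h1 : w ((u x : 𝓞 K) : K) * w ((D₀ : 𝓞 K) : K) ≤ Q := by
          have h2 := hPQ x (hSmS x hx1) w
          rw [hu x hx] at h2
          rw [← map_mul]
          refine le_trans (le_of_eq ?_) h2
          congr 1
        have h2 := place_lower D₀ hD₀0 Q hQ (hPQ x₀ hx₀S) w
        have h3 : 0 ≤ w ((u x : 𝓞 K) : K) := apply_nonneg w _
        calc w ((u x : 𝓞 K) : K) = w ((u x : 𝓞 K) : K) * 1 := (mul_one _).symm
          _ ≤ w ((u x : 𝓞 K) : K) * (w ((D₀ : 𝓞 K) : K) * Q ^ d) := by gcongr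
          _ = (w ((u x : 𝓞 K) : K) * w ((D₀ : 𝓞 K) : K)) * Q ^ d := by ring
          _ ≤ Q * Q ^ d := by gcongr
          _ = Q ^ (d + 1) := by ring
      have hcard := Finset.card_le_mul_card_image (f := u) Fib D₁ (by
        intro b hb
        obtain ⟨x₁, hx₁, rfl⟩ := Finset.mem_image.1 hb
        apply hfibre (u x₁ * D₀)
        · intro x hx
          exact hSmS x (Finset.mem_filter.1 (Finset.mem_filter.1 hx).1).1
        · intro x hx
          obtain ⟨hx1, hx2⟩ := Finset.mem_filter.1 hx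
          rw [hu x hx1, hx2])
      calc (Fib.card : ℝ) ≤ ((D₁ * (Fib.image u).card : ℕ) : ℝ) := by exact_mod_cast hcard
        _ = (D₁ : ℝ) * ((Fib.image u).card : ℝ) := by push_cast; ring
        _ ≤ (D₁ + 1) * (C₂ * (Q ^ (d + 1)) ^ ε₁) := by
            gcongr
            linarith
    have hsum := Finset.card_eq_sum_card_image vec Sm
    calc (Sm.card : ℝ) = ∑ b ∈ Sm.image vec, ((Sm.filter (fun x => vec x = b)).card : ℝ) := by
          rw [hsum]; push_cast; rfl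
      _ ≤ ∑ b ∈ Sm.image vec, (D₁ + 1) * (C₂ * (Q ^ (d + 1)) ^ ε₁) := Finset.sum_le_sum hfib
      _ = ((Sm.image vec).card : ℝ) * ((D₁ + 1) * (C₂ * (Q ^ (d + 1)) ^ ε₁)) := by
          rw [Finset.sum_const, nsmul_eq_mul]
      _ ≤ (C₁ * (Q ^ d) ^ ε₁ * (Fm : ℝ) ^ ε₁) * ((D₁ + 1) * (C₂ * (Q ^ (d + 1)) ^ ε₁)) := by gcongr
      _ ≤ _ := by
          have : (Fm : ℝ) ≤ ((E * M : ℕ) : ℝ) := by
            have : Fm ≤ E * M := by
              rw [hFm]
              exact Nat.mul_le_mul_left _ hm.2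
            exact_mod_cast this
          gcongr
  have hmaps : ∀ x ∈ S, Mf x ∈ Finset.Icc 1 M := by
    intro x hx
    rw [Finset.mem_Icc]
    exact hMf x hx
  have hsum := Finset.card_eq_sum_card_fiberwise hmaps
  have hMR : (1:ℝ) ≤ M := by exact_mod_cast hM
  calc (S.card : ℝ) = ∑ m ∈ Finset.Icc 1 M, ((S.filter (fun x => Mf x = m)).card : ℝ) := by
        rw [hsum]; push_cast; rfl
    _ ≤ ∑ m ∈ Finset.Icc 1 M, (C₁ * (Q ^ d) ^ ε₁ * ((E * M : ℕ) : ℝ) ^ ε₁) *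
        ((D₁ + 1) * (C₂ * (Q ^ (d + 1)) ^ ε₁)) := Finset.sum_le_sum hm
    _ = (M : ℝ) * ((C₁ * (Q ^ d) ^ ε₁ * ((E * M : ℕ) : ℝ) ^ ε₁) *
        ((D₁ + 1) * (C₂ * (Q ^ (d + 1)) ^ ε₁))) := by
        rw [Finset.sum_const, nsmul_eq_mul, Nat.card_Icc, Nat.add_sub_cancel]
    _ ≤ (M : ℝ) * ((C₁ * (Q ^ d) ^ ε₁ * (Q ^ d * M) ^ ε₁) *
        ((D₁ + 1) * (C₂ * (Q ^ (d + 1)) ^ ε₁))) := by
        have h1 : ((E * M : ℕ) : ℝ) ≤ Q ^ d * M := by
          push_cast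
          gcongr
        gcongr
    _ = C₁ * C₂ * (D₁ + 1) * ((M : ℝ) * (M : ℝ) ^ ε₁) *
        ((Q ^ d) ^ ε₁ * (Q ^ d) ^ ε₁ * (Q ^ (d + 1)) ^ ε₁) := by
        rw [Real.mul_rpow (by positivity) (by positivity)]
        ring
    _ ≤ C₁ * C₂ * (D₁ + 1) * (M : ℝ) ^ (1 + ε) * Q ^ ε := by
        have e1 : (M : ℝ) * (M : ℝ) ^ ε₁ ≤ (M : ℝ) ^ (1 + ε) := by
          have h1 : (M : ℝ) * (M : ℝ) ^ ε₁ = (M : ℝ) ^ (1 + ε₁) := by
            rw [Real.rpow_add (by linarith), Real.rpow_one]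
          rw [h1]
          apply Real.rpow_le_rpow_of_exponent_le hMR
          have : ε₁ ≤ ε := by
            rw [hε₁]
            apply div_le_self hε.le
            have : (0:ℝ) ≤ d := Nat.cast_nonneg d
            linarith
          linarith
        have e2 : (Q ^ d) ^ ε₁ * (Q ^ d) ^ ε₁ * (Q ^ (d + 1)) ^ ε₁ = Q ^ ε := by
          rw [← Real.rpow_natCast Q d, ← Real.rpow_natCast Q (d + 1), ← Real.rpow_mul hQ0.le,
            ← Real.rpow_mul hQ0.le, ← Real.rpow_add hQ0, ← Real.rpow_add hQ0]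
          congr 1
          rw [hε₁]
          push_cast
          field_simp
          ring
        rw [e2]
        gcongr

end

end Pool.Agent.Lib.MP_ca2859_nt
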