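import Mathlib
import Pool.Agent.Lib.MP_ca2859_nt.FamCount
import Pool.Agent.Lib.MP_ca2859_nt.CRStable3
import Pool.Agent.Lib.MP_ca2859_nt.Dicho
import Pool.Agent.Lib.MP_ca2859_nt.FiberAbs

/-!
# Families: preparation
-/

open NumberField Polynomial IsDedekindDomain WithZero

set_option linter.unusedSectionVars false

namespace Pool.Agent.Lib.MP_ca2859_nt

section
variable {K : Type} [Field K] [NumberField K]

/-- evaluation of an integral polynomial at the coefficients of `F` -/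
noncomputable def evT {R : Type*} [CommRing R] (F : R[X]) (T : MvPolynomial ℕ ℤ) : R :=
  MvPolynomial.aeval (fun i => F.coeff i) T

theorem map_aeval_coeff' {R S : Type*} [CommRing R] [CommRing S] (φ : R →+* S) (F : R[X])
    (T : MvPolynomial ℕ ℤ) :
    φ (MvPolynomial.aeval (fun i => F.coeff i) T) =
      MvPolynomial.aeval (fun i => (F.map φ).coeff i) T := by
  have h := MvPolynomial.map_aeval (fun i => F.coeff i) φ T
  have h2 : φ.comp (algebraMap ℤ R) = algebraMap ℤ S := Subsingleton.elim _ _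
  rw [h, MvPolynomial.aeval_def, MvPolynomial.coe_eval₂Hom, h2]
  simp only [coeff_map]

theorem evT_map {R S : Type*} [CommRing R] [CommRing S] (φ : R →+* S) (F : R[X])
    (T : MvPolynomial ℕ ℤ) : φ (evT F T) = evT (F.map φ) T := map_aeval_coeff' φ F T

/-- the top invariant does not vanish on separable polynomials -/
theorem qtop_ne_zero (g : ℕ) (p : Fin 4 → Fin (2 * g + 1 + 1)) (hp : Function.Injective p)
    (N : ℕ) (T : ℕ → MvPolynomial ℕ ℤ)
    (hT : ∀ (R : Type) [CommRing R] (a : R) (α : Fin (2 * g + 1 + 1) → R) (k : ℕ),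
      MvPolynomial.aeval (fun i => (C a * ∏ j, (X - C (α j))).coeff i) (T k) =
        a ^ N * (CR p α).coeff k)
    (f : K[X]) (hf : IsHyperelliptic g f) (hfd : f.natDegree = 2 * g + 1 + 1) :
    MvPolynomial.aeval (fun i => f.coeff i) (T (Fintype.card (Equiv.Perm (Fin (2 * g + 1 + 1))))) ≠ 0 := by
  let Om := AlgebraicClosure K
  obtain ⟨α, hα⟩ := split_enum (f.map (algebraMap K Om)) (IsAlgClosed.splits _) (2 * g + 1 + 1)
    (by rw [natDegree_map]; exact hfd)
  set a := (f.map (algebraMap K Om)).leadingCoeff with ha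
  have ha0 : a ≠ 0 := by
    rw [ha, leadingCoeff_ne_zero, Ne, Polynomial.map_eq_zero]
    rintro rfl
    simp at hfd
  have hinj : Function.Injective α := by
    intro i j hij
    by_contra hne
    have hsep : (f.map (algebraMap K Om)).Separable := hf.1.map
    rw [hα] at hsep
    have h1 : (∏ j, (X - C (α j)) : Om[X]).Separable := hsep.of_mul_right
    rw [separable_prod_X_sub_C_iff] at h1
    exact hne (h1 hij)
  have hsub : ∀ a b, a ≠ b → α a - α b ≠ 0 := fun a b hab h => hab (hinj (sub_eq_zero.1 h))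
  intro h0
  have h1 := map_aeval_coeff' (algebraMap K Om) f (T (Fintype.card (Equiv.Perm (Fin (2 * g + 1 + 1)))))
  rw [h0, map_zero, hα, hT, CR_top] at h1
  have h2 : a ^ N * ∏ σ, crd p α σ ≠ 0 := by
    refine mul_ne_zero (pow_ne_zero _ ha0) ?_
    rw [Finset.prod_ne_zero_iff]
    intro τ _
    exact mul_ne_zero (hsub _ _ fun h => absurd (hp (τ.injective h)) (by decide))
      (hsub _ _ fun h => absurd (hp (τ.injective h)) (by decide))
  exact h2 h1.symm

/-- the member of the family at `t` -/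
noncomputable def spec {r : ℕ} (F : (MvPolynomial (Fin r) (𝓞 K))[X]) (t : Fin r → 𝓞 K) : (𝓞 K)[X] :=
  F.map (MvPolynomial.eval t)

theorem spec_RR {r : ℕ} (F : (MvPolynomial (Fin r) (𝓞 K))[X]) (t : Fin r → 𝓞 K) (n : ℕ) :
    RR n (spec F t) = MvPolynomial.eval t (RR n F) := RR_map _ _ _

theorem spec_hyper {r : ℕ} (g : ℕ) (F : (MvPolynomial (Fin r) (𝓞 K))[X]) (hFd : F.natDegree ≤ 2 * g + 1 + 1)
    (t : Fin r → 𝓞 K) (h1 : MvPolynomial.eval t (F.coeff (2 * g + 1 + 1)) ≠ 0)
    (h2 : MvPolynomial.eval t (RR (2 * g + 2) F) ≠ 0) :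
    IsHyperelliptic g ((spec F t).map (algebraMap (𝓞 K) K)) ∧
      ((spec F t).map (algebraMap (𝓞 K) K)).natDegree = 2 * g + 1 + 1 := by
  have hinj : Function.Injective (algebraMap (𝓞 K) K) := FaithfulSMul.algebraMap_injective _ _
  have hd : ((spec F t).map (algebraMap (𝓞 K) K)).natDegree = 2 * g + 1 + 1 := by
    rw [natDegree_map_eq_of_injective hinj]
    apply le_antisymm
    · exact natDegree_map_le.trans hFd
    · apply le_natDegree_of_ne_zero
      rw [spec, coeff_map]; exact h1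
  refine ⟨?_, hd⟩
  apply hyper_of_RR
  · rw [hd]
  · rw [RR_map, Ne, FaithfulSMul.algebraMap_eq_zero_iff, spec_RR]
    exact h2

theorem spec_aeval {r : ℕ} (F : (MvPolynomial (Fin r) (𝓞 K))[X]) (t : Fin r → 𝓞 K)
    (T : MvPolynomial ℕ ℤ) :
    evT ((spec F t).map (algebraMap (𝓞 K) K)) T =
      algebraMap (𝓞 K) K (MvPolynomial.eval t (evT F T)) := by
  rw [← evT_map (algebraMap (𝓞 K) K) (spec F t), spec, ← evT_map (MvPolynomial.eval t) F]

/-- size of the discriminants in a family -/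
theorem spec_disc_size {r : ℕ} (g : ℕ) (F : (MvPolynomial (Fin r) (𝓞 K))[X])
    (hFd : F.natDegree ≤ 2 * g + 1 + 1) (e : ℕ) (he : ∀ i, (F.coeff i).totalDegree ≤ e) :
    ∃ C : ℝ, 1 ≤ C ∧ ∀ (B : ℝ), 1 ≤ B → ∀ t : Fin r → 𝓞 K,
      (∀ j, ∀ w : InfinitePlace K, w ((t j : 𝓞 K) : K) ≤ B) → ∀ w : InfinitePlace K,
      w ((RR (2 * g + 2) (spec F t) : 𝓞 K) : K) ≤ C * (B ^ e) ^ (4 * g + 2) := by
  classical
  set CF : ℝ := ∑ i ∈ Finset.range (2 * g + 3), coefW (F.coeff i) with hCF
  have hCFi : ∀ i ≤ 2 * g + 2, coefW (F.coeff i) ≤ CF := fun i hi =>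
    Finset.single_le_sum (f := fun i => coefW (F.coeff i))
      (fun i _ => by have := one_le_coefW (F.coeff i); linarith) (Finset.mem_range.2 (by omega))
  have hCF1 : 1 ≤ CF := (one_le_coefW (F.coeff 0)).trans (hCFi 0 (Nat.zero_le _))
  refine ⟨(Nat.factorial (2 * (2 * g + 2 - 1)) : ℝ) * (2 * ((2 * g + 2 : ℕ) : ℝ) * CF) ^ (4 * g + 2), ?_, ?_⟩
  · have h1 : (1:ℝ) ≤ (Nat.factorial (2 * (2 * g + 2 - 1)) : ℝ) := by
      exact_mod_cast Nat.factorial_pos _
    have h2 : (1:ℝ) ≤ 2 * ((2 * g + 2 : ℕ) : ℝ) * CF := by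
      push_cast
      have : (0:ℝ) ≤ g := Nat.cast_nonneg g
      nlinarith
    have h3 : (1:ℝ) ≤ (2 * ((2 * g + 2 : ℕ) : ℝ) * CF) ^ (4 * g + 2) := one_le_pow₀ h2
    nlinarith
  · intro B hB t ht w
    have hBe : (1:ℝ) ≤ B ^ e := one_le_pow₀ hB
    have h1 := RR_arch w (2 * g + 2) ((spec F t).map (algebraMap (𝓞 K) K))
      (natDegree_map_le.trans (natDegree_map_le.trans hFd)) (CF * B ^ e) (by positivity) (by
        intro i
        rw [coeff_map, spec, coeff_map]
        by_cases hi : i ≤ 2 * g + 2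
        · refine (place_eval (F.coeff i) e (he i) B hB t ht w).trans ?_
          have := hCFi i hi
          gcongr
        · rw [coeff_eq_zero_of_natDegree_lt (by omega), map_zero, map_zero]
          have h0 : w (0 : K) = 0 := map_zero w
          rw [h0]; positivity)
    rw [RR_map] at h1
    refine h1.trans (le_of_eq ?_)
    rw [show 2 * (2 * g + 2 - 1) = 4 * g + 2 by omega,
      show 2 * ((2 * g + 2 : ℕ) : ℝ) * (CF * B ^ e) = (2 * ((2 * g + 2 : ℕ) : ℝ) * CF) * B ^ e by ring, mul_pow]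
    ring

end

end Pool.Agent.Lib.MP_ca2859_nt
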