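import Mathlib
import Pool.Agent.Lib.MP_ca2859_nt.FamA

/-!
# Families: places dividing the denominators are places of bad reduction
-/

open NumberField Polynomial IsDedekindDomain WithZero

set_option linter.unusedSectionVars false

namespace Pool.Agent.Lib.MP_ca2859_nt

section
variable {K : Type} [Field K] [NumberField K]

/-- the data produced by the symmetric function theorem -/
structure CRData (g : ℕ) where
  p : Fin 4 → Fin (2 * g + 2)
  hp : Function.Injective p
  N : ℕ
  T : ℕ → MvPolynomial ℕ ℤ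
  hT : ∀ (R : Type) [CommRing R] (a : R) (α : Fin (2 * g + 2) → R) (k : ℕ),
      evT (C a * ∏ j, (X - C (α j))) (T k) = a ^ N * (CR p α).coeff k

/-- the degree of the polynomial of cross ratios -/
def CRData.top {g : ℕ} (_ : CRData g) : ℕ := Fintype.card (Equiv.Perm (Fin (2 * g + 2)))

theorem exists_CRData (g : ℕ) (hg : 1 ≤ g) : Nonempty (CRData g) := by
  have hinj : Function.Injective (Fin.castLE (by omega : 4 ≤ 2 * g + 2)) := Fin.castLE_injective _
  obtain ⟨N, T, hT⟩ := exists_T (Fin.castLE (by omega : 4 ≤ 2 * g + 2))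
  exact ⟨⟨_, hinj, N, T, hT⟩⟩

theorem supportB {r : ℕ} (g : ℕ) (hg : 1 ≤ g) (cr : CRData g)
    (F : (MvPolynomial (Fin (r + 1)) (𝓞 K))[X]) (hFd : F.natDegree ≤ 2 * g + 1 + 1)
    (k : ℕ) (P R S U V E : MvPolynomial (Fin (r + 1)) (𝓞 K))
    (h1 : P * R * evT F (cr.T k) = evT F (cr.T cr.top) * S) (h2 : U * P + V * S = E)
    (t : Fin (r + 1) → 𝓞 K)
    (hl : MvPolynomial.eval t (F.coeff (2 * g + 1 + 1)) ≠ 0)
    (hD : MvPolynomial.eval t (RR (2 * g + 2) F) ≠ 0)
    (hP : MvPolynomial.eval t P ≠ 0)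
    (v : HeightOneSpectrum (𝓞 K)) (hv : cntx (MvPolynomial.eval t P) v ≠ 0) :
    (((2 * (2 * g + 2)) * (Algebra.norm ℤ (MvPolynomial.eval t E)).natAbs *
      MC g ((spec F t).map (algebraMap (𝓞 K) K)) : ℕ) : 𝓞 K) ∈ v.asIdeal := by
  set f := (spec F t).map (algebraMap (𝓞 K) K) with hf
  obtain ⟨hyp, hfd⟩ := spec_hyper g F hFd t hl hD
  rw [← hf] at hyp hfd
  have hvP : v.valuation K (algebraMap (𝓞 K) K (MvPolynomial.eval t P)) < 1 := by
    have h1 := ord_eq_cntx _ hP v
    have h2 : algebraMap (𝓞 K) K (MvPolynomial.eval t P) ≠ 0 := by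
      rw [Ne, FaithfulSMul.algebraMap_eq_zero_iff]; exact hP
    rw [w_eq_exp h2, h1, ← exp_zero, exp_lt_exp]
    have : 0 < cntx (MvPolynomial.eval t P) v := Nat.pos_of_ne_zero hv
    omega
  have hPmem : MvPolynomial.eval t P ∈ v.asIdeal := by
    by_contra hcon
    have := (HeightOneSpectrum.valuation_eq_one_iff_notMem (K := K) v).2 hcon
    rw [this] at hvP
    exact lt_irrefl _ hvP
  push_cast
  by_cases h2' : (2 : 𝓞 K) ∈ v.asIdeal
  · apply Ideal.mul_mem_right _ _ (Ideal.mul_mem_right _ _ (Ideal.mul_mem_right _ _ h2'))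
  by_cases hn : ((2 * g + 2 : ℕ) : 𝓞 K) ∈ v.asIdeal
  · apply Ideal.mul_mem_right _ _ (Ideal.mul_mem_right _ _ (Ideal.mul_mem_left _ _ ?_))
    push_cast at hn
    exact hn
  by_cases hE : MvPolynomial.eval t E ∈ v.asIdeal
  · apply Ideal.mul_mem_right _ _ (Ideal.mul_mem_left _ _ ?_)
    have := norm_mem_of_mem v _ hE
    exact_mod_cast this
  apply Ideal.mul_mem_left
  have hbad : discExp g f v ≠ 0 := by
    intro hgood
    have hSmem : MvPolynomial.eval t S ∉ v.asIdeal := by
      intro hS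
      apply hE
      rw [← h2, map_add, map_mul, map_mul]
      exact v.asIdeal.add_mem (Ideal.mul_mem_left _ _ hPmem) (Ideal.mul_mem_left _ _ hS)
    have hvS := (HeightOneSpectrum.valuation_eq_one_iff_notMem (K := K) v).2 hSmem
    have hT := good_T g hg cr.p cr.hp cr.N cr.T cr.hT f hyp hfd v hgood (by
        have := (HeightOneSpectrum.valuation_eq_one_iff_notMem (K := K) v).2 h2'
        rwa [map_ofNat] at this) (by
        have := (HeightOneSpectrum.valuation_eq_one_iff_notMem (K := K) v).2 hn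
        rwa [map_natCast] at this) k
    have hTk : evT f (cr.T k) = algebraMap (𝓞 K) K (MvPolynomial.eval t (evT F (cr.T k))) := spec_aeval F t _
    have hTt : evT f (cr.T cr.top) = algebraMap (𝓞 K) K (MvPolynomial.eval t (evT F (cr.T cr.top))) :=
      spec_aeval F t _
    have hT' : v.valuation K (evT f (cr.T k)) ≤ v.valuation K (evT f (cr.T cr.top)) := hT
    have hne : evT f (cr.T cr.top) ≠ 0 := qtop_ne_zero g cr.p cr.hp cr.N cr.T cr.hT f hyp hfd
    have h3 := congrArg (fun G => v.valuation K (algebraMap (𝓞 K) K (MvPolynomial.eval t G))) h1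
    simp only [map_mul] at h3
    rw [hvS, mul_one, ← hTk, ← hTt] at h3
    have hR1 : v.valuation K (algebraMap (𝓞 K) K (MvPolynomial.eval t R)) ≤ 1 :=
      HeightOneSpectrum.valuation_le_one v _
    have hpos : 0 < v.valuation K (evT f (cr.T cr.top)) := zero_lt_iff.2 (by
      rw [Ne, Valuation.zero_iff]; exact hne)
    have h4 : v.valuation K (evT f (cr.T cr.top)) < v.valuation K (evT f (cr.T cr.top)) := by
      calc v.valuation K (evT f (cr.T cr.top))
          = v.valuation K (algebraMap (𝓞 K) K (MvPolynomial.eval t P)) *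
            v.valuation K (algebraMap (𝓞 K) K (MvPolynomial.eval t R)) *
            v.valuation K (evT f (cr.T k)) := h3.symm
        _ ≤ v.valuation K (algebraMap (𝓞 K) K (MvPolynomial.eval t P)) * 1 *
            v.valuation K (evT f (cr.T cr.top)) := mul_le_mul' (mul_le_mul' le_rfl hR1) hT'
        _ = v.valuation K (algebraMap (𝓞 K) K (MvPolynomial.eval t P)) *
            v.valuation K (evT f (cr.T cr.top)) := by rw [mul_one]
        _ < 1 * v.valuation K (evT f (cr.T cr.top)) := mul_lt_mul_of_pos_right hvP hpos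
        _ = _ := one_mul _
    exact lt_irrefl _ h4
  obtain ⟨m, hm⟩ := absNorm_dvd_MC g f hyp v hbad
  rw [hm]
  push_cast
  apply Ideal.mul_mem_right
  exact Ideal.absNorm_mem v.asIdeal

/-- the isotrivial-like case: bound for all members -/
theorem boundA {r : ℕ} (g : ℕ) (hg : 1 ≤ g) (cr : CRData g)
    (F : (MvPolynomial (Fin (r + 1)) (𝓞 K))[X]) (hFd : F.natDegree ≤ 2 * g + 1 + 1)
    (m : ℕ) (hm : 0 < m) (h : ∀ k ≤ cr.top, ∃ s, (m : MvPolynomial (Fin (r + 1)) (𝓞 K)) * evT F (cr.T k) =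
      evT F (cr.T cr.top) * s) (t : Fin (r + 1) → 𝓞 K)
    (hl : MvPolynomial.eval t (F.coeff (2 * g + 1 + 1)) ≠ 0)
    (hD : MvPolynomial.eval t (RR (2 * g + 2) F) ≠ 0) :
    IsHyperelliptic g ((spec F t).map (algebraMap (𝓞 K) K)) ∧
    DeltaC g ((spec F t).map (algebraMap (𝓞 K) K)) ≤
      ((2 ^ (4 * g) * m ^ (4 * ((2 * g + 1) * (2 * g)))) ^ ((4 * g + 3) ^ 2) * cst g) ^ Module.finrank ℚ K *
      MC g ((spec F t).map (algebraMap (𝓞 K) K)) ^ ((2 * g + 1) * (g + 3)) := by
  set f := (spec F t).map (algebraMap (𝓞 K) K) with hf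
  obtain ⟨hyp, hfd⟩ := spec_hyper g F hFd t hl hD
  rw [← hf] at hyp hfd
  refine ⟨hyp, ?_⟩
  apply caseA_global g hg f hyp (2 ^ (4 * g) * m ^ (4 * ((2 * g + 1) * (2 * g)))) (by positivity)
  intro v
  apply caseA_local g hg cr.p cr.hp cr.N cr.T cr.hT f hyp hfd m hm v
  intro k hk
  have hTk : evT f (cr.T k) = algebraMap (𝓞 K) K (MvPolynomial.eval t (evT F (cr.T k))) := spec_aeval F t _
  have hTt : evT f (cr.T cr.top) = algebraMap (𝓞 K) K (MvPolynomial.eval t (evT F (cr.T cr.top))) :=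
    spec_aeval F t _
  change v.valuation K (m : K) * v.valuation K (evT f (cr.T k)) ≤ v.valuation K (evT f (cr.T cr.top))
  obtain ⟨s, hs⟩ := h k hk
  have h3 := congrArg (fun G => v.valuation K (algebraMap (𝓞 K) K (MvPolynomial.eval t G))) hs
  simp only [map_mul, map_natCast] at h3
  rw [← hTk, ← hTt] at h3
  rw [h3]
  have hs1 : v.valuation K (algebraMap (𝓞 K) K (MvPolynomial.eval t s)) ≤ 1 :=
    HeightOneSpectrum.valuation_le_one v _
  calc v.valuation K (evT f (cr.T cr.top)) * v.valuation K (algebraMap (𝓞 K) K (MvPolynomial.eval t s))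
      ≤ v.valuation K (evT f (cr.T cr.top)) * 1 := mul_le_mul' le_rfl hs1
    _ = _ := mul_one _

end

end Pool.Agent.Lib.MP_ca2859_nt
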