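import Mathlib
import Pool.Agent.Lib.MP_ca2859_nt.Family
import Pool.Agent.Lib.MP_ca2859_nt.Box

/-!
# The exceptional set of the discriminant bound
-/

open Polynomial WithZero IsDedekindDomain NumberField

set_option linter.unusedSectionVars false

namespace Pool.Agent.Lib.MP_ca2859_nt

section
variable {K : Type} [Field K] [NumberField K] {ι : Type} [Fintype ι]

/-- the two exceptional classes where a resultant vanishes, fibre by fibre -/
theorem coordInt_fiber_card [DecidableEq (𝓞 K)] (ω : Module.Basis ι ℤ (𝓞 K)) (S : Finset (ι → ℤ)) (k : ℕ)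
    (h : (S.image (coordInt (K := K) ω)).card ≤ k) : S.card ≤ k := by
  rwa [Finset.card_image_of_injective _ (coordInt_inj ω)] at h

theorem DeltaC_place_le (g : ℕ) (hg : 1 ≤ g) (f : (𝓞 K)[X])
    (hf : IsHyperelliptic g (f.map (algebraMap (𝓞 K) K))) (hR : RR (2 * g + 2) f ≠ 0) (Q : ℝ)
    (hQ : ∀ w : InfinitePlace K, w ((RR (2 * g + 2) f : 𝓞 K) : K) ≤ Q) :
    (DeltaC g (f.map (algebraMap (𝓞 K) K)) : ℝ) ≤ (2 ^ (4 * g) * Q) ^ Module.finrank ℚ K := by
  have h1 := DeltaC_le g hg f hf hR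
  have h2 : (DeltaC g (f.map (algebraMap (𝓞 K) K)) : ℝ) ≤
      (((Algebra.norm ℤ (2 ^ (4 * g) * RR (2 * g + 2) f : 𝓞 K)).natAbs : ℕ) : ℝ) := by
    exact_mod_cast h1
  refine h2.trans (norm_le_of_places _ _ ?_)
  intro w
  have h3 : ((2 ^ (4 * g) * RR (2 * g + 2) f : 𝓞 K) : K) =
      ((2 ^ (4 * g) : ℕ) : K) * ((RR (2 * g + 2) f : 𝓞 K) : K) := by
    change algebraMap (𝓞 K) K (2 ^ (4 * g) * RR (2 * g + 2) f) = _
    rw [map_mul, map_pow, map_ofNat]
    push_cast
    rfl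
  rw [h3]
  have h4 : w (((2 ^ (4 * g) : ℕ) : K) * ((RR (2 * g + 2) f : 𝓞 K) : K)) =
      w ((2 ^ (4 * g) : ℕ) : K) * w ((RR (2 * g + 2) f : 𝓞 K) : K) := map_mul w _ _
  rw [h4]
  have h5 := place_natCast_le w (2 ^ (4 * g))
  have h6 := hQ w
  have h7 : 0 ≤ w ((RR (2 * g + 2) f : 𝓞 K) : K) := apply_nonneg w _
  calc w ((2 ^ (4 * g) : ℕ) : K) * w ((RR (2 * g + 2) f : 𝓞 K) : K)
      ≤ ((2 ^ (4 * g) : ℕ) : ℝ) * Q := by gcongr
    _ = 2 ^ (4 * g) * Q := by push_cast; ring

end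

section
variable (K : Type) [Field K] [NumberField K] {ι : Type} [Fintype ι]

/-- The property of an array of coordinates to define a curve satisfying the discriminant bound
with exponent `κ`. -/
def GoodCurve (ω : ι → 𝓞 K) (g : ℕ) (κ : ℝ) (a : Fin (2 * g + 3) → ι → ℤ) : Prop :=
  IsHyperelliptic g (curvePoly ω a) ∧
    (DeltaC g (curvePoly ω a) : ℝ) ≤ (MC g (curvePoly ω a) : ℝ) ^ κ

theorem main_count (ω : Module.Basis ι ℤ (𝓞 K)) (g : ℕ) (hg : 1 ≤ g) (κ : ℝ) (hκ : 0 < κ)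
    (ε : ℝ) (hε : 0 < ε) : ∃ c : ℝ, 0 < c ∧ ∀ H : ℕ, 1 ≤ H →
      (({a : Fin (2 * g + 3) → ι → ℤ | (∀ i j, |a i j| ≤ (H : ℤ)) ∧ ¬ GoodCurve K ω g κ a}.ncard : ℕ) : ℝ)
      ≤ (1 + 2 * (2 * g + 2) + c * (H : ℝ) ^ ((4 * g + 2) * (Module.finrank ℚ K / κ +
          ε * (Module.finrank ℚ K / κ + 1)))) *
        (2 * H + 1) ^ (Module.finrank ℚ K * (2 * g + 2)) := by
  classical
  set d := Module.finrank ℚ K with hd
  have hd1 : 1 ≤ d := Module.finrank_pos
  have hιd : Fintype.card ι = d := by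
    rw [hd, ← RingOfIntegers.rank K, Module.finrank_eq_card_basis ω]
  obtain ⟨c₀, hc₀, hfib⟩ := fiber_count K g hg ε hε
  set W := famW (K := K) ω with hW
  have hW1 : 1 ≤ W := one_le_famW _
  set q : ℝ := (Nat.factorial (2 * (2 * g + 2)) : ℝ) * (2 * (2 * g + 2) ^ 2 * W) ^ (4 * g + 2) with hq
  have hgR : (1:ℝ) ≤ g := by exact_mod_cast hg
  have hq1 : 1 ≤ q := by
    have h1 : (1:ℝ) ≤ (Nat.factorial (2 * (2 * g + 2)) : ℝ) := by
      exact_mod_cast Nat.factorial_pos _
    have h2 : (1:ℝ) ≤ 2 * (2 * g + 2) ^ 2 * W := by nlinarith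
    have h3 : (1:ℝ) ≤ (2 * (2 * g + 2) ^ 2 * W) ^ (4 * g + 2) := one_le_pow₀ h2
    nlinarith
  have hq0 : 0 < q := by linarith
  refine ⟨c₀ * (((2 ^ (4 * g) * q) ^ d) ^ (1 / κ)) ^ (1 + ε) * q ^ ε, by positivity, ?_⟩
  intro H hH
  have hH1 : (1:ℝ) ≤ H := by exact_mod_cast hH
  have hH0 : (0:ℝ) < H := by linarith
  set Q : ℝ := q * (H : ℝ) ^ (4 * g + 2) with hQ
  have hHp : (1:ℝ) ≤ (H : ℝ) ^ (4 * g + 2) := one_le_pow₀ hH1
  have hQ1 : 1 ≤ Q := by nlinarith
  have hQeq : (Nat.factorial (2 * (2 * g + 2)) : ℝ) *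
        (2 * (2 * g + 2) ^ 2 * (H * W)) ^ (4 * g + 2) = Q := by
    rw [hQ, hq]
    rw [show (2 * (2 * (g:ℝ) + 2) ^ 2 * (H * W)) = (2 * (2 * g + 2) ^ 2 * W) * H by ring, mul_pow]
    ring
  -- the threshold for the conductor
  set R : ℝ := ((2 ^ (4 * g) * Q) ^ d) ^ (1 / κ) with hR
  have hD1 : (1:ℝ) ≤ (2 ^ (4 * g) * Q) ^ d := by
    apply one_le_pow₀
    have : (1:ℝ) ≤ 2 ^ (4 * g) := one_le_pow₀ (by norm_num)
    nlinarith
  have hR1 : 1 ≤ R := Real.one_le_rpow hD1 (by positivity)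
  set M : ℕ := ⌊R⌋₊ with hM
  have hM1 : 1 ≤ M := Nat.le_floor (by exact_mod_cast hR1)
  have hMR : (M : ℝ) ≤ R := Nat.floor_le (by linarith)
  -- the box
  set Bx : Finset (ι → ℤ) := Fintype.piFinset (fun _ => Finset.Icc (-(H:ℤ)) H) with hBx
  have hBxcard : (Bx.card : ℝ) = (2 * H + 1) ^ d := by
    rw [hBx, Fintype.card_piFinset, Finset.prod_const, Finset.card_univ, hιd, Int.card_Icc]
    have : ((H : ℤ) + 1 - -(H:ℤ)).toNat = 2 * H + 1 := by omega
    rw [this]
    push_cast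
    ring
  have hBxmem : ∀ t : ι → ℤ, t ∈ Bx ↔ ∀ j, |t j| ≤ (H : ℤ) := by
    intro t
    rw [hBx, Fintype.mem_piFinset]
    simp only [Finset.mem_Icc, abs_le]
  set Box := Fintype.piFinset (fun _ : Fin (2 * g + 3) => Bx) with hBox
  have hBoxmem : ∀ a : Fin (2 * g + 3) → ι → ℤ, a ∈ Box ↔ ∀ i j, |a i j| ≤ (H : ℤ) := by
    intro a
    rw [hBox, Fintype.mem_piFinset]
    simp only [hBxmem]
  have hset : {a : Fin (2 * g + 3) → ι → ℤ | (∀ i j, |a i j| ≤ (H : ℤ)) ∧ ¬ GoodCurve K ω g κ a} =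
      ((Box.filter (fun a => ¬ GoodCurve K ω g κ a) : Finset _) : Set (Fin (2 * g + 3) → ι → ℤ)) := by
    ext a
    rw [Finset.mem_coe, Finset.mem_filter, hBoxmem]
    rfl
  rw [hset, Set.ncard_coe_finset]
  -- the indices
  set i0 : Fin (2 * g + 3) := ⟨0, by omega⟩ with hi0
  set i1 : Fin (2 * g + 3) := ⟨1, by omega⟩ with hi1
  set iN : Fin (2 * g + 3) := ⟨2 * g + 2, by omega⟩ with hiN
  have hne01 : i0 ≠ iN := by
    intro h
    have := congrArg Fin.val h
    simp [hi0, hiN] at this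
  have hne1N : i1 ≠ iN := by
    intro h
    have := congrArg Fin.val h
    simp only [hi1, hiN] at this
    omega
  have hcoefN : ∀ a : Fin (2 * g + 3) → ι → ℤ,
      (coordPoly (K := K) ω a).coeff (2 * g + 2) = coordInt ω (a iN) := fun a =>
    coordPoly_coeff _ a iN
  have hdeg : ∀ a : Fin (2 * g + 3) → ι → ℤ, (coordPoly (K := K) ω a).natDegree ≤ 2 * g + 2 :=
    fun a => coordPoly_natDegree (m := 2 * g + 2) _ a
  -- the classes
  set P0 : (Fin (2 * g + 3) → ι → ℤ) → Prop := fun a => coordInt (K := K) ω (a iN) = 0 with hP0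
  set P1 : (Fin (2 * g + 3) → ι → ℤ) → Prop := fun a => coordInt (K := K) ω (a iN) ≠ 0 ∧
    RR (2 * g + 1) (derivative (coordPoly (K := K) ω a)) = 0 with hP1
  set P2 : (Fin (2 * g + 3) → ι → ℤ) → Prop := fun a => coordInt (K := K) ω (a iN) ≠ 0 ∧
    RR (2 * g + 2) (coordPoly (K := K) ω a) = 0 with hP2
  set P3 : (Fin (2 * g + 3) → ι → ℤ) → Prop := fun a => coordInt (K := K) ω (a iN) ≠ 0 ∧
    RR (2 * g + 1) (derivative (coordPoly (K := K) ω a)) ≠ 0 ∧
    RR (2 * g + 2) (coordPoly (K := K) ω a) ≠ 0 ∧ MC g (curvePoly (K := K) ω a) ≤ M with hP3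
  have hcover : Box.filter (fun a => ¬ GoodCurve K ω g κ a) ⊆
      Box.filter P0 ∪ (Box.filter P1 ∪ (Box.filter P2 ∪ Box.filter P3)) := by
    intro a ha
    rw [Finset.mem_filter] at ha
    obtain ⟨haB, hbad⟩ := ha
    simp only [Finset.mem_union, Finset.mem_filter, haB, true_and]
    by_cases h0 : P0 a
    · exact Or.inl h0
    by_cases h1 : RR (2 * g + 1) (derivative (coordPoly (K := K) ω a)) = 0
    · exact Or.inr (Or.inl ⟨h0, h1⟩)
    by_cases h2 : RR (2 * g + 2) (coordPoly (K := K) ω a) = 0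
    · exact Or.inr (Or.inr (Or.inl ⟨h0, h2⟩))
    right; right; right
    refine ⟨h0, h1, h2, ?_⟩
    have hinj : Function.Injective (algebraMap (𝓞 K) K) := FaithfulSMul.algebraMap_injective _ _
    have hhyp : IsHyperelliptic g (curvePoly (K := K) ω a) := by
      apply hyper_of_RR
      · rw [curvePoly, natDegree_map_eq_of_injective hinj]
        apply le_antisymm (hdeg a)
        apply le_natDegree_of_ne_zero
        rw [hcoefN]; exact h0
      · rw [curvePoly, RR_map, Ne, FaithfulSMul.algebraMap_eq_zero_iff]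
        exact h2
    have hnot : ¬ ((DeltaC g (curvePoly (K := K) ω a) : ℝ) ≤ (MC g (curvePoly (K := K) ω a) : ℝ) ^ κ) :=
      fun h => hbad ⟨hhyp, h⟩
    rw [not_le] at hnot
    have hΔ := DeltaC_place_le g hg (coordPoly (K := K) ω a) hhyp h2 Q (by
      intro w
      rw [← hQeq]
      exact (RR_box (K := K) ω hg a H hH ((hBoxmem a).1 haB) w).1)
    have h3 : (MC g (curvePoly (K := K) ω a) : ℝ) ^ κ ≤ (2 ^ (4 * g) * Q) ^ d := hnot.le.trans hΔ
    apply Nat.le_floor
    calc (MC g (curvePoly (K := K) ω a) : ℝ)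
        = ((MC g (curvePoly (K := K) ω a) : ℝ) ^ κ) ^ (1 / κ) := by
          rw [← Real.rpow_mul (Nat.cast_nonneg _), mul_one_div_cancel hκ.ne', Real.rpow_one]
      _ ≤ R := Real.rpow_le_rpow (by positivity) h3 (by positivity)
  -- counts
  have hBpos : (0:ℝ) ≤ (Bx.card : ℝ) ^ (2 * g + 3 - 1) := by positivity
  have hn0 : (0:ℝ) ≤ 2 * g + 2 := by positivity
  have c0 : ((Box.filter P0).card : ℝ) ≤ 1 * (Bx.card : ℝ) ^ (2 * g + 3 - 1) := by
    apply coord_count Bx iN _ (Finset.filter_subset _ _) 1 zero_le_one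
    intro a _
    have : (Bx.filter (fun t => Function.update a iN t ∈ Box.filter P0)).card ≤ 1 := by
      rw [Finset.card_le_one]
      intro s hs t ht
      rw [Finset.mem_filter, Finset.mem_filter] at hs ht
      have h1 : coordInt (K := K) ω s = 0 := by
        have := hs.2.2
        simpa only [hP0, Function.update_self] using this
      have h2 : coordInt (K := K) ω t = 0 := by
        have := ht.2.2
        simpa only [hP0, Function.update_self] using this
      exact coordInt_inj ω (h1.trans h2.symm)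
    exact_mod_cast this
  have c1 : ((Box.filter P1).card : ℝ) ≤ (2 * g + 2) * (Bx.card : ℝ) ^ (2 * g + 3 - 1) := by
    apply coord_count Bx i1 _ (Finset.filter_subset _ _) _ hn0
    intro a _
    set S := Bx.filter (fun t => Function.update a i1 t ∈ Box.filter P1) with hS
    rcases S.eq_empty_or_nonempty with he | ⟨t₀, ht₀⟩
    · rw [he, Finset.card_empty, Nat.cast_zero]; exact hn0
    have hlead : coordInt (K := K) ω (a iN) ≠ 0 := by
      rw [hS, Finset.mem_filter, Finset.mem_filter] at ht₀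
      have := ht₀.2.2.1
      rwa [Function.update_of_ne hne1N.symm] at this
    have : S.card ≤ 2 * g + 1 - 1 := by
      apply coordInt_fiber_card (K := K) ω
      apply shift_card_int K (2 * g + 1) (by omega)
        (derivative (coordPoly (K := K) ω (Function.update a i1 0))) ?_ ?_ 0
      · intro x hx
        obtain ⟨t, ht, rfl⟩ := Finset.mem_image.1 hx
        rw [hS, Finset.mem_filter, Finset.mem_filter] at ht
        have h1 := ht.2.2.2
        rw [coordPoly_update] at h1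
        have h2 : derivative (coordPoly (K := K) ω (Function.update a i1 0) + C (coordInt (K := K) ω t) * X ^ (i1 : ℕ))
            = derivative (coordPoly (K := K) ω (Function.update a i1 0)) + C (coordInt (K := K) ω t) := by
          rw [hi1]
          simp
        rwa [h2] at h1
      · have := natDegree_derivative_le (coordPoly (K := K) ω (Function.update a i1 0))
        have h2 := hdeg (Function.update a i1 0)
        omega
      · rw [coeff_derivative, hcoefN, Function.update_of_ne hne1N.symm]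
        apply mul_ne_zero hlead
        have : ((2 * g + 2 : ℕ) : 𝓞 K) ≠ 0 := by
          exact_mod_cast (by omega : 2 * g + 2 ≠ 0)
        push_cast at this ⊢
        rw [show (2 * (g : 𝓞 K) + 1 + 1) = 2 * g + 2 by ring]
        exact this
    have h' : (S.card : ℝ) ≤ ((2 * g + 2 : ℕ) : ℝ) := by
      exact_mod_cast this.trans (by omega)
    push_cast at h'
    exact h'
  have c2 : ((Box.filter P2).card : ℝ) ≤ (2 * g + 2) * (Bx.card : ℝ) ^ (2 * g + 3 - 1) := by
    apply coord_count Bx i0 _ (Finset.filter_subset _ _) _ hn0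
    intro a _
    set S := Bx.filter (fun t => Function.update a i0 t ∈ Box.filter P2) with hS
    rcases S.eq_empty_or_nonempty with he | ⟨t₀, ht₀⟩
    · rw [he, Finset.card_empty, Nat.cast_zero]; exact hn0
    have hlead : coordInt (K := K) ω (a iN) ≠ 0 := by
      rw [hS, Finset.mem_filter, Finset.mem_filter] at ht₀
      have := ht₀.2.2.1
      rwa [Function.update_of_ne hne01.symm] at this
    have : S.card ≤ 2 * g + 2 - 1 := by
      apply coordInt_fiber_card (K := K) ω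
      apply shift_card_int K (2 * g + 2) (by omega)
        (coordPoly (K := K) ω (Function.update a i0 0)) (hdeg _) ?_ 0
      · intro x hx
        obtain ⟨t, ht, rfl⟩ := Finset.mem_image.1 hx
        rw [hS, Finset.mem_filter, Finset.mem_filter] at ht
        have h1 := ht.2.2.2
        rw [coordPoly_update] at h1
        have h2 : coordPoly (K := K) ω (Function.update a i0 0) + C (coordInt (K := K) ω t) * X ^ (i0 : ℕ)
            = coordPoly (K := K) ω (Function.update a i0 0) + C (coordInt (K := K) ω t) := by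
          rw [hi0]
          simp
        rwa [h2] at h1
      · rw [hcoefN, Function.update_of_ne hne01.symm]
        exact hlead
    have h' : (S.card : ℝ) ≤ ((2 * g + 2 : ℕ) : ℝ) := by
      exact_mod_cast this.trans (by omega)
    push_cast at h'
    exact h'
  have c3 : ((Box.filter P3).card : ℝ) ≤ (c₀ * (M : ℝ) ^ (1 + ε) * Q ^ ε) * (Bx.card : ℝ) ^ (2 * g + 3 - 1) := by
    apply coord_count Bx i0 _ (Finset.filter_subset _ _) _ (by positivity)
    intro a _
    set S := Bx.filter (fun t => Function.update a i0 t ∈ Box.filter P3) with hS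
    rcases S.eq_empty_or_nonempty with he | ⟨t₀, ht₀⟩
    · rw [he, Finset.card_empty, Nat.cast_zero]; positivity
    set f := coordPoly (K := K) ω (Function.update a i0 0) with hf
    have hupd : ∀ t, coordPoly (K := K) ω (Function.update a i0 t) = f + C (coordInt (K := K) ω t) := by
      intro t
      rw [coordPoly_update, hi0]
      simp [hf, hi0]
    have hlead : coordInt (K := K) ω (a iN) ≠ 0 := by
      rw [hS, Finset.mem_filter, Finset.mem_filter] at ht₀
      have := ht₀.2.2.1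
      rwa [Function.update_of_ne hne01.symm] at this
    have hder : ∀ t, derivative (f + C (coordInt (K := K) ω t)) = derivative f := by
      intro t; rw [derivative_add, derivative_C, add_zero]
    have hE : RR (2 * g + 1) (derivative f) ≠ 0 := by
      rw [hS, Finset.mem_filter, Finset.mem_filter] at ht₀
      have := ht₀.2.2.2.1
      rwa [hupd, hder] at this
    have hNE : (((Algebra.norm ℤ (RR (2 * g + 1) (derivative f))).natAbs : ℕ) : ℝ) ≤ Q ^ d := by
      apply norm_le_of_places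
      intro w
      rw [hS, Finset.mem_filter, Finset.mem_filter] at ht₀
      have := (RR_box (K := K) ω hg _ H hH ((hBoxmem _).1 ht₀.2.1) w).2
      rw [hupd, hder, hQeq] at this
      exact this
    have h1 := hfib f (hdeg _) (by
      rw [hf, hcoefN, Function.update_of_ne hne01.symm]; exact hlead) hE Q hQ1 hNE M hM1
      (S.image (coordInt (K := K) ω)) (by
        intro x hx
        obtain ⟨t, ht, rfl⟩ := Finset.mem_image.1 hx
        rw [hS, Finset.mem_filter, Finset.mem_filter] at ht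
        obtain ⟨_, hB, _, _, hr, hmc⟩ := ht
        rw [curvePoly] at hmc
        rw [hupd] at hr hmc
        refine ⟨hr, ?_, hmc⟩
        intro w
        have := (RR_box (K := K) ω hg _ H hH ((hBoxmem _).1 hB) w).1
        rw [hupd, hQeq] at this
        exact this)
    rwa [Finset.card_image_of_injective _ (coordInt_inj ω)] at h1
  have hcard : ((Box.filter (fun a => ¬ GoodCurve K ω g κ a)).card : ℝ) ≤
      ((Box.filter P0).card : ℝ) + (((Box.filter P1).card : ℝ) + (((Box.filter P2).card : ℝ) +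
        ((Box.filter P3).card : ℝ))) := by
    have h1 : (Box.filter (fun a => ¬ GoodCurve K ω g κ a)).card ≤
      (Box.filter P0).card + ((Box.filter P1).card + ((Box.filter P2).card + (Box.filter P3).card)) := by
      refine (Finset.card_le_card hcover).trans ?_
      refine (Finset.card_union_le _ _).trans (Nat.add_le_add_left ?_ _)
      refine (Finset.card_union_le _ _).trans (Nat.add_le_add_left ?_ _)
      exact Finset.card_union_le _ _
    exact_mod_cast h1
  have hpow : (Bx.card : ℝ) ^ (2 * g + 3 - 1) = (2 * H + 1) ^ (d * (2 * g + 2)) := by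
    rw [hBxcard, ← pow_mul]
    congr 1
  have hfinal : c₀ * (M : ℝ) ^ (1 + ε) * Q ^ ε ≤
      c₀ * (((2 ^ (4 * g) * q) ^ d) ^ (1 / κ)) ^ (1 + ε) * q ^ ε *
        (H : ℝ) ^ ((4 * g + 2) * (d / κ + ε * (d / κ + 1))) := by
    have e1 : (M : ℝ) ^ (1 + ε) ≤ R ^ (1 + ε) := by
      apply Real.rpow_le_rpow (Nat.cast_nonneg _) hMR (by positivity)
    have e2 : R = (((2 ^ (4 * g) * q) ^ d) ^ (1 / κ)) * (H : ℝ) ^ ((4 * g + 2) * (d / κ)) := by
      rw [hR, hQ]
      rw [show (2 ^ (4 * g) * (q * (H:ℝ) ^ (4 * g + 2))) = (2 ^ (4 * g) * q) * (H:ℝ) ^ (4 * g + 2) by ring,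
        mul_pow, Real.mul_rpow (by positivity) (by positivity)]
      congr 1
      rw [← pow_mul, ← Real.rpow_natCast, ← Real.rpow_mul hH0.le]
      congr 1
      push_cast
      field_simp
    have e3 : Q ^ ε = q ^ ε * (H : ℝ) ^ ((4 * g + 2) * ε) := by
      rw [hQ, Real.mul_rpow hq0.le (by positivity), ← Real.rpow_natCast, ← Real.rpow_mul hH0.le]
      push_cast
      rfl
    have e4 : R ^ (1 + ε) = (((2 ^ (4 * g) * q) ^ d) ^ (1 / κ)) ^ (1 + ε) *
        (H : ℝ) ^ ((4 * g + 2) * (d / κ) * (1 + ε)) := by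
      rw [e2, Real.mul_rpow (by positivity) (by positivity), ← Real.rpow_mul hH0.le]
    calc c₀ * (M : ℝ) ^ (1 + ε) * Q ^ ε ≤ c₀ * R ^ (1 + ε) * Q ^ ε := by gcongr
      _ = c₀ * (((2 ^ (4 * g) * q) ^ d) ^ (1 / κ)) ^ (1 + ε) * q ^ ε *
          ((H : ℝ) ^ ((4 * g + 2) * (d / κ) * (1 + ε)) * (H : ℝ) ^ ((4 * g + 2) * ε)) := by
        rw [e3, e4]; ring
      _ = _ := by
        rw [← Real.rpow_add hH0]
        congr 2
        ring
  calc ((Box.filter (fun a => ¬ GoodCurve K ω g κ a)).card : ℝ)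
      ≤ ((Box.filter P0).card : ℝ) + (((Box.filter P1).card : ℝ) + (((Box.filter P2).card : ℝ) +
        ((Box.filter P3).card : ℝ))) := hcard
    _ ≤ 1 * (Bx.card : ℝ) ^ (2 * g + 3 - 1) + ((2 * g + 2) * (Bx.card : ℝ) ^ (2 * g + 3 - 1) +
        ((2 * g + 2) * (Bx.card : ℝ) ^ (2 * g + 3 - 1) +
          (c₀ * (M : ℝ) ^ (1 + ε) * Q ^ ε) * (Bx.card : ℝ) ^ (2 * g + 3 - 1))) := by
        gcongr
    _ = (1 + 2 * (2 * g + 2) + c₀ * (M : ℝ) ^ (1 + ε) * Q ^ ε) * (Bx.card : ℝ) ^ (2 * g + 3 - 1) := by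
        ring
    _ ≤ (1 + 2 * (2 * g + 2) + c₀ * (((2 ^ (4 * g) * q) ^ d) ^ (1 / κ)) ^ (1 + ε) * q ^ ε *
        (H : ℝ) ^ ((4 * g + 2) * (d / κ + ε * (d / κ + 1)))) * (Bx.card : ℝ) ^ (2 * g + 3 - 1) := by
        gcongr
    _ = _ := by rw [hpow]

theorem density_one (ω : Module.Basis ι ℤ (𝓞 K)) (g : ℕ) (hg : 1 ≤ g) (κ δ : ℝ)
    (hκ : 4 * g + 2 < κ) (hδ : δ < Module.finrank ℚ K * (1 - (4 * g + 2) / κ)) :
    ∃ c : ℝ, ∀ H : ℕ, 1 ≤ H →
      (({a : Fin (2 * g + 3) → ι → ℤ | (∀ i j, |a i j| ≤ (H : ℤ)) ∧ ¬ GoodCurve K ω g κ a}.ncard : ℕ) : ℝ)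
      ≤ c * (H : ℝ) ^ (-δ) * (2 * H + 1) ^ (Module.finrank ℚ K * (2 * g + 3)) := by
  set d := Module.finrank ℚ K with hd
  have hd1 : 1 ≤ d := Module.finrank_pos
  have hdR : (1:ℝ) ≤ d := by exact_mod_cast hd1
  have hgR : (1:ℝ) ≤ g := by exact_mod_cast hg
  have hκ0 : 0 < κ := by linarith
  have hden : 0 < (4 * (g:ℝ) + 2) * (d / κ + 1) := by positivity
  set ε := (d - δ - (4 * g + 2) * d / κ) / ((4 * g + 2) * (d / κ + 1)) with hε
  have hnum : 0 < d - δ - (4 * g + 2) * d / κ := by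
    have : (d:ℝ) * (1 - (4 * g + 2) / κ) = d - (4 * g + 2) * d / κ := by ring
    linarith
  have hε0 : 0 < ε := div_pos hnum hden
  obtain ⟨c, hc, hmain⟩ := main_count K ω g hg κ hκ0 ε hε0
  have hexp : (4 * (g:ℝ) + 2) * (d / κ + ε * (d / κ + 1)) = d - δ := by
    have h1 : ε * ((4 * (g:ℝ) + 2) * (d / κ + 1)) = d - δ - (4 * g + 2) * d / κ :=
      div_mul_cancel₀ _ hden.ne'
    calc (4 * (g:ℝ) + 2) * (d / κ + ε * (d / κ + 1))
        = (4 * g + 2) * d / κ + ε * ((4 * (g:ℝ) + 2) * (d / κ + 1)) := by ring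
      _ = d - δ := by rw [h1]; ring
  refine ⟨1 + 2 * (2 * g + 2) + c, ?_⟩
  intro H hH
  have hH1 : (1:ℝ) ≤ H := by exact_mod_cast hH
  have hH0 : (0:ℝ) < H := by linarith
  have h1 := hmain H hH
  rw [← hd, hexp] at h1
  have hδd : 0 ≤ d - δ := by
    have : 0 ≤ (4 * (g:ℝ) + 2) * d / κ := by positivity
    linarith
  have h2 : (1:ℝ) ≤ (H:ℝ) ^ (d - δ) := Real.one_le_rpow hH1 hδd
  have h3 : (H:ℝ) ^ (d - δ) = (H:ℝ) ^ d * (H:ℝ) ^ (-δ) := by
    rw [sub_eq_add_neg, Real.rpow_add hH0, Real.rpow_natCast]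
  calc _ ≤ _ := h1
    _ ≤ ((1 + 2 * (2 * g + 2) + c) * (H:ℝ) ^ (d - δ)) * (2 * H + 1) ^ (d * (2 * g + 2)) := by
        gcongr
        nlinarith
    _ = (1 + 2 * (2 * g + 2) + c) * (H:ℝ) ^ (-δ) * ((H:ℝ) ^ d * (2 * H + 1) ^ (d * (2 * g + 2))) := by
        rw [h3]; ring
    _ ≤ (1 + 2 * (2 * g + 2) + c) * (H:ℝ) ^ (-δ) * ((2 * H + 1) ^ d * (2 * H + 1) ^ (d * (2 * g + 2))) := by
        gcongr
        linarith
    _ = _ := by
        rw [← pow_add]
        congr 2
        ring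

end

end Pool.Agent.Lib.MP_ca2859_nt
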