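import Mathlib
import Pool.Agent.Lib.MP_ca2859_nt.FamB
import Pool.Agent.Lib.MP_ca2859_nt.Final

/-!
# Families: counting
-/

open NumberField Polynomial IsDedekindDomain WithZero

set_option linter.unusedSectionVars false

namespace Pool.Agent.Lib.MP_ca2859_nt

section
variable {K : Type} [Field K] [NumberField K] {ι : Type} [Fintype ι]

theorem exists_eval_ne {r : ℕ} (G : MvPolynomial (Fin r) (𝓞 K)) (hG : G ≠ 0) :
    ∃ t, MvPolynomial.eval t G ≠ 0 := by
  by_contra hcon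
  push Not at hcon
  apply hG
  apply MvPolynomial.funext
  intro t
  rw [hcon t, map_zero]

theorem q_ne_zero {r : ℕ} (g : ℕ) (cr : CRData g)
    (F : (MvPolynomial (Fin r) (𝓞 K))[X]) (hFd : F.natDegree ≤ 2 * g + 1 + 1)
    (hFn : F.coeff (2 * g + 1 + 1) ≠ 0) (hR : RR (2 * g + 2) F ≠ 0) :
    evT F (cr.T cr.top) ≠ 0 := by
  obtain ⟨t, ht⟩ := exists_eval_ne _ (mul_ne_zero hFn hR)
  rw [map_mul] at ht
  obtain ⟨hyp, hfd⟩ := spec_hyper g F hFd t (left_ne_zero_of_mul ht) (right_ne_zero_of_mul ht)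
  have h1 := qtop_ne_zero g cr.p cr.hp cr.N cr.T cr.hT _ hyp hfd
  have h2 : evT ((spec F t).map (algebraMap (𝓞 K) K)) (cr.T cr.top) ≠ 0 := h1
  rw [spec_aeval] at h2
  intro h0
  rw [h0, map_zero, map_zero] at h2
  exact h2 rfl

/-- the box of integral vectors -/
theorem box_facts (ω : Module.Basis ι ℤ (𝓞 K)) (H : ℕ) : ∃ Bx : Finset (ι → ℤ),
    (∀ t, t ∈ Bx ↔ ∀ j, |t j| ≤ (H : ℤ)) ∧ (Bx.card : ℝ) = (2 * H + 1) ^ Module.finrank ℚ K ∧
    Bx.Nonempty := by
  classical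
  have hιd : Fintype.card ι = Module.finrank ℚ K := by
    rw [← RingOfIntegers.rank K, Module.finrank_eq_card_basis ω]
  refine ⟨Fintype.piFinset (fun _ => Finset.Icc (-(H:ℤ)) H), ?_, ?_, ?_⟩
  · intro t
    rw [Fintype.mem_piFinset]
    simp only [Finset.mem_Icc, abs_le]
  · rw [Fintype.card_piFinset, Finset.prod_const, Finset.card_univ, hιd, Int.card_Icc]
    have : ((H : ℤ) + 1 - -(H:ℤ)).toNat = 2 * H + 1 := by omega
    rw [this]
    push_cast
    ring
  · refine ⟨0, ?_⟩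
    rw [Fintype.mem_piFinset]
    intro j
    simp

/-- fibre bound in the non-degenerate case -/
theorem fibreB' (ω : Module.Basis ι ℤ (𝓞 K)) {r : ℕ} (g : ℕ) (hg : 1 ≤ g) (cr : CRData g)
    (F : (MvPolynomial (Fin (r + 1)) (𝓞 K))[X]) (hFd : F.natDegree ≤ 2 * g + 1 + 1)
    (k : ℕ) (i : Fin (r + 1)) (P R S U V : MvPolynomial (Fin (r + 1)) (𝓞 K))
    (E₀ : MvPolynomial (Fin r) (𝓞 K))
    (h1 : P * R * evT F (cr.T k) = evT F (cr.T cr.top) * S)
    (h2 : U * P + V * S = (Phi (𝓞 K) r i).symm (C E₀))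
    (hdeg : 0 < (Phi (𝓞 K) r i P).natDegree) (ε : ℝ) (hε : 0 < ε) :
    ∃ (c q₁ : ℝ) (e₁ : ℕ), 0 < c ∧ 1 ≤ q₁ ∧
      e₁ = P.totalDegree + ((Phi (𝓞 K) r i).symm (C E₀)).totalDegree ∧ ∀ (H : ℕ), 1 ≤ H → ∀ M : ℕ, 1 ≤ M →
      ∀ (a : Fin (r + 1) → ι → ℤ), (∀ i j, |a i j| ≤ (H : ℤ)) → ∀ T₀ : Finset (ι → ℤ),
      (∀ t ∈ T₀, (∀ j, |t j| ≤ (H : ℤ)) ∧
        MvPolynomial.eval (fun j => coordInt ω (Function.update a i t j)) (F.coeff (2 * g + 1 + 1)) ≠ 0 ∧
        MvPolynomial.eval (fun j => coordInt ω (Function.update a i t j)) (RR (2 * g + 2) F) ≠ 0 ∧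
        MvPolynomial.eval (fun j => coordInt ω (Function.update a i t j)) P ≠ 0 ∧
        MvPolynomial.eval (fun j => coordInt ω (Function.update a i t j))
          ((Phi (𝓞 K) r i).symm (C E₀)) ≠ 0 ∧
        MvPolynomial.eval (fun j => coordInt ω (Function.update a i t j))
          ((Phi (𝓞 K) r i).symm (C (Phi (𝓞 K) r i P).leadingCoeff)) ≠ 0 ∧
        MC g ((spec F (fun j => coordInt ω (Function.update a i t j))).map (algebraMap (𝓞 K) K)) ≤ M) →
      (T₀.card : ℝ) ≤ c * (M : ℝ) ^ (1 + ε) * (q₁ * (H : ℝ) ^ e₁) ^ ε := by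
  classical
  set d := Module.finrank ℚ K with hd
  have hd1 : 1 ≤ d := Module.finrank_pos
  obtain ⟨c, hc, hfib⟩ := fiber_count_abs K ε hε (Phi (𝓞 K) r i P).natDegree
  set E := (Phi (𝓞 K) r i).symm (C E₀) with hE
  set W := famW (K := K) ω with hW
  have hW1 : 1 ≤ W := one_le_famW _
  set e₁ := P.totalDegree + E.totalDegree with he₁
  have hcP := one_le_coefW P
  have hcE := one_le_coefW E
  set q₁ : ℝ := (4 * g + 4) * (coefW P + coefW E) * W ^ e₁ with hq₁
  have hgR : (1:ℝ) ≤ g := by exact_mod_cast hg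
  have hWe : (1:ℝ) ≤ W ^ e₁ := one_le_pow₀ hW1
  have hq1' : (1:ℝ) ≤ (4 * g + 4) * (coefW P + coefW E) := by nlinarith
  have hq1 : 1 ≤ q₁ := by
    rw [hq₁]
    nlinarith
  refine ⟨c, q₁, e₁, hc, hq1, rfl, ?_⟩
  intro H hH M hM a ha T₀ hT₀
  have hH1 : (1:ℝ) ≤ H := by exact_mod_cast hH
  rcases T₀.eq_empty_or_nonempty with rfl | ⟨t₀, ht₀⟩
  · simp only [Finset.card_empty, Nat.cast_zero]
    positivity
  set b : Fin (r + 1) → 𝓞 K := fun j => coordInt ω (a j) with hb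
  have hupd : ∀ t, (fun j => coordInt (K := K) ω (Function.update a i t j)) =
      Function.update b i (coordInt ω t) := by
    intro t
    funext j
    by_cases hj : j = i
    · subst hj; simp
    · rw [Function.update_of_ne hj, Function.update_of_ne hj]
  simp only [hupd] at hT₀
  set Q : ℝ := q₁ * (H : ℝ) ^ e₁ with hQ
  have hHe : (1:ℝ) ≤ (H : ℝ) ^ e₁ := one_le_pow₀ hH1
  have hQ1 : 1 ≤ Q := by nlinarith
  have hB1 : (1:ℝ) ≤ H * W := by nlinarith
  -- sizes
  have hplaces : ∀ t : ι → ℤ, (∀ j, |t j| ≤ (H : ℤ)) → ∀ j, ∀ w : InfinitePlace K,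
      w ((Function.update b i (coordInt ω t) j : 𝓞 K) : K) ≤ H * W := by
    intro t ht j w
    by_cases hj : j = i
    · subst hj
      rw [Function.update_self]
      exact coordInt_place (K := K) ω t H ht w
    · rw [Function.update_of_ne hj]
      exact coordInt_place (K := K) ω (a j) H (ha j) w
  have hbase : (coefW P + coefW E) * (H * W) ^ e₁ * (4 * g + 4) = Q := by
    rw [hQ, hq₁, mul_pow]; ring
  have hsizeP : ∀ t : ι → ℤ, (∀ j, |t j| ≤ (H : ℤ)) → ∀ w : InfinitePlace K,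
      w ((MvPolynomial.eval (Function.update b i (coordInt ω t)) P : 𝓞 K) : K) ≤ Q := by
    intro t ht w
    refine (place_eval P e₁ (Nat.le_add_right _ _) _ hB1 _ (hplaces t ht) w).trans ?_
    rw [← hbase]
    have : (0:ℝ) ≤ (H * W) ^ e₁ := by positivity
    calc coefW P * (H * W) ^ e₁ ≤ (coefW P + coefW E) * (H * W) ^ e₁ * 1 := by
          rw [mul_one]; gcongr; linarith
      _ ≤ (coefW P + coefW E) * (H * W) ^ e₁ * (4 * g + 4) := by
          gcongr
          linarith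
  have hEind : ∀ x, MvPolynomial.eval (Function.update b i x) E = MvPolynomial.eval b E := by
    intro x
    rw [hE]
    exact eval_update_indep r i E₀ b x
  have hLind : ∀ x, MvPolynomial.eval (Function.update b i x)
      ((Phi (𝓞 K) r i).symm (C (Phi (𝓞 K) r i P).leadingCoeff)) = MvPolynomial.eval b
      ((Phi (𝓞 K) r i).symm (C (Phi (𝓞 K) r i P).leadingCoeff)) := by
    intro x
    exact eval_update_indep r i _ b x
  have hE0 : MvPolynomial.eval b E ≠ 0 := by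
    rw [← hEind (coordInt ω t₀)]; exact (hT₀ t₀ ht₀).2.2.2.2.1
  have hL0 : MvPolynomial.eval b ((Phi (𝓞 K) r i).symm (C (Phi (𝓞 K) r i P).leadingCoeff)) ≠ 0 := by
    rw [← hLind (coordInt ω t₀)]; exact (hT₀ t₀ ht₀).2.2.2.2.2.1
  set Eb : ℕ := (2 * (2 * g + 2)) * (Algebra.norm ℤ (MvPolynomial.eval b E)).natAbs with hEb
  have hEb0 : 0 < Eb := by
    have : 0 < (Algebra.norm ℤ (MvPolynomial.eval b E)).natAbs :=
      Int.natAbs_pos.2 (Algebra.norm_ne_zero_iff.2 hE0)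
    positivity
  have hEbQ : (Eb : ℝ) ≤ Q ^ d := by
    have hx : ∀ w : InfinitePlace K, w ((MvPolynomial.eval b E : 𝓞 K) : K) ≤
        (coefW P + coefW E) * (H * W) ^ e₁ := by
      intro w
      have hbp : ∀ j, ∀ w : InfinitePlace K, w ((b j : 𝓞 K) : K) ≤ H * W := fun j w =>
        coordInt_place (K := K) ω (a j) H (ha j) w
      refine (place_eval E e₁ (Nat.le_add_left _ _) _ hB1 _ hbp w).trans ?_
      gcongr
      linarith
    have hx' := norm_le_of_places _ _ hx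
    rw [← hd] at hx'
    rw [hEb]
    push_cast
    calc (2 * (2 * (g:ℝ) + 2)) * (((Algebra.norm ℤ (MvPolynomial.eval b E)).natAbs : ℕ) : ℝ)
        ≤ (4 * g + 4) * ((coefW P + coefW E) * (H * W) ^ e₁) ^ d := by
          have : 2 * (2 * (g:ℝ) + 2) = 4 * g + 4 := by ring
          rw [this]
          gcongr
      _ ≤ (4 * g + 4) ^ d * ((coefW P + coefW E) * (H * W) ^ e₁) ^ d := by
          have h3 : (4 * (g:ℝ) + 4) ≤ (4 * g + 4) ^ d := by
            apply le_self_pow₀ (by linarith) (by omega)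
          gcongr
      _ = Q ^ d := by
          rw [← mul_pow, ← hbase]
          ring
  -- the fibre count
  have hcount := hfib (fun x => MvPolynomial.eval (Function.update b i x) P)
    (fun x => MC g ((spec F (Function.update b i x)).map (algebraMap (𝓞 K) K))) Eb Q hQ1 hEb0 hEbQ M hM
    (T₀.image (coordInt (K := K) ω)) (by
      intro x hx
      obtain ⟨t, ht, rfl⟩ := Finset.mem_image.1 hx
      exact (hT₀ t ht).2.2.2.1) (by
      intro x hx w
      obtain ⟨t, ht, rfl⟩ := Finset.mem_image.1 hx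
      exact hsizeP t (hT₀ t ht).1 w) (by
      intro x hx
      obtain ⟨t, ht, rfl⟩ := Finset.mem_image.1 hx
      obtain ⟨_, h3, h4, _, _, _, h5⟩ := hT₀ t ht
      obtain ⟨hyp, _⟩ := spec_hyper g F hFd _ h3 h4
      exact ⟨MC_pos g _ hyp, h5⟩) (by
      intro x hx v hv
      obtain ⟨t, ht, rfl⟩ := Finset.mem_image.1 hx
      obtain ⟨_, h3, h4, h5, _, _, _⟩ := hT₀ t ht
      have h6 := supportB g hg cr F hFd k P R S U V E h1 h2 _ h3 h4 h5 v hv
      rw [hEind] at h6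
      exact h6) (by
      intro D S' _ hS'
      exact fibre_card_le r i P hdeg b hL0 D S' hS')
  rwa [Finset.card_image_of_injective _ (coordInt_inj ω)] at hcount

end

end Pool.Agent.Lib.MP_ca2859_nt
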