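import Mathlib
import Pool.Agent.Lib.MP_ca2859_nt.FamC

/-!
# Families: the main count
-/

open NumberField Polynomial IsDedekindDomain WithZero

set_option linter.unusedSectionVars false

namespace Pool.Agent.Lib.MP_ca2859_nt

section
variable {K : Type} [Field K] [NumberField K] {ι : Type} [Fintype ι]

/-- the member of the family with integral coordinates `a` -/
noncomputable def memb (ω : Module.Basis ι ℤ (𝓞 K)) {r : ℕ} (F : (MvPolynomial (Fin r) (𝓞 K))[X])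
    (a : Fin r → ι → ℤ) : K[X] :=
  (spec F (fun j => coordInt ω (a j))).map (algebraMap (𝓞 K) K)

theorem arith_exp (d H : ℝ) (dn r : ℕ) (hd : d = dn) (hH : 1 ≤ H) (δ : ℝ) :
    H ^ (d - δ) * (2 * H + 1) ^ (dn * r) ≤ 3 ^ (dn * r) * H ^ (d * (r + 1) - δ) := by
  have hH0 : 0 < H := by linarith
  have h1 : (2 * H + 1) ^ (dn * r) ≤ (3 * H) ^ (dn * r) := by
    gcongr
    linarith
  calc H ^ (d - δ) * (2 * H + 1) ^ (dn * r) ≤ H ^ (d - δ) * (3 * H) ^ (dn * r) := by gcongr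
    _ = 3 ^ (dn * r) * (H ^ (d - δ) * H ^ ((dn * r : ℕ) : ℝ)) := by
        rw [mul_pow, Real.rpow_natCast]; ring
    _ = 3 ^ (dn * r) * H ^ (d * (r + 1) - δ) := by
        rw [← Real.rpow_add hH0]
        congr 2
        rw [hd]; push_cast; ring

theorem family_main (ω : Module.Basis ι ℤ (𝓞 K)) {r : ℕ} (g : ℕ) (hg : 1 ≤ g)
    (F : (MvPolynomial (Fin (r + 1)) (𝓞 K))[X]) (hFd : F.natDegree ≤ 2 * g + 1 + 1)
    (hFn : F.coeff (2 * g + 1 + 1) ≠ 0) (hR : RR (2 * g + 2) F ≠ 0)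
    (e : ℕ) (he : ∀ i, (F.coeff i).totalDegree ≤ e) (κ : ℝ) (hκ1 : (4 * g + 2) * e < κ)
    (hκ2 : (2 * g + 1) * (g + 3) ≤ κ) :
    ∃ c δ : ℝ, 0 < δ ∧ 1 ≤ c ∧ ∀ H : ℕ, 1 ≤ H → ∀ S : Finset (Fin (r + 1) → ι → ℤ),
      (∀ a ∈ S, (∀ i j, |a i j| ≤ (H : ℤ)) ∧ ¬ (IsHyperelliptic g (memb ω F a) ∧
        (DeltaC g (memb ω F a) : ℝ) ≤ c * (MC g (memb ω F a) : ℝ) ^ κ)) →
      (S.card : ℝ) ≤ c * (H : ℝ) ^ (Module.finrank ℚ K * ((r : ℝ) + 1) - δ) := by
  classical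
  set d := Module.finrank ℚ K with hd
  have hd1 : 1 ≤ d := Module.finrank_pos
  have hdR : (1:ℝ) ≤ d := by exact_mod_cast hd1
  have hgR : (1:ℝ) ≤ g := by exact_mod_cast hg
  have hκ0 : 0 < κ := lt_of_lt_of_le (by positivity) hκ2
  obtain ⟨cr⟩ := exists_CRData g hg
  have hq := q_ne_zero g cr F hFd hFn hR
  set LF := F.coeff (2 * g + 1 + 1) with hLF
  set DF := RR (2 * g + 2) F with hDF
  rcases dichotomy r _ hq cr.top (fun k => evT F (cr.T k)) with ⟨m, hm, hA⟩ | ⟨k, i, P, R, S₁, U, V, E₀, h1, hE₀, h2, hdeg⟩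
  · -- bound for all members
    set C₀ : ℕ := ((2 ^ (4 * g) * m ^ (4 * ((2 * g + 1) * (2 * g)))) ^ ((4 * g + 3) ^ 2) * cst g) ^ d with hC₀
    set c : ℝ := C₀ + (LF.totalDegree + DF.totalDegree) * 3 ^ (d * r) + 1 with hc
    have hc0 : (0:ℝ) ≤ C₀ := Nat.cast_nonneg _
    have hc1 : (0:ℝ) ≤ (LF.totalDegree + DF.totalDegree) * 3 ^ (d * r) := by positivity
    refine ⟨c, 1, one_pos, by rw [hc]; linarith, ?_⟩
    intro H hH S hS
    have hH1 : (1:ℝ) ≤ H := by exact_mod_cast hH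
    obtain ⟨Bx, hBx, hBxc, hBxn⟩ := box_facts ω H
    have hSub : ∀ S' ⊆ S, S' ⊆ Fintype.piFinset (fun _ : Fin (r + 1) => Bx) := by
      intro S' hS' a ha
      rw [Fintype.mem_piFinset]
      intro i
      rw [hBx]
      exact (hS a (hS' ha)).1 i
    set S0 := S.filter (fun a => MvPolynomial.eval (fun i => coordInt (K := K) ω (a i)) LF = 0) with hS0
    set S1 := S.filter (fun a => MvPolynomial.eval (fun i => coordInt (K := K) ω (a i)) DF = 0) with hS1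
    have hcov : S ⊆ S0 ∪ S1 := by
      intro a ha
      rw [Finset.mem_union, hS0, hS1, Finset.mem_filter, Finset.mem_filter]
      by_contra hcon
      push Not at hcon
      obtain ⟨ha1, ha2⟩ := hS a ha
      obtain ⟨hyp, hb⟩ := boundA g hg cr F hFd m hm hA (fun i => coordInt ω (a i)) (hcon.1 ha) (hcon.2 ha)
      apply ha2
      refine ⟨hyp, ?_⟩
      have hMC : (1:ℝ) ≤ (MC g (memb ω F a) : ℝ) := by
        exact_mod_cast MC_pos g _ hyp
      have hb' : (DeltaC g (memb ω F a) : ℝ) ≤ C₀ * (MC g (memb ω F a) : ℝ) ^ ((2 * g + 1) * (g + 3)) := by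
        exact_mod_cast hb
      refine hb'.trans ?_
      have h3 : (MC g (memb ω F a) : ℝ) ^ ((2 * g + 1) * (g + 3)) ≤ (MC g (memb ω F a) : ℝ) ^ κ := by
        rw [← Real.rpow_natCast]
        apply Real.rpow_le_rpow_of_exponent_le hMC
        push_cast
        exact hκ2
      have h4 : (C₀ : ℝ) ≤ c := by rw [hc]; linarith
      gcongr
    have hc2 := zero_count ω Bx hBxn r LF hFn S0 (hSub _ (Finset.filter_subset _ _))
      (fun a ha => (Finset.mem_filter.1 ha).2)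
    have hc3 := zero_count ω Bx hBxn r DF hR S1 (hSub _ (Finset.filter_subset _ _))
      (fun a ha => (Finset.mem_filter.1 ha).2)
    have hcard : (S.card : ℝ) ≤ (S0.card : ℝ) + S1.card := by
      exact_mod_cast (Finset.card_le_card hcov).trans (Finset.card_union_le _ _)
    rw [hBxc, ← hd, ← pow_mul] at hc2 hc3
    have h5 := arith_exp d H d r rfl hH1 1
    have h6 : (1:ℝ) ≤ (H:ℝ) ^ ((d:ℝ) - 1) := Real.one_le_rpow hH1 (by linarith)
    have h7 : (0:ℝ) ≤ (2 * H + 1) ^ (d * r) := by positivity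
    calc (S.card : ℝ) ≤ (S0.card : ℝ) + S1.card := hcard
      _ ≤ (LF.totalDegree + DF.totalDegree) * (1 * (2 * H + 1) ^ (d * r)) := by linarith
      _ ≤ (LF.totalDegree + DF.totalDegree) * ((H:ℝ) ^ ((d:ℝ) - 1) * (2 * H + 1) ^ (d * r)) := by gcongr
      _ ≤ (LF.totalDegree + DF.totalDegree) * (3 ^ (d * r) * (H:ℝ) ^ ((d:ℝ) * (r + 1) - 1)) := by gcongr
      _ = (LF.totalDegree + DF.totalDegree) * 3 ^ (d * r) * (H:ℝ) ^ ((d:ℝ) * (r + 1) - 1) := by ring
      _ ≤ c * (H:ℝ) ^ ((d:ℝ) * (r + 1) - 1) := by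
          have : ((LF.totalDegree : ℝ) + DF.totalDegree) * 3 ^ (d * r) ≤ c := by rw [hc]; linarith
          gcongr
  · -- the fibres
    set E := (Phi (𝓞 K) r i).symm (C E₀) with hE
    set Lc := (Phi (𝓞 K) r i).symm (C (Phi (𝓞 K) r i P).leadingCoeff) with hLc
    have hE0 : E ≠ 0 := by
      rw [hE, Ne, EmbeddingLike.map_eq_zero_iff, C_eq_zero]; exact hE₀
    have hP0 : P ≠ 0 := by rintro rfl; simp at hdeg
    have hLc0 : Lc ≠ 0 := by
      rw [hLc, Ne, EmbeddingLike.map_eq_zero_iff, C_eq_zero, leadingCoeff_eq_zero,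
        EmbeddingLike.map_eq_zero_iff]
      exact hP0
    -- exponents
    set θ₀ : ℝ := (4 * g + 2) * e * d / κ with hθ₀
    have hθd : θ₀ < d := by
      rw [hθ₀, div_lt_iff₀ hκ0]
      nlinarith
    have hθ0 : 0 ≤ θ₀ := by positivity
    obtain ⟨CD, hCD1, hCD⟩ := spec_disc_size (K := K) g F hFd e he
    set W := famW (K := K) ω with hW
    have hW1 : 1 ≤ W := one_le_famW _
    -- the choice of ε depends on e₁, which does not depend on ε
    set e₁ := P.totalDegree + E.totalDegree with he₁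
    set δ : ℝ := (d - θ₀) / 2 with hδ
    have hδ0 : 0 < δ := by rw [hδ]; linarith
    set ε : ℝ := δ / (θ₀ + e₁ + 1) with hε
    have hε0 : 0 < ε := by positivity
    obtain ⟨c₀, q₁, e₁', hc₀, hq₁, he₁', hfib⟩ : ∃ (c q₁ : ℝ) (e₁' : ℕ), 0 < c ∧ 1 ≤ q₁ ∧ e₁' = e₁ ∧ ∀ (H : ℕ), 1 ≤ H → ∀ M : ℕ, 1 ≤ M →
      ∀ (a : Fin (r + 1) → ι → ℤ), (∀ i j, |a i j| ≤ (H : ℤ)) → ∀ T₀ : Finset (ι → ℤ),
      (∀ t ∈ T₀, (∀ j, |t j| ≤ (H : ℤ)) ∧
        MvPolynomial.eval (fun j => coordInt ω (Function.update a i t j)) (F.coeff (2 * g + 1 + 1)) ≠ 0 ∧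
        MvPolynomial.eval (fun j => coordInt ω (Function.update a i t j)) (RR (2 * g + 2) F) ≠ 0 ∧
        MvPolynomial.eval (fun j => coordInt ω (Function.update a i t j)) P ≠ 0 ∧
        MvPolynomial.eval (fun j => coordInt ω (Function.update a i t j))
          ((Phi (𝓞 K) r i).symm (C E₀)) ≠ 0 ∧
        MvPolynomial.eval (fun j => coordInt ω (Function.update a i t j))
          ((Phi (𝓞 K) r i).symm (C (Phi (𝓞 K) r i P).leadingCoeff)) ≠ 0 ∧
        MC g ((spec F (fun j => coordInt ω (Function.update a i t j))).map (algebraMap (𝓞 K) K)) ≤ M) →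
      (T₀.card : ℝ) ≤ c * (M : ℝ) ^ (1 + ε) * (q₁ * (H : ℝ) ^ e₁') ^ ε := by
      obtain ⟨c, q₁, e₁', h3, h4, h5, h6⟩ := fibreB' ω g hg cr F hFd k i P R S₁ U V E₀ h1 h2 hdeg ε hε0
      exact ⟨c, q₁, e₁', h3, h4, h5, h6⟩
    subst he₁'
    set R₀ : ℝ := ((2 ^ (4 * g) * (CD * (W ^ e) ^ (4 * g + 2))) ^ d) ^ (1 / κ) with hR₀
    have hR₀pos : 0 ≤ R₀ := by positivity
    set degs : ℝ := LF.totalDegree + DF.totalDegree + P.totalDegree + E.totalDegree + Lc.totalDegree with hdegs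
    have hdegs0 : 0 ≤ degs := by positivity
    set c₁ : ℝ := c₀ * R₀ ^ (1 + ε) * q₁ ^ ε with hc₁
    have hc₁0 : 0 ≤ c₁ := by positivity
    set c : ℝ := (degs + c₁) * 3 ^ (d * r) + 1 with hc
    have hc1 : 1 ≤ c := by
      rw [hc]
      have : 0 ≤ (degs + c₁) * 3 ^ (d * r) := by positivity
      linarith
    refine ⟨c, δ, hδ0, hc1, ?_⟩
    intro H hH S hS
    have hH1 : (1:ℝ) ≤ H := by exact_mod_cast hH
    have hH0 : (0:ℝ) < H := by linarith
    obtain ⟨Bx, hBx, hBxc, hBxn⟩ := box_facts ω H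
    have hSub : ∀ S' ⊆ S, S' ⊆ Fintype.piFinset (fun _ : Fin (r + 1) => Bx) := by
      intro S' hS' a ha
      rw [Fintype.mem_piFinset]
      intro i
      rw [hBx]
      exact (hS a (hS' ha)).1 i
    have hB1 : (1:ℝ) ≤ H * W := by nlinarith
    set QD : ℝ := CD * ((H * W) ^ e) ^ (4 * g + 2) with hQD
    have hQD1 : 1 ≤ QD := by
      have h3 : (1:ℝ) ≤ ((H * W) ^ e) ^ (4 * g + 2) := one_le_pow₀ (one_le_pow₀ hB1)
      nlinarith
    set Rr : ℝ := ((2 ^ (4 * g) * QD) ^ d) ^ (1 / κ) with hRr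
    have hD1 : (1:ℝ) ≤ (2 ^ (4 * g) * QD) ^ d := by
      apply one_le_pow₀
      have : (1:ℝ) ≤ 2 ^ (4 * g) := one_le_pow₀ (by norm_num)
      nlinarith
    have hRr1 : 1 ≤ Rr := Real.one_le_rpow hD1 (by positivity)
    set M : ℕ := ⌊Rr⌋₊ with hM
    have hM1 : 1 ≤ M := Nat.le_floor (by exact_mod_cast hRr1)
    have hMR : (M : ℝ) ≤ Rr := Nat.floor_le (by linarith)
    set ev : MvPolynomial (Fin (r + 1)) (𝓞 K) → (Fin (r + 1) → ι → ℤ) → 𝓞 K := fun G a =>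
      MvPolynomial.eval (fun j => coordInt (K := K) ω (a j)) G with hev
    set S0 := S.filter (fun a => ev LF a = 0) with hS0
    set S1 := S.filter (fun a => ev DF a = 0) with hS1
    set S2 := S.filter (fun a => ev P a = 0) with hS2
    set S3 := S.filter (fun a => ev E a = 0) with hS3
    set S4 := S.filter (fun a => ev Lc a = 0) with hS4
    set S5 := S.filter (fun a => ev LF a ≠ 0 ∧ ev DF a ≠ 0 ∧ ev P a ≠ 0 ∧ ev E a ≠ 0 ∧ ev Lc a ≠ 0 ∧
      MC g (memb ω F a) ≤ M) with hS5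
    have hcov : S ⊆ S0 ∪ (S1 ∪ (S2 ∪ (S3 ∪ (S4 ∪ S5)))) := by
      intro a ha
      simp only [Finset.mem_union, hS0, hS1, hS2, hS3, hS4, hS5, Finset.mem_filter, ha, true_and]
      by_cases h3 : ev LF a = 0
      · exact Or.inl h3
      by_cases h4 : ev DF a = 0
      · exact Or.inr (Or.inl h4)
      by_cases h5 : ev P a = 0
      · exact Or.inr (Or.inr (Or.inl h5))
      by_cases h6 : ev E a = 0
      · exact Or.inr (Or.inr (Or.inr (Or.inl h6)))
      by_cases h7 : ev Lc a = 0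
      · exact Or.inr (Or.inr (Or.inr (Or.inr (Or.inl h7))))
      right; right; right; right; right
      refine ⟨h3, h4, h5, h6, h7, ?_⟩
      obtain ⟨ha1, ha2⟩ := hS a ha
      obtain ⟨hyp, _⟩ := spec_hyper g F hFd (fun j => coordInt ω (a j)) h3 h4
      have hnot : ¬ ((DeltaC g (memb ω F a) : ℝ) ≤ c * (MC g (memb ω F a) : ℝ) ^ κ) := fun h => ha2 ⟨hyp, h⟩
      rw [not_le] at hnot
      have hpl : ∀ j, ∀ w : InfinitePlace K, w ((coordInt ω (a j) : 𝓞 K) : K) ≤ H * W := fun j w =>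
        coordInt_place (K := K) ω (a j) H (ha1 j) w
      have hRR0 : RR (2 * g + 2) (spec F (fun j => coordInt ω (a j))) ≠ 0 := by
        rw [spec_RR]; exact h4
      have hΔ := DeltaC_place_le g hg (spec F (fun j => coordInt ω (a j))) hyp hRR0 QD
        (fun w => hCD (H * W) hB1 _ hpl w)
      have hMC0 : (0:ℝ) ≤ (MC g (memb ω F a) : ℝ) ^ κ := by positivity
      have h8 : (MC g (memb ω F a) : ℝ) ^ κ ≤ (2 ^ (4 * g) * QD) ^ d := by
        calc (MC g (memb ω F a) : ℝ) ^ κ = 1 * (MC g (memb ω F a) : ℝ) ^ κ := (one_mul _).symm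
          _ ≤ c * (MC g (memb ω F a) : ℝ) ^ κ := by gcongr
          _ ≤ _ := hnot.le
          _ ≤ _ := hΔ
      apply Nat.le_floor
      calc (MC g (memb ω F a) : ℝ)
          = ((MC g (memb ω F a) : ℝ) ^ κ) ^ (1 / κ) := by
            rw [← Real.rpow_mul (Nat.cast_nonneg _), mul_one_div_cancel hκ0.ne', Real.rpow_one]
        _ ≤ Rr := Real.rpow_le_rpow (by positivity) h8 (by positivity)
    have z0 := zero_count ω Bx hBxn r LF hFn S0 (hSub _ (Finset.filter_subset _ _))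
      (fun a ha => (Finset.mem_filter.1 ha).2)
    have z1 := zero_count ω Bx hBxn r DF hR S1 (hSub _ (Finset.filter_subset _ _))
      (fun a ha => (Finset.mem_filter.1 ha).2)
    have z2 := zero_count ω Bx hBxn r P hP0 S2 (hSub _ (Finset.filter_subset _ _))
      (fun a ha => (Finset.mem_filter.1 ha).2)
    have z3 := zero_count ω Bx hBxn r E hE0 S3 (hSub _ (Finset.filter_subset _ _))
      (fun a ha => (Finset.mem_filter.1 ha).2)
    have z4 := zero_count ω Bx hBxn r Lc hLc0 S4 (hSub _ (Finset.filter_subset _ _))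
      (fun a ha => (Finset.mem_filter.1 ha).2)
    have z5 : (S5.card : ℝ) ≤ (c₀ * (M : ℝ) ^ (1 + ε) * (q₁ * (H : ℝ) ^ e₁) ^ ε) *
        (Bx.card : ℝ) ^ (r + 1 - 1) := by
      apply coord_count Bx i S5 (hSub _ (Finset.filter_subset _ _)) _ (by positivity)
      intro a ha
      apply hfib H hH M hM1 a (fun j => by
        rw [← hBx]; exact (Fintype.mem_piFinset.1 ha) j)
      intro t ht
      rw [Finset.mem_filter] at ht
      obtain ⟨ht1, ht2⟩ := ht
      rw [hS5, Finset.mem_filter] at ht2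
      obtain ⟨_, h3, h4, h5, h6, h7, h8⟩ := ht2
      exact ⟨(hBx t).1 ht1, h3, h4, h5, h6, h7, h8⟩
    rw [Nat.add_sub_cancel] at z5
    have hsz : c₀ * (M : ℝ) ^ (1 + ε) * (q₁ * (H : ℝ) ^ e₁) ^ ε ≤ c₁ * (H:ℝ) ^ ((d:ℝ) - δ) := by
      have e1 : (M : ℝ) ^ (1 + ε) ≤ Rr ^ (1 + ε) :=
        Real.rpow_le_rpow (Nat.cast_nonneg _) hMR (by positivity)
      have e2 : Rr = R₀ * (H : ℝ) ^ θ₀ := by
        rw [hRr, hR₀, hQD]
        rw [show (2 ^ (4 * g) * (CD * (((H:ℝ) * W) ^ e) ^ (4 * g + 2))) =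
          (2 ^ (4 * g) * (CD * (W ^ e) ^ (4 * g + 2))) * ((H:ℝ) ^ e) ^ (4 * g + 2) by
            rw [mul_pow, mul_pow]; ring,
          mul_pow, Real.mul_rpow (by positivity) (by positivity)]
        congr 1
        rw [← pow_mul, ← pow_mul, ← Real.rpow_natCast, ← Real.rpow_mul hH0.le]
        congr 1
        rw [hθ₀]
        push_cast
        field_simp
      have e3 : (q₁ * (H : ℝ) ^ e₁) ^ ε = q₁ ^ ε * (H : ℝ) ^ ((e₁ : ℝ) * ε) := by
        rw [Real.mul_rpow (by linarith) (by positivity), ← Real.rpow_natCast, ← Real.rpow_mul hH0.le]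
      have e4 : Rr ^ (1 + ε) = R₀ ^ (1 + ε) * (H : ℝ) ^ (θ₀ * (1 + ε)) := by
        rw [e2, Real.mul_rpow (by positivity) (by positivity), ← Real.rpow_mul hH0.le]
      have e5 : θ₀ * (1 + ε) + e₁ * ε ≤ d - δ := by
        have h9 : ε * (θ₀ + e₁) ≤ δ := by
          rw [hε, div_mul_eq_mul_div, div_le_iff₀ (by positivity)]
          nlinarith
        have h10 : θ₀ + 2 * δ = d := by rw [hδ]; ring
        nlinarith
      calc c₀ * (M : ℝ) ^ (1 + ε) * (q₁ * (H : ℝ) ^ e₁) ^ ε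
          ≤ c₀ * Rr ^ (1 + ε) * (q₁ * (H : ℝ) ^ e₁) ^ ε := by gcongr
        _ = c₁ * ((H : ℝ) ^ (θ₀ * (1 + ε)) * (H : ℝ) ^ ((e₁ : ℝ) * ε)) := by
            rw [e3, e4, hc₁]; ring
        _ = c₁ * (H : ℝ) ^ (θ₀ * (1 + ε) + e₁ * ε) := by rw [← Real.rpow_add hH0]
        _ ≤ c₁ * (H : ℝ) ^ ((d:ℝ) - δ) := by
            gcongr
    have hcard : (S.card : ℝ) ≤ S0.card + (S1.card + (S2.card + (S3.card + (S4.card + S5.card)))) := by
      have h3 : S.card ≤ S0.card + (S1.card + (S2.card + (S3.card + (S4.card + S5.card)))) := by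
        refine (Finset.card_le_card hcov).trans ?_
        refine (Finset.card_union_le _ _).trans (Nat.add_le_add_left ?_ _)
        refine (Finset.card_union_le _ _).trans (Nat.add_le_add_left ?_ _)
        refine (Finset.card_union_le _ _).trans (Nat.add_le_add_left ?_ _)
        refine (Finset.card_union_le _ _).trans (Nat.add_le_add_left ?_ _)
        exact Finset.card_union_le _ _
      exact_mod_cast h3
    have h6 : (1:ℝ) ≤ (H:ℝ) ^ ((d:ℝ) - δ) := Real.one_le_rpow hH1 (by rw [hδ]; linarith)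
    have hB : (0:ℝ) ≤ (Bx.card : ℝ) ^ r := by positivity
    have hBr : (Bx.card : ℝ) ^ r = (2 * H + 1) ^ (d * r) := by rw [hBxc, ← pow_mul]
    have h5 := arith_exp d H d r rfl hH1 δ
    have z5' : (S5.card : ℝ) ≤ (c₁ * (H:ℝ) ^ ((d:ℝ) - δ)) * (Bx.card : ℝ) ^ r :=
      z5.trans (mul_le_mul_of_nonneg_right hsz hB)
    calc (S.card : ℝ) ≤ S0.card + (S1.card + (S2.card + (S3.card + (S4.card + S5.card)))) := hcard
      _ ≤ degs * (1 * (Bx.card : ℝ) ^ r) + (c₁ * (H:ℝ) ^ ((d:ℝ) - δ)) * (Bx.card : ℝ) ^ r := by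
          rw [hdegs]; linarith
      _ ≤ degs * ((H:ℝ) ^ ((d:ℝ) - δ) * (Bx.card : ℝ) ^ r) + (c₁ * (H:ℝ) ^ ((d:ℝ) - δ)) * (Bx.card : ℝ) ^ r := by
          gcongr
      _ = (degs + c₁) * ((H:ℝ) ^ ((d:ℝ) - δ) * (2 * H + 1) ^ (d * r)) := by rw [hBr]; ring
      _ ≤ (degs + c₁) * (3 ^ (d * r) * (H:ℝ) ^ ((d:ℝ) * (r + 1) - δ)) := by gcongr
      _ = (degs + c₁) * 3 ^ (d * r) * (H:ℝ) ^ ((d:ℝ) * (r + 1) - δ) := by ring
      _ ≤ c * (H:ℝ) ^ ((d:ℝ) * (r + 1) - δ) := by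
          have : (degs + c₁) * 3 ^ (d * r) ≤ c := by rw [hc]; linarith
          gcongr

end

end Pool.Agent.Lib.MP_ca2859_nt
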