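import Mathlib

/-!
# Members of a polynomial family
-/

open Polynomial NumberField

namespace Pool.Agent.Lib.MP_ca2859_nt

/-- The member, at an integral point `t`, of the family `y ^ 2 = F(x)` whose coefficients are
polynomials over `𝓞 K` in `r` variables: the coefficients are evaluated at `t`. -/
noncomputable def member {K : Type} [Field K] [NumberField K] {r : ℕ}
    (F : (MvPolynomial (Fin r) (𝓞 K))[X]) (t : Fin r → 𝓞 K) : K[X] :=
  F.map ((algebraMap (𝓞 K) K).comp (MvPolynomial.eval t))

end Pool.Agent.Lib.MP_ca2859_nt
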