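import Mathlib
import Pool.Agent.Lib.MP_ca2859_nt.FamD
import Pool.Agent.Lib.MP_ca2859_nt.Mobius
import Pool.Agent.Lib.MP_ca2859_nt.Member

/-!
# Families: general statement
-/

open NumberField Polynomial IsDedekindDomain WithZero

set_option linter.unusedSectionVars false

namespace Pool.Agent.Lib.MP_ca2859_nt

section
variable {K : Type} [Field K] [NumberField K] {ι : Type} [Fintype ι]

/-- transform of a family -/
noncomputable def flipF {r : ℕ} (g : ℕ) (F : (MvPolynomial (Fin r) (𝓞 K))[X]) (a : ℕ) :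
    (MvPolynomial (Fin r) (𝓞 K))[X] :=
  reflect (2 * g + 2) (taylor (a : MvPolynomial (Fin r) (𝓞 K)) F)

theorem exists_good_nat {R : Type*} [CommRing R] [IsDomain R] [CharZero R] (F : R[X]) (hF : F ≠ 0) :
    ∃ a : ℕ, F.eval (a : R) ≠ 0 := by
  by_contra hcon
  push Not at hcon
  apply hF
  apply eq_zero_of_infinite_isRoot
  refine (Set.infinite_range_of_injective (Nat.cast_injective (R := R))).mono ?_
  rintro _ ⟨a, rfl⟩
  exact hcon a

theorem flipF_spec {r : ℕ} (g : ℕ) (F : (MvPolynomial (Fin r) (𝓞 K))[X]) (a : ℕ) (t : Fin r → 𝓞 K) :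
    (spec (flipF g F a) t).map (algebraMap (𝓞 K) K) =
      flip g (a : K) ((spec F t).map (algebraMap (𝓞 K) K)) := by
  rw [spec, flipF, spec, flip, Polynomial.map_map, Polynomial.map_map]
  set φ := (algebraMap (𝓞 K) K).comp (MvPolynomial.eval t) with hφ
  ext i
  rw [coeff_map, coeff_reflect, coeff_reflect, ← coeff_map, taylor_apply, taylor_apply,
    Polynomial.map_comp]
  simp

theorem totalDegree_flipF {r : ℕ} (g : ℕ) (F : (MvPolynomial (Fin r) (𝓞 K))[X]) (a : ℕ) (e : ℕ)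
    (he : ∀ i, (F.coeff i).totalDegree ≤ e) (i : ℕ) : ((flipF g F a).coeff i).totalDegree ≤ e := by
  rw [flipF, coeff_reflect, taylor_coeff, eval_eq_sum_range]
  apply (MvPolynomial.totalDegree_finsetSum _ _).trans
  apply Finset.sup_le
  intro j _
  rw [hasseDeriv_coeff]
  have h1 : ∀ k : ℕ, ((k : ℕ) : MvPolynomial (Fin r) (𝓞 K)).totalDegree = 0 := by
    intro k
    rw [← MvPolynomial.C_eq_coe_nat, MvPolynomial.totalDegree_C]
  refine (MvPolynomial.totalDegree_mul _ _).trans ?_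
  have h2 : (((a : MvPolynomial (Fin r) (𝓞 K)) ^ j)).totalDegree = 0 := by
    rw [← Nat.cast_pow]; exact h1 _
  rw [h2, add_zero]
  refine (MvPolynomial.totalDegree_mul _ _).trans ?_
  rw [h1, zero_add]
  exact he _

theorem family_all (ω : Module.Basis ι ℤ (𝓞 K)) {r : ℕ} (g : ℕ) (hg : 1 ≤ g)
    (F : (MvPolynomial (Fin (r + 1)) (𝓞 K))[X])
    (hF : IsHyperelliptic g (F.map (algebraMap (MvPolynomial (Fin (r + 1)) (𝓞 K))
      (FractionRing (MvPolynomial (Fin (r + 1)) (𝓞 K))))))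
    (e : ℕ) (he : ∀ i, (F.coeff i).totalDegree ≤ e) (κ : ℝ) (hκ1 : (4 * g + 2) * e < κ)
    (hκ2 : (2 * g + 1) * (g + 3) ≤ κ) :
    ∃ c δ : ℝ, 0 < δ ∧ 1 ≤ c ∧ ∀ H : ℕ, 1 ≤ H → ∀ S : Finset (Fin (r + 1) → ι → ℤ),
      (∀ a ∈ S, (∀ i j, |a i j| ≤ (H : ℤ)) ∧ ¬ (IsHyperelliptic g (memb ω F a) ∧
        (DeltaC g (memb ω F a) : ℝ) ≤ c * (MC g (memb ω F a) : ℝ) ^ κ)) →
      (S.card : ℝ) ≤ c * (H : ℝ) ^ (Module.finrank ℚ K * ((r : ℝ) + 1) - δ) := by
  set A := MvPolynomial (Fin (r + 1)) (𝓞 K) with hA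
  set Fr := FractionRing A with hFr
  have hinj : Function.Injective (algebraMap A Fr) := IsFractionRing.injective A Fr
  have hchar : CharZero Fr := charZero_of_injective_algebraMap hinj
  have hFd : F.natDegree ≤ 2 * g + 2 := by
    have h1 := hF.2
    rw [natDegree_map_eq_of_injective hinj] at h1
    omega
  have hRR : RR (2 * g + 2) (F.map (algebraMap A Fr)) ≠ 0 := RR_ne_zero_of_hyper g hg _ hF
  have hF0 : F ≠ 0 := by
    rintro rfl
    have := hF.2
    simp at this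
  obtain ⟨a₀, ha₀⟩ := exists_good_nat F hF0
  set F' := flipF g F a₀ with hF'
  have hF'd : F'.natDegree ≤ 2 * g + 2 := by
    rw [natDegree_le_iff_coeff_eq_zero]
    intro k hk
    rw [hF', flipF, coeff_reflect, revAt_eq_self_of_lt hk, coeff_eq_zero_of_natDegree_lt]
    rw [natDegree_taylor]; omega
  have hF'n : F'.coeff (2 * g + 1 + 1) ≠ 0 := by
    rw [hF', flipF, coeff_reflect, revAt_le (by omega), show 2 * g + 2 - (2 * g + 1 + 1) = 0 by omega,
      taylor_coeff_zero]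
    exact ha₀
  have hRR' : RR (2 * g + 2) F' ≠ 0 := by
    intro h0
    have h1 : RR (2 * g + 2) (F'.map (algebraMap A Fr)) = 0 := by rw [RR_map, h0, map_zero]
    have h2 : F'.map (algebraMap A Fr) = reflect (2 * g + 2) (taylor (a₀ : Fr) (F.map (algebraMap A Fr))) := by
      rw [hF', flipF]
      ext i
      rw [coeff_map, coeff_reflect, coeff_reflect, ← coeff_map, taylor_apply, taylor_apply,
        Polynomial.map_comp, Polynomial.map_add, map_X, map_C, map_natCast (algebraMap A Fr)]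
    have hd : (F.map (algebraMap A Fr)).natDegree ≤ 2 * g + 2 := natDegree_map_le.trans hFd
    obtain ⟨ε, hε⟩ := RR_reflect (2 * g + 2) (by omega) (taylor (a₀ : Fr) (F.map (algebraMap A Fr)))
      (by rw [natDegree_taylor]; exact hd)
    rw [h2, hε, RR_taylor _ (by omega) _ _ hd] at h1
    exact mul_ne_zero (unit_ne_zero ε) hRR h1
  obtain ⟨c, δ, hδ, hc, hmain⟩ := family_main ω g hg F' hF'd hF'n hRR' e
    (totalDegree_flipF g F a₀ e he) κ hκ1 hκ2
  refine ⟨c, δ, hδ, hc, ?_⟩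
  intro H hH S hS
  apply hmain H hH S
  intro a ha
  obtain ⟨h1, h2⟩ := hS a ha
  refine ⟨h1, ?_⟩
  rintro ⟨h3, h4⟩
  apply h2
  have hd : (memb ω F a).natDegree ≤ 2 * g + 2 := natDegree_map_le.trans (natDegree_map_le.trans hFd)
  have hm : memb ω F' a = flip g (a₀ : K) (memb ω F a) := flipF_spec g F a₀ _
  rw [hm] at h3 h4
  rw [DeltaC_flip g _ _ hd, MC_flip g _ _ hd] at h4
  refine ⟨?_, h4⟩
  apply hyper_of_RR_all g hg _ hd
  intro h0
  have h5 := RR_ne_zero_of_hyper g hg _ h3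
  obtain ⟨ε, hε⟩ := RR_reflect (2 * g + 2) (by omega) (taylor (a₀ : K) (memb ω F a))
      (by rw [natDegree_taylor]; exact hd)
  rw [flip, hε, RR_taylor _ (by omega) _ _ hd, h0, mul_zero] at h5
  exact h5 rfl

theorem family_final (ω : Module.Basis ι ℤ (𝓞 K)) (r : ℕ) (hr : 0 < r) (g : ℕ) (hg : 1 ≤ g)
    (F : (MvPolynomial (Fin r) (𝓞 K))[X])
    (hF : IsHyperelliptic g (F.map (algebraMap (MvPolynomial (Fin r) (𝓞 K))
      (FractionRing (MvPolynomial (Fin r) (𝓞 K))))))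
    (e : ℕ) (he : ∀ i, (F.coeff i).totalDegree ≤ e) (κ : ℝ) (hκ1 : (4 * g + 2) * e < κ)
    (hκ2 : (2 * g + 1) * (g + 3) ≤ κ) :
    ∃ c δ : ℝ, 0 < δ ∧ ∀ H : ℕ, 1 ≤ H →
      ((({t : Fin r → 𝓞 K | (∀ i j, |ω.repr (t i) j| ≤ (H : ℤ)) ∧
        ¬ (IsHyperelliptic g (member F t) ∧
          (DeltaC g (member F t) : ℝ) ≤ c * (MC g (member F t) : ℝ) ^ κ)}).ncard : ℕ) : ℝ) ≤
      c * (H : ℝ) ^ (Module.finrank ℚ K * (r : ℝ) - δ) := by
  classical
  obtain ⟨r', rfl⟩ : ∃ r', r = r' + 1 := ⟨r - 1, by omega⟩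
  obtain ⟨c, δ, hδ, hc, hmain⟩ := family_all ω g hg F hF e he κ hκ1 hκ2
  refine ⟨c, δ, hδ, ?_⟩
  intro H hH
  obtain ⟨Bx, hBx, -, -⟩ := box_facts ω H
  have hmem : ∀ a : Fin (r' + 1) → ι → ℤ, memb ω F a = member F (fun i => coordInt ω (a i)) := by
    intro a
    rw [memb, spec, Polynomial.map_map, member]
  set S := (Fintype.piFinset (fun _ : Fin (r' + 1) => Bx)).filter (fun a =>
    ¬ (IsHyperelliptic g (memb ω F a) ∧
        (DeltaC g (memb ω F a) : ℝ) ≤ c * (MC g (memb ω F a) : ℝ) ^ κ)) with hS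
  set Ψ : (Fin (r' + 1) → ι → ℤ) → (Fin (r' + 1) → 𝓞 K) := fun a i => coordInt ω (a i) with hΨ
  have hΨinj : Function.Injective Ψ := by
    intro a b hab
    funext i
    exact coordInt_inj ω (congrFun hab i)
  have hrepr : ∀ a : ι → ℤ, ∀ j, ω.repr (coordInt ω a) j = a j := by
    intro a j
    rw [coordInt, ω.repr_sum_self]
  have hcoord : ∀ x : 𝓞 K, coordInt ω (fun j => ω.repr x j) = x := by
    intro x
    rw [coordInt, ω.sum_repr]
  have hset : {t : Fin (r' + 1) → 𝓞 K | (∀ i j, |ω.repr (t i) j| ≤ (H : ℤ)) ∧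
        ¬ (IsHyperelliptic g (member F t) ∧
          (DeltaC g (member F t) : ℝ) ≤ c * (MC g (member F t) : ℝ) ^ κ)} = Ψ '' (S : Set _) := by
    ext t
    constructor
    · rintro ⟨h1, h2⟩
      refine ⟨fun i j => ω.repr (t i) j, ?_, ?_⟩
      · rw [Finset.mem_coe, hS, Finset.mem_filter, Fintype.mem_piFinset]
        refine ⟨fun i => (hBx _).2 (h1 i), ?_⟩
        rw [hmem]
        simp only [hcoord]
        exact h2
      · funext i
        exact hcoord (t i)
    · rintro ⟨a, ha, rfl⟩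
      rw [Finset.mem_coe, hS, Finset.mem_filter, Fintype.mem_piFinset] at ha
      refine ⟨?_, ?_⟩
      · intro i j
        simp only [hΨ, hrepr]
        exact (hBx _).1 (ha.1 i) j
      · have := ha.2
        rw [hmem] at this
        exact this
  rw [hset, Set.ncard_image_of_injective _ hΨinj, Set.ncard_coe_finset]
  have h1 := hmain H hH S (by
    intro a ha
    rw [hS, Finset.mem_filter, Fintype.mem_piFinset] at ha
    exact ⟨fun i => (hBx _).1 (ha.1 i), ha.2⟩)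
  push_cast
  exact h1

end

end Pool.Agent.Lib.MP_ca2859_nt
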