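import Mathlib
import Pool.Agent.Lib.MP_ca2859_nt.Final

/-!
# The discriminant bound holds for 100% of the hyperelliptic curves over a number field

The definitions (in `Pool.Agent.Lib.MP_ca2859_nt.Defs`) are those of the problem file, for
`g ≥ 2`: a hyperelliptic curve of genus `g` over `K` is given by an equation `y² = f(x)`; `n_v` is
the least valuation of the discriminants of its Weierstrass models over the local ring at `v`;
`Δ_C = ∏ N_v ^ n_v`; `M_C` is the product of the `N_v` over the places of bad reduction.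

`coordPoly ω a` is the polynomial over `𝓞 K` whose coefficient of degree `i` is `∑ j, a i j • ω j`,
and `curvePoly ω a` is the same polynomial over `K`.
-/

open Polynomial IsDedekindDomain NumberField
open Pool.Agent.Lib.MP_ca2859_nt

namespace Pool.Agent.Lib.MP_ca2859_nt.OldDensityOne

/-- Let `K` be a number field of degree `d`, with an integral basis `ω`, let `g ≥ 2`,
`κ > 4 g + 2` and `δ < d (1 - (4 g + 2) / κ)`. Among the `(2 H + 1) ^ (d (2 g + 3))` polynomials
`f` of degree at most `2 g + 2` whose coefficients are algebraic integers with coordinates of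
absolute value at most `H`, all but `O(H ^ (-δ) (2 H + 1) ^ (d (2 g + 3)))` define a hyperelliptic
curve `C : y² = f(x)` of genus `g` with `Δ_C ≤ M_C ^ κ`. -/
theorem old_result (K : Type) [Field K] [NumberField K] {ι : Type} [Fintype ι]
    (ω : Module.Basis ι ℤ (𝓞 K)) (g : ℕ) (hg : 2 ≤ g) (κ δ : ℝ) (hκ : 4 * g + 2 < κ)
    (hδ : δ < Module.finrank ℚ K * (1 - (4 * g + 2) / κ)) :
    ∃ c : ℝ, ∀ H : ℕ, 1 ≤ H →
      (({a : Fin (2 * g + 3) → ι → ℤ | (∀ i j, |a i j| ≤ (H : ℤ)) ∧
        ¬ (IsHyperelliptic g (curvePoly ω a) ∧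
          (DeltaC g (curvePoly ω a) : ℝ) ≤ (MC g (curvePoly ω a) : ℝ) ^ κ)}.ncard : ℕ) : ℝ) ≤
      c * (H : ℝ) ^ (-δ) * (2 * H + 1) ^ (Module.finrank ℚ K * (2 * g + 3)) :=
  density_one K ω g (by omega) κ δ hκ hδ

end Pool.Agent.Lib.MP_ca2859_nt.OldDensityOne
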