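import Mathlib
import Pool.Agent.Lib.MP_ca2859_nt.FinalD

/-!
# The exceptional set of the discriminant bound, for all curves ordered by minimal discriminant

The definitions (in `Pool.Agent.Lib.MP_ca2859_nt.Defs`) are those of the problem file, for
`g ≥ 2`: a hyperelliptic curve of genus `g` over `K` is given by an equation `y² = f(x)`, two
equations give isomorphic curves when they satisfy `SameCurve`; `n_v` is the least valuation of the
discriminants of the Weierstrass models over the local ring at `v`; `Δ_C = ∏ N_v ^ n_v`; `M_C` is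
the product of the `N_v` over the places of bad reduction.
-/

open Polynomial IsDedekindDomain NumberField
open Pool.Agent.Lib.MP_ca2859_nt

namespace Pool.Agent.Lib.MP_ca2859_nt.OldExceptionalSet

/-- Let `K` be a number field and `g ≥ 2`. There are constants `A, δ, c > 0` and `X₀`, depending only
on `K` and `g`, such that for every `X ≥ X₀` the hyperelliptic curves of genus `g` over `K` with
`Δ_C ≤ X` form finitely many isomorphism classes (`T` is a set of representatives), at least `X ^ δ`
of them, and for every `κ > 0` at most `c X ^ (A / κ)` of them violate `Δ_C ≤ M_C ^ κ`. -/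
theorem old_result (K : Type) [Field K] [NumberField K] (g : ℕ) (hg : 2 ≤ g) :
    ∃ A δ c X₀ : ℝ, 0 < A ∧ 0 < δ ∧ 0 < c ∧ ∀ X : ℝ, X₀ ≤ X → ∃ T : Finset K[X],
      (∀ f ∈ T, IsHyperelliptic g f ∧ (DeltaC g f : ℝ) ≤ X) ∧
      (∀ f : K[X], IsHyperelliptic g f → (DeltaC g f : ℝ) ≤ X → ∃! h, h ∈ T ∧ SameCurve g f h) ∧
      X ^ δ ≤ (T.card : ℝ) ∧
      ∀ κ : ℝ, 0 < κ → ∀ E ⊆ T, (∀ f ∈ E, (MC g f : ℝ) ^ κ < (DeltaC g f : ℝ)) →
        (E.card : ℝ) ≤ c * X ^ (A / κ) :=
  exceptional_set K g (by omega)

end Pool.Agent.Lib.MP_ca2859_nt.OldExceptionalSet
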