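import Mathlib
import Pool.Agent.Lib.MP_ca2859_nt.GR.Defs
import Pool.Agent.Lib.MP_ca2859_nt.GR.GB.GB17

/-!
# Over a fixed number field, every genus `g ≥ 3` contains genus one

The definitions are those of the problem file: `Pool.Agent.Lib.MP_ca2859_nt.Defs` (hyperelliptic
curves of genus `g`, Weierstrass models, `Δ_C`, `M_C`) and `Pool.Agent.Lib.MP_ca2859_nt.GR.Defs`
(minimal discriminant `Δ_E` and bad primes `M_E` of an elliptic curve over a number field).
-/

open Polynomial
open Pool.Agent.Lib.MP_ca2859_nt Pool.Agent.Lib.MP_ca2859_nt.GR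

namespace Pool.Agent.Lib.MP_ca2859_nt.OldGenusDescent

/-- For every `g ≥ 3` there is a constant `A` such that for every number field `K` and every
elliptic curve `E` over `K` there is a hyperelliptic curve `C : y² = f(x)` of genus `g` over the
same field `K` with `M_C ≤ A ^ [K:ℚ] M_E` and `Δ_E ≤ A ^ [K:ℚ] M_E ^ 20 Δ_C ^ 4`. -/
theorem old_result (g : ℕ) (hg : 3 ≤ g) : ∃ A : ℕ, ∀ (K : Type) [Field K] [NumberField K]
    (W : WeierstrassCurve K), W.Δ ≠ 0 → ∃ f : K[X], IsHyperelliptic g f ∧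
      MC g f ≤ A ^ Module.finrank ℚ K * ME W ∧
      DeltaE W ≤ A ^ Module.finrank ℚ K * ME W ^ 20 * DeltaC g f ^ 4 :=
  GB.main_GB g hg

end Pool.Agent.Lib.MP_ca2859_nt.OldGenusDescent
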