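import Mathlib
import Pool.Agent.Lib.MP_ca2859_nt.FamE

/-!
# The discriminant bound in polynomial families of hyperelliptic curves

The definitions (in `Pool.Agent.Lib.MP_ca2859_nt.Defs` and `.Member`) are those of the problem
file, for `g ≥ 2`: a hyperelliptic curve of genus `g` over `K` is given by an equation
`y² = f(x)`; `n_v` is the least valuation of the discriminants of its Weierstrass models over the
local ring at `v`; `Δ_C = ∏ N_v ^ n_v`; `M_C` is the product of the `N_v` over the places of bad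
reduction. `member F t` is the polynomial over `K` obtained by evaluating at `t` the coefficients
of `F`, which are polynomials in `r` variables over `𝓞 K`.
-/

open Polynomial IsDedekindDomain NumberField
open Pool.Agent.Lib.MP_ca2859_nt

namespace Pool.Agent.Lib.MP_ca2859_nt.OldPolyFamilies

/-- Let `K` be a number field of degree `d`, with an integral basis `ω`, let `g ≥ 2`, and let
`y² = F_t(x)` be any family of hyperelliptic curves of genus `g` (that is, generically so) whose
coefficients are polynomials of degree at most `e` over `𝓞 K` in `t = (t_1, …, t_r)`, `r ≥ 1`. Let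
`κ ≥ (2 g + 1) (g + 3)` and `κ > (4 g + 2) e`. There are `c` and `δ > 0` such that, among the
`(2 H + 1) ^ (d r)` points `t` in `(𝓞 K) ^ r` with coordinates of absolute value at most `H`, all
but `c H ^ (d r - δ)` give a hyperelliptic curve `C : y² = F_t(x)` of genus `g` with
`Δ_C ≤ c M_C ^ κ`. -/
theorem old_result (K : Type) [Field K] [NumberField K] {ι : Type} [Fintype ι]
    (ω : Module.Basis ι ℤ (𝓞 K)) (r : ℕ) (hr : 0 < r) (g : ℕ) (hg : 2 ≤ g)
    (F : (MvPolynomial (Fin r) (𝓞 K))[X])
    (hF : IsHyperelliptic g (F.map (algebraMap (MvPolynomial (Fin r) (𝓞 K))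
      (FractionRing (MvPolynomial (Fin r) (𝓞 K))))))
    (e : ℕ) (he : ∀ i, (F.coeff i).totalDegree ≤ e) (κ : ℝ) (hκ1 : (4 * g + 2) * e < κ)
    (hκ2 : (2 * g + 1) * (g + 3) ≤ κ) :
    ∃ c δ : ℝ, 0 < δ ∧ ∀ H : ℕ, 1 ≤ H →
      ((({t : Fin r → 𝓞 K | (∀ i j, |ω.repr (t i) j| ≤ (H : ℤ)) ∧
        ¬ (IsHyperelliptic g (member F t) ∧
          (DeltaC g (member F t) : ℝ) ≤ c * (MC g (member F t) : ℝ) ^ κ)}).ncard : ℕ) : ℝ) ≤
      c * (H : ℝ) ^ (Module.finrank ℚ K * (r : ℝ) - δ) :=
  family_final ω r hr g (by omega) F hF e he κ hκ1 hκ2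

end Pool.Agent.Lib.MP_ca2859_nt.OldPolyFamilies
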