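import Mathlib
import Pool.Agent.Lib.MP_ca2859_nt.Defs
import Pool.Agent.Lib.MP_ca2859_nt.Global

/-!
# The minimal discriminant is controlled by the bad places and the stable discriminant

The definitions (in `Pool.Agent.Lib.MP_ca2859_nt.Defs`) are those of the problem file, for
`g ≥ 2`: a hyperelliptic curve of genus `g` over `K` is given by an equation `y² = f(x)`; its
Weierstrass models over the local ring at `v` are the integral equations `y² + Q y = P` of the
same curve; `n_v` is the least valuation of their discriminants; `Δ_C = ∏ N_v ^ n_v`; `M_C` is the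
product of the `N_v` over the places with `n_v ≠ 0` (bad reduction).  The set of these places is
finite (`Pool.Agent.Lib.MP_ca2859_nt.finite_bad`), so the products are genuine finite products.
-/

open Polynomial IsDedekindDomain NumberField
open Pool.Agent.Lib.MP_ca2859_nt

namespace Pool.Agent.Lib.MP_ca2859_nt.OldStableBound

/-- For every genus `g ≥ 2` there is a constant `c` such that for every number field `K` and every
hyperelliptic curve `C : y² = f(x)` of genus `g` over `K`,
`Δ_C ≤ c ^ [K:ℚ] * M_C ^ ((2g+1)(g+3)) * (Δ_C^st) ^ ((4g+3)²)`. -/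
theorem result (g : ℕ) (hg : 2 ≤ g) :
    ∃ c : ℕ, ∀ (K : Type) [Field K] [NumberField K] (f : K[X]), IsHyperelliptic g f →
      (DeltaC g f : ℝ) ≤ (c : ℝ) ^ Module.finrank ℚ K *
        (MC g f : ℝ) ^ ((2 * g + 1) * (g + 3)) * stableDelta g f ^ ((4 * g + 3) ^ 2) :=
  ⟨cst g, fun _ _ _ f hf => global_bound g (by omega) f hf⟩

end Pool.Agent.Lib.MP_ca2859_nt.OldStableBound
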